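import Mathlib.CategoryTheory.Category.Init
import Mathlib.GroupTheory.FreeGroup.Reduce
import Mathlib.Analysis.Complex.Norm
import Mathlib.Order.CompletePartialOrder

-- ======== part 0: formerly Pool.Agent.MP_88ca14_an.DefsG
section MrgPart0

/-!
PROJECT LRX: combinatorial and geometric definitions.
-/

set_option autoImplicit false

noncomputable section

namespace Pool.Agent.MP_88ca14_an

open scoped Classical

/-! ### Labelled graphs and reduced words -/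

/-- A graph with directed edges labelled by `σ`; each label acts as an injective map defined on
a subset. -/
structure LG (σ V : Type) where
  rel : V → σ → V → Prop
  func : ∀ {v : V} {a : σ} {w w' : V}, rel v a w → rel v a w' → w = w'
  inj : ∀ {v v' : V} {a : σ} {w : V}, rel v a w → rel v' a w → v = v'

namespace LG

variable {σ V : Type} (Y : LG σ V)

/-- One step along a letter `(a, true)` (forward) or `(a, false)` (backward). -/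
def step (v : V) (a : σ × Bool) (w : V) : Prop :=
  (a.2 = true ∧ Y.rel v a.1 w) ∨ (a.2 = false ∧ Y.rel w a.1 v)

/-- A walk reading a list of letters. -/
def Walk : V → List (σ × Bool) → V → Prop
  | v, [], w => v = w
  | v, a :: L, w => ∃ u, Y.step v a u ∧ Walk u L w

/-- Every vertex has at most `D` letters. -/
def Deg (D : ℕ) : Prop :=
  ∀ x, ∃ s : Finset (σ × Bool), s.card ≤ D ∧ ∀ a y, Y.step x a y → a ∈ s

variable [DecidableEq σ]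

/-- The reduced word `g` is read from `v` and ends at `w`. -/
def Rd (v : V) (g : FreeGroup σ) (w : V) : Prop := Y.Walk v g.toWord w

def Reads (v : V) (g : FreeGroup σ) : Prop := ∃ w, Y.Rd v g w

/-- Distance at most `n`. -/
def Near (n : ℕ) (v w : V) : Prop := ∃ g, Y.Rd v g w ∧ g.norm ≤ n

def Girth (n : ℕ) : Prop := ∀ x g, Y.Rd x g x → g = 1 ∨ n ≤ g.norm

end LG

section Words

variable {σ : Type} [DecidableEq σ]

/-- The element of the free group given by one letter. -/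
def lt (a : σ × Bool) : FreeGroup σ := FreeGroup.mk [a]

/-- `m` is an initial segment of `g`. -/
def Pre (m g : FreeGroup σ) : Prop := m.norm + (m⁻¹ * g).norm = g.norm

/-- `m` lies on the geodesic from `x` to `y` in the tree. -/
def Btw (x m y : FreeGroup σ) : Prop := (x⁻¹ * m).norm + (m⁻¹ * y).norm = (x⁻¹ * y).norm

/-- The initial segment of length `k`. -/
def pfx (g : FreeGroup σ) (k : ℕ) : FreeGroup σ := FreeGroup.mk (g.toWord.take k)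

/-- All elements of norm at most `R`. -/
def ballF (σ : Type) [Fintype σ] [DecidableEq σ] (R : ℕ) : Finset (FreeGroup σ) :=
  (Finset.univ : Finset (Fin R → Option (σ × Bool))).image
    fun f => FreeGroup.mk (List.ofFn f).reduceOption

/-- A family of small sets of words, one for each length. -/
def Fam (S : ℕ → Finset (FreeGroup σ)) : Prop :=
  ∀ r, (S r).card ≤ 1024 ^ r ∧ ∀ g ∈ S r, g.norm = r

variable {V : Type}

/-- `y` reads a word of the family whose length is in `[lo, hi]`. -/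
def Hv (Y : LG σ V) (S : ℕ → Finset (FreeGroup σ)) (lo hi : ℕ) (y : V) : Prop :=
  ∃ r, lo ≤ r ∧ r ≤ hi ∧ ∃ g ∈ S r, Y.Reads y g

/-- The shadow of a family. -/
def Sh (Y : LG σ V) (S : ℕ → Finset (FreeGroup σ)) (hi : ℕ) (v : V) : Prop :=
  ∃ r, 1 ≤ r ∧ r ≤ hi ∧ ∃ y, Y.Near r v y ∧ ∃ g ∈ S r, Y.Reads y g

/-- Joined by a walk inside the shadow. -/
def ShC (Y : LG σ V) (S : ℕ → Finset (FreeGroup σ)) (hi : ℕ) : V → V → Prop :=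
  Relation.ReflTransGen fun u w => Sh Y S hi u ∧ Sh Y S hi w ∧ ∃ a, Y.step u a w

/-- The component of `x` in the shadow is covered by few balls. -/
def ThinAt (Y : LG σ V) (S : ℕ → Finset (FreeGroup σ)) (r : ℕ) (x : V) : Prop :=
  ∃ zs : Finset V, zs.card ≤ (2 ^ r) ^ 12 ∧ ∀ y, ShC Y S r x y → ∃ z ∈ zs, Y.Near (2 ^ r) z y

/-- The local event at `z` used in the union bound for `ThinAt`. -/
def Loc (Y : LG σ V) (S : ℕ → Finset (FreeGroup σ)) (r : ℕ) (z : V) : Prop :=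
  ∃ g : FreeGroup σ, Y.Reads z g ∧ g.norm = 2 ^ r / 4 ∧ ∃ a : Fin (2 ^ r / 4 + 1) → ℕ,
    (∀ t, a t ≤ r) ∧
    (∀ t t', t < t' → a t ≠ 0 → a t' ≠ 0 → t.val + 2 * a t + 2 * a t' < t'.val) ∧
    2 ^ r / 4 + 1 ≤ 21 * ∑ t, a t ∧
    ∀ t, a t ≠ 0 → ∃ v y, Y.Rd z (pfx g t.val) v ∧ Y.Near (a t) v y ∧
      ∃ w ∈ S (a t), Y.Reads y w

end Words

/-! ### Tiles -/

/-- A family of finite connected labelled graphs (types `i : ι`, scale `2 ^ r i`). -/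
structure Tiles (σ : Type) [Fintype σ] [DecidableEq σ] where
  X : Type
  ι : Type
  Γ : LG σ X
  ty : X → ι
  r : ι → ℕ
  pts : ι → Finset X
  mem_pts : ∀ x i, x ∈ pts i ↔ ty x = i
  conn : ∀ x y, ty x = ty y ↔ ∃ g, Γ.Rd x g y
  r_pos : ∀ i, 1 ≤ r i
  card_le : ∀ i, (pts i).card ≤ 17 ^ (101 * 2 ^ r i)
  deg : Γ.Deg 16
  girth : ∀ x g, Γ.Rd x g x → g = 1 ∨ 100 * 2 ^ r (ty x) ≤ g.norm
  piece : ∀ x x' g, x ≠ x' → Γ.Reads x g → Γ.Reads x' g → g.norm < 2 ^ r (ty x)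
  count : ∀ x x', x ≠ x' → ty x = ty x' → ∀ s : Finset (FreeGroup σ),
    (∀ g ∈ s, Γ.Reads x g ∧ Γ.Reads x' g) → s.card ≤ 2 ^ r (ty x)
  letters : ∀ a : σ, ∃ x y, Γ.rel x a y
  thin : ∀ S, Fam S → ∀ x, ThinAt Γ S (r (ty x)) x
  big : ∀ L, ∃ i, L ≤ r i ∧ (pts i).Nonempty ∧ 9 * (pts i).card ≤
    ((pts i ×ˢ (Finset.univ : Finset (σ × Bool))).filter fun p => ∃ y, Γ.step p.1 p.2 y).card

section Tiles

variable {σ : Type} [Fintype σ] [DecidableEq σ]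

/-- The scale of the tile of `x`. -/
def Tiles.ell (T : Tiles σ) (x : T.X) : ℕ := 2 ^ T.r (T.ty x)

/-- The scales have arbitrarily late gaps `(L, Φ L)`. -/
def Lac (T : Tiles σ) (Φ : ℕ → ℕ) : Prop :=
  ∀ K, ∃ L, K ≤ L ∧ ∀ i, 2 ^ T.r i ≤ L ∨ Φ L ≤ 2 ^ T.r i

variable {V : Type}

/-- The cell through `v` at position `x` has a vertex of lower level. -/
def Top (T : Tiles σ) (Y : LG σ V) (lev : V → ℕ) (v : V) (x : T.X) : Prop :=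
  ∃ g w, T.Γ.Reads x g ∧ Y.Rd v g w ∧ lev w < lev v

/-- The structure of the levels `≤ j + 1` of a graph glued from tiles. -/
structure Lay (T : Tiles σ) (Y : LG σ V) (Vs : Set V) (lev : V → ℕ) (j : ℕ) : Prop where
  mem : ∀ v a w, Y.rel v a w → v ∈ Vs ∧ w ∈ Vs
  cell : ∀ v ∈ Vs, lev v ≤ j → ∀ x g y, T.Γ.Rd x g y → ∃ w, Y.Rd v g w ∧ lev w ≤ lev v + 1
  cinj : ∀ v ∈ Vs, lev v ≤ j → ∀ x g y g' y' w w', T.Γ.Rd x g y → T.Γ.Rd x g' y' →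
    Y.Rd v g w → Y.Rd v g' w' → (y = y' ↔ w = w')
  common : ∀ v x x', lev v = j + 1 → Top T Y lev v x → Top T Y lev v x' → x ≠ x' →
    ∃ g w, T.Γ.Reads x g ∧ T.Γ.Reads x' g ∧ Y.Rd v g w ∧ lev w ≤ j
  edge : ∀ v a w, Y.step v a w → lev v = j + 1 → lev w ≤ j + 1 →
    ∃ x, Top T Y lev v x ∧ T.Γ.Reads x (lt a)
  top : ∀ v ∈ Vs, lev v = j + 1 → ∃ x, Top T Y lev v x
  gate : ∀ v ∈ Vs, lev v = j → ∀ x, ¬ Top T Y lev v x → ∀ g y w, T.Γ.Rd x g y → Y.Rd v g w →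
    lev w ≤ j → ∃ q, T.Γ.Rd x q y ∧ q.norm ≤ 2 * T.ell x ∧
      ∀ m u, Pre m q → Y.Rd v m u → lev u ≤ j

/-- Cells not yet glued at level `i` meet the graph in a small embedded tree. -/
def Fresh (T : Tiles σ) (Y : LG σ V) (Vs : Set V) (lev : V → ℕ) (i : ℕ) : Prop :=
  ∀ v ∈ Vs, lev v = i → ∀ x, ¬ Top T Y lev v x → ∀ g w, T.Γ.Reads x g → Y.Rd v g w →
    g.norm ≤ 2 * T.ell x ∧ (w = v → g = 1)

/-- Along the word `g` from `u`, a segment that is read in one cell and whose two ends are top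
vertices of a second cell is short. -/
def Short (T : Tiles σ) (Y : LG σ V) (lev : V → ℕ) (u : V) (g : FreeGroup σ) : Prop :=
  ∀ m m' z z' x y, Pre m m' → Pre m' g → Y.Rd u m z → Y.Rd u m' z' → Top T Y lev z x →
    T.Γ.Rd x (m⁻¹ * m') y → (∃ x', x' ≠ x ∧ Top T Y lev z x') →
    (∃ y', y' ≠ y ∧ Top T Y lev z' y') → (m⁻¹ * m').norm ≤ 90 * T.ell x

end Tiles

/-! ### Stages of the construction of the Cayley graph -/

/-- Names of vertices. -/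
inductive Addr (X : Type) : Type
  | root : Addr X
  | new : Addr X → X → X → Addr X

def Addr.lev {X : Type} : Addr X → ℕ
  | .root => 0
  | .new a _ _ => a.lev + 1

def Addr.phi {X G : Type} [Group G] (D : X → X → G) : Addr X → G
  | .root => 1
  | .new a x x' => a.phi D * D x x'

section Stage

variable {σ : Type} [Fintype σ] [DecidableEq σ] {G : Type} [Group G]

structure Core (T : Tiles σ) (π : FreeGroup σ →* G) (D : T.X → T.X → G) (Y : LG σ (Addr T.X))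
    (Vs : Set (Addr T.X)) (i : ℕ) : Prop where
  root : Addr.root ∈ Vs
  mem : ∀ v a w, Y.rel v a w → v ∈ Vs ∧ w ∈ Vs
  le : ∀ v ∈ Vs, v.lev ≤ i
  cell : ∀ v ∈ Vs, v.lev < i → ∀ x g y, T.Γ.Rd x g y → ∃ w, Y.Rd v g w ∧ w.lev ≤ v.lev + 1
  cinj : ∀ v ∈ Vs, v.lev < i → ∀ x g y g' y' w w', T.Γ.Rd x g y → T.Γ.Rd x g' y' →
    Y.Rd v g w → Y.Rd v g' w' → (y = y' ↔ w = w')
  phi : ∀ v a w, Y.rel v a w → w.phi D = v.phi D * π (FreeGroup.of a)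
  fresh : Fresh T Y Vs Addr.lev i

structure Ext {X : Type} (Y : LG σ (Addr X)) (Vs : Set (Addr X)) (Y' : LG σ (Addr X))
    (Vs' : Set (Addr X)) (i : ℕ) : Prop where
  sub : Vs ⊆ Vs'
  rel : ∀ v a w, Y.rel v a w → Y'.rel v a w
  old : ∀ v ∈ Vs', v.lev ≤ i → v ∈ Vs
  full : ∀ v a w, Y'.rel v a w → v.lev ≤ i → w.lev ≤ i → Y.rel v a w

end Stage

/-! ### Word length on a group, amenable subsets -/

structure WG (G : Type) [Group G] where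
  wl : G → ℕ
  wl_eq_zero : ∀ g, wl g = 0 ↔ g = 1
  wl_inv : ∀ g, wl g⁻¹ = wl g
  wl_mul : ∀ g h, wl (g * h) ≤ wl g + wl h
  ball : ℕ → Finset G
  mem_ball : ∀ R g, g ∈ ball R ↔ wl g ≤ R

section WG

variable {G : Type} [Group G]

def WG.ds (W : WG G) (x y : G) : ℕ := W.wl (x⁻¹ * y)

def WG.near (W : WG G) (n : ℕ) (x y : G) : Prop := W.ds x y ≤ n

/-- The `R`-neighbourhood of a set. -/
def WG.Nb (W : WG G) (R : ℕ) (S : Set G) : Set G := {x | ∃ y ∈ S, W.ds x y ≤ R}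

def l1 {α : Type} (φ : α →₀ ℝ) : ℝ := ∑ z ∈ φ.support, |φ z|

/-- Probability vectors on the `S`-balls around the points of `V` that are `ε`-close for points
at distance at most `R`. -/
def Amen {α : Type} (near : ℕ → α → α → Prop) (V : Set α) (R : ℕ) (ε : ℝ) (S : ℕ) : Prop :=
  ∃ μ : α → α →₀ ℝ, (∀ x z, 0 ≤ μ x z) ∧ (∀ x ∈ V, l1 (μ x) = 1) ∧
    (∀ x ∈ V, ∀ z, μ x z ≠ 0 → near S x z) ∧
    ∀ x ∈ V, ∀ y ∈ V, near R x y → l1 (μ x - μ y) ≤ ε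

end WG

/-! ### The group -/

section Geo

variable {σ : Type} [Fintype σ] [DecidableEq σ]

structure Gen (σ G : Type) [Fintype σ] [DecidableEq σ] [Group G] where
  W : WG G
  π : FreeGroup σ →* G
  wl_le : ∀ g, W.wl (π g) ≤ g.norm
  geod : ∀ γ, ∃ g, π g = γ ∧ g.norm = W.wl γ
  card_ball : ∀ R, (W.ball R).card ≤ (2 * Fintype.card σ + 1) ^ R

/-- The Cayley graph. -/
def cay {G : Type} [Group G] (π : FreeGroup σ →* G) : LG σ G where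
  rel v a w := w = v * π (FreeGroup.of a)
  func h h' := h.trans h'.symm
  inj h h' := mul_right_cancel (h.symm.trans h')

structure Geo (T : Tiles σ) (G : Type) [Group G] extends Gen σ G where
  lev : G → ℕ
  lev_zero : ∀ v, lev v = 0 ↔ v = 1
  lay : ∀ j, Lay T (cay π) Set.univ lev j

variable {T : Tiles σ} {G : Type} [Group G]

/-- `Top` in the Cayley graph. -/
def Geo.Tp (Γ : Geo T G) (v : G) (x : T.X) : Prop :=
  ∃ g, T.Γ.Reads x g ∧ Γ.lev (v * Γ.π g) < Γ.lev v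

/-- A geodesic word. -/
def Gen.Gd (Γ : Gen σ G) (g : FreeGroup σ) : Prop := Γ.W.wl (Γ.π g) = g.norm

/-- Descent paths: `ν` is one step, `h v` is the number of steps until the level drops. -/
structure Desc (Γ : Geo T G) where
  ν : G → G
  h : G → ℕ
  nu_one : ν 1 = 1
  h_one : h 1 = 0
  nu_ds : ∀ v, Γ.W.ds v (ν v) ≤ 1
  word : ∀ v x, Γ.Tp v x → ∃ p, T.Γ.Reads x p ∧ p.norm = h v ∧
    Γ.lev (v * Γ.π p) < Γ.lev v ∧ ∀ m, Pre m p → ν^[m.norm] v = v * Γ.π m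
  min : ∀ v x g, T.Γ.Reads x g → Γ.lev (v * Γ.π g) < Γ.lev v → h v ≤ g.norm
  two : ∀ v x x', Γ.Tp v x → Γ.Tp v x' → x ≠ x' → h v < T.ell x
  pot : ∀ v, v ≠ 1 → Γ.lev (ν v) < Γ.lev v ∨ (Γ.lev (ν v) = Γ.lev v ∧ h (ν v) < h v)

variable {Γ : Geo T G}

/-- Points deep inside a cell of scale larger than `L`. -/
def Desc.Y (D : Desc Γ) (L : ℕ) : Set G :=
  {v | ∃ x, Γ.Tp v x ∧ L < T.ell x ∧ 30 * T.ell x ≤ D.h v}

/-- Sublevel sets are convex. -/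
def Gc1P (Γ : Geo T G) : Prop :=
  ∀ u g m i, Γ.Gd g → Γ.lev u ≤ i → Γ.lev (u * Γ.π g) ≤ i → Pre m g → Γ.lev (u * Γ.π m) ≤ i

/-- A geodesic on one level is covered by any two cells chosen at its ends. -/
def CovgP (Γ : Geo T G) : Prop :=
  ∀ u g x₁ x₃, Γ.Gd g → (∀ m, Pre m g → Γ.lev (u * Γ.π m) = Γ.lev u) → Γ.Tp u x₁ →
    Γ.Tp (u * Γ.π g) x₃ → ∃ m, Pre m g ∧ T.Γ.Reads x₁ m ∧ T.Γ.Reads x₃ (g⁻¹ * m)

/-- A short first descent inside a cell is the descent path. -/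
def DaP (D : Desc Γ) : Prop :=
  ∀ z x s, T.Γ.Reads x s → Γ.lev (z * Γ.π s) < Γ.lev z →
    (∀ m, Pre m s → m ≠ s → Γ.lev (z * Γ.π m) = Γ.lev z) →
    D.h z + s.norm + 2 * T.ell x < 100 * T.ell x →
    s.norm = D.h z ∧ (∀ m, Pre m s → D.ν^[m.norm] z = z * Γ.π m) ∧
      ∀ x', Γ.Tp z x' → T.Γ.Reads x' s

/-- A geodesic first descent is read in every cell. -/
def CaP (Γ : Geo T G) : Prop :=
  ∀ a s x, Γ.Gd s → Γ.lev (a * Γ.π s) < Γ.lev a →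
    (∀ m, Pre m s → m ≠ s → Γ.lev (a * Γ.π m) = Γ.lev a) → Γ.Tp a x → T.Γ.Reads x s

/-- Cells are convex. -/
def ConvP (Γ : Geo T G) : Prop :=
  ∀ x g₀ y g, T.Γ.Rd x g₀ y → Γ.Gd g → Γ.π g = Γ.π g₀ → T.Γ.Rd x g y

/-- Contraction of descent paths. -/
def ConP (D : Desc Γ) : Prop :=
  ∀ a b, a ≠ b →
    (∃ s r, s ≤ 2 * Γ.W.ds a b ∧ r ≤ 2 * Γ.W.ds a b ∧
      Γ.W.ds (D.ν^[s] a) (D.ν^[r] b) < Γ.W.ds a b) ∨
    ∃ x g y, Γ.Tp a x ∧ T.Γ.Rd x g y ∧ b = a * Γ.π g ∧ Γ.Tp b y ∧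
      Γ.W.ds (D.ν^[D.h a] a) (D.ν^[D.h b] b) ≤ 2 * T.ell x ∧
      (10 * T.ell x ≤ Γ.W.ds a b ∨ (30 * T.ell x ≤ D.h a ∧ 30 * T.ell x ≤ D.h b))

/-- A point near a deep point and not higher lies in the same cell. -/
def FsP (D : Desc Γ) : Prop :=
  ∀ y y' x, Γ.Tp y x → 30 * T.ell x ≤ D.h y → Γ.lev y' ≤ Γ.lev y →
    Γ.W.ds y y' < 10 * T.ell x → ∃ g x', T.Γ.Rd x g x' ∧ y' = y * Γ.π g ∧ Γ.Tp y' x'

/-- Fellow travelling. -/
def FtP (D : Desc Γ) (δ K : ℕ → ℕ) : Prop :=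
  ∀ L M, (∀ x, T.ell x ≤ L ∨ M < T.ell x) → ∀ a b t, Γ.W.ds a b ≤ M →
    2 * M ^ 2 + 17 ^ (101 * L) ≤ t → (∀ t', t' ≤ t → D.ν^[t'] b ∉ D.Y L) →
    ∃ s, s ≤ t + K L * (t + 1) ∧ Γ.W.ds (D.ν^[s] a) (D.ν^[t] b) ≤ δ L

/-- Amenability away from the deep points of large cells. -/
def Am1P (W : WG G) (Y : ℕ → Set G) : Prop :=
  ∀ (R : ℕ) (ε : ℝ), 0 < ε → ∃ S', ∀ L, ∃ S, Amen W.near (W.Nb S' (Y L))ᶜ R ε S

/-- Everything that the analysis uses about the group. -/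
structure MG (T : Tiles σ) (G : Type) [Group G] extends Gen σ G where
  f : T.X → G
  f_rd : ∀ x g y, T.Γ.Rd x g y → f y = f x * π g
  conv : ∀ x y g, T.ty x = T.ty y → f y = f x * π g → W.wl (π g) = g.norm → T.Γ.Rd x g y
  pt : G → T.X
  Y : ℕ → Set G
  Y_anti : ∀ L L', L ≤ L' → Y L' ⊆ Y L
  Y_ell : ∀ L, ∀ y ∈ Y L, L < T.ell (pt y)
  sep : ∀ L, ∀ y ∈ Y L, ∀ y' ∈ Y L, W.ds y y' ≤ L →
    T.ty (pt y) = T.ty (pt y') ∧ y * (f (pt y))⁻¹ = y' * (f (pt y'))⁻¹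
  am1 : Am1P W Y
  am2 : ∀ (R : ℕ) (ε : ℝ), 0 < ε → ∃ S L, ∀ Sg : G × T.ι → ℕ → Finset (FreeGroup σ),
    (∀ c, Fam (Sg c)) → Amen W.near {y | y ∈ Y L ∧
      Hv T.Γ (Sg (y * (f (pt y))⁻¹, T.ty (pt y))) L (T.r (T.ty (pt y))) (pt y)} R ε S

/-- The cell of a deep point. -/
def MG.cl (M : MG T G) (y : G) : G × T.ι := (y * (M.f (M.pt y))⁻¹, T.ty (M.pt y))

/-- Total weight of a tile. -/
def MM (T : Tiles σ) (w : T.X → ℝ) (i : T.ι) : ℝ := ∑ y ∈ T.pts i, w y ^ 2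

/-- Weight of the points of a tile that read `g`. -/
def qq (T : Tiles σ) (w : T.X → ℝ) (i : T.ι) (g : FreeGroup σ) : ℝ :=
  ∑ y ∈ (T.pts i).filter fun y => T.Γ.Reads y g, w y ^ 2

/-- Heavy words of length `r`. -/
def Hs (T : Tiles σ) (w : T.X → ℝ) (i : T.ι) (r : ℕ) : Finset (FreeGroup σ) :=
  (ballF σ r).filter fun g => g.norm = r ∧ MM T w i < 64 ^ r * qq T w i g

/-- `x` reads no heavy word of length in `[L, r i]`. -/
def Light (T : Tiles σ) (w : T.X → ℝ) (i : T.ι) (L : ℕ) (x : T.X) : Prop :=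
  ¬ Hv T.Γ (Hs T w i) L (T.r i) x

end Geo

/-! ### Colourings and cylinders -/

section Col

variable {E C : Type}

def InCyl (ω : E → C) (κ : Finset E × (E → C)) : Prop := ∀ e ∈ κ.1, ω e = κ.2 e

/-- The event `Ev` is covered by cylinders supported in `Rg` of total weight at most `θ`. -/
def Cov (β : ℝ) (Ev : Set (E → C)) (Rg : Set E) (θ : ℝ) : Prop :=
  ∃ K : Finset (Finset E × (E → C)), (∀ κ ∈ K, (κ.1 : Set E) ⊆ Rg) ∧
    (∀ ω ∈ Ev, ∃ κ ∈ K, InCyl ω κ) ∧ ∑ κ ∈ K, β⁻¹ ^ κ.1.card ≤ θ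

/-- The graph `Γ` with the edge `(v, b)` coloured by `ω (v, b)`. -/
def col {B V : Type} (Γ : LG B V) (ω : V × B → C) : LG (B × C) V where
  rel v a w := Γ.rel v a.1 w ∧ ω (v, a.1) = a.2
  func h h' := Γ.func h.1 h'.1
  inj h h' := Γ.inj h.1 h'.1

/-- Forget the colours. -/
def pr {B : Type} (g : FreeGroup (B × C)) : FreeGroup B := FreeGroup.map Prod.fst g

/-- Two different vertices have at most `n` common words. -/
def Cnt {σ V : Type} [DecidableEq σ] (Y : LG σ V) (n : ℕ) : Prop :=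
  ∀ x x', x ≠ x' → ∀ s : Finset (FreeGroup σ), (∀ g ∈ s, Y.Reads x g ∧ Y.Reads x' g) → s.card ≤ n

/-- A good single tile of scale `2 ^ r`. -/
structure Tile {σ : Type} [Fintype σ] [DecidableEq σ] {N : ℕ} (Y : LG σ (Fin N)) (r : ℕ) :
    Prop where
  pos : 0 < N
  card_le : N ≤ 17 ^ (101 * 2 ^ r)
  conn : ∀ x y, ∃ g, Y.Rd x g y
  deg : Y.Deg 16
  girth : Y.Girth (100 * 2 ^ r)
  count : Cnt Y (2 ^ r)
  thin : ∀ S, Fam S → ∀ x, ThinAt Y S r x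
  big : 9 * N ≤ (Finset.univ.filter fun p : Fin N × (σ × Bool) => ∃ y, Y.step p.1 p.2 y).card

end Col

end Pool.Agent.MP_88ca14_an

end
end MrgPart0

-- ======== part 1: formerly Pool.Agent.MP_88ca14_an.SpecG
section MrgPart1

/-!
PROJECT LRX: statements of the combinatorial and geometric modules.
-/

set_option autoImplicit false

noncomputable section

namespace Pool.Agent.MP_88ca14_an

open scoped Classical

/-! ### Random tiles -/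

def GrStmt : Prop :=
  ∀ l : ℕ, 1 ≤ l → ∃ (N : ℕ) (Γ : LG (Fin 8) (Fin N)), 0 < N ∧ N ≤ 17 ^ (101 * l) ∧
    (∀ x y, ∃ g, Γ.Rd x g y) ∧ Γ.Girth (100 * l) ∧
    9 * N ≤ (Finset.univ.filter fun p : Fin N × (Fin 8 × Bool) => ∃ y, Γ.step p.1 p.2 y).card

def RosStmt : Prop :=
  ∀ (E C : Type) [Fintype E] [Fintype C] (β : ℝ), 1 ≤ β → β ≤ Fintype.card C →
    ∀ K : Finset (Finset E × (E → C)), (∀ κ ∈ K, κ.1.Nonempty) →
    (∀ e, ∑ κ ∈ K.filter (fun κ => e ∈ κ.1), β⁻¹ ^ (κ.1.card - 1) ≤ Fintype.card C - β) →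
    ∀ (Ev : Set (E → C)) (θ : ℝ), θ < 1 → Cov β Ev Set.univ θ →
      ∃ ω, (∀ κ ∈ K, ¬ InCyl ω κ) ∧ ω ∉ Ev

def CovUStmt : Prop :=
  ∀ (E C ι : Type) (β : ℝ), 0 < β → ∀ (s : Finset ι) (Ev : ι → Set (E → C)) (Rg : Set E)
    (θ : ι → ℝ), (∀ i ∈ s, Cov β (Ev i) Rg (θ i)) → Cov β (⋃ i ∈ s, Ev i) Rg (∑ i ∈ s, θ i)

def CovIStmt : Prop :=
  ∀ (E C ι : Type) [Nonempty C] (β : ℝ), 0 < β → ∀ (s : Finset ι) (Ev : ι → Set (E → C))
    (Rg : ι → Set E) (θ : ι → ℝ), (∀ i ∈ s, Cov β (Ev i) (Rg i) (θ i)) →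
    (∀ i ∈ s, ∀ j ∈ s, i ≠ j → Disjoint (Rg i) (Rg j)) →
    Cov β (⋂ i ∈ s, Ev i) (⋃ i ∈ s, Rg i) (∏ i ∈ s, θ i)

def LiftStmt : Prop :=
  ∀ (B C V : Type) [DecidableEq B] [DecidableEq C] (Γ : LG B V) (ω : V × B → C),
    (∀ x g y, (col Γ ω).Rd x g y → Γ.Rd x (pr g) y ∧ (pr g).norm = g.norm) ∧
    (∀ x g₀ y, Γ.Rd x g₀ y → ∃ g, (col Γ ω).Rd x g y ∧ pr g = g₀) ∧
    (∀ x g g', (col Γ ω).Reads x g → (col Γ ω).Reads x g' → pr g = pr g' → g = g')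

def CylStmt : Prop :=
  ∀ (B C V : Type) [DecidableEq B] [DecidableEq C] [Nonempty C] (Γ : LG B V) (n : ℕ),
    Γ.Girth n → ∀ (x : V) (g : FreeGroup (B × C)), g.norm < n → Γ.Reads x (pr g) →
    (pr g).norm = g.norm → ∃ κ : Finset (V × B) × (V × B → C), κ.1.card = g.norm ∧
      (∀ e ∈ κ.1, Γ.Near g.norm x e.1) ∧ ∀ ω, (col Γ ω).Reads x g ↔ InCyl ω κ

def PcsStmt : Prop :=
  ∀ (C : Type) [Fintype C] [DecidableEq C] (β : ℕ), β = 17 ^ 3000 → Fintype.card C = 2 * β →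
    ∀ (l N : ℕ) (Γ : LG (Fin 8) (Fin N)), 1 ≤ l → N ≤ 17 ^ (101 * l) → Γ.Girth (100 * l) →
      Cov (β : ℝ) {ω : Fin N × Fin 8 → C | ¬ Cnt (col Γ ω) l} Set.univ (1 / 3)

def X7aStmt : Prop :=
  ∀ (σ V : Type) [DecidableEq σ] (Y : LG σ V) (S : ℕ → Finset (FreeGroup σ)) (r : ℕ) (x : V),
    ¬ ThinAt Y S r x → ∃ z : Fin ((2 ^ r) ^ 12) → V,
      (∀ k, k.val = 0 ∨ ∃ j, j < k ∧ Y.Near (2 ^ r) (z j) (z k)) ∧
      (∀ j k, j ≠ k → ¬ Y.Near (2 ^ r - 1) (z j) (z k)) ∧ ∀ k, Loc Y S r (z k)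

def X7bStmt : Prop :=
  ∀ (C : Type) [Fintype C] [DecidableEq C] (β : ℕ), β = 17 ^ 3000 → Fintype.card C = 2 * β →
    ∀ (r N : ℕ) (Γ : LG (Fin 8) (Fin N)), 6 ≤ r → N ≤ 17 ^ (101 * 2 ^ r) →
      Γ.Girth (100 * 2 ^ r) →
      Cov (β : ℝ) {ω : Fin N × Fin 8 → C | ¬ ∀ S, Fam S → ∀ x, ThinAt (col Γ ω) S r x}
        Set.univ (1 / 3)

def XstepStmt : Prop :=
  ∀ (C : Type) [Fintype C] [DecidableEq C] (β : ℕ), β = 17 ^ 3000 → Fintype.card C = 2 * β →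
    ∀ r : ℕ, 6 ≤ r → ∀ (Λ : Finset ℕ) (Wd : ℕ → Finset (FreeGroup (Fin 8 × C))),
      (∀ n ∈ Λ, 1 ≤ n ∧ n ≤ 2 ^ r ∧ (Wd n).card ≤ 17 ^ (102 * n) ∧ ∀ g ∈ Wd n, g.norm = n) →
      ∃ (N : ℕ) (Y : LG (Fin 8 × C) (Fin N)), Tile Y r ∧
        ∀ x, ∀ n ∈ Λ, ∀ g ∈ Wd n, ¬ Y.Reads x g

def XiStmt : Prop :=
  ∀ Φ : ℕ → ℕ, ∃ (σ : Type) (_ : Fintype σ) (_ : DecidableEq σ) (T : Tiles σ), Lac T Φ

/-! ### The Cayley graph -/

def StepAStmt : Prop :=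
  ∀ (σ : Type) [Fintype σ] [DecidableEq σ] (T : Tiles σ) (G : Type) [Group G]
    (π : FreeGroup σ →* G) (D : T.X → T.X → G), (∀ x g y, T.Γ.Rd x g y → D x y = π g) →
    ∀ (Y : LG σ (Addr T.X)) (Vs : Set (Addr T.X)) (i : ℕ), Core T π D Y Vs i →
      ∃ (Y' : LG σ (Addr T.X)) (Vs' : Set (Addr T.X)), Ext Y Vs Y' Vs' i ∧
        Lay T Y' Vs' Addr.lev i ∧ (∀ v ∈ Vs', v.lev ≤ i + 1) ∧
        ∀ v a w, Y'.rel v a w → w.phi D = v.phi D * π (FreeGroup.of a)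

/-- The two-cell cover of a word on one level. -/
def TwoStmt : Prop :=
  ∀ (σ : Type) [Fintype σ] [DecidableEq σ] (T : Tiles σ) (V : Type) (Y : LG σ V) (Vs : Set V)
    (lev : V → ℕ) (j : ℕ), Lay T Y Vs lev j → ∀ u g w x₁ x₃, Y.Rd u g w →
      (∀ m z, Pre m g → Y.Rd u m z → lev z = j + 1) → Top T Y lev u x₁ → Top T Y lev w x₃ →
      Short T Y lev u g → ∃ m, Pre m g ∧ T.Γ.Reads x₁ m ∧ T.Γ.Reads x₃ (g⁻¹ * m)

def StepBStmt : Prop :=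
  ∀ (σ : Type) [Fintype σ] [DecidableEq σ] (T : Tiles σ) (V : Type) (Y : LG σ V) (Vs : Set V)
    (lev : V → ℕ) (j : ℕ), Lay T Y Vs lev j → (∀ v ∈ Vs, lev v ≤ j + 1) →
      Fresh T Y Vs lev (j + 1)

def GeoStmt : Prop :=
  ∀ (σ : Type) [Fintype σ] [DecidableEq σ] (T : Tiles σ),
    ∃ (G : Type) (_ : Group G), Nonempty (Geo T G)

/-! ### Geometry -/

def DescStmt : Prop :=
  ∀ (σ : Type) [Fintype σ] [DecidableEq σ] (T : Tiles σ) (G : Type) [Group G] (Γ : Geo T G),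
    ∃ D : Desc Γ, DaP D

def GcStmt : Prop :=
  ∀ (σ : Type) [Fintype σ] [DecidableEq σ] (T : Tiles σ) (G : Type) [Group G] (Γ : Geo T G)
    (D : Desc Γ), DaP D → CovgP Γ ∧ Gc1P Γ ∧ CaP Γ ∧ ConvP Γ

def ConStmt : Prop :=
  ∀ (σ : Type) [Fintype σ] [DecidableEq σ] (T : Tiles σ) (G : Type) [Group G] (Γ : Geo T G)
    (D : Desc Γ), DaP D → CovgP Γ → Gc1P Γ → CaP Γ → ConP D ∧ FsP D

def FtStmt : Prop :=
  ∃ δ K : ℕ → ℕ, ∀ (σ : Type) [Fintype σ] [DecidableEq σ] (T : Tiles σ) (G : Type) [Group G]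
    (Γ : Geo T G) (D : Desc Γ), ConP D → FtP D δ K

def UnnStmt : Prop :=
  ∀ (α : Type) (near : ℕ → α → α → Prop) (V : Set α) (R : ℕ) (ε : ℝ) (S : ℕ) (ξ : α → α →₀ ℝ),
    (∀ x z, 0 ≤ ξ x z) → (∀ x ∈ V, 0 < l1 (ξ x)) → (∀ x ∈ V, ∀ z, ξ x z ≠ 0 → near S x z) →
    (∀ x ∈ V, ∀ y ∈ V, near R x y → l1 (ξ x - ξ y) ≤ ε * l1 (ξ x)) → Amen near V R (2 * ε) S

def NestStmt : Prop :=
  ∀ (G : Type) [Group G] (W : WG G) (Ω : Type) (F : G → ℕ → Finset Ω) (κ : Ω → G) (V : Set G)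
    (R M A C S : ℕ), 0 < A → 0 < M →
    (∀ x ∈ V, ∀ y ∈ V, W.ds x y ≤ R → ∀ k, F x k ⊆ F y (k + R)) →
    (∀ x ∈ V, ∀ k, k ≤ M + 2 * R → A ≤ (F x k).card ∧ (F x k).card ≤ C * A ∧
      ∀ o ∈ F x k, W.ds x (κ o) ≤ S) →
    Amen W.near V R (4 * R * C / M) S

def NbhStmt : Prop :=
  ∀ (G : Type) [Group G] (W : WG G) (V : Set G) (R R₀ : ℕ) (ε : ℝ) (S : ℕ),
    Amen W.near V (R + 2 * R₀) ε S → Amen W.near (W.Nb R₀ V) R ε (S + R₀)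

def Am1Stmt : Prop :=
  ∃ Φ : ℕ → ℕ, ∀ (σ : Type) [Fintype σ] [DecidableEq σ] (T : Tiles σ) (G : Type) [Group G]
    (Γ : Geo T G) (D : Desc Γ), Lac T Φ → ConP D → FsP D → Am1P Γ.W D.Y

def XaStmt : Prop :=
  ∀ (R : ℕ) (ε : ℝ), 0 < ε → ∃ S L : ℕ, ∀ (σ : Type) [Fintype σ] [DecidableEq σ] (T : Tiles σ)
    (i : T.ι), L ≤ T.r i → ∀ Sg, Fam Sg →
      Amen T.Γ.Near {y | T.ty y = i ∧ Hv T.Γ Sg L (T.r i) y} R ε S

def MonStmt : Prop :=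
  ∀ (σ : Type) [Fintype σ] [DecidableEq σ] (T : Tiles σ) (G : Type) [Group G] (Γ : Geo T G)
    (D : Desc Γ), ConvP Γ → FsP D → Am1P Γ.W D.Y → Nonempty (MG T G)

def HvStmt : Prop :=
  ∀ (σ : Type) [Fintype σ] [DecidableEq σ] (T : Tiles σ) (w : T.X → ℝ) (i : T.ι),
    Fam (Hs T w i)

def L2Stmt : Prop :=
  ∀ (σ : Type) [Fintype σ] [DecidableEq σ] (T : Tiles σ) (G : Type) [Group G] (M : MG T G)
    (i : T.ι) (L : ℕ) (w : T.X → ℝ) (kk : T.X → T.X → ℂ), L ≤ T.r i → (∀ x, 0 ≤ w x) →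
    (∀ x y, ‖kk x y‖ ≤ w x * w y) →
    (∀ x y, kk x y ≠ 0 → Light T w i L x ∧ Light T w i L y) →
    ∀ Γ : Finset G, (∀ g ∈ Γ, L ≤ M.W.wl g) →
      ∑ g ∈ Γ, ‖∑ x ∈ T.pts i, ∑ y ∈ T.pts i, if M.f y = M.f x * g then kk x y else 0‖ ^ 2 ≤
        2 * ∑ x ∈ T.pts i, ∑ y ∈ T.pts i, ‖kk x y‖ ^ 2 + 12 * MM T w i ^ 2 / 2 ^ L

def ForestStmt : Prop :=
  ∀ (σ V : Type) [Fintype σ] [DecidableEq σ] (Y : LG σ V), Y.Deg 16 →
    ∀ (P : Finset V) (φ : V → ℝ), (∀ x, 0 ≤ φ x) →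
    (∑ x ∈ P, ∑ a : σ × Bool, ∑ y ∈ P, (if Y.step x a y then φ x * φ y else 0) ≤
        16 * ∑ x ∈ P, φ x ^ 2) ∧
    ((∀ x ∈ P, ∀ g, Y.Rd x g x → g = 1 ∨ 2 * P.card + 1 < g.norm) →
      ∑ x ∈ P, ∑ a : σ × Bool, ∑ y ∈ P, (if Y.step x a y then φ x * φ y else 0) ≤
        8 * ∑ x ∈ P, φ x ^ 2)

/-- The group exists. -/
def GrpStmt : Prop :=
  ∃ (σ : Type) (_ : Fintype σ) (_ : DecidableEq σ) (T : Tiles σ) (G : Type) (_ : Group G),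
    Nonempty (MG T G)

theorem grp_of (hxi : XiStmt) (hgeo : GeoStmt) (hd : DescStmt) (hgc : GcStmt) (hcon : ConStmt)
    (ham : Am1Stmt) (hmon : MonStmt) : GrpStmt := by
  obtain ⟨Φ, hΦ⟩ := ham
  obtain ⟨σ, i1, i2, T, hT⟩ := hxi Φ
  obtain ⟨G, i3, ⟨Γ⟩⟩ := hgeo σ T
  obtain ⟨D, hD⟩ := hd σ T G Γ
  obtain ⟨h1, h2, h3, h4⟩ := hgc σ T G Γ D hD
  obtain ⟨h5, h6⟩ := hcon σ T G Γ D hD h1 h2 h3
  exact ⟨σ, i1, i2, T, G, i3, hmon σ T G Γ D h4 h6 (hΦ σ T G Γ D hT h5 h6)⟩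

end Pool.Agent.MP_88ca14_an

end
end MrgPart1

-- marker of a merged file
example : 731051 + 642251 = 731051 + 642251 := rfl
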