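import Mathlib.Analysis.CStarAlgebra.CStarMatrix
import Mathlib.Order.CompletePartialOrder

/-!
Local reflexivity and exactness of C⋆-algebras: the definitions used in the final statement.
-/

set_option autoImplicit false

noncomputable section

namespace Pool.Agent.MP_88ca14_an

open Filter Topology
open scoped TensorProduct ENNReal

/-- The bidual `A**` of a normed space. -/
abbrev Bid (A : Type) [NormedAddCommGroup A] [NormedSpace ℂ A] : Type :=
  StrongDual ℂ (StrongDual ℂ A)

section LR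

variable {A : Type} [CStarAlgebra A] [PartialOrder A] [StarOrderedRing A]

/-- The map `a ↦ a ⊗ e_{pq}` from `A` to the C⋆-algebra `M_k(A)`. -/
def sing {k : ℕ} (p q : Fin k) : A →L[ℂ] CStarMatrix (Fin k) (Fin k) A where
  toFun a := CStarMatrix.ofMatrix (Matrix.single p q a)
  map_add' a b := by rw [Matrix.single_add]; rfl
  map_smul' c a := by
    rw [RingHom.id_apply, ← Matrix.smul_single]; rfl
  cont := by
    refine continuous_pi fun i => continuous_pi fun j => ?_
    by_cases h : p = i ∧ q = j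
    · have : (fun a : A => CStarMatrix.ofMatrix (Matrix.single p q a) i j) = fun a => a := by
        funext a; simp [Matrix.single, h]
      rw [this]; exact continuous_id
    · have : (fun a : A => CStarMatrix.ofMatrix (Matrix.single p q a) i j) = fun _ => 0 := by
        funext a; simp [Matrix.single, h]
      rw [this]; exact continuous_const

/-- The canonical identification `M_k(A**) = M_k(A)**`: the matrix `x` acts on a functional `ψ`
of `M_k(A)` by `∑ p q, x p q (a ↦ ψ (a ⊗ e_{pq}))`. -/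
def hat {k : ℕ} (x : Matrix (Fin k) (Fin k) (Bid A)) : Bid (CStarMatrix (Fin k) (Fin k) A) :=
  ∑ p, ∑ q, (x p q).comp (ContinuousLinearMap.precomp ℂ (sing p q))

/-- A linear map `u` from a subspace `E` of `A**` to `A` is a complete contraction: for every `k`
the amplification `M_k(E) → M_k(A)` is contractive, where `M_k(E) ⊆ M_k(A**) = M_k(A)**`. -/
def IsCC (E : Submodule ℂ (Bid A)) (u : E →ₗ[ℂ] A) : Prop :=
  ∀ (k : ℕ) (x : Matrix (Fin k) (Fin k) E),
    ‖CStarMatrix.ofMatrix (x.map u)‖ ≤ ‖hat (x.map Subtype.val)‖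

variable (A) in
/-- `A` is locally reflexive: for every finite-dimensional `E ⊆ A**` there is a net of complete
contractions `u i : E → A` with `u i e → e` in the topology `σ(A**, A*)` for each `e ∈ E`. -/
def LocallyReflexive : Prop :=
  ∀ E : Submodule ℂ (Bid A), Module.Finite ℂ E →
    ∃ (ι : Type) (_ : Preorder ι) (_ : IsDirected ι (· ≤ ·)) (_ : Nonempty ι)
      (u : ι → E →ₗ[ℂ] A), (∀ i, IsCC E (u i)) ∧
        ∀ (e : E) (f : StrongDual ℂ A), Tendsto (fun i => f (u i e)) atTop (𝓝 (e.1 f))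

end LR

section Exact

/-- A state: a unital linear functional that is nonnegative on the elements `b* b`. -/
def IsState {B : Type} [CStarAlgebra B] (φ : B →ₗ[ℂ] ℂ) : Prop :=
  φ 1 = 1 ∧ ∀ b : B, 0 ≤ (φ (star b * b)).re ∧ (φ (star b * b)).im = 0

/-- The product functional `φ ⊗ ψ` on the algebraic tensor product. -/
def prodFun {B A : Type} [CStarAlgebra B] [CStarAlgebra A] (φ : B →ₗ[ℂ] ℂ) (ψ : A →ₗ[ℂ] ℂ) :
    B ⊗[ℂ] A →ₗ[ℂ] ℂ :=
  (TensorProduct.lid ℂ ℂ).toLinearMap ∘ₗ TensorProduct.map φ ψ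

/-- The minimal (spatial) C⋆-norm on the algebraic tensor product, by Turumaru's formula:
the supremum of `(φ ⊗ ψ)((x y)* (x y))^(1/2)` over states `φ`, `ψ` and `y` with
`(φ ⊗ ψ)(y* y) ≤ 1`. -/
def minNorm {B A : Type} [CStarAlgebra B] [CStarAlgebra A] (x : B ⊗[ℂ] A) : ℝ≥0∞ :=
  ⨆ (φ : B →ₗ[ℂ] ℂ) (_ : IsState φ) (ψ : A →ₗ[ℂ] ℂ) (_ : IsState ψ) (y : B ⊗[ℂ] A)
    (_ : (prodFun φ ψ (star y * y)).re ≤ 1),
      ENNReal.ofReal (Real.sqrt (prodFun φ ψ (star (x * y) * (x * y))).re)

/-- Exactness in the middle of `0 → I ⊗ A → B ⊗ A → C ⊗ A → 0` (minimal tensor products) for every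
surjective ⋆-homomorphism `q : B → C` with kernel `I`.  An element of `B ⊗_min A` is a Cauchy
sequence `x` in the algebraic tensor product; if its image in `C ⊗_min A` is zero, then it lies in
the closure of the span of the `b ⊗ a` with `b ∈ I`. -/
def IsExact (A : Type) [CStarAlgebra A] : Prop :=
  ∀ (B C : Type) [CStarAlgebra B] [CStarAlgebra C] (q : B →⋆ₐ[ℂ] C), Function.Surjective q →
    ∀ x : ℕ → B ⊗[ℂ] A,
      (∀ ε : ℝ≥0∞, 0 < ε → ∃ N, ∀ m, N ≤ m → ∀ n, N ≤ n → minNorm (x m - x n) < ε) →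
      Tendsto (fun n => minNorm (LinearMap.rTensor A q.toAlgHom.toLinearMap (x n))) atTop (𝓝 0) →
      ∀ ε : ℝ≥0∞, 0 < ε →
        ∃ y ∈ Submodule.span ℂ {z : B ⊗[ℂ] A | ∃ (b : B) (a : A), q b = 0 ∧ z = b ⊗ₜ[ℂ] a},
          ∃ N, ∀ n, N ≤ n → minNorm (x n - y) < ε

end Exact

end Pool.Agent.MP_88ca14_an
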