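import Mathlib.Tactic.Monotonicity.Lemmas
import Mathlib.LinearAlgebra.Matrix.PosDef
import Mathlib.Analysis.InnerProductSpace.Adjoint
import Mathlib.Data.List.ReduceOption
import Mathlib.Tactic.Cases
import Mathlib.Tactic.Polynomial.Basic
import Pool.Agent.MP_88ca14_an.Stmt
import Pool.Agent.MP_88ca14_an.SpecG

-- ======== part 0: formerly Pool.Agent.MP_88ca14_an.DefsA
section MrgPart0

/-!
PROJECT LRX: analytic definitions.
-/

set_option autoImplicit false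
set_option maxSynthPendingDepth 3

noncomputable section

namespace Pool.Agent.MP_88ca14_an

open Filter Topology
open scoped Classical TensorProduct ENNReal ComplexConjugate

/-- The ultrafilter used for all limits. -/
abbrev UU : Filter ℕ := (Filter.hyperfilter ℕ : Ultrafilter ℕ)

/-- Square of the Euclidean norm. -/
def nsq {m : Type} [Fintype m] (v : m → ℂ) : ℝ := ∑ i, ‖v i‖ ^ 2

/-- The sesquilinear form of a matrix. -/
def fm {m n : Type} [Fintype m] [Fintype n] (M : m → n → ℂ) (v : m → ℂ) (w : n → ℂ) : ℂ :=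
  ∑ i, ∑ j, conj (v i) * M i j * w j

/-- The operator norm of `M` is at most `c`. -/
def Bd {m n : Type} [Fintype m] [Fintype n] (M : m → n → ℂ) (c : ℝ) : Prop :=
  ∀ v w, ‖fm M v w‖ ≤ c * √(nsq v) * √(nsq w)

section Alg

variable {A : Type} [CStarAlgebra A] [PartialOrder A] [StarOrderedRing A]

/-- The norm of `M_k(A)`. -/
def mn {k : ℕ} (a : Matrix (Fin k) (Fin k) A) : ℝ := ‖CStarMatrix.ofMatrix a‖

/-- `a ↦ (θ x y a)` is a complete contraction from `A` to a matrix algebra. -/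
def CCF {m : Type} [Fintype m] (θ : m → m → StrongDual ℂ A) : Prop :=
  ∀ (k : ℕ) (a : Matrix (Fin k) (Fin k) A),
    Bd (fun (p q : Fin k × m) => θ p.2 q.2 (a p.1 q.1)) (mn a)

/-- The element `∑ j, b j ⊗ e j` has numerical radius at most one in every slice. -/
def NR {d : ℕ} (e : Fin d → Bid A) {K : Type} [Fintype K] (b : Fin d → K → K → ℂ) : Prop :=
  ∀ (m : Type) [Fintype m] (θ : m → m → StrongDual ℂ A), CCF θ → ∀ v : K × m → ℂ,
    ‖∑ j, fm (fun (p q : K × m) => b j p.1 q.1 * e j (θ p.2 q.2)) v v‖ ≤ nsq v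

/-- The linear map `e j ↦ a j` is a complete contraction. -/
def CCm {d : ℕ} (e : Fin d → Bid A) (a : Fin d → A) : Prop :=
  ∀ (k : ℕ) (c : Fin d → Matrix (Fin k) (Fin k) ℂ),
    mn (Matrix.of fun p q => ∑ j, c j p q • a j) ≤
      ‖hat (Matrix.of fun p q => ∑ j, c j p q • e j)‖

variable (A) in
/-- The dual form of local reflexivity. -/
def DualLR : Prop :=
  ∀ (d : ℕ) (e : Fin d → Bid A), LinearIndependent ℂ e → ∀ F : Fin d → StrongDual ℂ A,
    (∀ a, CCm e a → (∑ j, F j (a j)).re ≤ 1) → (∑ j, e j (F j)).re ≤ 1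

/-- The limit of the functionals `Φ i` pairs with `e` to at most the limit of `m i`, plus `err`. -/
def GoodL {d : ℕ} (e : Fin d → Bid A) (Φ : ℕ → Fin d → StrongDual ℂ A) (m : ℕ → ℝ) (err : ℝ) :
    Prop :=
  ∀ (F : Fin d → StrongDual ℂ A) (μ : ℝ),
    (∀ j a, Tendsto (fun i => Φ i j a) UU (𝓝 (F j a))) → Tendsto m UU (𝓝 μ) →
      ‖∑ j, e j (F j)‖ ≤ μ + err

/-- The coefficient matrices. -/
structure Sys {d : ℕ} (e : Fin d → Bid A) where
  k : ℕ → ℕ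
  b : ∀ i, Fin d → Fin (k i) → Fin (k i) → ℂ
  C : ℝ
  C_nonneg : 0 ≤ C
  bd : ∀ i j, Bd (b i j) C
  nr : ∀ i, NR e (b i)

end Alg

/-- What is used about the reduced group C⋆-algebra `A` of `G`: `u g` is right translation on
`ℓ²(G)` and `co x y a = ⟪δ x, a (δ y)⟫`. -/
structure Reg (G A : Type) [Group G] [CStarAlgebra A] [PartialOrder A] [StarOrderedRing A] where
  u : G →* A
  u_star : ∀ g, star (u g) = u g⁻¹
  co : G → G → StrongDual ℂ A
  co_u : ∀ x y g, co x y (u g) = if y = x * g then 1 else 0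
  dense : Dense (Submodule.span ℂ (Set.range u) : Set A)
  mat_le : ∀ (k : ℕ) (a : Matrix (Fin k) (Fin k) A) (s : Finset G),
    Bd (fun (p q : Fin k × s) => co p.2 q.2 (a p.1 q.1)) (mn a)
  le_mat : ∀ (k : ℕ) (a : Matrix (Fin k) (Fin k) A) (c : ℝ), 0 ≤ c →
    (∀ s : Finset G, Bd (fun (p q : Fin k × s) => co p.2 q.2 (a p.1 q.1)) c) → mn a ≤ c
  pos : ∀ (k : ℕ) (M : Matrix (Fin k) (Fin k) A),
    (∀ (s : Finset G) (v : Fin k × s → ℂ),
      0 ≤ (fm (fun (p q : Fin k × s) => co p.2 q.2 (M p.1 q.1)) v v).re ∧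
      (fm (fun (p q : Fin k × s) => co p.2 q.2 (M p.1 q.1)) v v).im = 0) →
    ∀ a : Fin k → A, ∃ c : A, ∑ p, ∑ q, star (a p) * M p q * a q = star c * c
  co_pos : ∀ a, 0 ≤ (co 1 1 (star a * a)).re ∧ (co 1 1 (star a * a)).im = 0

/-- Finitely supported vectors in `ℓ²(G) ⊗ ℂ^K`. -/
abbrev Vec (G K : Type) : Type := G →₀ (K → ℂ)

section Vec

variable {G K : Type} [Fintype K]

/-- Mass of a vector. -/
def ms (ζ : Vec G K) : ℝ := ∑ x ∈ ζ.support, nsq (ζ x)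

/-- Restriction to a set. -/
def res (S : Set G) (ζ : Vec G K) : Vec G K := ζ.filter (· ∈ S)

/-- Mass of the coordinate `p`. -/
def cms (ζ : Vec G K) (p : K) : ℝ := ∑ x ∈ ζ.support, ‖ζ x p‖ ^ 2

/-- The Gram matrix of the coordinates is diagonal. -/
def DG (ζ : Vec G K) : Prop :=
  ∀ p q, p ≠ q → ∑ x ∈ ζ.support, conj (ζ x p) * ζ x q = 0

/-- Keep only the coordinates in `P`. -/
def cut (P : Finset K) (ζ : Vec G K) : Vec G K :=
  ζ.mapRange (fun v p => if p ∈ P then v p else 0) (by funext p; simp)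

/-- The mass of `ζ i` on `S i` is eventually at most `η`. -/
def Small {k : ℕ → ℕ} (ζ : ∀ i, Vec G (Fin (k i))) (S : ℕ → Set G) (η : ℝ) : Prop :=
  ∀ᶠ i in UU, ms (res (S i) (ζ i)) ≤ η

variable [Group G]

/-- Approximately amenable support. -/
def AA (W : WG G) {k : ℕ → ℕ} (ζ : ∀ i, Vec G (Fin (k i))) : Prop :=
  ∀ (R : ℕ) (ε : ℝ), 0 < ε → ∃ (S : ℕ) (U : ℕ → Set G),
    (∀ᶠ i in UU, Amen W.near (U i) R ε S) ∧ Small ζ (fun i => (U i)ᶜ) ε

/-- The tail property of a vector: kernels dominated by the pointwise norms have small Fourier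
coefficients far from the identity. -/
def TP (W : WG G) (ξ : Vec G K) (L : ℕ) (κ ρ : ℝ) : Prop :=
  ∀ kk : G → G → ℂ, (∀ x y, ‖kk x y‖ ≤ √(nsq (ξ x)) * √(nsq (ξ y))) →
    ∀ Γ : Finset G, (∀ g ∈ Γ, L ≤ W.wl g) →
      ∑ g ∈ Γ, ‖∑ x ∈ ξ.support, kk x (x * g)‖ ^ 2 ≤
        κ * (∑ x ∈ ξ.support, ∑ y ∈ ξ.support, ‖kk x y‖ ^ 2 + ρ ^ 2)

variable {A : Type} [CStarAlgebra A] [PartialOrder A] [StarOrderedRing A]

/-- The functional `a ↦ ⟪ζ, (b ⊗ a) ζ'⟫`. -/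
def Reg.Q2 (R : Reg G A) (b : K → K → ℂ) (ζ ζ' : Vec G K) : StrongDual ℂ A :=
  ∑ x ∈ ζ.support, ∑ y ∈ ζ'.support, fm b (ζ x) (ζ' y) • R.co x y

def Reg.Q (R : Reg G A) (b : K → K → ℂ) (ζ : Vec G K) : StrongDual ℂ A := R.Q2 b ζ ζ

def Good (R : Reg G A) {d : ℕ} {e : Fin d → Bid A} (S : Sys e) (ζ : ∀ i, Vec G (Fin (S.k i)))
    (err : ℝ) : Prop :=
  GoodL e (fun i j => R.Q (S.b i j) (ζ i)) (fun i => ms (ζ i)) err

/-- A finite-dimensional picture of a sequence of vectors. -/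
structure View (G : Type) (k : ℕ → ℕ) where
  n : ℕ
  Z : ℕ → Finset G
  η : ∀ i, G → Fin n → Fin (k i) → ℂ

def View.vf {k : ℕ → ℕ} (V : View G k) (i : ℕ) (b : Fin (k i) → Fin (k i) → ℂ)
    (s t : Fin V.n) : ℂ :=
  ∑ z ∈ V.Z i, fm b (V.η i z s) (V.η i z t)

def View.mass {k : ℕ → ℕ} (V : View G k) (i : ℕ) : ℝ := ∑ z ∈ V.Z i, ∑ s, nsq (V.η i z s)

/-- The view `V'` sees the view `V` and the group elements of length `≤ r` up to `τ`. -/
def Refines (R : Reg G A) (W : WG G) {k : ℕ → ℕ} (ζ : ∀ i, Vec G (Fin (k i))) (V V' : View G k)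
    (r : ℕ) (τ : ℝ) : Prop :=
  ∃ (l : ℕ) (Kr : Fin l → Matrix (Fin V.n) (Fin V'.n) ℂ)
    (α : Fin V'.n → Fin V'.n → StrongDual ℂ A),
    (∀ v, ∑ a, nsq ((Kr a).mulVec v) ≤ nsq v) ∧ CCF α ∧
    ∀ᶠ i in UU, ∀ (b : Fin (k i) → Fin (k i) → ℂ) (c : ℝ), 0 ≤ c → Bd b c →
      (∀ s t, ‖V.vf i b s t -
        ∑ a, ∑ s', ∑ t', conj (Kr a s s') * Kr a t t' * V'.vf i b s' t'‖ ≤ τ * c) ∧
      ∀ g, W.wl g ≤ r →
        ‖R.Q b (ζ i) (R.u g) - ∑ s', ∑ t', α s' t' (R.u g) * V'.vf i b s' t'‖ ≤ τ * c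

end Vec

/-! ### Non-exactness -/

/-- The algebra `B = ∏ M_{X n}` and its quotient `C` by the sequences that tend to zero. -/
structure Quo (X : ℕ → Type) [∀ n, Fintype (X n)] [∀ n, DecidableEq (X n)] (B C : Type)
    [CStarAlgebra B] [CStarAlgebra C] where
  q : B →⋆ₐ[ℂ] C
  surj : Function.Surjective q
  ev : ∀ n, B →⋆ₐ[ℂ] Matrix (X n) (X n) ℂ
  ex : ∀ (m : ∀ n, Matrix (X n) (X n) ℂ) (c : ℝ), (∀ n, Bd (m n) c) → ∃ b, ∀ n, ev n b = m n
  ext : ∀ b b', (∀ n, ev n b = ev n b') → b = b'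
  pos : ∀ b, (∀ n v, 0 ≤ (fm (ev n b) v v).re ∧ (fm (ev n b) v v).im = 0) →
    ∃ c, b = star c * c
  qpos : ∀ b, (∀ᶠ n in atTop, ∀ v, 0 ≤ (fm (ev n b) v v).re ∧ (fm (ev n b) v v).im = 0) →
    ∃ c, q b = star c * c
  ker : ∀ b, q b = 0 → ∀ ε : ℝ, 0 < ε → ∀ᶠ n in atTop, Bd (ev n b) ε

section NE

variable {G : Type} [Group G] {A : Type} [CStarAlgebra A] [PartialOrder A] [StarOrderedRing A]
  {B : Type} [CStarAlgebra B]

/-- The `B`-valued inner product on `B[G]`. -/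
def ipB (β : MonoidAlgebra B G) : B := ∑ v ∈ β.coeff.support, star (β.coeff v) * β.coeff v

/-- The element `∑ g, x g ⊗ u g`. -/
def Reg.lam (R : Reg G A) (x : MonoidAlgebra B G) : B ⊗[ℂ] A :=
  ∑ g ∈ x.coeff.support, x.coeff g ⊗ₜ[ℂ] R.u g

/-- Inner product of finitely supported functions. -/
def fip {Ω : Type} (v w : Ω →₀ ℂ) : ℂ := ∑ x ∈ v.support, conj (v x) * w x

/-- The test element `∑ a, ρ a ⊗ u (π a)`. -/
def Reg.tt {σ : Type} [Fintype σ] [DecidableEq σ] (R : Reg G A) (π : FreeGroup σ →* G)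
    (ρ : σ × Bool → B) : B ⊗[ℂ] A :=
  ∑ a, ρ a ⊗ₜ[ℂ] R.u (π (lt a))

/-- A real polynomial evaluated in a complex algebra. -/
def pev {D : Type} [Ring D] [Algebra ℂ D] (p : Polynomial ℝ) (t : D) : D :=
  Polynomial.aeval t (p.map (algebraMap ℝ ℂ))

end NE

end Pool.Agent.MP_88ca14_an

end
end MrgPart0

-- ======== part 1: formerly Pool.Agent.MP_88ca14_an.SpecA
section MrgPart1

/-!
PROJECT LRX: statements of the analytic modules and the assembly.
-/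

set_option autoImplicit false
set_option maxSynthPendingDepth 3

noncomputable section

namespace Pool.Agent.MP_88ca14_an

open Filter Topology
open scoped Classical TensorProduct ENNReal ComplexConjugate ComplexOrder InnerProductSpace Matrix

/-! ### The algebra -/

def MatStmt : Prop :=
  ∀ (H : Type) [NormedAddCommGroup H] [InnerProductSpace ℂ H] [CompleteSpace H]
    (A : Type) [CStarAlgebra A] [PartialOrder A] [StarOrderedRing A]
    (ρ : A →⋆ₐ[ℂ] (H →L[ℂ] H)), Function.Injective ρ →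
    ∀ (k : ℕ) (a : Matrix (Fin k) (Fin k) A),
      (∀ v w : Fin k → H, ‖∑ p, ∑ q, ⟪v p, ρ (a p q) (w q)⟫_ℂ‖ ≤
        mn a * √(∑ p, ‖v p‖ ^ 2) * √(∑ q, ‖w q‖ ^ 2)) ∧
      ∀ c : ℝ, 0 ≤ c → (∀ v w : Fin k → H, ‖∑ p, ∑ q, ⟪v p, ρ (a p q) (w q)⟫_ℂ‖ ≤
        c * √(∑ p, ‖v p‖ ^ 2) * √(∑ q, ‖w q‖ ^ 2)) → mn a ≤ c

def RedStmt : Prop :=
  ∀ (G : Type) [Group G], ∃ (A : Type) (_ : CStarAlgebra A) (_ : PartialOrder A)
    (_ : StarOrderedRing A), Nonempty (Reg G A)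

/-! ### Duality -/

def Hb1Stmt : Prop :=
  ∀ (A : Type) [CStarAlgebra A] [PartialOrder A] [StarOrderedRing A],
    DualLR A → LocallyReflexive A

def Hb2Stmt : Prop :=
  ∀ (G : Type) [Group G] (_ : WG G) (A : Type) [CStarAlgebra A] [PartialOrder A]
    [StarOrderedRing A] (R : Reg G A) (d : ℕ) (e : Fin d → Bid A), LinearIndependent ℂ e →
    ∀ F : Fin d → StrongDual ℂ A, (∀ a, CCm e a → (∑ j, F j (a j)).re ≤ 1) →
      ∃ (S : Sys e) (ζ : ∀ i, Vec G (Fin (S.k i))), (∀ i, ms (ζ i) ≤ 1) ∧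
        ∀ j a, Tendsto (fun i => R.Q (S.b i j) (ζ i) a) atTop (𝓝 (F j a))

/-! ### Cutting vectors -/

def CombStmt : Prop :=
  ∀ (G : Type) [Group G] (A : Type) [CStarAlgebra A] [PartialOrder A] [StarOrderedRing A]
    (R : Reg G A) (d : ℕ) (e : Fin d → Bid A) (Φ Φ₁ Φ₂ Ψ : ℕ → Fin d → StrongDual ℂ A)
    (m m₁ m₂ : ℕ → ℝ) (e₁ e₂ η B : ℝ),
    (∀ i j, ‖Φ₁ i j‖ ≤ B ∧ ‖Φ₂ i j‖ ≤ B) → (∀ i, |m₁ i| ≤ B ∧ |m₂ i| ≤ B) →
    (∀ᶠ i in UU, ∀ j, ‖Ψ i j‖ ≤ η) →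
    (∀ j g, Tendsto (fun i => (Φ i j - Φ₁ i j - Φ₂ i j - Ψ i j) (R.u g)) UU (𝓝 0)) →
    (∀ᶠ i in UU, m₁ i + m₂ i ≤ m i) → GoodL e Φ₁ m₁ e₁ → GoodL e Φ₂ m₂ e₂ →
    GoodL e Φ m (e₁ + e₂ + η * ∑ j, ‖e j‖)

def SplitStmt : Prop :=
  ∀ (G : Type) [Group G] (W : WG G) (A : Type) [CStarAlgebra A] [PartialOrder A]
    [StarOrderedRing A] (R : Reg G A) (d : ℕ) (e : Fin d → Bid A) (S : Sys e)
    (ζ : ∀ i, Vec G (Fin (S.k i))) (U : ℕ → Set G) (e₁ e₂ : ℝ), (∀ i, ms (ζ i) ≤ 1) →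
    (∀ (r : ℕ) (η : ℝ), 0 < η → Small ζ (fun i => U i ∩ W.Nb r (U i)ᶜ) η) →
    Good R S (fun i => res (U i) (ζ i)) e₁ → Good R S (fun i => res (U i)ᶜ (ζ i)) e₂ →
    Good R S ζ (e₁ + e₂)

def ApproxStmt : Prop :=
  ∀ (G : Type) [Group G] (A : Type) [CStarAlgebra A] [PartialOrder A]
    [StarOrderedRing A] (R : Reg G A) (d : ℕ) (e : Fin d → Bid A) (S : Sys e)
    (ζ : ∀ i, Vec G (Fin (S.k i))), (∀ i, ms (ζ i) ≤ 1) →
    (∀ η : ℝ, 0 < η → ∃ U : ℕ → Set G, Small ζ (fun i => (U i)ᶜ) η ∧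
      Good R S (fun i => res (U i) (ζ i)) η) → Good R S ζ 0

def SatStmt : Prop :=
  ∀ (G : Type) [Group G] (W : WG G) (k : ℕ → ℕ) (ζ : ∀ i, Vec G (Fin (k i))),
    (∀ i, ms (ζ i) ≤ 1) → ∀ Z : ℕ → ℕ → Set G, (∀ i L L', L ≤ L' → Z i L' ⊆ Z i L) →
    ∃ (U : ℕ → Set G) (Lf : ℕ → ℕ), Tendsto Lf UU atTop ∧
      (∀ (r : ℕ) (η : ℝ), 0 < η → Small ζ (fun i => U i ∩ W.Nb r (U i)ᶜ) η) ∧
      (∀ (r : ℕ) (η : ℝ), 0 < η → ∃ L, Small ζ (fun i => (U i)ᶜ ∩ W.Nb r (Z i L)) η) ∧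
      (∀ η : ℝ, 0 < η → ∃ r, Small ζ (fun i => U i ∩ (W.Nb r (Z i (Lf i)))ᶜ) η)

/-! ### The amenable part -/

def PetzStmt : Prop :=
  ∃ Qf : ∀ n : ℕ, Matrix (Fin n) (Fin n) ℂ → Matrix (Fin n) (Fin n) ℂ → ℝ,
    (∀ n h, Continuous (Qf n h)) ∧
    (∀ n (h k : Matrix (Fin n) (Fin n) ℂ) (c : ℝ), h.PosDef → 0 ≤ c →
      (∀ v w, ‖fm k v w‖ ≤ c * √((fm h v v).re) * √((fm h w w).re)) →
      Qf n h k ≤ c ^ 2 * h.trace.re) ∧
    ∀ n n' (h : Matrix (Fin n) (Fin n) ℂ) (h' : Matrix (Fin n') (Fin n') ℂ) (l : ℕ)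
      (Kr : Fin l → Matrix (Fin n) (Fin n') ℂ), h.PosDef → h'.PosDef →
      (∀ v, ∑ a, nsq ((Kr a).mulVec v) ≤ nsq v) →
      (h - ∑ a, Kr a * h' * (Kr a)ᴴ).PosSemidef →
      ∃ Lr : Fin l → Matrix (Fin n) (Fin n') ℂ,
        (∀ v, ∑ a, nsq ((Lr a)ᴴ.mulVec v) ≤ nsq v) ∧
        ∀ k' : Matrix (Fin n') (Fin n') ℂ,
          Qf n h (∑ a, Kr a * k' * (Kr a)ᴴ) ≤ Qf n' h' k' ∧
          ∀ c' : Matrix (Fin n') (Fin n') ℂ, Bd c' 1 →
            ‖(k' * c').trace -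
              ((∑ a, Kr a * k' * (Kr a)ᴴ) * ∑ a, Lr a * c' * (Lr a)ᴴ).trace‖ ^ 2 ≤
              (Qf n' h' k' - Qf n h (∑ a, Kr a * k' * (Kr a)ᴴ)) * h'.trace.re

def ChanStmt : Prop :=
  ∀ (G : Type) [Group G] (W : WG G) (A : Type) [CStarAlgebra A] [PartialOrder A]
    [StarOrderedRing A] (R : Reg G A) (k : ℕ → ℕ) (ζ : ∀ i, Vec G (Fin (k i))),
    (∀ i, ms (ζ i) ≤ 1) → AA W ζ → ∃ P : Set (View G k), P.Nonempty ∧
      (∀ V ∈ P, ∀ i, V.mass i ≤ ms (ζ i)) ∧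
      ∀ V ∈ P, ∀ (r : ℕ) (τ : ℝ), 0 < τ → ∃ V' ∈ P, Refines R W ζ V V' r τ

def AmStmt : Prop :=
  ∀ (G : Type) [Group G] (W : WG G) (A : Type) [CStarAlgebra A] [PartialOrder A]
    [StarOrderedRing A] (R : Reg G A) (d : ℕ) (e : Fin d → Bid A) (S : Sys e)
    (ζ : ∀ i, Vec G (Fin (S.k i))), (∀ i, ms (ζ i) ≤ 1) → AA W ζ → Good R S ζ 0

/-! ### The part inside the large cells -/

def ComprStmt : Prop :=
  ∀ (G : Type) [Group G] (A : Type) [CStarAlgebra A] [PartialOrder A] [StarOrderedRing A]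
    (R : Reg G A) (K K' : Type) [Fintype K] [Fintype K'] (J : Matrix K K' ℂ),
    (∀ v, nsq (J.mulVec v) ≤ nsq v) →
    (∀ (d : ℕ) (e : Fin d → Bid A) (b : Fin d → K → K → ℂ), NR e b →
      NR e fun j => Jᴴ * Matrix.of (b j) * J) ∧
    (∀ (b : K → K → ℂ) (c : ℝ), 0 ≤ c → Bd b c → Bd (Jᴴ * Matrix.of b * J) c) ∧
    ∀ (b : K → K → ℂ) (ξ : Vec G K) (α : Vec G K'), (∀ x, ξ x = J.mulVec (α x)) →
      R.Q b ξ = R.Q (Jᴴ * Matrix.of b * J) α

def DiagzStmt : Prop :=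
  ∀ (G : Type) (k : ℕ) (ξ : Vec G (Fin k)), ∃ (J : Matrix (Fin k) (Fin k) ℂ) (α : Vec G (Fin k)),
    (∀ v, nsq (J.mulVec v) = nsq v) ∧ (∀ x, ξ x = J.mulVec (α x)) ∧ DG α

def CrossStmt : Prop :=
  ∀ (G : Type) [Group G] (A : Type) [CStarAlgebra A] [PartialOrder A] [StarOrderedRing A]
    (R : Reg G A) (K : Type) [Fintype K] (b : K → K → ℂ) (c lam : ℝ) (α : Vec G K)
    (P P' : Finset K), 0 ≤ c → Bd b c → DG α → (∀ p ∈ P', cms α p ≤ lam) →
    ‖R.Q2 b (cut P α) (cut P' α)‖ ≤ c * √(P.card * ms α) * √lam ∧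
    ‖R.Q2 b (cut P' α) (cut P α)‖ ≤ c * √(P.card * ms α) * √lam

def NrqStmt : Prop :=
  ∀ (G : Type) [Group G] (A : Type) [CStarAlgebra A] [PartialOrder A] [StarOrderedRing A]
    (R : Reg G A) (d : ℕ) (e : Fin d → Bid A) (K : Type) [Fintype K] (b : Fin d → K → K → ℂ)
    (ζ : Vec G K), NR e b → ‖∑ j, e j (R.Q (b j) ζ)‖ ≤ ms ζ

def HsStmt : Prop :=
  ∀ (G K : Type) [Fintype K] (b : K → K → ℂ) (c lam : ℝ) (α : Vec G K), 0 ≤ c → 0 ≤ lam →
    Bd b c → DG α → (∀ p, cms α p ≤ lam) →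
    ∑ x ∈ α.support, ∑ y ∈ α.support, ‖fm b (α x) (α y)‖ ^ 2 ≤ c ^ 2 * lam * ms α

def FrStmt : Prop :=
  ∀ (G : Type) [Group G] (A : Type) [CStarAlgebra A] [PartialOrder A] [StarOrderedRing A]
    (R : Reg G A) (d : ℕ) (e : Fin d → Bid A) (r : ℕ) (κ : Type) (s : ℕ → Finset κ)
    (b : ℕ → κ → Fin d → Fin r → Fin r → ℂ) (ξ : ℕ → κ → Vec G (Fin r)) (c : ℝ), 0 ≤ c →
    (∀ i, ∀ a ∈ s i, (∀ j, Bd (b i a j) c) ∧ NR e (b i a) ∧ DG (ξ i a)) →
    (∀ i, ∑ a ∈ s i, ms (ξ i a) ≤ 1) →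
    GoodL e (fun i j => ∑ a ∈ s i, R.Q (b i a j) (ξ i a)) (fun i => ∑ a ∈ s i, ms (ξ i a)) 0

def TailStmt : Prop :=
  ∀ (G : Type) [Group G] (W : WG G) (A : Type) [CStarAlgebra A] [PartialOrder A]
    [StarOrderedRing A] (R : Reg G A) (d : ℕ) (e : Fin d → Bid A)
    (Φ : ℕ → Fin d → StrongDual ℂ A) (m : ℕ → ℝ) (L : ℕ) (η : ℝ), 0 ≤ η →
    (∀ i, ‖∑ j, e j (Φ i j)‖ ≤ m i) →
    (∀ᶠ i in UU, ∀ j, ∀ Γ : Finset G, (∀ g ∈ Γ, L ≤ W.wl g) →
      ∑ g ∈ Γ, ‖Φ i j (R.u g)‖ ^ 2 ≤ η ^ 2) →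
    GoodL e Φ m (2 * η * ∑ j, ‖e j‖)

def FamStmt : Prop :=
  ∀ (G : Type) [Group G] (W : WG G) (A : Type) [CStarAlgebra A] [PartialOrder A]
    [StarOrderedRing A] (R : Reg G A) (d : ℕ) (e : Fin d → Bid A) (S : Sys e) (κ : Type)
    (s : ℕ → Finset κ) (ξ : ∀ i, κ → Vec G (Fin (S.k i))) (ρ : ℕ → κ → ℝ) (L : ℕ) (κ₀ ρ₀ : ℝ),
    0 ≤ κ₀ → (∀ i a, 0 ≤ ρ i a) → (∀ i, ∑ a ∈ s i, ms (ξ i a) ≤ 1) →
    (∀ i, ∑ a ∈ s i, ρ i a ≤ ρ₀) → (∀ᶠ i in UU, ∀ a ∈ s i, TP W (ξ i a) L κ₀ (ρ i a)) →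
    GoodL e (fun i j => ∑ a ∈ s i, R.Q (S.b i j) (ξ i a)) (fun i => ∑ a ∈ s i, ms (ξ i a))
      (2 * (S.C + 1) * √κ₀ * ρ₀ * ∑ j, ‖e j‖)

def W3aStmt : Prop :=
  ∀ (σ : Type) [Fintype σ] [DecidableEq σ] (T : Tiles σ) (G : Type) [Group G] (M : MG T G)
    (K : Type) [Fintype K] (ξ : Vec G K) (γ : G) (i : T.ι) (L R₀ : ℕ) (w : T.X → ℝ) (ρ : ℝ),
    L ≤ T.r i → (∀ x, 0 ≤ w x) → 6 * MM T w i ^ 2 ≤ 2 ^ L * ρ ^ 2 →
    (∀ v ∈ ξ.support, ∃ x h, T.ty x = i ∧ v = γ * M.f x * h ∧ M.W.wl h ≤ R₀ ∧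
      Light T w i L x ∧ √(nsq (ξ v)) ≤ w x) →
    TP M.W ξ (L + 2 * R₀) (2 * ((M.W.ball R₀).card : ℝ) ^ 4) ρ

def W3Stmt : Prop :=
  ∀ (σ : Type) [Fintype σ] [DecidableEq σ] (T : Tiles σ) (G : Type) [Group G] (M : MG T G)
    (A : Type) [CStarAlgebra A] [PartialOrder A] [StarOrderedRing A] (R : Reg G A) (d : ℕ)
    (e : Fin d → Bid A) (S : Sys e) (R₀ : ℕ) (B₀ η : ℝ), 0 < η → ∃ L₀, ∀ L, L₀ ≤ L →
    ∀ (ζ : ∀ i, Vec G (Fin (S.k i))) (Lf : ℕ → ℕ) (w : ℕ → G × T.ι → T.X → ℝ),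
      (∀ i, ms (ζ i) ≤ 1) → Tendsto Lf UU atTop → (∀ i c x, 0 ≤ w i c x) →
      (∀ i (s : Finset (G × T.ι)), ∑ c ∈ s, MM T (w i c) c.2 ≤ B₀) →
      (∀ i, ∀ v ∈ (ζ i).support, ∃ y ∈ M.Y (Lf i), M.W.ds y v ≤ R₀ ∧
        Light T (w i (M.cl y)) (T.ty (M.pt y)) L (M.pt y) ∧
        √(nsq (ζ i v)) ≤ w i (M.cl y) (M.pt y)) →
      Good R S ζ η

def Om2Stmt : Prop :=
  ∀ (σ : Type) [Fintype σ] [DecidableEq σ] (T : Tiles σ) (G : Type) [Group G] (M : MG T G)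
    (A : Type) [CStarAlgebra A] [PartialOrder A] [StarOrderedRing A] (R : Reg G A) (d : ℕ)
    (e : Fin d → Bid A) (S : Sys e) (ζ : ∀ i, Vec G (Fin (S.k i))) (Lf : ℕ → ℕ) (R₀ : ℕ),
    (∀ i, ms (ζ i) ≤ 1) → Tendsto Lf UU atTop →
    (∀ i, ∀ v ∈ (ζ i).support, v ∈ M.W.Nb R₀ (M.Y (Lf i))) → Good R S ζ 0

def OmStmt : Prop :=
  ∀ (σ : Type) [Fintype σ] [DecidableEq σ] (T : Tiles σ) (G : Type) [Group G] (_ : MG T G)
    (A : Type) [CStarAlgebra A] [PartialOrder A] [StarOrderedRing A] (R : Reg G A) (d : ℕ)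
    (e : Fin d → Bid A) (S : Sys e) (ζ : ∀ i, Vec G (Fin (S.k i))),
    (∀ i, ms (ζ i) ≤ 1) → Good R S ζ 0

/-! ### Non-exactness -/

def QuotStmt : Prop :=
  ∀ (X : ℕ → Type) [∀ n, Fintype (X n)] [∀ n, DecidableEq (X n)] [∀ n, Nonempty (X n)],
    ∃ (B C : Type) (_ : CStarAlgebra B) (_ : CStarAlgebra C), Nonempty (Quo X B C)

def UbStmt : Prop :=
  ∀ (G : Type) [Group G] (A : Type) [CStarAlgebra A] [PartialOrder A] [StarOrderedRing A]
    (R : Reg G A) (B : Type) [CStarAlgebra B] (x : MonoidAlgebra B G) (η : ℝ), 0 ≤ η →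
    (∀ β : MonoidAlgebra B G, ∃ c : B,
      ((η : ℂ) ^ 2) • ipB β - ipB (x * β) = star c * c) →
    minNorm (R.lam x) ≤ ENNReal.ofReal η

def SpecStmt : Prop :=
  ∀ (Ω : Type) (T : Module.End ℂ (Ω →₀ ℂ)), (∀ v w, fip (T v) w = fip v (T w)) →
    ∀ (v₀ : Ω →₀ ℂ) (n : ℕ) (lam : ℝ), 0 ≤ lam →
    (∀ v ∈ Submodule.span ℂ {v | ∃ k, k ≤ n ∧ v = (T ^ k) v₀},
      ‖fip v (T v)‖ ≤ lam * (fip v v).re) →
    ∀ p : Polynomial ℝ, p.natDegree ≤ n →
      (∀ θ : ℝ, 0 ≤ θ → (∀ t ∈ Set.Icc (-lam) lam, |p.eval t| ≤ θ) →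
        (fip (pev p T v₀) (pev p T v₀)).re ≤ θ ^ 2 * (fip v₀ v₀).re) ∧
      ((∀ t ∈ Set.Icc (-lam) lam, 0 ≤ p.eval t) → 0 ≤ (fip v₀ (pev p T v₀)).re)

def Nex1Stmt : Prop :=
  ∀ (σ : Type) [Fintype σ] [DecidableEq σ] (T : Tiles σ) (G : Type) [Group G] (M : MG T G)
    (A : Type) [CStarAlgebra A] [PartialOrder A] [StarOrderedRing A] (R : Reg G A)
    (i : ℕ → T.ι), (∀ n, n ≤ T.r (i n)) → ∀ (B C : Type) [CStarAlgebra B] [CStarAlgebra C]
    (Qu : Quo (fun n => {x // x ∈ T.pts (i n)}) B C) (ρ : σ × Bool → B),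
    (∀ n a x y, Qu.ev n (ρ a) x y = if T.Γ.step x.1 a y.1 then 1 else 0) →
    ∀ (p : Polynomial ℝ) (θ : ℝ), 0 ≤ θ →
      ((∀ t ∈ Set.Icc (-16 : ℝ) 16, |p.eval t| ≤ θ) →
        minNorm (pev p (R.tt M.π ρ)) ≤ ENNReal.ofReal θ) ∧
      ((∀ t ∈ Set.Icc (-8 : ℝ) 8, |p.eval t| ≤ θ) →
        minNorm (LinearMap.rTensor A Qu.q.toAlgHom.toLinearMap (pev p (R.tt M.π ρ))) ≤
          ENNReal.ofReal θ)

def NexStmt : Prop :=
  ∀ (σ : Type) [Fintype σ] [DecidableEq σ] (T : Tiles σ) (G : Type) [Group G] (_ : MG T G)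
    (A : Type) [CStarAlgebra A] [PartialOrder A] [StarOrderedRing A] (_ : Reg G A), ¬ IsExact A

/-! ### Assembly -/

theorem main_of (hg : GrpStmt) (hred : RedStmt) (h1 : Hb1Stmt) (h2 : Hb2Stmt) (ho : OmStmt)
    (hn : NexStmt) : ∃ (A : Type) (_ : CStarAlgebra A) (_ : PartialOrder A)
      (_ : StarOrderedRing A), LocallyReflexive A ∧ ¬ IsExact A := by
  obtain ⟨σ, i1, i2, T, G, i3, ⟨M⟩⟩ := hg
  obtain ⟨A, j1, j2, j3, ⟨R⟩⟩ := hred G
  refine ⟨A, j1, j2, j3, h1 A fun d e he F hF => ?_, hn σ T G M A R⟩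
  obtain ⟨S, ζ, hm, hlim⟩ := h2 G M.W A R d e he F hF
  have hG := ho σ T G M A R d e S ζ hm
  have h0 : ∀ i, 0 ≤ ms (ζ i) := fun i =>
    Finset.sum_nonneg fun x _ => Finset.sum_nonneg fun p _ => by positivity
  have hc : IsCompact (Set.Icc (0 : ℝ) 1) := isCompact_Icc
  obtain ⟨μ, hμ, hμ'⟩ := hc.ultrafilter_le_nhds
    ((Filter.hyperfilter ℕ).map fun i => ms (ζ i)) (by
      rw [Ultrafilter.coe_map, Filter.le_principal_iff, Filter.mem_map]
      exact Filter.univ_mem' fun i => ⟨h0 i, hm i⟩)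
  have := hG F μ (fun j a => (hlim j a).mono_left Nat.hyperfilter_le_atTop) hμ'
  calc (∑ j, e j (F j)).re ≤ ‖∑ j, e j (F j)‖ := Complex.re_le_norm _
    _ ≤ μ + 0 := this
    _ ≤ 1 := by linarith [hμ.2]

end Pool.Agent.MP_88ca14_an

end
end MrgPart1

-- ======== part 2: formerly Pool.Agent.MP_88ca14_an.Tree
section MrgPart2

/-!
PROJECT LRX: reduced words as a tree.
-/

set_option autoImplicit false

noncomputable section

namespace Pool.Agent.MP_88ca14_an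

open FreeGroup

variable {σ : Type} [DecidableEq σ]

theorem norm_eq_length (g : FreeGroup σ) : g.norm = g.toWord.length := rfl

@[simp] theorem toWord_lt (a : σ × Bool) : (lt a).toWord = [a] := by
  simp [lt, toWord_mk]

@[simp] theorem norm_lt (a : σ × Bool) : (lt a).norm = 1 := by
  rw [norm_eq_length, toWord_lt]; rfl

omit [DecidableEq σ] in
theorem lt_inv (a : σ × Bool) : (lt a)⁻¹ = lt (a.1, !a.2) := by
  simp [lt, inv_mk, invRev]

omit [DecidableEq σ] in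
theorem lt_true (a : σ) : lt (a, true) = of a := rfl

omit [DecidableEq σ] in
theorem lt_false (a : σ) : lt (a, false) = (of a)⁻¹ := by
  rw [← lt_true, lt_inv]; rfl

theorem lt_injective : Function.Injective (lt : σ × Bool → FreeGroup σ) := fun a b h => by
  have := congrArg toWord h
  simpa using this

theorem norm_eq_one_iff {g : FreeGroup σ} : g.norm = 1 ↔ ∃ a, g = lt a := by
  constructor
  · intro h
    obtain ⟨a, ha⟩ := List.length_eq_one_iff.1 h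
    exact ⟨a, toWord_injective (by rw [ha, toWord_lt])⟩
  · rintro ⟨a, rfl⟩; exact norm_lt a

theorem toWord_mk_of_reduced {L : List (σ × Bool)} (h : IsReduced L) : (mk L).toWord = L := by
  rw [toWord_mk, h.reduce_eq]

theorem norm_inv_mul_comm (x y : FreeGroup σ) : (x⁻¹ * y).norm = (y⁻¹ * x).norm := by
  rw [← norm_inv_eq]; simp

theorem pre_iff_append {m g : FreeGroup σ} :
    Pre m g ↔ g.toWord = m.toWord ++ (m⁻¹ * g).toWord := by
  constructor
  · intro h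
    have h1 := toWord_mul_sublist m (m⁻¹ * g)
    rw [mul_inv_cancel_left] at h1
    refine h1.eq_of_length ?_
    rw [List.length_append]; exact h.symm
  · intro h
    unfold Pre
    rw [norm_eq_length g, h, List.length_append]; rfl

theorem pre_iff_isPrefix {m g : FreeGroup σ} : Pre m g ↔ m.toWord <+: g.toWord := by
  constructor
  · intro h; exact ⟨_, (pre_iff_append.1 h).symm⟩
  · rintro ⟨t, ht⟩
    have hr : IsReduced t := List.IsChain.suffix (isReduced_toWord (x := g)) ⟨m.toWord, ht⟩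
    have h1 : m⁻¹ * g = mk t := by
      rw [inv_mul_eq_iff_eq_mul]
      conv_lhs => rw [← mk_toWord (x := g), ← ht]
      rw [← mul_mk, mk_toWord]
    rw [pre_iff_append, h1, toWord_mk_of_reduced hr, ht]

theorem toWord_pfx (g : FreeGroup σ) (k : ℕ) : (pfx g k).toWord = g.toWord.take k :=
  toWord_mk_of_reduced (List.IsChain.take (isReduced_toWord (x := g)) k)

theorem norm_pfx (g : FreeGroup σ) (k : ℕ) : (pfx g k).norm = min k g.norm := by
  rw [norm_eq_length, toWord_pfx, List.length_take]; rfl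

theorem norm_pfx_of_le {g : FreeGroup σ} {k : ℕ} (h : k ≤ g.norm) : (pfx g k).norm = k := by
  rw [norm_pfx, min_eq_left h]

theorem pre_pfx (g : FreeGroup σ) (k : ℕ) : Pre (pfx g k) g := by
  rw [pre_iff_isPrefix, toWord_pfx]; exact List.take_prefix _ _

theorem Pre.eq_pfx {m g : FreeGroup σ} (h : Pre m g) : m = pfx g m.norm := by
  apply toWord_injective
  rw [toWord_pfx]
  exact List.prefix_iff_eq_take.1 (pre_iff_isPrefix.1 h)

theorem Pre.norm_le {m g : FreeGroup σ} (h : Pre m g) : m.norm ≤ g.norm := by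
  unfold Pre at h; omega

theorem Pre.norm_rest {m g : FreeGroup σ} (h : Pre m g) : (m⁻¹ * g).norm = g.norm - m.norm := by
  unfold Pre at h; omega

@[simp] theorem pfx_zero (g : FreeGroup σ) : pfx g 0 = 1 := by
  simp [pfx, one_eq_mk]

theorem pfx_of_le {g : FreeGroup σ} {k : ℕ} (h : g.norm ≤ k) : pfx g k = g := by
  apply toWord_injective
  rw [toWord_pfx]; exact List.take_of_length_le h

@[simp] theorem pfx_norm (g : FreeGroup σ) : pfx g g.norm = g := pfx_of_le le_rfl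

theorem pre_pfx_pfx (g : FreeGroup σ) {k l : ℕ} (h : k ≤ l) : Pre (pfx g k) (pfx g l) := by
  rw [pre_iff_isPrefix, toWord_pfx, toWord_pfx]
  exact List.take_prefix_take_left h

theorem pfx_pfx (g : FreeGroup σ) (k l : ℕ) : pfx (pfx g l) k = pfx g (min k l) := by
  apply toWord_injective
  rw [toWord_pfx, toWord_pfx, toWord_pfx, List.take_take]

theorem Pre.refl (g : FreeGroup σ) : Pre g g := by simp [Pre]

theorem Pre.one (g : FreeGroup σ) : Pre 1 g := by simp [Pre]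

theorem Pre.trans {a b c : FreeGroup σ} (h : Pre a b) (h' : Pre b c) : Pre a c :=
  pre_iff_isPrefix.2 ((pre_iff_isPrefix.1 h).trans (pre_iff_isPrefix.1 h'))

theorem Pre.total {m m' g : FreeGroup σ} (h : Pre m g) (h' : Pre m' g) (hl : m.norm ≤ m'.norm) :
    Pre m m' := by
  rw [h.eq_pfx, h'.eq_pfx]; exact pre_pfx_pfx g hl

theorem Pre.eq_of_norm {m m' g : FreeGroup σ} (h : Pre m g) (h' : Pre m' g)
    (hl : m.norm = m'.norm) : m = m' := by
  rw [h.eq_pfx, h'.eq_pfx, hl]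

theorem Pre.eq_of_norm_ge {m g : FreeGroup σ} (h : Pre m g) (hl : g.norm ≤ m.norm) : m = g :=
  h.eq_of_norm (Pre.refl g) (le_antisymm h.norm_le hl)

theorem Pre.norm_lt {m g : FreeGroup σ} (h : Pre m g) (hne : m ≠ g) : m.norm < g.norm :=
  lt_of_not_ge fun hl => hne (h.eq_of_norm_ge hl)

theorem Pre.pfx_eq {m g : FreeGroup σ} (h : Pre m g) {k : ℕ} (hk : k ≤ m.norm) :
    pfx m k = pfx g k :=
  ((pre_pfx m k).trans h).eq_of_norm (pre_pfx g k)
    (by rw [norm_pfx_of_le hk, norm_pfx_of_le (hk.trans h.norm_le)])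

theorem eq_one_of_pre_one {m : FreeGroup σ} (h : Pre m 1) : m = 1 :=
  h.eq_of_norm_ge (by simp)

theorem norm_tri (x y z : FreeGroup σ) : (x⁻¹ * z).norm ≤ (x⁻¹ * y).norm + (y⁻¹ * z).norm := by
  have := norm_mul_le (x⁻¹ * y) (y⁻¹ * z)
  simpa [mul_assoc] using this

theorem Pre.cancel {m m' g : FreeGroup σ} (h : Pre m m') (h' : Pre m' g) :
    Pre (m⁻¹ * m') (m⁻¹ * g) := by
  have h2 := h.trans h'
  unfold Pre at *
  have : (m⁻¹ * m')⁻¹ * (m⁻¹ * g) = m'⁻¹ * g := by group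
  rw [this]; omega

theorem Pre.mul {m n g : FreeGroup σ} (h : Pre m g) (h' : Pre n (m⁻¹ * g)) :
    Pre (m * n) g ∧ Pre m (m * n) := by
  have h1 := norm_mul_le m n
  have h2 := norm_mul_le (m * n) ((m * n)⁻¹ * g)
  rw [mul_inv_cancel_left] at h2
  unfold Pre at *
  have e : (m * n)⁻¹ * g = n⁻¹ * (m⁻¹ * g) := by group
  rw [e] at h2
  rw [e, inv_mul_cancel_left]
  omega

theorem Pre.inv {m g : FreeGroup σ} (h : Pre m g) : Pre (g⁻¹ * m) g⁻¹ := by
  unfold Pre at *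
  have e : (g⁻¹ * m)⁻¹ * g⁻¹ = m⁻¹ := by group
  rw [e, norm_inv_eq, norm_inv_eq, norm_inv_mul_comm g m]; omega

theorem pfx_succ {g : FreeGroup σ} {k : ℕ} (h : k < g.norm) :
    ∃ a, pfx g (k + 1) = pfx g k * lt a := by
  have h1 := pre_pfx_pfx g (Nat.le_succ k)
  have h2 := h1.norm_rest
  rw [norm_pfx_of_le h, norm_pfx_of_le h.le] at h2
  obtain ⟨a, ha⟩ := norm_eq_one_iff.1 (by rw [h2]; omega)
  exact ⟨a, by rw [← ha, mul_inv_cancel_left]⟩

/-- A nontrivial word is a shorter word times a letter. -/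
theorem exists_last {g : FreeGroup σ} (h : g ≠ 1) :
    ∃ g' a, g = g' * lt a ∧ g'.norm + 1 = g.norm ∧ Pre g' g := by
  have h0 : 0 < g.norm := Nat.pos_of_ne_zero fun h0 => h (norm_eq_zero.1 h0)
  obtain ⟨a, ha⟩ := pfx_succ (g := g) (k := g.norm - 1) (by omega)
  rw [pfx_of_le (by omega)] at ha
  exact ⟨_, a, ha, by rw [norm_pfx_of_le (by omega)]; omega, pre_pfx _ _⟩

/-- A nontrivial word is a letter times a shorter word. -/
theorem exists_first {g : FreeGroup σ} (h : g ≠ 1) : ∃ a, Pre (lt a) g := by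
  have h0 : 0 < g.norm := Nat.pos_of_ne_zero fun h0 => h (norm_eq_zero.1 h0)
  obtain ⟨a, ha⟩ := norm_eq_one_iff.1 (norm_pfx_of_le (g := g) (k := 1) h0)
  exact ⟨a, ha ▸ pre_pfx g 1⟩

theorem pre_induction {P : FreeGroup σ → Prop} (h1 : P 1)
    (hs : ∀ g a, (g * lt a).norm = g.norm + 1 → P g → P (g * lt a)) (g : FreeGroup σ) : P g := by
  induction' hn : g.norm with n ih generalizing g
  · rw [norm_eq_zero.1 hn]; exact h1
  · obtain ⟨g', a, rfl, h2, -⟩ := exists_last (g := g) (by rintro rfl; simp at hn)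
    exact hs g' a h2.symm (ih g' (by omega))

theorem pre_mul_lt_self {g : FreeGroup σ} {a : σ × Bool} (h : (g * lt a).norm = g.norm + 1) :
    Pre g (g * lt a) := by
  unfold Pre; rw [inv_mul_cancel_left, norm_lt, h]

theorem mul_lt_cases (g : FreeGroup σ) (a : σ × Bool) :
    (g * lt a).norm = g.norm + 1 ∨ ((g * lt a).norm + 1 = g.norm ∧ Pre (g * lt a) g) := by
  have key : (g * lt a).norm = g.norm + 1 ∨ (g * lt a).norm + 1 = g.norm := by
    have h1 : Red (g.toWord ++ [a]) (g * lt a).toWord := by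
      rw [toWord_mul, toWord_lt]; exact reduce.red
    obtain ⟨n, hn⟩ := h1.length
    have h2 := norm_mul_le (g * lt a) (lt a)⁻¹
    rw [mul_inv_cancel_right, norm_inv_eq, norm_lt] at h2
    rw [List.length_append, List.length_singleton, ← norm_eq_length, ← norm_eq_length] at hn
    omega
  rcases key with h | h
  · exact Or.inl h
  · refine Or.inr ⟨h, ?_⟩
    unfold Pre
    have e : (g * lt a)⁻¹ * g = (lt a)⁻¹ := by group
    rw [e, norm_inv_eq, norm_lt, h]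

theorem Pre.of_mul_lt {m g : FreeGroup σ} {a : σ × Bool} (h : Pre m (g * lt a))
    (hn : (g * lt a).norm = g.norm + 1) : Pre m g ∨ m = g * lt a := by
  by_cases hl : m.norm ≤ g.norm
  · exact Or.inl (h.total (pre_mul_lt_self hn) hl)
  · exact Or.inr (h.eq_of_norm_ge (by omega))

/-! ### Betweenness -/

theorem btw_iff_pre {x m y : FreeGroup σ} : Btw x m y ↔ Pre (x⁻¹ * m) (x⁻¹ * y) := by
  unfold Btw Pre
  have e : (x⁻¹ * m)⁻¹ * (x⁻¹ * y) = m⁻¹ * y := by group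
  rw [e]

theorem btw_one {m g : FreeGroup σ} : Btw 1 m g ↔ Pre m g := by
  rw [btw_iff_pre]; simp

theorem Btw.symm {x m y : FreeGroup σ} (h : Btw x m y) : Btw y m x := by
  unfold Btw at *
  rw [norm_inv_mul_comm y m, norm_inv_mul_comm m x, norm_inv_mul_comm y x]; omega

theorem Btw.left (x y : FreeGroup σ) : Btw x x y := by simp [Btw]

theorem Btw.right (x y : FreeGroup σ) : Btw x y y := by simp [Btw]

theorem btw_mul {x m y : FreeGroup σ} (z : FreeGroup σ) :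
    Btw (z * x) (z * m) (z * y) ↔ Btw x m y := by
  unfold Btw
  have e : ∀ a b : FreeGroup σ, (z * a)⁻¹ * (z * b) = a⁻¹ * b := fun a b => by group
  rw [e, e, e]

/-- If `m ∈ [x, c]` and `c ∈ [x, y]` then `m ∈ [x, y]` and `c ∈ [m, y]`. -/
theorem Btw.trans {x m c y : FreeGroup σ} (h : Btw x m c) (h' : Btw x c y) :
    Btw x m y ∧ Btw m c y := by
  have h1 := norm_tri m c y
  have h2 := norm_tri x m y
  unfold Btw at *
  omega

theorem Btw.total {x m m' y : FreeGroup σ} (h : Btw x m y) (h' : Btw x m' y) :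
    Btw x m m' ∨ Btw x m' m := by
  rw [btw_iff_pre] at *
  rw [btw_iff_pre]
  rcases le_total (x⁻¹ * m).norm (x⁻¹ * m').norm with hl | hl
  · exact Or.inl (h.total h' hl)
  · exact Or.inr (h'.total h hl)

theorem Btw.eq_of_self {x m : FreeGroup σ} (h : Btw x m x) : m = x := by
  unfold Btw at h
  rw [inv_mul_cancel, FreeGroup.norm_one] at h
  have : (x⁻¹ * m).norm = 0 := by omega
  rw [FreeGroup.norm_eq_zero, inv_mul_eq_one] at this
  exact this.symm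

theorem median_one (g h : FreeGroup σ) : ∃ m, Pre m g ∧ Pre m h ∧ Btw g m h := by
  induction h using pre_induction with
  | h1 => exact ⟨1, Pre.one g, Pre.refl 1, Btw.right g 1⟩
  | hs h a hn ih =>
    obtain ⟨m, h1, h2, h3⟩ := ih
    have h4 := pre_mul_lt_self hn
    rcases mul_lt_cases (g⁻¹ * h) a with hc | ⟨hc, hp⟩
    · refine ⟨m, h1, h2.trans h4, ?_⟩
      have h5 := h2.trans h4
      unfold Btw Pre at *
      rw [← mul_assoc g⁻¹]
      omega
    · have hb : Btw g (h * lt a) h := by rw [btw_iff_pre, ← mul_assoc]; exact hp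
      have hm : m = h := by
        by_contra hne
        have h6 : 1 ≤ (h⁻¹ * m).norm := Nat.pos_of_ne_zero fun h0 => hne (by
          rw [FreeGroup.norm_eq_zero, inv_mul_eq_one] at h0; exact h0.symm)
        have h7 : Btw h (h * lt a) m := by
          have h8 := btw_iff_pre.1 hb.symm
          have h9 := btw_iff_pre.1 h3.symm
          exact btw_iff_pre.2 (h8.total h9 (by rw [inv_mul_cancel_left, norm_lt]; exact h6))
        have h10 := norm_mul_le m (m⁻¹ * (h * lt a))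
        rw [mul_inv_cancel_left] at h10
        unfold Btw Pre at *
        rw [inv_mul_cancel_left, norm_lt, norm_inv_mul_comm (h * lt a) m,
          norm_inv_mul_comm h m] at h7
        omega
      subst hm
      refine ⟨m * lt a, ?_, Pre.refl _, Btw.right _ _⟩
      unfold Pre at *
      rw [norm_inv_mul_comm (m * lt a) g, ← mul_assoc, norm_inv_mul_comm m g] at *
      omega

theorem median (x y z : FreeGroup σ) : ∃ m, Btw x m y ∧ Btw x m z ∧ Btw y m z := by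
  obtain ⟨m, h1, h2, h3⟩ := median_one (x⁻¹ * y) (x⁻¹ * z)
  refine ⟨x * m, ?_, ?_, ?_⟩
  · rw [btw_iff_pre, inv_mul_cancel_left]; exact h1
  · rw [btw_iff_pre, inv_mul_cancel_left]; exact h2
  · have := (btw_mul x).2 h3
    simpa using this

/-- Triangles are thin. -/
theorem Btw.thin {x m y : FreeGroup σ} (h : Btw x m y) (z : FreeGroup σ) :
    Btw x m z ∨ Btw z m y := by
  obtain ⟨c, h1, h2, h3⟩ := median x y z
  rcases h.total h1 with h4 | h4
  · exact Or.inl (h4.trans h2).1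
  · right
    have h5 := (h4.trans h).2
    exact ((h5.symm.trans h3).1).symm

/-! ### Balls -/

theorem mem_ballF [Fintype σ] {R : ℕ} {g : FreeGroup σ} : g ∈ ballF σ R ↔ g.norm ≤ R := by
  classical
  unfold ballF
  simp only [Finset.mem_image, Finset.mem_univ, true_and]
  constructor
  · rintro ⟨f, rfl⟩
    refine norm_mk_le.trans ?_
    refine (List.reduceOption_length_le _).trans ?_
    simp
  · intro h
    refine ⟨fun i => g.toWord[i.val]?, ?_⟩
    have key : ∀ (n : ℕ) (L : List (σ × Bool)), L.length ≤ n →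
        (List.ofFn fun i : Fin n => L[i.val]?).reduceOption = L := by
      intro n
      induction n with
      | zero => intro L hL; simp [List.length_eq_zero_iff.1 (Nat.le_zero.1 hL)]
      | succ n ih =>
        intro L hL
        rw [List.ofFn_succ]
        cases L with
        | nil => simp
        | cons a L =>
          have := ih L (by simpa using hL)
          simpa using this
    rw [key R _ h, mk_toWord]

theorem card_ballF [Fintype σ] (R : ℕ) : (ballF σ R).card ≤ (2 * Fintype.card σ + 1) ^ R := by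
  classical
  unfold ballF
  refine (Finset.card_image_le).trans ?_
  simp [mul_comm]

end Pool.Agent.MP_88ca14_an

end
end MrgPart2

-- ======== part 3: formerly Pool.Agent.MP_88ca14_an.Graph
section MrgPart3

/-!
PROJECT LRX: reading words in labelled graphs, word metrics, tiles.
-/

set_option autoImplicit false

noncomputable section

namespace Pool.Agent.MP_88ca14_an

open FreeGroup hiding map_mul map_inv map_one
open scoped Classical

namespace LG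

variable {σ V : Type} {Y : LG σ V}

theorem step_func {v w w' : V} {a : σ × Bool} (h : Y.step v a w) (h' : Y.step v a w') :
    w = w' := by
  rcases h with ⟨h1, h2⟩ | ⟨h1, h2⟩ <;> rcases h' with ⟨h3, h4⟩ | ⟨h3, h4⟩
  · exact Y.func h2 h4
  · simp [h1] at h3
  · simp [h1] at h3
  · exact Y.inj h2 h4

theorem step_inv {v w : V} {a : σ × Bool} : Y.step w (a.1, !a.2) v ↔ Y.step v a w := by
  obtain ⟨a, b⟩ := a
  cases b <;> simp [step]

theorem step_true {v w : V} {a : σ} : Y.step v (a, true) w ↔ Y.rel v a w := by simp [step]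

theorem step_false {v w : V} {a : σ} : Y.step v (a, false) w ↔ Y.rel w a v := by simp [step]

theorem walk_append {L L' : List (σ × Bool)} {v w : V} :
    Y.Walk v (L ++ L') w ↔ ∃ u, Y.Walk v L u ∧ Y.Walk u L' w := by
  induction L generalizing v with
  | nil => simp [Walk]
  | cons a L ih =>
    simp only [List.cons_append, Walk, ih]
    constructor
    · rintro ⟨u, h1, u', h2, h3⟩; exact ⟨u', ⟨u, h1, h2⟩, h3⟩
    · rintro ⟨u', ⟨u, h1, h2⟩, h3⟩; exact ⟨u, h1, u', h2, h3⟩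

theorem walk_func {L : List (σ × Bool)} {v w w' : V} (h : Y.Walk v L w) (h' : Y.Walk v L w') :
    w = w' := by
  induction L generalizing v with
  | nil => exact h.symm.trans h'
  | cons a L ih =>
    obtain ⟨u, h1, h2⟩ := h
    obtain ⟨u', h3, h4⟩ := h'
    obtain rfl := step_func h1 h3
    exact ih h2 h4

theorem walk_invRev {L : List (σ × Bool)} {v w : V} (h : Y.Walk v L w) :
    Y.Walk w (invRev L) v := by
  induction L generalizing v with
  | nil => exact h.symm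
  | cons a L ih =>
    obtain ⟨u, h1, h2⟩ := h
    rw [invRev_cons, walk_append]
    exact ⟨u, ih h2, v, step_inv.2 h1, rfl⟩

theorem walk_red {L L' : List (σ × Bool)} (hr : Red L L') {v w : V} (h : Y.Walk v L w) :
    Y.Walk v L' w := by
  induction hr with
  | refl => exact h
  | tail _ hs ih =>
    cases hs with
    | @not L₁ L₂ x b =>
      obtain ⟨u, h1, u1, h2, u2, h3, h4⟩ := walk_append.1 ih
      have : u2 = u := step_func h3 (step_inv.2 h2)
      subst this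
      exact walk_append.2 ⟨_, h1, h4⟩

theorem walk_mono {Y' : LG σ V} (hm : ∀ v a w, Y.rel v a w → Y'.rel v a w) {L : List (σ × Bool)}
    {v w : V} (h : Y.Walk v L w) : Y'.Walk v L w := by
  induction L generalizing v with
  | nil => exact h
  | cons a L ih =>
    obtain ⟨u, h1, h2⟩ := h
    exact ⟨u, h1.imp (fun h => ⟨h.1, hm _ _ _ h.2⟩) (fun h => ⟨h.1, hm _ _ _ h.2⟩), ih h2⟩

theorem deg_card [Fintype σ] (Y : LG σ V) : Y.Deg (2 * Fintype.card σ) := fun _ =>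
  ⟨Finset.univ, by simp [mul_comm], fun _ _ _ => Finset.mem_univ _⟩

variable [DecidableEq σ]

theorem rd_mk {L : List (σ × Bool)} {v w : V} (h : Y.Walk v L w) : Y.Rd v (FreeGroup.mk L) w := by
  unfold Rd; rw [toWord_mk]; exact walk_red reduce.red h

theorem rd_one {v w : V} : Y.Rd v 1 w ↔ v = w := by simp [Rd, Walk]

theorem Rd.refl (Y : LG σ V) (v : V) : Y.Rd v 1 v := rd_one.2 rfl

theorem Rd.trans {v w u : V} {g g' : FreeGroup σ} (h : Y.Rd v g w) (h' : Y.Rd w g' u) :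
    Y.Rd v (g * g') u := by
  have := rd_mk (walk_append.2 ⟨w, h, h'⟩)
  rwa [← mul_mk, mk_toWord, mk_toWord] at this

theorem Rd.inv {v w : V} {g : FreeGroup σ} (h : Y.Rd v g w) : Y.Rd w g⁻¹ v := by
  unfold Rd; rw [toWord_inv]; exact walk_invRev h

theorem Rd.func {v w w' : V} {g : FreeGroup σ} (h : Y.Rd v g w) (h' : Y.Rd v g w') : w = w' :=
  walk_func h h'

theorem Rd.inj {v v' w : V} {g : FreeGroup σ} (h : Y.Rd v g w) (h' : Y.Rd v' g w) : v = v' :=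
  h.inv.func h'.inv

theorem Rd.div {v w w' : V} {g g' : FreeGroup σ} (h : Y.Rd v g w) (h' : Y.Rd v g' w') :
    Y.Rd w (g⁻¹ * g') w' := h.inv.trans h'

theorem rd_lt {v w : V} {a : σ × Bool} : Y.Rd v (lt a) w ↔ Y.step v a w := by
  simp [Rd, Walk]

theorem rd_of {v w : V} {a : σ} : Y.Rd v (of a) w ↔ Y.rel v a w := by
  rw [← lt_true, rd_lt, step_true]

theorem Rd.split {v w : V} {m g : FreeGroup σ} (h : Y.Rd v g w) (hp : Pre m g) :
    ∃ u, Y.Rd v m u ∧ Y.Rd u (m⁻¹ * g) w := by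
  unfold Rd at h
  rw [pre_iff_append.1 hp, walk_append] at h
  exact h

/-- A point between two words read from `v` is read from `v`. -/
theorem Rd.btw {v w w' : V} {g g' m : FreeGroup σ} (h : Y.Rd v g w) (h' : Y.Rd v g' w')
    (hb : Btw g m g') : ∃ u, Y.Rd v m u ∧ Y.Rd w (g⁻¹ * m) u := by
  obtain ⟨u, h1, -⟩ := (h.div h').split (btw_iff_pre.1 hb)
  exact ⟨u, by simpa using h.trans h1, h1⟩

theorem Rd.mono {Y' : LG σ V} (hm : ∀ v a w, Y.rel v a w → Y'.rel v a w) {v w : V}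
    {g : FreeGroup σ} (h : Y.Rd v g w) : Y'.Rd v g w := walk_mono hm h

theorem Reads.pre {v : V} {m g : FreeGroup σ} (h : Y.Reads v g) (hp : Pre m g) : Y.Reads v m := by
  obtain ⟨w, hw⟩ := h
  obtain ⟨u, hu, -⟩ := hw.split hp
  exact ⟨u, hu⟩

theorem Reads.one (Y : LG σ V) (v : V) : Y.Reads v 1 := ⟨v, Rd.refl Y v⟩

/-- Induction along a word that is read. -/
theorem Rd.induction {v : V} {P : FreeGroup σ → V → Prop} (h1 : P 1 v)
    (hs : ∀ g w a w', (g * lt a).norm = g.norm + 1 → Y.Rd v g w → Y.step w a w' → P g w →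
      P (g * lt a) w') {g : FreeGroup σ} {w : V} (h : Y.Rd v g w) : P g w := by
  induction g using pre_induction generalizing w with
  | h1 => rw [← rd_one.1 h]; exact h1
  | hs g a hn ih =>
    obtain ⟨u, h2, h3⟩ := h.split (pre_mul_lt_self hn)
    rw [inv_mul_cancel_left, rd_lt] at h3
    exact hs g u a w hn h2 h3 (ih h2)

/-- Both ends of a nontrivial word lie on edges. -/
theorem Rd.mem {Vs : Set V} (hm : ∀ v a w, Y.rel v a w → v ∈ Vs ∧ w ∈ Vs) {v w : V}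
    {g : FreeGroup σ} (h : Y.Rd v g w) (hv : v ∈ Vs) : w ∈ Vs :=
  Rd.induction (P := fun _ w => w ∈ Vs) hv (fun _ _ _ _ _ _ hs _ =>
    hs.elim (fun h => (hm _ _ _ h.2).2) fun h => (hm _ _ _ h.2).1) h

theorem Rd.mem_of_ne {Vs : Set V} (hm : ∀ v a w, Y.rel v a w → v ∈ Vs ∧ w ∈ Vs) {v w : V}
    {g : FreeGroup σ} (h : Y.Rd v g w) (hg : g ≠ 1) : v ∈ Vs ∧ w ∈ Vs := by
  obtain ⟨a, ha⟩ := exists_first hg
  obtain ⟨u, h1, -⟩ := h.split ha
  have hv : v ∈ Vs := (rd_lt.1 h1).elim (fun h => (hm _ _ _ h.2).1) fun h => (hm _ _ _ h.2).2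
  exact ⟨hv, h.mem hm hv⟩

theorem Near.refl (Y : LG σ V) (n : ℕ) (v : V) : Y.Near n v v := ⟨1, Rd.refl Y v, by simp⟩

theorem Near.symm {n : ℕ} {v w : V} (h : Y.Near n v w) : Y.Near n w v := by
  obtain ⟨g, h1, h2⟩ := h
  exact ⟨g⁻¹, h1.inv, by simpa using h2⟩

theorem Near.trans {n m : ℕ} {v w u : V} (h : Y.Near n v w) (h' : Y.Near m w u) :
    Y.Near (n + m) v u := by
  obtain ⟨g, h1, h2⟩ := h
  obtain ⟨g', h3, h4⟩ := h'
  exact ⟨g * g', h1.trans h3, (FreeGroup.norm_mul_le _ _).trans (add_le_add h2 h4)⟩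

theorem Near.mono {n m : ℕ} {v w : V} (h : Y.Near n v w) (hl : n ≤ m) : Y.Near m v w := by
  obtain ⟨g, h1, h2⟩ := h
  exact ⟨g, h1, h2.trans hl⟩

theorem Near.of_step {v w : V} {a : σ × Bool} (h : Y.step v a w) : Y.Near 1 v w :=
  ⟨lt a, rd_lt.2 h, by simp⟩

/-- Two short words with the same ends are equal (girth at the start). -/
theorem eq_of_girth {n : ℕ} {x y : V} {g g' : FreeGroup σ}
    (hg : ∀ k, Y.Rd x k x → k = 1 ∨ n ≤ k.norm) (h : Y.Rd x g y) (h' : Y.Rd x g' y)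
    (hl : g.norm + g'.norm < n) : g = g' := by
  rcases hg _ (h.trans h'.inv) with h1 | h1
  · exact mul_inv_eq_one.1 h1
  · have := norm_mul_le g g'⁻¹
    rw [norm_inv_eq] at this; omega

theorem Girth.eq {n : ℕ} (hg : Y.Girth n) {x y : V} {g g' : FreeGroup σ} (h : Y.Rd x g y)
    (h' : Y.Rd x g' y) (hl : g.norm + g'.norm < n) : g = g' :=
  eq_of_girth (hg x) h h' hl

/-- At most `D ^ r` words of length `r` are read from a vertex. -/
theorem Deg.words {D : ℕ} (hD : Y.Deg D) (x : V) (r : ℕ) : ∃ s : Finset (FreeGroup σ),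
    s.card ≤ D ^ r ∧ ∀ g, g ∈ s ↔ Y.Reads x g ∧ g.norm = r := by
  have key : ∃ s : Finset (FreeGroup σ), s.card ≤ D ^ r ∧
      ∀ g, Y.Reads x g → g.norm = r → g ∈ s := by
    induction r with
    | zero => exact ⟨{1}, by simp, fun g _ h => by simp [FreeGroup.norm_eq_zero.1 h]⟩
    | succ r ih =>
      obtain ⟨s, h1, h2⟩ := ih
      choose t ht1 ht2 using hD
      let e : FreeGroup σ → V := fun g => if h : Y.Reads x g then h.choose else x
      refine ⟨s.biUnion fun g => (t (e g)).image fun a => g * lt a, ?_, ?_⟩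
      · refine (Finset.card_biUnion_le_card_mul _ _ D fun g _ =>
          Finset.card_image_le.trans (ht1 _)).trans ?_
        rw [pow_succ]; exact Nat.mul_le_mul_right _ h1
      · rintro g ⟨w, hw⟩ hn
        obtain ⟨g', a, rfl, h3, h4⟩ := exists_last (g := g) (by rintro rfl; simp at hn)
        obtain ⟨u, h5, h6⟩ := hw.split h4
        rw [inv_mul_cancel_left, rd_lt] at h6
        have hr : Y.Reads x g' := ⟨u, h5⟩
        have he : e g' = u := by
          simp only [e, dif_pos hr]; exact hr.choose_spec.func h5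
        exact Finset.mem_biUnion.2 ⟨g', h2 g' hr (by omega),
          Finset.mem_image.2 ⟨a, ht2 _ a w (he ▸ h6), rfl⟩⟩
  obtain ⟨s, h1, h2⟩ := key
  refine ⟨s.filter fun g => Y.Reads x g ∧ g.norm = r, (Finset.card_filter_le _ _).trans h1,
    fun g => ?_⟩
  rw [Finset.mem_filter]
  exact ⟨fun h => h.2, fun h => ⟨h2 g h.1 h.2, h⟩⟩

/-- At most `(D + 1) ^ r` vertices are within distance `r`. -/
theorem Deg.ball {D : ℕ} (hD : Y.Deg D) (x : V) (r : ℕ) : ∃ s : Finset V,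
    s.card ≤ (D + 1) ^ r ∧ ∀ y, y ∈ s ↔ Y.Near r x y := by
  have key : ∃ s : Finset V, s.card ≤ (D + 1) ^ r ∧ ∀ y, Y.Near r x y → y ∈ s := by
    induction r with
    | zero =>
      refine ⟨{x}, by simp, ?_⟩
      rintro y ⟨g, h1, h2⟩
      rw [FreeGroup.norm_eq_zero.1 (Nat.le_zero.1 h2), rd_one] at h1
      simp [h1]
    | succ r ih =>
      obtain ⟨s, h1, h2⟩ := ih
      choose t ht1 ht2 using hD
      let e : V → σ × Bool → V := fun u a => if h : ∃ w, Y.step u a w then h.choose else u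
      refine ⟨s.biUnion fun u => insert u ((t u).image (e u)), ?_, ?_⟩
      · refine (Finset.card_biUnion_le_card_mul _ _ (D + 1) fun u _ =>
          (Finset.card_insert_le _ _).trans
            (Nat.succ_le_succ (Finset.card_image_le.trans (ht1 _)))).trans ?_
        rw [pow_succ]; exact Nat.mul_le_mul_right _ h1
      · rintro y ⟨g, hw, hn⟩
        by_cases hl : g.norm ≤ r
        · exact Finset.mem_biUnion.2 ⟨y, h2 y ⟨g, hw, hl⟩, Finset.mem_insert_self _ _⟩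
        obtain ⟨g', a, rfl, h3, h4⟩ := exists_last (g := g) (by rintro rfl; simp at hl)
        obtain ⟨u, h5, h6⟩ := hw.split h4
        rw [inv_mul_cancel_left, rd_lt] at h6
        have hr : ∃ w, Y.step u a w := ⟨y, h6⟩
        have he : e u a = y := by
          simp only [e, dif_pos hr]; exact step_func hr.choose_spec h6
        exact Finset.mem_biUnion.2 ⟨u, h2 u ⟨g', h5, by omega⟩, Finset.mem_insert_of_mem
          (Finset.mem_image.2 ⟨a, ht2 _ a y h6, he⟩)⟩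
  obtain ⟨s, h1, h2⟩ := key
  refine ⟨s.filter fun y => Y.Near r x y, (Finset.card_filter_le _ _).trans h1, fun g => ?_⟩
  rw [Finset.mem_filter]
  exact ⟨fun h => h.2, fun h => ⟨h2 g h, h⟩⟩

/-- A shortest word inside a set `s` visits distinct vertices, so it is shorter than `card s`. -/
theorem exists_short (s : Finset V) {x y : V} {g : FreeGroup σ} (h : Y.Rd x g y)
    (hs : ∀ m z, Pre m g → Y.Rd x m z → z ∈ s) :
    ∃ g', Y.Rd x g' y ∧ g'.norm < s.card ∧ g'.norm ≤ g.norm ∧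
      ∀ m z, Pre m g' → Y.Rd x m z → z ∈ s := by
  induction' hn : g.norm using Nat.strong_induction_on with n ih generalizing g
  by_cases hl : g.norm < s.card
  · exact ⟨g, h, hl, hn.le, hs⟩
  have hex : ∀ k : Fin (g.norm + 1), ∃ z, Y.Rd x (pfx g k) z := fun k =>
    (Reads.pre ⟨y, h⟩ (pre_pfx g k) :)
  choose z hz using hex
  have hmap : ∀ k ∈ (Finset.univ : Finset (Fin (g.norm + 1))), z k ∈ s := fun k _ =>
    hs _ _ (pre_pfx g k) (hz k)
  obtain ⟨k, -, l, -, hkl, hzz⟩ := Finset.exists_ne_map_eq_of_card_lt_of_maps_to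
    (by simp; omega) hmap
  wlog hlt : k < l generalizing k l
  · exact this l k hkl.symm hzz.symm (lt_of_le_of_ne (not_lt.1 hlt) hkl.symm)
  have hk : k.val ≤ g.norm := Nat.lt_succ_iff.1 k.2
  have hl' : l.val ≤ g.norm := Nat.lt_succ_iff.1 l.2
  have h2 : Y.Rd (z l) ((pfx g l)⁻¹ * g) y := (hz l).div h
  have h3 : Y.Rd x (pfx g k * ((pfx g l)⁻¹ * g)) y := (hz k).trans (hzz ▸ h2)
  have h4 := norm_mul_le (pfx g k) ((pfx g l)⁻¹ * g)
  rw [(pre_pfx g l).norm_rest, norm_pfx_of_le hk, norm_pfx_of_le hl'] at h4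
  have hlt' : k.val < l.val := hlt
  obtain ⟨g', h5, h6, h7, h8⟩ := ih _ (by omega) h3 (fun m w hm hw => by
    rcases (btw_one.2 hm).thin (pfx g k) with h9 | h9
    · exact hs m w ((btw_one.1 h9).trans (pre_pfx g k)) hw
    · have h10 := btw_iff_pre.1 h9
      rw [inv_mul_cancel_left] at h10
      have h11 := ((pre_pfx g l).mul h10).1
      refine hs _ w h11 ((hz l).trans ?_)
      rw [← hzz]; exact (hz k).div hw) rfl
  exact ⟨g', h5, h6, by omega, h8⟩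

end LG

/-! ### Word metrics -/

namespace WG

variable {G : Type} [Group G] (W : WG G)

@[simp] theorem wl_one : W.wl 1 = 0 := (W.wl_eq_zero 1).2 rfl

@[simp] theorem ds_self (x : G) : W.ds x x = 0 := by simp [ds]

theorem ds_eq_zero {x y : G} : W.ds x y = 0 ↔ x = y := by
  rw [ds, W.wl_eq_zero, inv_mul_eq_one]

theorem ds_comm (x y : G) : W.ds x y = W.ds y x := by
  rw [ds, ds, ← W.wl_inv]; simp

theorem ds_tri (x y z : G) : W.ds x z ≤ W.ds x y + W.ds y z := by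
  have := W.wl_mul (x⁻¹ * y) (y⁻¹ * z)
  simpa [ds, mul_assoc] using this

@[simp] theorem ds_mul_right (x g : G) : W.ds x (x * g) = W.wl g := by simp [ds]

@[simp] theorem ds_mul_left (z x y : G) : W.ds (z * x) (z * y) = W.ds x y := by
  simp [ds, mul_assoc]

theorem subset_nb (R : ℕ) (S : Set G) : S ⊆ W.Nb R S := fun x hx => ⟨x, hx, by simp⟩

theorem nb_mono {R R' : ℕ} {S S' : Set G} (h : R ≤ R') (h' : S ⊆ S') : W.Nb R S ⊆ W.Nb R' S' :=
  fun _ ⟨y, hy, hd⟩ => ⟨y, h' hy, hd.trans h⟩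

theorem nb_nb (R R' : ℕ) (S : Set G) : W.Nb R (W.Nb R' S) ⊆ W.Nb (R + R') S :=
  fun x ⟨y, ⟨z, hz, h1⟩, h2⟩ => ⟨z, hz, (W.ds_tri x y z).trans (add_le_add h2 h1)⟩

theorem one_mem_ball (R : ℕ) : (1 : G) ∈ W.ball R := by simp [W.mem_ball]

end WG

theorem cay_step {σ G : Type} [Group G] (π : FreeGroup σ →* G) {v w : G} {a : σ × Bool} :
    (cay π).step v a w ↔ w = v * π (lt a) := by
  obtain ⟨a, b⟩ := a
  cases b
  · rw [LG.step_false, lt_false, map_inv, eq_mul_inv_iff_mul_eq]; exact eq_comm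
  · rw [LG.step_true, lt_true]; rfl

theorem cay_rd {σ G : Type} [DecidableEq σ] [Group G] (π : FreeGroup σ →* G) {v w : G}
    {g : FreeGroup σ} : (cay π).Rd v g w ↔ w = v * π g := by
  have key : ∀ g : FreeGroup σ, (cay π).Rd v g (v * π g) := fun g => by
    induction g using pre_induction with
    | h1 => simp [LG.rd_one]
    | hs g a _ ih => exact ih.trans (LG.rd_lt.2 ((cay_step π).2 (by rw [map_mul, mul_assoc])))
  exact ⟨fun h => h.func (key g), fun h => h ▸ key g⟩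

/-- The word metric of a surjection from a free group. -/
theorem exists_gen {σ G : Type} [Fintype σ] [DecidableEq σ] [Group G] (π : FreeGroup σ →* G)
    (hπ : Function.Surjective π) : ∃ Γ : Gen σ G, Γ.π = π := by
  have hex : ∀ γ : G, ∃ n, ∃ g, π g = γ ∧ g.norm = n := fun γ => by
    obtain ⟨g, hg⟩ := hπ γ; exact ⟨_, g, hg, rfl⟩
  have hle : ∀ g, Nat.find (hex (π g)) ≤ g.norm := fun g => Nat.find_min' _ ⟨g, rfl, rfl⟩
  have hsp : ∀ γ, ∃ g, π g = γ ∧ g.norm = Nat.find (hex γ) := fun γ => Nat.find_spec (hex γ)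
  have hinv : ∀ γ, Nat.find (hex γ⁻¹) ≤ Nat.find (hex γ) := fun γ => by
    obtain ⟨g, h1, h2⟩ := hsp γ
    rw [← h2, ← h1, ← map_inv, ← norm_inv_eq]; exact hle _
  refine ⟨⟨⟨fun γ => Nat.find (hex γ), fun γ => ?_, fun γ => ?_, fun γ γ' => ?_,
    fun R => (ballF σ R).image π, fun R γ => ?_⟩, π, hle, hsp, fun R => ?_⟩, rfl⟩
  · constructor
    · intro h
      obtain ⟨g, h1, h2⟩ := hsp γ
      rw [h, FreeGroup.norm_eq_zero] at h2
      rw [← h1, h2, map_one]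
    · rintro rfl
      have := hle 1
      rw [FreeGroup.norm_one] at this
      simpa only [map_one, Nat.le_zero] using this
  · exact le_antisymm (hinv γ) (by simpa using hinv γ⁻¹)
  · obtain ⟨g, h1, h2⟩ := hsp γ
    obtain ⟨g', h3, h4⟩ := hsp γ'
    rw [← h2, ← h4, ← h1, ← h3, ← map_mul]
    exact (hle _).trans (FreeGroup.norm_mul_le _ _)
  · rw [Finset.mem_image]
    constructor
    · rintro ⟨g, h1, rfl⟩; exact (hle g).trans (mem_ballF.1 h1)
    · intro h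
      obtain ⟨g, h1, h2⟩ := hsp γ
      exact ⟨g, mem_ballF.2 (h2 ▸ h), h1⟩
  · exact Finset.card_image_le.trans (card_ballF R)

namespace Gen

variable {σ G : Type} [Fintype σ] [DecidableEq σ] [Group G] (Γ : Gen σ G)

theorem ds_pi (v : G) (g : FreeGroup σ) : Γ.W.ds v (v * Γ.π g) ≤ g.norm := by
  rw [WG.ds_mul_right]; exact Γ.wl_le g

theorem ds_pi_pi (v : G) (g g' : FreeGroup σ) :
    Γ.W.ds (v * Γ.π g) (v * Γ.π g') ≤ (g⁻¹ * g').norm := by
  rw [WG.ds_mul_left, WG.ds, ← map_inv, ← map_mul]; exact Γ.wl_le _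

theorem exists_gd (a b : G) : ∃ g, Γ.Gd g ∧ b = a * Γ.π g ∧ g.norm = Γ.W.ds a b := by
  obtain ⟨g, h1, h2⟩ := Γ.geod (a⁻¹ * b)
  exact ⟨g, by rw [Gd, h1, h2], by rw [h1, mul_inv_cancel_left], h2⟩

variable {Γ}

theorem Gd.inv {g : FreeGroup σ} (h : Γ.Gd g) : Γ.Gd g⁻¹ := by
  unfold Gd at *; rw [map_inv, Γ.W.wl_inv, norm_inv_eq, h]

theorem Gd.pre {m g : FreeGroup σ} (h : Γ.Gd g) (hp : Pre m g) : Γ.Gd m ∧ Γ.Gd (m⁻¹ * g) := by
  have h1 := Γ.wl_le m
  have h2 := Γ.wl_le (m⁻¹ * g)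
  have h3 := Γ.W.wl_mul (Γ.π m) (Γ.π (m⁻¹ * g))
  rw [← map_mul, mul_inv_cancel_left] at h3
  unfold Gd Pre at *
  omega

theorem Gd.seg {m m' g : FreeGroup σ} (h : Γ.Gd g) (hp : Pre m m') (hp' : Pre m' g) :
    Γ.Gd (m⁻¹ * m') := ((h.pre hp').1.pre hp).2

theorem Gd.norm_le {g g' : FreeGroup σ} (h : Γ.Gd g) (he : Γ.π g = Γ.π g') :
    g.norm ≤ g'.norm := by
  rw [← h, he]; exact Γ.wl_le g'

theorem Gd.ds {g : FreeGroup σ} (h : Γ.Gd g) (v : G) : Γ.W.ds v (v * Γ.π g) = g.norm := by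
  rw [WG.ds_mul_right]; exact h

end Gen

namespace Tiles

variable {σ : Type} [Fintype σ] [DecidableEq σ] (T : Tiles σ)

theorem ty_rd {x y : T.X} {g : FreeGroup σ} (h : T.Γ.Rd x g y) : T.ty x = T.ty y :=
  (T.conn x y).2 ⟨g, h⟩

theorem ell_rd {x y : T.X} {g : FreeGroup σ} (h : T.Γ.Rd x g y) : T.ell y = T.ell x := by
  rw [ell, ell, T.ty_rd h]

theorem two_le_ell (x : T.X) : 2 ≤ T.ell x :=
  (pow_one 2).symm.le.trans (Nat.pow_le_pow_right (by norm_num) (T.r_pos _))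

theorem eq_of_short {x y : T.X} {g g' : FreeGroup σ} (h : T.Γ.Rd x g y) (h' : T.Γ.Rd x g' y)
    (hl : g.norm + g'.norm < 100 * T.ell x) : g = g' :=
  LG.eq_of_girth (T.girth x) h h' hl

theorem piece' {x x' : T.X} {g : FreeGroup σ} (hne : x ≠ x') (h : T.Γ.Reads x g)
    (h' : T.Γ.Reads x' g) : g.norm < T.ell x ∧ g.norm < T.ell x' :=
  ⟨T.piece x x' g hne h h', T.piece x' x g hne.symm h' h⟩

/-- The diameter of a tile. -/
theorem diam {x y : T.X} {g : FreeGroup σ} (h : T.Γ.Rd x g y) :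
    ∃ g', T.Γ.Rd x g' y ∧ g'.norm ≤ 17 ^ (101 * T.ell x) := by
  obtain ⟨g', h1, h2, -, -⟩ := LG.exists_short (T.pts (T.ty x)) h fun m z _ hz =>
    (T.mem_pts _ _).2 (T.ty_rd hz).symm
  exact ⟨g', h1, h2.le.trans (T.card_le _)⟩

theorem nonempty_X : Nonempty T.X := by
  obtain ⟨i, -, ⟨x, -⟩, -⟩ := T.big 0
  exact ⟨x⟩

end Tiles

/-! ### The norm `l1` and amenable sets -/

section L1

variable {α : Type}

theorem l1_eq_sum {φ : α →₀ ℝ} {s : Finset α} (h : φ.support ⊆ s) : l1 φ = ∑ z ∈ s, |φ z| :=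
  Finset.sum_subset h fun z _ hz => by simp [Finsupp.notMem_support_iff.1 hz]

theorem l1_nonneg (φ : α →₀ ℝ) : 0 ≤ l1 φ := Finset.sum_nonneg fun _ _ => abs_nonneg _

theorem l1_add_le (φ ψ : α →₀ ℝ) : l1 (φ + ψ) ≤ l1 φ + l1 ψ := by
  rw [l1_eq_sum (Finsupp.support_add (g₁ := φ) (g₂ := ψ)),
    l1_eq_sum (φ := φ) (Finset.subset_union_left (s₂ := ψ.support)),
    l1_eq_sum (φ := ψ) (Finset.subset_union_right (s₁ := φ.support)), ← Finset.sum_add_distrib]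
  exact Finset.sum_le_sum fun z _ => abs_add_le _ _

theorem l1_neg (φ : α →₀ ℝ) : l1 (-φ) = l1 φ := by simp [l1]

theorem l1_sub_comm (φ ψ : α →₀ ℝ) : l1 (φ - ψ) = l1 (ψ - φ) := by rw [← l1_neg, neg_sub]

theorem l1_smul (c : ℝ) (φ : α →₀ ℝ) : l1 (c • φ) = |c| * l1 φ := by
  rw [l1_eq_sum (Finsupp.support_smul (b := c) (g := φ)), l1, Finset.mul_sum]
  simp [abs_mul]

@[simp] theorem l1_zero : l1 (0 : α →₀ ℝ) = 0 := by simp [l1]

theorem l1_single (a : α) (c : ℝ) : l1 (Finsupp.single a c) = |c| := by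
  rw [l1_eq_sum (Finsupp.support_single_subset (a := a) (b := c))]; simp

theorem l1_sum_le {ι : Type} (s : Finset ι) (φ : ι → α →₀ ℝ) :
    l1 (∑ i ∈ s, φ i) ≤ ∑ i ∈ s, l1 (φ i) := by
  induction s using Finset.induction_on with
  | empty => simp
  | insert i s hi ih =>
    rw [Finset.sum_insert hi, Finset.sum_insert hi]
    exact (l1_add_le _ _).trans (by linarith)

theorem l1_add_of_nonneg {φ ψ : α →₀ ℝ} (h : ∀ z, 0 ≤ φ z) (h' : ∀ z, 0 ≤ ψ z) :
    l1 (φ + ψ) = l1 φ + l1 ψ := by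
  rw [l1_eq_sum (Finsupp.support_add (g₁ := φ) (g₂ := ψ)),
    l1_eq_sum (φ := φ) (Finset.subset_union_left (s₂ := ψ.support)),
    l1_eq_sum (φ := ψ) (Finset.subset_union_right (s₁ := φ.support)), ← Finset.sum_add_distrib]
  refine Finset.sum_congr rfl fun z _ => ?_
  rw [Finsupp.add_apply, abs_of_nonneg (h z), abs_of_nonneg (h' z),
    abs_of_nonneg (add_nonneg (h z) (h' z))]

theorem l1_sum_of_nonneg {ι : Type} (s : Finset ι) (φ : ι → α →₀ ℝ)
    (h : ∀ i ∈ s, ∀ z, 0 ≤ φ i z) : l1 (∑ i ∈ s, φ i) = ∑ i ∈ s, l1 (φ i) := by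
  induction s using Finset.induction_on with
  | empty => simp
  | insert i s hi ih =>
    rw [Finset.sum_insert hi, Finset.sum_insert hi, l1_add_of_nonneg
      (h i (Finset.mem_insert_self _ _)) (fun z => by
        rw [Finsupp.finsetSum_apply]
        exact Finset.sum_nonneg fun j hj => h j (Finset.mem_insert_of_mem hj) z),
      ih fun j hj => h j (Finset.mem_insert_of_mem hj)]

theorem mapDomain_eq_sum {β : Type} (f : α → β) (φ : α →₀ ℝ) :
    φ.mapDomain f = ∑ z ∈ φ.support, Finsupp.single (f z) (φ z) := rfl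

theorem l1_mapDomain_le {β : Type} (f : α → β) (φ : α →₀ ℝ) : l1 (φ.mapDomain f) ≤ l1 φ := by
  rw [mapDomain_eq_sum]
  refine (l1_sum_le _ _).trans (le_of_eq ?_)
  simp only [l1_single]; rfl

theorem mapDomain_nonneg' {β : Type} (f : α → β) {φ : α →₀ ℝ} (h : ∀ z, 0 ≤ φ z) (y : β) :
    0 ≤ φ.mapDomain f y := by
  rw [mapDomain_eq_sum, Finsupp.finsetSum_apply]
  exact Finset.sum_nonneg fun z _ => by
    rw [Finsupp.single_apply]; split_ifs; exacts [h z, le_rfl]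

theorem l1_mapDomain {β : Type} (f : α → β) {φ : α →₀ ℝ} (h : ∀ z, 0 ≤ φ z) :
    l1 (φ.mapDomain f) = l1 φ := by
  rw [mapDomain_eq_sum, l1_sum_of_nonneg _ _ fun z _ y => by
    rw [Finsupp.single_apply]; split_ifs; exacts [h z, le_rfl]]
  simp only [l1_single]; rfl

theorem Amen.mono {near : ℕ → α → α → Prop} {V V' : Set α} {R S : ℕ} {ε ε' : ℝ}
    (h : Amen near V R ε S) (hV : V' ⊆ V) (hε : ε ≤ ε') : Amen near V' R ε' S := by
  obtain ⟨μ, h1, h2, h3, h4⟩ := h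
  exact ⟨μ, h1, fun x hx => h2 x (hV hx), fun x hx => h3 x (hV hx),
    fun x hx y hy hn => (h4 x (hV hx) y (hV hy) hn).trans hε⟩

end L1

end Pool.Agent.MP_88ca14_an

end
end MrgPart3

-- marker of a merged file
example : 731051 + 898876 = 731051 + 898876 := rfl
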