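import Mathlib.LinearAlgebra.FreeModule.PID
import Mathlib.Topology.Sheaves.Presheaf
import Mathlib.RingTheory.Flat.TorsionFree
import Mathlib.Algebra.Order.Archimedean.Real.Hom
import Mathlib.Algebra.Ring.IsFormallyReal
import Mathlib.Combinatorics.SimpleGraph.Basic
import Mathlib.Analysis.Matrix.Order
import Mathlib.Data.Finset.Functor
import Mathlib.RingTheory.PiTensorProduct
import Mathlib.RingTheory.SimpleRing.Principal
import Pool.Agent.MP_88ca14_an.Graph

-- ======== part 0: formerly Pool.Agent.MP_88ca14_an.Petz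
section MrgPart0

/-!
PROJECT LRX, module PETZ: the recovery map for the form `tr (k* h^(-1/2) k h^(-1/2))`.
-/

set_option autoImplicit false

noncomputable section

namespace Pool.Agent.MP_88ca14_an

open scoped ComplexConjugate ComplexOrder Matrix MatrixOrder

namespace Petz

/-- Cauchy-Schwarz for a nonnegative Hermitian form. -/
theorem cs {V : Type} [AddCommGroup V] [Module ℂ V] (D : V → V → ℂ)
    (h1 : ∀ x y, conj (D y x) = D x y) (h2 : ∀ x, 0 ≤ (D x x).re)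
    (h3 : ∀ x y z, D (x + y) z = D x z + D y z)
    (h4 : ∀ x y (r : ℂ), D (r • x) y = conj r * D x y) (x y : V) :
    ‖D x y‖ ^ 2 ≤ (D x x).re * (D y y).re := by
  let c : PreInnerProductSpace.Core ℂ V :=
    { inner := D, conj_inner_symm := h1, re_inner_nonneg := h2, add_left := h3, smul_left := h4 }
  have h := @InnerProductSpace.Core.inner_mul_inner_self_le ℂ V _ _ _ c x y
  change ‖D x y‖ * ‖D y x‖ ≤ (D x x).re * (D y y).re at h
  rw [← h1 y x, Complex.norm_conj] at h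
  rwa [sq]

/-- A symmetric operator with a bounded orbit form has numerical range below one. -/
theorem orbit {V : Type} [AddCommGroup V] [Module ℂ V] (D : V → V → ℂ)
    (hcs : ∀ x y, ‖D x y‖ ^ 2 ≤ (D x x).re * (D y y).re) (h2 : ∀ x, 0 ≤ (D x x).re)
    (P : V → V) (hP : ∀ x y, D (P x) y = D x (P y)) (x : V) (C : ℝ)
    (hC : ∀ m, ‖D x (P^[m] x)‖ ≤ C) : (D x (P x)).re ≤ (D x x).re := by
  have hit : ∀ (m : ℕ) (y z : V), D (P^[m] y) z = D y (P^[m] z) := by
    intro m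
    induction m with
    | zero => intro y z; rfl
    | succ m ih =>
      intro y z
      rw [Function.iterate_succ_apply', hP, ih, Function.iterate_succ_apply]
  have hsq : ∀ m, ‖D x (P^[m] x)‖ ^ 2 ≤ (D x x).re * ‖D x (P^[2 * m] x)‖ := by
    intro m
    refine (hcs _ _).trans (mul_le_mul_of_nonneg_left ?_ (h2 x))
    rw [hit, ← Function.iterate_add_apply, ← two_mul]
    exact Complex.re_le_norm _
  by_contra hlt
  have hlt : (D x x).re < (D x (P x)).re := lt_of_not_ge hlt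
  have h1 : (D x x).re < ‖D x (P^[1] x)‖ := hlt.trans_le (Complex.re_le_norm _)
  have ha : 0 < (D x x).re := by
    rcases (h2 x).lt_or_eq with h | h
    · exact h
    · have := hsq 1
      rw [← h, zero_mul] at this
      rw [← h] at h1
      nlinarith
  set a := (D x x).re with hadef
  set q := ‖D x (P^[1] x)‖ / a with hq
  have hq1 : 1 < q := by rw [hq, lt_div_iff₀ ha]; linarith
  have key : ∀ k : ℕ, a * q ^ (2 ^ k) ≤ ‖D x (P^[2 ^ k] x)‖ := by
    intro k
    induction k with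
    | zero =>
      rw [pow_zero, pow_one, hq, mul_div_cancel₀ _ ha.ne']
    | succ k ih =>
      have h3 := hsq (2 ^ k)
      have h0 : 0 ≤ a * q ^ (2 ^ k) := by positivity
      have h4 : (a * q ^ (2 ^ k)) ^ 2 ≤ a * ‖D x (P^[2 * 2 ^ k] x)‖ :=
        (pow_le_pow_left₀ h0 ih 2).trans h3
      have h5 : (a * q ^ (2 ^ k)) ^ 2 = a * (a * q ^ (2 ^ (k + 1))) := by
        rw [pow_succ 2 k, pow_mul]; ring
      rw [h5] at h4
      rw [pow_succ' 2 k] at *
      exact le_of_mul_le_mul_left h4 ha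
  obtain ⟨k, hk⟩ := pow_unbounded_of_one_lt (C / a) hq1
  have h6 : q ^ k ≤ q ^ (2 ^ k) := pow_le_pow_right₀ hq1.le (Nat.lt_two_pow_self).le
  have h7 := (key k).trans (hC _)
  rw [div_lt_iff₀ ha] at hk
  nlinarith

section HS

variable {p q r s : Type} [Fintype p] [Fintype q] [Fintype r] [Fintype s]

/-- The Hilbert-Schmidt form. -/
def hs (x y : Matrix p q ℂ) : ℂ := (xᴴ * y).trace

/-- The square of the Hilbert-Schmidt norm. -/
def NN (x : Matrix p q ℂ) : ℝ := (hs x x).re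

theorem re_trace_nonneg {x : Matrix p p ℂ} (h : x.PosSemidef) : 0 ≤ x.trace.re :=
  (Complex.nonneg_iff.mp h.trace_nonneg).1

theorem hs_conj (x y : Matrix p q ℂ) : conj (hs y x) = hs x y := by
  unfold hs
  rw [← Complex.star_def, ← Matrix.trace_conjTranspose, Matrix.conjTranspose_mul,
    Matrix.conjTranspose_conjTranspose]

theorem NN_nonneg (x : Matrix p q ℂ) : 0 ≤ NN x :=
  re_trace_nonneg (Matrix.posSemidef_conjTranspose_mul_self x)

theorem hs_add (x y z : Matrix p q ℂ) : hs (x + y) z = hs x z + hs y z := by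
  unfold hs
  rw [Matrix.conjTranspose_add, Matrix.add_mul, Matrix.trace_add]

theorem hs_smul (x y : Matrix p q ℂ) (c : ℂ) : hs (c • x) y = conj c * hs x y := by
  unfold hs
  rw [Matrix.conjTranspose_smul, Matrix.smul_mul, Matrix.trace_smul, smul_eq_mul,
    Complex.star_def]

theorem hs_cs (x y : Matrix p q ℂ) : ‖hs x y‖ ^ 2 ≤ NN x * NN y :=
  cs hs hs_conj NN_nonneg hs_add hs_smul x y

theorem hs_sum_cs {ι : Type} [Fintype ι] (x y : ι → Matrix p q ℂ) :
    ‖∑ a, hs (x a) (y a)‖ ^ 2 ≤ (∑ a, NN (x a)) * ∑ a, NN (y a) := by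
  have h := cs (V := ι → Matrix p q ℂ) (fun x y => ∑ a, hs (x a) (y a))
    (fun x y => by rw [map_sum]; exact Finset.sum_congr rfl fun a _ => hs_conj _ _)
    (fun x => by rw [Complex.re_sum]; exact Finset.sum_nonneg fun a _ => NN_nonneg _)
    (fun x y z => by
      rw [← Finset.sum_add_distrib]; exact Finset.sum_congr rfl fun a _ => hs_add _ _ _)
    (fun x y c => by
      rw [Finset.mul_sum]; exact Finset.sum_congr rfl fun a _ => hs_smul _ _ _) x y
  simpa only [Complex.re_sum, NN] using h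

theorem NN_ct (x : Matrix p q ℂ) : NN xᴴ = NN x := by
  unfold NN hs
  rw [Matrix.conjTranspose_conjTranspose, Matrix.trace_mul_comm]

theorem sum_left {ι : Type} [Fintype ι] [DecidableEq p] (A : ι → Matrix p q ℂ) (c : ℝ)
    (hA : ((c : ℂ) • (1 : Matrix p p ℂ) - ∑ a, A a * (A a)ᴴ).PosSemidef) (u : Matrix p s ℂ) :
    ∑ a, NN ((A a)ᴴ * u) ≤ c * NN u := by
  have h := re_trace_nonneg (hA.conjTranspose_mul_mul_same u)
  rw [Matrix.mul_sub, Matrix.sub_mul, Matrix.trace_sub, Complex.sub_re, Matrix.mul_smul,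
    Matrix.mul_one, Matrix.smul_mul, Matrix.trace_smul, Matrix.mul_sum, Matrix.sum_mul,
    Matrix.trace_sum, Complex.re_sum, smul_eq_mul, Complex.re_ofReal_mul] at h
  have e : ∀ a, NN ((A a)ᴴ * u) = (uᴴ * (A a * (A a)ᴴ) * u).trace.re := by
    intro a
    unfold NN hs
    rw [Matrix.conjTranspose_mul, Matrix.conjTranspose_conjTranspose]
    simp only [Matrix.mul_assoc]
  simp only [e]
  unfold NN hs
  linarith

theorem sand {ι : Type} [Fintype ι] [DecidableEq p] [DecidableEq r] (A : ι → Matrix p q ℂ)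
    (B : ι → Matrix r s ℂ) (hA : ((1 : Matrix p p ℂ) - ∑ a, A a * (A a)ᴴ).PosSemidef)
    (hB : ((1 : Matrix r r ℂ) - ∑ a, B a * (B a)ᴴ).PosSemidef) (y : Matrix q r ℂ) :
    NN (∑ a, A a * y * B a) ≤ NN y := by
  set u := ∑ a, A a * y * B a with hu
  have e : hs u u = ∑ a, hs ((A a)ᴴ * u) (y * B a) := by
    conv_lhs => rw [hs]; arg 1; arg 2; rw [hu]
    rw [Matrix.mul_sum, Matrix.trace_sum]
    refine Finset.sum_congr rfl fun a _ => ?_
    unfold hs
    rw [Matrix.conjTranspose_mul, Matrix.conjTranspose_conjTranspose]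
    simp only [Matrix.mul_assoc]
  have h1 : ∑ a, NN ((A a)ᴴ * u) ≤ NN u := by
    simpa using sum_left A 1 (by simpa using hA) u
  have h2 : ∑ a, NN (y * B a) ≤ NN y := by
    have := sum_left B 1 (by simpa using hB) yᴴ
    rw [one_mul, NN_ct] at this
    refine le_trans (le_of_eq (Finset.sum_congr rfl fun a _ => ?_)) this
    rw [← NN_ct, Matrix.conjTranspose_mul]
  have h3 := hs_sum_cs (fun a => (A a)ᴴ * u) (fun a => y * B a)
  rw [← e] at h3
  have h4 : NN u ≤ ‖hs u u‖ := Complex.re_le_norm _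
  have h5 : NN u ^ 2 ≤ NN u * NN y :=
    (pow_le_pow_left₀ (NN_nonneg u) h4 2).trans (h3.trans
      (mul_le_mul h1 h2 (Finset.sum_nonneg fun a _ => NN_nonneg _) (NN_nonneg u)))
  rcases (NN_nonneg u).lt_or_eq with h | h
  · rw [sq] at h5; exact le_of_mul_le_mul_left h5 h
  · rw [← h]; exact NN_nonneg y

/-! Vector forms. -/

theorem fm_eq (M : Matrix p q ℂ) (v : p → ℂ) (w : q → ℂ) : fm M v w = star v ⬝ᵥ (M *ᵥ w) := by
  simp only [fm, dotProduct, Matrix.mulVec, Finset.mul_sum, Pi.star_apply, Complex.star_def,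
    mul_assoc]

theorem dot_self (v : p → ℂ) : star v ⬝ᵥ v = (nsq v : ℂ) := by
  simp only [nsq, dotProduct, Pi.star_apply, Complex.star_def, Complex.ofReal_sum,
    Complex.ofReal_pow, Complex.conj_mul']

theorem nsq_nonneg (v : p → ℂ) : 0 ≤ nsq v := Finset.sum_nonneg fun _ _ => by positivity

theorem dot_mul (K : Matrix p q ℂ) (v : q → ℂ) :
    star v ⬝ᵥ ((Kᴴ * K) *ᵥ v) = (nsq (K *ᵥ v) : ℂ) := by
  rw [← dot_self, ← Matrix.mulVec_mulVec, Matrix.dotProduct_mulVec, Matrix.star_mulVec]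

theorem psd_iff {ι : Type} [Fintype ι] [DecidableEq q] (K : ι → Matrix p q ℂ) (c : ℝ) :
    ((c : ℂ) • (1 : Matrix q q ℂ) - ∑ a, (K a)ᴴ * K a).PosSemidef ↔
      ∀ v, ∑ a, nsq (K a *ᵥ v) ≤ c * nsq v := by
  have e : ∀ v, star v ⬝ᵥ (((c : ℂ) • (1 : Matrix q q ℂ) - ∑ a, (K a)ᴴ * K a) *ᵥ v) =
      ((c * nsq v - ∑ a, nsq (K a *ᵥ v) : ℝ) : ℂ) := by
    intro v
    rw [Matrix.sub_mulVec, dotProduct_sub, Matrix.smul_mulVec, Matrix.one_mulVec,
      dotProduct_smul, dot_self, Matrix.sum_mulVec, dotProduct_sum]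
    simp only [dot_mul]
    push_cast
    rfl
  constructor
  · intro h v
    have := h.dotProduct_mulVec_nonneg v
    rw [e] at this
    have := Complex.zero_le_real.mp this
    linarith
  · intro h
    refine Matrix.PosSemidef.of_dotProduct_mulVec_nonneg ?_ fun v => ?_
    · unfold Matrix.IsHermitian
      rw [Matrix.conjTranspose_sub, Matrix.conjTranspose_smul, Matrix.conjTranspose_one,
        Matrix.conjTranspose_sum]
      simp only [Matrix.conjTranspose_mul, Matrix.conjTranspose_conjTranspose, Complex.star_def,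
        Complex.conj_ofReal]
    · rw [e]
      exact Complex.zero_le_real.mpr (by linarith [h v])

theorem bd_ct {z : Matrix p q ℂ} {c : ℝ} (h : Bd z c) : Bd zᴴ c := by
  intro v w
  have e : fm zᴴ v w = conj (fm z w v) := by
    simp only [fm, map_sum, map_mul, Complex.conj_conj, Matrix.conjTranspose_apply,
      Complex.star_def]
    rw [Finset.sum_comm]
    refine Finset.sum_congr rfl fun i _ => Finset.sum_congr rfl fun j _ => by ring
  rw [e, Complex.norm_conj, mul_right_comm]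
  exact h w v

theorem bd_nsq {z : Matrix p q ℂ} {c : ℝ} (h : Bd z c) (w : q → ℂ) :
    nsq (z *ᵥ w) ≤ c ^ 2 * nsq w := by
  have h1 := h (z *ᵥ w) w
  rw [fm_eq, dot_self, Complex.norm_real, Real.norm_of_nonneg (nsq_nonneg _)] at h1
  have ha := Real.sq_sqrt (nsq_nonneg (z *ᵥ w))
  have hb := Real.sq_sqrt (nsq_nonneg w)
  have ha0 := Real.sqrt_nonneg (nsq (z *ᵥ w))
  set A := √(nsq (z *ᵥ w))
  set B := √(nsq w)
  rw [← ha] at h1 ⊢
  rw [← hb]
  nlinarith [sq_nonneg (A - c * B)]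

theorem bd_NN {z : Matrix p q ℂ} {c : ℝ} (h : Bd z c) (u : Matrix q s ℂ) :
    NN (z * u) ≤ c ^ 2 * NN u := by
  classical
  have h1 := (psd_iff (fun _ : Unit => z) (c ^ 2)).mpr fun v => by simpa using bd_nsq h v
  have h2 := sum_left (fun _ : Unit => zᴴ) (c ^ 2) (by simpa using h1) u
  simpa using h2

end HS

section Form

variable {p q : Type} [Fintype p] [Fintype q] [DecidableEq p] [DecidableEq q]

/-- `ρ` is the square root of `h` and `σ` its inverse. -/
structure Rt (h ρ σ : Matrix p p ℂ) : Prop where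
  sq : ρ * ρ = h
  rh : ρᴴ = ρ
  pos : σ.PosSemidef
  rs : ρ * σ = 1
  sr : σ * ρ = 1

theorem rt_sqrt {h : Matrix p p ℂ} (hh : h.PosDef) : Rt h (CFC.sqrt h) (CFC.sqrt h)⁻¹ := by
  have hu : IsUnit (CFC.sqrt h) := (CFC.isUnit_sqrt_iff h hh.posSemidef.nonneg).mpr hh.isUnit
  have hd := (Matrix.isUnit_iff_isUnit_det _).mp hu
  have hp : (CFC.sqrt h).PosSemidef := Matrix.nonneg_iff_posSemidef.mp (CFC.sqrt_nonneg h)
  exact ⟨CFC.sqrt_mul_sqrt_self h hh.posSemidef.nonneg, hp.1, hp.inv,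
    Matrix.mul_nonsing_inv _ hd, Matrix.nonsing_inv_mul _ hd⟩

/-- The form `tr (x* σ y σ)`. -/
def Bf (σ x y : Matrix p p ℂ) : ℂ := (xᴴ * σ * y * σ).trace

omit [DecidableEq p] in
theorem Bf_conj {σ : Matrix p p ℂ} (hσ : σᴴ = σ) (x y : Matrix p p ℂ) :
    conj (Bf σ y x) = Bf σ x y := by
  unfold Bf
  rw [← Complex.star_def, ← Matrix.trace_conjTranspose]
  simp only [Matrix.conjTranspose_mul, Matrix.conjTranspose_conjTranspose, hσ]
  rw [Matrix.trace_mul_comm]
  simp only [Matrix.mul_assoc]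

theorem Bf_nonneg {σ : Matrix p p ℂ} (hσ : σ.PosSemidef) (x : Matrix p p ℂ) :
    0 ≤ (Bf σ x x).re := by
  obtain ⟨t, ht⟩ := CStarAlgebra.nonneg_iff_eq_star_mul_self.mp hσ.nonneg
  have h := re_trace_nonneg ((hσ.conjTranspose_mul_mul_same x).mul_mul_conjTranspose_same t)
  have e : Bf σ x x = (t * (xᴴ * σ * x) * tᴴ).trace := by
    unfold Bf
    rw [Matrix.mul_assoc t, Matrix.trace_mul_comm t, Matrix.mul_assoc _ tᴴ t,
      ← Matrix.star_eq_conjTranspose t, ← ht]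
  rw [e]; exact h

omit [DecidableEq p] in
theorem Bf_add (σ x y z : Matrix p p ℂ) : Bf σ (x + y) z = Bf σ x z + Bf σ y z := by
  unfold Bf
  simp only [Matrix.conjTranspose_add, Matrix.add_mul, Matrix.trace_add]

omit [DecidableEq p] in
theorem Bf_smul (σ x y : Matrix p p ℂ) (c : ℂ) : Bf σ (c • x) y = conj c * Bf σ x y := by
  unfold Bf
  simp only [Matrix.conjTranspose_smul, Matrix.smul_mul, Matrix.trace_smul, smul_eq_mul,
    Complex.star_def]

omit [DecidableEq p] in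
theorem Bf_cont (σ : Matrix p p ℂ) : Continuous fun k : Matrix p p ℂ => (Bf σ k k).re :=
  Complex.continuous_re.comp (Continuous.matrix_trace
    ((((continuous_id.matrix_conjTranspose).matrix_mul continuous_const).matrix_mul
      continuous_id).matrix_mul continuous_const))

theorem Bf_cs {σ : Matrix p p ℂ} (hσ : σ.PosSemidef) (x y : Matrix p p ℂ) :
    ‖Bf σ x y‖ ^ 2 ≤ (Bf σ x x).re * (Bf σ y y).re :=
  cs (Bf σ) (Bf_conj hσ.1) (Bf_nonneg hσ) (Bf_add σ) (Bf_smul σ) x y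

omit [DecidableEq p] in
theorem Bf_hs {σ : Matrix p p ℂ} (hσ : σᴴ = σ) (x z : Matrix p p ℂ) :
    Bf σ x z = hs (x * σ) (σ * z) := by
  unfold Bf hs
  rw [Matrix.conjTranspose_mul, hσ, Matrix.trace_mul_comm]
  simp only [Matrix.mul_assoc]

theorem Bf_bound {h ρ σ : Matrix p p ℂ} (H : Rt h ρ σ) {z : Matrix p p ℂ} {c : ℝ} (hz : Bd z c) :
    (Bf σ (ρ * z * ρ) (ρ * z * ρ)).re ≤ c ^ 2 * h.trace.re := by
  have e : Bf σ (ρ * z * ρ) (ρ * z * ρ) = hs (ρ * z) (z * ρ) := by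
    rw [Bf_hs H.pos.1, Matrix.mul_assoc (ρ * z), H.rs, Matrix.mul_one, Matrix.mul_assoc ρ z ρ,
      ← Matrix.mul_assoc σ, H.sr, Matrix.one_mul]
  have hr : NN ρ = h.trace.re := by unfold NN hs; rw [H.rh, H.sq]
  have h1 : NN (z * ρ) ≤ c ^ 2 * h.trace.re := hr ▸ bd_NN hz ρ
  have h2 : NN (ρ * z) ≤ c ^ 2 * h.trace.re := by
    rw [← NN_ct, Matrix.conjTranspose_mul, H.rh, ← hr]
    exact bd_NN (bd_ct hz) ρ
  have h0 : 0 ≤ c ^ 2 * h.trace.re := (NN_nonneg _).trans h1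
  have h3 : ‖hs (ρ * z) (z * ρ)‖ ^ 2 ≤ (c ^ 2 * h.trace.re) ^ 2 := by
    rw [sq (c ^ 2 * h.trace.re)]
    exact (hs_cs _ _).trans (mul_le_mul h2 h1 (NN_nonneg _) h0)
  rw [e]
  exact (Complex.re_le_norm _).trans ((pow_le_pow_iff_left₀ (norm_nonneg _) h0 two_ne_zero).mp h3)

theorem dom_bound {h ρ σ : Matrix p p ℂ} (H : Rt h ρ σ) (k : Matrix p p ℂ) (c : ℝ)
    (hk : ∀ v w, ‖fm k v w‖ ≤ c * √((fm h v v).re) * √((fm h w w).re)) :
    (Bf σ k k).re ≤ c ^ 2 * h.trace.re := by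
  have hσ : σᴴ = σ := H.pos.1
  have e1 : ∀ (m : Matrix p p ℂ) v w, fm m (σ *ᵥ v) (σ *ᵥ w) = fm (σ * m * σ) v w := by
    intro m v w
    rw [fm_eq, fm_eq, Matrix.star_mulVec, hσ, ← Matrix.dotProduct_mulVec, Matrix.mulVec_mulVec,
      Matrix.mulVec_mulVec]
  have e2 : σ * h * σ = 1 := by
    rw [← H.sq, ← Matrix.mul_assoc σ, H.sr, Matrix.one_mul, H.rs]
  have e3 : ∀ v, (fm h (σ *ᵥ v) (σ *ᵥ v)).re = nsq v := by
    intro v
    rw [e1, e2, fm_eq, Matrix.one_mulVec, dot_self, Complex.ofReal_re]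
  have hz : Bd (σ * k * σ) c := by
    intro v w
    have := hk (σ *ᵥ v) (σ *ᵥ w)
    rwa [e3, e3, e1] at this
  have e4 : ρ * (σ * k * σ) * ρ = k := by
    rw [← Matrix.mul_assoc ρ, ← Matrix.mul_assoc ρ, H.rs, Matrix.one_mul, Matrix.mul_assoc,
      H.sr, Matrix.mul_one]
  have := Bf_bound H hz
  rwa [e4] at this

variable {ι : Type} [Fintype ι]

/-- The channel. -/
def Ph (K : ι → Matrix p q ℂ) (x : Matrix q q ℂ) : Matrix p p ℂ := ∑ a, K a * x * (K a)ᴴ

/-- The recovery map. -/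
def Rc (K : ι → Matrix p q ℂ) (σ : Matrix p p ℂ) (ρ' : Matrix q q ℂ) (y : Matrix p p ℂ) :
    Matrix q q ℂ := ∑ a, ρ' * ((K a)ᴴ * (σ * y * σ) * K a) * ρ'

omit [Fintype p] [DecidableEq p] [DecidableEq q] in
theorem Ph_add (K : ι → Matrix p q ℂ) (x y : Matrix q q ℂ) : Ph K (x + y) = Ph K x + Ph K y := by
  unfold Ph
  simp only [Matrix.mul_add, Matrix.add_mul, Finset.sum_add_distrib]

omit [Fintype p] [DecidableEq p] [DecidableEq q] in
theorem Ph_smul (K : ι → Matrix p q ℂ) (x : Matrix q q ℂ) (c : ℂ) : Ph K (c • x) = c • Ph K x := by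
  unfold Ph
  simp only [Matrix.mul_smul, Matrix.smul_mul, Finset.smul_sum]

omit [DecidableEq p] in
theorem adj (K : ι → Matrix p q ℂ) (σ : Matrix p p ℂ) {h' ρ' σ' : Matrix q q ℂ}
    (H' : Rt h' ρ' σ') (x : Matrix q q ℂ) (y : Matrix p p ℂ) :
    Bf σ (Ph K x) y = Bf σ' x (Rc K σ ρ' y) := by
  unfold Bf Ph Rc
  simp only [Matrix.conjTranspose_sum, Matrix.sum_mul, Matrix.mul_sum, Matrix.trace_sum]
  refine Finset.sum_congr rfl fun a _ => ?_
  have e : xᴴ * σ' * (ρ' * ((K a)ᴴ * (σ * y * σ) * K a) * ρ') * σ' =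
      xᴴ * (σ' * ρ') * ((K a)ᴴ * (σ * y * σ) * K a) * (ρ' * σ') := by
    simp only [Matrix.mul_assoc]
  rw [e, H'.sr, H'.rs, Matrix.mul_one, Matrix.mul_one, Matrix.conjTranspose_mul,
    Matrix.conjTranspose_mul, Matrix.conjTranspose_conjTranspose]
  simp only [Matrix.mul_assoc]
  rw [Matrix.trace_mul_comm (K a)]
  simp only [Matrix.mul_assoc]

theorem L_psd (K : ι → Matrix p q ℂ) {h ρ σ : Matrix p p ℂ} {h' ρ' σ' : Matrix q q ℂ}
    (H : Rt h ρ σ) (H' : Rt h' ρ' σ') (hd : (h - ∑ a, K a * h' * (K a)ᴴ).PosSemidef) :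
    ((1 : Matrix p p ℂ) - ∑ a, (σ * K a * ρ') * (σ * K a * ρ')ᴴ).PosSemidef := by
  have hσ : σᴴ = σ := H.pos.1
  have h1 := hd.mul_mul_conjTranspose_same σ
  have e2 : σ * h * σ = 1 := by
    rw [← H.sq, ← Matrix.mul_assoc σ, H.sr, Matrix.one_mul, H.rs]
  rw [hσ, Matrix.mul_sub, Matrix.sub_mul, e2, Matrix.mul_sum, Matrix.sum_mul] at h1
  have e : ∀ a, (σ * K a * ρ') * (σ * K a * ρ')ᴴ = σ * (K a * h' * (K a)ᴴ) * σ := by
    intro a
    rw [Matrix.conjTranspose_mul, Matrix.conjTranspose_mul, hσ, H'.rh, ← H'.sq]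
    simp only [Matrix.mul_assoc]
  simp only [e]
  exact h1

theorem contr (K : ι → Matrix p q ℂ) {h ρ σ : Matrix p p ℂ} {h' ρ' σ' : Matrix q q ℂ}
    (H : Rt h ρ σ) (H' : Rt h' ρ' σ') (hd : (h - ∑ a, K a * h' * (K a)ᴴ).PosSemidef)
    (hK : ((1 : Matrix q q ℂ) - ∑ a, (K a)ᴴ * K a).PosSemidef) (x : Matrix q q ℂ) :
    (Bf σ (Ph K x) (Ph K x)).re ≤ (Bf σ' x x).re := by
  have hσ : σᴴ = σ := H.pos.1
  have hσ' : σ'ᴴ = σ' := H'.pos.1
  have hL := L_psd K H H' hd
  have hK' : ((1 : Matrix q q ℂ) - ∑ a, (K a)ᴴ * ((K a)ᴴ)ᴴ).PosSemidef := by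
    simpa only [Matrix.conjTranspose_conjTranspose] using hK
  have step : ∀ z, NN (σ' * Rc K σ ρ' (Ph K z)) ≤ NN (σ' * z) := by
    intro z
    have e1 : ∑ b, (σ * K b * ρ') * (σ' * z) * (K b)ᴴ = σ * Ph K z := by
      unfold Ph
      rw [Matrix.mul_sum]
      refine Finset.sum_congr rfl fun b _ => ?_
      have : σ * K b * ρ' * (σ' * z) = σ * K b * (ρ' * σ') * z := by simp only [Matrix.mul_assoc]
      rw [this, H'.rs, Matrix.mul_one]
      simp only [Matrix.mul_assoc]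
    have e2 : σ' * Rc K σ ρ' (Ph K z) = ∑ a, (K a)ᴴ * (σ * Ph K z) * (σ * K a * ρ') := by
      unfold Rc
      rw [Matrix.mul_sum]
      refine Finset.sum_congr rfl fun a _ => ?_
      rw [Matrix.mul_assoc ρ', ← Matrix.mul_assoc σ', H'.sr, Matrix.one_mul]
      simp only [Matrix.mul_assoc]
    rw [e2]
    refine (sand _ _ hK' hL _).trans ?_
    rw [← e1]
    exact sand _ _ hL hK' _
  have hit : ∀ m, NN (σ' * (fun z => Rc K σ ρ' (Ph K z))^[m] x) ≤ NN (σ' * x) := by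
    intro m
    induction m with
    | zero => exact le_rfl
    | succ m ih => rw [Function.iterate_succ_apply']; exact (step _).trans ih
  have h := orbit (Bf σ') (Bf_cs H'.pos) (Bf_nonneg H'.pos) (fun z => Rc K σ ρ' (Ph K z))
    (fun y z => by
      rw [← Bf_conj hσ', ← adj K σ H', Bf_conj hσ, adj K σ H']) x
    (√(NN (x * σ') * NN (σ' * x))) (fun m => by
      rw [Bf_hs hσ']
      exact Real.le_sqrt_of_sq_le ((hs_cs _ _).trans
        (mul_le_mul_of_nonneg_left (hit m) (NN_nonneg _))))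
  rwa [← adj K σ H'] at h

theorem recover (K : ι → Matrix p q ℂ) {h ρ σ : Matrix p p ℂ} {h' ρ' σ' : Matrix q q ℂ}
    (H : Rt h ρ σ) (H' : Rt h' ρ' σ') (hd : (h - ∑ a, K a * h' * (K a)ᴴ).PosSemidef)
    (hK : ((1 : Matrix q q ℂ) - ∑ a, (K a)ᴴ * K a).PosSemidef) (k c : Matrix q q ℂ)
    (hc : Bd c 1) :
    ‖(k * c).trace - (Ph K k * ∑ a, (σ * K a * ρ') * c * (σ * K a * ρ')ᴴ).trace‖ ^ 2 ≤
      ((Bf σ' k k).re - (Bf σ (Ph K k) (Ph K k)).re) * h'.trace.re := by
  have hσ : σᴴ = σ := H.pos.1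
  have hσ' : σ'ᴴ = σ' := H'.pos.1
  have hpos : ∀ x, 0 ≤ (Bf σ' x x - Bf σ (Ph K x) (Ph K x)).re := fun x => by
    rw [Complex.sub_re]; linarith [contr K H H' hd hK x]
  have h1 := cs (fun x y => Bf σ' x y - Bf σ (Ph K x) (Ph K y))
    (fun x y => by rw [map_sub, Bf_conj hσ, Bf_conj hσ']) hpos
    (fun x y z => by rw [Ph_add, Bf_add, Bf_add]; ring)
    (fun x y r => by rw [Ph_smul, Bf_smul, Bf_smul]; ring) (ρ' * cᴴ * ρ') k
  have e1 : Bf σ' (ρ' * cᴴ * ρ') k = (k * c).trace := by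
    unfold Bf
    rw [Matrix.conjTranspose_mul, Matrix.conjTranspose_mul, H'.rh,
      Matrix.conjTranspose_conjTranspose, Matrix.trace_mul_comm]
    have : σ' * (ρ' * (c * ρ') * σ' * k) = (σ' * ρ') * c * (ρ' * σ') * k := by
      simp only [Matrix.mul_assoc]
    rw [this, H'.sr, H'.rs, Matrix.one_mul, Matrix.mul_one, Matrix.trace_mul_comm]
  have e2 : Bf σ (Ph K (ρ' * cᴴ * ρ')) (Ph K k) =
      (Ph K k * ∑ a, (σ * K a * ρ') * c * (σ * K a * ρ')ᴴ).trace := by
    have : ∑ a, (σ * K a * ρ') * c * (σ * K a * ρ')ᴴ = σ * (Ph K (ρ' * cᴴ * ρ'))ᴴ * σ := by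
      unfold Ph
      rw [Matrix.conjTranspose_sum, Matrix.mul_sum, Matrix.sum_mul]
      refine Finset.sum_congr rfl fun a _ => ?_
      simp only [Matrix.conjTranspose_mul, Matrix.conjTranspose_conjTranspose, hσ, H'.rh,
        Matrix.mul_assoc]
    rw [this]
    unfold Bf
    rw [Matrix.mul_assoc _ (Ph K k), Matrix.trace_mul_comm]
    simp only [Matrix.mul_assoc]
  have h2 : (Bf σ' (ρ' * cᴴ * ρ') (ρ' * cᴴ * ρ') -
      Bf σ (Ph K (ρ' * cᴴ * ρ')) (Ph K (ρ' * cᴴ * ρ'))).re ≤ h'.trace.re := by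
    have := Bf_bound H' (bd_ct hc)
    rw [Complex.sub_re]
    linarith [Bf_nonneg H.pos (Ph K (ρ' * cᴴ * ρ'))]
  simp only [e1, e2] at h1
  rw [← Complex.sub_re, mul_comm]
  exact h1.trans (mul_le_mul_of_nonneg_right h2 (hpos k))

end Form

end Petz

open Petz in
theorem petz : PetzStmt := by
  refine ⟨fun n h k => (Bf (CFC.sqrt h)⁻¹ k k).re, fun n h => ?_, fun n h k c hh _ hk => ?_,
    fun n n' h h' l K hh hh' hK hd => ?_⟩
  · exact Bf_cont _
  · exact dom_bound (rt_sqrt hh) k c hk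
  · have H := rt_sqrt hh
    have H' := rt_sqrt hh'
    have hK' : ((1 : Matrix (Fin n') (Fin n') ℂ) - ∑ a, (K a)ᴴ * K a).PosSemidef := by
      simpa using (psd_iff K 1).mpr (by simpa using hK)
    refine ⟨fun a => (CFC.sqrt h)⁻¹ * K a * CFC.sqrt h', fun v => ?_, fun k' => ⟨?_, ?_⟩⟩
    · have := (psd_iff (fun a => ((CFC.sqrt h)⁻¹ * K a * CFC.sqrt h')ᴴ) 1).mp
        (by simpa only [Matrix.conjTranspose_conjTranspose, Complex.ofReal_one, one_smul]
          using L_psd K H H' hd) v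
      simpa only [one_mul] using this
    · exact contr K H H' hd hK' k'
    · intro c' hc'
      exact recover K H H' hd hK' k' c' hc'

end Pool.Agent.MP_88ca14_an

end
end MrgPart0

-- ======== part 1: formerly Pool.Agent.MP_88ca14_an.Hb1
section MrgPart1

/-!
PROJECT LRX, modules HB1 (the dual form implies local reflexivity, by Hahn-Banach separation),
COMB, SPLIT, APPROX, TAIL, SAT (cutting sequences of vectors).
-/

set_option autoImplicit false
set_option maxSynthPendingDepth 3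

noncomputable section

namespace Pool.Agent.MP_88ca14_an

open Filter Topology
open scoped Classical ComplexConjugate Matrix

namespace Hb1M

variable {A : Type} [CStarAlgebra A] [PartialOrder A] [StarOrderedRing A]

theorem ccm_zero {d : ℕ} (e : Fin d → Bid A) : CCm e 0 := by
  intro k c
  have : (Matrix.of fun p q => ∑ j, c j p q • (0 : Fin d → A) j) = 0 := by
    ext p q
    simp
  rw [this, mn, CStarMatrix.of_zero, norm_zero]
  exact norm_nonneg _

theorem ccm_convex {d : ℕ} (e : Fin d → Bid A) : Convex ℝ {a | CCm e a} := by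
  intro a ha b hb s t hs ht hst k c
  have h1 := ha k c
  have h2 := hb k c
  have e1 : CStarMatrix.ofMatrix (Matrix.of fun p q => ∑ j, c j p q • (s • a + t • b) j) =
      (s : ℂ) • CStarMatrix.ofMatrix (Matrix.of fun p q => ∑ j, c j p q • a j) +
        (t : ℂ) • CStarMatrix.ofMatrix (Matrix.of fun p q => ∑ j, c j p q • b j) := by
    ext p q
    show ∑ j, c j p q • (s • a j + t • b j) =
      (s : ℂ) • ∑ j, c j p q • a j + (t : ℂ) • ∑ j, c j p q • b j
    rw [Finset.smul_sum, Finset.smul_sum, ← Finset.sum_add_distrib]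
    refine Finset.sum_congr rfl fun j _ => ?_
    rw [smul_add, smul_comm (s : ℂ), smul_comm (t : ℂ), Complex.coe_smul, Complex.coe_smul]
  unfold mn at h1 h2 ⊢
  rw [e1]
  refine (norm_add_le _ _).trans ?_
  rw [norm_smul, norm_smul, Complex.norm_real, Complex.norm_real, Real.norm_of_nonneg hs,
    Real.norm_of_nonneg ht]
  calc _ ≤ s * ‖hat (Matrix.of fun p q => ∑ j, c j p q • e j)‖ +
        t * ‖hat (Matrix.of fun p q => ∑ j, c j p q • e j)‖ :=
        add_le_add (mul_le_mul_of_nonneg_left h1 hs) (mul_le_mul_of_nonneg_left h2 ht)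
    _ = _ := by rw [← add_mul, hst, one_mul]

theorem approx (h : DualLR A) {d : ℕ} (e : Fin d → Bid A) (he : LinearIndependent ℂ e)
    (T : Finset (StrongDual ℂ A)) (ε : ℝ) (hε : 0 < ε) :
    ∃ a, CCm e a ∧ ∀ j, ∀ f ∈ T, ‖f (a j) - e j f‖ < ε := by
  let Φ : (Fin d → A) →ₗ[ℝ] (Fin d × T → ℂ) :=
    { toFun := fun a q => q.2.1 (a q.1)
      map_add' := fun a b => by ext q; simp
      map_smul' := fun r a => by ext q; simp }
  let z : Fin d × T → ℂ := fun q => e q.1 q.2.1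
  have hz : z ∈ closure (Φ '' {a | CCm e a}) := by
    by_contra hn
    obtain ⟨L, u, h1, h2⟩ := RCLike.geometric_hahn_banach_closed_point (𝕜 := ℂ)
      ((ccm_convex e).linear_image Φ).closure isClosed_closure hn
    have hu : 0 < u := by
      simpa using h1 _ (subset_closure ⟨0, ccm_zero e, rfl⟩)
    have hL : ∀ w : Fin d × T → ℂ, L w = ∑ q, L (Pi.single q 1) * w q := fun w => by
      conv_lhs => rw [pi_eq_sum_univ' w]
      rw [map_sum]
      refine Finset.sum_congr rfl fun q _ => ?_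
      rw [map_smul, smul_eq_mul, mul_comm]
    let F : Fin d → StrongDual ℂ A := fun j =>
      ∑ t : T, ((u⁻¹ : ℝ) * L (Pi.single (j, t) 1)) • t.1
    have key := h d e he F fun a ha => by
      have h3 := h1 _ (subset_closure ⟨a, ha, rfl⟩)
      have h4 : ∑ j, F j (a j) = (u⁻¹ : ℝ) * L (Φ a) := by
        rw [hL, Fintype.sum_prod_type, Finset.mul_sum]
        refine Finset.sum_congr rfl fun j _ => ?_
        simp only [F, sum_apply, smul_apply, smul_eq_mul,
          Finset.mul_sum, mul_assoc]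
        rfl
      rw [h4, Complex.re_ofReal_mul, inv_mul_le_iff₀ hu, mul_one]
      exact h3.le
    have h4 : ∑ j, e j (F j) = (u⁻¹ : ℝ) * L z := by
      rw [hL, Fintype.sum_prod_type, Finset.mul_sum]
      refine Finset.sum_congr rfl fun j _ => ?_
      simp only [F, map_sum, map_smul, smul_eq_mul, Finset.mul_sum, mul_assoc]
      rfl
    rw [h4, Complex.re_ofReal_mul, inv_mul_le_iff₀ hu, mul_one] at key
    exact absurd h2 (not_lt.2 key)
  obtain ⟨_, ⟨a, ha, rfl⟩, hd⟩ := Metric.mem_closure_iff.1 hz ε hε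
  refine ⟨a, ha, fun j f hf => ?_⟩
  have := (dist_le_pi_dist z (Φ a) (j, ⟨f, hf⟩)).trans_lt hd
  rw [dist_comm, dist_eq_norm] at this
  exact this

end Hb1M

theorem hb1 : Hb1Stmt := by
  intro A _ _ _ h E hE
  let B := Module.finBasis ℂ E
  let e : Fin (Module.finrank ℂ E) → Bid A := fun j => (B j).1
  have he : LinearIndependent ℂ e := B.linearIndependent.map' E.subtype E.ker_subtype
  choose a ha ha' using fun i : Finset (StrongDual ℂ A) × ℕ =>
    Hb1M.approx h e he i.1 (1 / ((i.2 : ℝ) + 1)) Nat.one_div_pos_of_nat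
  have hval : ∀ x : E, x.1 = ∑ j, B.repr x j • e j := fun x => by
    have := congrArg E.subtype (B.sum_repr x)
    rw [map_sum] at this
    exact this.symm
  have hu : ∀ i (x : E), B.constr ℂ (a i) x = ∑ j, B.repr x j • a i j := fun i x => by
    rw [Module.Basis.constr_apply_fintype]
    rfl
  refine ⟨Finset (StrongDual ℂ A) × ℕ, inferInstance, inferInstance, inferInstance,
    fun i => B.constr ℂ (a i), fun i k x => ?_, fun x f => ?_⟩
  · have := ha i k fun j => Matrix.of fun p q => B.repr (x p q) j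
    have e1 : x.map (B.constr ℂ (a i)) = Matrix.of fun p q =>
        ∑ j, (Matrix.of fun p q => B.repr (x p q) j) p q • a i j := by
      ext p q
      exact hu i (x p q)
    have e2 : x.map Subtype.val = Matrix.of fun p q =>
        ∑ j, (Matrix.of fun p q => B.repr (x p q) j) p q • e j := by
      funext p q
      exact hval (x p q)
    rw [e1, e2]
    exact this
  · simp only [hu, map_sum, map_smul]
    rw [hval x, sum_apply]
    refine tendsto_finsetSum _ fun j _ => ?_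
    rw [smul_apply]
    refine Tendsto.const_smul ?_ _
    rw [Metric.tendsto_atTop]
    intro ε hε
    obtain ⟨n, hn⟩ := exists_nat_one_div_lt hε
    refine ⟨({f}, n), fun i hi => ?_⟩
    rw [dist_eq_norm]
    refine (ha' i j f (hi.1 (Finset.mem_singleton_self f))).trans_le (le_trans ?_ hn.le)
    exact Nat.one_div_le_one_div hi.2

namespace CutM

section Forms

variable {K K' : Type} [Fintype K] [Fintype K']

theorem fm_add_left (b : K → K' → ℂ) (v v' : K → ℂ) (w : K' → ℂ) :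
    fm b (v + v') w = fm b v w + fm b v' w := by
  simp only [fm, Pi.add_apply, map_add, add_mul, Finset.sum_add_distrib]

theorem fm_add_right (b : K → K' → ℂ) (v : K → ℂ) (w w' : K' → ℂ) :
    fm b v (w + w') = fm b v w + fm b v w' := by
  simp only [fm, Pi.add_apply, mul_add, Finset.sum_add_distrib]

theorem fm_zero_left (b : K → K' → ℂ) (w : K' → ℂ) : fm b 0 w = 0 := by simp [fm]

theorem fm_zero_right (b : K → K' → ℂ) (v : K → ℂ) : fm b v 0 = 0 := by simp [fm]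

theorem nsq_zero : nsq (0 : K → ℂ) = 0 := by simp [nsq]

/-- The norm of a tensor product of two matrices. -/
theorem bd_tensor {S S' : Type} [Fintype S] [Fintype S'] {b : K → K' → ℂ} {M : S → S' → ℂ}
    {c c' : ℝ} (hc : 0 ≤ c) (hc' : 0 ≤ c') (hb : Bd b c) (hM : Bd M c') (ζ : S → K → ℂ)
    (ζ' : S' → K' → ℂ) : ‖∑ x, ∑ y, fm b (ζ x) (ζ' y) * M x y‖ ≤
      c * c' * √(∑ x, nsq (ζ x)) * √(∑ y, nsq (ζ' y)) := by
  let w : S → K' → ℂ := fun x q => (Matrix.of M *ᵥ fun y => ζ' y q) x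
  have e1 : ∀ x, ∑ y, fm b (ζ x) (ζ' y) * M x y = fm b (ζ x) (w x) := fun x => by
    simp only [fm, w, Matrix.mulVec, dotProduct, Matrix.of_apply, Finset.sum_mul, Finset.mul_sum]
    rw [Finset.sum_comm]
    refine Finset.sum_congr rfl fun p _ => ?_
    rw [Finset.sum_comm]
    exact Finset.sum_congr rfl fun q _ => Finset.sum_congr rfl fun y _ => by ring
  have e2 : ∑ x, nsq (w x) ≤ c' ^ 2 * ∑ y, nsq (ζ' y) := by
    calc ∑ x, nsq (w x) = ∑ q, nsq (Matrix.of M *ᵥ fun y => ζ' y q) := Finset.sum_comm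
      _ ≤ ∑ q, c' ^ 2 * nsq fun y => ζ' y q :=
        Finset.sum_le_sum fun q _ => Petz.bd_nsq (z := Matrix.of M) hM _
      _ = _ := by
        rw [← Finset.mul_sum]
        exact congrArg _ Finset.sum_comm
  have e3 : √(∑ x, nsq (w x)) ≤ c' * √(∑ y, nsq (ζ' y)) := by
    refine (Real.sqrt_le_sqrt e2).trans (le_of_eq ?_)
    rw [Real.sqrt_mul (sq_nonneg _), Real.sqrt_sq hc']
  simp only [e1]
  calc _ ≤ ∑ x, c * (√(nsq (ζ x)) * √(nsq (w x))) :=
        (norm_sum_le _ _).trans (Finset.sum_le_sum fun x _ => by rw [← mul_assoc]; exact hb _ _)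
    _ ≤ c * (√(∑ x, nsq (ζ x)) * √(∑ x, nsq (w x))) := by
        rw [← Finset.mul_sum]
        exact mul_le_mul_of_nonneg_left (Real.sum_sqrt_mul_sqrt_le _
          (fun _ => Petz.nsq_nonneg _) fun _ => Petz.nsq_nonneg _) hc
    _ ≤ c * (√(∑ x, nsq (ζ x)) * (c' * √(∑ y, nsq (ζ' y)))) := by gcongr
    _ = _ := by ring

end Forms

section Mass

variable {G K : Type} [Fintype K]

theorem ms_nonneg (ζ : Vec G K) : 0 ≤ ms ζ := Finset.sum_nonneg fun _ _ => Petz.nsq_nonneg _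

theorem ms_eq (ζ : Vec G K) {s : Finset G} (h : ζ.support ⊆ s) : ms ζ = ∑ x ∈ s, nsq (ζ x) :=
  Finset.sum_subset h fun x _ hx => by rw [Finsupp.notMem_support_iff.1 hx, nsq_zero]

omit [Fintype K] in
theorem res_apply (S : Set G) (ζ : Vec G K) (x : G) : res S ζ x = if x ∈ S then ζ x else 0 := by
  rw [res, Finsupp.filter_apply]

omit [Fintype K] in
theorem res_not {S : Set G} (ζ : Vec G K) {x : G} (h : x ∉ S) : res S ζ x = 0 := by
  rw [res_apply, if_neg h]

omit [Fintype K] in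
theorem res_congr {S T : Set G} (ζ : Vec G K) {x : G} (h : x ∈ S ↔ x ∈ T) :
    res S ζ x = res T ζ x := by
  simp only [res_apply, h]

omit [Fintype K] in
theorem res_supp (S : Set G) (ζ : Vec G K) : (res S ζ).support ⊆ ζ.support := by
  rw [res, Finsupp.support_filter]
  exact Finset.filter_subset _ _

omit [Fintype K] in
theorem res_add (S : Set G) (ζ : Vec G K) : res S ζ + res Sᶜ ζ = ζ := by
  ext x p
  by_cases h : x ∈ S <;> simp [res_apply, h]

theorem ms_res (S : Set G) (ζ : Vec G K) :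
    ms (res S ζ) = ∑ x ∈ ζ.support, if x ∈ S then nsq (ζ x) else 0 := by
  rw [ms_eq _ (res_supp S ζ)]
  refine Finset.sum_congr rfl fun x _ => ?_
  rw [res_apply]
  split_ifs
  exacts [rfl, nsq_zero]

theorem ms_res_add (S : Set G) (ζ : Vec G K) : ms (res S ζ) + ms (res Sᶜ ζ) = ms ζ := by
  rw [ms_res, ms_res, ← Finset.sum_add_distrib]
  refine Finset.sum_congr rfl fun x _ => ?_
  by_cases h : x ∈ S <;> simp [h]

theorem ms_res_le (S : Set G) (ζ : Vec G K) : ms (res S ζ) ≤ ms ζ := by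
  linarith [ms_res_add S ζ, ms_nonneg (res Sᶜ ζ)]

/-- two disjoint sets inside a third one -/
theorem ms_two {S T U : Set G} (ζ : Vec G K) (h1 : S ⊆ U) (h2 : T ⊆ U) (h3 : ∀ x ∈ S, x ∉ T) :
    ms (res S ζ) + ms (res T ζ) ≤ ms (res U ζ) := by
  rw [ms_res, ms_res, ms_res, ← Finset.sum_add_distrib]
  refine Finset.sum_le_sum fun x _ => ?_
  have := Petz.nsq_nonneg (ζ x)
  by_cases a : x ∈ S
  · simp [a, h1 a, h3 x a]
  · by_cases b : x ∈ T
    · simp [a, b, h2 b]
    · simp only [a, b, if_false, add_zero]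
      split_ifs
      exacts [this, le_rfl]

theorem ms_mono {S U : Set G} (ζ : Vec G K) (h : S ⊆ U) : ms (res S ζ) ≤ ms (res U ζ) := by
  linarith [ms_two (T := ∅) ζ h (Set.empty_subset _) (by simp), ms_nonneg (res ∅ ζ)]

end Mass

section Fun

variable {A : Type} [CStarAlgebra A]

/-- limits of bounded sequences of functionals -/
theorem exists_lim (Φ : ℕ → StrongDual ℂ A) {B : ℝ} (h : ∀ᶠ i in UU, ‖Φ i‖ ≤ B) :
    ∃ F : StrongDual ℂ A, ‖F‖ ≤ B ∧ ∀ a, Tendsto (fun i => Φ i a) UU (𝓝 (F a)) := by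
  have hB : 0 ≤ B := by
    obtain ⟨i, hi⟩ := h.exists
    exact (norm_nonneg _).trans hi
  have h1 : ∀ a, ∃ z : ℂ, ‖z‖ ≤ B * ‖a‖ ∧ Tendsto (fun i => Φ i a) UU (𝓝 z) := fun a => by
    obtain ⟨z, h2, h3⟩ := (isCompact_closedBall (0 : ℂ) (B * ‖a‖)).ultrafilter_le_nhds
      ((Filter.hyperfilter ℕ).map fun i => Φ i a) (by
        rw [Ultrafilter.coe_map, Filter.le_principal_iff, Filter.mem_map]
        exact h.mono fun i hi => mem_closedBall_zero_iff.2 ((Φ i).le_of_opNorm_le hi a))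
    exact ⟨z, mem_closedBall_zero_iff.1 h2, h3⟩
  choose f h2 h3 using h1
  let F : A →ₗ[ℂ] ℂ :=
    { toFun := f
      map_add' := fun a b => tendsto_nhds_unique (h3 (a + b)) (by
        simpa only [map_add] using (h3 a).add (h3 b))
      map_smul' := fun c a => tendsto_nhds_unique (h3 (c • a)) (by
        simpa only [map_smul, RingHom.id_apply] using (h3 a).const_smul c) }
  exact ⟨F.mkContinuous B h2, F.mkContinuous_norm_le hB h2, h3⟩

theorem exists_lim_real (m : ℕ → ℝ) {B : ℝ} (h : ∀ i, |m i| ≤ B) :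
    ∃ μ : ℝ, Tendsto m UU (𝓝 μ) := by
  obtain ⟨z, -, h3⟩ := (isCompact_Icc (a := -B) (b := B)).ultrafilter_le_nhds
    ((Filter.hyperfilter ℕ).map m) (by
      rw [Ultrafilter.coe_map, Filter.le_principal_iff, Filter.mem_map]
      exact Filter.univ_mem' fun i => abs_le.1 (h i))
  exact ⟨z, h3⟩

theorem UU_le : UU ≤ atTop := Nat.hyperfilter_le_atTop

variable [PartialOrder A] [StarOrderedRing A]

theorem norm_le_sum {k : ℕ} (M : CStarMatrix (Fin k) (Fin k) A) : ‖M‖ ≤ ∑ q, ∑ p, ‖M p q‖ := by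
  rw [CStarMatrix.norm_def]
  refine (CStarMatrix.toCLM M).opNorm_le_bound (by positivity) fun v => ?_
  simp only [CStarMatrix.toCLM_apply_eq_sum, Finset.sum_mul]
  refine (WithCStarModule.pi_norm_le_sum_norm _).trans (Finset.sum_le_sum fun q _ => ?_)
  refine (norm_sum_le Finset.univ fun p => v p * M p q).trans
    (Finset.sum_le_sum fun p _ => (norm_mul_le _ _).trans ?_)
  rw [mul_comm]
  exact mul_le_mul_of_nonneg_left (WithCStarModule.norm_apply_le_norm v p) (norm_nonneg _)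

theorem mn_le_sum {k : ℕ} (a : Matrix (Fin k) (Fin k) A) : mn a ≤ ∑ q, ∑ p, ‖a p q‖ :=
  norm_le_sum (CStarMatrix.ofMatrix a)

variable {G : Type} [Group G] (R : Reg G A) {K : Type} [Fintype K]

theorem bd_co (a : A) (s : Finset G) : Bd (fun x y : s => R.co x y a) ‖a‖ := by
  intro v w
  have h1 := R.mat_le 1 (Matrix.of fun _ _ => a) s (fun p => v p.2) fun p => w p.2
  have h2 := mn_le_sum (Matrix.of fun _ _ : Fin 1 => a)
  simp only [fm, nsq, Fintype.sum_prod_type, Fin.sum_univ_one, Matrix.of_apply] at h1 h2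
  refine h1.trans ?_
  unfold nsq
  gcongr

theorem Q2_eq (b : K → K → ℂ) (ζ ζ' : Vec G K) {s t : Finset G} (hs : ζ.support ⊆ s)
    (ht : ζ'.support ⊆ t) : R.Q2 b ζ ζ' = ∑ x ∈ s, ∑ y ∈ t, fm b (ζ x) (ζ' y) • R.co x y := by
  rw [Reg.Q2, Finset.sum_subset hs fun x _ hx => by
    simp [Finsupp.notMem_support_iff.1 hx, fm_zero_left]]
  exact Finset.sum_congr rfl fun x _ => Finset.sum_subset ht fun y _ hy => by
    simp [Finsupp.notMem_support_iff.1 hy, fm_zero_right]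

theorem Q2_add_left (b : K → K → ℂ) (ζ ξ ζ' : Vec G K) :
    R.Q2 b (ζ + ξ) ζ' = R.Q2 b ζ ζ' + R.Q2 b ξ ζ' := by
  rw [Q2_eq R b _ ζ' Finsupp.support_add le_rfl,
    Q2_eq R b ζ ζ' (Finset.subset_union_left (s₂ := ξ.support)) le_rfl,
    Q2_eq R b ξ ζ' (Finset.subset_union_right (s₁ := ζ.support)) le_rfl]
  simp only [Finsupp.add_apply, fm_add_left, add_smul, Finset.sum_add_distrib]

theorem Q2_add_right (b : K → K → ℂ) (ζ ζ' ξ : Vec G K) :
    R.Q2 b ζ (ζ' + ξ) = R.Q2 b ζ ζ' + R.Q2 b ζ ξ := by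
  rw [Q2_eq R b ζ _ le_rfl Finsupp.support_add,
    Q2_eq R b ζ ζ' le_rfl (Finset.subset_union_left (s₂ := ξ.support)),
    Q2_eq R b ζ ξ le_rfl (Finset.subset_union_right (s₁ := ζ'.support))]
  simp only [Finsupp.add_apply, fm_add_right, add_smul, Finset.sum_add_distrib]

theorem norm_Q2 {b : K → K → ℂ} {c : ℝ} (hc : 0 ≤ c) (hb : Bd b c) (ζ ζ' : Vec G K) :
    ‖R.Q2 b ζ ζ'‖ ≤ c * √(ms ζ) * √(ms ζ') := by
  refine ContinuousLinearMap.opNorm_le_bound _ (by positivity) fun a => ?_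
  have h := bd_tensor hc (norm_nonneg a) hb (bd_co R a (ζ.support ∪ ζ'.support))
    (fun x => ζ x) fun y => ζ' y
  rw [Q2_eq R b ζ ζ' (Finset.subset_union_left (s₂ := ζ'.support))
    (Finset.subset_union_right (s₁ := ζ.support)),
    ms_eq ζ (Finset.subset_union_left (s₂ := ζ'.support)),
    ms_eq ζ' (Finset.subset_union_right (s₁ := ζ.support))]
  simp only [sum_apply, smul_apply, smul_eq_mul, ← Finset.sum_coe_sort (ζ.support ∪ ζ'.support)]
  refine h.trans (le_of_eq ?_)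
  ring

theorem norm_Q {b : K → K → ℂ} {c : ℝ} (hc : 0 ≤ c) (hb : Bd b c) (ζ : Vec G K) :
    ‖R.Q b ζ‖ ≤ c * ms ζ := by
  have := norm_Q2 R hc hb ζ ζ
  rwa [mul_assoc, Real.mul_self_sqrt (ms_nonneg ζ)] at this

theorem Q_add (b : K → K → ℂ) (ζ ξ : Vec G K) :
    R.Q b (ζ + ξ) = R.Q b ζ + R.Q b ξ + (R.Q2 b ζ ξ + R.Q2 b ξ ζ) := by
  simp only [Reg.Q, Q2_add_left, Q2_add_right]
  abel

/-- A functional with square summable Fourier coefficients. -/
theorem norm_le_l2 (ψ : StrongDual ℂ A) {θ : ℝ} (hθ : 0 ≤ θ)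
    (h : ∀ s : Finset G, ∑ g ∈ s, ‖ψ (R.u g)‖ ^ 2 ≤ θ ^ 2) : ‖ψ‖ ≤ θ := by
  refine ContinuousLinearMap.opNorm_le_bound _ hθ fun a => ?_
  refine Dense.induction (P := fun a => ‖ψ a‖ ≤ θ * ‖a‖) R.dense (fun a ha => ?_)
    (isClosed_le (by fun_prop) (by fun_prop)) a
  obtain ⟨c, hc⟩ := Finsupp.mem_span_range_iff_exists_finsupp.1 ha
  let s := insert 1 c.support
  have e1 : a = ∑ g ∈ s, c g • R.u g := by
    rw [← hc]
    exact Finsupp.sum_of_support_subset _ (Finset.subset_insert _ _) _ fun _ _ => zero_smul _ _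
  have e2 : ∀ y ∈ s, R.co 1 y a = c y := fun y hy => by
    rw [e1, map_sum]
    simp only [map_smul, R.co_u, one_mul, smul_eq_mul, mul_ite, mul_one, mul_zero]
    rw [Finset.sum_ite_eq, if_pos hy]
  let o : s := ⟨1, Finset.mem_insert_self _ _⟩
  have h1 := bd_co R a s (Pi.single o 1) fun y => ψ (R.u y)
  have e3 : fm (fun x y : s => R.co x y a) (Pi.single o 1) (fun y => ψ (R.u y)) = ψ a := by
    rw [fm, Finset.sum_eq_single o (fun x _ hx => by simp [Pi.single_eq_of_ne hx]) (by simp)]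
    conv_rhs => rw [e1, map_sum, ← Finset.sum_coe_sort]
    refine Finset.sum_congr rfl fun y _ => ?_
    rw [Pi.single_eq_same, map_one, one_mul, map_smul, smul_eq_mul, e2 y y.2]
  have e4 : nsq (Pi.single o 1 : s → ℂ) = 1 := by
    rw [nsq, Finset.sum_eq_single o (fun x _ hx => by simp [Pi.single_eq_of_ne hx]) (by simp)]
    simp
  have e5 : √(nsq fun y : s => ψ (R.u y)) ≤ θ := by
    refine Real.sqrt_le_iff.2 ⟨hθ, ?_⟩
    rw [nsq, Finset.sum_coe_sort s fun g => ‖ψ (R.u g)‖ ^ 2]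
    exact h s
  rw [e3, e4, Real.sqrt_one, mul_one, mul_comm] at h1
  exact h1.trans (mul_le_mul_of_nonneg_right e5 (norm_nonneg _))

end Fun

end CutM


open CutM

theorem comb : CombStmt := by
  intro G _ A _ _ _ R d e Φ Φ₁ Φ₂ Ψ m m₁ m₂ e₁ e₂ η B hB hm hΨ hu hmm g₁ g₂ F μ hF hμ
  choose F₁ _ h₁ using fun j => exists_lim (fun i => Φ₁ i j) (.of_forall fun i => (hB i j).1)
  choose F₂ _ h₂ using fun j => exists_lim (fun i => Φ₂ i j) (.of_forall fun i => (hB i j).2)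
  choose P hP h₃ using fun j => exists_lim (fun i => Ψ i j) (hΨ.mono fun i hi => hi j)
  obtain ⟨μ₁, k₁⟩ := exists_lim_real m₁ fun i => (hm i).1
  obtain ⟨μ₂, k₂⟩ := exists_lim_real m₂ fun i => (hm i).2
  have e1 : ∀ j, F j = F₁ j + F₂ j + P j := fun j => by
    refine ContinuousLinearMap.ext_on R.dense ?_
    rintro _ ⟨g, rfl⟩
    have := tendsto_nhds_unique ((((hF j _).sub (h₁ j _)).sub (h₂ j _)).sub (h₃ j _)) (hu j g)
    show F j (R.u g) = F₁ j (R.u g) + F₂ j (R.u g) + P j (R.u g)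
    linear_combination this
  have e2 : μ₁ + μ₂ ≤ μ := le_of_tendsto_of_tendsto (k₁.add k₂) hμ hmm
  have e3 : ‖∑ j, e j (P j)‖ ≤ η * ∑ j, ‖e j‖ := by
    rw [Finset.mul_sum]
    refine (norm_sum_le _ _).trans (Finset.sum_le_sum fun j _ => ((e j).le_opNorm _).trans ?_)
    rw [mul_comm]
    exact mul_le_mul_of_nonneg_right (hP j) (norm_nonneg _)
  simp only [e1, map_add, Finset.sum_add_distrib]
  linarith [g₁ F₁ μ₁ h₁ k₁, g₂ F₂ μ₂ h₂ k₂,
    norm_add₃_le (a := ∑ j, e j (F₁ j)) (b := ∑ j, e j (F₂ j)) (c := ∑ j, e j (P j))]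

namespace CutM

variable {A : Type} [CStarAlgebra A] [PartialOrder A] [StarOrderedRing A]
  {G : Type} [Group G] (R : Reg G A) {K : Type} [Fintype K]

theorem Q2_u (b : K → K → ℂ) (ζ ζ' : Vec G K) (g : G) {s t : Finset G} (hs : ζ.support ⊆ s)
    (ht : ζ'.support ⊆ t) : R.Q2 b ζ ζ' (R.u g) =
      ∑ x ∈ s, ∑ y ∈ t, if y = x * g then fm b (ζ x) (ζ' y) else 0 := by
  rw [Q2_eq R b ζ ζ' hs ht]
  simp only [sum_apply, smul_apply, R.co_u, smul_eq_mul, mul_ite, mul_one, mul_zero]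

/-- the cross terms only see the boundary -/
theorem cross_le (W : WG G) {b : K → K → ℂ} {c : ℝ} (hc : 0 ≤ c) (hb : Bd b c) (ζ : Vec G K)
    (hζ : ms ζ ≤ 1) (U : Set G) (g : G) :
    ‖(R.Q2 b (res U ζ) (res Uᶜ ζ) + R.Q2 b (res Uᶜ ζ) (res U ζ)) (R.u g)‖ ≤
      2 * c * ‖R.u g‖ * √(ms (res (U ∩ W.Nb (W.wl g) Uᶜ) ζ)) := by
  set T := U ∩ W.Nb (W.wl g) Uᶜ
  have e1 : R.Q2 b (res U ζ) (res Uᶜ ζ) (R.u g) = R.Q2 b (res T ζ) (res Uᶜ ζ) (R.u g) := by
    rw [Q2_u R b _ _ g (res_supp _ _) (res_supp _ _), Q2_u R b _ _ g (res_supp _ _) (res_supp _ _)]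
    refine Finset.sum_congr rfl fun x _ => Finset.sum_congr rfl fun y _ => ?_
    refine if_ctx_congr Iff.rfl (fun h => ?_) fun _ => rfl
    by_cases hy : y ∈ Uᶜ
    · have : x ∈ U ↔ x ∈ T := ⟨fun hx => ⟨hx, y, hy, by simp [WG.ds, h]⟩, fun hx => hx.1⟩
      rw [res_congr _ this]
    · rw [res_not _ hy, fm_zero_right, fm_zero_right]
  have e2 : R.Q2 b (res Uᶜ ζ) (res U ζ) (R.u g) = R.Q2 b (res Uᶜ ζ) (res T ζ) (R.u g) := by
    rw [Q2_u R b _ _ g (res_supp _ _) (res_supp _ _), Q2_u R b _ _ g (res_supp _ _) (res_supp _ _)]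
    refine Finset.sum_congr rfl fun x _ => Finset.sum_congr rfl fun y _ => ?_
    refine if_ctx_congr Iff.rfl (fun h => ?_) fun _ => rfl
    by_cases hx : x ∈ Uᶜ
    · have : y ∈ U ↔ y ∈ T :=
        ⟨fun hy => ⟨hy, x, hx, by simp [WG.ds, h, W.wl_inv]⟩, fun hy => hy.1⟩
      rw [res_congr _ this]
    · rw [res_not _ hx, fm_zero_left, fm_zero_left]
  have h1 : √(ms (res Uᶜ ζ)) ≤ 1 := Real.sqrt_le_one.2 ((ms_res_le _ _).trans hζ)
  have h2 := (R.Q2 b (res T ζ) (res Uᶜ ζ)).le_of_opNorm_le (norm_Q2 R hc hb _ _) (R.u g)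
  have h3 := (R.Q2 b (res Uᶜ ζ) (res T ζ)).le_of_opNorm_le (norm_Q2 R hc hb _ _) (R.u g)
  have h4 : c * √(ms (res T ζ)) * ‖R.u g‖ * √(ms (res Uᶜ ζ)) ≤ c * √(ms (res T ζ)) * ‖R.u g‖ :=
    mul_le_of_le_one_right (by positivity) h1
  rw [add_apply, e1, e2]
  refine (norm_add_le _ _).trans ?_
  nlinarith

omit [Group G] in
theorem tendsto_small {k : ℕ → ℕ} {ζ : ∀ i, Vec G (Fin (k i))} {S : ℕ → Set G}
    (h : ∀ η : ℝ, 0 < η → Small ζ S η) : Tendsto (fun i => ms (res (S i) (ζ i))) UU (𝓝 0) := by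
  rw [Metric.tendsto_nhds]
  intro ε hε
  refine (h (ε / 2) (half_pos hε)).mono fun i hi => ?_
  rw [Real.dist_eq, sub_zero, abs_of_nonneg (ms_nonneg _)]
  linarith

omit [PartialOrder A] [StarOrderedRing A] in
theorem goodL_zero {d : ℕ} (e : Fin d → Bid A) : GoodL e (fun _ _ => 0) (fun _ => 0) 0 := by
  intro F μ hF hμ
  have h1 : ∀ j, F j = 0 := fun j => ContinuousLinearMap.ext fun a =>
    tendsto_nhds_unique (hF j a) tendsto_const_nhds
  simp [h1, tendsto_nhds_unique hμ tendsto_const_nhds]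

theorem bounds {d : ℕ} {e : Fin d → Bid A} (S : Sys e) (i : ℕ) (j : Fin d)
    {ζ : Vec G (Fin (S.k i))} (h : ms ζ ≤ 1) : ‖R.Q (S.b i j) ζ‖ ≤ S.C + 1 := by
  have := norm_Q R S.C_nonneg (S.bd i j) ζ
  nlinarith [S.C_nonneg, ms_nonneg ζ]

omit [Group G] in
theorem abs_ms {ζ : Vec G K} {c : ℝ} (hc : 0 ≤ c) (h : ms ζ ≤ 1) : |ms ζ| ≤ c + 1 := by
  rw [abs_of_nonneg (ms_nonneg ζ)]
  linarith

end CutM

theorem split : SplitStmt := by
  intro G _ W A _ _ _ R d e S ζ U e₁ e₂ hm hs g₁ g₂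
  have h1 := fun i V => (ms_res_le V (ζ i)).trans (hm i)
  have := comb G A R d e (fun i j => R.Q (S.b i j) (ζ i)) _ _ (fun _ _ => 0) (fun i => ms (ζ i))
    _ _ e₁ e₂ 0 (S.C + 1) (fun i j => ⟨bounds R S i j (h1 i _), bounds R S i j (h1 i _)⟩)
    (fun i => ⟨abs_ms S.C_nonneg (h1 i _), abs_ms S.C_nonneg (h1 i _)⟩) (by simp)
    (fun j g => ?_) (.of_forall fun i => (ms_res_add _ _).le) g₁ g₂
  · simpa [Good] using this
  · have h2 := ((tendsto_small (hs (W.wl g))).sqrt).const_mul (2 * S.C * ‖R.u g‖)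
    rw [Real.sqrt_zero, mul_zero] at h2
    refine squeeze_zero_norm (fun i => le_of_eq_of_le (congrArg (fun f : StrongDual ℂ A =>
      ‖f (R.u g)‖) ?_) (cross_le R W S.C_nonneg (S.bd i j) (ζ i) (hm i) (U i) g)) h2
    have h3 := Q_add R (S.b i j) (res (U i) (ζ i)) (res (U i)ᶜ (ζ i))
    rw [res_add] at h3
    rw [h3]
    abel

theorem approx : ApproxStmt := by
  intro G _ A _ _ _ R d e S ζ hm h F μ hF hμ
  have h1 := fun i V => (ms_res_le V (ζ i)).trans (hm i)
  have key : ∀ t : ℝ, 0 < t →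
      ‖∑ j, e j (F j)‖ ≤ μ + (t ^ 2 + 0 + 3 * S.C * t * ∑ j, ‖e j‖) := fun t ht => by
    obtain ⟨U, h2, h3⟩ := h (t ^ 2) (by positivity)
    refine comb G A R d e (fun i j => R.Q (S.b i j) (ζ i)) _ (fun _ _ => 0)
      (fun i j => R.Q (S.b i j) (ζ i) - R.Q (S.b i j) (res (U i) (ζ i))) (fun i => ms (ζ i))
      _ (fun _ => 0) _ 0 _ (S.C + 1)
      (fun i j => ⟨bounds R S i j (h1 i _), by simpa using by linarith [S.C_nonneg]⟩)
      (fun i => ⟨abs_ms S.C_nonneg (h1 i _), by simpa using by linarith [S.C_nonneg]⟩)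
      (h2.mono fun i hi j => ?_) (fun j g => by simp)
      (.of_forall fun i => by simpa using ms_res_le _ _) h3 (goodL_zero e) F μ hF hμ
    have h4 := Q_add R (S.b i j) (res (U i) (ζ i)) (res (U i)ᶜ (ζ i))
    rw [res_add] at h4
    have h5 : ∀ V V', √(ms (res V' (ζ i))) ≤ t →
        ‖R.Q2 (S.b i j) (res V (ζ i)) (res V' (ζ i))‖ ≤ S.C * t ∧
        ‖R.Q2 (S.b i j) (res V' (ζ i)) (res V (ζ i))‖ ≤ S.C * t := fun V V' a => by
      have b : √(ms (res V (ζ i))) ≤ 1 := Real.sqrt_le_one.2 (h1 i V)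
      have c := S.C_nonneg
      have : S.C * √(ms (res V (ζ i))) * √(ms (res V' (ζ i))) ≤ S.C * 1 * t := by gcongr
      exact ⟨(norm_Q2 R c (S.bd i j) _ _).trans (by linarith),
        (norm_Q2 R c (S.bd i j) _ _).trans (by linarith)⟩
    have h6 : √(ms (res (U i)ᶜ (ζ i))) ≤ t := Real.sqrt_le_iff.2 ⟨ht.le, hi⟩
    have h7 : R.Q (S.b i j) (ζ i) - R.Q (S.b i j) (res (U i) (ζ i)) =
        R.Q2 (S.b i j) (res (U i)ᶜ (ζ i)) (res (U i)ᶜ (ζ i)) +
          R.Q2 (S.b i j) (res (U i) (ζ i)) (res (U i)ᶜ (ζ i)) +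
          R.Q2 (S.b i j) (res (U i)ᶜ (ζ i)) (res (U i) (ζ i)) := by
      rw [h4, Reg.Q.eq_1 R _ (res (U i)ᶜ (ζ i))]
      abel
    rw [h7]
    linarith [norm_add₃_le (a := R.Q2 (S.b i j) (res (U i)ᶜ (ζ i)) (res (U i)ᶜ (ζ i)))
      (b := R.Q2 (S.b i j) (res (U i) (ζ i)) (res (U i)ᶜ (ζ i)))
      (c := R.Q2 (S.b i j) (res (U i)ᶜ (ζ i)) (res (U i) (ζ i))),
      (h5 (U i)ᶜ _ h6).1, (h5 (U i) _ h6).1, (h5 (U i) _ h6).2]
  have h2 : Tendsto (fun t : ℝ => μ + (t ^ 2 + 0 + 3 * S.C * t * ∑ j, ‖e j‖)) (𝓝[>] 0)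
      (𝓝 (μ + 0)) := by
    refine Tendsto.mono_left (Continuous.tendsto' (by fun_prop) _ _ (by simp)) nhdsWithin_le_nhds
  exact ge_of_tendsto h2 (eventually_nhdsWithin_of_forall key)

theorem tail : TailStmt := by
  intro G _ W A _ _ _ R d e Φ m L η hη hΦ ht F μ hF hμ
  have h1 : ∀ j (Γ : Finset G), (∀ g ∈ Γ, L ≤ W.wl g) → ∑ g ∈ Γ, ‖F j (R.u g)‖ ^ 2 ≤ η ^ 2 :=
    fun j Γ hΓ => le_of_tendsto (tendsto_finsetSum Γ fun g _ => (hF j _).norm.pow 2)
      (ht.mono fun i hi => hi j Γ hΓ)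
  let δ : ℕ → Fin d → ℝ := fun i j => ∑ g ∈ W.ball L, ‖F j (R.u g) - Φ i j (R.u g)‖ ^ 2
  have h2 : ∀ᶠ i in UU, ∀ j, ‖F j - Φ i j‖ ≤ √(δ i j + (2 * η) ^ 2) := ht.mono fun i hi j => by
    have h0 : 0 ≤ δ i j := Finset.sum_nonneg fun _ _ => by positivity
    refine norm_le_l2 R _ (Real.sqrt_nonneg _) fun s => ?_
    rw [Real.sq_sqrt (by positivity),
      ← Finset.sum_filter_add_sum_filter_not s fun g => W.wl g ≤ L]
    refine add_le_add (Finset.sum_le_sum_of_subset_of_nonneg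
      (fun g hg => (W.mem_ball L g).2 (Finset.mem_filter.1 hg).2) fun _ _ _ => by positivity) ?_
    have hΓ : ∀ g ∈ s.filter fun g => ¬ W.wl g ≤ L, L ≤ W.wl g := fun g hg =>
      (not_le.1 (Finset.mem_filter.1 hg).2).le
    have h3 := h1 j _ hΓ
    have h4 := hi j _ hΓ
    calc _ ≤ ∑ g ∈ s.filter fun g => ¬ W.wl g ≤ L,
          (2 * ‖F j (R.u g)‖ ^ 2 + 2 * ‖Φ i j (R.u g)‖ ^ 2) := Finset.sum_le_sum fun g _ => by
            have := pow_le_pow_left₀ (norm_nonneg _) (norm_sub_le (F j (R.u g)) (Φ i j (R.u g))) 2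
            rw [sub_apply]
            nlinarith [sq_nonneg (‖F j (R.u g)‖ - ‖Φ i j (R.u g)‖)]
      _ ≤ _ := by
        rw [Finset.sum_add_distrib, ← Finset.mul_sum, ← Finset.mul_sum]
        nlinarith
  have h3 : ∀ j, Tendsto (fun i => δ i j) UU (𝓝 0) := fun j => by
    have := tendsto_finsetSum (W.ball L) fun g _ =>
      ((hF j (R.u g)).const_sub (F j (R.u g))).norm.pow 2
    simpa using this
  have h4 := hμ.add (tendsto_finsetSum Finset.univ fun j _ =>
    (((h3 j).add_const ((2 * η) ^ 2)).sqrt).const_mul ‖e j‖)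
  refine (ge_of_tendsto h4 (h2.mono fun i hi => ?_)).trans (le_of_eq ?_)
  · have : ∑ j, e j (F j) = ∑ j, e j (Φ i j) + ∑ j, e j (F j - Φ i j) := by
      simp
    rw [this]
    exact (norm_add_le _ _).trans (add_le_add (hΦ i) ((norm_sum_le _ _).trans
      (Finset.sum_le_sum fun j _ => (e j).le_of_opNorm_le_of_le le_rfl (hi j))))
  · rw [zero_add, Real.sqrt_sq (by positivity), ← Finset.sum_mul, mul_comm]

namespace CutM

theorem diag (f : ℕ → ℕ → ℕ → ℝ) (h0 : ∀ i r L, |f i r L| ≤ 1)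
    (h1 : ∀ i r L L', L ≤ L' → f i r L' ≤ f i r L) :
    ∃ n Lf : ℕ → ℕ, Tendsto n UU atTop ∧ Tendsto Lf UU atTop ∧
      (∀ η : ℝ, 0 < η → ∃ r, ∀ᶠ i in UU, f i (n i) (Lf i) - f i r (Lf i) ≤ η) ∧
      ∀ r (η : ℝ), 0 < η → ∃ L, ∀ᶠ i in UU, f i r L - f i r (Lf i) ≤ η := by
  choose a ha using fun r L => exists_lim_real (fun i => f i r L) fun i => h0 i r L
  have a0 : ∀ r L, |a r L| ≤ 1 := fun r L => le_of_tendsto' (ha r L).abs fun i => h0 i r L
  have a1 : ∀ r L L', L ≤ L' → a r L' ≤ a r L := fun r L L' h =>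
    le_of_tendsto_of_tendsto' (ha r L') (ha r L) fun i => h1 i r L L' h
  have b1 : ∀ r L, ⨅ L, a r L ≤ a r L := fun r L =>
    ciInf_le ⟨-1, by rintro _ ⟨L, rfl⟩; exact (abs_le.1 (a0 r L)).1⟩ L
  have b2 : ∀ r (ε : ℝ), 0 < ε → ∃ L, r ≤ L ∧ a r L ≤ (⨅ L, a r L) + ε := fun r ε hε => by
    obtain ⟨L, hL⟩ := exists_lt_of_ciInf_lt (lt_add_of_pos_right (⨅ L, a r L) hε)
    exact ⟨max r L, le_max_left _ _, (a1 r _ _ (le_max_right _ _)).trans hL.le⟩
  have b3 : ∀ r, ⨅ L, a r L ≤ ⨆ r, ⨅ L, a r L := fun r => le_ciSup (f := fun r => ⨅ L, a r L)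
    ⟨1, by rintro _ ⟨r, rfl⟩; exact (b1 r 0).trans (abs_le.1 (a0 r 0)).2⟩ r
  choose L hL hL' using fun n : ℕ => b2 n (1 / ((n : ℝ) + 1)) Nat.one_div_pos_of_nat
  let P : ℕ → ℕ → Prop := fun i n => ∀ r ≤ n, |f i r (L n) - a r (L n)| ≤ 1 / ((n : ℝ) + 1)
  have hP : ∀ n, ∀ᶠ i in UU, P i n ∧ n ≤ i := fun n => by
    refine Eventually.and ?_ (UU_le (eventually_ge_atTop n))
    refine (eventually_all_finite (Set.finite_Iic n)).2 fun r _ => ?_
    exact (Metric.tendsto_nhds.1 (ha r (L n)) _ Nat.one_div_pos_of_nat).mono fun i hi => hi.le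
  let n : ℕ → ℕ := fun i => Nat.findGreatest (P i) i
  have hn : Tendsto n UU atTop := tendsto_atTop.2 fun m =>
    (hP m).mono fun i hi => Nat.le_findGreatest hi.2 hi.1
  have hn' : ∀ᶠ i in UU, P i (n i) := (hP 0).mono fun i hi => Nat.findGreatest_spec hi.2 hi.1
  have hs : ∀ ε : ℝ, 0 < ε → ∀ᶠ i in UU, 1 / ((n i : ℝ) + 1) < ε := fun ε hε =>
    (tendsto_one_div_add_atTop_nhds_zero_nat.comp hn).eventually (gt_mem_nhds hε)
  refine ⟨n, fun i => L (n i), hn, tendsto_atTop_mono (fun i => hL _) hn, fun η hη => ?_,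
    fun r η hη => ?_⟩
  · obtain ⟨r, hr⟩ := exists_lt_of_lt_ciSup (sub_lt_self (⨆ r, ⨅ L, a r L) (half_pos hη))
    refine ⟨r, ?_⟩
    filter_upwards [hn', hs (η / 6) (by positivity), tendsto_atTop.1 hn r] with i c1 c2 c3
    linarith [(abs_le.1 (c1 _ le_rfl)).2, (abs_le.1 (c1 r c3)).1, hL' (n i), b3 (n i),
      b1 r (L (n i))]
  · obtain ⟨M, -, hM⟩ := b2 r (η / 3) (by positivity)
    refine ⟨M, ?_⟩
    filter_upwards [hn', hs (η / 3) (by positivity), tendsto_atTop.1 hn r,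
      (ha r M).eventually (gt_mem_nhds (lt_add_of_pos_right (a r M) (by positivity : 0 < η / 3)))]
      with i c1 c2 c3 c4
    linarith [(abs_le.1 (c1 r c3)).1, b1 r (L (n i))]

theorem Nb_mono {G : Type} [Group G] (W : WG G) {r r' : ℕ} {S S' : Set G} (h : r ≤ r')
    (h' : S ⊆ S') : W.Nb r S ⊆ W.Nb r' S' := fun _ ⟨y, h1, h2⟩ => ⟨y, h' h1, h2.trans h⟩

end CutM

theorem sat : SatStmt := by
  intro G _ W k ζ hm Z hZ
  obtain ⟨n, Lf, h1, h2, h3, h4⟩ := diag (fun i r L => ms (res (W.Nb r (Z i L)) (ζ i)))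
    (fun i r L => by
      rw [abs_of_nonneg (ms_nonneg _)]; exact (ms_res_le _ _).trans (hm i))
    fun i r L L' h => ms_mono _ (Nb_mono W le_rfl (hZ i L L' h))
  refine ⟨fun i => W.Nb (n i) (Z i (Lf i)), Lf, h2, fun r η hη => ?_, fun r η hη => ?_,
    fun η hη => ?_⟩
  · obtain ⟨r₀, h⟩ := h3 η hη
    filter_upwards [h, tendsto_atTop.1 h1 (r₀ + r)] with i c1 c2
    have := ms_two (S := W.Nb (n i) (Z i (Lf i)) ∩ W.Nb r (W.Nb (n i) (Z i (Lf i)))ᶜ)
      (T := W.Nb r₀ (Z i (Lf i))) (ζ i) Set.inter_subset_left (Nb_mono W (by omega) le_rfl)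
      (by
        rintro x ⟨-, y, hy, a⟩ ⟨z, hz, b⟩
        refine hy ⟨z, hz, ?_⟩
        have c := W.wl_mul (x⁻¹ * y)⁻¹ (x⁻¹ * z)
        rw [W.wl_inv, show (x⁻¹ * y)⁻¹ * (x⁻¹ * z) = y⁻¹ * z by group] at c
        unfold WG.ds at a b ⊢
        omega)
    linarith
  · obtain ⟨L, h⟩ := h4 r η hη
    refine ⟨L, ?_⟩
    filter_upwards [h, tendsto_atTop.1 h1 r, tendsto_atTop.1 h2 L] with i c1 c2 c3
    have := ms_two (S := (W.Nb (n i) (Z i (Lf i)))ᶜ ∩ W.Nb r (Z i L))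
      (T := W.Nb r (Z i (Lf i))) (ζ i) Set.inter_subset_right (Nb_mono W le_rfl (hZ i _ _ c3))
      fun x hx a => hx.1 (Nb_mono W c2 le_rfl a)
    linarith
  · obtain ⟨r, h⟩ := h3 η hη
    refine ⟨r, ?_⟩
    filter_upwards [h, tendsto_atTop.1 h1 r] with i c1 c2
    have := ms_two (S := W.Nb (n i) (Z i (Lf i)) ∩ (W.Nb r (Z i (Lf i)))ᶜ)
      (T := W.Nb r (Z i (Lf i))) (ζ i) Set.inter_subset_left (Nb_mono W c2 le_rfl)
      fun x hx a => hx.2 a
    linarith

end Pool.Agent.MP_88ca14_an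

end
end MrgPart1

-- ======== part 2: formerly Pool.Agent.MP_88ca14_an.Spec1
section MrgPart2

/-!
PROJECT LRX, module SPEC: polynomials of a symmetric operator on a Krylov space.
-/

set_option autoImplicit false

noncomputable section

namespace Pool.Agent.MP_88ca14_an

open scoped ComplexConjugate InnerProductSpace

namespace SpecM

theorem eval_map (p : Polynomial ℝ) (t : ℝ) :
    (p.map (algebraMap ℝ ℂ)).eval (t : ℂ) = ((p.eval t : ℝ) : ℂ) := by
  rw [Polynomial.eval_map]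
  exact Polynomial.eval₂_at_apply (algebraMap ℝ ℂ) t

theorem fin_dim {E : Type} [NormedAddCommGroup E] [InnerProductSpace ℂ E] [FiniteDimensional ℂ E]
    (S : Module.End ℂ E) (hS : S.IsSymmetric) (lam : ℝ)
    (hl : ∀ v, ‖⟪v, S v⟫_ℂ‖ ≤ lam * ‖v‖ ^ 2) (p : Polynomial ℝ) (v : E) :
    (∀ θ : ℝ, (∀ t ∈ Set.Icc (-lam) lam, |p.eval t| ≤ θ) →
      ‖pev p S v‖ ^ 2 ≤ θ ^ 2 * ‖v‖ ^ 2) ∧
    ((∀ t ∈ Set.Icc (-lam) lam, 0 ≤ p.eval t) → 0 ≤ (⟪v, pev p S v⟫_ℂ).re) := by
  set b := hS.eigenvectorBasis rfl with hb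
  set μ := hS.eigenvalues rfl with hμ
  have h1 : ∀ i, S (b i) = (μ i : ℂ) • b i := fun i => hS.apply_eigenvectorBasis rfl i
  have h2 : ∀ i, μ i ∈ Set.Icc (-lam) lam := by
    intro i
    have := hl (b i)
    rw [h1, inner_smul_right, b.inner_eq_one, mul_one, b.norm_eq_one, Complex.norm_real,
      Real.norm_eq_abs, one_pow, mul_one] at this
    exact abs_le.mp this
  have h3 : ∀ i, pev p S (b i) = ((p.eval (μ i) : ℝ) : ℂ) • b i := by
    intro i
    unfold pev
    rw [Module.End.aeval_apply_of_mem_apply_eq_smul (h1 i), eval_map]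
  have h4 : pev p S v = ∑ i, (⟪b i, v⟫_ℂ * ((p.eval (μ i) : ℝ) : ℂ)) • b i := by
    conv_lhs => rw [← b.sum_repr' v]
    rw [map_sum]
    refine Finset.sum_congr rfl fun i _ => ?_
    rw [map_smul, h3, smul_smul]
  have h5 : ∀ i, ⟪b i, pev p S v⟫_ℂ = ⟪b i, v⟫_ℂ * ((p.eval (μ i) : ℝ) : ℂ) := by
    intro i
    rw [h4]
    exact b.orthonormal.inner_right_fintype _ i
  refine ⟨fun θ hθ => ?_, fun hp => ?_⟩
  · rw [← b.sum_sq_norm_inner_right, ← b.sum_sq_norm_inner_right v, Finset.mul_sum]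
    refine Finset.sum_le_sum fun i _ => ?_
    rw [h5, norm_mul, mul_pow, mul_comm, Complex.norm_real, Real.norm_eq_abs]
    exact mul_le_mul_of_nonneg_right (pow_le_pow_left₀ (abs_nonneg _) (hθ _ (h2 i)) 2)
      (by positivity)
  · rw [← b.sum_inner_mul_inner v, Complex.re_sum]
    refine Finset.sum_nonneg fun i _ => ?_
    rw [h5, ← mul_assoc, ← inner_conj_symm v (b i), Complex.conj_mul', ← Complex.ofReal_pow,
      ← Complex.ofReal_mul, Complex.ofReal_re]
    exact mul_nonneg (by positivity) (hp _ (h2 i))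

theorem krylov {V : Type} [NormedAddCommGroup V] [InnerProductSpace ℂ V]
    (T : Module.End ℂ V) (hT : T.IsSymmetric) (v₀ : V) (n : ℕ) (lam : ℝ)
    (hl : ∀ v ∈ Submodule.span ℂ {v | ∃ k, k ≤ n ∧ v = (T ^ k) v₀},
      ‖⟪v, T v⟫_ℂ‖ ≤ lam * ‖v‖ ^ 2) (p : Polynomial ℝ) (hp : p.natDegree ≤ n) :
    (∀ θ : ℝ, (∀ t ∈ Set.Icc (-lam) lam, |p.eval t| ≤ θ) →
      ‖pev p T v₀‖ ^ 2 ≤ θ ^ 2 * ‖v₀‖ ^ 2) ∧
    ((∀ t ∈ Set.Icc (-lam) lam, 0 ≤ p.eval t) → 0 ≤ (⟪v₀, pev p T v₀⟫_ℂ).re) := by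
  set W := Submodule.span ℂ {v | ∃ k, k ≤ n ∧ v = (T ^ k) v₀} with hW
  have hfin : {v | ∃ k, k ≤ n ∧ v = (T ^ k) v₀}.Finite := by
    refine ((Set.finite_Iic n).image fun k => (T ^ k) v₀).subset ?_
    rintro v ⟨k, hk, rfl⟩
    exact ⟨k, hk, rfl⟩
  have : FiniteDimensional ℂ W := FiniteDimensional.span_of_finite ℂ hfin
  have hm : ∀ k, k ≤ n → (T ^ k) v₀ ∈ W := fun k hk => Submodule.subset_span ⟨k, hk, rfl⟩
  let S : Module.End ℂ W := (W.orthogonalProjectionOnto : V →ₗ[ℂ] W) ∘ₗ T ∘ₗ W.subtype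
  have hS1 : ∀ x y : W, ⟪x, S y⟫_ℂ = ⟪(x : V), T y⟫_ℂ := fun x y =>
    W.inner_orthogonalProjectionOnto_eq_of_mem_left x (T y)
  have hS : S.IsSymmetric := by
    intro x y
    rw [← inner_conj_symm, hS1, hS1, inner_conj_symm, hT]
  let w₀ : W := ⟨v₀, by simpa using hm 0 (Nat.zero_le n)⟩
  have hk : ∀ k, k ≤ n → (((S ^ k) w₀ : W) : V) = (T ^ k) v₀ := by
    intro k
    induction k with
    | zero => intro _; rfl
    | succ k ih =>
      intro h
      rw [pow_succ', Module.End.mul_apply]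
      have e : S ((S ^ k) w₀) = W.orthogonalProjectionOnto (T (((S ^ k) w₀ : W) : V)) := rfl
      have e2 : T ((T ^ k) v₀) = (T ^ (k + 1)) v₀ := by rw [pow_succ', Module.End.mul_apply]
      rw [e, ih (by omega), e2]
      have := W.orthogonalProjectionOnto_mem_subspace_eq_self ⟨_, hm (k + 1) h⟩
      exact congrArg Subtype.val this
  have hd : (p.map (algebraMap ℝ ℂ)).natDegree < n + 1 :=
    Nat.lt_succ_of_le (Polynomial.natDegree_map_le.trans hp)
  have he : ((pev p S w₀ : W) : V) = pev p T v₀ := by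
    unfold pev
    rw [Polynomial.aeval_eq_sum_range' hd, Polynomial.aeval_eq_sum_range' hd,
      LinearMap.sum_apply, LinearMap.sum_apply, Submodule.coe_sum]
    refine Finset.sum_congr rfl fun k hk' => ?_
    rw [LinearMap.smul_apply, LinearMap.smul_apply, Submodule.coe_smul,
      hk k (Nat.lt_succ_iff.mp (Finset.mem_range.mp hk'))]
  have h := fin_dim S hS lam (fun v => by rw [hS1]; exact hl v v.2) p w₀
  rw [← he]
  exact h

variable {Ω : Type}

theorem fip_eq (v w : Ω →₀ ℂ) (s : Finset Ω) (hs : v.support ⊆ s ∨ w.support ⊆ s) :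
    fip v w = ∑ x ∈ s, conj (v x) * w x := by
  classical
  have h1 : fip v w = ∑ x ∈ v.support ∪ s, conj (v x) * w x :=
    Finset.sum_subset Finset.subset_union_left fun x _ hx => by
      rw [Finsupp.notMem_support_iff.mp hx, map_zero, zero_mul]
  rw [h1]
  refine (Finset.sum_subset Finset.subset_union_right fun x _ hx => ?_).symm
  rcases hs with hs | hs
  · rw [Finsupp.notMem_support_iff.mp fun h => hx (hs h), map_zero, zero_mul]
  · rw [Finsupp.notMem_support_iff.mp fun h => hx (hs h), mul_zero]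

theorem fip_self (v : Ω →₀ ℂ) : fip v v = ((∑ x ∈ v.support, ‖v x‖ ^ 2 : ℝ) : ℂ) := by
  unfold fip
  simp only [Complex.conj_mul', Complex.ofReal_sum, Complex.ofReal_pow]

/-- The inner product structure of finitely supported functions. -/
@[reducible] def core (Ω : Type) : InnerProductSpace.Core ℂ (Ω →₀ ℂ) where
  inner := fip
  conj_inner_symm x y := by
    rw [fip_eq x y y.support (Or.inr subset_rfl)]
    unfold fip
    rw [map_sum]
    refine Finset.sum_congr rfl fun a _ => ?_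
    rw [map_mul, Complex.conj_conj, mul_comm]
  re_inner_nonneg x := by
    change 0 ≤ (fip x x).re
    rw [fip_self, Complex.ofReal_re]
    positivity
  add_left x y z := by
    rw [fip_eq (x + y) z z.support (Or.inr subset_rfl), fip_eq x z z.support (Or.inr subset_rfl),
      fip_eq y z z.support (Or.inr subset_rfl), ← Finset.sum_add_distrib]
    refine Finset.sum_congr rfl fun a _ => ?_
    rw [Finsupp.add_apply, map_add, add_mul]
  smul_left x y r := by
    rw [fip_eq (r • x) y y.support (Or.inr subset_rfl), fip_eq x y y.support (Or.inr subset_rfl),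
      Finset.mul_sum]
    refine Finset.sum_congr rfl fun a _ => ?_
    rw [Finsupp.smul_apply, smul_eq_mul, map_mul, mul_assoc]
  definite x hx := by
    rw [fip_self, Complex.ofReal_eq_zero,
      Finset.sum_eq_zero_iff_of_nonneg fun _ _ => by positivity] at hx
    ext a
    by_contra ha
    exact ha (by simpa using hx a (Finsupp.mem_support_iff.mpr ha))

end SpecM

open SpecM in
theorem spec : SpecStmt := by
  intro Ω T hT v₀ n lam _ hl p hp
  let _ : NormedAddCommGroup (Ω →₀ ℂ) :=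
    @InnerProductSpace.Core.toNormedAddCommGroup ℂ _ _ _ _ (core Ω)
  let _ : InnerProductSpace ℂ (Ω →₀ ℂ) := InnerProductSpace.ofCore (core Ω).toCore
  have hn : ∀ v : Ω →₀ ℂ, ‖v‖ ^ 2 = (fip v v).re := fun v =>
    InnerProductSpace.norm_sq_eq_re_inner (𝕜 := ℂ) v
  have h := krylov T hT v₀ n lam (fun v hv => by rw [hn]; exact hl v hv) p hp
  refine ⟨fun θ _ hθ => ?_, h.2⟩
  rw [← hn, ← hn]
  exact h.1 θ hθ

end Pool.Agent.MP_88ca14_an

end
end MrgPart2

-- ======== part 3: formerly Pool.Agent.MP_88ca14_an.Nex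
section MrgPart3

/-!
PROJECT LRX, modules NEX1 and NEX: the algebra is not exact.
-/

set_option autoImplicit false
set_option maxSynthPendingDepth 3

noncomputable section

namespace Pool.Agent.MP_88ca14_an

open Filter Topology
open scoped Classical TensorProduct ENNReal ComplexConjugate Matrix InnerProductSpace

namespace NexM

section Lin

variable {X : Type} [Fintype X] [DecidableEq X]

theorem rel_pow {D : Type} [Ring D] (t : D) (N : Matrix X X ℂ) (S : D → (X → ℂ) → Prop)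
    (hs : ∀ β w, S β w → S (t * β) (N *ᵥ w)) (k : ℕ) {β : D} {w : X → ℂ} (h : S β w) :
    S (t ^ k * β) (N ^ k *ᵥ w) := by
  induction k with
  | zero => simpa using h
  | succ k ih =>
    rw [pow_succ', pow_succ', mul_assoc, ← Matrix.mulVec_mulVec]
    exact hs _ _ ih

theorem rel_pev {D : Type} [Ring D] [Algebra ℂ D] (t : D) (N : Matrix X X ℂ)
    (S : D → (X → ℂ) → Prop) (ha : ∀ β w β' w', S β w → S β' w' → S (β + β') (w + w'))
    (hm : ∀ (c : ℂ) β w, S β w → S (c • β) (c • w))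
    (hs : ∀ β w, S β w → S (t * β) (N *ᵥ w)) (p : Polynomial ℝ) {β : D} {w : X → ℂ}
    (h : S β w) : S (pev p t * β) (pev p N *ᵥ w) := by
  unfold pev
  induction p.map (algebraMap ℝ ℂ) using Polynomial.induction_on' with
  | add p q hp hq =>
    rw [map_add, map_add, add_mul, Matrix.add_mulVec]
    exact ha _ _ _ _ hp hq
  | monomial n a =>
    rw [Polynomial.aeval_monomial, Polynomial.aeval_monomial, ← Algebra.smul_def,
      ← Algebra.smul_def, smul_mul_assoc, Matrix.smul_mulVec]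
    exact hm _ _ _ (rel_pow t N S hs n h)

theorem pev_hom {D D' : Type} [Ring D] [Algebra ℂ D] [Ring D'] [Algebra ℂ D'] (φ : D →ₐ[ℂ] D')
    (p : Polynomial ℝ) (t : D) : φ (pev p t) = pev p (φ t) :=
  (Polynomial.aeval_algHom_apply φ t _).symm

theorem mspec (N : Matrix X X ℂ) (hN : N.IsHermitian) (P : Finset X) (v : X → ℂ) (n : ℕ)
    (lam : ℝ) (hP : ∀ k, k ≤ n → ∀ x, x ∉ P → (N ^ k *ᵥ v) x = 0)
    (hl : ∀ w : X → ℂ, (∀ x, x ∉ P → w x = 0) → ‖fm N w w‖ ≤ lam * nsq w)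
    (p : Polynomial ℝ) (hp : p.natDegree ≤ n) :
    (∀ θ : ℝ, (∀ t ∈ Set.Icc (-lam) lam, |p.eval t| ≤ θ) →
      nsq (pev p N *ᵥ v) ≤ θ ^ 2 * nsq v) ∧
    ((∀ t ∈ Set.Icc (-lam) lam, 0 ≤ p.eval t) → 0 ≤ (star v ⬝ᵥ (pev p N *ᵥ v)).re) := by
  let φ := Matrix.toLpLinAlgEquiv (R := ℂ) (n := X) 2
  have hn : ∀ w : EuclideanSpace ℂ X, ‖w‖ ^ 2 = nsq w.ofLp := fun w =>
    EuclideanSpace.norm_sq_eq w
  have hi : ∀ (M : Matrix X X ℂ) (w : EuclideanSpace ℂ X),
      ⟪w, φ M w⟫_ℂ = fm M w.ofLp w.ofLp := fun M w => by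
    rw [Petz.fm_eq, EuclideanSpace.inner_eq_star_dotProduct, dotProduct_comm]; rfl
  have h := SpecM.krylov (V := EuclideanSpace ℂ X) (φ N)
    (Matrix.isSymmetric_toEuclideanLin_iff.2 hN) (WithLp.toLp 2 v) n lam (fun w hw => by
      rw [hi, hn]
      refine hl _ fun x hx => ?_
      induction hw using Submodule.span_induction with
      | mem w hw =>
        obtain ⟨k, hk, rfl⟩ := hw
        rw [← map_pow]
        exact hP k hk x hx
      | zero => rfl
      | add w w' _ _ h1 h2 => rw [WithLp.ofLp_add, Pi.add_apply, h1, h2, add_zero]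
      | smul c w _ h1 => rw [WithLp.ofLp_smul, Pi.smul_apply, h1, smul_zero]) p hp
  have e : pev p (φ N) = φ (pev p N) := (pev_hom φ.toAlgHom p N).symm
  rw [e, hi, hn, hn, Petz.fm_eq] at h
  exact h

end Lin

section Adj

variable {σ X : Type} [Fintype σ] (Y : LG σ X)

/-- The adjacency matrix. -/
def adj : Matrix X X ℂ := fun x y => ∑ a : σ × Bool, if Y.step x a y then 1 else 0

/-- Inversion of letters. -/
def flip (σ : Type) : σ × Bool ≃ σ × Bool where
  toFun a := (a.1, !a.2)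
  invFun a := (a.1, !a.2)
  left_inv a := by simp
  right_inv a := by simp

theorem adj_herm : (adj Y).IsHermitian := by
  ext x y
  rw [Matrix.conjTranspose_apply, adj, adj, star_sum, ← Equiv.sum_comp (flip σ)]
  refine Finset.sum_congr rfl fun a _ => ?_
  have : Y.step y (flip σ a) x ↔ Y.step x a y := LG.step_inv
  by_cases h : Y.step x a y
  · rw [if_pos h, if_pos (this.2 h), star_one]
  · rw [if_neg h, if_neg (mt this.1 h), star_zero]

variable [Fintype X]

theorem adj_le (P : Finset X) (w : X → ℂ) (hw : ∀ x, x ∉ P → w x = 0) (c : ℝ)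
    (h : ∑ x ∈ P, ∑ a : σ × Bool, ∑ y ∈ P, (if Y.step x a y then ‖w x‖ * ‖w y‖ else 0) ≤
      c * ∑ x ∈ P, ‖w x‖ ^ 2) : ‖fm (adj Y) w w‖ ≤ c * nsq w := by
  have e1 : nsq w = ∑ x ∈ P, ‖w x‖ ^ 2 :=
    (Finset.sum_subset (Finset.subset_univ P) fun x _ hx => by simp [hw x hx]).symm
  have e2 : fm (adj Y) w w = ∑ x ∈ P, ∑ a : σ × Bool, ∑ y ∈ P,
      (if Y.step x a y then conj (w x) * w y else 0) := by
    unfold fm
    rw [← Finset.sum_subset (Finset.subset_univ P) fun x _ hx => by simp [hw x hx]]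
    refine Finset.sum_congr rfl fun x _ => ?_
    rw [← Finset.sum_subset (Finset.subset_univ P) fun y _ hy => by simp [hw y hy],
      Finset.sum_comm]
    refine Finset.sum_congr rfl fun y _ => ?_
    rw [adj, Finset.mul_sum, Finset.sum_mul]
    refine Finset.sum_congr rfl fun a _ => ?_
    split_ifs <;> simp
  rw [e1, e2]
  refine le_trans ?_ h
  refine (norm_sum_le _ _).trans (Finset.sum_le_sum fun x _ => ?_)
  refine (norm_sum_le _ _).trans (Finset.sum_le_sum fun a _ => ?_)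
  refine (norm_sum_le _ _).trans (Finset.sum_le_sum fun y _ => ?_)
  split_ifs <;> simp

end Adj

section Key

variable {G B X : Type} [Group G] [CStarAlgebra B] [Fintype X] [DecidableEq X]
  (ev : B →⋆ₐ[ℂ] Matrix X X ℂ) (f : X → G) (v : X → ℂ)

/-- The component of `β v` on the copy `γ` of the graph. -/
def Ph (γ : G) (β : MonoidAlgebra B G) : X → ℂ :=
  fun x => (ev (β.coeff ((f x)⁻¹ * γ)) *ᵥ v) x

theorem fm_ip (β : MonoidAlgebra B G) (s : Finset G)
    (hs : ∀ x, ∀ g ∈ β.coeff.support, f x * g ∈ s) :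
    fm (ev (ipB β)) v v = ((∑ γ ∈ s, nsq (Ph ev f v γ β) : ℝ) : ℂ) := by
  have e : fm (ev (ipB β)) v v = ((∑ g ∈ β.coeff.support, nsq (ev (β.coeff g) *ᵥ v) : ℝ) : ℂ) := by
    rw [Petz.fm_eq, ipB, map_sum, Matrix.sum_mulVec, dotProduct_sum, Complex.ofReal_sum]
    refine Finset.sum_congr rfl fun g _ => ?_
    rw [map_mul, map_star, Matrix.star_eq_conjTranspose, Petz.dot_mul]
  rw [e]
  congr 1
  unfold nsq
  rw [Finset.sum_comm, Finset.sum_comm (s := s)]
  refine Finset.sum_congr rfl fun x _ => ?_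
  refine Finset.sum_bij_ne_zero (fun g _ _ => f x * g) (fun g hg _ => hs x g hg)
    (fun g _ _ g' _ _ h => mul_left_cancel h) (fun γ _ h => ?_) (fun g _ _ => by simp [Ph])
  refine ⟨(f x)⁻¹ * γ, Finsupp.mem_support_iff.2 fun h0 => h (by simp [Ph, h0]), h, by simp⟩

variable {σ : Type} [Fintype σ]

/-- The test element in the group algebra. -/
def X0 (π : FreeGroup σ →* G) (ρ : σ × Bool → B) : MonoidAlgebra B G :=
  ∑ a, MonoidAlgebra.single (π (lt a)) (ρ a)

theorem Ph_mul (Y : LG σ X) (π : FreeGroup σ →* G) (ρ : σ × Bool → B)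
    (hf : ∀ x a y, Y.step x a y → f y = f x * π (lt a))
    (hρ : ∀ a x y, ev (ρ a) x y = if Y.step x a y then 1 else 0) (γ : G)
    (β : MonoidAlgebra B G) : Ph ev f v γ (X0 π ρ * β) = adj Y *ᵥ Ph ev f v γ β := by
  funext x
  have e : (adj Y *ᵥ Ph ev f v γ β) x =
      ∑ a : σ × Bool, ∑ y, if Y.step x a y then Ph ev f v γ β y else 0 := by
    rw [Finset.sum_comm]
    refine Finset.sum_congr rfl fun y _ => ?_
    simp only [adj, Finset.sum_mul]
    refine Finset.sum_congr rfl fun a _ => ?_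
    split_ifs <;> simp
  rw [e, Ph, X0, Finset.sum_mul, MonoidAlgebra.coeff_sum, Finsupp.finsetSum_apply, map_sum,
    Matrix.sum_mulVec, Finset.sum_apply]
  refine Finset.sum_congr rfl fun a _ => ?_
  rw [MonoidAlgebra.coeff_single_mul_apply, map_mul, ← Matrix.mulVec_mulVec]
  refine Finset.sum_congr rfl fun y _ => ?_
  simp only [hρ]
  split_ifs with h
  · rw [one_mul, Ph, hf x a y h, mul_inv_rev, mul_assoc]
  · rw [zero_mul]

/-- The group elements that are met by the first `n` powers of `t` applied to `β`. -/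
def FF (t β : MonoidAlgebra B G) (n : ℕ) : Finset G :=
  (Finset.range (n + 1)).biUnion fun k => (t ^ k * β).coeff.support

theorem key (Y : LG σ X) (π : FreeGroup σ →* G) (ρ : σ × Bool → B)
    (hf : ∀ x a y, Y.step x a y → f y = f x * π (lt a)) (hi : Function.Injective f)
    (hρ : ∀ a x y, ev (ρ a) x y = if Y.step x a y then 1 else 0) (β : MonoidAlgebra B G)
    (p : Polynomial ℝ) (lam θ : ℝ) (hθ : ∀ t ∈ Set.Icc (-lam) lam, |p.eval t| ≤ θ)
    (hl : ∀ P : Finset X, P.card ≤ (FF (X0 π ρ) β p.natDegree).card → ∀ w : X → ℂ,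
      (∀ x, x ∉ P → w x = 0) → ‖fm (adj Y) w w‖ ≤ lam * nsq w) :
    0 ≤ (fm (ev (((θ : ℂ) ^ 2) • ipB β - ipB (pev p (X0 π ρ) * β))) v v).re ∧
    (fm (ev (((θ : ℂ) ^ 2) • ipB β - ipB (pev p (X0 π ρ) * β))) v v).im = 0 := by
  set β' := pev p (X0 π ρ) * β with hβ'
  let s : Finset G := Finset.univ.biUnion fun x =>
    (β.coeff.support ∪ β'.coeff.support).image fun g => f x * g
  have hs : ∀ x, ∀ g ∈ β.coeff.support ∪ β'.coeff.support, f x * g ∈ s := fun x g hg =>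
    Finset.mem_biUnion.2 ⟨x, Finset.mem_univ _, Finset.mem_image_of_mem _ hg⟩
  have e : fm (ev (((θ : ℂ) ^ 2) • ipB β - ipB β')) v v =
      ((∑ γ ∈ s, (θ ^ 2 * nsq (Ph ev f v γ β) - nsq (Ph ev f v γ β')) : ℝ) : ℂ) := by
    rw [map_sub, map_smul, Petz.fm_eq, Matrix.sub_mulVec, Matrix.smul_mulVec, dotProduct_sub,
      dotProduct_smul, ← Petz.fm_eq, ← Petz.fm_eq,
      fm_ip ev f v β s fun x g hg => hs x g (Finset.mem_union_left _ hg),
      fm_ip ev f v β' s fun x g hg => hs x g (Finset.mem_union_right _ hg),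
      Finset.sum_sub_distrib, ← Finset.mul_sum, smul_eq_mul]
    push_cast
    rfl
  rw [e, Complex.ofReal_re, Complex.ofReal_im]
  refine ⟨Finset.sum_nonneg fun γ _ => sub_nonneg.2 ?_, rfl⟩
  have hs : ∀ b w, Ph ev f v γ b = w → Ph ev f v γ (X0 π ρ * b) = adj Y *ᵥ w :=
    fun b w h => h ▸ Ph_mul ev f v Y π ρ hf hρ γ b
  have h1 : Ph ev f v γ β' = pev p (adj Y) *ᵥ Ph ev f v γ β := by
    refine rel_pev (X0 π ρ) (adj Y) (fun b w => Ph ev f v γ b = w) ?_ ?_ hs p rfl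
    · rintro b _ b' _ rfl rfl
      funext x
      simp [Ph, Matrix.add_mulVec]
    · rintro c b _ rfl
      funext x
      simp [Ph, Matrix.smul_mulVec]
  let P : Finset X := Finset.univ.filter fun x => (f x)⁻¹ * γ ∈ FF (X0 π ρ) β p.natDegree
  have hc : P.card ≤ (FF (X0 π ρ) β p.natDegree).card :=
    Finset.card_le_card_of_injOn (fun x => (f x)⁻¹ * γ) (fun x hx => (Finset.mem_filter.1 hx).2)
      fun x _ y _ h => hi (inv_injective (mul_right_cancel h))
  rw [h1]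
  refine (mspec (adj Y) (adj_herm Y) P _ p.natDegree lam (fun k hk x hx => ?_) (hl P hc) p
    le_rfl).1 θ hθ
  rw [← rel_pow (X0 π ρ) (adj Y) (fun b w => Ph ev f v γ b = w) hs k rfl]
  have h0 : (X0 π ρ ^ k * β).coeff ((f x)⁻¹ * γ) = 0 := by
    by_contra h0
    exact hx (Finset.mem_filter.2 ⟨Finset.mem_univ _, Finset.mem_biUnion.2
      ⟨k, Finset.mem_range.2 (by omega), Finsupp.mem_support_iff.2 h0⟩⟩)
  simp [Ph, h0]

end Key

section Lam

variable {G A B C : Type} [Group G] [CStarAlgebra A] [PartialOrder A] [StarOrderedRing A]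
  [CStarAlgebra B] [CStarAlgebra C] (R : Reg G A)

/-- The map `lam` as an algebra homomorphism. -/
def lamH (B : Type) [CStarAlgebra B] : MonoidAlgebra B G →ₐ[ℂ] B ⊗[ℂ] A :=
  MonoidAlgebra.liftNCAlgHom Algebra.TensorProduct.includeLeft
    ((Algebra.TensorProduct.includeRight : A →ₐ[ℂ] B ⊗[ℂ] A).toMonoidHom.comp R.u)
    fun x y => by simp [Commute, SemiconjBy]

theorem lamH_single (g : G) (b : B) : lamH R B (MonoidAlgebra.single g b) = b ⊗ₜ[ℂ] R.u g := by
  simp [lamH]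

theorem lamH_eq (x : MonoidAlgebra B G) : R.lam x = lamH R B x := by
  conv_rhs => rw [← x.sum_coeff_single, Finsupp.sum, map_sum]
  exact Finset.sum_congr rfl fun g _ => (lamH_single R _ _).symm

variable {σ : Type} [Fintype σ] [DecidableEq σ] (π : FreeGroup σ →* G) (ρ : σ × Bool → B)

theorem lam_pev (p : Polynomial ℝ) : R.lam (pev p (X0 π ρ)) = pev p (R.tt π ρ) := by
  rw [lamH_eq, pev_hom, X0, map_sum]
  simp only [lamH_single]
  rfl

theorem rT_pev (q : B →⋆ₐ[ℂ] C) (p : Polynomial ℝ) :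
    LinearMap.rTensor A q.toAlgHom.toLinearMap (pev p (R.tt π ρ)) =
      pev p (R.tt π fun a => q (ρ a)) := by
  have h := pev_hom (Algebra.TensorProduct.map q.toAlgHom (AlgHom.id ℂ A)) p (R.tt π ρ)
  have e : Algebra.TensorProduct.map q.toAlgHom (AlgHom.id ℂ A) (R.tt π ρ) =
      R.tt π fun a => q (ρ a) := by
    unfold Reg.tt
    rw [map_sum]
    rfl
  rw [e] at h
  exact h

omit [Group G] in
theorem ip_eq (β : MonoidAlgebra B G) (s : Finset G) (hs : β.coeff.support ⊆ s) :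
    ipB β = ∑ v ∈ s, star (β.coeff v) * β.coeff v :=
  Finset.sum_subset hs fun v _ hv => by rw [Finsupp.notMem_support_iff.1 hv, mul_zero]

theorem ip_map (q : B →⋆ₐ[ℂ] C) (β : MonoidAlgebra B G) :
    ipB (MonoidAlgebra.mapAlgHom G q.toAlgHom β) = q (ipB β) := by
  rw [ip_eq _ β.coeff.support fun g hg => Finsupp.mem_support_iff.2 fun h =>
    Finsupp.mem_support_iff.1 hg (by rw [MonoidAlgebra.coeff_mapAlgHom, h, map_zero]), ipB,
    map_sum]
  refine Finset.sum_congr rfl fun g _ => ?_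
  rw [MonoidAlgebra.coeff_mapAlgHom, map_mul, map_star]
  rfl

end Lam

section Sub

variable {σ : Type} [Fintype σ] [DecidableEq σ] (T : Tiles σ) (i : T.ι)

/-- The tile of type `i` as a graph. -/
def sub : LG σ {x // x ∈ T.pts i} where
  rel x a y := T.Γ.rel x.1 a y.1
  func h h' := Subtype.ext (T.Γ.func h h')
  inj h h' := Subtype.ext (T.Γ.inj h h')

theorem sub_walk {L : List (σ × Bool)} {x y : {x // x ∈ T.pts i}} (h : (sub T i).Walk x L y) :
    T.Γ.Walk x.1 L y.1 := by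
  induction L generalizing x with
  | nil => exact congrArg Subtype.val h
  | cons a L ih =>
    obtain ⟨u, h1, h2⟩ := h
    exact ⟨u.1, h1, ih h2⟩

theorem sub_deg : (sub T i).Deg 16 := fun x => by
  obtain ⟨s, h1, h2⟩ := T.deg x.1
  exact ⟨s, h1, fun a y h => h2 a y.1 h⟩

variable {T} {G : Type} [Group G] (M : MG T G)

theorem f_step (x : {x // x ∈ T.pts i}) (a : σ × Bool) (y : {x // x ∈ T.pts i})
    (h : (sub T i).step x a y) : M.f y.1 = M.f x.1 * M.π (lt a) :=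
  M.f_rd _ _ _ (LG.rd_lt.2 h)

theorem f_inj : Function.Injective fun x : {x // x ∈ T.pts i} => M.f x.1 := fun x y h =>
  Subtype.ext (LG.rd_one.1 (M.conv x.1 y.1 1
    (((T.mem_pts _ _).1 x.2).trans ((T.mem_pts _ _).1 y.2).symm)
    (by rw [map_one, mul_one]; exact h.symm) (by simp)))

theorem adj16 (hF : ForestStmt) (P : Finset {x // x ∈ T.pts i}) (w : {x // x ∈ T.pts i} → ℂ)
    (hw : ∀ x, x ∉ P → w x = 0) : ‖fm (adj (sub T i)) w w‖ ≤ 16 * nsq w :=
  adj_le _ P w hw 16 (hF σ _ (sub T i) (sub_deg T i) P (fun x => ‖w x‖) fun _ => norm_nonneg _).1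

theorem adj8 (hF : ForestStmt) (P : Finset {x // x ∈ T.pts i}) (hP : P.card ≤ T.r i)
    (w : {x // x ∈ T.pts i} → ℂ) (hw : ∀ x, x ∉ P → w x = 0) :
    ‖fm (adj (sub T i)) w w‖ ≤ 8 * nsq w := by
  refine adj_le _ P w hw 8 ((hF σ _ (sub T i) (sub_deg T i) P (fun x => ‖w x‖)
    fun _ => norm_nonneg _).2 fun x _ g hg => ?_)
  refine (T.girth x.1 g (sub_walk T i hg)).imp_right fun h => ?_
  rw [(T.mem_pts _ _).1 x.2] at h
  have := Nat.lt_two_pow_self (n := T.r i)
  omega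

end Sub

section State

variable {G A B X : Type} [Group G] [CStarAlgebra A] [PartialOrder A] [StarOrderedRing A]
  [CStarAlgebra B] [Fintype X] [DecidableEq X] (R : Reg G A) (ev : B →⋆ₐ[ℂ] Matrix X X ℂ)
  (x₀ : X)

theorem co_one (g : G) : R.co 1 1 (R.u g) = if g = 1 then 1 else 0 := by
  rw [R.co_u, one_mul]
  simp only [eq_comm]

theorem co_herm (a : A) : R.co 1 1 (star a) = conj (R.co 1 1 a) := by
  have h1 := (R.co_pos (1 + a)).2
  have h2 := (R.co_pos (1 + Complex.I • a)).2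
  have h3 := (R.co_pos a).2
  have h4 : R.co 1 1 1 = 1 := by simpa using co_one R 1
  simp only [star_add, star_one, star_smul, add_mul, mul_add, one_mul, mul_one, map_add, h4,
    smul_mul_smul_comm, map_smul, Complex.add_im, Complex.one_im, smul_eq_mul, Complex.star_def,
    Complex.conj_I, Complex.mul_im, Complex.mul_re, Complex.neg_re, Complex.neg_im, Complex.I_re,
    Complex.I_im, h3] at h1 h2
  apply Complex.ext
  · rw [Complex.conj_re]; linarith
  · rw [Complex.conj_im]; linarith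

omit [DecidableEq X] in
theorem co_sum (f : X → G) (hi : Function.Injective f) (c c' : X → ℂ) :
    R.co 1 1 (star (∑ y, c y • R.u (f y)⁻¹) * ∑ y, c' y • R.u (f y)⁻¹) = ∑ y, conj (c y) * c' y := by
  rw [star_sum, Finset.sum_mul, map_sum]
  refine Finset.sum_congr rfl fun y _ => ?_
  rw [Finset.mul_sum, map_sum, Finset.sum_eq_single y]
  · rw [star_smul, R.u_star, smul_mul_smul_comm, ← map_mul, map_smul, co_one]
    simp
  · intro z _ hz
    rw [star_smul, R.u_star, smul_mul_smul_comm, ← map_mul, map_smul, co_one, if_neg, smul_zero]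
    rw [inv_inv, mul_inv_eq_one]
    exact fun h => hz (hi h).symm
  · simp

theorem norm_u (g : G) : ‖R.u g‖ ≤ 1 := by
  have h := CStarRing.norm_star_mul_self (x := R.u g)
  rw [R.u_star, ← map_mul, inv_mul_cancel, map_one] at h
  have h1 : ‖(1 : A)‖ * ‖(1 : A)‖ = ‖(1 : A)‖ := by
    simpa using (CStarRing.norm_star_mul_self (x := (1 : A))).symm
  nlinarith [norm_nonneg (R.u g), norm_nonneg (1 : A), sq_nonneg (‖(1 : A)‖ - 1)]

/-- A matrix entry as a functional. -/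
def ent (x y : X) : B →ₗ[ℂ] ℂ where
  toFun b := ev b x y
  map_add' b b' := by rw [map_add]; rfl
  map_smul' c b := by rw [map_smul]; rfl

theorem ent_mul (b b' : B) : ent ev x₀ x₀ (star b * b') = ∑ x, conj (ev b x x₀) * ev b' x x₀ := by
  change ev (star b * b') x₀ x₀ = _
  rw [map_mul, map_star, Matrix.mul_apply]
  rfl

theorem ent_state : IsState (ent ev x₀ x₀) := by
  refine ⟨by simp [ent], fun b => ?_⟩
  have h := Petz.dot_self fun x => ev b x x₀
  rw [ent_mul]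
  change ∑ x, conj (ev b x x₀) * ev b x x₀ = _ at h
  rw [h, Complex.ofReal_re, Complex.ofReal_im]
  exact ⟨Petz.nsq_nonneg _, rfl⟩

variable (A) in
/-- The slice `b ⊗ a ↦ b x x₀ • a`. -/
def LL (x : X) : B ⊗[ℂ] A →ₗ[ℂ] A :=
  (TensorProduct.lid ℂ A).toLinearMap ∘ₗ LinearMap.rTensor A (ent ev x x₀)

omit [PartialOrder A] [StarOrderedRing A] in
theorem LL_tmul (x : X) (b : B) (a : A) : LL A ev x₀ x (b ⊗ₜ[ℂ] a) = ev b x x₀ • a := rfl

omit [PartialOrder A] [StarOrderedRing A] in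
theorem LL_mul (x : X) (b : B) (a : A) (z : B ⊗[ℂ] A) :
    LL A ev x₀ x ((b ⊗ₜ[ℂ] a) * z) = ∑ y, ev b x y • (a * LL A ev x₀ y z) := by
  induction z using TensorProduct.induction_on with
  | zero => simp
  | tmul b' a' =>
    simp only [Algebra.TensorProduct.tmul_mul_tmul, LL_tmul, map_mul, Matrix.mul_apply,
      Finset.sum_smul, mul_smul_comm, smul_smul]
  | add z z' h h' => simp only [mul_add, map_add, h, h', smul_add, Finset.sum_add_distrib]

/-- The form of the product state. -/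
def DD (z z' : B ⊗[ℂ] A) : ℂ := prodFun (ent ev x₀ x₀) (R.co 1 1).toLinearMap (star z * z')

theorem DD_eq (z z' : B ⊗[ℂ] A) :
    DD R ev x₀ z z' = ∑ x, R.co 1 1 (star (LL A ev x₀ x z) * LL A ev x₀ x z') := by
  unfold DD
  induction z using TensorProduct.induction_on with
  | zero => simp
  | add z₁ z₂ h h' => simp only [star_add, add_mul, map_add, h, h', Finset.sum_add_distrib]
  | tmul b a =>
    induction z' using TensorProduct.induction_on with
    | zero => simp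
    | add z₁ z₂ h h' => simp only [mul_add, map_add, h, h', Finset.sum_add_distrib]
    | tmul b' a' =>
      rw [TensorProduct.star_tmul, Algebra.TensorProduct.tmul_mul_tmul]
      change ent ev x₀ x₀ (star b * b') • R.co 1 1 (star a * a') = _
      rw [ent_mul, Finset.sum_smul]
      refine Finset.sum_congr rfl fun x _ => ?_
      rw [LL_tmul, LL_tmul, star_smul, smul_mul_smul_comm, map_smul]
      rfl

theorem DD_cs (z z' : B ⊗[ℂ] A) :
    ‖DD R ev x₀ z z'‖ ^ 2 ≤ (DD R ev x₀ z z).re * (DD R ev x₀ z' z').re := by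
  refine Petz.cs (DD R ev x₀) (fun y y' => ?_) (fun y => ?_) (fun y y' y'' => ?_)
    (fun y y' c => ?_) z z'
  · rw [DD_eq, DD_eq, map_sum]
    refine Finset.sum_congr rfl fun x _ => ?_
    rw [← co_herm, star_mul, star_star]
  · rw [DD_eq, Complex.re_sum]
    exact Finset.sum_nonneg fun x _ => (R.co_pos _).1
  · simp only [DD, star_add, add_mul, map_add]
  · simp only [DD, star_smul, smul_mul_assoc, map_smul, smul_eq_mul, Complex.star_def]

variable {f : X → G} {w : X → ℂ} {ξ : B ⊗[ℂ] A}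

theorem DD_vec (hξ : ∀ x, LL A ev x₀ x ξ = w x • R.u (f x)⁻¹) {w' : X → ℂ} {ξ' : B ⊗[ℂ] A}
    (hξ' : ∀ x, LL A ev x₀ x ξ' = w' x • R.u (f x)⁻¹) : DD R ev x₀ ξ ξ' = star w ⬝ᵥ w' := by
  rw [DD_eq]
  refine Finset.sum_congr rfl fun x _ => ?_
  rw [hξ, hξ', star_smul, R.u_star, smul_mul_smul_comm, ← map_mul, map_smul, co_one]
  simp

theorem DD_min (hξ : ∀ x, LL A ev x₀ x ξ = w x • R.u (f x)⁻¹) (hw : nsq w = 1) (z : B ⊗[ℂ] A) :
    ENNReal.ofReal ‖DD R ev x₀ ξ (z * ξ)‖ ≤ minNorm z := by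
  have h1 : (DD R ev x₀ ξ ξ).re = 1 := by
    rw [DD_vec R ev x₀ hξ hξ, Petz.dot_self, hw]; rfl
  have h2 := DD_cs R ev x₀ ξ (z * ξ)
  rw [h1, one_mul] at h2
  have h4 : R.co 1 1 1 = 1 := by simpa using co_one R 1
  refine le_iSup₂_of_le (ent ev x₀ x₀) (ent_state ev x₀) (le_iSup₂_of_le (R.co 1 1).toLinearMap
    ⟨h4, R.co_pos⟩ (le_iSup₂_of_le ξ h1.le (ENNReal.ofReal_le_ofReal ?_)))
  exact Real.le_sqrt_of_sq_le h2

theorem DD_tmul (hi : Function.Injective f) (hξ : ∀ x, LL A ev x₀ x ξ = w x • R.u (f x)⁻¹)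
    (hw : nsq w = 1) (b : B) (a : A) (ε : ℝ) (hb : Bd (ev b) ε) :
    ‖DD R ev x₀ ξ ((b ⊗ₜ[ℂ] a) * ξ)‖ ^ 2 ≤ ε ^ 2 * (‖R.co 1 1‖ * ‖a‖ ^ 2) := by
  have e : DD R ev x₀ ξ ((b ⊗ₜ[ℂ] a) * ξ) =
      DD R ev x₀ ((star b ⊗ₜ[ℂ] 1) * ξ) ((1 ⊗ₜ[ℂ] a) * ξ) := by
    unfold DD
    rw [star_mul, TensorProduct.star_tmul, star_star, star_one, mul_assoc, ← mul_assoc (b ⊗ₜ 1),
      Algebra.TensorProduct.tmul_mul_tmul, mul_one, one_mul]
  have h1 : (DD R ev x₀ ((star b ⊗ₜ[ℂ] 1) * ξ) ((star b ⊗ₜ[ℂ] 1) * ξ)).re ≤ ε ^ 2 := by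
    rw [DD_eq]
    simp only [LL_mul, one_mul, hξ, smul_smul, co_sum R f hi, Complex.conj_mul',
      ← Complex.ofReal_pow, ← Complex.ofReal_sum, Complex.ofReal_re]
    rw [Finset.sum_comm, ← mul_one (ε ^ 2), ← hw, nsq, Finset.mul_sum]
    refine Finset.sum_le_sum fun y _ => ?_
    simp only [norm_mul, mul_pow]
    rw [← Finset.sum_mul]
    refine mul_le_mul_of_nonneg_right ?_ (by positivity)
    have h := Petz.bd_nsq (Petz.bd_ct hb) (Pi.single y 1)
    have e1 : nsq (Pi.single y (1 : ℂ) : X → ℂ) = 1 := by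
      unfold nsq
      rw [Finset.sum_eq_single y] <;> simp +contextual
    rw [e1, mul_one, Matrix.mulVec_single_one] at h
    rw [map_star]
    exact h
  have h2 : (DD R ev x₀ ((1 ⊗ₜ[ℂ] a) * ξ) ((1 ⊗ₜ[ℂ] a) * ξ)).re ≤ ‖R.co 1 1‖ * ‖a‖ ^ 2 := by
    rw [DD_eq, Complex.re_sum, ← mul_one (_ * ‖a‖ ^ 2), ← hw, nsq, Finset.mul_sum]
    refine Finset.sum_le_sum fun x _ => (Complex.re_le_norm _).trans
      (((R.co 1 1).le_opNorm _).trans ?_)
    rw [CStarRing.norm_star_mul_self, mul_assoc, ← sq, ← mul_pow]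
    refine mul_le_mul_of_nonneg_left (pow_le_pow_left₀ (norm_nonneg _) ?_ 2) (norm_nonneg _)
    rw [LL_mul, Finset.sum_eq_single x, map_one, Matrix.one_apply_eq, one_smul, hξ]
    · refine (norm_mul_le _ _).trans (mul_le_mul_of_nonneg_left ?_ (norm_nonneg _))
      rw [norm_smul]
      exact mul_le_of_le_one_right (norm_nonneg _) (norm_u R _)
    · intro y _ hy
      rw [map_one, Matrix.one_apply_ne hy.symm, zero_smul]
    · simp
  rw [e]
  refine (DD_cs R ev x₀ _ _).trans (mul_le_mul h1 h2 ?_ (sq_nonneg _))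
  rw [DD_eq, Complex.re_sum]
  exact Finset.sum_nonneg fun x _ => (R.co_pos _).1

theorem exists_xi (hE : ∀ x, ∃ b, ev b = Matrix.single x x₀ 1) (f : X → G) (w : X → ℂ) :
    ∃ ξ : B ⊗[ℂ] A, ∀ x, LL A ev x₀ x ξ = w x • R.u (f x)⁻¹ := by
  choose E hE using hE
  refine ⟨∑ y, E y ⊗ₜ[ℂ] (w y • R.u (f y)⁻¹), fun x => ?_⟩
  rw [map_sum, Finset.sum_eq_single x]
  · rw [LL_tmul, hE, Matrix.single_apply_same, one_smul]
  · intro y _ hy
    rw [LL_tmul, hE, Matrix.single_apply_of_row_ne hy, zero_smul]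
  · simp

theorem DD_pev {σ : Type} [Fintype σ] [DecidableEq σ] (Y : LG σ X) (π : FreeGroup σ →* G)
    (ρ : σ × Bool → B) (hf : ∀ x a y, Y.step x a y → f y = f x * π (lt a))
    (hρ : ∀ a x y, ev (ρ a) x y = if Y.step x a y then 1 else 0)
    (hξ : ∀ x, LL A ev x₀ x ξ = w x • R.u (f x)⁻¹) (p : Polynomial ℝ) :
    DD R ev x₀ ξ (pev p (R.tt π ρ) * ξ) = star w ⬝ᵥ (pev p (adj Y) *ᵥ w) := by
  refine DD_vec R ev x₀ hξ (rel_pev (R.tt π ρ) (adj Y)
    (fun z v => ∀ x, LL A ev x₀ x z = v x • R.u (f x)⁻¹) ?_ ?_ ?_ p hξ)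
  · intro z v z' v' h h' x
    rw [map_add, h, h', Pi.add_apply, add_smul]
  · intro c z v h x
    rw [map_smul, h, smul_smul]; rfl
  · intro z v h x
    rw [Reg.tt, Finset.sum_mul, map_sum]
    simp only [LL_mul, h, hρ, Matrix.mulVec, dotProduct, adj, Finset.sum_mul, Finset.sum_smul]
    rw [Finset.sum_comm]
    refine Finset.sum_congr rfl fun y _ => Finset.sum_congr rfl fun a _ => ?_
    split_ifs with h
    · rw [one_smul, one_mul, mul_smul_comm, ← map_mul, hf x a y h, mul_inv_rev,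
        mul_inv_cancel_left]
    · rw [zero_smul, zero_mul, zero_smul]

end State

section Fin

variable {σ X : Type} [Fintype σ] [Fintype X]

omit [Fintype σ] in
theorem bd_step (Y : LG σ X) (a : σ × Bool) :
    Bd (fun x y => if Y.step x a y then (1 : ℂ) else 0) 1 := by
  intro v w
  let P : Finset (X × X) := Finset.univ.filter fun p => Y.step p.1 a p.2
  have e : fm (fun x y => if Y.step x a y then (1 : ℂ) else 0) v w =
      ∑ p ∈ P, conj (v p.1) * w p.2 := by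
    rw [Finset.sum_filter, Fintype.sum_prod_type]
    refine Finset.sum_congr rfl fun x _ => Finset.sum_congr rfl fun y _ => ?_
    simp only []
    split_ifs <;> simp
  have h1 : ∑ p ∈ P, ‖v p.1‖ ^ 2 ≤ nsq v := by
    rw [← Finset.sum_image (f := fun x => ‖v x‖ ^ 2) (g := Prod.fst) fun p hp q hq h => Prod.ext h
      (LG.step_func (Finset.mem_filter.1 hp).2 (h ▸ (Finset.mem_filter.1 hq).2))]
    exact Finset.sum_le_univ_sum_of_nonneg fun _ => by positivity
  have h2 : ∑ p ∈ P, ‖w p.2‖ ^ 2 ≤ nsq w := by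
    rw [← Finset.sum_image (f := fun x => ‖w x‖ ^ 2) (g := Prod.snd) fun p hp q hq h => Prod.ext
      (LG.step_func (LG.step_inv.2 (Finset.mem_filter.1 hp).2)
        (h ▸ LG.step_inv.2 (Finset.mem_filter.1 hq).2)) h]
    exact Finset.sum_le_univ_sum_of_nonneg fun _ => by positivity
  rw [e, one_mul]
  refine (norm_sum_le _ _).trans ?_
  simp only [norm_mul, Complex.norm_conj]
  exact (Real.sum_mul_le_sqrt_mul_sqrt P _ _).trans
    (mul_le_mul (Real.sqrt_le_sqrt h1) (Real.sqrt_le_sqrt h2) (Real.sqrt_nonneg _)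
      (Real.sqrt_nonneg _))

theorem bd_single [DecidableEq X] (x y : X) : Bd (Matrix.single x y (1 : ℂ)) 1 := by
  intro v w
  have e : fm (Matrix.single x y (1 : ℂ)) v w = conj (v x) * w y := by
    rw [Petz.fm_eq, Matrix.single_mulVec, one_mul, dotProduct, Finset.sum_eq_single x]
    · simp
    · intro z _ hz
      rw [Function.update_of_ne hz, Pi.zero_apply, mul_zero]
    · simp
  have h : ∀ (u : X → ℂ) (z : X), ‖u z‖ ≤ √(nsq u) := fun u z => Real.le_sqrt_of_sq_le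
    (Finset.single_le_sum (f := fun i => ‖u i‖ ^ 2) (fun _ _ => by positivity) (Finset.mem_univ z))
  rw [e, one_mul, norm_mul, Complex.norm_conj]
  exact mul_le_mul (h v x) (h w y) (norm_nonneg _) (Real.sqrt_nonneg _)

theorem exists_w [Nonempty X] (Y : LG σ X) (h : 9 * Fintype.card X ≤
      (Finset.univ.filter fun p : X × (σ × Bool) => ∃ y, Y.step p.1 p.2 y).card) :
    ∃ w : X → ℂ, nsq w = 1 ∧ 9 ≤ (star w ⬝ᵥ (adj Y *ᵥ w)).re := by
  have hc : (0 : ℝ) < Fintype.card X := Nat.cast_pos.2 Fintype.card_pos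
  set c : ℝ := √(Fintype.card X : ℝ)⁻¹ with hcd
  have hc2 : c * c = (Fintype.card X : ℝ)⁻¹ := Real.mul_self_sqrt (by positivity)
  refine ⟨fun _ => c, ?_, ?_⟩
  · simp only [nsq, Complex.norm_real, Real.norm_eq_abs, sq_abs, Finset.sum_const,
      Finset.card_univ, nsmul_eq_mul]
    rw [sq, hc2, mul_inv_cancel₀ hc.ne']
  · have e : star (fun _ : X => (c : ℂ)) ⬝ᵥ (adj Y *ᵥ fun _ => (c : ℂ)) = ((c * c *
        ∑ p : X × (σ × Bool), ∑ y, (if Y.step p.1 p.2 y then 1 else 0) : ℝ) : ℂ) := by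
      rw [Fintype.sum_prod_type, Finset.mul_sum, Complex.ofReal_sum]
      refine Finset.sum_congr rfl fun x _ => ?_
      simp only [Pi.star_apply, Complex.star_def, Complex.conj_ofReal, Matrix.mulVec, dotProduct,
        adj, ← Finset.sum_mul]
      rw [Finset.sum_comm]
      push_cast [apply_ite Complex.ofReal]
      ring
    rw [e, Complex.ofReal_re, hc2, ← div_eq_inv_mul, le_div_iff₀ hc]
    have h' : (9 : ℝ) * Fintype.card X ≤
      (Finset.univ.filter fun p : X × (σ × Bool) => ∃ y, Y.step p.1 p.2 y).card := by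
      exact_mod_cast h
    refine h'.trans ?_
    rw [Finset.card_filter]
    push_cast
    refine Finset.sum_le_sum fun p _ => ?_
    split_ifs with hp
    · obtain ⟨y, hy⟩ := hp
      refine le_trans ?_ (Finset.single_le_sum
        (f := fun y => if Y.step p.1 p.2 y then (1 : ℝ) else 0) (fun _ _ => by positivity)
        (Finset.mem_univ y))
      rw [if_pos hy]
    · positivity

theorem low [DecidableEq X] (N : Matrix X X ℂ) (hN : N.IsHermitian) (w : X → ℂ)
    (hl : ∀ w : X → ℂ, ‖fm N w w‖ ≤ 16 * nsq w) (hw : nsq w = 1)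
    (h9 : 9 ≤ (star w ⬝ᵥ (N *ᵥ w)).re) (p : Polynomial ℝ) (δ : ℝ)
    (hp : ∀ t ∈ Set.Icc (-16 : ℝ) 16, t - 8 - δ ≤ p.eval t) :
    1 - δ ≤ (star w ⬝ᵥ (pev p N *ᵥ w)).re := by
  have h := (mspec N hN Finset.univ w _ 16 (fun _ _ x hx => absurd (Finset.mem_univ x) hx)
    (fun w _ => hl w) (p - Polynomial.X + Polynomial.C (8 + δ)) le_rfl).2 fun t ht => by
      have := hp t ht
      simp only [Polynomial.eval_add, Polynomial.eval_sub, Polynomial.eval_X, Polynomial.eval_C]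
      linarith
  have e : pev (p - Polynomial.X + Polynomial.C (8 + δ)) N = pev p N - N + ((8 + δ : ℝ) : ℂ) • 1 := by
    simp only [pev, Polynomial.map_add, Polynomial.map_sub, Polynomial.map_X, Polynomial.map_C,
      map_add, map_sub, Polynomial.aeval_X, Polynomial.aeval_C, Algebra.algebraMap_eq_smul_one]
    simp [add_smul]
  rw [e, Matrix.add_mulVec, Matrix.sub_mulVec, Matrix.smul_mulVec, Matrix.one_mulVec,
    dotProduct_add, dotProduct_sub, dotProduct_smul, Petz.dot_self, hw, smul_eq_mul,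
    Complex.ofReal_one, mul_one, Complex.add_re, Complex.sub_re, Complex.ofReal_re] at h
  linarith

end Fin

end NexM

open NexM in
theorem nex1 (hU : UbStmt) (hF : ForestStmt) : Nex1Stmt := by
  intro σ _ _ T G _ M A _ _ _ R i hi B C _ _ Qu ρ hρ p θ hθ
  refine ⟨fun h => ?_, fun h => ?_⟩
  · rw [← lam_pev]
    refine hU G A R B _ θ hθ fun β => Qu.pos _ fun n v => ?_
    exact key (Qu.ev n) (fun x => M.f x.1) v (sub T (i n)) M.π ρ (f_step _ M) (f_inj _ M) (hρ n)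
      β p 16 θ h fun P _ => adj16 _ hF P
  · rw [rT_pev, ← lam_pev]
    refine hU G A R C _ θ hθ fun β' => ?_
    obtain ⟨β, rfl⟩ : ∃ β, MonoidAlgebra.mapAlgHom G Qu.q.toAlgHom β = β' :=
      MonoidAlgebra.map_surjective (M := G) (Qu.q.toAlgHom : B →+ C) Qu.surj β'
    have e : X0 M.π (fun a => Qu.q (ρ a)) = MonoidAlgebra.mapAlgHom G Qu.q.toAlgHom (X0 M.π ρ) := by
      unfold X0
      rw [map_sum]
      exact Finset.sum_congr rfl fun a _ => (MonoidAlgebra.mapAlgHom_single _ _ _).symm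
    rw [e, ← pev_hom, ← map_mul, ip_map, ip_map, ← map_smul, ← map_sub]
    refine Qu.qpos _ ?_
    filter_upwards [eventually_ge_atTop (FF (X0 M.π ρ) β p.natDegree).card] with n hn v
    exact key (Qu.ev n) (fun x => M.f x.1) v (sub T (i n)) M.π ρ (f_step _ M) (f_inj _ M) (hρ n)
      β p 8 θ h fun P hP => adj8 _ hF P (hP.trans (hn.trans (hi n)))

open NexM in
theorem nex (hQ : QuotStmt) (h1 : Nex1Stmt) (hF : ForestStmt) : NexStmt := by
  intro σ _ _ T G _ M A _ _ _ R hex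
  choose i hi hne hbig using T.big
  have hX : ∀ n, Nonempty {x // x ∈ T.pts (i n)} := fun n => (hne n).to_subtype
  obtain ⟨B, C, _, _, ⟨Qu⟩⟩ := hQ fun n => {x // x ∈ T.pts (i n)}
  choose ρ hρ using fun a : σ × Bool => Qu.ex
    (fun n x y => if (sub T (i n)).step x a y then 1 else 0) 1 fun n => bd_step _ a
  have hρ' : ∀ n a x y, Qu.ev n (ρ a) x y = if (sub T (i n)).step x a y then 1 else 0 :=
    fun n a x y => by rw [hρ]
  have hN := h1 σ T G M A R i hi B C Qu ρ hρ'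
  choose p hp using fun n : ℕ => exists_polynomial_near_of_continuousOn (-16) 16
    (fun t => max (t - 8) 0) (by fun_prop) (1 / ((n : ℝ) + 1)) (by positivity)
  have hlim : Tendsto (fun n : ℕ => ENNReal.ofReal (1 / ((n : ℝ) + 1))) atTop (𝓝 0) := by
    simpa using ENNReal.tendsto_ofReal tendsto_one_div_add_atTop_nhds_zero_nat
  obtain ⟨y, hy, N, hyN⟩ := hex B C Qu.q Qu.surj (fun n => pev (p n) (R.tt M.π ρ))
    (fun ε hε => by
      have h2 : Tendsto (fun n : ℕ => ENNReal.ofReal (2 * (1 / ((n : ℝ) + 1)))) atTop (𝓝 0) := by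
        simpa using ENNReal.tendsto_ofReal
          (tendsto_one_div_add_atTop_nhds_zero_nat.const_mul (2 : ℝ))
      obtain ⟨N, hN'⟩ := (h2.eventually (gt_mem_nhds hε)).exists
      refine ⟨N, fun m hm n hn => lt_of_le_of_lt ?_ hN'⟩
      have e : pev (p m) (R.tt M.π ρ) - pev (p n) (R.tt M.π ρ) = pev (p m - p n) (R.tt M.π ρ) := by
        simp only [pev, Polynomial.map_sub, map_sub]
      rw [e]
      refine (hN _ _ (by positivity)).1 fun t ht => ?_
      have a1 := abs_lt.1 (hp m t ht)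
      have a2 := abs_lt.1 (hp n t ht)
      have b1 : 1 / ((m : ℝ) + 1) ≤ 1 / ((N : ℝ) + 1) := Nat.one_div_le_one_div hm
      have b2 : 1 / ((n : ℝ) + 1) ≤ 1 / ((N : ℝ) + 1) := Nat.one_div_le_one_div hn
      rw [Polynomial.eval_sub, abs_le]
      constructor <;> linarith [a1.1, a1.2, a2.1, a2.2])
    (tendsto_of_tendsto_of_tendsto_of_le_of_le tendsto_const_nhds hlim (fun _ => zero_le)
      fun n => (hN _ _ (by positivity)).2 fun t ht => by
        have := hp n t ⟨by linarith [ht.1], by linarith [ht.2]⟩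
        rw [max_eq_right (by linarith [ht.2]), sub_zero] at this
        exact this.le)
    (ENNReal.ofReal (1 / 4)) (by simp)
  choose w hw h9 using fun m => exists_w (sub T (i m)) (by
    rw [Fintype.card_coe]
    refine (hbig m).trans (Finset.card_le_card_of_surjOn (fun q => (q.1.1, q.2)) fun q hq => ?_)
    obtain ⟨h2, z, hz⟩ := Finset.mem_filter.1 hq
    have h3 := (Finset.mem_product.1 h2).1
    have h4 : z ∈ T.pts (i m) := (T.mem_pts _ _).2
      (((T.conn _ _).2 ⟨_, LG.rd_lt.2 hz⟩).symm.trans ((T.mem_pts _ _).1 h3))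
    exact ⟨(⟨q.1, h3⟩, q.2), Finset.mem_filter.2 ⟨Finset.mem_univ _, ⟨z, h4⟩, hz⟩, rfl⟩)
  let x₀ := fun m => (hX m).some
  choose ξ hξ using fun m => exists_xi R (Qu.ev m) (x₀ m) (fun x => by
    obtain ⟨b, hb⟩ := Qu.ex (Function.update 0 m (Matrix.single x (x₀ m) 1)) 1 fun n => by
      by_cases h : n = m
      · subst h
        rw [Function.update_self]
        exact bd_single _ _
      · rw [Function.update_of_ne h]
        intro v v'
        simp only [fm, Pi.zero_apply, Matrix.zero_apply, mul_zero, zero_mul, Finset.sum_const_zero,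
          norm_zero]
        positivity
    exact ⟨b, by rw [hb, Function.update_self]⟩) (fun x => M.f x.1) (w m)
  have hy0 : Tendsto (fun m => DD R (Qu.ev m) (x₀ m) (ξ m) (y * ξ m)) atTop (𝓝 0) := by
    clear hyN
    induction hy using Submodule.span_induction with
    | zero => simp [DD]
    | add z z' _ _ h h' => simpa [DD, add_mul, mul_add] using h.add h'
    | smul c z _ h => simpa [DD] using h.const_mul c
    | mem z hz =>
      obtain ⟨b, a, hb, rfl⟩ := hz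
      rw [NormedAddGroup.tendsto_nhds_zero]
      intro ε hε
      set K := ‖R.co 1 1‖ * ‖a‖ ^ 2 with hK
      have hK0 : 0 ≤ K := by positivity
      filter_upwards [Qu.ker b hb (ε / (K + 1)) (by positivity)] with m hm
      have h3 := DD_tmul R (Qu.ev m) (x₀ m) (f_inj _ M) (hξ m) (hw m) b a _ hm
      refine lt_of_pow_lt_pow_left₀ 2 hε.le (h3.trans_lt ?_)
      rw [div_pow, div_mul_eq_mul_div, div_lt_iff₀ (by positivity)]
      exact mul_lt_mul_of_pos_left (by nlinarith) (by positivity)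
  obtain ⟨m, hm⟩ := ((NormedAddGroup.tendsto_nhds_zero.1 hy0) (1 / 4) (by norm_num)).exists
  set n := max N 3 with hn
  have h2 := (DD_min R (Qu.ev m) (x₀ m) (hξ m) (hw m) _).trans_lt (hyN n (le_max_left _ _))
  rw [ENNReal.ofReal_lt_ofReal_iff (by norm_num)] at h2
  have h3 := low (adj (sub T (i m))) (adj_herm _) (w m)
    (fun v => adj16 _ hF Finset.univ v fun x hx => absurd (Finset.mem_univ x) hx) (hw m) (h9 m)
    (p n) (1 / ((n : ℝ) + 1)) fun t ht => by
      have := (abs_lt.1 (hp n t ht)).1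
      linarith [le_max_left (t - 8) 0]
  rw [← DD_pev R (Qu.ev m) (x₀ m) (sub T (i m)) M.π ρ (f_step _ M) (hρ' m) (hξ m)] at h3
  have h4 : 1 / ((n : ℝ) + 1) ≤ 1 / ((3 : ℕ) + 1) := Nat.one_div_le_one_div (le_max_right _ _)
  have e : DD R (Qu.ev m) (x₀ m) (ξ m) (pev (p n) (R.tt M.π ρ) * ξ m) =
      DD R (Qu.ev m) (x₀ m) (ξ m) ((pev (p n) (R.tt M.π ρ) - y) * ξ m) +
        DD R (Qu.ev m) (x₀ m) (ξ m) (y * ξ m) := by
    simp only [DD, sub_mul, mul_sub, map_sub, sub_add_cancel]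
  have h5 := (h3.trans (Complex.re_le_norm _)).trans (e ▸ norm_add_le _ _)
  norm_num at h4
  norm_num at h5
  linarith

end Pool.Agent.MP_88ca14_an

end
end MrgPart3

-- marker of a merged file
example : 731051 + 244103 = 731051 + 244103 := rfl
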