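import Mathlib.RingTheory.Finiteness.ModuleFinitePresentation
import Mathlib.Analysis.CStarAlgebra.CompletelyPositiveMap
import Mathlib.Analysis.CStarAlgebra.Hom
import Mathlib.Analysis.CStarAlgebra.lpSpace
import Mathlib.Analysis.InnerProductSpace.l2Space
import Mathlib.Analysis.InnerProductSpace.StarOrder
import Mathlib.Analysis.Normed.Group.Completeness
import Mathlib.RingTheory.TotallySplit
import Mathlib.RingTheory.Etale.Weakly
import Pool.Agent.MP_88ca14_an.Nex
import Pool.Agent.MP_88ca14_an.Graph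

-- ======== part 0: formerly Pool.Agent.MP_88ca14_an.Am
section MrgPart0

/-!
PROJECT LRX, module AM: vectors with approximately amenable support are good.
-/

set_option autoImplicit false
set_option maxSynthPendingDepth 3

noncomputable section

namespace Pool.Agent.MP_88ca14_an

open Filter Topology Petz
open scoped Classical ComplexConjugate ComplexOrder Matrix

namespace AmM

section Mat

variable {m n : Type} [Fintype m] [Fintype n]

theorem norm_le_sqrt (v : m → ℂ) (s : m) : ‖v s‖ ≤ √(nsq v) :=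
  Real.le_sqrt_of_sq_le
    (Finset.single_le_sum (f := fun i => ‖v i‖ ^ 2) (fun _ _ => by positivity) (Finset.mem_univ s))

theorem bd_sum (M : m → n → ℂ) : Bd M (∑ s, ∑ t, ‖M s t‖) := by
  intro v w
  unfold fm
  rw [Finset.sum_mul, Finset.sum_mul]
  refine (norm_sum_le _ _).trans (Finset.sum_le_sum fun s _ => ?_)
  rw [Finset.sum_mul, Finset.sum_mul]
  refine (norm_sum_le _ _).trans (Finset.sum_le_sum fun t _ => ?_)
  rw [norm_mul, norm_mul, Complex.norm_conj, mul_comm ‖v s‖]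
  have h1 := norm_le_sqrt v s
  have h2 := norm_le_sqrt w t
  gcongr

theorem bd_mono {M : m → n → ℂ} {c c' : ℝ} (h : Bd M c) (hc : c ≤ c') : Bd M c' := fun v w =>
  (h v w).trans (by gcongr)

theorem nsq_star (v : m → ℂ) : nsq (star v) = nsq v := by simp [nsq]

theorem bd_tr {M : m → n → ℂ} {c : ℝ} (h : Bd M c) : Bd (fun t s => M s t) c := by
  intro v w
  have e : fm (fun t s => M s t) v w = fm M (star w) (star v) := by
    unfold fm
    rw [Finset.sum_comm]
    refine Finset.sum_congr rfl fun s _ => Finset.sum_congr rfl fun t _ => ?_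
    simp only [Pi.star_apply, Complex.star_def, Complex.conj_conj]
    ring
  have := h (star w) (star v)
  rw [nsq_star, nsq_star] at this
  rw [e, mul_right_comm]
  exact this

theorem nsq_single [DecidableEq m] (s : m) : nsq (Pi.single s (1 : ℂ) : m → ℂ) = 1 := by
  unfold nsq
  rw [Finset.sum_eq_single s (fun t _ ht => by simp [Pi.single_eq_of_ne ht]) (by simp)]
  simp

theorem fm_single [DecidableEq m] [DecidableEq n] (M : m → n → ℂ) (s : m) (t : n) :
    fm M (Pi.single s 1) (Pi.single t 1) = M s t := by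
  unfold fm
  rw [Finset.sum_eq_single s (fun t _ ht => by simp [Pi.single_eq_of_ne ht]) (by simp),
    Finset.sum_eq_single t (fun t _ ht => by simp [Pi.single_eq_of_ne ht]) (by simp)]
  simp

theorem bd_entry {M : m → n → ℂ} {c : ℝ} (h : Bd M c) (s : m) (t : n) : ‖M s t‖ ≤ c := by
  have := h (Pi.single s 1) (Pi.single t 1)
  rwa [fm_single, nsq_single, nsq_single, Real.sqrt_one, mul_one, mul_one] at this

theorem fm_one [DecidableEq m] (v : m → ℂ) : fm (1 : Matrix m m ℂ) v v = (nsq v : ℂ) := by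
  rw [fm_eq, Matrix.one_mulVec, dot_self]

theorem bd_one [DecidableEq m] : Bd (1 : Matrix m m ℂ) 1 := by
  intro v w
  have h := cs (V := m → ℂ) (fun v w => fm (1 : Matrix m m ℂ) v w)
    (fun x y => by
      simp only [fm_eq, Matrix.one_mulVec, dotProduct, map_sum, map_mul, Pi.star_apply,
        Complex.star_def, Complex.conj_conj, mul_comm])
    (fun x => by rw [fm_one, Complex.ofReal_re]; exact nsq_nonneg x)
    (fun x y z => by simp only [fm_eq, star_add, add_dotProduct])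
    (fun x y r => by simp only [fm_eq, star_smul, smul_dotProduct, smul_eq_mul, Complex.star_def])
    v w
  simp only [fm_one, Complex.ofReal_re] at h
  rw [one_mul, ← Real.sqrt_mul (nsq_nonneg v)]
  exact Real.le_sqrt_of_sq_le h

theorem psd_of_bd [DecidableEq m] {E : Matrix m m ℂ} (hE : E.IsHermitian) {δ : ℝ} (h : Bd E δ) :
    ((δ : ℂ) • (1 : Matrix m m ℂ) - E).PosSemidef := by
  have hH : ((δ : ℂ) • (1 : Matrix m m ℂ) - E).IsHermitian := by
    unfold Matrix.IsHermitian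
    rw [Matrix.conjTranspose_sub, Matrix.conjTranspose_smul, Matrix.conjTranspose_one, hE.eq,
      Complex.star_def, Complex.conj_ofReal]
  refine Matrix.PosSemidef.of_dotProduct_mulVec_nonneg hH fun v => ?_
  rw [Complex.nonneg_iff]
  refine ⟨?_, (hH.im_star_dotProduct_mulVec_self v).symm⟩
  have h1 := h v v
  rw [mul_assoc, Real.mul_self_sqrt (nsq_nonneg v), fm_eq] at h1
  rw [Matrix.sub_mulVec, dotProduct_sub, Matrix.smul_mulVec, Matrix.one_mulVec,
    dotProduct_smul, dot_self, smul_eq_mul, ← Complex.ofReal_mul, Complex.sub_re,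
    Complex.ofReal_re]
  linarith [Complex.re_le_norm (star v ⬝ᵥ E *ᵥ v)]

theorem fm_tendsto {f : ℕ → m → n → ℂ} {M : m → n → ℂ} {l : Filter ℕ}
    (h : ∀ s t, Tendsto (fun i => f i s t) l (𝓝 (M s t))) (v : m → ℂ) (w : n → ℂ) :
    Tendsto (fun i => fm (f i) v w) l (𝓝 (fm M v w)) :=
  tendsto_finsetSum _ fun s _ => tendsto_finsetSum _ fun t _ =>
    ((h s t).const_mul _).mul_const _

theorem sum_sqrt_le {ι : Type} (s : Finset ι) (a b : ι → ℝ) (ha : ∀ i, 0 ≤ a i)
    (hb : ∀ i, 0 ≤ b i) : ∑ i ∈ s, √(a i) * √(b i) ≤ √(∑ i ∈ s, a i) * √(∑ i ∈ s, b i) := by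
  have := Real.sum_mul_le_sqrt_mul_sqrt s (fun i => √(a i)) fun i => √(b i)
  simpa only [Real.sq_sqrt (ha _), Real.sq_sqrt (hb _)] using this

end Mat

theorem exists_lim (f : ℕ → ℂ) (B : ℝ) (h : ∀ i, ‖f i‖ ≤ B) : ∃ c, Tendsto f UU (𝓝 c) := by
  obtain ⟨c, _, hc⟩ := (isCompact_closedBall (0 : ℂ) B).ultrafilter_le_nhds
    ((Filter.hyperfilter ℕ).map f) (by
      rw [Ultrafilter.coe_map, Filter.le_principal_iff, Filter.mem_map]
      exact Filter.univ_mem' fun i => mem_closedBall_zero_iff.mpr (h i))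
  exact ⟨c, hc⟩

section CC

variable {A : Type} [CStarAlgebra A] [PartialOrder A] [StarOrderedRing A]
  {m n : Type} [Fintype m] [Fintype n]

variable (A) in
/-- The constant that compares the norms of `A` and `M_1(A)`. -/
def N1 : ℝ := ‖sing (A := A) (0 : Fin 1) 0‖

theorem N1_nonneg : 0 ≤ N1 A := norm_nonneg _

theorem ccf_bd {θ : m → m → StrongDual ℂ A} (h : CCF θ) (a : A) :
    Bd (fun s t => θ s t a) (N1 A * ‖a‖) := by
  intro v w
  have h2 := h 1 (Matrix.single 0 0 a) (fun p => v p.2) fun p => w p.2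
  have h3 : mn (Matrix.single (0 : Fin 1) 0 a) ≤ N1 A * ‖a‖ :=
    (sing (A := A) (0 : Fin 1) 0).le_opNorm a
  simp only [fm, nsq, Fintype.sum_prod_type, Fin.sum_univ_one, Matrix.single_apply_same] at h2
  refine h2.trans ?_
  unfold nsq
  gcongr

theorem ccf_lim (θ : ℕ → m → m → StrongDual ℂ A) (h : ∀ r, CCF (θ r)) :
    ∃ θ' : m → m → StrongDual ℂ A, CCF θ' ∧
      ∀ s t a, Tendsto (fun r => θ r s t a) UU (𝓝 (θ' s t a)) := by
  have hb : ∀ r s t a, ‖θ r s t a‖ ≤ N1 A * ‖a‖ := fun r s t a => bd_entry (ccf_bd (h r) a) s t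
  choose T hT using fun s t a => exists_lim (fun r => θ r s t a) _ fun r => hb r s t a
  let L : m → m → A →ₗ[ℂ] ℂ := fun s t =>
    { toFun := T s t
      map_add' := fun a b => tendsto_nhds_unique (hT s t (a + b))
        (by simpa only [map_add] using (hT s t a).add (hT s t b))
      map_smul' := fun c a => tendsto_nhds_unique (hT s t (c • a))
        (by simpa only [map_smul, RingHom.id_apply] using (hT s t a).const_smul c) }
  refine ⟨fun s t => (L s t).mkContinuous (N1 A) fun a =>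
    le_of_tendsto' (hT s t a).norm fun r => hb r s t a, fun k a v w => ?_, hT⟩
  exact le_of_tendsto' (fm_tendsto (f := fun r (p q : Fin k × m) => θ r p.2 q.2 (a p.1 q.1))
    (fun p q => hT p.2 q.2 (a p.1 q.1)) v w).norm fun r => h r k a v w

/-- Compression of a matrix of functionals. -/
def cmp {l : ℕ} (L : Fin l → Matrix m n ℂ) (α : n → n → StrongDual ℂ A) (s t : m) :
    StrongDual ℂ A :=
  ∑ x, ∑ s', ∑ t', (conj (L x s s') * L x t t') • α s' t'

theorem ccf_cmp {l : ℕ} (L : Fin l → Matrix m n ℂ) (hL : ∀ v, ∑ x, nsq ((L x)ᴴ *ᵥ v) ≤ nsq v)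
    {α : n → n → StrongDual ℂ A} (hα : CCF α) : CCF (cmp L α) := by
  intro k a v w
  let tr : (Fin k × m → ℂ) → Fin l → Fin k × n → ℂ := fun v x p => ∑ s, L x s p.2 * v (p.1, s)
  have htr : ∀ v, ∑ x, nsq (tr v x) ≤ nsq v := by
    intro v
    have e1 : ∀ x, nsq (tr v x) = ∑ p, nsq ((L x)ᴴ *ᵥ star fun s => v (p, s)) := by
      intro x
      unfold nsq
      rw [Fintype.sum_prod_type]
      refine Finset.sum_congr rfl fun p _ => Finset.sum_congr rfl fun s' _ => ?_
      rw [← Complex.norm_conj]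
      simp only [tr, Matrix.mulVec, dotProduct, Matrix.conjTranspose_apply, Pi.star_apply,
        Complex.star_def, map_sum, map_mul]
    have e2 : nsq v = ∑ p, nsq (star fun s => v (p, s)) := by
      simp only [nsq_star]
      unfold nsq
      rw [Fintype.sum_prod_type]
    simp only [e1]
    rw [Finset.sum_comm, e2]
    exact Finset.sum_le_sum fun p _ => hL _
  have e : fm (fun p q : Fin k × m => cmp L α p.2 q.2 (a p.1 q.1)) v w =
      ∑ x, fm (fun p q : Fin k × n => α p.2 q.2 (a p.1 q.1)) (tr v x) (tr w x) := by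
    simp only [fm, cmp, tr, Fintype.sum_prod_type, sum_apply, smul_apply, smul_eq_mul, map_sum,
      map_mul, Finset.sum_mul, Finset.mul_sum]
    symm
    rw [Finset.sum_comm]
    refine Finset.sum_congr rfl fun p _ => ?_
    have : ∀ f : Fin l → n → Fin k → n → m → m → ℂ,
        ∑ x, ∑ s', ∑ q, ∑ t', ∑ t, ∑ s, f x s' q t' t s =
          ∑ s, ∑ q, ∑ t, ∑ x, ∑ s', ∑ t', f x s' q t' t s := by
      intro f
      simp only [← Fintype.sum_prod_type']
      refine Fintype.sum_equiv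
        ⟨fun z => (z.2.2.2.2.2, z.2.2.1, z.2.2.2.2.1, z.1, z.2.1, z.2.2.2.1),
          fun z => (z.2.2.2.1, z.2.2.2.2.1, z.2.1, z.2.2.2.2.2, z.2.2.1, z.1),
          fun _ => rfl, fun _ => rfl⟩ _ _ fun _ => rfl
    rw [this]
    refine Finset.sum_congr rfl fun s _ => Finset.sum_congr rfl fun q _ =>
      Finset.sum_congr rfl fun t _ => Finset.sum_congr rfl fun x _ =>
      Finset.sum_congr rfl fun s' _ => Finset.sum_congr rfl fun t' _ => by ring
  rw [e]
  have h0 : 0 ≤ mn a := norm_nonneg _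
  refine (norm_sum_le _ _).trans ((Finset.sum_le_sum fun x _ => hα k a (tr v x) (tr w x)).trans ?_)
  simp only [mul_assoc, ← Finset.mul_sum]
  refine mul_le_mul_of_nonneg_left ((sum_sqrt_le _ _ _ (fun x => nsq_nonneg _)
    fun x => nsq_nonneg _).trans ?_) h0
  have h1 := htr v
  have h2 := htr w
  gcongr

end CC

section Views

variable {G : Type} {k : ℕ → ℕ}

/-- The combination of the vectors of a view with coefficients `v`. -/
def xv (V : View G k) (i : ℕ) (z : G) (v : Fin V.n → ℂ) : Fin (k i) → ℂ :=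
  fun p => ∑ s, v s * V.η i z s p

theorem vf_fm (V : View G k) (i : ℕ) (b : Fin (k i) → Fin (k i) → ℂ) (v w : Fin V.n → ℂ) :
    fm (V.vf i b) v w = ∑ z ∈ V.Z i, fm b (xv V i z v) (xv V i z w) := by
  simp only [fm, View.vf, xv, map_sum, map_mul, Finset.sum_mul, Finset.mul_sum]
  have : ∀ f : G → Fin V.n → Fin V.n → Fin (k i) → Fin (k i) → ℂ,
      ∑ s, ∑ t, ∑ z ∈ V.Z i, ∑ p, ∑ q, f z s t p q =
        ∑ z ∈ V.Z i, ∑ p, ∑ q, ∑ t, ∑ s, f z s t p q := by
    intro f
    have e1 : ∀ s, ∑ t, ∑ z ∈ V.Z i, ∑ p, ∑ q, f z s t p q =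
        ∑ z ∈ V.Z i, ∑ t, ∑ p, ∑ q, f z s t p q := fun s => Finset.sum_comm
    simp only [e1]
    rw [Finset.sum_comm]
    refine Finset.sum_congr rfl fun z _ => ?_
    simp only [← Fintype.sum_prod_type']
    exact Fintype.sum_equiv
      ⟨fun y => (y.2.2.1, y.2.2.2, y.2.1, y.1), fun y => (y.2.2.2, y.2.2.1, y.1, y.2.1),
        fun _ => rfl, fun _ => rfl⟩ _ _ fun _ => rfl
  rw [this]
  refine Finset.sum_congr rfl fun z _ => Finset.sum_congr rfl fun p _ =>
    Finset.sum_congr rfl fun q _ => Finset.sum_congr rfl fun t _ =>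
    Finset.sum_congr rfl fun s _ => by ring

/-- The Gram matrix of a view. -/
def gr (V : View G k) (i : ℕ) : Fin V.n → Fin V.n → ℂ :=
  V.vf i (1 : Matrix (Fin (k i)) (Fin (k i)) ℂ)

theorem gr_fm (V : View G k) (i : ℕ) (v : Fin V.n → ℂ) :
    fm (gr V i) v v = ((∑ z ∈ V.Z i, nsq (xv V i z v) : ℝ) : ℂ) := by
  unfold gr
  rw [vf_fm]
  simp only [fm_one, Complex.ofReal_sum]

theorem vf_dom (V : View G k) (i : ℕ) {b : Fin (k i) → Fin (k i) → ℂ} {c : ℝ} (hc : 0 ≤ c)
    (hb : Bd b c) (v w : Fin V.n → ℂ) :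
    ‖fm (V.vf i b) v w‖ ≤ c * √((fm (gr V i) v v).re) * √((fm (gr V i) w w).re) := by
  rw [gr_fm, gr_fm, Complex.ofReal_re, Complex.ofReal_re, vf_fm]
  refine (norm_sum_le _ _).trans ((Finset.sum_le_sum fun z _ => hb _ _).trans ?_)
  simp only [mul_assoc, ← Finset.mul_sum]
  exact mul_le_mul_of_nonneg_left
    (sum_sqrt_le _ _ _ (fun _ => nsq_nonneg _) fun _ => nsq_nonneg _) hc

theorem gr_diag (V : View G k) (i : ℕ) (s : Fin V.n) :
    gr V i s s = ((∑ z ∈ V.Z i, nsq (V.η i z s) : ℝ) : ℂ) := by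
  unfold gr View.vf
  simp only [fm_one, Complex.ofReal_sum]

theorem gr_trace (V : View G k) (i : ℕ) : ∑ s, (gr V i s s).re = V.mass i := by
  simp only [gr_diag, Complex.ofReal_re]
  exact Finset.sum_comm

theorem gr_conj (V : View G k) (i : ℕ) (s t : Fin V.n) : conj (gr V i t s) = gr V i s t := by
  unfold gr View.vf
  rw [map_sum]
  refine Finset.sum_congr rfl fun z _ => ?_
  simp only [fm_eq, Matrix.one_mulVec, dotProduct, map_sum, map_mul, Pi.star_apply,
    Complex.star_def, Complex.conj_conj, mul_comm]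

theorem vf_entry (V : View G k) (i : ℕ) (hm : V.mass i ≤ 1) {b : Fin (k i) → Fin (k i) → ℂ}
    {c : ℝ} (hc : 0 ≤ c) (hb : Bd b c) (s t : Fin V.n) : ‖V.vf i b s t‖ ≤ c := by
  have h := vf_dom V i hc hb (Pi.single s 1) (Pi.single t 1)
  have h1 : ∀ s, √((gr V i s s).re) ≤ 1 := by
    intro s
    refine Real.sqrt_le_one.mpr ((Finset.single_le_sum (f := fun s => (gr V i s s).re)
      (fun s _ => ?_) (Finset.mem_univ s)).trans ((gr_trace V i).trans_le hm))
    rw [gr_diag, Complex.ofReal_re]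
    exact Finset.sum_nonneg fun _ _ => nsq_nonneg _
  rw [fm_single, fm_single, fm_single] at h
  have h2 := h1 s
  have h3 := h1 t
  calc _ ≤ _ := h
    _ ≤ c * 1 * 1 := by gcongr
    _ = c := by ring

variable {A : Type} [CStarAlgebra A] [PartialOrder A] [StarOrderedRing A]
  {d : ℕ} {e : Fin d → Bid A}

/-- The limits of the matrices of a view. -/
structure VL (S : Sys e) (V : View G S.k) (H : Matrix (Fin V.n) (Fin V.n) ℂ)
    (Kk : Fin d → Matrix (Fin V.n) (Fin V.n) ℂ) : Prop where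
  hH : ∀ s t, Tendsto (fun i => gr V i s t) UU (𝓝 (H s t))
  hK : ∀ j s t, Tendsto (fun i => V.vf i (S.b i j) s t) UU (𝓝 (Kk j s t))

theorem vl_exists (S : Sys e) (V : View G S.k) (hm : ∀ i, V.mass i ≤ 1) :
    ∃ H Kk, VL S V H Kk := by
  choose H hH using fun s t => exists_lim (fun i => gr V i s t) 1 fun i =>
    vf_entry V i (hm i) zero_le_one bd_one s t
  choose Kk hK using fun j s t => exists_lim (fun i => V.vf i (S.b i j) s t) S.C fun i =>
    vf_entry V i (hm i) S.C_nonneg (S.bd i j) s t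
  exact ⟨H, Kk, hH, hK⟩

variable {S : Sys e} {V : View G S.k} {H : Matrix (Fin V.n) (Fin V.n) ℂ}
  {Kk : Fin d → Matrix (Fin V.n) (Fin V.n) ℂ}

theorem VL.psd (h : VL S V H Kk) : H.PosSemidef := by
  refine Matrix.PosSemidef.of_dotProduct_mulVec_nonneg ?_ fun v => ?_
  · ext s t
    rw [Matrix.conjTranspose_apply, Complex.star_def]
    refine tendsto_nhds_unique ((Complex.continuous_conj.tendsto _).comp (h.hH t s)) ?_
    simpa only [Function.comp_def, gr_conj] using h.hH s t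
  · rw [← fm_eq]
    refine ge_of_tendsto' (fm_tendsto h.hH v v) fun i => ?_
    rw [gr_fm]
    exact Complex.zero_le_real.mpr (Finset.sum_nonneg fun _ _ => nsq_nonneg _)

theorem VL.trace (h : VL S V H Kk) (hm : ∀ i, V.mass i ≤ 1) : H.trace.re ≤ 1 := by
  have h1 : Tendsto (fun i => ∑ s, (gr V i s s).re) UU (𝓝 (∑ s, (H s s).re)) :=
    tendsto_finsetSum _ fun s _ => (Complex.continuous_re.tendsto _).comp (h.hH s s)
  have h2 : H.trace.re = ∑ s, (H s s).re := by rw [Matrix.trace, Complex.re_sum]; rfl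
  rw [h2]
  exact le_of_tendsto' h1 fun i => (gr_trace V i).trans_le (hm i)

theorem VL.dom (h : VL S V H Kk) (j : Fin d) (v w : Fin V.n → ℂ) :
    ‖fm (Kk j) v w‖ ≤ S.C * √((fm H v v).re) * √((fm H w w).re) := by
  have h1 : ∀ v, Tendsto (fun i => √((fm (gr V i) v v).re)) UU (𝓝 (√((fm H v v).re))) :=
    fun v => ((Complex.continuous_re.tendsto _).comp (fm_tendsto h.hH v v)).sqrt
  exact le_of_tendsto_of_tendsto' (fm_tendsto (h.hK j) v w).norm
    (((h1 v).const_mul _).mul (h1 w)) fun i => vf_dom V i S.C_nonneg (S.bd i j) v w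

theorem VL.nr (h : VL S V H Kk) {θ : Fin V.n → Fin V.n → StrongDual ℂ A} (hθ : CCF θ)
    {m : ℕ → ℝ} {μ : ℝ} (hm : ∀ i, V.mass i ≤ m i) (hμ : Tendsto m UU (𝓝 μ)) :
    ‖∑ j, e j (∑ s, ∑ t, Kk j s t • θ s t)‖ ≤ μ := by
  have h1 : Tendsto (fun i => ∑ j, ∑ s, ∑ t, V.vf i (S.b i j) s t * e j (θ s t)) UU
      (𝓝 (∑ j, ∑ s, ∑ t, Kk j s t * e j (θ s t))) :=
    tendsto_finsetSum _ fun j _ => tendsto_finsetSum _ fun s _ => tendsto_finsetSum _ fun t _ =>
      (h.hK j s t).mul_const _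
  simp only [map_sum, map_smul, smul_eq_mul]
  refine le_of_tendsto_of_tendsto' h1.norm hμ fun i => le_trans ?_ (hm i)
  have e1 : ∑ j, ∑ s, ∑ t, V.vf i (S.b i j) s t * e j (θ s t) =
      ∑ z ∈ V.Z i, ∑ j, fm (fun p q : Fin (S.k i) × Fin V.n =>
        S.b i j p.1 q.1 * e j (θ p.2 q.2)) (fun p => V.η i z p.2 p.1) fun p => V.η i z p.2 p.1 := by
    rw [Finset.sum_comm (s := V.Z i)]
    refine Finset.sum_congr rfl fun j _ => ?_
    simp only [View.vf, Finset.sum_mul]
    have e1 : ∀ s, ∑ t, ∑ z ∈ V.Z i, fm (S.b i j) (V.η i z s) (V.η i z t) * e j (θ s t) =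
        ∑ z ∈ V.Z i, ∑ t, fm (S.b i j) (V.η i z s) (V.η i z t) * e j (θ s t) :=
      fun s => Finset.sum_comm
    simp only [e1]
    rw [Finset.sum_comm]
    refine Finset.sum_congr rfl fun z _ => ?_
    simp only [fm, Finset.sum_mul, Fintype.sum_prod_type]
    have : ∀ f : Fin V.n → Fin V.n → Fin (S.k i) → Fin (S.k i) → ℂ,
        ∑ s, ∑ t, ∑ p, ∑ q, f s t p q = ∑ p, ∑ s, ∑ q, ∑ t, f s t p q := by
      intro f
      simp only [← Fintype.sum_prod_type']
      exact Fintype.sum_equiv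
        ⟨fun y => (y.2.2.1, y.1, y.2.2.2, y.2.1), fun y => (y.2.1, y.2.2.2, y.1, y.2.2.1),
          fun _ => rfl, fun _ => rfl⟩ _ _ fun _ => rfl
    rw [this]
    refine Finset.sum_congr rfl fun p _ => Finset.sum_congr rfl fun s _ =>
      Finset.sum_congr rfl fun q _ => Finset.sum_congr rfl fun t _ => by ring
  rw [e1]
  refine (norm_sum_le _ _).trans (Finset.sum_le_sum fun z _ => (S.nr i _ θ hθ _).trans_eq ?_)
  unfold nsq
  rw [Fintype.sum_prod_type, Finset.sum_comm]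

/-- The regularised Gram matrix. -/
def rg {n : ℕ} (H : Matrix (Fin n) (Fin n) ℂ) (δ : ℝ) : Matrix (Fin n) (Fin n) ℂ :=
  H + (δ : ℂ) • 1

theorem rg_pd {n : ℕ} {H : Matrix (Fin n) (Fin n) ℂ} (h : H.PosSemidef) {δ : ℝ} (hδ : 0 < δ) :
    (rg H δ).PosDef :=
  Matrix.PosDef.posSemidef_add h (Matrix.PosDef.one.smul (Complex.zero_lt_real.mpr hδ))

theorem rg_trace {n : ℕ} (H : Matrix (Fin n) (Fin n) ℂ) (δ : ℝ) :
    (rg H δ).trace.re = H.trace.re + δ * n := by
  unfold rg
  rw [Matrix.trace_add, Matrix.trace_smul, Matrix.trace_one, Complex.add_re, smul_eq_mul,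
    Fintype.card_fin, Complex.re_ofReal_mul, Complex.natCast_re]

theorem rg_fm {n : ℕ} (H : Matrix (Fin n) (Fin n) ℂ) {δ : ℝ} (hδ : 0 ≤ δ) (v : Fin n → ℂ) :
    (fm H v v).re ≤ (fm (rg H δ) v v).re := by
  unfold rg
  rw [fm_eq, fm_eq, Matrix.add_mulVec, dotProduct_add, Matrix.smul_mulVec, Matrix.one_mulVec,
    dotProduct_smul, dot_self, smul_eq_mul, ← Complex.ofReal_mul, Complex.add_re,
    Complex.ofReal_re]
  have := mul_nonneg hδ (nsq_nonneg v)
  linarith

theorem VL.dom' (h : VL S V H Kk) {δ : ℝ} (hδ : 0 ≤ δ) (j : Fin d) (v w : Fin V.n → ℂ) :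
    ‖fm (Kk j) v w‖ ≤ S.C * √((fm (rg H δ) v v).re) * √((fm (rg H δ) w w).re) := by
  have h1 := rg_fm H hδ v
  have h2 := rg_fm H hδ w
  have := S.C_nonneg
  exact (h.dom j v w).trans (by gcongr)

end Views

section Main

theorem small (a : ℝ) {b : ℝ} (hb : 0 < b) : ∀ᶠ τ in 𝓝[>] (0 : ℝ), τ * a < b := by
  have h : Tendsto (fun τ : ℝ => τ * a) (𝓝 0) (𝓝 (0 * a)) := tendsto_id.mul_const a
  rw [zero_mul] at h
  exact (h.eventually (gt_mem_nhds hb)).filter_mono nhdsWithin_le_nhds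

theorem scale {n : Type} [Fintype n] (T : Matrix n n ℂ → ℂ)
    (hT : ∀ (r : ℂ) c, T (r • c) = r * T c) {x : ℝ} (h : ∀ c : Matrix n n ℂ, Bd c 1 → ‖T c‖ ≤ x)
    {c : Matrix n n ℂ} {β : ℝ} (hβ : 0 ≤ β) (hc : Bd c β) : ‖T c‖ ≤ x * β := by
  rcases hβ.lt_or_eq with hβ | hβ
  · have h1 : Bd (((β⁻¹ : ℝ) : ℂ) • c) 1 := by
      intro v w
      have e : fm (((β⁻¹ : ℝ) : ℂ) • c) v w = ((β⁻¹ : ℝ) : ℂ) * fm c v w := by
        rw [fm_eq, fm_eq, Matrix.smul_mulVec, dotProduct_smul, smul_eq_mul]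
      rw [e, norm_mul, Complex.norm_real, Real.norm_of_nonneg (inv_nonneg.mpr hβ.le),
        inv_mul_le_iff₀ hβ, one_mul, ← mul_assoc]
      exact hc v w
    have h2 := h _ h1
    rw [hT, norm_mul, Complex.norm_real, Real.norm_of_nonneg (inv_nonneg.mpr hβ.le),
      inv_mul_le_iff₀ hβ] at h2
    rwa [mul_comm]
  · have h1 : c = (0 : ℂ) • c := by
      ext s t
      have := bd_entry hc s t
      rw [← hβ] at this
      simpa using this
    rw [h1, hT, ← hβ]
    simp

theorem Ph_apply {m n : Type} [Fintype n] {l : ℕ} (K : Fin l → Matrix m n ℂ)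
    (x : Matrix n n ℂ) (s t : m) :
    Ph K x s t = ∑ a, ∑ s', ∑ t', K a s s' * conj (K a t t') * x s' t' := by
  simp only [Ph, Matrix.sum_apply, Matrix.mul_apply, Matrix.conjTranspose_apply,
    Complex.star_def, Finset.sum_mul]
  refine Finset.sum_congr rfl fun a _ => ?_
  rw [Finset.sum_comm]
  exact Finset.sum_congr rfl fun s' _ => Finset.sum_congr rfl fun t' _ => by ring

variable {G : Type} [Group G] {W : WG G} {A : Type} [CStarAlgebra A] [PartialOrder A]
  [StarOrderedRing A] {R : Reg G A} {d : ℕ} {e : Fin d → Bid A} {S : Sys e}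
  {ζ : ∀ i, Vec G (Fin (S.k i))} {F : Fin d → StrongDual ℂ A}

theorem refine_lim {V V' : View G S.k} {H Kk H' Kk'} (h : VL S V H Kk) (h' : VL S V' H' Kk')
    (hF : ∀ j a, Tendsto (fun i => R.Q (S.b i j) (ζ i) a) UU (𝓝 (F j a))) {r : ℕ} {τ : ℝ}
    (hr : Refines R W ζ V V' r τ) :
    ∃ (l : ℕ) (K : Fin l → Matrix (Fin V.n) (Fin V'.n) ℂ)
      (α : Fin V'.n → Fin V'.n → StrongDual ℂ A),
      (∀ v, ∑ a, nsq ((K a).mulVec v) ≤ nsq v) ∧ CCF α ∧
      (∀ s t, ‖H s t - Ph K H' s t‖ ≤ τ) ∧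
      (∀ j s t, ‖Kk j s t - Ph K (Kk' j) s t‖ ≤ τ * S.C) ∧
      ∀ j g, W.wl g ≤ r →
        ‖F j (R.u g) - ∑ s', ∑ t', α s' t' (R.u g) * Kk' j s' t'‖ ≤ τ * S.C := by
  obtain ⟨l, K, α, hK, hα, hev⟩ := hr
  have hlim : ∀ {f : ℕ → Fin V'.n → Fin V'.n → ℂ} {M : Matrix (Fin V'.n) (Fin V'.n) ℂ},
      (∀ s t, Tendsto (fun i => f i s t) UU (𝓝 (M s t))) → ∀ s t,
      Tendsto (fun i => ∑ a, ∑ s', ∑ t', conj (K a s s') * K a t t' * f i s' t') UU
        (𝓝 (Ph (fun a => (K a).map conj) M s t)) := by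
    intro f M hf s t
    rw [Ph_apply]
    simp only [Matrix.map_apply, Complex.conj_conj]
    exact tendsto_finsetSum _ fun a _ => tendsto_finsetSum _ fun s' _ =>
      tendsto_finsetSum _ fun t' _ => (hf s' t').const_mul _
  refine ⟨l, fun a => (K a).map conj, α, fun v => ?_, hα, fun s t => ?_, fun j s t => ?_,
    fun j g hg => ?_⟩
  · have e1 : ∀ a, ((K a).map conj).mulVec v = star ((K a).mulVec (star v)) := by
      intro a
      ext s
      simp only [Matrix.mulVec, dotProduct, Matrix.map_apply, Pi.star_apply, Complex.star_def,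
        map_sum, map_mul, Complex.conj_conj]
    simp only [e1, nsq_star]
    exact (hK _).trans_eq (nsq_star v)
  · refine le_of_tendsto ((h.hH s t).sub (hlim h'.hH s t)).norm (hev.mono fun i hi => ?_)
    have := (hi _ 1 zero_le_one bd_one).1 s t
    rwa [mul_one] at this
  · exact le_of_tendsto ((h.hK j s t).sub (hlim (h'.hK j) s t)).norm
      (hev.mono fun i hi => (hi _ _ S.C_nonneg (S.bd i j)).1 s t)
  · refine le_of_tendsto ((hF j _).sub (tendsto_finsetSum _ fun s' _ =>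
      tendsto_finsetSum _ fun t' _ => (h'.hK j s' t').const_mul _)).norm
      (hev.mono fun i hi => (hi _ _ S.C_nonneg (S.bd i j)).2 g hg)

/-- The recovery property of the form `Qf`. -/
def Rec (Qf : ∀ n : ℕ, Matrix (Fin n) (Fin n) ℂ → Matrix (Fin n) (Fin n) ℂ → ℝ) : Prop :=
  ∀ n n' (h : Matrix (Fin n) (Fin n) ℂ) (h' : Matrix (Fin n') (Fin n') ℂ) (l : ℕ)
    (Kr : Fin l → Matrix (Fin n) (Fin n') ℂ), h.PosDef → h'.PosDef →
    (∀ v, ∑ a, nsq ((Kr a).mulVec v) ≤ nsq v) →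
    (h - ∑ a, Kr a * h' * (Kr a)ᴴ).PosSemidef →
    ∃ Lr : Fin l → Matrix (Fin n) (Fin n') ℂ,
      (∀ v, ∑ a, nsq ((Lr a)ᴴ.mulVec v) ≤ nsq v) ∧
      ∀ k' : Matrix (Fin n') (Fin n') ℂ,
        Qf n h (∑ a, Kr a * k' * (Kr a)ᴴ) ≤ Qf n' h' k' ∧
        ∀ c' : Matrix (Fin n') (Fin n') ℂ, Bd c' 1 →
          ‖(k' * c').trace -
            ((∑ a, Kr a * k' * (Kr a)ᴴ) * ∑ a, Lr a * c' * (Lr a)ᴴ).trace‖ ^ 2 ≤
            (Qf n' h' k' - Qf n h (∑ a, Kr a * k' * (Kr a)ᴴ)) * h'.trace.re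

theorem trace_pair {n : Type} [Fintype n] (k : Matrix n n ℂ) (c : n → n → ℂ) :
    (k * Matrix.of fun t s => c s t).trace = ∑ s, ∑ t, k s t * c s t := by
  simp only [Matrix.trace, Matrix.diag_apply, Matrix.mul_apply, Matrix.of_apply]

theorem step {Qf : ∀ n : ℕ, Matrix (Fin n) (Fin n) ℂ → Matrix (Fin n) (Fin n) ℂ → ℝ}
    (hc : ∀ n h, Continuous (Qf n h)) (hrec : Rec Qf) {P : Set (View G S.k)}
    (hm : ∀ V ∈ P, ∀ i, V.mass i ≤ 1)
    (hP : ∀ V ∈ P, ∀ (r : ℕ) (τ : ℝ), 0 < τ → ∃ V' ∈ P, Refines R W ζ V V' r τ)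
    (hF : ∀ j a, Tendsto (fun i => R.Q (S.b i j) (ζ i) a) UU (𝓝 (F j a))) {σ : ℝ}
    (hσ : ∀ V ∈ P, ∀ H Kk, VL S V H Kk → ∀ δ : ℝ, 0 < δ → δ * V.n ≤ 1 →
      ∑ j, Qf V.n (rg H δ) (Kk j) ≤ σ)
    {V : View G S.k} (hV : V ∈ P) {H Kk} (h : VL S V H Kk) {δ η : ℝ} (hδ : 0 < δ) (hη : 0 < η)
    (hq : σ - η ^ 2 ≤ ∑ j, Qf V.n (rg H δ) (Kk j)) (r : ℕ) :
    ∃ (θ : Fin V.n → Fin V.n → StrongDual ℂ A) (φ : Fin d → StrongDual ℂ A), CCF θ ∧
      (∀ j g, W.wl g ≤ r → ‖F j (R.u g) - φ j (R.u g)‖ ≤ 1 / ((r : ℝ) + 1)) ∧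
      ∀ j a, ‖φ j a - ∑ s, ∑ t, Kk j s t * θ s t a‖ ≤ 3 * η * (N1 A * ‖a‖) := by
  have hcont : Continuous fun k : Fin d → Fin V.n → Fin V.n → ℂ =>
      ∑ j, Qf V.n (rg H δ) (k j) :=
    continuous_finsetSum _ fun j _ => (hc _ _).comp (continuous_apply j)
  obtain ⟨τ₁, hτ₁, hcl⟩ := Metric.continuous_iff.mp hcont Kk (η ^ 2) (by positivity)
  obtain ⟨τ, ⟨⟨⟨h1, h2⟩, h3⟩, h4⟩, hτ⟩ := (((((small S.C hτ₁).and
    (small S.C (Nat.one_div_pos_of_nat (n := r)))).and
    (small ((V.n : ℝ) * V.n) (half_pos hδ))).and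
    (small (S.C * (V.n * V.n)) hη)).and self_mem_nhdsWithin).exists
  have hτ : 0 < τ := hτ
  obtain ⟨V', hV', hr⟩ := hP V hV r τ hτ
  obtain ⟨H', Kk', h'⟩ := vl_exists S V' (hm V' hV')
  obtain ⟨l, K, α, hK, hα, e1, e2, e3⟩ := refine_lim h h' hF hr
  obtain ⟨δ', ⟨h5, h6⟩, hδ'⟩ := (((small (V'.n : ℝ) one_pos).and
    (small (∑ s, ∑ t, ‖Ph K 1 s t‖) (half_pos hδ))).and self_mem_nhdsWithin).exists
  have hδ' : 0 < δ' := hδ'
  have hd : (rg H δ - ∑ a, K a * rg H' δ' * (K a)ᴴ).PosSemidef := by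
    have e4 : rg H δ - ∑ a, K a * rg H' δ' * (K a)ᴴ =
        (δ : ℂ) • 1 - (Ph K (rg H' δ') - H) := by
      unfold Ph
      rw [rg]
      abel
    rw [e4]
    refine psd_of_bd (Matrix.IsHermitian.sub ?_ h.psd.1) (bd_mono (bd_sum _) ?_)
    · exact (Matrix.posSemidef_sum _ fun a _ =>
        (rg_pd h'.psd hδ').posSemidef.mul_mul_conjTranspose_same _).1
    · have e5 : ∀ s t, ‖(Ph K (rg H' δ') - H) s t‖ ≤ τ + δ' * ‖Ph K 1 s t‖ := by
        intro s t
        have : (Ph K (rg H' δ') - H) s t = -(H s t - Ph K H' s t) + (δ' : ℂ) * Ph K 1 s t := by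
          rw [rg, Ph_add, Ph_smul, Matrix.sub_apply, Matrix.add_apply, Matrix.smul_apply,
            smul_eq_mul]
          ring
        rw [this]
        refine (norm_add_le _ _).trans ?_
        rw [norm_neg, norm_mul, Complex.norm_real, Real.norm_of_nonneg hδ'.le]
        linarith [e1 s t]
      refine (Finset.sum_le_sum fun s _ => Finset.sum_le_sum fun t _ => e5 s t).trans ?_
      simp only [Finset.sum_add_distrib, ← Finset.mul_sum, Finset.sum_const, Finset.card_univ,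
        Fintype.card_fin, nsmul_eq_mul]
      nlinarith
  obtain ⟨L, hL, hrc⟩ := hrec _ _ _ _ l K (rg_pd h.psd hδ) (rg_pd h'.psd hδ') hK hd
  have hq1 : ∑ j, Qf V.n (rg H δ) (Kk j) - η ^ 2 ≤ ∑ j, Qf V.n (rg H δ) (Ph K (Kk' j)) := by
    have := hcl (fun j => Ph K (Kk' j)) (by
      refine (dist_pi_lt_iff (X := fun _ => Fin V.n → Fin V.n → ℂ) hτ₁).mpr fun j =>
        (dist_pi_lt_iff hτ₁).mpr fun s => (dist_pi_lt_iff hτ₁).mpr fun t => ?_
      rw [dist_comm, dist_eq_norm]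
      exact (e2 j s t).trans_lt h1)
    rw [Real.dist_eq, abs_lt] at this
    linarith [this.1]
  have hq2 : ∀ j, Qf V'.n (rg H' δ') (Kk' j) - Qf V.n (rg H δ) (Ph K (Kk' j)) ≤ 2 * η ^ 2 := by
    intro j
    have h7 := Finset.single_le_sum
      (f := fun j => Qf V'.n (rg H' δ') (Kk' j) - Qf V.n (rg H δ) (Ph K (Kk' j)))
      (fun j _ => sub_nonneg.mpr (hrc (Kk' j)).1) (Finset.mem_univ j)
    rw [Finset.sum_sub_distrib] at h7
    linarith [hσ V' hV' H' Kk' h' δ' hδ' h5.le]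
  have htr : (rg H' δ').trace.re ≤ 2 := by
    rw [rg_trace]
    linarith [h'.trace (hm V' hV')]
  have htr0 : 0 ≤ (rg H' δ').trace.re := re_trace_nonneg (rg_pd h'.psd hδ').posSemidef
  refine ⟨cmp L α, fun j => ∑ s', ∑ t', Kk' j s' t' • α s' t', ccf_cmp L hL hα,
    fun j g hg => ?_, fun j a => ?_⟩
  · simp only [sum_apply, smul_apply, smul_eq_mul, mul_comm (Kk' j _ _)]
    exact (e3 j g hg).trans h2.le
  · have hβ : 0 ≤ N1 A * ‖a‖ := mul_nonneg N1_nonneg (norm_nonneg _)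
    have h8 := scale (fun c => (Kk' j * c).trace - (Ph K (Kk' j) * Ph L c).trace)
      (fun r c => by
        simp only [Ph_smul, Matrix.mul_smul, Matrix.trace_smul, smul_eq_mul]; ring)
      (x := 2 * η) (fun c hc => by
        have h9 := (hrc (Kk' j)).2 c hc
        refine (pow_le_pow_iff_left₀ (norm_nonneg _) (by positivity) two_ne_zero).mp
          (h9.trans ?_)
        have := mul_le_mul (hq2 j) htr htr0 (by positivity)
        exact le_trans this (by ring_nf; rfl))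
      (c := Matrix.of fun t s => α s t a) hβ (bd_tr (ccf_bd hα a))
    have e6 : Ph L (Matrix.of fun t s => α s t a) = Matrix.of fun t s => cmp L α s t a := by
      ext t s
      simp only [Ph_apply, cmp, Matrix.of_apply, sum_apply, smul_apply, smul_eq_mul]
      refine Finset.sum_congr rfl fun x _ => ?_
      rw [Finset.sum_comm]
      exact Finset.sum_congr rfl fun s' _ => Finset.sum_congr rfl fun t' _ => by ring
    simp only [e6, trace_pair] at h8
    have h10 : ‖∑ s, ∑ t, Ph K (Kk' j) s t * cmp L α s t a -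
        ∑ s, ∑ t, Kk j s t * cmp L α s t a‖ ≤ η * (N1 A * ‖a‖) := by
      simp only [← Finset.sum_sub_distrib, ← sub_mul]
      have e7 : ∀ s t, ‖(Ph K (Kk' j) s t - Kk j s t) * cmp L α s t a‖ ≤
          τ * S.C * (N1 A * ‖a‖) := by
        intro s t
        rw [norm_mul, norm_sub_rev]
        exact mul_le_mul (e2 j s t) (bd_entry (ccf_bd (ccf_cmp L hL hα) a) s t) (norm_nonneg _)
          (mul_nonneg hτ.le S.C_nonneg)
      refine (norm_sum_le _ _).trans ((Finset.sum_le_sum fun s _ => (norm_sum_le _ _).trans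
        (Finset.sum_le_sum fun t _ => e7 s t)).trans ?_)
      simp only [Finset.sum_const, Finset.card_univ, Fintype.card_fin, nsmul_eq_mul]
      have := mul_le_mul_of_nonneg_right h4.le hβ
      linarith
    simp only [sum_apply, smul_apply, smul_eq_mul]
    refine (norm_sub_le_norm_sub_add_norm_sub _ _ _).trans ((add_le_add h8 h10).trans_eq ?_)
    ring

theorem approx_lim {n : ℕ} (Kk : Fin d → Matrix (Fin n) (Fin n) ℂ) {x : ℝ}
    (h : ∀ r : ℕ, ∃ (θ : Fin n → Fin n → StrongDual ℂ A) (φ : Fin d → StrongDual ℂ A), CCF θ ∧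
      (∀ j g, W.wl g ≤ r → ‖F j (R.u g) - φ j (R.u g)‖ ≤ 1 / ((r : ℝ) + 1)) ∧
      ∀ j a, ‖φ j a - ∑ s, ∑ t, Kk j s t * θ s t a‖ ≤ x * ‖a‖) (hx : 0 ≤ x) :
    ∃ θ : Fin n → Fin n → StrongDual ℂ A, CCF θ ∧
      ∀ j, ‖F j - ∑ s, ∑ t, Kk j s t • θ s t‖ ≤ x := by
  choose θ φ h1 h2 h3 using h
  obtain ⟨θ', hθ', hl⟩ := ccf_lim θ h1
  refine ⟨θ', hθ', fun j => ContinuousLinearMap.opNorm_le_bound _ hx fun a => ?_⟩
  have hU : (UU : Filter ℕ) ≤ atTop := Nat.hyperfilter_le_atTop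
  have h4 : ∀ a ∈ Submodule.span ℂ (Set.range R.u),
      Tendsto (fun r => φ r j a) UU (𝓝 (F j a)) := by
    intro a ha
    induction ha using Submodule.span_induction with
    | mem a ha =>
      obtain ⟨g, rfl⟩ := ha
      refine Tendsto.mono_left ?_ hU
      rw [tendsto_iff_norm_sub_tendsto_zero]
      refine squeeze_zero' (Eventually.of_forall fun _ => norm_nonneg _)
        ((eventually_ge_atTop (W.wl g)).mono fun r hr => ?_)
        tendsto_one_div_add_atTop_nhds_zero_nat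
      rw [norm_sub_rev]
      exact h2 r j g hr
    | zero => simpa only [map_zero] using tendsto_const_nhds
    | add a b _ _ ha hb => simpa only [map_add] using ha.add hb
    | smul c a _ ha => simpa only [map_smul] using ha.const_smul c
  refine Dense.induction (P := fun a => ‖(F j - ∑ s, ∑ t, Kk j s t • θ' s t) a‖ ≤ x * ‖a‖)
    R.dense (fun a ha => ?_) (isClosed_le (ContinuousLinearMap.continuous _).norm
      (continuous_const.mul continuous_norm)) a
  simp only [sub_apply, sum_apply, smul_apply, smul_eq_mul]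
  exact le_of_tendsto' ((h4 a ha).sub (tendsto_finsetSum _ fun s _ => tendsto_finsetSum _
    fun t _ => (hl s t a).const_mul _)).norm fun r => h3 r j a

end Main

end AmM

open AmM in
theorem am (hP : PetzStmt) (hC : ChanStmt) : AmStmt := by
  intro G _ W A _ _ _ R d e S ζ hm hA F μ hF hμ
  obtain ⟨Qf, hc, hb, hrec⟩ := hP
  obtain ⟨P, ⟨V₀, hV₀⟩, hmass, href⟩ := hC G W A R S.k ζ hm hA
  have hm1 : ∀ V ∈ P, ∀ i, V.mass i ≤ 1 := fun V hV i => (hmass V hV i).trans (hm i)
  let T : Set ℝ := {x | ∃ V ∈ P, ∃ H Kk, VL S V H Kk ∧ ∃ δ : ℝ, 0 < δ ∧ δ * V.n ≤ 1 ∧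
    x = ∑ j, Qf V.n (rg H δ) (Kk j)}
  have hne : T.Nonempty := by
    obtain ⟨H, Kk, h⟩ := vl_exists S V₀ (hm1 V₀ hV₀)
    obtain ⟨δ, h1, h2⟩ := ((small (V₀.n : ℝ) one_pos).and self_mem_nhdsWithin).exists
    exact ⟨_, V₀, hV₀, H, Kk, h, δ, h2, h1.le, rfl⟩
  have hbd : BddAbove T := by
    refine ⟨∑ _j : Fin d, S.C ^ 2 * 2, ?_⟩
    rintro _ ⟨V, hV, H, Kk, h, δ, h1, h2, rfl⟩
    refine Finset.sum_le_sum fun j _ => (hb _ _ _ _ (rg_pd h.psd h1) S.C_nonneg
      (h.dom' h1.le j)).trans (mul_le_mul_of_nonneg_left ?_ (by positivity))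
    rw [rg_trace]
    linarith [h.trace (hm1 V hV)]
  rw [add_zero]
  refine le_of_forall_pos_le_add fun ε hε => ?_
  obtain ⟨η, h1, hη⟩ := ((small (3 * N1 A * ∑ j, ‖e j‖) hε).and self_mem_nhdsWithin).exists
  have hη : 0 < η := hη
  obtain ⟨_, ⟨V, hV, H, Kk, h, δ, hδ, _, rfl⟩, hq⟩ :=
    exists_lt_of_lt_csSup hne (sub_lt_self (sSup T) (pow_pos hη 2))
  have hN : 0 ≤ N1 A := N1_nonneg
  obtain ⟨θ, hθ, hap⟩ := approx_lim (W := W) (R := R) (F := F) Kk (x := 3 * η * N1 A)
    (fun r => by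
      simpa only [mul_assoc] using step hc hrec hm1 href hF
        (fun V hV H Kk h δ h1 h2 => le_csSup hbd ⟨V, hV, H, Kk, h, δ, h1, h2, rfl⟩)
        hV h hδ hη hq.le r) (by positivity)
  have h2 := h.nr hθ (hmass V hV) hμ
  have h3 : ‖∑ j, e j (F j) - ∑ j, e j (∑ s, ∑ t, Kk j s t • θ s t)‖ ≤ ε := by
    rw [← Finset.sum_sub_distrib]
    refine (norm_sum_le _ _).trans ((Finset.sum_le_sum fun j _ => ?_).trans
      (?_ : ∑ j, ‖e j‖ * (3 * η * N1 A) ≤ ε))
    · rw [← map_sub]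
      exact ((e j).le_opNorm _).trans (mul_le_mul_of_nonneg_left (hap j) (norm_nonneg _))
    · rw [← Finset.sum_mul]
      linarith
  linarith [norm_sub_norm_le (∑ j, e j (F j)) (∑ j, e j (∑ s, ∑ t, Kk j s t • θ s t))]

end Pool.Agent.MP_88ca14_an

end
end MrgPart0

-- ======== part 1: formerly Pool.Agent.MP_88ca14_an.Red
section MrgPart1

/-!
PROJECT LRX, modules MAT, RED, QUOT, UB: the norm of `M_k(A)` in a faithful representation, the
reduced group C⋆-algebra, the corona quotient of a product of matrix algebras, and the upper bound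
for the minimal norm.
-/

set_option autoImplicit false
set_option maxSynthPendingDepth 3

noncomputable section

namespace Pool.Agent.MP_88ca14_an

open Filter Topology
open scoped Classical InnerProductSpace ComplexConjugate ENNReal TensorProduct

namespace Mat

variable {H : Type} [NormedAddCommGroup H] [InnerProductSpace ℂ H] [CompleteSpace H]
  {A : Type} [CStarAlgebra A] [PartialOrder A] [StarOrderedRing A] {k : ℕ}

/-- The Hilbert space `H^k`. -/
abbrev PP (H : Type) (k : ℕ) : Type := PiLp 2 (fun _ : Fin k => H)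

/-- The operator on `H^k` given by a matrix. -/
def op (ρ : A →⋆ₐ[ℂ] (H →L[ℂ] H)) (a : CStarMatrix (Fin k) (Fin k) A) :
    PP H k →L[ℂ] PP H k :=
  (PiLp.continuousLinearEquiv 2 ℂ (fun _ : Fin k => H)).symm.toContinuousLinearMap ∘L
    ContinuousLinearMap.pi fun p => ∑ q, ρ (a p q) ∘L PiLp.proj 2 (fun _ : Fin k => H) q

omit [PartialOrder A] [StarOrderedRing A] in
theorem op_apply (ρ : A →⋆ₐ[ℂ] (H →L[ℂ] H)) (a : CStarMatrix (Fin k) (Fin k) A) (w : PP H k)
    (p : Fin k) : op ρ a w p = ∑ q, ρ (a p q) (w q) := by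
  simp [op]

omit [PartialOrder A] [StarOrderedRing A] in
theorem inner_op (ρ : A →⋆ₐ[ℂ] (H →L[ℂ] H)) (a : CStarMatrix (Fin k) (Fin k) A)
    (v w : PP H k) : ⟪v, op ρ a w⟫_ℂ = ∑ p, ∑ q, ⟪v p, ρ (a p q) (w q)⟫_ℂ := by
  rw [PiLp.inner_apply]
  refine Finset.sum_congr rfl fun p _ => ?_
  rw [op_apply, inner_sum]

/-- The amplification of a representation. -/
def hom (ρ : A →⋆ₐ[ℂ] (H →L[ℂ] H)) (k : ℕ) :
    CStarMatrix (Fin k) (Fin k) A →⋆ₙₐ[ℂ] (PP H k →L[ℂ] PP H k) where
  toFun := op ρ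
  map_smul' c a := by
    ext w p
    simp [op_apply, Finset.smul_sum]
  map_zero' := by
    ext w p
    simp [op_apply, CStarMatrix.zero_apply]
  map_add' a b := by
    ext w p
    simp [op_apply, Finset.sum_add_distrib]
  map_mul' a b := by
    ext w p
    simp only [op_apply, mul_apply_eq_comp, CStarMatrix.mul_apply, map_sum, map_mul,
      sum_apply]
    exact Finset.sum_comm
  map_star' a := by
    rw [ContinuousLinearMap.star_eq_adjoint, ContinuousLinearMap.eq_adjoint_iff]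
    intro v w
    rw [← inner_conj_symm, inner_op, inner_op, map_sum]
    simp only [map_sum]
    rw [Finset.sum_comm]
    refine Finset.sum_congr rfl fun p _ => Finset.sum_congr rfl fun q _ => ?_
    rw [inner_conj_symm, CStarMatrix.star_apply, map_star, ContinuousLinearMap.star_eq_adjoint,
      ContinuousLinearMap.adjoint_inner_left]

theorem hom_inj (ρ : A →⋆ₐ[ℂ] (H →L[ℂ] H)) (hρ : Function.Injective ρ) (k : ℕ) :
    Function.Injective (hom ρ k) := by
  intro a b h
  refine CStarMatrix.ext fun p q => hρ ?_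
  ext x
  have h1 : op ρ a (PiLp.single 2 q x) p = op ρ b (PiLp.single 2 q x) p := by
    have : op ρ a = op ρ b := h
    rw [this]
  rw [op_apply, op_apply, Finset.sum_eq_single q, Finset.sum_eq_single q] at h1
  · simpa using h1
  all_goals simp +contextual

theorem norm_op (ρ : A →⋆ₐ[ℂ] (H →L[ℂ] H)) (hρ : Function.Injective ρ)
    (a : Matrix (Fin k) (Fin k) A) : ‖op ρ (CStarMatrix.ofMatrix a)‖ = mn a :=
  NonUnitalStarAlgHom.norm_map (hom ρ k) (hom_inj ρ hρ k) _

omit [InnerProductSpace ℂ H] [CompleteSpace H] in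
theorem norm_toLp (v : Fin k → H) :
    ‖(WithLp.toLp 2 v : PP H k)‖ = √(∑ p, ‖v p‖ ^ 2) := by
  rw [PiLp.norm_eq_of_L2]

end Mat

theorem mat : MatStmt := by
  intro H _ _ _ A _ _ _ ρ hρ k a
  refine ⟨fun v w => ?_, fun c hc h => ?_⟩
  · have h1 := Mat.inner_op ρ (CStarMatrix.ofMatrix a) (WithLp.toLp 2 v) (WithLp.toLp 2 w)
    have h2 := norm_inner_le_norm (𝕜 := ℂ) (WithLp.toLp 2 v : Mat.PP H k)
      (Mat.op ρ (CStarMatrix.ofMatrix a) (WithLp.toLp 2 w))
    have h3 := (Mat.op ρ (CStarMatrix.ofMatrix a)).le_opNorm (WithLp.toLp 2 w)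
    rw [Mat.norm_op ρ hρ, Mat.norm_toLp w] at h3
    rw [h1, Mat.norm_toLp v] at h2
    calc _ ≤ _ := h2
      _ ≤ √(∑ p, ‖v p‖ ^ 2) * (mn a * √(∑ q, ‖w q‖ ^ 2)) :=
        mul_le_mul_of_nonneg_left h3 (Real.sqrt_nonneg _)
      _ = _ := by ring
  · rw [← Mat.norm_op ρ hρ]
    refine ContinuousLinearMap.opNorm_le_bound _ hc fun w => ?_
    set z := Mat.op ρ (CStarMatrix.ofMatrix a) w with hz
    have h1 := h (fun p => z p) (fun q => w q)
    have h2 := Mat.inner_op ρ (CStarMatrix.ofMatrix a) z w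
    rw [← hz, inner_self_eq_norm_sq_to_K] at h2
    rw [← PiLp.norm_eq_of_L2, ← PiLp.norm_eq_of_L2] at h1
    have h3 : ‖z‖ ^ 2 ≤ c * ‖z‖ * ‖w‖ := by
      refine le_of_eq_of_le ?_ h1
      have : (∑ p, ∑ q, ⟪z p, ρ (a p q) (w q)⟫_ℂ) = ((‖z‖ : ℂ)) ^ 2 := h2.symm
      rw [this]; simp
    rcases (norm_nonneg z).eq_or_lt with h0 | h0
    · rw [← h0]; positivity
    · have : ‖z‖ * ‖z‖ ≤ ‖z‖ * (c * ‖w‖) := by nlinarith
      exact le_of_mul_le_mul_left this h0

namespace Red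

variable {G : Type} {H : Type} [NormedAddCommGroup H] [InnerProductSpace ℂ H] [CompleteSpace H]

theorem exists_perm (b : HilbertBasis G ℂ H) (σ : G ≃ G) :
    ∃ U : H ≃ₗᵢ[ℂ] H, ∀ y, U (b y) = b (σ y) := by
  have h1 : Orthonormal ℂ (fun y => b (σ y)) := b.orthonormal.comp σ σ.injective
  have h2 : ⊤ ≤ (Submodule.span ℂ (Set.range fun y => b (σ y))).topologicalClosure := by
    have : (Set.range fun y => b (σ y)) = Set.range b := σ.surjective.range_comp b
    rw [this, b.dense_span]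
  refine ⟨b.repr.trans (HilbertBasis.mk h1 h2).repr.symm, fun y => ?_⟩
  rw [LinearIsometryEquiv.trans_apply, b.repr_self, HilbertBasis.repr_symm_single,
    HilbertBasis.coe_mk]

omit [CompleteSpace H] in
theorem ext_basis (b : HilbertBasis G ℂ H) {S T : H →L[ℂ] H} (h : ∀ y, S (b y) = T (b y)) :
    S = T := by
  refine ContinuousLinearMap.ext_on (s := Set.range b) ?_ ?_
  · exact Submodule.dense_iff_topologicalClosure_eq_top.2 b.dense_span
  · rintro _ ⟨y, rfl⟩
    exact h y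

theorem exists_reg [Group G] (b : HilbertBasis G ℂ H) :
    ∃ U : G →* (H →L[ℂ] H), (∀ g y, U g (b y) = b (y * g⁻¹)) ∧ ∀ g, star (U g) = U g⁻¹ := by
  choose V hV using fun g : G => exists_perm b (Equiv.mulRight g⁻¹)
  have hV' : ∀ g y, V g (b y) = b (y * g⁻¹) := fun g y => hV g y
  let U : G →* (H →L[ℂ] H) :=
    { toFun := fun g => (V g).toContinuousLinearEquiv.toContinuousLinearMap
      map_one' := ext_basis b fun y => by simp [hV']
      map_mul' := fun g h => ext_basis b fun y => by simp [hV', mul_assoc] }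
  have hU : ∀ g x, U g x = V g x := fun g x => rfl
  refine ⟨U, fun g y => hV' g y, fun g => ?_⟩
  rw [ContinuousLinearMap.star_eq_adjoint, eq_comm, ContinuousLinearMap.eq_adjoint_iff]
  intro x y
  have h1 : U g (U g⁻¹ x) = x := by
    rw [← mul_apply_eq_comp, ← map_mul, mul_inv_cancel, map_one]; rfl
  rw [← (V g).inner_map_map, ← hU, ← hU, h1]

variable {k : ℕ}

/-- The vector with finitely many given coordinates. -/
def vec (b : HilbertBasis G ℂ H) (s : Finset G) (v : Fin k × s → ℂ) (p : Fin k) : H :=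
  ∑ x : s, v (p, x) • b x

omit [CompleteSpace H] in
theorem inner_vec (b : HilbertBasis G ℂ H) (s : Finset G) (T : Fin k → Fin k → H →L[ℂ] H)
    (v w : Fin k × s → ℂ) :
    ∑ p, ∑ q, ⟪vec b s v p, T p q (vec b s w q)⟫_ℂ =
      fm (fun (p q : Fin k × s) => ⟪b p.2, T p.1 q.1 (b q.2)⟫_ℂ) v w := by
  unfold fm vec
  rw [Fintype.sum_prod_type]
  refine Finset.sum_congr rfl fun p _ => ?_
  simp only [Fintype.sum_prod_type, sum_inner, inner_smul_left]
  rw [Finset.sum_comm]
  refine Finset.sum_congr rfl fun x _ => Finset.sum_congr rfl fun q _ => ?_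
  simp only [map_sum, inner_sum, map_smul, inner_smul_right]
  rw [Finset.mul_sum]
  refine Finset.sum_congr rfl fun y _ => ?_
  ring

omit [CompleteSpace H] in
theorem norm_vec (b : HilbertBasis G ℂ H) (s : Finset G) (v : Fin k × s → ℂ) :
    ∑ p, ‖vec b s v p‖ ^ 2 = nsq v := by
  unfold nsq
  rw [Fintype.sum_prod_type]
  refine Finset.sum_congr rfl fun p _ => ?_
  have h1 : Orthonormal ℂ (fun x : s => b x) := b.orthonormal.comp _ Subtype.val_injective
  have h2 := h1.inner_sum (fun x => v (p, x)) (fun x => v (p, x)) Finset.univ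
  rw [inner_self_eq_norm_sq_to_K] at h2
  simp only [RCLike.conj_mul] at h2
  unfold vec
  exact_mod_cast h2

/-- The coordinates of a family of vectors on a finite set. -/
def crd (b : HilbertBasis G ℂ H) (v : Fin k → H) (s : Finset G) (p : Fin k × s) : ℂ :=
  b.repr (v p.1) p.2

omit [CompleteSpace H] in
theorem tendsto_vec (b : HilbertBasis G ℂ H) (v : Fin k → H) (p : Fin k) :
    Tendsto (fun s : Finset G => vec b s (crd b v s) p) atTop (𝓝 (v p)) := by
  have h := b.hasSum_repr (v p)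
  refine Tendsto.congr (fun s => ?_) h
  unfold vec crd
  exact (Finset.sum_coe_sort s fun x => b.repr (v p) x • b x).symm

omit [CompleteSpace H] in
theorem tendsto_inner (b : HilbertBasis G ℂ H) (T : Fin k → Fin k → H →L[ℂ] H)
    (v w : Fin k → H) :
    Tendsto (fun s : Finset G => fm (fun (p q : Fin k × s) => ⟪b p.2, T p.1 q.1 (b q.2)⟫_ℂ)
      (crd b v s) (crd b w s)) atTop (𝓝 (∑ p, ∑ q, ⟪v p, T p q (w q)⟫_ℂ)) := by
  simp only [← inner_vec]
  refine tendsto_finsetSum _ fun p _ => tendsto_finsetSum _ fun q _ => ?_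
  exact (tendsto_vec b v p).inner (((T p q).continuous.tendsto _).comp (tendsto_vec b w q))

omit [CompleteSpace H] in
theorem tendsto_nsq (b : HilbertBasis G ℂ H) (v : Fin k → H) :
    Tendsto (fun s : Finset G => √(nsq (crd b v s))) atTop (𝓝 √(∑ p, ‖v p‖ ^ 2)) := by
  simp only [← norm_vec b]
  exact (tendsto_finsetSum _ fun p _ => (tendsto_vec b v p).norm.pow 2).sqrt

variable {A : Type} [CStarAlgebra A] [PartialOrder A] [StarOrderedRing A]

theorem nonneg_of_map (ρ : A →⋆ₐ[ℂ] (H →L[ℂ] H)) (hρ : Function.Injective ρ) (t : A)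
    (h : (ρ t).IsPositive) : ∃ c : A, t = star c * c := by
  have h0 : 0 ≤ ρ t := (ContinuousLinearMap.nonneg_iff_isPositive _).2 h
  have h1 : IsSelfAdjoint t := hρ (by rw [map_star]; exact IsSelfAdjoint.of_nonneg h0)
  rw [← CStarAlgebra.nonneg_iff_eq_star_mul_self,
    StarOrderedRing.nonneg_iff_spectrum_nonneg (R := ℝ) t h1, ← h1.map_spectrum_real ρ hρ]
  exact fun x hx => spectrum_nonneg_of_nonneg h0 hx

/-- The coefficient functional. -/
def cf (ρ : A →⋆ₐ[ℂ] (H →L[ℂ] H)) (x y : H) : StrongDual ℂ A :=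
  LinearMap.mkContinuous
    { toFun := fun a => ⟪x, ρ a y⟫_ℂ
      map_add' := fun a a' => by simp
      map_smul' := fun c a => by simp } (‖x‖ * ‖y‖) fun a => by
    have h1 := norm_inner_le_norm (𝕜 := ℂ) x (ρ a y)
    have h2 := (ρ a).le_opNorm y
    have h3 := NonUnitalStarAlgHom.norm_apply_le ρ a
    have h4 : ‖ρ a‖ * ‖y‖ ≤ ‖a‖ * ‖y‖ := mul_le_mul_of_nonneg_right h3 (norm_nonneg _)
    calc _ ≤ ‖x‖ * ‖ρ a y‖ := h1
      _ ≤ ‖x‖ * (‖a‖ * ‖y‖) := mul_le_mul_of_nonneg_left (h2.trans h4) (norm_nonneg _)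
      _ = _ := by ring

theorem reg_of [Group G] (hm : MatStmt) (b : HilbertBasis G ℂ H)
    (ρ : A →⋆ₐ[ℂ] (H →L[ℂ] H)) (hρ : Function.Injective ρ) (u : G →* A)
    (hu : ∀ g y, ρ (u g) (b y) = b (y * g⁻¹)) (hs : ∀ g, star (u g) = u g⁻¹)
    (hd : Dense (Submodule.span ℂ (Set.range u) : Set A)) : Nonempty (Reg G A) := by
  have hco : ∀ x y a, cf ρ x y a = ⟪x, ρ a y⟫_ℂ := fun x y a => rfl
  refine ⟨{ u := u
            u_star := hs
            co := fun x y => cf ρ (b x) (b y)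
            co_u := fun x y g => ?_
            dense := hd
            mat_le := fun k a s v w => ?_
            le_mat := fun k a c hc h => ?_
            pos := fun k M h a => ?_
            co_pos := fun a => ?_ }⟩
  · rw [hco, hu, orthonormal_iff_ite.1 b.orthonormal]
    exact if_congr ⟨fun h => by rw [h]; simp, fun h => by rw [h]; simp⟩ rfl rfl
  · have h1 := (hm H A ρ hρ k a).1 (vec b s v) (vec b s w)
    rw [inner_vec b s fun p q => ρ (a p q), norm_vec, norm_vec] at h1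
    exact h1
  · refine (hm H A ρ hρ k a).2 c hc fun v w => ?_
    refine le_of_tendsto_of_tendsto' (tendsto_inner b (fun p q => ρ (a p q)) v w).norm
      (((tendsto_nsq b v).const_mul c).mul (tendsto_nsq b w)) fun s => ?_
    exact h s _ _
  · refine nonneg_of_map ρ hρ _ ((ContinuousLinearMap.isPositive_iff_complex _).2 fun ξ => ?_)
    have h1 := tendsto_inner b (fun p q => ρ (M p q)) (fun p => ρ (a p) ξ) fun p => ρ (a p) ξ
    have h2 : ⟪ξ, ρ (∑ p, ∑ q, star (a p) * M p q * a q) ξ⟫_ℂ =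
        ∑ p, ∑ q, ⟪ρ (a p) ξ, ρ (M p q) (ρ (a q) ξ)⟫_ℂ := by
      simp only [map_sum, sum_apply, inner_sum, map_mul, map_star, mul_apply_eq_comp,
        ContinuousLinearMap.star_eq_adjoint, ContinuousLinearMap.adjoint_inner_right]
    rw [← h2] at h1
    have h3 := ge_of_tendsto' ((Complex.continuous_re.tendsto _).comp h1) fun s => (h s _).1
    have h4 := (Complex.continuous_im.tendsto _).comp h1
    have h5 := tendsto_nhds_unique h4 (tendsto_const_nhds.congr fun s => (h s _).2.symm)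
    rw [← inner_conj_symm]
    generalize ⟪ξ, ρ (∑ p, ∑ q, star (a p) * M p q * a q) ξ⟫_ℂ = z at h3 h5
    refine ⟨?_, by simpa using h3⟩
    apply Complex.ext
    · simp
    · simp [h5]
  · rw [hco, map_mul, map_star, mul_apply_eq_comp, ContinuousLinearMap.star_eq_adjoint,
      ContinuousLinearMap.adjoint_inner_right, inner_self_eq_norm_sq_to_K]
    have h1 : ((‖ρ a (b 1)‖ : ℂ)) ^ 2 = ((‖ρ a (b 1)‖ ^ 2 : ℝ) : ℂ) := by push_cast; rfl
    refine ⟨?_, ?_⟩
    · exact le_of_le_of_eq (sq_nonneg ‖ρ a (b 1)‖) (congrArg Complex.re h1).symm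
    · exact (congrArg Complex.im h1).trans (Complex.ofReal_im _)

/-- The span of the image of a unitary representation. -/
def alg [Group G] (U : G →* (H →L[ℂ] H)) (hs : ∀ g, star (U g) = U g⁻¹) :
    StarSubalgebra ℂ (H →L[ℂ] H) where
  carrier := Submodule.span ℂ (Set.range U)
  mul_mem' {a a'} ha ha' := by
    have h := Submodule.mul_mem_mul ha ha'
    rw [Submodule.span_mul_span] at h
    refine Submodule.span_mono ?_ h
    rintro _ ⟨_, ⟨g, rfl⟩, _, ⟨g', rfl⟩, rfl⟩
    exact ⟨g * g', map_mul U g g'⟩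
  add_mem' ha ha' := Submodule.add_mem _ ha ha'
  algebraMap_mem' c := by
    rw [Algebra.algebraMap_eq_smul_one]
    exact Submodule.smul_mem _ _ (Submodule.subset_span ⟨1, map_one U⟩)
  star_mem' {a} ha := by
    induction ha using Submodule.span_induction with
    | mem x hx =>
      obtain ⟨g, rfl⟩ := hx
      exact Submodule.subset_span ⟨g⁻¹, (hs g).symm⟩
    | zero => rw [star_zero]; exact Submodule.zero_mem _
    | add x y _ _ hx hy => rw [star_add]; exact Submodule.add_mem _ hx hy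
    | smul c x _ hx => rw [star_smul]; exact Submodule.smul_mem _ _ hx

end Red

theorem red (hm : MatStmt) : RedStmt := by
  intro G _
  let b : HilbertBasis G ℂ (lp (fun _ : G => ℂ) 2) := default
  obtain ⟨U, hU, hs⟩ := Red.exists_reg b
  let S := (Red.alg U hs).topologicalClosure
  have hS : IsClosed (S : Set (lp (fun _ : G => ℂ) 2 →L[ℂ] lp (fun _ : G => ℂ) 2)) :=
    (Red.alg U hs).isClosed_topologicalClosure
  have hmem : ∀ g, U g ∈ S := fun g =>
    (Red.alg U hs).le_topologicalClosure (Submodule.subset_span ⟨g, rfl⟩)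
  let u : G →* S := U.codRestrict S hmem
  let _ := CStarAlgebra.spectralOrder S
  have := CStarAlgebra.spectralOrderedRing S
  refine ⟨S, inferInstance, inferInstance, inferInstance,
    Red.reg_of hm b S.subtype Subtype.val_injective u hU (fun g => Subtype.ext (hs g)) ?_⟩
  rw [Subtype.dense_iff]
  have h1 : (Subtype.val '' (Submodule.span ℂ (Set.range u) : Set S)) =
      (Submodule.span ℂ (Set.range U) : Set _) := by
    have h2 := Submodule.map_span S.subtype.toLinearMap (Set.range u)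
    rw [← Set.range_comp] at h2
    exact congrArg SetLike.coe h2
  exact subset_of_eq (congrArg closure h1).symm

namespace Quot

/-- A C⋆-seminorm whose values are approximated by norms of lifts. -/
structure CS (B : Type) [CStarAlgebra B] where
  N : B → ℝ
  zero : N 0 = 0
  add : ∀ a b, N (a + b) ≤ N a + N b
  neg : ∀ a, N (-a) = N a
  mul : ∀ a b, N (a * b) ≤ N a * N b
  smul : ∀ (c : ℂ) a, N (c • a) ≤ ‖c‖ * N a
  str : ∀ a, N (star a) = N a
  cst : ∀ a, N a * N a ≤ N (star a * a)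
  le : ∀ a, N a ≤ ‖a‖
  lift : ∀ a (ε : ℝ), 0 < ε → ∃ a', N (a' - a) = 0 ∧ ‖a'‖ ≤ N a + ε

variable {B : Type} [CStarAlgebra B]

/-- The algebra with the seminorm. -/
def Syn (_S : CS B) : Type := B

variable (S : CS B)

instance : Ring (Syn S) := inferInstanceAs (Ring B)
instance : Algebra ℂ (Syn S) := inferInstanceAs (Algebra ℂ B)

instance : SeminormedRing (Syn S) :=
  { (inferInstance : Ring (Syn S)),
    AddGroupSeminorm.toSeminormedAddCommGroup (E := Syn S)
      { toFun := S.N, map_zero' := S.zero, add_le' := S.add, neg' := S.neg } with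
    norm_mul_le := S.mul }

instance : NormedAlgebra ℂ (Syn S) where
  norm_smul_le := S.smul

/-- The quotient algebra. -/
abbrev Cq : Type := SeparationQuotient (Syn S)

/-- The quotient map. -/
def mk (b : B) : Cq S := SeparationQuotient.mk (X := Syn S) b

theorem mk_surj : Function.Surjective (mk S) :=
  SeparationQuotient.surjective_mk (X := Syn S)

theorem norm_mk (b : B) : ‖mk S b‖ = S.N b := rfl

theorem mk_add (a b : B) : mk S (a + b) = mk S a + mk S b := rfl
theorem mk_sub (a b : B) : mk S (a - b) = mk S a - mk S b := rfl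
theorem mk_mul (a b : B) : mk S (a * b) = mk S a * mk S b := rfl
theorem mk_smul (c : ℂ) (a : B) : mk S (c • a) = c • mk S a := rfl

theorem mk_eq {a b : B} : mk S a = mk S b ↔ S.N (a - b) = 0 := by
  rw [← sub_eq_zero, ← mk_sub, ← norm_eq_zero, norm_mk]

instance : Star (Cq S) where
  star := SeparationQuotient.lift (X := Syn S) (fun b : B => mk S (star b)) fun a b h => by
    have h1 : mk S a = mk S b := SeparationQuotient.mk_eq_mk.2 h
    exact (mk_eq S).2 (by rw [← star_sub, S.str]; exact (mk_eq S).1 h1)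

theorem mk_star (b : B) : mk S (star b) = star (mk S b) := rfl

instance : StarRing (Cq S) where
  star_involutive x := by
    obtain ⟨a, rfl⟩ := mk_surj S x
    rw [← mk_star, ← mk_star, star_star]
  star_mul x y := by
    obtain ⟨a, rfl⟩ := mk_surj S x
    obtain ⟨b, rfl⟩ := mk_surj S y
    rw [← mk_mul, ← mk_star, star_mul, mk_mul, mk_star, mk_star]
  star_add x y := by
    obtain ⟨a, rfl⟩ := mk_surj S x
    obtain ⟨b, rfl⟩ := mk_surj S y
    rw [← mk_add, ← mk_star, star_add, mk_add, mk_star, mk_star]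

/-- The quotient map as a homomorphism. -/
def mkH : B →⋆ₐ[ℂ] Cq S where
  toFun := mk S
  map_one' := rfl
  map_mul' := mk_mul S
  map_zero' := rfl
  map_add' := mk_add S
  commutes' _ := rfl
  map_star' := mk_star S

theorem complete : CompleteSpace (Cq S) := by
  refine NormedAddCommGroup.completeSpace_of_summable_imp_tendsto fun u hu => ?_
  have h1 : ∀ n, ∃ a : B, mk S a = u n ∧ ‖a‖ ≤ ‖u n‖ + (1 / 2) ^ n := by
    intro n
    obtain ⟨a, ha⟩ := mk_surj S (u n)
    obtain ⟨a', h1, h2⟩ := S.lift a ((1 / 2) ^ n) (by positivity)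
    exact ⟨a', ((mk_eq S).2 h1).trans ha, by rwa [← ha, norm_mk]⟩
  choose a ha hb using h1
  have h2 : Summable a :=
    Summable.of_norm_bounded (hu.add summable_geometric_two) hb
  have h3 : Continuous (mkH S) :=
    AddMonoidHomClass.continuous_of_bound (mkH S) 1 fun b => by
      rw [one_mul]; exact S.le b
  refine ⟨mkH S (∑' n, a n), ?_⟩
  refine ((h3.tendsto _).comp h2.hasSum.tendsto_sum_nat).congr fun n => ?_
  simp only [Function.comp_apply, map_sum]
  exact Finset.sum_congr rfl fun i _ => ha i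

instance : CStarAlgebra (Cq S) where
  toCompleteSpace := complete S
  norm_mul_self_le x := by
    obtain ⟨a, rfl⟩ := mk_surj S x
    exact S.cst a
  star_smul c x := by
    obtain ⟨a, rfl⟩ := mk_surj S x
    rw [← mk_smul, ← mk_star, star_smul, mk_smul, mk_star]

section Lp

variable {D : ℕ → Type} [∀ n, CStarAlgebra (D n)] [∀ n, Nontrivial (D n)]

instance : CStarAlgebra (lp D ∞) where

/-- The tail of a bounded sequence. -/
def tl (k : ℕ) (b : lp D ∞) : lp D ∞ :=
  ⟨fun n => if k ≤ n then b n else 0, memℓp_infty ⟨‖b‖, by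
    rintro _ ⟨n, rfl⟩
    dsimp only
    split_ifs
    · exact lp.norm_apply_le_norm ENNReal.top_ne_zero b n
    · rw [norm_zero]; exact norm_nonneg b⟩⟩

omit [∀ n, Nontrivial (D n)] in
theorem tl_apply (k : ℕ) (b : lp D ∞) (n : ℕ) : tl k b n = if k ≤ n then b n else 0 := rfl

omit [∀ n, Nontrivial (D n)] in
theorem norm_tl_le {k : ℕ} {b : lp D ∞} {c : ℝ} (hc : 0 ≤ c) (h : ∀ n, k ≤ n → ‖b n‖ ≤ c) :
    ‖tl k b‖ ≤ c := by
  refine lp.norm_le_of_forall_le hc fun n => ?_
  rw [tl_apply]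
  split_ifs with hn
  · exact h n hn
  · rwa [norm_zero]

omit [∀ n, Nontrivial (D n)] in
theorem le_norm_tl {k n : ℕ} (b : lp D ∞) (h : k ≤ n) : ‖b n‖ ≤ ‖tl k b‖ := by
  have := lp.norm_apply_le_norm ENNReal.top_ne_zero (tl k b) n
  rwa [tl_apply, if_pos h] at this

/-- The tail map is a homomorphism. -/
def tlH (k : ℕ) : lp D ∞ →⋆ₙₐ[ℂ] lp D ∞ where
  toFun := tl k
  map_smul' c b := by
    ext n
    simp only [tl_apply, lp.coeFn_smul, Pi.smul_apply, MonoidHom.id_apply]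
    split_ifs <;> simp
  map_zero' := by
    ext n
    simp [tl_apply]
  map_add' a b := by
    ext n
    simp only [tl_apply, lp.coeFn_add, Pi.add_apply]
    split_ifs <;> simp
  map_mul' a b := by
    ext n
    simp only [tl_apply, lp.infty_coeFn_mul, Pi.mul_apply]
    split_ifs <;> simp
  map_star' a := by
    ext n
    simp only [tl_apply, lp.star_apply]
    split_ifs <;> simp

/-- The upper limit of the norms. -/
def NN (b : lp D ∞) : ℝ := ⨅ k, ‖tlH k b‖

theorem tendsto_NN (b : lp D ∞) : Tendsto (fun k => ‖tlH k b‖) atTop (𝓝 (NN b)) := by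
  refine tendsto_atTop_ciInf (fun k l h => ?_) ⟨0, by rintro _ ⟨k, rfl⟩; exact norm_nonneg _⟩
  exact norm_tl_le (norm_nonneg _) fun n hn => le_norm_tl b (h.trans hn)

theorem NN_eq {b : lp D ∞} {c : ℝ} (h : Tendsto (fun k => ‖tlH k b‖) atTop (𝓝 c)) :
    NN b = c := tendsto_nhds_unique (tendsto_NN b) h

theorem NN_tl (k : ℕ) (b : lp D ∞) : NN (tl k b - b) = 0 := by
  refine NN_eq (tendsto_const_nhds.congr' ?_)
  filter_upwards [eventually_ge_atTop k] with l hl
  refine le_antisymm (norm_nonneg _) (norm_tl_le le_rfl fun n hn => ?_)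
  simp [tl_apply, hl.trans hn]

variable (D) in
/-- The seminorm of the corona algebra. -/
def cs : CS (lp D ∞) where
  N := NN
  zero := NN_eq (by simp)
  add a b := le_of_tendsto_of_tendsto' (tendsto_NN _) ((tendsto_NN a).add (tendsto_NN b))
    fun k => by rw [map_add]; exact norm_add_le _ _
  neg a := NN_eq (by simpa using tendsto_NN a)
  mul a b := le_of_tendsto_of_tendsto' (tendsto_NN _) ((tendsto_NN a).mul (tendsto_NN b))
    fun k => by rw [map_mul]; exact norm_mul_le _ _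
  smul c a := le_of_tendsto_of_tendsto' (tendsto_NN _) ((tendsto_NN a).const_mul ‖c‖)
    fun k => by rw [map_smul]; exact norm_smul_le _ _
  str a := NN_eq (by simpa only [map_star, norm_star] using tendsto_NN a)
  cst a := le_of_tendsto_of_tendsto' ((tendsto_NN a).mul (tendsto_NN a)) (tendsto_NN _)
    fun k => by rw [map_mul, map_star, CStarRing.norm_star_mul_self]
  le a := le_of_tendsto' (tendsto_NN a) fun k =>
    norm_tl_le (norm_nonneg _) fun n _ => lp.norm_apply_le_norm ENNReal.top_ne_zero a n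
  lift a ε hε := by
    obtain ⟨k, hk⟩ := ((tendsto_NN a).eventually (gt_mem_nhds (lt_add_of_pos_right _ hε))).exists
    exact ⟨tl k a, NN_tl k a, hk.le⟩

/-- Evaluation at `n`. -/
def evH (n : ℕ) : lp D ∞ →⋆ₐ[ℂ] D n where
  toFun b := b n
  map_one' := rfl
  map_mul' _ _ := rfl
  map_zero' := rfl
  map_add' _ _ := rfl
  commutes' _ := rfl
  map_star' _ := rfl

omit [∀ n, Nontrivial (D n)] in
theorem sq_of (b : lp D ∞) (h : ∀ n, ∃ c, b n = star c * c) : ∃ c, b = star c * c := by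
  choose c hc using h
  refine ⟨⟨c, memℓp_infty ⟨√‖b‖, ?_⟩⟩, lp.ext (funext hc)⟩
  rintro _ ⟨n, rfl⟩
  refine Real.le_sqrt_of_sq_le ?_
  rw [sq, ← CStarRing.norm_star_mul_self, ← hc]
  exact lp.norm_apply_le_norm ENNReal.top_ne_zero b n

end Lp

section Mat

variable {X : Type} [Fintype X] [DecidableEq X]

/-- Operators on the Euclidean space. -/
abbrev Op (X : Type) [Fintype X] : Type := EuclideanSpace ℂ X →L[ℂ] EuclideanSpace ℂ X

/-- The matrix of an operator. -/
abbrev toM : Op X ≃⋆ₐ[ℂ] Matrix X X ℂ := (Matrix.toEuclideanCLM (n := X) (𝕜 := ℂ)).symm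

theorem fm_toM (T : Op X) (v w : EuclideanSpace ℂ X) :
    fm (toM T) v.ofLp w.ofLp = ⟪v, T w⟫_ℂ := by
  have hT : T = Matrix.toEuclideanCLM (n := X) (𝕜 := ℂ) (toM T) :=
    (StarAlgEquiv.apply_symm_apply _ T).symm
  generalize toM T = M at hT
  rw [hT, PiLp.inner_apply]
  refine Finset.sum_congr rfl fun i _ => ?_
  rw [Matrix.ofLp_toEuclideanCLM]
  simp [Matrix.mulVec, dotProduct, Finset.mul_sum, mul_comm, mul_left_comm, mul_assoc]

omit [DecidableEq X] in
theorem sqrt_nsq (v : EuclideanSpace ℂ X) : √(nsq v.ofLp) = ‖v‖ := by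
  rw [EuclideanSpace.norm_eq]; rfl

theorem bd_of_norm {T : Op X} {c : ℝ} (h : ‖T‖ ≤ c) : Bd (toM T) c := by
  intro v w
  have h1 := fm_toM T (WithLp.toLp 2 v) (WithLp.toLp 2 w)
  have h2 := sqrt_nsq (WithLp.toLp 2 v)
  have h3 := sqrt_nsq (WithLp.toLp 2 w)
  dsimp only at h1 h2 h3
  rw [h1, h2, h3]
  have h4 := (T.le_opNorm (WithLp.toLp 2 w)).trans
    (mul_le_mul_of_nonneg_right h (norm_nonneg _))
  calc _ ≤ _ := norm_inner_le_norm (𝕜 := ℂ) _ _
    _ ≤ _ := mul_le_mul_of_nonneg_left h4 (norm_nonneg _)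
    _ = _ := by ring

theorem norm_of_bd {T : Op X} {c : ℝ} (h : Bd (toM T) c) : ‖T‖ ≤ |c| := by
  refine ContinuousLinearMap.opNorm_le_bound _ (abs_nonneg c) fun w => ?_
  have h1 := h (T w).ofLp w.ofLp
  rw [fm_toM, sqrt_nsq, sqrt_nsq, inner_self_eq_norm_sq_to_K] at h1
  have h2 : ‖T w‖ * ‖T w‖ ≤ ‖T w‖ * (|c| * ‖w‖) := by
    have h3 : c * ‖T w‖ * ‖w‖ ≤ |c| * ‖T w‖ * ‖w‖ := by gcongr; exact le_abs_self c
    have h4 : ‖T w‖ ^ 2 ≤ c * ‖T w‖ * ‖w‖ := by simpa using h1
    nlinarith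
  rcases (norm_nonneg (T w)).eq_or_lt with h0 | h0
  · rw [← h0]; positivity
  · exact le_of_mul_le_mul_left h2 h0

theorem sq_of_fm {T : Op X} (h : ∀ v, 0 ≤ (fm (toM T) v v).re ∧ (fm (toM T) v v).im = 0) :
    ∃ c, T = star c * c := by
  rw [← CStarAlgebra.nonneg_iff_eq_star_mul_self, ContinuousLinearMap.nonneg_iff_isPositive,
    ContinuousLinearMap.isPositive_iff_complex]
  intro ξ
  have h1 := h ξ.ofLp
  rw [fm_toM] at h1
  rw [← inner_conj_symm]
  generalize ⟪ξ, T ξ⟫_ℂ = z at h1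
  refine ⟨?_, by simpa using h1.1⟩
  apply Complex.ext
  · simp
  · simp [h1.2]

end Mat

end Quot

theorem quot : QuotStmt := by
  intro X _ _ _
  let D : ℕ → Type := fun n => Quot.Op (X n)
  refine ⟨lp D ∞, Quot.Cq (Quot.cs D), inferInstance, inferInstance, ⟨
    { q := Quot.mkH (Quot.cs D)
      surj := Quot.mk_surj _
      ev := fun n => (Quot.toM (X := X n)).toStarAlgHom.comp (Quot.evH n)
      ex := fun m c h => ?_
      ext := fun b b' h => lp.ext (funext fun n => Quot.toM.injective (h n))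
      pos := fun b h => Quot.sq_of b fun n => Quot.sq_of_fm (h n)
      qpos := fun b h => ?_
      ker := fun b h ε hε => ?_ }⟩⟩
  · refine ⟨⟨fun n => Quot.toM.symm (m n), memℓp_infty ⟨|c|, ?_⟩⟩, fun n =>
      Quot.toM.apply_symm_apply (m n)⟩
    rintro _ ⟨n, rfl⟩
    exact Quot.norm_of_bd (by rw [StarAlgEquiv.apply_symm_apply]; exact h n)
  · obtain ⟨k, hk⟩ := eventually_atTop.1 h
    obtain ⟨c, hc⟩ := Quot.sq_of (Quot.tl k b) fun n => by
      rw [Quot.tl_apply]
      split_ifs with hn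
      · exact Quot.sq_of_fm (hk n hn)
      · exact ⟨0, by simp⟩
    refine ⟨Quot.mkH _ c, ?_⟩
    rw [← map_star, ← map_mul, ← hc]
    exact ((Quot.mk_eq _).2 (Quot.NN_tl k b)).symm
  · have h1 : Quot.NN b = 0 := by
      have := congrArg norm h
      rwa [norm_zero] at this
    have h2 := Quot.tendsto_NN b
    rw [h1] at h2
    obtain ⟨k, hk⟩ := (h2.eventually (gt_mem_nhds hε)).exists
    filter_upwards [eventually_ge_atTop k] with n hn
    exact Quot.bd_of_norm ((Quot.le_norm_tl b hn).trans hk.le)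

namespace Ub

variable {G : Type} [Group G] {A : Type} [CStarAlgebra A] [PartialOrder A] [StarOrderedRing A]
  {B : Type} [CStarAlgebra B]

omit [Group G] in
theorem ipB_sum {ι : Type} (s : Finset ι) (f : ι → G) (c : ι → B) :
    ipB (∑ i ∈ s, MonoidAlgebra.single (f i) (c i)) =
      ∑ i ∈ s, ∑ j ∈ s, if f i = f j then star (c i) * c j else 0 := by
  set β : MonoidAlgebra B G := ∑ i ∈ s, MonoidAlgebra.single (f i) (c i) with hβ
  have h1 : ∀ w, β.coeff w = ∑ i ∈ s, if f i = w then c i else 0 := fun w => by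
    rw [hβ, MonoidAlgebra.coeff_sum, Finsupp.finsetSum_apply]
    exact Finset.sum_congr rfl fun i _ => Finsupp.single_apply
  have h2 : β.coeff.support ⊆ s.image f := by
    intro w hw
    rw [Finsupp.mem_support_iff, h1] at hw
    obtain ⟨i, hi, h⟩ := Finset.exists_ne_zero_of_sum_ne_zero hw
    exact Finset.mem_image.2 ⟨i, hi, by by_contra h'; exact h (if_neg h')⟩
  unfold ipB
  rw [Finset.sum_subset h2 fun w _ hw => by rw [Finsupp.notMem_support_iff.1 hw, mul_zero]]
  simp only [h1, star_sum, Finset.sum_mul, Finset.mul_sum]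
  rw [Finset.sum_comm]
  rw [Finset.sum_comm (s := s) (t := s)]
  refine Finset.sum_congr rfl fun j hj => ?_
  rw [Finset.sum_comm]
  refine Finset.sum_congr rfl fun i hi => ?_
  rw [Finset.sum_eq_single (f j)]
  · by_cases h : f i = f j <;> simp [h]
  · intro w _ hw
    simp [Ne.symm hw]
  · intro h
    exact absurd (Finset.mem_image_of_mem f hj) h

omit [PartialOrder A] [StarOrderedRing A] in
theorem prodFun_tmul (φ : B →ₗ[ℂ] ℂ) (ψ : A →ₗ[ℂ] ℂ) (b : B) (a : A) :
    prodFun φ ψ (b ⊗ₜ[ℂ] a) = φ b * ψ a := by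
  simp [prodFun]

variable {k : ℕ}

/-- The matrix whose positivity is the estimate. -/
def MM (R : Reg G A) (x : MonoidAlgebra B G) (η : ℝ) (φ : B →ₗ[ℂ] ℂ) (b : Fin k → B) :
    Matrix (Fin k) (Fin k) A := fun p q =>
  ((η : ℂ) ^ 2 * φ (star (b p) * b q)) • R.u 1 -
    ∑ g ∈ x.coeff.support, ∑ h ∈ x.coeff.support,
      φ (star (x.coeff g * b p) * (x.coeff h * b q)) • R.u (g⁻¹ * h)

theorem form_eq (R : Reg G A) (x : MonoidAlgebra B G) (η : ℝ) (φ : B →ₗ[ℂ] ℂ) (b : Fin k → B)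
    (s : Finset G) (v : Fin k × s → ℂ) :
    ∃ β : MonoidAlgebra B G,
      fm (fun (p q : Fin k × s) => R.co p.2 q.2 (MM R x η φ b p.1 q.1)) v v =
        φ (((η : ℂ) ^ 2) • ipB β - ipB (x * β)) := by
  refine ⟨∑ p : Fin k × s, MonoidAlgebra.single (p.2 : G)⁻¹ (v p • b p.1), ?_⟩
  have h1 : x * ∑ p : Fin k × s, MonoidAlgebra.single (p.2 : G)⁻¹ (v p • b p.1) =
      ∑ i ∈ (Finset.univ : Finset (Fin k × s)) ×ˢ x.coeff.support,
        MonoidAlgebra.single (i.2 * (i.1.2 : G)⁻¹) (v i.1 • (x.coeff i.2 * b i.1.1)) := by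
    rw [Finset.sum_product, Finset.mul_sum]
    refine Finset.sum_congr rfl fun p _ => ?_
    conv_lhs => rw [← x.sum_coeff_single, Finsupp.sum, Finset.sum_mul]
    refine Finset.sum_congr rfl fun g _ => ?_
    rw [MonoidAlgebra.single_mul_single, mul_smul_comm]
  rw [h1, ipB_sum, ipB_sum, map_sub, map_smul, map_sum, map_sum, Finset.sum_product,
    smul_eq_mul, Finset.mul_sum, ← Finset.sum_sub_distrib]
  refine Finset.sum_congr rfl fun p _ => ?_
  simp only [map_sum, Finset.sum_product]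
  rw [Finset.sum_comm (s := x.coeff.support), Finset.mul_sum, ← Finset.sum_sub_distrib]
  refine Finset.sum_congr rfl fun q _ => ?_
  simp only [MM, map_sub, map_smul, map_sum, R.co_u, smul_eq_mul, mul_sub, sub_mul,
    Finset.mul_sum, Finset.sum_mul]
  congr 1
  · by_cases h : (q.2 : G) = p.2
    · simp [h]; ring
    · have h' : ¬ (p.2 : G) = q.2 := fun h' => h h'.symm
      simp [h, h']
  · refine Finset.sum_congr rfl fun g _ => Finset.sum_congr rfl fun h _ => ?_
    have h2 : (q.2 : G) = p.2 * (g⁻¹ * h) ↔ g * (p.2 : G)⁻¹ = h * (q.2 : G)⁻¹ := by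
      constructor
      · intro h3; rw [h3]; group
      · intro h3
        have : h = g * (p.2 : G)⁻¹ * q.2 := by rw [h3]; group
        rw [this]; group
    by_cases h3 : g * (p.2 : G)⁻¹ = h * (q.2 : G)⁻¹
    · rw [if_pos h3, if_pos (h2.2 h3)]
      simp only [star_smul, smul_mul_smul_comm, map_smul, smul_eq_mul, RCLike.star_def]
      ring
    · rw [if_neg h3, if_neg fun h4 => h3 (h2.1 h4)]
      simp

theorem state_eq (R : Reg G A) (x : MonoidAlgebra B G) (η : ℝ) (φ : B →ₗ[ℂ] ℂ) (ψ : A →ₗ[ℂ] ℂ)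
    (b : Fin k → B) (a : Fin k → A) :
    ψ (∑ p, ∑ q, star (a p) * MM R x η φ b p q * a q) =
      (η : ℂ) ^ 2 * prodFun φ ψ (star (∑ p, b p ⊗ₜ[ℂ] a p) * ∑ p, b p ⊗ₜ[ℂ] a p) -
        prodFun φ ψ (star (R.lam x * ∑ p, b p ⊗ₜ[ℂ] a p) * (R.lam x * ∑ p, b p ⊗ₜ[ℂ] a p)) := by
  have h1 : R.lam x * ∑ p, b p ⊗ₜ[ℂ] a p =
      ∑ p, ∑ g ∈ x.coeff.support, (x.coeff g * b p) ⊗ₜ[ℂ] (R.u g * a p) := by
    rw [Finset.mul_sum]
    refine Finset.sum_congr rfl fun p _ => ?_
    rw [Reg.lam, Finset.sum_mul]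
    exact Finset.sum_congr rfl fun g _ => Algebra.TensorProduct.tmul_mul_tmul _ _ _ _
  rw [h1, star_sum, star_sum, Finset.sum_mul, Finset.sum_mul, map_sum, map_sum, map_sum,
    Finset.mul_sum, ← Finset.sum_sub_distrib]
  refine Finset.sum_congr rfl fun p _ => ?_
  rw [Finset.mul_sum, Finset.mul_sum, map_sum, map_sum, map_sum, Finset.mul_sum,
    ← Finset.sum_sub_distrib]
  refine Finset.sum_congr rfl fun q _ => ?_
  rw [star_sum, Finset.sum_mul_sum]
  simp only [MM, mul_sub, sub_mul, Finset.mul_sum, Finset.sum_mul, map_sub, map_sum,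
    TensorProduct.star_tmul, Algebra.TensorProduct.tmul_mul_tmul, prodFun_tmul, mul_smul_comm,
    smul_mul_assoc, map_smul, smul_eq_mul, map_one, mul_one]
  congr 1
  · ring
  · refine Finset.sum_congr rfl fun g _ => Finset.sum_congr rfl fun h _ => ?_
    rw [star_mul (R.u g), R.u_star, map_mul R.u]
    simp only [mul_assoc]

end Ub

theorem ub : UbStmt := by
  intro G _ A _ _ _ R B _ x η hη h
  refine iSup_le fun φ => iSup_le fun hφ => iSup_le fun ψ => iSup_le fun hψ =>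
    iSup_le fun y => iSup_le fun hy => ENNReal.ofReal_le_ofReal ?_
  obtain ⟨S, rfl⟩ := TensorProduct.exists_finset y
  let e := S.equivFin.symm
  have he : ∑ i ∈ S, i.1 ⊗ₜ[ℂ] i.2 = ∑ p, (e p).1.1 ⊗ₜ[ℂ] (e p).1.2 := by
    rw [← Finset.sum_coe_sort]
    exact (e.sum_comp fun i => i.1.1 ⊗ₜ[ℂ] i.1.2).symm
  rw [he] at hy ⊢
  obtain ⟨c, hc⟩ := R.pos _ (Ub.MM R x η φ fun p => (e p).1.1) (fun s v => by
    obtain ⟨β, hβ⟩ := Ub.form_eq R x η φ (fun p => (e p).1.1) s v
    obtain ⟨c, hc⟩ := h β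
    rw [hβ, hc]
    exact hφ.2 c) fun p => (e p).1.2
  have h1 := Ub.state_eq R x η φ ψ (fun p => (e p).1.1) fun p => (e p).1.2
  have h2 := (hψ.2 c).1
  rw [← hc, h1, Complex.sub_re, ← Complex.ofReal_pow, Complex.re_ofReal_mul] at h2
  rw [Real.sqrt_le_left hη]
  nlinarith [sq_nonneg η]

end Pool.Agent.MP_88ca14_an

end
end MrgPart1

-- marker of a merged file
example : 731051 + 706561 = 731051 + 706561 := rfl
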