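import Mathlib.Algebra.BigOperators.Field
import Mathlib.Tactic.Monotonicity.Lemmas
import Mathlib.Algebra.Order.Star.Real
import Mathlib.Analysis.CStarAlgebra.Classes
import Mathlib.Data.List.ReduceOption
import Mathlib.Tactic.Algebra.Basic
import Pool.Agent.MP_88ca14_an.SpecG

/-!
PROJECT LRX: amenability lemmas (`unn`, `nest`, `nbh`) and heavy words (`hv`, `l2`).
-/

set_option autoImplicit false

noncomputable section

namespace Pool.Agent.MP_88ca14_an

open scoped Classical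

namespace Amn

/-! ### The norm `l1` -/

section L1

variable {α : Type}

theorem l1_eq (φ : α →₀ ℝ) (s : Finset α) (h : φ.support ⊆ s) : l1 φ = ∑ z ∈ s, |φ z| := by
  unfold l1
  refine Finset.sum_subset h fun z _ hz => ?_
  rw [Finsupp.notMem_support_iff.1 hz, abs_zero]

theorem l1_nonneg (φ : α →₀ ℝ) : 0 ≤ l1 φ := Finset.sum_nonneg fun _ _ => abs_nonneg _

theorem l1_le_add (φ ψ χ : α →₀ ℝ) (h : ∀ z, |φ z| ≤ |ψ z| + |χ z|) : l1 φ ≤ l1 ψ + l1 χ := by
  rw [l1_eq φ (φ.support ∪ ψ.support ∪ χ.support) (fun z hz => by simp_all),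
    l1_eq ψ (φ.support ∪ ψ.support ∪ χ.support) (fun z hz => by simp_all),
    l1_eq χ (φ.support ∪ ψ.support ∪ χ.support) (fun z hz => by simp_all),
    ← Finset.sum_add_distrib]
  exact Finset.sum_le_sum fun z _ => h z

theorem l1_smul (c : ℝ) (φ : α →₀ ℝ) : l1 (c • φ) = |c| * l1 φ := by
  rw [l1_eq (c • φ) φ.support Finsupp.support_smul, l1, Finset.mul_sum]
  exact Finset.sum_congr rfl fun z _ => by simp [abs_mul]

theorem l1_neg_sub (φ ψ : α →₀ ℝ) : l1 (φ - ψ) = l1 (ψ - φ) := by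
  have : φ - ψ = (-1 : ℝ) • (ψ - φ) := by simp
  rw [this, l1_smul]; simp

theorem l1_sub_ge (φ ψ : α →₀ ℝ) : |l1 φ - l1 ψ| ≤ l1 (φ - ψ) := by
  have h1 := l1_le_add φ ψ (φ - ψ) fun z => by
    have := abs_add_le (ψ z) (φ z - ψ z)
    simpa using this
  have h2 := l1_le_add ψ φ (ψ - φ) fun z => by
    have := abs_add_le (φ z) (ψ z - φ z)
    simpa using this
  rw [l1_neg_sub ψ φ] at h2
  rw [abs_le]; constructor <;> linarith

/-- The total mass. -/
def tot : (α →₀ ℝ) →+ ℝ := Finsupp.liftAddHom fun _ => AddMonoidHom.id ℝ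

theorem tot_single (a : α) (r : ℝ) : tot (Finsupp.single a r) = r := by simp [tot]

theorem l1_tot (φ : α →₀ ℝ) (h : ∀ z, 0 ≤ φ z) : l1 φ = tot φ := by
  rw [tot, Finsupp.liftAddHom_apply, Finsupp.sum, l1]
  exact Finset.sum_congr rfl fun z _ => by simp [abs_of_nonneg (h z)]

/-- The push-forward of the counting measure of `s`. -/
def blk {Ω : Type} (κ : Ω → α) (s : Finset Ω) : α →₀ ℝ := ∑ o ∈ s, Finsupp.single (κ o) 1

theorem blk_apply {Ω : Type} (κ : Ω → α) (s : Finset Ω) (z : α) :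
    blk κ s z = ∑ o ∈ s, if κ o = z then (1 : ℝ) else 0 := by
  rw [blk, Finsupp.finsetSum_apply]
  exact Finset.sum_congr rfl fun o _ => by rw [Finsupp.single_apply]

theorem blk_nonneg {Ω : Type} (κ : Ω → α) (s : Finset Ω) (z : α) : 0 ≤ blk κ s z := by
  rw [blk_apply]; exact Finset.sum_nonneg fun o _ => by split_ifs <;> norm_num

theorem blk_mono {Ω : Type} (κ : Ω → α) {s t : Finset Ω} (h : s ⊆ t) (z : α) :
    blk κ s z ≤ blk κ t z := by
  rw [blk_apply, blk_apply]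
  exact Finset.sum_le_sum_of_subset_of_nonneg h fun o _ _ => by split_ifs <;> norm_num

theorem tot_blk {Ω : Type} (κ : Ω → α) (s : Finset Ω) : tot (blk κ s) = s.card := by
  rw [blk, map_sum]; simp [tot_single]

theorem blk_ne {Ω : Type} (κ : Ω → α) (s : Finset Ω) (z : α) (h : blk κ s z ≠ 0) :
    ∃ o ∈ s, κ o = z := by
  rw [blk_apply] at h
  obtain ⟨o, ho, h'⟩ := Finset.exists_ne_zero_of_sum_ne_zero h
  exact ⟨o, ho, by by_contra hc; simp [hc] at h'⟩

end L1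

section WGs

variable {G : Type} [Group G] (W : WG G)

theorem ds_symm (x y : G) : W.ds x y = W.ds y x := by
  unfold WG.ds
  rw [← W.wl_inv]; simp

theorem ds_tri (x y z : G) : W.ds x z ≤ W.ds x y + W.ds y z := by
  unfold WG.ds
  have := W.wl_mul (x⁻¹ * y) (y⁻¹ * z)
  simpa [mul_assoc] using this

end WGs

end Amn

open Amn

theorem unn : UnnStmt := by
  intro α near V R ε S ξ h0 hpos hsupp hcl
  refine ⟨fun x => (l1 (ξ x))⁻¹ • ξ x, fun x z => ?_, fun x hx => ?_, fun x hx z hz => ?_,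
    fun x hx y hy hxy => ?_⟩
  · simpa using mul_nonneg (inv_nonneg.2 (l1_nonneg _)) (h0 x z)
  · rw [l1_smul, abs_of_pos (inv_pos.2 (hpos x hx)), inv_mul_cancel₀ (hpos x hx).ne']
  · refine hsupp x hx z fun h => hz ?_
    simp [h]
  · have ha := hpos x hx
    have hb := hpos y hy
    have h1 := hcl x hx y hy hxy
    have h2 := l1_sub_ge (ξ x) (ξ y)
    have h3 := l1_le_add ((l1 (ξ x))⁻¹ • ξ x - (l1 (ξ y))⁻¹ • ξ y) ((l1 (ξ x))⁻¹ • (ξ x - ξ y))
      (((l1 (ξ x))⁻¹ - (l1 (ξ y))⁻¹) • ξ y) fun z => by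
        refine le_trans (le_of_eq ?_) (abs_add_le _ _)
        congr 1
        simp only [Finsupp.sub_apply, Finsupp.smul_apply, smul_eq_mul]
        ring
    rw [l1_smul, l1_smul, abs_of_pos (inv_pos.2 ha)] at h3
    have h4 : |(l1 (ξ x))⁻¹ - (l1 (ξ y))⁻¹| * l1 (ξ y) = (l1 (ξ x))⁻¹ * |l1 (ξ x) - l1 (ξ y)| := by
      rw [← abs_of_pos hb, ← abs_mul, abs_of_pos hb, ← abs_of_pos (inv_pos.2 ha), ← abs_mul,
        abs_of_pos (inv_pos.2 ha), ← abs_neg]
      congr 1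
      field_simp
      ring
    rw [h4] at h3
    have h5 : (l1 (ξ x))⁻¹ * l1 (ξ x - ξ y) ≤ ε := by
      rw [inv_mul_le_iff₀ ha]; linarith
    have h6 : (l1 (ξ x))⁻¹ * |l1 (ξ x) - l1 (ξ y)| ≤ (l1 (ξ x))⁻¹ * l1 (ξ x - ξ y) :=
      mul_le_mul_of_nonneg_left h2 (inv_nonneg.2 ha.le)
    show l1 ((l1 (ξ x))⁻¹ • ξ x - (l1 (ξ y))⁻¹ • ξ y) ≤ 2 * ε
    linarith

theorem nest : NestStmt := by
  intro G _ W Ω F κ V R M A C S hA hM hsub hF
  let ξ : G → G →₀ ℝ := fun x => ∑ k ∈ Finset.range M, blk κ (F x k)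
  let η : G → G →₀ ℝ := fun x => ∑ k ∈ Finset.range R, blk κ (F x (M + k))
  have hξ : ∀ x z, ξ x z = ∑ k ∈ Finset.range M, blk κ (F x k) z := fun x z =>
    Finsupp.finsetSum_apply _ _ _
  have hη : ∀ x z, η x z = ∑ k ∈ Finset.range R, blk κ (F x (M + k)) z := fun x z =>
    Finsupp.finsetSum_apply _ _ _
  have hξ0 : ∀ x z, 0 ≤ ξ x z := fun x z => by
    rw [hξ]; exact Finset.sum_nonneg fun k _ => blk_nonneg _ _ _
  have hη0 : ∀ x z, 0 ≤ η x z := fun x z => by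
    rw [hη]; exact Finset.sum_nonneg fun k _ => blk_nonneg _ _ _
  have hlow : ∀ x ∈ V, (M : ℝ) * A ≤ l1 (ξ x) := fun x hx => by
    rw [l1_tot _ (hξ0 x), map_sum]
    calc (M : ℝ) * A = ∑ _k ∈ Finset.range M, (A : ℝ) := by simp
      _ ≤ _ := Finset.sum_le_sum fun k hk => by
        rw [tot_blk]
        exact_mod_cast (hF x hx k (by have := Finset.mem_range.1 hk; omega)).1
  have hup : ∀ x ∈ V, l1 (η x) ≤ (R : ℝ) * (C * A) := fun x hx => by
    rw [l1_tot _ (hη0 x), map_sum]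
    calc _ ≤ ∑ _k ∈ Finset.range R, ((C : ℝ) * A) := Finset.sum_le_sum fun k hk => by
          rw [tot_blk]
          exact_mod_cast (hF x hx (M + k) (by have := Finset.mem_range.1 hk; omega)).2.1
      _ = _ := by simp
  have hone : ∀ x ∈ V, ∀ y ∈ V, W.ds x y ≤ R → ∀ z, ξ x z ≤ ξ y z + η y z := by
    intro x hx y hy hxy z
    rw [hξ, hξ, hη, ← Finset.sum_range_add (fun k => blk κ (F y k) z), add_comm M R,
      Finset.sum_range_add (fun k => blk κ (F y k) z)]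
    have h1 : ∑ k ∈ Finset.range M, blk κ (F x k) z ≤
        ∑ k ∈ Finset.range M, blk κ (F y (R + k)) z :=
      Finset.sum_le_sum fun k _ => blk_mono κ (by rw [add_comm R k]; exact hsub x hx y hy hxy k) z
    have h2 : 0 ≤ ∑ k ∈ Finset.range R, blk κ (F y k) z :=
      Finset.sum_nonneg fun k _ => blk_nonneg _ _ _
    linarith
  have hM' : (0 : ℝ) < M := by exact_mod_cast hM
  have hA' : (0 : ℝ) < A := by exact_mod_cast hA
  have key := unn G W.near V R (2 * R * C / M) S ξ hξ0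
    (fun x hx => lt_of_lt_of_le (mul_pos hM' hA') (hlow x hx)) (fun x hx z hz => ?_)
    (fun x hx y hy hxy => ?_)
  · have : (4 * R * C / M : ℝ) = 2 * (2 * R * C / M) := by ring
    rw [this]; exact key
  · rw [hξ] at hz
    obtain ⟨k, hk, hk'⟩ := Finset.exists_ne_zero_of_sum_ne_zero hz
    obtain ⟨o, ho, rfl⟩ := blk_ne _ _ _ hk'
    exact (hF x hx k (by have := Finset.mem_range.1 hk; omega)).2.2 o ho
  · have hxy' : W.ds x y ≤ R := hxy
    have h1 := l1_le_add (ξ x - ξ y) (η x) (η y) fun z => by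
      have a1 := hone x hx y hy hxy' z
      have a2 := hone y hy x hx (by rw [ds_symm]; exact hxy') z
      have a3 := hη0 x z
      have a4 := hη0 y z
      rw [abs_of_nonneg a3, abs_of_nonneg a4, Finsupp.sub_apply, abs_le]
      constructor <;> linarith
    have h2 := hup x hx
    have h3 := hup y hy
    have h4 : (2 * R * C / M : ℝ) * (M * A) ≤ 2 * R * C / M * l1 (ξ x) :=
      mul_le_mul_of_nonneg_left (hlow x hx) (by positivity)
    have h5 : (2 * R * C / M : ℝ) * (M * A) = 2 * (R * (C * A)) := by field_simp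
    linarith

theorem nbh : NbhStmt := by
  intro G _ W V R R₀ ε S ⟨μ, h0, h1, h2, h3⟩
  have hp : ∀ x, ∃ y, x ∈ W.Nb R₀ V → y ∈ V ∧ W.ds x y ≤ R₀ := fun x => by
    by_cases h : x ∈ W.Nb R₀ V
    · obtain ⟨y, hy, hy'⟩ := h
      exact ⟨y, fun _ => ⟨hy, hy'⟩⟩
    · exact ⟨x, fun h' => absurd h' h⟩
  choose p hp using hp
  refine ⟨fun x => μ (p x), fun x z => h0 _ _, fun x hx => h1 _ (hp x hx).1, fun x hx z hz => ?_,
    fun x hx y hy hxy => h3 _ (hp x hx).1 _ (hp y hy).1 ?_⟩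
  · have a1 : W.ds (p x) z ≤ S := h2 _ (hp x hx).1 z hz
    have a2 := (hp x hx).2
    have a3 := ds_tri W x (p x) z
    show W.ds x z ≤ S + R₀
    omega
  · have a1 : W.ds x y ≤ R := hxy
    have a2 := (hp x hx).2
    have a3 := (hp y hy).2
    have a4 := ds_tri W (p x) x (p y)
    have a5 := ds_tri W x y (p y)
    rw [ds_symm W (p x) x] at a4
    show W.ds (p x) (p y) ≤ R + 2 * R₀
    omega

namespace Amn

/-! ### Walks -/

section Walks

variable {σ V : Type} (Y : LG σ V)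

theorem step_fun {v w w' : V} {a : σ × Bool} (h : Y.step v a w) (h' : Y.step v a w') : w = w' := by
  rcases h with ⟨h1, h2⟩ | ⟨h1, h2⟩ <;> rcases h' with ⟨h3, h4⟩ | ⟨h3, h4⟩
  · exact Y.func h2 h4
  · rw [h1] at h3; cases h3
  · rw [h1] at h3; cases h3
  · exact Y.inj h2 h4

theorem step_rev {v w : V} {a : σ × Bool} (h : Y.step v a w) : Y.step w (a.1, !a.2) v := by
  rcases h with ⟨h1, h2⟩ | ⟨h1, h2⟩
  · exact Or.inr ⟨by simp [h1], h2⟩
  · exact Or.inl ⟨by simp [h1], h2⟩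

theorem walk_fun : ∀ (L : List (σ × Bool)) {v w w' : V}, Y.Walk v L w → Y.Walk v L w' → w = w'
  | [], _, _, _, h, h' => Eq.trans (Eq.symm h) h'
  | _ :: L, _, _, _, ⟨_, h1, h2⟩, ⟨_, h3, h4⟩ => by
    cases step_fun Y h1 h3
    exact walk_fun L h2 h4

theorem walk_append : ∀ (L L' : List (σ × Bool)) {v w : V},
    Y.Walk v (L ++ L') w ↔ ∃ u, Y.Walk v L u ∧ Y.Walk u L' w
  | [], L', v, w => ⟨fun h => ⟨v, rfl, h⟩, fun ⟨u, h1, h2⟩ => by cases h1; exact h2⟩
  | a :: L, L', v, w => by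
    constructor
    · rintro ⟨u, h1, h2⟩
      obtain ⟨u', h3, h4⟩ := (walk_append L L').1 h2
      exact ⟨u', ⟨u, h1, h3⟩, h4⟩
    · rintro ⟨u', ⟨u, h1, h3⟩, h4⟩
      exact ⟨u, h1, (walk_append L L').2 ⟨u', h3, h4⟩⟩

theorem walk_rev : ∀ (L : List (σ × Bool)) {v w : V}, Y.Walk v L w →
    Y.Walk w (FreeGroup.invRev L) v
  | [], _, _, h => Eq.symm h
  | a :: L, v, w, ⟨u, h1, h2⟩ => by
    have : FreeGroup.invRev (a :: L) = FreeGroup.invRev L ++ [(a.1, !a.2)] := by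
      simp [FreeGroup.invRev]
    rw [this, walk_append]
    exact ⟨u, walk_rev L h2, v, step_rev Y h1, rfl⟩

theorem lists_le {D : ℕ} (hD : Y.Deg D) : ∀ (n : ℕ) (v : V), ∃ s : Finset (List (σ × Bool)),
    s.card ≤ D ^ n ∧ ∀ L w, L.length = n → Y.Walk v L w → L ∈ s
  | 0, v => ⟨{[]}, by simp, fun L w h _ => by simpa using h⟩
  | n + 1, v => by
    obtain ⟨s, hs, hs'⟩ := hD v
    choose S hS hS' using lists_le hD n
    have hu : ∀ a, ∃ u, ∀ y, Y.step v a y → y = u := fun a => by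
      by_cases h : ∃ y, Y.step v a y
      · obtain ⟨y, hy⟩ := h
        exact ⟨y, fun y' hy' => step_fun Y hy' hy⟩
      · exact ⟨v, fun y hy => absurd ⟨y, hy⟩ h⟩
    choose u hu using hu
    refine ⟨s.biUnion fun a => (S (u a)).image (a :: ·), ?_, ?_⟩
    · refine (Finset.card_biUnion_le_card_mul _ _ (D ^ n) fun a _ =>
        Finset.card_image_le.trans (hS _)).trans ?_
      rw [pow_succ, mul_comm]
      exact Nat.mul_le_mul_left _ hs
    · intro L w hL hw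
      match L, hL, hw with
      | a :: L, hL, ⟨y, h1, h2⟩ =>
        cases hu a y h1
        exact Finset.mem_biUnion.2 ⟨a, hs' a _ h1,
          Finset.mem_image.2 ⟨L, hS' _ L w (by simpa using hL) h2, rfl⟩⟩

variable [DecidableEq σ]

theorem rd_fun {v w w' : V} {g : FreeGroup σ} (h : Y.Rd v g w) (h' : Y.Rd v g w') : w = w' :=
  walk_fun Y _ h h'

theorem rd_inv {v w : V} {g : FreeGroup σ} (h : Y.Rd v g w) : Y.Rd w g⁻¹ v := by
  unfold LG.Rd
  rw [FreeGroup.toWord_inv]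
  exact walk_rev Y _ h

theorem rd_inj {v v' w : V} {g : FreeGroup σ} (h : Y.Rd v g w) (h' : Y.Rd v' g w) : v = v' :=
  rd_fun Y (rd_inv Y h) (rd_inv Y h')

theorem toWord_pfx (g : FreeGroup σ) (k : ℕ) : (pfx g k).toWord = g.toWord.take k := by
  rw [pfx, FreeGroup.toWord_mk]
  exact FreeGroup.IsReduced.reduce_eq (List.IsChain.take FreeGroup.isReduced_toWord k)

theorem norm_pfx (g : FreeGroup σ) {k : ℕ} (h : k ≤ g.norm) : (pfx g k).norm = k := by
  unfold FreeGroup.norm at *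
  rw [toWord_pfx, List.length_take]; omega

theorem reads_pfx {v : V} {g : FreeGroup σ} (h : Y.Reads v g) (k : ℕ) : Y.Reads v (pfx g k) := by
  obtain ⟨w, hw⟩ := h
  unfold LG.Rd at hw
  rw [← List.take_append_drop k g.toWord, walk_append] at hw
  obtain ⟨u, hu, -⟩ := hw
  exact ⟨u, by unfold LG.Rd; rw [toWord_pfx]; exact hu⟩

/-- A vertex reads at most `D ^ n` words of length `n`. -/
theorem card_reads {D : ℕ} (hD : Y.Deg D) (n : ℕ) (v : V) (s : Finset (FreeGroup σ))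
    (hs : ∀ g ∈ s, g.norm = n ∧ Y.Reads v g) : s.card ≤ D ^ n := by
  obtain ⟨t, ht, ht'⟩ := lists_le Y hD n v
  refine le_trans (Finset.card_le_card_of_injOn FreeGroup.toWord (fun g hg => ?_)
    FreeGroup.toWord_injective.injOn) ht
  obtain ⟨h1, w, hw⟩ := hs g hg
  exact ht' _ w h1 hw

omit [DecidableEq σ] in
theorem ofFn_red : ∀ (R : ℕ) (L : List (σ × Bool)), L.length ≤ R →
    (List.ofFn fun i : Fin R => L[i.val]?).reduceOption = L
  | 0, L, h => by
    have : L = [] := List.eq_nil_of_length_eq_zero (by omega)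
    simp [this]
  | R + 1, [], _ => by
    rw [List.ofFn_succ]
    simp
  | R + 1, a :: L, h => by
    have := ofFn_red R L (by simpa using h)
    rw [List.ofFn_succ]
    simpa using this

theorem mem_ballF [Fintype σ] {R : ℕ} {g : FreeGroup σ} (h : g.norm ≤ R) : g ∈ ballF σ R :=
  Finset.mem_image.2 ⟨fun i => g.toWord[i.val]?, Finset.mem_univ _, by
    rw [ofFn_red R _ h, FreeGroup.mk_toWord]⟩

end Walks

/-! ### Heavy words -/

section Heavy

variable {σ : Type} [Fintype σ] [DecidableEq σ] (T : Tiles σ) (w : T.X → ℝ) (i : T.ι)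

theorem MM_nonneg : 0 ≤ MM T w i := Finset.sum_nonneg fun _ _ => sq_nonneg _

theorem qq_nonneg (g : FreeGroup σ) : 0 ≤ qq T w i g := Finset.sum_nonneg fun _ _ => sq_nonneg _

theorem sum_qq (n : ℕ) (s : Finset (FreeGroup σ)) (hs : ∀ g ∈ s, g.norm = n) :
    ∑ g ∈ s, qq T w i g ≤ 16 ^ n * MM T w i := by
  unfold qq MM
  simp_rw [Finset.sum_filter]
  rw [Finset.sum_comm, Finset.mul_sum]
  refine Finset.sum_le_sum fun y _ => ?_
  rw [← Finset.sum_filter, Finset.sum_const, nsmul_eq_mul]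
  refine mul_le_mul_of_nonneg_right ?_ (sq_nonneg _)
  exact_mod_cast card_reads T.Γ T.deg n y _ fun g hg =>
    ⟨hs g (Finset.mem_filter.1 hg).1, (Finset.mem_filter.1 hg).2⟩

theorem light_qq {L : ℕ} {x : T.X} (hx : Light T w i L x) {g : FreeGroup σ} (h1 : L ≤ g.norm)
    (h2 : g.norm ≤ T.r i) (hg : T.Γ.Reads x g) : qq T w i g ≤ MM T w i / 64 ^ g.norm := by
  rw [le_div_iff₀ (by positivity), mul_comm]
  by_contra hc
  exact hx ⟨g.norm, h1, h2, g,
    Finset.mem_filter.2 ⟨mem_ballF le_rfl, rfl, lt_of_not_ge hc⟩, hg⟩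

/-- The weight of the other points that read `h`. -/
def oth (x : T.X) (h : FreeGroup σ) : ℝ :=
  ∑ y ∈ (T.pts i).filter fun y => y ≠ x ∧ T.Γ.Reads y h, w y ^ 2

theorem oth_nonneg (x : T.X) (h : FreeGroup σ) : 0 ≤ oth T w i x h :=
  Finset.sum_nonneg fun _ _ => sq_nonneg _

theorem oth_le (x : T.X) (h : FreeGroup σ) : oth T w i x h ≤ qq T w i h :=
  Finset.sum_le_sum_of_subset_of_nonneg
    (fun y hy => Finset.mem_filter.2 ⟨(Finset.mem_filter.1 hy).1, (Finset.mem_filter.1 hy).2.2⟩)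
    fun _ _ _ => sq_nonneg _

theorem light_level {L n : ℕ} {x : T.X} (hx : Light T w i L x) (h1 : L ≤ n) (h2 : n ≤ T.r i)
    (s : Finset (FreeGroup σ)) (hs : ∀ g ∈ s, g.norm = n ∧ T.Γ.Reads x g) :
    ∑ g ∈ s, qq T w i g ≤ MM T w i / 4 ^ n := by
  have hc : (s.card : ℝ) ≤ 16 ^ n := by exact_mod_cast card_reads T.Γ T.deg n x s hs
  calc ∑ g ∈ s, qq T w i g ≤ ∑ _g ∈ s, MM T w i / 64 ^ n := Finset.sum_le_sum fun g hg => by
        have := light_qq T w i hx ((hs g hg).1 ▸ h1) ((hs g hg).1 ▸ h2) (hs g hg).2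
        rwa [(hs g hg).1] at this
    _ = s.card * (MM T w i / 64 ^ n) := by rw [Finset.sum_const, nsmul_eq_mul]
    _ ≤ 16 ^ n * (MM T w i / 64 ^ n) :=
        mul_le_mul_of_nonneg_right hc (div_nonneg (MM_nonneg T w i) (by positivity))
    _ = MM T w i / 4 ^ n := by
        rw [show (64 : ℝ) = 16 * 4 by norm_num, mul_pow]; field_simp

theorem geo_sum (L : ℕ) : ∀ m : ℕ, ∑ n ∈ Finset.Ico L (L + m), (1 : ℝ) / 2 ^ n ≤
    2 / 2 ^ L - 2 / 2 ^ (L + m)
  | 0 => by simp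
  | m + 1 => by
    rw [← add_assoc, Finset.sum_Ico_succ_top (by omega), pow_succ]
    have := geo_sum L m
    have h : (2 : ℝ) / (2 ^ (L + m) * 2) = 1 / 2 ^ (L + m) := by field_simp
    have h' : (2 : ℝ) / 2 ^ (L + m) = 2 * (1 / 2 ^ (L + m)) := by ring
    linarith

theorem off_short {L : ℕ} {x : T.X} (hL : L ≤ T.r i) (hx : Light T w i L x)
    (s : Finset (FreeGroup σ)) (hs : ∀ g ∈ s, L ≤ g.norm ∧ g.norm < T.r i ∧ T.Γ.Reads x g) :
    ∑ g ∈ s, oth T w i x g ≤ 2 * MM T w i / 2 ^ L := by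
  have hM := MM_nonneg T w i
  obtain ⟨m, hm⟩ := Nat.exists_eq_add_of_le hL
  rw [← Finset.sum_fiberwise_of_maps_to (t := Finset.Ico L (L + m)) (g := FreeGroup.norm)
    fun g hg => Finset.mem_Ico.2 ⟨(hs g hg).1, hm ▸ (hs g hg).2.1⟩]
  calc _ ≤ ∑ n ∈ Finset.Ico L (L + m), MM T w i * (1 / 2 ^ n) := Finset.sum_le_sum fun n hn => by
        have hn' := Finset.mem_Ico.1 hn
        refine le_trans (Finset.sum_le_sum fun g _ => oth_le T w i x g) ?_
        refine (light_level T w i hx hn'.1 (by omega) _ fun g hg =>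
          ⟨(Finset.mem_filter.1 hg).2, (hs g (Finset.mem_filter.1 hg).1).2.2⟩).trans ?_
        rw [mul_one_div]
        exact div_le_div_of_nonneg_left hM (by positivity)
          (pow_le_pow_left₀ (by norm_num) (by norm_num) n)
    _ = MM T w i * ∑ n ∈ Finset.Ico L (L + m), (1 : ℝ) / 2 ^ n := by rw [Finset.mul_sum]
    _ ≤ MM T w i * (2 / 2 ^ L) := by
        refine mul_le_mul_of_nonneg_left ((geo_sum L m).trans ?_) hM
        have : (0 : ℝ) ≤ 2 / 2 ^ (L + m) := by positivity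
        linarith
    _ = _ := by ring

theorem off_long {L : ℕ} {x : T.X} (hL : L ≤ T.r i) (hxi : x ∈ T.pts i) (hx : Light T w i L x)
    (s : Finset (FreeGroup σ)) (hs : ∀ g ∈ s, T.r i ≤ g.norm ∧ T.Γ.Reads x g) :
    ∑ g ∈ s, oth T w i x g ≤ MM T w i / 2 ^ L := by
  have hM := MM_nonneg T w i
  have hty := (T.mem_pts x i).1 hxi
  let P := (ballF σ (T.r i)).filter fun p => p.norm = T.r i ∧ T.Γ.Reads x p
  have h1 := light_level T w i hx hL le_rfl P fun g hg => (Finset.mem_filter.1 hg).2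
  have h2 : ∑ g ∈ s, oth T w i x g ≤ 2 ^ T.r i * ∑ p ∈ P, qq T w i p := by
    unfold oth qq
    simp_rw [Finset.sum_filter]
    rw [Finset.sum_comm, Finset.sum_comm (s := P), Finset.mul_sum]
    refine Finset.sum_le_sum fun y hy => ?_
    rw [← Finset.sum_filter, ← Finset.sum_filter, Finset.sum_const, Finset.sum_const, nsmul_eq_mul,
      nsmul_eq_mul, ← mul_assoc]
    refine mul_le_mul_of_nonneg_right ?_ (sq_nonneg _)
    rcases (s.filter fun g => y ≠ x ∧ T.Γ.Reads y g).eq_empty_or_nonempty with he | ⟨g, hg⟩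
    · rw [he]; simp only [Finset.card_empty, Nat.cast_zero]; positivity
    · obtain ⟨hg1, hne, hg2⟩ := Finset.mem_filter.1 hg
      have a1 : (s.filter fun g => y ≠ x ∧ T.Γ.Reads y g).card ≤ 2 ^ T.r i := by
        have := T.count x y hne.symm (hty.trans ((T.mem_pts y i).1 hy).symm)
          (s.filter fun g => y ≠ x ∧ T.Γ.Reads y g) fun g' hg' =>
            ⟨(hs g' (Finset.mem_filter.1 hg').1).2, (Finset.mem_filter.1 hg').2.2⟩
        rwa [hty] at this
      have a2 : 1 ≤ (P.filter fun p => T.Γ.Reads y p).card := by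
        have hn := norm_pfx g (hs g hg1).1
        exact Finset.card_pos.2 ⟨pfx g (T.r i), Finset.mem_filter.2 ⟨Finset.mem_filter.2
          ⟨mem_ballF hn.le, hn, reads_pfx _ (hs g hg1).2 _⟩, reads_pfx _ hg2 _⟩⟩
      exact_mod_cast a1.trans (Nat.le_mul_of_pos_right _ a2)
  calc _ ≤ 2 ^ T.r i * (MM T w i / 4 ^ T.r i) :=
        h2.trans (mul_le_mul_of_nonneg_left h1 (by positivity))
    _ = MM T w i / 2 ^ T.r i := by
        rw [show (4 : ℝ) = 2 * 2 by norm_num, mul_pow]; field_simp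
    _ ≤ _ := div_le_div_of_nonneg_left hM (by positivity) (pow_le_pow_right₀ (by norm_num) hL)

theorem off {L : ℕ} {x : T.X} (hL : L ≤ T.r i) (hxi : x ∈ T.pts i) (hx : Light T w i L x)
    (s : Finset (FreeGroup σ)) (hs : ∀ g ∈ s, L ≤ g.norm ∧ T.Γ.Reads x g) :
    ∑ g ∈ s, oth T w i x g ≤ 3 * MM T w i / 2 ^ L := by
  rw [← Finset.sum_filter_add_sum_filter_not s fun g => g.norm < T.r i]
  have h1 := off_short T w i hL hx (s.filter fun g => g.norm < T.r i) fun g hg =>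
    ⟨(hs g (Finset.mem_filter.1 hg).1).1, (Finset.mem_filter.1 hg).2,
      (hs g (Finset.mem_filter.1 hg).1).2⟩
  have h2 := off_long T w i hL hxi hx (s.filter fun g => ¬ g.norm < T.r i) fun g hg =>
    ⟨not_lt.1 (Finset.mem_filter.1 hg).2, (hs g (Finset.mem_filter.1 hg).1).2⟩
  have : 3 * MM T w i / 2 ^ L = 2 * MM T w i / 2 ^ L + MM T w i / 2 ^ L := by ring
  linarith

/-- The off-diagonal weight of a word. -/
def AA (L : ℕ) (h : FreeGroup σ) : ℝ :=
  ∑ x ∈ (T.pts i).filter fun x => Light T w i L x ∧ T.Γ.Reads x h, w x ^ 2 * oth T w i x h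

theorem sum_AA {L : ℕ} (hL : L ≤ T.r i) (s : Finset (FreeGroup σ)) (hs : ∀ g ∈ s, L ≤ g.norm) :
    ∑ h ∈ s, AA T w i L h ≤ 3 * MM T w i ^ 2 / 2 ^ L := by
  unfold AA
  simp_rw [Finset.sum_filter]
  rw [Finset.sum_comm]
  have hM := MM_nonneg T w i
  calc _ ≤ ∑ x ∈ T.pts i, w x ^ 2 * (3 * MM T w i / 2 ^ L) := Finset.sum_le_sum fun x hx => by
        rw [← Finset.sum_filter, ← Finset.mul_sum]
        refine mul_le_mul_of_nonneg_left ?_ (sq_nonneg _)
        by_cases hl : Light T w i L x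
        · exact off T w i hL hx hl _ fun g hg =>
            ⟨hs g (Finset.mem_filter.1 hg).1, (Finset.mem_filter.1 hg).2.2⟩
        · rw [Finset.filter_false_of_mem fun g _ h => hl h.1, Finset.sum_empty]; positivity
    _ = _ := by rw [← Finset.sum_mul]; unfold MM; ring

/-- One side of the off-diagonal sum over a set of pairs. -/
theorem side {L : ℕ} {P : Type} [DecidableEq P] (E : Finset P) (e : P → T.X) (h : FreeGroup σ)
    (he : ∀ p ∈ E, e p ∈ T.pts i ∧ Light T w i L (e p) ∧ T.Γ.Reads (e p) h)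
    (hinj : Set.InjOn e E) :
    ∑ p ∈ E, ∑ q ∈ E.erase p, w (e p) ^ 2 * w (e q) ^ 2 ≤ AA T w i L h := by
  calc _ ≤ ∑ p ∈ E, w (e p) ^ 2 * oth T w i (e p) h := Finset.sum_le_sum fun p hp => by
        rw [← Finset.mul_sum]
        refine mul_le_mul_of_nonneg_left ?_ (sq_nonneg _)
        rw [← Finset.sum_image (s := E.erase p) (g := e) (f := fun y => w y ^ 2)
          (hinj.mono (Finset.coe_subset.2 (Finset.erase_subset _ _)))]
        refine Finset.sum_le_sum_of_subset_of_nonneg (fun y hy => ?_) fun _ _ _ => sq_nonneg _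
        obtain ⟨q, hq, rfl⟩ := Finset.mem_image.1 hy
        obtain ⟨hq1, hq2⟩ := Finset.mem_erase.1 hq
        exact Finset.mem_filter.2 ⟨(he q hq2).1, fun hc => hq1 (hinj hq2 hp hc), (he q hq2).2.2⟩
    _ ≤ _ := by
        rw [← Finset.sum_image (s := E) (g := e) (f := fun y => w y ^ 2 * oth T w i y h) hinj]
        refine Finset.sum_le_sum_of_subset_of_nonneg (fun y hy => ?_) fun y _ _ =>
          mul_nonneg (sq_nonneg _) (oth_nonneg T w i y h)
        obtain ⟨q, hq, rfl⟩ := Finset.mem_image.1 hy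
        exact Finset.mem_filter.2 (he q hq)

theorem term {L : ℕ} (kk : T.X → T.X → ℂ) (hk : ∀ x y, ‖kk x y‖ ≤ w x * w y)
    (E : Finset (T.X × T.X)) (h : FreeGroup σ)
    (he : ∀ p ∈ E, p.1 ∈ T.pts i ∧ p.2 ∈ T.pts i ∧ Light T w i L p.1 ∧ Light T w i L p.2 ∧
      T.Γ.Rd p.1 h p.2) :
    ‖∑ p ∈ E, kk p.1 p.2‖ ^ 2 ≤
      ∑ p ∈ E, ‖kk p.1 p.2‖ ^ 2 + (AA T w i L h + AA T w i L h⁻¹) / 2 := by
  have h1 := side T w i E Prod.fst h (fun p hp => ⟨(he p hp).1, (he p hp).2.2.1, _, (he p hp).2.2.2.2⟩)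
    fun p hp q hq hpq => Prod.ext hpq (rd_fun T.Γ (he p hp).2.2.2.2 (hpq ▸ (he q hq).2.2.2.2))
  have h2 := side T w i E Prod.snd h⁻¹
    (fun p hp => ⟨(he p hp).2.1, (he p hp).2.2.2.1, _, rd_inv _ (he p hp).2.2.2.2⟩)
    fun p hp q hq hpq => Prod.ext (rd_inj T.Γ (he p hp).2.2.2.2 (hpq ▸ (he q hq).2.2.2.2)) hpq
  have h3 : ‖∑ p ∈ E, kk p.1 p.2‖ ^ 2 ≤ (∑ p ∈ E, ‖kk p.1 p.2‖) ^ 2 :=
    pow_le_pow_left₀ (norm_nonneg _) (norm_sum_le _ _) 2
  have h4 : (∑ p ∈ E, ‖kk p.1 p.2‖) ^ 2 ≤ ∑ p ∈ E, (‖kk p.1 p.2‖ ^ 2 +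
      ((∑ q ∈ E.erase p, w p.1 ^ 2 * w q.1 ^ 2) + ∑ q ∈ E.erase p, w p.2 ^ 2 * w q.2 ^ 2) / 2) := by
    rw [sq, Finset.sum_mul_sum]
    refine Finset.sum_le_sum fun p hp => ?_
    rw [← Finset.add_sum_erase E _ hp, ← sq, ← Finset.sum_add_distrib, Finset.sum_div]
    refine add_le_add le_rfl (Finset.sum_le_sum fun q _ => ?_)
    have a1 : ‖kk p.1 p.2‖ * ‖kk q.1 q.2‖ ≤ (w p.1 * w p.2) * (w q.1 * w q.2) :=
      mul_le_mul (hk _ _) (hk _ _) (norm_nonneg _) ((norm_nonneg _).trans (hk _ _))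
    nlinarith [sq_nonneg (w p.1 * w q.1 - w p.2 * w q.2)]
  rw [Finset.sum_add_distrib, ← Finset.sum_div, Finset.sum_add_distrib] at h4
  linarith

end Heavy

end Amn

theorem hv : HvStmt := by
  intro σ _ _ T w i r
  refine ⟨?_, fun g hg => (Finset.mem_filter.1 hg).2.1⟩
  have h1 := sum_qq T w i r (Hs T w i r) fun g hg => (Finset.mem_filter.1 hg).2.1
  have hM := MM_nonneg T w i
  rcases (Hs T w i r).eq_empty_or_nonempty with he | hne
  · rw [he]; simp
  have h2 : ∑ _g ∈ Hs T w i r, MM T w i < ∑ g ∈ Hs T w i r, 64 ^ r * qq T w i g :=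
    Finset.sum_lt_sum_of_nonempty hne fun g hg => (Finset.mem_filter.1 hg).2.2
  rw [← Finset.mul_sum, Finset.sum_const, nsmul_eq_mul] at h2
  have h3 : (64 : ℝ) ^ r * ∑ g ∈ Hs T w i r, qq T w i g ≤ 1024 ^ r * MM T w i := by
    rw [show (1024 : ℝ) = 64 * 16 by norm_num, mul_pow, mul_assoc]
    exact mul_le_mul_of_nonneg_left h1 (by positivity)
  have h4 : ((Hs T w i r).card : ℝ) < 1024 ^ r := lt_of_mul_lt_mul_right (h2.trans_le h3) hM
  exact_mod_cast h4.le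

theorem l2 : L2Stmt := by
  intro σ _ _ T G _ M i L w kk hL _ hk hlight Γ hΓ
  choose gw hgw hgn using M.geod
  let E : G → Finset (T.X × T.X) := fun g =>
    (T.pts i ×ˢ T.pts i).filter fun p => M.f p.2 = M.f p.1 * g ∧ kk p.1 p.2 ≠ 0
  have hinj : Function.Injective gw := fun a b h => by rw [← hgw a, ← hgw b, h]
  have hsum : ∀ g, (∑ x ∈ T.pts i, ∑ y ∈ T.pts i, if M.f y = M.f x * g then kk x y else 0) =
      ∑ p ∈ E g, kk p.1 p.2 := fun g => by
    rw [Finset.sum_filter, Finset.sum_product]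
    refine Finset.sum_congr rfl fun x _ => Finset.sum_congr rfl fun y _ => ?_
    by_cases h : kk x y = 0 <;> simp [h]
  have hterm : ∀ g, ‖∑ p ∈ E g, kk p.1 p.2‖ ^ 2 ≤ ∑ p ∈ E g, ‖kk p.1 p.2‖ ^ 2 +
      (AA T w i L (gw g) + AA T w i L (gw g)⁻¹) / 2 := fun g =>
    term T w i kk hk (E g) (gw g) fun p hp => by
      obtain ⟨h1, h2, h3⟩ := Finset.mem_filter.1 hp
      obtain ⟨h4, h5⟩ := Finset.mem_product.1 h1
      refine ⟨h4, h5, (hlight _ _ h3).1, (hlight _ _ h3).2, M.conv _ _ _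
        (((T.mem_pts _ i).1 h4).trans ((T.mem_pts _ i).1 h5).symm) (by rw [hgw]; exact h2) ?_⟩
      rw [hgw, hgn]
  have hA := sum_AA T w i hL (Γ.image gw) fun g hg => by
    obtain ⟨a, ha, rfl⟩ := Finset.mem_image.1 hg
    rw [hgn]; exact hΓ a ha
  have hB := sum_AA T w i hL (Γ.image fun g => (gw g)⁻¹) fun g hg => by
    obtain ⟨a, ha, rfl⟩ := Finset.mem_image.1 hg
    rw [FreeGroup.norm_inv_eq, hgn]; exact hΓ a ha
  rw [Finset.sum_image hinj.injOn] at hA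
  rw [Finset.sum_image fun a _ b _ h => hinj (inv_injective h)] at hB
  have hD : ∑ g ∈ Γ, ∑ p ∈ E g, ‖kk p.1 p.2‖ ^ 2 ≤
      ∑ x ∈ T.pts i, ∑ y ∈ T.pts i, ‖kk x y‖ ^ 2 := by
    rw [← Finset.sum_product' (f := fun x y => ‖kk x y‖ ^ 2), ← Finset.sum_biUnion]
    · refine Finset.sum_le_sum_of_subset_of_nonneg (fun p hp => ?_) fun _ _ _ => sq_nonneg _
      obtain ⟨g, _, hg⟩ := Finset.mem_biUnion.1 hp
      exact (Finset.mem_filter.1 hg).1
    · intro a _ b _ hab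
      refine Finset.disjoint_left.2 fun p h1 h2 => hab ?_
      exact mul_left_cancel ((Finset.mem_filter.1 h1).2.1.symm.trans (Finset.mem_filter.1 h2).2.1)
  have h0 : 0 ≤ ∑ x ∈ T.pts i, ∑ y ∈ T.pts i, ‖kk x y‖ ^ 2 :=
    Finset.sum_nonneg fun _ _ => Finset.sum_nonneg fun _ _ => sq_nonneg _
  have h1 : 0 ≤ MM T w i ^ 2 / 2 ^ L := by positivity
  have h2 := Finset.sum_le_sum fun g (_ : g ∈ Γ) => hterm g
  rw [Finset.sum_add_distrib, ← Finset.sum_div, Finset.sum_add_distrib] at h2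
  simp_rw [hsum]
  have e1 : 3 * MM T w i ^ 2 / 2 ^ L = 3 * (MM T w i ^ 2 / 2 ^ L) := by ring
  have e2 : 12 * MM T w i ^ 2 / 2 ^ L = 12 * (MM T w i ^ 2 / 2 ^ L) := by ring
  linarith

end Pool.Agent.MP_88ca14_an
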