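import Mathlib.LinearAlgebra.FreeModule.PID
import Mathlib.RingTheory.Flat.FaithfullyFlat.Algebra
import Mathlib.RingTheory.Flat.TorsionFree
import Mathlib.Algebra.Ring.IsFormallyReal
import Mathlib.RingTheory.SimpleRing.Principal
import Pool.Agent.MP_88ca14_an.Graph

-- ======== part 0: formerly Pool.Agent.MP_88ca14_an.Hb2
section MrgPart0

/-!
PROJECT LRX, module HB2: every functional that is bounded by one on the complete contractions is
a pointwise limit of vector functionals (finite-dimensional separation and the corner trick).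
-/

set_option autoImplicit false
set_option maxSynthPendingDepth 3

noncomputable section

namespace Pool.Agent.MP_88ca14_an

open Filter Topology
open scoped Classical ComplexConjugate

namespace Hb2

section Forms

variable {m n : Type} [Fintype m] [Fintype n]

lemma nsq_nonneg (v : m → ℂ) : 0 ≤ nsq v := Finset.sum_nonneg fun _ _ => by positivity

lemma nsq_smul (c : ℂ) (v : m → ℂ) : nsq (c • v) = ‖c‖ ^ 2 * nsq v := by
  simp [nsq, Finset.mul_sum, mul_pow]

lemma fm_smul (M : m → n → ℂ) (c c' : ℂ) (v : m → ℂ) (w : n → ℂ) :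
    fm M (c • v) (c' • w) = conj c * c' * fm M v w := by
  simp only [fm, Finset.mul_sum, Pi.smul_apply, smul_eq_mul, map_mul]
  exact Finset.sum_congr rfl fun i _ => Finset.sum_congr rfl fun j _ => by ring

lemma fm_zero_left (M : m → n → ℂ) (w : n → ℂ) : fm M 0 w = 0 := by simp [fm]

lemma fm_zero_right (M : m → n → ℂ) (v : m → ℂ) : fm M v 0 = 0 := by simp [fm]

lemma nsq_zero : nsq (0 : m → ℂ) = 0 := by simp [nsq]

lemma eq_zero_of_nsq (v : m → ℂ) (h : nsq v = 0) : v = 0 := by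
  funext i
  have := (Finset.sum_eq_zero_iff_of_nonneg (fun i _ => by positivity)).1 h i (Finset.mem_univ i)
  simpa using this

lemma bd_of_re (M : m → n → ℂ) (c : ℝ)
    (h : ∀ v w, nsq v + nsq w ≤ 1 → 2 * (fm M v w).re ≤ c) : Bd M c := by
  intro v w
  rcases (nsq_nonneg v).eq_or_lt with hv | hv
  · rw [eq_zero_of_nsq v hv.symm, fm_zero_left, nsq_zero]; simp
  rcases (nsq_nonneg w).eq_or_lt with hw | hw
  · rw [eq_zero_of_nsq w hw.symm, fm_zero_right, nsq_zero]; simp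
  obtain ⟨u, hu, hz⟩ := Complex.exists_norm_eq_mul_self (fm M v w)
  have ha : 0 < √(nsq v) := Real.sqrt_pos.2 hv
  have hb : 0 < √(nsq w) := Real.sqrt_pos.2 hw
  have h2 : 0 < √2 := Real.sqrt_pos.2 two_pos
  have e2 : √2 * √2 = 2 := Real.mul_self_sqrt zero_le_two
  have ea : √(nsq v) ^ 2 = nsq v := Real.sq_sqrt hv.le
  have eb : √(nsq w) ^ 2 = nsq w := Real.sq_sqrt hw.le
  set a := √(nsq v)
  set b := √(nsq w)
  have key := h (((√2 * a)⁻¹ : ℝ) • v) ((((√2 * b)⁻¹ : ℝ) * u : ℂ) • w) (by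
    rw [← Complex.coe_smul, nsq_smul, nsq_smul, norm_mul, hu, Complex.norm_real,
      Complex.norm_real, Real.norm_of_nonneg (by positivity), Real.norm_of_nonneg (by positivity),
      ← ea, ← eb]
    have : (√2) ^ 2 = 2 := Real.sq_sqrt zero_le_two
    field_simp
    rw [this]; norm_num)
  rw [← Complex.coe_smul, fm_smul, Complex.conj_ofReal, mul_assoc, mul_assoc, ← hz,
    ← Complex.ofReal_mul, ← Complex.ofReal_mul, Complex.ofReal_re] at key
  have e : 2 * ((√2 * a)⁻¹ * ((√2 * b)⁻¹ * ‖fm M v w‖)) = ‖fm M v w‖ / (a * b) := by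
    field_simp
    rw [sq, e2]
  rw [e, div_le_iff₀ (by positivity)] at key
  linarith [mul_assoc c a b]

lemma nsq_mulVec (M : m → n → ℂ) (c : ℝ) (h : Bd M c) (u : n → ℂ) :
    nsq (fun x => ∑ y, M x y * u y) ≤ c ^ 2 * nsq u := by
  set z : m → ℂ := fun x => ∑ y, M x y * u y with hz
  have h1 : fm M z u = (nsq z : ℝ) := by
    simp only [fm, nsq, Complex.ofReal_sum]
    refine Finset.sum_congr rfl fun x _ => ?_
    rw [Complex.ofReal_pow, ← Complex.conj_mul', hz, Finset.mul_sum]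
    exact Finset.sum_congr rfl fun y _ => by ring
  have h2 := h z u
  rw [h1, Complex.norm_real, Real.norm_of_nonneg (nsq_nonneg z)] at h2
  have ea : √(nsq z) ^ 2 = nsq z := Real.sq_sqrt (nsq_nonneg z)
  have eb : √(nsq u) ^ 2 = nsq u := Real.sq_sqrt (nsq_nonneg u)
  have ha := Real.sqrt_nonneg (nsq z)
  have hb := Real.sqrt_nonneg (nsq u)
  set a := √(nsq z)
  set b := √(nsq u)
  rw [← ea, ← eb]
  rw [← ea] at h2
  nlinarith [sq_nonneg (a - c * b)]

lemma tensor_le (B : m → m → ℂ) (M : n → n → ℂ) (c c' : ℝ) (hc : 0 ≤ c) (hc' : 0 ≤ c')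
    (hB : Bd B c) (hM : Bd M c') (v : n → m → ℂ) :
    ‖∑ x, ∑ y, fm B (v x) (v y) * M x y‖ ≤ c * c' * ∑ x, nsq (v x) := by
  set w : n → m → ℂ := fun x q => ∑ y, M x y * v y q with hw
  have h1 : ∀ x, ∑ y, fm B (v x) (v y) * M x y = fm B (v x) (w x) := by
    intro x
    simp only [fm, hw, Finset.mul_sum, Finset.sum_mul]
    rw [Finset.sum_comm]
    refine Finset.sum_congr rfl fun p _ => ?_
    rw [Finset.sum_comm]
    exact Finset.sum_congr rfl fun q _ => Finset.sum_congr rfl fun y _ => by ring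
  have h2 : ∑ x, nsq (w x) ≤ c' ^ 2 * ∑ x, nsq (v x) := by
    have : ∀ q, nsq (fun x => w x q) ≤ c' ^ 2 * nsq (fun y => v y q) := fun q =>
      nsq_mulVec M c' hM fun y => v y q
    calc ∑ x, nsq (w x) = ∑ q, nsq (fun x => w x q) := Finset.sum_comm
      _ ≤ ∑ q, c' ^ 2 * nsq (fun y => v y q) := Finset.sum_le_sum fun q _ => this q
      _ = c' ^ 2 * ∑ x, nsq (v x) := by
        rw [← Finset.mul_sum]; congr 1; exact Finset.sum_comm
  have hT : 0 ≤ ∑ x, nsq (v x) := Finset.sum_nonneg fun x _ => nsq_nonneg _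
  have h3 : √(∑ x, nsq (w x)) ≤ c' * √(∑ x, nsq (v x)) := by
    rw [← Real.sqrt_sq hc', ← Real.sqrt_mul (by positivity)]
    exact Real.sqrt_le_sqrt h2
  calc ‖∑ x, ∑ y, fm B (v x) (v y) * M x y‖ = ‖∑ x, fm B (v x) (w x)‖ := by simp only [h1]
    _ ≤ ∑ x, c * (√(nsq (v x)) * √(nsq (w x))) :=
      norm_sum_le_of_le _ fun x _ => by rw [← mul_assoc]; exact hB _ _
    _ ≤ c * (√(∑ x, nsq (v x)) * √(∑ x, nsq (w x))) := by
      rw [← Finset.mul_sum]
      exact mul_le_mul_of_nonneg_left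
        (Real.sum_sqrt_mul_sqrt_le _ (fun x => nsq_nonneg _) fun x => nsq_nonneg _) hc
    _ ≤ c * (√(∑ x, nsq (v x)) * (c' * √(∑ x, nsq (v x)))) := by gcongr
    _ = c * c' * (√(∑ x, nsq (v x)) * √(∑ x, nsq (v x))) := by ring
    _ = _ := by rw [Real.mul_self_sqrt hT]

lemma fm_equiv {m' : Type} [Fintype m'] (σ : m' ≃ m) (M : m → m → ℂ) (v w : m → ℂ) :
    fm (fun p q => M (σ p) (σ q)) (fun p => v (σ p)) (fun p => w (σ p)) = fm M v w := by
  unfold fm
  rw [← Equiv.sum_comp σ]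
  exact Finset.sum_congr rfl fun p _ =>
    Equiv.sum_comp σ fun q => conj (v (σ p)) * M (σ p) q * w q

lemma nsq_equiv {m' : Type} [Fintype m'] (σ : m' ≃ m) (v : m → ℂ) :
    nsq (fun p => v (σ p)) = nsq v := Equiv.sum_comp σ fun p => ‖v p‖ ^ 2

lemma two_sqrt (a b : ℝ) (ha : 0 ≤ a) (hb : 0 ≤ b) : 2 * (√a * √b) ≤ a + b := by
  nlinarith [sq_nonneg (√a - √b), Real.mul_self_sqrt ha, Real.mul_self_sqrt hb]

lemma sum4 {α β γ δ : Type} [Fintype α] [Fintype β] [Fintype γ] [Fintype δ]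
    (f : α → β → γ → δ → ℂ) :
    ∑ x, ∑ y, ∑ p, ∑ q, f x y p q = ∑ p, ∑ x, ∑ q, ∑ y, f x y p q := by
  rw [Finset.sum_comm (f := fun p x => ∑ q, ∑ y, f x y p q)]
  refine Finset.sum_congr rfl fun x _ => ?_
  rw [Finset.sum_comm]
  exact Finset.sum_congr rfl fun p _ => Finset.sum_comm

end Forms

section Alg

variable {G : Type} [Group G] {A : Type} [CStarAlgebra A] [PartialOrder A] [StarOrderedRing A]

lemma mn_nonneg {k : ℕ} (a : Matrix (Fin k) (Fin k) A) : 0 ≤ mn a := norm_nonneg _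

lemma norm_comb (R : Reg G A) {k : ℕ} (a : Matrix (Fin k) (Fin k) A) (v w : Fin k → ℂ) :
    ‖∑ p, ∑ q, (conj (v p) * w q) • a p q‖ ≤ mn a * √(nsq v) * √(nsq w) := by
  set a0 := ∑ p, ∑ q, (conj (v p) * w q) • a p q with ha0
  have h1 : ‖a0‖ ≤ mn (Matrix.of fun (_ _ : Fin 1) => a0) :=
    CStarMatrix.norm_entry_le_norm
      (M := CStarMatrix.ofMatrix (Matrix.of fun (_ _ : Fin 1) => a0)) (i := 0) (j := 0)
  have h0 := mn_nonneg a
  refine h1.trans (R.le_mat 1 _ _ (by positivity) fun s v' w' => ?_)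
  have h2 := R.mat_le k a s (fun p => v p.1 * v' (0, p.2)) (fun q => w q.1 * w' (0, q.2))
  have e1 : ∀ (u : Fin k → ℂ) (u' : Fin 1 × s → ℂ),
      nsq (fun p : Fin k × s => u p.1 * u' (0, p.2)) = nsq u * nsq u' := by
    intro u u'
    simp only [nsq, Fintype.sum_prod_type, Fin.sum_univ_one, norm_mul, mul_pow,
      Finset.sum_mul_sum]
  rw [e1, e1, Real.sqrt_mul (nsq_nonneg _), Real.sqrt_mul (nsq_nonneg _)] at h2
  have e2 : fm (fun (p q : Fin 1 × s) => R.co p.2 q.2 ((Matrix.of fun (_ _ : Fin 1) => a0) p.1 q.1))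
      v' w' = fm (fun (p q : Fin k × s) => R.co p.2 q.2 (a p.1 q.1))
        (fun p => v p.1 * v' (0, p.2)) (fun q => w q.1 * w' (0, q.2)) := by
    simp only [fm, Fintype.sum_prod_type, Fin.sum_univ_one, Matrix.of_apply, ha0, map_sum,
      map_smul, smul_eq_mul, Finset.mul_sum, Finset.sum_mul, map_mul]
    rw [sum4]
    refine Finset.sum_congr rfl fun p _ => Finset.sum_congr rfl fun x _ =>
      Finset.sum_congr rfl fun q _ => Finset.sum_congr rfl fun y _ => by ring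
  rw [e2]
  refine h2.trans (le_of_eq ?_)
  ring

/-- The corner made from a functional of norm at most one. -/
lemma ccf_corner (R : Reg G A) (f : StrongDual ℂ A) (hf : ‖f‖ ≤ 1) :
    CCF (fun s t : Bool => if s = true ∧ t = false then f else 0) := by
  intro k a v w
  have e : fm (fun (p q : Fin k × Bool) =>
      (if p.2 = true ∧ q.2 = false then f else 0) (a p.1 q.1)) v w =
      f (∑ p, ∑ q, (conj (v (p, true)) * w (q, false)) • a p q) := by
    simp only [fm, Fintype.sum_prod_type, Fintype.sum_bool, map_sum, map_smul, smul_eq_mul]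
    refine Finset.sum_congr rfl fun p _ => ?_
    simp
    exact Finset.sum_congr rfl fun q _ => by ring
  have e1 : ∀ (u : Fin k × Bool → ℂ) (s : Bool), nsq (fun p => u (p, s)) ≤ nsq u := by
    intro u s
    simp only [nsq, Fintype.sum_prod_type]
    exact Finset.sum_le_sum fun p _ =>
      Finset.single_le_sum (f := fun s => ‖u (p, s)‖ ^ 2) (fun _ _ => by positivity)
        (Finset.mem_univ s)
  have h0 := mn_nonneg a
  rw [e]
  calc _ ≤ 1 * ‖∑ p, ∑ q, (conj (v (p, true)) * w (q, false)) • a p q‖ :=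
      f.le_of_opNorm_le hf _
    _ ≤ mn a * √(nsq fun p => v (p, true)) * √(nsq fun q => w (q, false)) := by
      rw [one_mul]; exact norm_comb R a _ _
    _ ≤ _ := by gcongr <;> exact e1 _ _

omit [PartialOrder A] [StarOrderedRing A] in
lemma dual_basis {d : ℕ} (e : Fin d → Bid A) (he : LinearIndependent ℂ e) (l : Fin d) :
    ∃ f : StrongDual ℂ A, ∀ j, e j f = if j = l then 1 else 0 := by
  let T : StrongDual ℂ A →ₗ[ℂ] (Fin d → ℂ) := LinearMap.pi fun j => (e j).toLinearMap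
  have hT : LinearMap.range T = ⊤ := by
    by_contra hne
    obtain ⟨φ, hφ, hle⟩ := Submodule.exists_le_ker_of_lt_top _ (lt_top_iff_ne_top.2 hne)
    have h1 : ∑ j, φ (fun i => if j = i then 1 else 0) • e j = 0 := by
      ext f
      have : φ (T f) = 0 := hle (LinearMap.mem_range_self T f)
      rw [LinearMap.pi_apply_eq_sum_univ] at this
      simpa [T, mul_comm] using this
    have h2 := Fintype.linearIndependent_iff.1 he _ h1
    refine hφ (LinearMap.ext fun x => ?_)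
    rw [LinearMap.pi_apply_eq_sum_univ]
    simp [h2]
  obtain ⟨f, hf⟩ := LinearMap.range_eq_top.1 hT fun j => if j = l then 1 else 0
  exact ⟨f, fun j => congrFun hf j⟩

lemma bd_of_nr (R : Reg G A) {d : ℕ} (e : Fin d → Bid A) (he : LinearIndependent ℂ e) :
    ∃ C : ℝ, 0 ≤ C ∧ ∀ (K : Type) [Fintype K] (b : Fin d → K → K → ℂ), NR e b →
      ∀ j, Bd (b j) C := by
  choose f hf using dual_basis e he
  refine ⟨2 * (∑ l, ‖f l‖ + 1), by positivity, fun K _ b hb l => bd_of_re _ _ fun v w h => ?_⟩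
  set t : ℝ := ∑ l, ‖f l‖ + 1 with ht
  have ht0 : 0 < t := by positivity
  have h1 : ‖f l‖ ≤ t := by
    have := Finset.single_le_sum (f := fun l => ‖f l‖) (fun _ _ => norm_nonneg _)
      (Finset.mem_univ l)
    linarith
  have h2 : ‖((t⁻¹ : ℝ) : ℂ) • f l‖ ≤ 1 := by
    rw [norm_smul, Complex.norm_real, Real.norm_of_nonneg (by positivity), inv_mul_le_iff₀ ht0]
    linarith
  have h3 := hb Bool _ (ccf_corner R _ h2) fun p => if p.2 = true then v p.1 else w p.1
  have e1 : nsq (fun p : K × Bool => if p.2 = true then v p.1 else w p.1) = nsq v + nsq w := by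
    simp [nsq, Fintype.sum_prod_type, Finset.sum_add_distrib]
  have e2 : ∀ j, fm (fun (p q : K × Bool) => b j p.1 q.1 *
      e j (if p.2 = true ∧ q.2 = false then ((t⁻¹ : ℝ) : ℂ) • f l else 0))
      (fun p => if p.2 = true then v p.1 else w p.1)
      (fun p => if p.2 = true then v p.1 else w p.1) =
      (if j = l then 1 else 0) * (((t⁻¹ : ℝ) : ℂ) * fm (b j) v w) := by
    intro j
    rw [← hf l j]
    simp only [fm, Fintype.sum_prod_type, Fintype.sum_bool, Finset.mul_sum]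
    refine Finset.sum_congr rfl fun p _ => ?_
    simp
    exact Finset.sum_congr rfl fun q _ => by ring
  simp only [e2, e1, ite_mul, one_mul, zero_mul, Finset.sum_ite_eq', Finset.mem_univ,
    if_true] at h3
  rw [norm_mul, Complex.norm_real, Real.norm_of_nonneg (by positivity),
    inv_mul_le_iff₀ ht0] at h3
  have := Complex.re_le_norm (fm (b l) v w)
  nlinarith

lemma hat_bd {k : ℕ} (x : Matrix (Fin k) (Fin k) (Bid A)) {m : Type} [Fintype m]
    (θ : m → m → StrongDual ℂ A) (hθ : CCF θ) :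
    Bd (fun p q : Fin k × m => x p.1 q.1 (θ p.2 q.2)) ‖hat x‖ := by
  intro v w
  let ψ0 : CStarMatrix (Fin k) (Fin k) A →ₗ[ℂ] ℂ :=
    { toFun := fun a => fm (fun p q : Fin k × m => θ p.2 q.2 (a p.1 q.1)) v w
      map_add' := fun a a' => by
        simp only [fm, CStarMatrix.add_apply, map_add, mul_add, add_mul, Finset.sum_add_distrib]
      map_smul' := fun c a => by
        simp only [fm, CStarMatrix.smul_apply, map_smul, smul_eq_mul, RingHom.id_apply,
          Finset.mul_sum]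
        exact Finset.sum_congr rfl fun i _ => Finset.sum_congr rfl fun j _ => by ring }
  have hb : ∀ a, ‖ψ0 a‖ ≤ √(nsq v) * √(nsq w) * ‖a‖ := fun a =>
    (hθ k a v w).trans (le_of_eq (by unfold mn; rw [mul_assoc, mul_comm]; rfl))
  let ψ := ψ0.mkContinuous _ hb
  have hψ : ‖ψ‖ ≤ √(nsq v) * √(nsq w) := ψ0.mkContinuous_norm_le (by positivity) hb
  have e1 : ∀ p q, ContinuousLinearMap.precomp ℂ (sing (A := A) p q) ψ =
      ∑ s, ∑ t, (conj (v (p, s)) * w (q, t)) • θ s t := by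
    intro p q
    ext a
    have : ∀ p' q', (sing p q a : CStarMatrix (Fin k) (Fin k) A) p' q' =
        if p = p' ∧ q = q' then a else 0 := fun p' q' => rfl
    change fm (fun p' q' : Fin k × m => θ p'.2 q'.2 (sing p q a p'.1 q'.1)) v w = _
    simp only [fm, Fintype.sum_prod_type, this, sum_apply, smul_apply, smul_eq_mul]
    rw [Finset.sum_eq_single p (fun p' _ hp => by simp [hp.symm]) (by simp)]
    refine Finset.sum_congr rfl fun s _ => ?_
    rw [Finset.sum_eq_single q (fun q' _ hq => by simp [hq.symm]) (by simp)]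
    exact Finset.sum_congr rfl fun t _ => by simp only [and_self, if_true]; ring
  have e2 : hat x ψ = fm (fun p q : Fin k × m => x p.1 q.1 (θ p.2 q.2)) v w := by
    simp only [hat, sum_apply, ContinuousLinearMap.comp_apply, e1, map_sum,
      map_smul, smul_eq_mul, fm, Fintype.sum_prod_type]
    refine Finset.sum_congr rfl fun p _ => ?_
    rw [Finset.sum_comm]
    exact Finset.sum_congr rfl fun s _ => Finset.sum_congr rfl fun q _ =>
      Finset.sum_congr rfl fun t _ => by ring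
  rw [← e2, mul_assoc]
  exact ((hat x).le_opNorm ψ).trans (mul_le_mul_of_nonneg_left hψ (norm_nonneg _))

/-! ### The convex set of vector functionals -/

section Vecs

variable {K : Type} [Fintype K]

omit [Group G] in
lemma ms_eq (ζ : Vec G K) (s : Finset G) (hs : ζ.support ⊆ s) : ms ζ = ∑ x : s, nsq (ζ x) := by
  rw [Finset.sum_coe_sort s fun x => nsq (ζ x)]
  refine Finset.sum_subset hs fun x _ hx => ?_
  rw [Finsupp.notMem_support_iff.1 hx, nsq_zero]

lemma Q_eq (R : Reg G A) (b : K → K → ℂ) (ζ : Vec G K) (s : Finset G) (hs : ζ.support ⊆ s) :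
    R.Q b ζ = ∑ x : s, ∑ y : s, fm b (ζ x) (ζ y) • R.co x y := by
  rw [Finset.sum_coe_sort s fun x => ∑ y : s, fm b (ζ x) (ζ y) • R.co x y]
  unfold Reg.Q Reg.Q2
  rw [Finset.sum_subset hs fun x _ hx => by
    rw [Finsupp.notMem_support_iff.1 hx]; simp [fm_zero_left]]
  refine Finset.sum_congr rfl fun x _ => ?_
  rw [Finset.sum_coe_sort s fun y => fm b (ζ x) (ζ y) • R.co x y]
  refine Finset.sum_subset hs fun y _ hy => ?_
  rw [Finsupp.notMem_support_iff.1 hy, fm_zero_right, zero_smul]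

lemma Q_le (R : Reg G A) (b : K → K → ℂ) (C : ℝ) (hC : 0 ≤ C) (hb : Bd b C) (ζ : Vec G K)
    (a : A) : ‖R.Q b ζ a‖ ≤ C * (‖sing (A := A) (0 : Fin 1) 0‖ * ‖a‖) * ms ζ := by
  have h1 : Bd (fun x y : ζ.support => R.co x y a) (‖sing (A := A) (0 : Fin 1) 0‖ * ‖a‖) := by
    intro v w
    have h2 := R.mat_le 1 (Matrix.single 0 0 a) ζ.support (fun p => v p.2) fun p => w p.2
    have h3 : mn (Matrix.single (0 : Fin 1) 0 a) ≤ ‖sing (A := A) (0 : Fin 1) 0‖ * ‖a‖ :=
      (sing (A := A) (0 : Fin 1) 0).le_opNorm a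
    simp only [fm, nsq, Fintype.sum_prod_type, Fin.sum_univ_one, Matrix.single_apply_same] at h2
    refine h2.trans ?_
    unfold nsq
    gcongr
  have := tensor_le b _ C _ hC (by positivity) hb h1 fun x => ζ x
  rw [Q_eq R b ζ _ subset_rfl, ms_eq ζ _ subset_rfl]
  simpa only [sum_apply, smul_apply, smul_eq_mul] using this

end Vecs

variable {d : ℕ}

/-- The vector functionals. -/
def SS (R : Reg G A) (e : Fin d → Bid A) : Set (Fin d → StrongDual ℂ A) :=
  {Φ | ∃ (k : ℕ) (b : Fin d → Fin k → Fin k → ℂ) (ζ : Vec G (Fin k)),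
    NR e b ∧ ms ζ ≤ 1 ∧ ∀ j, Φ j = R.Q (b j) ζ}

lemma mem_SS (R : Reg G A) (e : Fin d → Bid A) (K : Type) [Fintype K] (b : Fin d → K → K → ℂ)
    (hb : NR e b) (s : Finset G) (v : s → K → ℂ) (hv : ∑ x, nsq (v x) ≤ 1) :
    (fun j => ∑ x : s, ∑ y : s, fm (b j) (v x) (v y) • R.co x y) ∈ SS R e := by
  let σ : Fin (Fintype.card K) ≃ K := (Fintype.equivFin K).symm
  let ζ : Vec G (Fin (Fintype.card K)) :=
    Finsupp.onFinset s (fun x => if h : x ∈ s then fun p => v ⟨x, h⟩ (σ p) else 0)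
      fun x hx => by by_contra h; exact hx (dif_neg h)
  have hζ : ∀ x : s, ζ x = fun p => v x (σ p) := fun x => dif_pos x.2
  have hs : ζ.support ⊆ s := Finsupp.support_onFinset_subset
  refine ⟨_, fun j p q => b j (σ p) (σ q), ζ, fun m _ θ hθ u => ?_, ?_, fun j => ?_⟩
  · let τ : Fin (Fintype.card K) × m ≃ K × m := σ.prodCongr (Equiv.refl m)
    have h1 := hb m θ hθ fun p => u (τ.symm p)
    rw [nsq_equiv τ.symm] at h1
    refine le_of_eq_of_le ?_ h1
    congr 1
    refine Finset.sum_congr rfl fun j _ => ?_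
    rw [← fm_equiv τ]
    simp only [Equiv.symm_apply_apply]
    rfl
  · rw [ms_eq ζ s hs]
    simpa only [hζ, nsq_equiv] using hv
  · rw [Q_eq R _ ζ s hs]
    simp only [hζ, fm_equiv]

lemma zero_mem (R : Reg G A) (e : Fin d → Bid A) : (0 : Fin d → StrongDual ℂ A) ∈ SS R e := by
  refine ⟨0, fun _ _ _ => 0, 0, fun m _ θ _ v => ?_, by simp [ms], fun j => by simp [Reg.Q, Reg.Q2]⟩
  simpa [fm] using nsq_nonneg v

lemma SS_conv (R : Reg G A) (e : Fin d → Bid A) (Φ Ψ : Fin d → StrongDual ℂ A)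
    (hΦ : Φ ∈ SS R e) (hΨ : Ψ ∈ SS R e) (a b : ℝ) (ha : 0 ≤ a) (hb : 0 ≤ b) (hab : a + b = 1) :
    (fun j => (a : ℂ) • Φ j + (b : ℂ) • Ψ j) ∈ SS R e := by
  obtain ⟨k, c, ζ, hc, hζ, hΦ⟩ := hΦ
  obtain ⟨k', c', ζ', hc', hζ', hΨ⟩ := hΨ
  let B : Fin d → Fin k ⊕ Fin k' → Fin k ⊕ Fin k' → ℂ := fun j =>
    Matrix.fromBlocks (Matrix.of (c j)) 0 0 (Matrix.of (c' j))
  have hB : NR e B := by
    intro m _ θ hθ u
    have h1 := hc m θ hθ fun p => u (Sum.inl p.1, p.2)
    have h2 := hc' m θ hθ fun p => u (Sum.inr p.1, p.2)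
    have e1 : nsq u = nsq (fun p : Fin k × m => u (Sum.inl p.1, p.2)) +
        nsq (fun p : Fin k' × m => u (Sum.inr p.1, p.2)) := by
      simp only [nsq, Fintype.sum_prod_type, Fintype.sum_sum_type]
    rw [e1]
    refine le_trans (le_of_eq ?_) ((norm_add_le _ _).trans (add_le_add h1 h2))
    rw [← Finset.sum_add_distrib]
    congr 1
    refine Finset.sum_congr rfl fun j _ => ?_
    simp [fm, B, Fintype.sum_prod_type, Fintype.sum_sum_type]
  let s := ζ.support ∪ ζ'.support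
  have hs : ζ.support ⊆ s := Finset.subset_union_left
  have hs' : ζ'.support ⊆ s := Finset.subset_union_right
  let v : s → Fin k ⊕ Fin k' → ℂ := fun x =>
    Sum.elim (((√a : ℝ) : ℂ) • ζ x) (((√b : ℝ) : ℂ) • ζ' x)
  have e1 : ∀ x, nsq (v x) = a * nsq (ζ x) + b * nsq (ζ' x) := by
    intro x
    have : nsq (v x) = nsq (((√a : ℝ) : ℂ) • ζ x) + nsq (((√b : ℝ) : ℂ) • ζ' x) := by
      simp only [nsq, Fintype.sum_sum_type, v, Sum.elim_inl, Sum.elim_inr]
    rw [this, nsq_smul, nsq_smul, Complex.norm_real, Complex.norm_real, Real.norm_eq_abs,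
      Real.norm_eq_abs, sq_abs, sq_abs, Real.sq_sqrt ha, Real.sq_sqrt hb]
  have e2 : ∀ j x y, fm (B j) (v x) (v y) =
      a * fm (c j) (ζ x) (ζ y) + b * fm (c' j) (ζ' x) (ζ' y) := by
    intro j x y
    have : fm (B j) (v x) (v y) =
        fm (c j) (((√a : ℝ) : ℂ) • ζ x) (((√a : ℝ) : ℂ) • ζ y) +
          fm (c' j) (((√b : ℝ) : ℂ) • ζ' x) (((√b : ℝ) : ℂ) • ζ' y) := by
      simp [fm, B, v, Fintype.sum_sum_type]
    rw [this, fm_smul, fm_smul, Complex.conj_ofReal, Complex.conj_ofReal, ← Complex.ofReal_mul,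
      ← Complex.ofReal_mul, Real.mul_self_sqrt ha, Real.mul_self_sqrt hb]
  have hm := mem_SS R e _ B hB s v (by
    simp only [e1, Finset.sum_add_distrib, ← Finset.mul_sum]
    rw [← ms_eq ζ s hs, ← ms_eq ζ' s hs']
    nlinarith)
  refine (congrArg (· ∈ SS R e) (funext fun j => ?_)).mp hm
  rw [hΦ, hΨ, Q_eq R _ ζ s hs, Q_eq R _ ζ' s hs']
  simp only [e2, add_smul, mul_smul, Finset.sum_add_distrib, Finset.smul_sum]

/-- A tuple on which all vector functionals are at most one is a complete contraction. -/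
lemma ccm_of (R : Reg G A) (e : Fin d → Bid A) (a : Fin d → A)
    (h : ∀ Φ ∈ SS R e, (∑ j, Φ j (a j)).re ≤ 1) : CCm e a := by
  intro k c
  set x : Matrix (Fin k) (Fin k) (Bid A) := Matrix.of fun p q => ∑ j, c j p q • e j with hx
  refine le_of_forall_gt_imp_ge_of_dense fun N hN => ?_
  have hN0 : 0 < N := (norm_nonneg _).trans_lt hN
  refine R.le_mat k _ N hN0.le fun s => bd_of_re _ _ fun v w hvw => ?_
  let t : ℂ := ((2 / N : ℝ) : ℂ)
  let B : Fin d → Fin k ⊕ Fin k → Fin k ⊕ Fin k → ℂ := fun j =>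
    Matrix.fromBlocks 0 (t • c j) 0 0
  have hB : NR e B := by
    intro m _ θ hθ u
    have h1 := hat_bd x θ hθ (fun p => u (Sum.inl p.1, p.2)) fun p => u (Sum.inr p.1, p.2)
    have e1 : nsq u = nsq (fun p : Fin k × m => u (Sum.inl p.1, p.2)) +
        nsq (fun p : Fin k × m => u (Sum.inr p.1, p.2)) := by
      simp only [nsq, Fintype.sum_prod_type, Fintype.sum_sum_type]
    have e2 : ∑ j, fm (fun (p q : (Fin k ⊕ Fin k) × m) => B j p.1 q.1 * e j (θ p.2 q.2)) u u =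
        t * fm (fun p q : Fin k × m => x p.1 q.1 (θ p.2 q.2)) (fun p => u (Sum.inl p.1, p.2))
          fun p => u (Sum.inr p.1, p.2) := by
      have : ∀ j, fm (fun (p q : (Fin k ⊕ Fin k) × m) => B j p.1 q.1 * e j (θ p.2 q.2)) u u =
          ∑ p : Fin k × m, ∑ q : Fin k × m, conj (u (Sum.inl p.1, p.2)) *
            (t * c j p.1 q.1 * e j (θ p.2 q.2)) * u (Sum.inr q.1, q.2) := by
        intro j
        simp [fm, B, Fintype.sum_prod_type, Fintype.sum_sum_type]
      simp only [this]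
      simp only [fm, hx, Matrix.of_apply, sum_apply, smul_apply, smul_eq_mul,
        Finset.mul_sum, Finset.sum_mul]
      rw [Finset.sum_comm]
      refine Finset.sum_congr rfl fun p _ => ?_
      rw [Finset.sum_comm]
      exact Finset.sum_congr rfl fun q _ => Finset.sum_congr rfl fun j _ => by ring
    rw [e2, e1, norm_mul, Complex.norm_real, Real.norm_of_nonneg (by positivity)]
    refine le_trans ?_ (two_sqrt _ _ (nsq_nonneg _) (nsq_nonneg _))
    rw [div_mul_eq_mul_div, div_le_iff₀ hN0]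
    have h2 := mul_le_mul_of_nonneg_right hN.le (mul_nonneg
      (Real.sqrt_nonneg (nsq fun p : Fin k × m => u (Sum.inl p.1, p.2)))
      (Real.sqrt_nonneg (nsq fun p : Fin k × m => u (Sum.inr p.1, p.2))))
    nlinarith
  let V : s → Fin k ⊕ Fin k → ℂ := fun y => Sum.elim (fun p => v (p, y)) fun q => w (q, y)
  have hm := h _ (mem_SS R e _ B hB s V (by
    refine le_of_eq_of_le ?_ hvw
    simp only [nsq, Fintype.sum_sum_type, V, Sum.elim_inl, Sum.elim_inr, Finset.sum_add_distrib,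
      Fintype.sum_prod_type_right]))
  have e3 : ∑ j, (∑ y : s, ∑ z : s, fm (B j) (V y) (V z) • R.co y z) (a j) =
      t * fm (fun p q : Fin k × s =>
        R.co p.2 q.2 ((Matrix.of fun p q => ∑ j, c j p q • a j) p.1 q.1)) v w := by
    have : ∀ j y z, fm (B j) (V y) (V z) =
        ∑ p, ∑ q, conj (v (p, y)) * (t * c j p q) * w (q, z) := by
      intro j y z
      simp [fm, B, V, Fintype.sum_sum_type]
    simp only [this]
    simp only [fm, Matrix.of_apply, sum_apply, smul_apply, smul_eq_mul, map_sum, map_smul,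
      Finset.mul_sum, Finset.sum_mul, Fintype.sum_prod_type]
    symm
    rw [← sum4]
    symm
    rw [Finset.sum_comm]
    refine Finset.sum_congr rfl fun y _ => ?_
    rw [Finset.sum_comm]
    refine Finset.sum_congr rfl fun z _ => ?_
    rw [Finset.sum_comm]
    refine Finset.sum_congr rfl fun p _ => ?_
    rw [Finset.sum_comm]
    exact Finset.sum_congr rfl fun q _ => Finset.sum_congr rfl fun j _ => by ring
  rw [e3, Complex.re_ofReal_mul, div_mul_eq_mul_div, div_le_iff₀ hN0] at hm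
  linarith

/-- Approximation on a finite set of group elements. -/
lemma approx (R : Reg G A) (e : Fin d → Bid A) (F : Fin d → StrongDual ℂ A)
    (hF : ∀ a, CCm e a → (∑ j, F j (a j)).re ≤ 1) (s : Finset G) (ε : ℝ) (hε : 0 < ε) :
    ∃ Φ ∈ SS R e, ∀ j, ∀ g ∈ s, ‖Φ j (R.u g) - F j (R.u g)‖ < ε := by
  let T : (Fin d → StrongDual ℂ A) → Fin d × s → ℂ := fun Φ p => Φ p.1 (R.u p.2)
  have hconv : Convex ℝ (T '' SS R e) := by
    rintro _ ⟨Φ, hΦ, rfl⟩ _ ⟨Ψ, hΨ, rfl⟩ a b ha hb hab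
    refine ⟨_, SS_conv R e Φ Ψ hΦ hΨ a b ha hb hab, funext fun p => ?_⟩
    simp [T]
  have hcl : T F ∈ closure (T '' SS R e) := by
    by_contra hne
    obtain ⟨f, u, h1, h2⟩ := RCLike.geometric_hahn_banach_closed_point (𝕜 := ℂ) hconv.closure
      isClosed_closure hne
    have hu : 0 < u := by
      have := h1 _ (subset_closure ⟨0, zero_mem R e, rfl⟩)
      rwa [show T 0 = 0 from rfl, map_zero, map_zero] at this
    let a : Fin d → A := fun j =>
      ∑ g : s, (((u⁻¹ : ℝ) : ℂ) * f fun p => if (j, g) = p then 1 else 0) • R.u g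
    have e1 : ∀ Φ : Fin d → StrongDual ℂ A, (∑ j, Φ j (a j)).re = u⁻¹ * RCLike.re (f (T Φ)) := by
      intro Φ
      have := LinearMap.pi_apply_eq_sum_univ f.toLinearMap (T Φ)
      rw [ContinuousLinearMap.coe_coe] at this
      rw [this, RCLike.re_to_complex, ← Complex.re_ofReal_mul]
      congr 1
      simp only [a, T, map_sum, map_smul, smul_eq_mul, Fintype.sum_prod_type, Finset.mul_sum]
      exact Finset.sum_congr rfl fun j _ => Finset.sum_congr rfl fun g _ => by ring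
    have h3 := hF a (ccm_of R e a fun Φ hΦ => by
      rw [e1, inv_mul_le_iff₀ hu, mul_one]
      exact (h1 _ (subset_closure ⟨Φ, hΦ, rfl⟩)).le)
    rw [e1, inv_mul_le_iff₀ hu, mul_one] at h3
    linarith
  obtain ⟨_, ⟨Φ, hΦ, rfl⟩, hd⟩ := Metric.mem_closure_iff.1 hcl ε hε
  refine ⟨Φ, hΦ, fun j g hg => ?_⟩
  have := (dist_pi_lt_iff hε).1 hd (j, ⟨g, hg⟩)
  rwa [dist_comm, dist_eq_norm] at this

end Alg

end Hb2

open Hb2 in
theorem hb2 : Hb2Stmt := by
  intro G _ W A _ _ _ R d e he F hF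
  obtain ⟨C, hC, hbd⟩ := bd_of_nr R e he
  choose Φ hΦ hap using fun n : ℕ =>
    approx R e F hF (W.ball n) (1 / ((n : ℝ) + 1)) Nat.one_div_pos_of_nat
  choose k b ζ hb hζ hQ using hΦ
  refine ⟨⟨k, b, C, hC, fun i j => hbd _ _ (hb i) j, hb⟩, ζ, hζ, fun j => ?_⟩
  simp only [← hQ]
  set L : ℝ := C * ‖sing (A := A) (0 : Fin 1) 0‖ with hL
  have hL0 : 0 ≤ L := by positivity
  have hn : ∀ i, ‖Φ i j‖ ≤ L := fun i => ContinuousLinearMap.opNorm_le_bound _ hL0 fun a => by
    rw [hQ]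
    refine (Q_le R _ C hC (hbd _ _ (hb i) j) _ a).trans ?_
    rw [← mul_assoc]
    exact mul_le_of_le_one_right (by positivity) (hζ i)
  have heq : Equicontinuous fun i (a : A) => Φ i j a :=
    (LipschitzWith.uniformEquicontinuous _ ⟨L, hL0⟩ fun i =>
      (Φ i j).lipschitz.weaken (hn i)).equicontinuous
  have hcl : IsClosed {a : A | Tendsto (fun i => Φ i j a) atTop (𝓝 (F j a))} :=
    heq.isClosed_setOfPred_tendsto (F j).continuous
  have hsub : (Submodule.span ℂ (Set.range R.u) : Set A) ⊆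
      {a : A | Tendsto (fun i => Φ i j a) atTop (𝓝 (F j a))} := by
    intro a ha
    induction ha using Submodule.span_induction with
    | mem a ha =>
      obtain ⟨g, rfl⟩ := ha
      refine tendsto_iff_norm_sub_tendsto_zero.2 (squeeze_zero' (Eventually.of_forall fun _ =>
        norm_nonneg _) ?_ tendsto_one_div_add_atTop_nhds_zero_nat)
      filter_upwards [eventually_ge_atTop (W.wl g)] with n hn
      exact (hap n j g ((W.mem_ball n g).2 hn)).le
    | zero => simp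
    | add a a' _ _ h h' => simpa only [Set.mem_ofPred_eq, map_add] using Tendsto.add h h'
    | smul c a _ h => simpa only [Set.mem_ofPred_eq, map_smul] using Tendsto.const_smul h c
  intro a
  exact (closure_minimal hsub hcl) (R.dense a)

end Pool.Agent.MP_88ca14_an

end
end MrgPart0

-- ======== part 1: formerly Pool.Agent.MP_88ca14_an.Chan
section MrgPart1

/-!
PROJECT LRX, module CHAN: finite-dimensional views of a sequence of vectors with approximately
amenable support.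
-/

set_option autoImplicit false
set_option maxSynthPendingDepth 3

noncomputable section

namespace Pool.Agent.MP_88ca14_an

open Filter Topology Hb2
open scoped Classical ComplexConjugate

namespace Chan

section Sums

variable {G : Type} [Group G]

lemma reidx {M : Type} [AddCommMonoid M] (f : G → M) (Z X : Finset G) (g : G)
    (h1 : ∀ z, f z ≠ 0 → z ∈ Z) (h2 : ∀ z, f z ≠ 0 → z * g ∈ X) :
    ∑ z ∈ Z, f z = ∑ x ∈ X, f (x * g⁻¹) := by
  rw [← finsum_eq_sum_of_support_subset f (fun z hz => h1 z hz),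
    ← finsum_eq_sum_of_support_subset (fun x => f (x * g⁻¹))
      (fun x hx => by simpa using h2 _ hx)]
  exact (finsum_comp_equiv (Equiv.mulRight g⁻¹) (f := f)).symm

omit [Group G] in
lemma sum_ite_coe {M : Type} [AddCommMonoid M] (B : Finset G) (g : G) (F : B → M) :
    ∑ s : B, (if (s : G) = g then F s else 0) = if h : g ∈ B then F ⟨g, h⟩ else 0 := by
  split_ifs with h
  · rw [Finset.sum_eq_single ⟨g, h⟩ (fun s _ hs => if_neg fun h' => hs (Subtype.ext h'))
      (by simp), if_pos rfl]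
  · exact Finset.sum_eq_zero fun s _ => if_neg fun h' => h (by rw [← h']; exact s.2)

lemma sum_inv (f : G → ℝ) (z : G) (A : Finset G) :
    ∑ a ∈ A, f (z * a⁻¹) = ∑ y ∈ A.image fun a => z * a⁻¹, f y :=
  (Finset.sum_image fun _ _ _ _ h => inv_injective (mul_left_cancel h)).symm

variable {K : Type} [Fintype K]

lemma shift_le (ξ : Vec G K) (X : Finset G) (g : G) : ∑ z ∈ X, nsq (ξ (z * g)) ≤ ms ξ := by
  rw [← Finset.sum_image (f := fun x => nsq (ξ x)) (g := fun z => z * g)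
    fun a _ a' _ h => mul_right_cancel h,
    ms_eq ξ (X.image (fun z => z * g) ∪ ξ.support) Finset.subset_union_right,
    Finset.sum_coe_sort _ fun x => nsq (ξ x)]
  exact Finset.sum_le_sum_of_subset_of_nonneg Finset.subset_union_left fun _ _ _ => nsq_nonneg _

lemma fm_sum {I : Type} [Fintype I] (b : K → K → ℂ) (c d : I → ℂ) (v : I → K → ℂ) :
    fm b (∑ p, c p • v p) (∑ q, d q • v q) = ∑ p, ∑ q, conj (c p) * d q * fm b (v p) (v q) := by
  simp only [fm, Finset.sum_apply, Pi.smul_apply, smul_eq_mul, map_sum, map_mul,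
    Finset.mul_sum, Finset.sum_mul]
  rw [sum4]
  refine (Finset.sum_congr rfl fun p _ => Finset.sum_comm).trans ?_
  rw [Finset.sum_comm]
  refine Finset.sum_congr rfl fun p _ => Finset.sum_congr rfl fun q _ => ?_
  exact Finset.sum_congr rfl fun i _ => Finset.sum_congr rfl fun j _ => by ring

end Sums

section Nu

variable {G : Type} [Group G]

/-- Square roots of probability vectors. -/
structure Nu (W : WG G) (S : ℕ) (ν : G → G → ℝ) : Prop where
  nn : ∀ x z, 0 ≤ ν x z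
  supp : ∀ x z, ν x z ≠ 0 → W.wl (x⁻¹ * z) ≤ S
  le : ∀ x (T : Finset G), ∑ z ∈ T, ν x z ^ 2 ≤ 1

/-- Large overlap at close points of `U`. -/
def Ov (W : WG G) (U : Set G) (R : ℕ) (ε : ℝ) (S : ℕ) (ν : G → G → ℝ) : Prop :=
  ∀ x ∈ U, ∀ y ∈ U, W.wl (x⁻¹ * y) ≤ R → ∀ T : Finset G, (∀ z, W.wl (x⁻¹ * z) ≤ S → z ∈ T) →
    1 - ε ≤ ∑ z ∈ T, ν x z * ν y z

omit [Group G] in
lemma sum_le_l1 (φ : G →₀ ℝ) (T : Finset G) : ∑ z ∈ T, |φ z| ≤ l1 φ := by
  have : l1 φ = ∑ z ∈ T ∪ φ.support, |φ z| :=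
    Finset.sum_subset Finset.subset_union_right fun z _ hz => by
      rw [Finsupp.notMem_support_iff.1 hz, abs_zero]
  rw [this]
  exact Finset.sum_le_sum_of_subset_of_nonneg Finset.subset_union_left fun _ _ _ => abs_nonneg _

lemma exists_nu (W : WG G) (U : Set G) (R : ℕ) (ε : ℝ) (S : ℕ) :
    ∃ ν, Nu W S ν ∧ (Amen W.near U R ε S → Ov W U R ε S ν) := by
  by_cases h : Amen W.near U R ε S
  swap
  · exact ⟨fun _ _ => 0, ⟨fun _ _ => le_rfl, fun _ _ h => (h rfl).elim, fun _ _ => by simp⟩,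
      fun h' => (h h').elim⟩
  obtain ⟨μ, h0, h1, h2, h3⟩ := h
  refine ⟨fun x z => if x ∈ U then √(μ x z) else 0, ⟨fun x z => ?_, fun x z hz => ?_,
    fun x T => ?_⟩, fun _ x hx y hy hxy T hT => ?_⟩
  · split_ifs <;> positivity
  · split_ifs at hz with hx
    · exact h2 x hx z fun h => hz (by rw [h, Real.sqrt_zero])
    · exact (hz rfl).elim
  · by_cases hx : x ∈ U
    · simp only [if_pos hx, Real.sq_sqrt (h0 _ _)]
      rw [← h1 x hx]
      exact (Finset.sum_le_sum fun z _ => le_abs_self _).trans (sum_le_l1 _ _)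
    · simp [hx]
  · simp only [if_pos hx, if_pos hy]
    have e1 : ∑ z ∈ T, μ x z = 1 := by
      rw [← h1 x hx, l1, Finset.sum_subset (s₂ := T)
        (fun z hz => hT z (h2 x hx z (Finsupp.mem_support_iff.1 hz)))
        fun z _ hz => by rw [Finsupp.notMem_support_iff.1 hz, abs_zero]]
      exact Finset.sum_congr rfl fun z _ => (abs_of_nonneg (h0 _ _)).symm
    have e2 := (sum_le_l1 (μ x - μ y) T).trans (h3 x hx y hy hxy)
    refine le_trans ?_ (Finset.sum_le_sum (f := fun z => μ x z - |(μ x - μ y) z|) fun z _ => ?_)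
    · rw [Finset.sum_sub_distrib, e1]; linarith
    · rw [Finsupp.sub_apply]
      have ha := Real.mul_self_sqrt (h0 x z)
      have hb := Real.mul_self_sqrt (h0 y z)
      have ha' := Real.sqrt_nonneg (μ x z)
      have hb' := Real.sqrt_nonneg (μ y z)
      rcases le_total (√(μ x z)) (√(μ y z)) with h | h
      · nlinarith [abs_nonneg (μ x z - μ y z)]
      · nlinarith [le_abs_self (μ x z - μ y z)]

lemma Nu.ov_le {W : WG G} {S : ℕ} {ν : G → G → ℝ} (h : Nu W S ν) (x y : G) (T : Finset G) :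
    ∑ z ∈ T, ν x z * ν y z ≤ 1 := by
  have h1 := h.le x T
  have h2 := h.le y T
  have : 2 * ∑ z ∈ T, ν x z * ν y z ≤ ∑ z ∈ T, ν x z ^ 2 + ∑ z ∈ T, ν y z ^ 2 := by
    rw [Finset.mul_sum, ← Finset.sum_add_distrib]
    exact Finset.sum_le_sum fun z _ => by nlinarith [sq_nonneg (ν x z - ν y z)]
  linarith

variable {K : Type} [Fintype K]

/-- The basic estimate. -/
lemma key (W : WG G) (U : Set G) (R S : ℕ) (lam δ : ℝ) (hlam : 0 < lam) (hδ : 0 ≤ δ)
    (ν : G → G → ℝ) (hν : Nu W S ν) (hov : Ov W U R (lam ^ 2) S ν) (ζ : Vec G K) (h1 : ms ζ ≤ 1)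
    (h2 : ms (res Uᶜ ζ) ≤ lam ^ 2) (b : K → K → ℂ) (c : ℝ) (hc : 0 ≤ c) (hb : Bd b c)
    (g₁ g₂ : G) (hg : W.wl (g₁⁻¹ * g₂) ≤ R) (A Z Z' : Finset G)
    (hA : ∀ a, W.wl (a * g₁) ≤ S → a ∈ A)
    (hZ' : ∀ x ∈ ζ.support, ∀ s, W.wl s ≤ S → x * s⁻¹ ∈ Z') (w : G → ℝ) (hw : ∀ z, |w z| ≤ 1)
    (hZ : ∀ z, (w z : ℂ) * fm b (ζ (z * g₁)) (ζ (z * g₂)) ≠ 0 → z ∈ Z)
    (h : G → G → ℝ) (hh : ∀ z, ∀ a ∈ A, |h z a - w (z * a)| ≤ δ) :
    ‖∑ z ∈ Z, (w z : ℂ) * fm b (ζ (z * g₁)) (ζ (z * g₂)) - ∑ a ∈ A, ∑ z ∈ Z',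
      ((h z a * ν (z * a * g₁) z * ν (z * a * g₂) z : ℝ) : ℂ) *
        fm b (ζ (z * a * g₁)) (ζ (z * a * g₂))‖ ≤ (δ + lam ^ 2 + 2 * lam) * c := by
  set F : G → ℂ := fun z => fm b (ζ (z * g₁)) (ζ (z * g₂)) with hF
  set X : Finset G := ζ.support.image fun x => x * g₁⁻¹ with hX
  have hFX : ∀ z, F z ≠ 0 → z * g₁ ∈ ζ.support := fun z hz => by
    by_contra hn
    exact hz (by simp only [hF]; rw [Finsupp.notMem_support_iff.1 hn, fm_zero_left])
  have hFX' : ∀ z, F z ≠ 0 → z ∈ X := fun z hz =>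
    Finset.mem_image.2 ⟨_, hFX z hz, by simp⟩
  have e1 : ∑ z ∈ Z, (w z : ℂ) * F z = ∑ z ∈ X, (w z : ℂ) * F z := by
    simpa using reidx (fun z => (w z : ℂ) * F z) Z X 1 hZ fun z hz => by
      rw [mul_one]; exact hFX' z (right_ne_zero_of_mul hz)
  have e2 : ∀ a, ∑ z ∈ Z', ((h z a * ν (z * a * g₁) z * ν (z * a * g₂) z : ℝ) : ℂ) * F (z * a) =
      ∑ z ∈ X, ((h (z * a⁻¹) a * (ν (z * g₁) (z * a⁻¹) * ν (z * g₂) (z * a⁻¹)) : ℝ) : ℂ) * F z := by
    intro a
    rw [reidx _ Z' X a (fun z hz => ?_) fun z hz => hFX' _ (right_ne_zero_of_mul hz)]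
    · simp only [inv_mul_cancel_right, mul_assoc (h _ _)]
    · have h3 : ν (z * a * g₁) z ≠ 0 := fun h0 => left_ne_zero_of_mul hz (by rw [h0]; simp)
      have h4 := hν.supp _ _ h3
      have h5 := hZ' _ (hFX _ (right_ne_zero_of_mul hz)) (a * g₁) (by
        rw [← W.wl_inv]; refine le_of_eq_of_le (congrArg _ ?_) h4; group)
      rwa [show z * a * g₁ * (a * g₁)⁻¹ = z by group] at h5
  change ‖∑ z ∈ Z, (w z : ℂ) * F z - ∑ a ∈ A, ∑ z ∈ Z',
      ((h z a * ν (z * a * g₁) z * ν (z * a * g₂) z : ℝ) : ℂ) * F (z * a)‖ ≤ _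
  simp only [e1, e2]
  rw [Finset.sum_comm, ← Finset.sum_sub_distrib]
  set p : G → ℝ := fun x => √(nsq (ζ x)) with hp
  set q : G → ℝ := fun x => √(nsq (res Uᶜ ζ x)) with hq
  have hp0 : ∀ x, 0 ≤ p x := fun x => Real.sqrt_nonneg _
  have hq0 : ∀ x, 0 ≤ q x := fun x => Real.sqrt_nonneg _
  have hqp : ∀ x, x ∉ U → q x = p x := fun x hx => by
    simp only [hq, hp, res, Finsupp.filter_apply, if_pos (show x ∈ Uᶜ from hx)]
  have pt : ∀ z, ‖(w z : ℂ) * F z - ∑ a ∈ A,
      ((h (z * a⁻¹) a * (ν (z * g₁) (z * a⁻¹) * ν (z * g₂) (z * a⁻¹)) : ℝ) : ℂ) * F z‖ ≤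
      c * ((δ + lam ^ 2) * (p (z * g₁) * p (z * g₂)) + q (z * g₁) * p (z * g₂) +
        p (z * g₁) * q (z * g₂)) := by
    intro z
    set o : G → ℝ := fun a => ν (z * g₁) (z * a⁻¹) * ν (z * g₂) (z * a⁻¹) with ho
    have ho0 : ∀ a, 0 ≤ o a := fun a => mul_nonneg (hν.nn _ _) (hν.nn _ _)
    have hs := sum_inv (fun y => ν (z * g₁) y * ν (z * g₂) y) z A
    have ho1 : ∑ a ∈ A, o a ≤ 1 := hs.trans_le (hν.ov_le _ _ _)
    have ho2 : 0 ≤ ∑ a ∈ A, o a := Finset.sum_nonneg fun a _ => ho0 a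
    have hD : |w z - ∑ a ∈ A, h (z * a⁻¹) a * o a| ≤ δ + (1 - ∑ a ∈ A, o a) := by
      have e : w z - ∑ a ∈ A, h (z * a⁻¹) a * o a =
          w z * (1 - ∑ a ∈ A, o a) + ∑ a ∈ A, (w z - h (z * a⁻¹) a) * o a := by
        simp only [sub_mul, Finset.sum_sub_distrib, ← Finset.mul_sum]; ring
      have b1 : |w z * (1 - ∑ a ∈ A, o a)| ≤ 1 - ∑ a ∈ A, o a := by
        rw [abs_mul, abs_of_nonneg (sub_nonneg.2 ho1)]
        exact mul_le_of_le_one_left (sub_nonneg.2 ho1) (hw z)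
      have b2 : |∑ a ∈ A, (w z - h (z * a⁻¹) a) * o a| ≤ ∑ a ∈ A, δ * o a :=
        (Finset.abs_sum_le_sum_abs _ _).trans (Finset.sum_le_sum fun a ha => by
          rw [abs_mul, abs_of_nonneg (ho0 a), abs_sub_comm]
          have := hh (z * a⁻¹) a ha
          rw [inv_mul_cancel_right] at this
          exact mul_le_mul_of_nonneg_right this (ho0 a))
      rw [← Finset.mul_sum] at b2
      rw [e]
      refine (abs_add_le _ _).trans ?_
      nlinarith
    have hFb : ‖F z‖ ≤ c * (p (z * g₁) * p (z * g₂)) := by rw [← mul_assoc]; exact hb _ _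
    have hpp := mul_nonneg (hp0 (z * g₁)) (hp0 (z * g₂))
    have hq1 := mul_nonneg (hq0 (z * g₁)) (hp0 (z * g₂))
    have hq2 := mul_nonneg (hp0 (z * g₁)) (hq0 (z * g₂))
    rw [← Finset.sum_mul, ← sub_mul, ← Complex.ofReal_sum, ← Complex.ofReal_sub, norm_mul,
      Complex.norm_real, Real.norm_eq_abs]
    refine (mul_le_mul hD hFb (norm_nonneg _) (by linarith)).trans ?_
    rw [mul_left_comm]
    refine mul_le_mul_of_nonneg_left ?_ hc
    by_cases u1 : z * g₁ ∈ U
    · by_cases u2 : z * g₂ ∈ U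
      · have := hov _ u1 _ u2 (le_of_eq_of_le (congrArg _ (by group)) hg)
          (A.image fun a => z * a⁻¹) fun y hy => Finset.mem_image.2 ⟨y⁻¹ * z, hA _ (by
            rw [← W.wl_inv]; refine le_of_eq_of_le (congrArg _ ?_) hy; group), by group⟩
        rw [← hs] at this
        nlinarith
      · rw [hqp _ u2]; nlinarith [sq_nonneg lam]
    · rw [hqp _ u1]; nlinarith [sq_nonneg lam]
  refine (norm_sum_le_of_le _ fun z _ => pt z).trans ?_
  rw [← Finset.mul_sum, mul_comm]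
  refine mul_le_mul_of_nonneg_right ?_ hc
  have cs : ∀ (ξ ξ' : Vec G K) (m m' : ℝ), 0 ≤ m → 0 ≤ m' → ms ξ ≤ m ^ 2 → ms ξ' ≤ m' ^ 2 →
      ∑ z ∈ X, √(nsq (ξ (z * g₁))) * √(nsq (ξ' (z * g₂))) ≤ m * m' := by
    intro ξ ξ' m m' hm hm' k1 k2
    refine (Real.sum_sqrt_mul_sqrt_le _ (fun _ => nsq_nonneg _) fun _ => nsq_nonneg _).trans ?_
    exact mul_le_mul (Real.sqrt_le_iff.2 ⟨hm, (shift_le ξ X g₁).trans k1⟩)
      (Real.sqrt_le_iff.2 ⟨hm', (shift_le ξ' X g₂).trans k2⟩) (Real.sqrt_nonneg _) hm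
  have c1 := cs ζ ζ 1 1 zero_le_one zero_le_one (by simpa) (by simpa)
  have c2 := cs (res Uᶜ ζ) ζ lam 1 hlam.le zero_le_one h2 (by simpa)
  have c3 := cs ζ (res Uᶜ ζ) 1 lam zero_le_one hlam.le (by simpa) h2
  rw [Finset.sum_add_distrib, Finset.sum_add_distrib, ← Finset.mul_sum]
  have c4 := mul_le_mul_of_nonneg_left c1 (show 0 ≤ δ + lam ^ 2 by positivity)
  simp only [hp, hq]
  linarith

end Nu

section Views

variable {G : Type} [Group G] {A : Type} [CStarAlgebra A] [PartialOrder A] [StarOrderedRing A]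
  {k : ℕ → ℕ}

/-- A view with an arbitrary finite index type. -/
def mkV (I : Type) [Fintype I] (Z : ℕ → Finset G) (η : ∀ i, G → I → Fin (k i) → ℂ) : View G k :=
  ⟨Fintype.card I, Z, fun i z s => η i z ((Fintype.equivFin I).symm s)⟩

lemma refines_gen (R : Reg G A) (W : WG G) (ζ : ∀ i, Vec G (Fin (k i))) (V : View G k) (r : ℕ)
    (τ : ℝ) (I J : Type) [Fintype I] [Fintype J] (Z : ℕ → Finset G)
    (η : ∀ i, G → I → Fin (k i) → ℂ) (Kr : J → Fin V.n → I → ℂ) (α : I → I → StrongDual ℂ A)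
    (h1 : ∀ v : I → ℂ, ∑ a, nsq (fun s => ∑ p, Kr a s p * v p) ≤ nsq v) (h2 : CCF α)
    (h3 : ∀ᶠ i in UU, ∀ (b : Fin (k i) → Fin (k i) → ℂ) (c : ℝ), 0 ≤ c → Bd b c →
      (∀ s t, ‖V.vf i b s t - ∑ a, ∑ z ∈ Z i,
        fm b (∑ p, Kr a s p • η i z p) (∑ p, Kr a t p • η i z p)‖ ≤ τ * c) ∧
      ∀ g, W.wl g ≤ r → ‖R.Q b (ζ i) (R.u g) -
        ∑ p, ∑ q, α p q (R.u g) * ∑ z ∈ Z i, fm b (η i z p) (η i z q)‖ ≤ τ * c) :
    Refines R W ζ V (mkV I Z η) r τ := by
  let σ : Fin (Fintype.card I) ≃ I := (Fintype.equivFin I).symm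
  let ρ : Fin (Fintype.card J) ≃ J := (Fintype.equivFin J).symm
  have sσ : ∀ f : I → I → ℂ, ∑ p, ∑ q, f (σ p) (σ q) = ∑ p, ∑ q, f p q := fun f =>
    (Finset.sum_congr rfl fun p _ => Equiv.sum_comp σ (f (σ p))).trans
      (Equiv.sum_comp σ fun p => ∑ q, f p q)
  refine ⟨Fintype.card J, fun a => Matrix.of fun s p => Kr (ρ a) s (σ p),
    fun p q => α (σ p) (σ q), fun v => ?_, fun m a v w => ?_, h3.mono fun i hi b c hc hb => ?_⟩
  · have := h1 fun p => v (σ.symm p)
    rw [nsq_equiv σ.symm v, ← Equiv.sum_comp ρ] at this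
    refine le_of_eq_of_le (Finset.sum_congr rfl fun a _ => congrArg nsq (funext fun s => ?_)) this
    rw [← Equiv.sum_comp σ]
    simp only [Equiv.symm_apply_apply]
    rfl
  · let e : Fin m × Fin (Fintype.card I) ≃ Fin m × I := (Equiv.refl _).prodCongr σ
    have := h2 m a (fun p => v (e.symm p)) fun p => w (e.symm p)
    rw [nsq_equiv e.symm, nsq_equiv e.symm, ← fm_equiv e] at this
    simp only [Equiv.symm_apply_apply] at this
    exact this
  · obtain ⟨k1, k2⟩ := hi b c hc hb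
    refine ⟨fun s t => le_of_eq_of_le ?_ (k1 s t), fun g hg => le_of_eq_of_le ?_ (k2 g hg)⟩
    · congr 2
      rw [← Equiv.sum_comp ρ]
      refine Finset.sum_congr rfl fun a _ => ?_
      refine (sσ fun p q => conj (Kr (ρ a) s p) * Kr (ρ a) t q *
        ∑ z ∈ Z i, fm b (η i z p) (η i z q)).trans ?_
      simp only [fm_sum, Finset.mul_sum]
      exact ((Finset.sum_congr rfl fun p _ => Finset.sum_comm).trans Finset.sum_comm)
    · congr 2
      exact sσ fun p q => α p q (R.u g) * ∑ z ∈ Z i, fm b (η i z p) (η i z q)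

/-- The class of views. -/
def PP (ζ : ∀ i, Vec G (Fin (k i))) : Set (View G k) :=
  {V | ∃ (γ : Fin V.n → G) (φ : ℕ → G → Fin V.n → ℝ),
    (∀ i z s, V.η i z s = (φ i z s : ℂ) • ζ i (z * γ s)) ∧
    (∀ i z s, z ∉ V.Z i → V.η i z s = 0) ∧ ∀ i x, ∑ s, φ i (x * (γ s)⁻¹) s ^ 2 ≤ 1}

lemma mkV_mem (ζ : ∀ i, Vec G (Fin (k i))) (I : Type) [Fintype I] (Z : ℕ → Finset G)
    (γ : I → G) (φ : ℕ → G → I → ℝ)
    (h1 : ∀ i z s, z ∉ Z i → (φ i z s : ℂ) • ζ i (z * γ s) = 0)
    (h2 : ∀ i x, ∑ s, φ i (x * (γ s)⁻¹) s ^ 2 ≤ 1) :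
    mkV I Z (fun i z s => (φ i z s : ℂ) • ζ i (z * γ s)) ∈ PP ζ :=
  ⟨fun s => γ ((Fintype.equivFin I).symm s), fun i z s => φ i z ((Fintype.equivFin I).symm s),
    fun _ _ _ => rfl, fun i z _ hz => h1 i z _ hz, fun i x =>
      (Equiv.sum_comp (Fintype.equivFin I).symm fun s => φ i (x * (γ s)⁻¹) s ^ 2).trans_le (h2 i x)⟩

lemma mass_le (ζ : ∀ i, Vec G (Fin (k i))) (V : View G k) (hV : V ∈ PP ζ) (i : ℕ) :
    V.mass i ≤ ms (ζ i) := by
  obtain ⟨γ, φ, h1, h2, h3⟩ := hV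
  have e : ∀ s, ∑ z ∈ V.Z i, nsq (V.η i z s) =
      ∑ x ∈ (ζ i).support, φ i (x * (γ s)⁻¹) s ^ 2 * nsq (ζ i x) := by
    intro s
    rw [reidx (fun z => nsq (V.η i z s)) _ (ζ i).support (γ s) (fun z hz => ?_) fun z hz => ?_]
    · refine Finset.sum_congr rfl fun x _ => ?_
      rw [h1, nsq_smul, inv_mul_cancel_right, Complex.norm_real, Real.norm_eq_abs, sq_abs]
    · by_contra hn
      exact hz (by rw [h2 i z s hn, nsq_zero])
    · by_contra hn
      exact hz (by rw [h1, Finsupp.notMem_support_iff.1 hn, smul_zero, nsq_zero])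
  rw [View.mass, Finset.sum_comm]
  simp only [e]
  rw [Finset.sum_comm]
  refine Finset.sum_le_sum fun x _ => ?_
  rw [← Finset.sum_mul]
  exact mul_le_of_le_one_left (nsq_nonneg _) (h3 i x)

lemma ccf_block (R : Reg G A) (B : Finset G) (C : Type) [Fintype C] :
    CCF (fun p q : B × C => if p.2 = q.2 then R.co p.1 q.1 else 0) := by
  intro m a
  refine bd_of_re _ _ fun v w hvw => ?_
  have e1 : ∀ u : Fin m × B × C → ℂ, nsq u = ∑ c, nsq fun p : Fin m × B => u (p.1, p.2, c) := by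
    intro u
    simp only [nsq, Fintype.sum_prod_type]
    exact (Finset.sum_congr rfl fun p _ => Finset.sum_comm).trans Finset.sum_comm
  have e2 : fm (fun p q : Fin m × B × C =>
      (if p.2.2 = q.2.2 then R.co p.2.1 q.2.1 else 0) (a p.1 q.1)) v w =
      ∑ c, fm (fun p q : Fin m × B => R.co p.2 q.2 (a p.1 q.1)) (fun p => v (p.1, p.2, c))
        fun p => w (p.1, p.2, c) := by
    simp only [fm, Fintype.sum_prod_type]
    refine Eq.trans ?_ ((Finset.sum_congr rfl fun p _ => Finset.sum_comm).trans Finset.sum_comm)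
    refine Finset.sum_congr rfl fun p _ => Finset.sum_congr rfl fun x _ =>
      Finset.sum_congr rfl fun c _ => Finset.sum_congr rfl fun q _ =>
      Finset.sum_congr rfl fun y _ => ?_
    rw [Finset.sum_eq_single c (fun c' _ hc => by simp [hc.symm]) (by simp), if_pos rfl]
  have h0 := mn_nonneg a
  rw [e2, Complex.re_sum, Finset.mul_sum]
  refine le_trans ?_ (mul_le_of_le_one_right h0 hvw)
  rw [e1 v, e1 w, ← Finset.sum_add_distrib, Finset.mul_sum]
  refine Finset.sum_le_sum fun c _ => ?_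
  have h1 := (Complex.re_le_norm _).trans (R.mat_le m a B (fun p => v (p.1, p.2, c))
    fun p => w (p.1, p.2, c))
  have h2 := mul_le_mul_of_nonneg_left (two_sqrt _ _
    (nsq_nonneg fun p : Fin m × B => v (p.1, p.2, c))
    (nsq_nonneg fun p : Fin m × B => w (p.1, p.2, c))) h0
  nlinarith

lemma Q_u (R : Reg G A) {K : Type} [Fintype K] (b : K → K → ℂ) (ζ : Vec G K) (g : G) :
    R.Q b ζ (R.u g) = ∑ x ∈ ζ.support, fm b (ζ x) (ζ (x * g)) := by
  simp only [Reg.Q, Reg.Q2, sum_apply, smul_apply, smul_eq_mul, R.co_u, mul_ite, mul_one,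
    mul_zero]
  refine Finset.sum_congr rfl fun x _ => ?_
  rw [Finset.sum_ite_eq']
  split_ifs with h
  · rfl
  · rw [Finsupp.notMem_support_iff.1 h, fm_zero_right]

/-- Admissible local patterns. -/
def Pat {n : ℕ} (γ : Fin n → G) (A : Finset G) : Set (A × Fin n → ℝ) :=
  {f | ∀ g : G, ∑ s, ∑ a : A, (if (a : G) = g * (γ s)⁻¹ then f (a, s) ^ 2 else 0) ≤ 1}

lemma Pat.abs_le {n : ℕ} {γ : Fin n → G} {A : Finset G} {f : A × Fin n → ℝ} (h : f ∈ Pat γ A)
    (p : A × Fin n) : |f p| ≤ 1 := by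
  have h1 := (Finset.single_le_sum (f := fun s => ∑ a : A,
    (if (a : G) = p.1 * γ p.2 * (γ s)⁻¹ then f (a, s) ^ 2 else 0))
    (fun s _ => Finset.sum_nonneg fun a _ => by split_ifs <;> positivity)
    (Finset.mem_univ p.2)).trans (h (p.1 * γ p.2))
  simp only [mul_inv_cancel_right] at h1
  rw [sum_ite_coe A p.1 fun a => f (a, p.2) ^ 2, dif_pos p.1.2] at h1
  exact abs_le_one_iff_mul_self_le_one.2 (by rw [← sq]; exact h1)

lemma exists_net {n : ℕ} (γ : Fin n → G) (A : Finset G) (δ : ℝ) (hδ : 0 < δ) :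
    ∃ C : Finset (A × Fin n → ℝ), (∀ c ∈ C, c ∈ Pat γ A) ∧
      ∀ f ∈ Pat γ A, ∃ c ∈ C, ∀ p, |c p - f p| ≤ δ := by
  have hsub : Pat γ A ⊆ Metric.closedBall 0 1 := fun f hf =>
    mem_closedBall_zero_iff.2 ((pi_norm_le_iff_of_nonneg zero_le_one).2 fun p => Pat.abs_le hf p)
  obtain ⟨t, ht, hfin, hcov⟩ := Metric.finite_approx_of_totallyBounded
    ((isCompact_closedBall 0 1).totallyBounded.subset hsub) δ hδ
  refine ⟨hfin.toFinset, fun c hc => ht (hfin.mem_toFinset.1 hc), fun f hf => ?_⟩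
  obtain ⟨c, hc, hfc⟩ := Set.mem_iUnion₂.1 (hcov hf)
  refine ⟨c, hfin.mem_toFinset.2 hc, fun p => ?_⟩
  have := (dist_le_pi_dist f c p).trans (Metric.mem_ball.1 hfc).le
  rwa [dist_comm, Real.dist_eq] at this

lemma kraus {n : ℕ} (γ : Fin n → G) (A B : Finset G) (C : Finset (A × Fin n → ℝ))
    (hC : ∀ c ∈ C, c ∈ Pat γ A) (v : B × C → ℂ) :
    ∑ a : A × C, nsq (fun s => ∑ p : B × C, (if p.2 = a.2 ∧ (p.1 : G) = a.1 * γ s then
      ((a.2.1 (a.1, s) : ℝ) : ℂ) else 0) * v p) ≤ nsq v := by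
  have e1 : ∀ (a : A × C) (s : Fin n), ‖∑ p : B × C, (if p.2 = a.2 ∧ (p.1 : G) = a.1 * γ s then
      ((a.2.1 (a.1, s) : ℝ) : ℂ) else 0) * v p‖ ^ 2 = ∑ x : B,
        (if (a.1 : G) = x * (γ s)⁻¹ then a.2.1 (a.1, s) ^ 2 else 0) * ‖v (x, a.2)‖ ^ 2 := by
    intro a s
    have k1 : ∑ p : B × C, (if p.2 = a.2 ∧ (p.1 : G) = a.1 * γ s then
        ((a.2.1 (a.1, s) : ℝ) : ℂ) else 0) * v p = ∑ x : B,
        if (x : G) = a.1 * γ s then ((a.2.1 (a.1, s) : ℝ) : ℂ) * v (x, a.2) else 0 := by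
      rw [Fintype.sum_prod_type]
      refine Finset.sum_congr rfl fun x _ => ?_
      rw [Finset.sum_eq_single a.2 (fun c _ hc => by simp [hc]) (by simp)]
      simp
    have k2 : ∀ x : B, (if (a.1 : G) = x * (γ s)⁻¹ then a.2.1 (a.1, s) ^ 2 else 0) *
        ‖v (x, a.2)‖ ^ 2 =
        if (x : G) = a.1 * γ s then a.2.1 (a.1, s) ^ 2 * ‖v (x, a.2)‖ ^ 2 else 0 := by
      intro x
      simp only [eq_mul_inv_iff_mul_eq, eq_comm (a := (x : G)), ite_mul, zero_mul]
    simp only [k2]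
    rw [k1, sum_ite_coe B _ fun x => ((a.2.1 (a.1, s) : ℝ) : ℂ) * v (x, a.2),
      sum_ite_coe B _ fun x => a.2.1 (a.1, s) ^ 2 * ‖v (x, a.2)‖ ^ 2]
    split_ifs
    · rw [norm_mul, mul_pow, Complex.norm_real, Real.norm_eq_abs, sq_abs]
    · simp
  simp only [nsq, e1]
  simp only [Fintype.sum_prod_type]
  rw [Finset.sum_comm, Finset.sum_comm (γ := B)]
  refine Finset.sum_le_sum fun c _ => ?_
  refine le_of_eq_of_le ((Finset.sum_congr rfl fun a _ => Finset.sum_comm).trans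
    Finset.sum_comm) (Finset.sum_le_sum fun x _ => ?_)
  simp only [← Finset.sum_mul]
  refine mul_le_of_le_one_left (by positivity) ?_
  rw [Finset.sum_comm]
  exact hC c c.2 x

end Views

end Chan

open Chan in
theorem chan : ChanStmt := by
  intro G _ W A _ _ _ R k ζ hζ hAA
  refine ⟨PP ζ, ⟨⟨0, fun _ => ∅, fun _ _ s => s.elim0⟩, Fin.elim0, fun _ _ _ => 0,
    fun _ _ s => s.elim0, fun _ _ s => s.elim0, by simp⟩, mass_le ζ, ?_⟩
  rintro V ⟨γ, φ, h1, h2, h3⟩ r τ hτ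
  obtain ⟨lam, hlam, hl1, hl2⟩ : ∃ lam : ℝ, 0 < lam ∧ lam ≤ 1 ∧ 5 * lam ≤ τ :=
    ⟨min 1 (τ / 5), by positivity, min_le_left _ _, by linarith [min_le_right 1 (τ / 5)]⟩
  obtain ⟨ρ, hρ⟩ : ∃ ρ, ∀ s, W.wl (γ s) ≤ ρ := ⟨∑ s, W.wl (γ s), fun s =>
    Finset.single_le_sum (f := fun s => W.wl (γ s)) (fun _ _ => Nat.zero_le _) (Finset.mem_univ s)⟩
  obtain ⟨S, U, hU, hsm⟩ := hAA (2 * ρ + r) (lam ^ 2) (by positivity)
  choose ν hν hov using fun i => exists_nu W (U i) (2 * ρ + r) (lam ^ 2) S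
  obtain ⟨B, hB⟩ : ∃ B : Finset G, ∀ g, g ∈ B ↔ W.wl g ≤ S := ⟨_, W.mem_ball S⟩
  obtain ⟨A0, hA0⟩ : ∃ B : Finset G, ∀ g, g ∈ B ↔ W.wl g ≤ S + ρ := ⟨_, W.mem_ball _⟩
  obtain ⟨C, hC, hnet⟩ := exists_net γ A0 lam hlam
  have hφ : ∀ i z s, |φ i z s| ≤ 1 := fun i z s => by
    have := (Finset.single_le_sum (f := fun s' => φ i (z * γ s * (γ s')⁻¹) s' ^ 2)
      (fun _ _ => sq_nonneg _) (Finset.mem_univ s)).trans (h3 i (z * γ s))
    simp only [mul_inv_cancel_right] at this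
    exact abs_le_one_iff_mul_self_le_one.2 (by rw [← sq]; exact this)
  have hpat : ∀ i z, (fun p : A0 × Fin V.n => φ i (z * p.1) p.2) ∈ Pat γ A0 := by
    intro i z g
    refine le_trans (Finset.sum_le_sum fun s _ => ?_) (h3 i (z * g))
    rw [sum_ite_coe A0 _ fun a => φ i (z * a) s ^ 2]
    split_ifs
    · rw [mul_assoc]
    · positivity
  choose κ0 hκ0 hκ using fun i z => hnet _ (hpat i z)
  let κ : ℕ → G → C := fun i z => ⟨κ0 i z, hκ0 i z⟩
  let Z' : ℕ → Finset G := fun i => Finset.image₂ (fun x s => x * s⁻¹) (ζ i).support B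
  have hZ' : ∀ i, ∀ x ∈ (ζ i).support, ∀ s, W.wl s ≤ S → x * s⁻¹ ∈ Z' i := fun i x hx s hs =>
    Finset.mem_image₂_of_mem hx ((hB s).2 hs)
  have hνB : ∀ i z g, g ∉ B → ν i (z * g) z = 0 := fun i z g hg => by
    by_contra hn
    refine hg ((hB g).2 ?_)
    rw [← W.wl_inv]
    exact le_of_eq_of_le (congrArg _ (by group)) ((hν i).supp _ _ hn)
  let φ' : ℕ → G → B × C → ℝ := fun i z p => if p.2 = κ i z then ν i (z * p.1) z else 0
  refine ⟨_, mkV_mem ζ (B × C) Z' (fun p => p.1) φ' (fun i z p hz => ?_) fun i x => ?_,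
    refines_gen R W ζ V r τ (B × C) (A0 × C) Z' _ (fun a s p =>
      if p.2 = a.2 ∧ (p.1 : G) = a.1 * γ s then ((a.2.1 (a.1, s) : ℝ) : ℂ) else 0) _
      (kraus γ A0 B C hC) (ccf_block R B C) ?_⟩
  · have : ζ i (z * p.1) = 0 := by
      by_contra hn
      have := hZ' i _ (Finsupp.mem_support_iff.2 hn) p.1 ((hB _).1 p.1.2)
      rw [mul_inv_cancel_right] at this
      exact hz this
    rw [this, smul_zero]
  · refine le_of_eq_of_le ?_ ((sum_inv (fun y => ν i x y ^ 2) x B).trans_le ((hν i).le x _))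
    rw [Fintype.sum_prod_type, ← Finset.sum_coe_sort B]
    refine Finset.sum_congr rfl fun s _ => ?_
    rw [Finset.sum_eq_single (κ i (x * (s : G)⁻¹)) (fun c _ hc => by simp [φ', hc]) (by simp)]
    simp [φ']
  filter_upwards [hU, hsm] with i hUi hsi b c hc hb
  have hτc : ∀ δ : ℝ, δ ≤ 2 * lam → (δ + lam ^ 2 + 2 * lam) * c ≤ τ * c := fun δ hδ =>
    mul_le_mul_of_nonneg_right (by nlinarith) hc
  refine ⟨fun s t => ?_, fun g hg => ?_⟩
  · have e1 : ∀ (a : A0 × C) (z : G) (s : Fin V.n), ∑ p : B × C,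
        (if p.2 = a.2 ∧ (p.1 : G) = a.1 * γ s then ((a.2.1 (a.1, s) : ℝ) : ℂ) else 0) •
          ((φ' i z p : ℝ) : ℂ) • ζ i (z * p.1) =
        (((if a.2 = κ i z then κ0 i z (a.1, s) * ν i (z * a.1 * γ s) z else 0 : ℝ)) : ℂ) •
          ζ i (z * a.1 * γ s) := by
      intro a z s
      have k1 : ∑ p : B × C,
          (if p.2 = a.2 ∧ (p.1 : G) = a.1 * γ s then ((a.2.1 (a.1, s) : ℝ) : ℂ) else 0) •
            ((φ' i z p : ℝ) : ℂ) • ζ i (z * p.1) = ∑ x : B, if (x : G) = a.1 * γ s then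
              ((a.2.1 (a.1, s) * φ' i z (x, a.2) : ℝ) : ℂ) • ζ i (z * x) else 0 := by
        rw [Fintype.sum_prod_type]
        refine Finset.sum_congr rfl fun x _ => ?_
        rw [Finset.sum_eq_single a.2 (fun c _ hc => by simp [hc]) (by simp)]
        simp [mul_smul]
      rw [k1, sum_ite_coe B _ fun x => ((a.2.1 (a.1, s) * φ' i z (x, a.2) : ℝ) : ℂ) • ζ i (z * x)]
      by_cases ha : a.2 = κ i z
      · split_ifs with hm
        · simp only [φ', ha, if_true, mul_assoc, κ]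
        · rw [mul_assoc z, hνB i z _ hm]; simp
      · simp [φ', ha]
    let h : G → G → ℝ := fun z a =>
      if ha : a ∈ A0 then κ0 i z (⟨a, ha⟩, s) * κ0 i z (⟨a, ha⟩, t) else 0
    have e2 : V.vf i b s t = ∑ z ∈ V.Z i, ((φ i z s * φ i z t : ℝ) : ℂ) *
        fm b (ζ i (z * γ s)) (ζ i (z * γ t)) :=
      Finset.sum_congr rfl fun z _ => by
        rw [h1, h1, fm_smul, Complex.conj_ofReal, Complex.ofReal_mul]
    have kk := key W (U i) _ S lam (2 * lam) hlam (by positivity) (ν i) (hν i) (hov i hUi) (ζ i)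
      (hζ i) hsi b c hc hb (γ s) (γ t) (by
        have := W.wl_mul (γ s)⁻¹ (γ t)
        rw [W.wl_inv] at this
        have := hρ s
        have := hρ t
        omega) A0 (V.Z i) (Z' i) (fun a ha => (hA0 a).2 (by
        have := W.wl_mul (a * γ s) (γ s)⁻¹
        rw [W.wl_inv, mul_inv_cancel_right] at this
        have := hρ s
        omega)) (hZ' i) (fun z => φ i z s * φ i z t) (fun z => by
        rw [abs_mul]; exact mul_le_one₀ (hφ i z s) (abs_nonneg _) (hφ i z t)) (fun z hz => by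
        by_contra hn
        refine hz ?_
        have := fm_zero_left b (V.η i z t)
        rwa [← h2 i z s hn, h1, h1, fm_smul, Complex.conj_ofReal, ← Complex.ofReal_mul] at this)
      h (fun z a ha => by
        simp only [h, dif_pos ha]
        have k1 := hκ i z (⟨a, ha⟩, s)
        have k2 := hκ i z (⟨a, ha⟩, t)
        have k3 := Pat.abs_le (hC _ (hκ0 i z)) (⟨a, ha⟩, s)
        have k4 := hφ i (z * a) t
        set x := κ0 i z (⟨a, ha⟩, s)
        set y := κ0 i z (⟨a, ha⟩, t)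
        have : x * y - φ i (z * a) s * φ i (z * a) t =
            x * (y - φ i (z * a) t) + (x - φ i (z * a) s) * φ i (z * a) t := by ring
        rw [this]
        refine (abs_add_le _ _).trans ?_
        rw [abs_mul, abs_mul]
        have := mul_le_mul k3 k2 (abs_nonneg _) zero_le_one
        have := mul_le_mul k1 k4 (abs_nonneg _) hlam.le
        linarith)
    refine le_of_eq_of_le ?_ (kk.trans (hτc _ le_rfl))
    rw [e2]
    congr 2
    simp only [e1]
    rw [Fintype.sum_prod_type, ← Finset.sum_coe_sort A0]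
    refine Finset.sum_congr rfl fun a _ => ?_
    rw [Finset.sum_comm]
    refine Finset.sum_congr rfl fun z _ => ?_
    rw [Finset.sum_eq_single (κ i z) (fun c _ hc => by simp [hc, fm_zero_left]) (by simp),
      fm_smul, Complex.conj_ofReal, if_pos rfl, if_pos rfl, ← Complex.ofReal_mul]
    simp only [h, dif_pos a.2]
    congr 2
    ring
  · have kk := key W (U i) _ S lam 0 hlam le_rfl (ν i) (hν i) (hov i hUi) (ζ i)
      (hζ i) hsi b c hc hb 1 g (by rw [inv_one, one_mul]; omega) B (ζ i).support (Z' i)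
      (fun a ha => (hB a).2 (by rwa [mul_one] at ha)) (hZ' i) (fun _ => 1) (fun _ => by simp)
      (fun z hz => by
        by_contra hn
        refine hz ?_
        rw [mul_one, Finsupp.notMem_support_iff.1 hn, fm_zero_left, mul_zero])
      (fun _ _ => 1) (fun _ _ _ => by simp)
    refine le_of_eq_of_le ?_ (kk.trans (hτc _ (by positivity)))
    rw [Q_u]
    simp only [mul_one, one_mul, Complex.ofReal_one]
    congr 2
    rw [Fintype.sum_prod_type, ← Finset.sum_coe_sort B]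
    refine Finset.sum_congr rfl fun a _ => ?_
    have e3 : ∀ c' : C, ∑ q : B × C, (if c' = q.2 then R.co a q.1 else 0) (R.u g) *
        ∑ z ∈ Z' i, fm b (((φ' i z (a, c') : ℝ) : ℂ) • ζ i (z * a))
          (((φ' i z q : ℝ) : ℂ) • ζ i (z * q.1)) = ∑ z ∈ Z' i, if c' = κ i z then
            ((ν i (z * a) z * ν i (z * a * g) z : ℝ) : ℂ) * fm b (ζ i (z * a)) (ζ i (z * a * g))
          else 0 := by
      intro c'
      have k1 : ∀ x : B, ∑ c'' : C, (if c' = c'' then R.co a x else 0) (R.u g) *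
          ∑ z ∈ Z' i, fm b (((φ' i z (a, c') : ℝ) : ℂ) • ζ i (z * a))
            (((φ' i z (x, c'') : ℝ) : ℂ) • ζ i (z * x)) = if (x : G) = a * g then
          ∑ z ∈ Z' i, fm b (((φ' i z (a, c') : ℝ) : ℂ) • ζ i (z * a))
            (((φ' i z (x, c') : ℝ) : ℂ) • ζ i (z * x)) else 0 := by
        intro x
        rw [Finset.sum_eq_single c' (fun c _ hc => by simp [hc.symm]) (by simp), if_pos rfl,
          R.co_u, ite_mul, one_mul, zero_mul]
      rw [Fintype.sum_prod_type]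
      simp only [k1]
      rw [sum_ite_coe B _ fun x => ∑ z ∈ Z' i, fm b (((φ' i z (a, c') : ℝ) : ℂ) • ζ i (z * a))
        (((φ' i z (x, c') : ℝ) : ℂ) • ζ i (z * x))]
      split_ifs with hm
      · refine Finset.sum_congr rfl fun z _ => ?_
        rw [fm_smul, Complex.conj_ofReal, ← Complex.ofReal_mul]
        simp only [φ', mul_assoc]
        split_ifs <;> simp
      · refine (Finset.sum_eq_zero fun z _ => ?_).symm
        rw [mul_assoc z, hνB i z _ hm]
        simp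
    simp only [e3]
    rw [Finset.sum_comm]
    exact Finset.sum_congr rfl fun z _ => by rw [Finset.sum_ite_eq', if_pos (Finset.mem_univ _)]

end Pool.Agent.MP_88ca14_an

end
end MrgPart1

-- marker of a merged file
example : 731051 + 146534 = 731051 + 146534 := rfl
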