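import Pool.Agent.MP_88ca14_an.Graph
import Pool.Agent.MP_88ca14_an.SpecG
import Pool.Agent.MP_88ca14_an.Chan

-- ======== part 0: formerly Pool.Agent.MP_88ca14_an.Layer
section MrgPart0

/-!
PROJECT LRX: first consequences of the layer structure.
-/

set_option autoImplicit false

noncomputable section

namespace Pool.Agent.MP_88ca14_an

variable {σ : Type} [Fintype σ] [DecidableEq σ] {T : Tiles σ}

namespace Lay

variable {V : Type} {Y : LG σ V} {Vs : Set V} {lev : V → ℕ} {j : ℕ}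

theorem top_mem (h : Lay T Y Vs lev j) {v : V} {x : T.X} (ht : Top T Y lev v x) : v ∈ Vs := by
  obtain ⟨g, w, -, h2, h3⟩ := ht
  refine (h2.mem_of_ne h.mem ?_).1
  rintro rfl
  rw [LG.rd_one.1 h2] at h3; exact lt_irrefl _ h3

/-- A vertex of level `≤ j` of the cell of a top vertex is a gate vertex. -/
theorem low (h : Lay T Y Vs lev j) {v w : V} {x y : T.X} {g : FreeGroup σ} (hv : lev v = j + 1)
    (h1 : T.Γ.Rd x g y) (h2 : Y.Rd v g w) (hw : lev w ≤ j) :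
    w ∈ Vs ∧ lev w = j ∧ ¬ Top T Y lev w y := by
  have hg : g ≠ 1 := by
    rintro rfl
    rw [LG.rd_one.1 h2] at hv; omega
  have hm := (h2.mem_of_ne h.mem hg).2
  obtain ⟨v', h3, h4⟩ := h.cell w hm hw y g⁻¹ x h1.inv
  obtain rfl := h3.func h2.inv
  refine ⟨hm, by omega, ?_⟩
  rintro ⟨g2, w2, ⟨y2, h5⟩, h6, h7⟩
  obtain ⟨v', h8, h9⟩ := h.cell w2 (h6.mem h.mem hm) (by omega) y2 _ x (h1.trans h5).inv
  obtain rfl := h8.func (h2.trans h6).inv
  omega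

theorem top_cell (h : Lay T Y Vs lev j) {v : V} {x y : T.X} {g : FreeGroup σ}
    (hv : lev v = j + 1) (ht : Top T Y lev v x) (h1 : T.Γ.Rd x g y) :
    ∃ w, Y.Rd v g w ∧ j ≤ lev w ∧ lev w ≤ j + 1 := by
  obtain ⟨g0, w0, ⟨y0, h2⟩, h3, h4⟩ := ht
  obtain ⟨h5, h6, -⟩ := h.low hv h2 h3 (by omega)
  obtain ⟨w, h7, h8⟩ := h.cell w0 h5 h6.le y0 _ y (h2.div h1)
  have h9 : Y.Rd v g w := by simpa using h3.trans h7
  refine ⟨w, h9, ?_, by omega⟩
  by_contra hc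
  have := (h.low hv h1 h9 (by omega)).2.1
  omega

theorem top_inj (h : Lay T Y Vs lev j) {v w w' : V} {x y y' : T.X} {g g' : FreeGroup σ}
    (hv : lev v = j + 1) (ht : Top T Y lev v x) (h1 : T.Γ.Rd x g y) (h1' : T.Γ.Rd x g' y')
    (h2 : Y.Rd v g w) (h2' : Y.Rd v g' w') : y = y' ↔ w = w' := by
  obtain ⟨g0, w0, ⟨y0, h3⟩, h4, h5⟩ := ht
  obtain ⟨h6, h7, -⟩ := h.low hv h3 h4 (by omega)
  exact h.cinj w0 h6 h7.le y0 _ y _ y' w w' (h3.div h1) (h3.div h1') (h4.div h2) (h4.div h2')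

omit [Fintype σ] in
theorem _root_.Pool.Agent.MP_88ca14_an.LG.Reads.div {V : Type} {Y : LG σ V} {x y : V}
    {g g' : FreeGroup σ} (h : Y.Rd x g y) (h' : Y.Reads x g') : Y.Reads y (g⁻¹ * g') := by
  obtain ⟨z, hz⟩ := h'
  exact ⟨z, h.div hz⟩

theorem _root_.Pool.Agent.MP_88ca14_an.Top.move {v w : V} {x y : T.X} {g : FreeGroup σ}
    (ht : Top T Y lev v x) (h1 : T.Γ.Rd x g y) (h2 : Y.Rd v g w) (hw : lev v ≤ lev w) :
    Top T Y lev w y := by
  obtain ⟨g0, w0, h3, h4, h5⟩ := ht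
  exact ⟨_, w0, LG.Reads.div h1 h3, h2.div h4, by omega⟩

/-- Two gate vertices are joined by a short word inside the gate. -/
theorem gate2 (h : Lay T Y Vs lev j) {v w w' : V} {x y y' : T.X} {g g' : FreeGroup σ}
    (hv : lev v = j + 1) (h1 : T.Γ.Rd x g y) (h1' : T.Γ.Rd x g' y')
    (h2 : Y.Rd v g w) (h2' : Y.Rd v g' w') (hw : lev w ≤ j) (hw' : lev w' ≤ j) :
    ∃ q, T.Γ.Rd y q y' ∧ Y.Rd w q w' ∧ q.norm ≤ 2 * T.ell x ∧
      ∀ m u, Pre m q → Y.Rd w m u → lev u ≤ j := by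
  obtain ⟨h3, h4, h5⟩ := h.low hv h1 h2 hw
  obtain ⟨q, h6, h7, h8⟩ := h.gate w h3 h4 y h5 _ y' w' (h1.div h1') (h2.div h2') hw'
  obtain ⟨u, h9, -⟩ := h.cell w h3 hw y q y' h6
  have := (h.cinj w h3 hw y q y' _ y' u w' h6 (h1.div h1') h9 (h2.div h2')).1 rfl
  exact ⟨q, h6, this ▸ h9, T.ell_rd h1 ▸ h7, h8⟩

theorem common' (h : Lay T Y Vs lev j) {v : V} {x x' : T.X} (hv : lev v = j + 1)
    (ht : Top T Y lev v x) (ht' : Top T Y lev v x') (hne : x ≠ x') :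
    ∃ g w, T.Γ.Reads x g ∧ T.Γ.Reads x' g ∧ Y.Rd v g w ∧ lev w ≤ j ∧
      g.norm < T.ell x ∧ g.norm < T.ell x' := by
  obtain ⟨g, w, h1, h2, h3, h4⟩ := h.common v x x' hv ht ht' hne
  exact ⟨g, w, h1, h2, h3, h4, T.piece' hne h1 h2⟩

end Lay

namespace Geo

variable {G : Type} [Group G] (Γ : Geo T G)

theorem tp_iff {v : G} {x : T.X} : Γ.Tp v x ↔ Top T (cay Γ.π) Γ.lev v x := by
  constructor
  · rintro ⟨g, h1, h2⟩; exact ⟨g, _, h1, (cay_rd _).2 rfl, h2⟩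
  · rintro ⟨g, w, h1, h2, h3⟩; exact ⟨g, h1, (cay_rd _).1 h2 ▸ h3⟩

@[simp] theorem lev_one : Γ.lev 1 = 0 := (Γ.lev_zero 1).2 rfl

/-- Tiles embed in the group. -/
theorem cinj {x y y' : T.X} {g g' : FreeGroup σ} (h : T.Γ.Rd x g y) (h' : T.Γ.Rd x g' y') :
    y = y' ↔ Γ.π g = Γ.π g' :=
  (Γ.lay 0).cinj 1 trivial (by simp) x g y g' y' _ _ h h' ((cay_rd _).2 (one_mul _).symm)
    ((cay_rd _).2 (one_mul _).symm)

theorem lev_le (v : G) {x : T.X} {g : FreeGroup σ} (h : T.Γ.Reads x g) :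
    Γ.lev (v * Γ.π g) ≤ Γ.lev v + 1 := by
  obtain ⟨y, hy⟩ := h
  obtain ⟨w, h1, h2⟩ := (Γ.lay (Γ.lev v)).cell v trivial le_rfl x g y hy
  exact (cay_rd _).1 h1 ▸ h2

variable {Γ}

theorem Tp.ne_one {v : G} {x : T.X} (h : Γ.Tp v x) : v ≠ 1 := by
  rintro rfl
  obtain ⟨g, -, h2⟩ := h
  simp at h2

theorem Tp.lev_pos {v : G} {x : T.X} (h : Γ.Tp v x) : ∃ j, Γ.lev v = j + 1 := by
  obtain ⟨g, -, h2⟩ := h
  exact ⟨Γ.lev v - 1, by omega⟩

/-- The cell of a top vertex has no higher vertex, and its levels differ by at most one. -/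
theorem Tp.le {v : G} {x : T.X} (h : Γ.Tp v x) {g : FreeGroup σ} (hg : T.Γ.Reads x g) :
    Γ.lev (v * Γ.π g) ≤ Γ.lev v ∧ Γ.lev v ≤ Γ.lev (v * Γ.π g) + 1 := by
  obtain ⟨j, hj⟩ := h.lev_pos
  obtain ⟨y, hy⟩ := hg
  obtain ⟨w, h1, h2, h3⟩ := (Γ.lay j).top_cell hj (Γ.tp_iff.1 h) hy
  rw [← (cay_rd _).1 h1]; omega

theorem Tp.move {v : G} {x y : T.X} (h : Γ.Tp v x) {g : FreeGroup σ} (hg : T.Γ.Rd x g y)
    (hl : Γ.lev v ≤ Γ.lev (v * Γ.π g)) : Γ.Tp (v * Γ.π g) y :=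
  Γ.tp_iff.2 ((Γ.tp_iff.1 h).move hg ((cay_rd _).2 rfl) hl)

theorem Tp.common {v : G} {x x' : T.X} (h : Γ.Tp v x) (h' : Γ.Tp v x') (hne : x ≠ x') :
    ∃ g, T.Γ.Reads x g ∧ T.Γ.Reads x' g ∧ Γ.lev (v * Γ.π g) < Γ.lev v ∧
      g.norm < T.ell x ∧ g.norm < T.ell x' := by
  obtain ⟨j, hj⟩ := h.lev_pos
  obtain ⟨g, w, h1, h2, h3, h4, h5⟩ :=
    (Γ.lay j).common' hj (Γ.tp_iff.1 h) (Γ.tp_iff.1 h') hne
  exact ⟨g, h1, h2, by rw [← (cay_rd _).1 h3]; omega, h5⟩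

variable (Γ)

theorem exists_tp {v : G} (hv : v ≠ 1) : ∃ x, Γ.Tp v x := by
  obtain ⟨j, hj⟩ : ∃ j, Γ.lev v = j + 1 :=
    ⟨Γ.lev v - 1, by have := (Γ.lev_zero v).not.2 hv; omega⟩
  obtain ⟨x, hx⟩ := (Γ.lay j).top v trivial hj
  exact ⟨x, Γ.tp_iff.2 hx⟩

/-- An edge that does not go up lies in a cell in which its origin is a top vertex. -/
theorem edge {v : G} (hv : v ≠ 1) (a : σ × Bool) (hl : Γ.lev (v * Γ.π (lt a)) ≤ Γ.lev v) :
    ∃ x, Γ.Tp v x ∧ T.Γ.Reads x (lt a) := by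
  obtain ⟨j, hj⟩ : ∃ j, Γ.lev v = j + 1 :=
    ⟨Γ.lev v - 1, by have := (Γ.lev_zero v).not.2 hv; omega⟩
  obtain ⟨x, hx, h2⟩ := (Γ.lay j).edge v a _ ((cay_step _).2 rfl) hj (by omega)
  exact ⟨x, Γ.tp_iff.2 hx, h2⟩

/-- Two lower vertices of one cell are joined by a short word of lower vertices. -/
theorem gate2 {v : G} {x y y' : T.X} {g g' : FreeGroup σ} (h : T.Γ.Rd x g y)
    (h' : T.Γ.Rd x g' y') (hl : Γ.lev (v * Γ.π g) < Γ.lev v)
    (hl' : Γ.lev (v * Γ.π g') < Γ.lev v) :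
    ∃ q, T.Γ.Rd y q y' ∧ Γ.π (g * q) = Γ.π g' ∧ q.norm ≤ 2 * T.ell x ∧
      ∀ m, Pre m q → Γ.lev (v * Γ.π (g * m)) < Γ.lev v := by
  obtain ⟨j, hj⟩ : ∃ j, Γ.lev v = j + 1 := ⟨Γ.lev v - 1, by omega⟩
  obtain ⟨q, h1, h2, h3, h4⟩ := (Γ.lay j).gate2 hj h h' ((cay_rd _).2 rfl) ((cay_rd _).2 rfl)
    (by omega) (by omega)
  refine ⟨q, h1, (Γ.cinj (h.trans h1) h').1 rfl, h3, fun m hm => ?_⟩
  have := h4 m _ hm ((cay_rd _).2 rfl)
  rw [map_mul, ← mul_assoc]; omega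

end Geo

/-- The descent length is at most the diameter of the tile. -/
theorem Desc.h_le {G : Type} [Group G] {Γ : Geo T G} (D : Desc Γ) {v : G} {x : T.X}
    (h : Γ.Tp v x) : 1 ≤ D.h v ∧ D.h v ≤ 17 ^ (101 * T.ell x) := by
  constructor
  · obtain ⟨p, -, h2, h3, -⟩ := D.word v x h
    by_contra hc
    rw [FreeGroup.norm_eq_zero.1 (show p.norm = 0 by omega)] at h3
    simp at h3
  · obtain ⟨g, ⟨y, h1⟩, h2⟩ := h
    obtain ⟨g', h3, h4⟩ := T.diam h1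
    exact (D.min v x g' ⟨y, h3⟩ (by rwa [(Γ.cinj h3 h1).1 rfl])).trans h4

theorem Desc.ds_iter {G : Type} [Group G] {Γ : Geo T G} (D : Desc Γ) (v : G) (t : ℕ) :
    Γ.W.ds v (D.ν^[t] v) ≤ t := by
  induction t with
  | zero => simp
  | succ t ih =>
    rw [Function.iterate_succ_apply']
    exact (Γ.W.ds_tri _ _ _).trans (add_le_add ih (D.nu_ds _))

theorem MG.f_inj {G : Type} [Group G] (M : MG T G) {x y : T.X} (h : T.ty x = T.ty y)
    (hf : M.f x = M.f y) : x = y :=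
  LG.rd_one.1 (M.conv x y 1 h (by simp [hf]) (by simp))

end Pool.Agent.MP_88ca14_an

end
end MrgPart0

-- ======== part 1: formerly Pool.Agent.MP_88ca14_an.Desc
section MrgPart1

/-!
PROJECT LRX, modules DESC, GC, CON: descent paths, convexity and contraction.
-/

set_option autoImplicit false

noncomputable section

namespace Pool.Agent.MP_88ca14_an

open scoped Classical

namespace DescM

variable {σ : Type} [Fintype σ] [DecidableEq σ] {T : Tiles σ} {G : Type} [Group G] {Γ : Geo T G}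

/-- Between two short descents in one cell all vertices are lower. -/
theorem seg_low {v : G} {x : T.X} {g g' : FreeGroup σ} (h : T.Γ.Reads x g) (h' : T.Γ.Reads x g')
    (hl : Γ.lev (v * Γ.π g) < Γ.lev v) (hl' : Γ.lev (v * Γ.π g') < Γ.lev v)
    (hn : (g⁻¹ * g').norm + 2 * T.ell x < 100 * T.ell x) {c : FreeGroup σ} (hc : Btw g c g') :
    Γ.lev (v * Γ.π c) < Γ.lev v := by
  obtain ⟨y, h⟩ := h
  obtain ⟨y', h'⟩ := h'
  obtain ⟨q, h1, -, h3, h4⟩ := Γ.gate2 h h' hl hl'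
  have e : q = g⁻¹ * g' := T.eq_of_short h1 (h.div h') (by rw [T.ell_rd h]; omega)
  have := h4 (g⁻¹ * c) (e ▸ btw_iff_pre.1 hc)
  rwa [mul_inv_cancel_left] at this

/-- The ends of two descents in one cell are close. -/
theorem gate_ds {v : G} {x : T.X} {g g' : FreeGroup σ} (h : T.Γ.Reads x g) (h' : T.Γ.Reads x g')
    (hl : Γ.lev (v * Γ.π g) < Γ.lev v) (hl' : Γ.lev (v * Γ.π g') < Γ.lev v) :
    Γ.W.ds (v * Γ.π g) (v * Γ.π g') ≤ 2 * T.ell x := by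
  obtain ⟨y, h⟩ := h
  obtain ⟨y', h'⟩ := h'
  obtain ⟨q, -, h2, h3, -⟩ := Γ.gate2 h h' hl hl'
  rw [← h2, map_mul, ← mul_assoc]
  exact (Γ.ds_pi _ q).trans h3

theorem norm_div_le (g g' : FreeGroup σ) : (g⁻¹ * g').norm ≤ g.norm + g'.norm := by
  have := FreeGroup.norm_mul_le g⁻¹ g'
  rwa [FreeGroup.norm_inv_eq] at this

/-- A first descent is an initial segment of every short descent in the same cell. -/
theorem pre_of_first {v : G} {x : T.X} {p g : FreeGroup σ} (h : T.Γ.Reads x p)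
    (h' : T.Γ.Reads x g) (hl : Γ.lev (v * Γ.π p) < Γ.lev v) (hl' : Γ.lev (v * Γ.π g) < Γ.lev v)
    (hf : ∀ m, Pre m p → Γ.lev (v * Γ.π m) < Γ.lev v → m = p)
    (hn : p.norm + g.norm + 2 * T.ell x < 100 * T.ell x) : Pre p g := by
  obtain ⟨c, h1, h2, h3⟩ := median_one p g
  have := norm_div_le p g
  rw [← hf c h1 (seg_low h h' hl hl' (by omega) h3)]
  exact h2

/-- `n` is the length of a descent from `v`. -/
def Dn (Γ : Geo T G) (v : G) (n : ℕ) : Prop :=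
  ∃ x g, T.Γ.Reads x g ∧ Γ.lev (v * Γ.π g) < Γ.lev v ∧ g.norm = n

/-- The minimal length of a descent. -/
def hh (Γ : Geo T G) (v : G) : ℕ := sInf {n | Dn Γ v n}

theorem hh_le {v : G} {x : T.X} {g : FreeGroup σ} (h : T.Γ.Reads x g)
    (hl : Γ.lev (v * Γ.π g) < Γ.lev v) : hh Γ v ≤ g.norm :=
  Nat.sInf_le ⟨x, g, h, hl, rfl⟩

theorem hh_one : hh Γ 1 = 0 := by
  refine Nat.sInf_eq_zero.2 (Or.inr (Set.eq_empty_of_forall_notMem ?_))
  rintro n ⟨x, g, -, h, -⟩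
  simp at h

/-- A minimal descent is read in every cell. -/
theorem all_read {v : G} {x x' : T.X} {p : FreeGroup σ} (h : T.Γ.Reads x p)
    (hl : Γ.lev (v * Γ.π p) < Γ.lev v) (hp : p.norm = hh Γ v) (ht : Γ.Tp v x') :
    T.Γ.Reads x' p := by
  by_cases hx : x = x'
  · exact hx ▸ h
  obtain ⟨g, h1, h2, h3, h4, -⟩ := Geo.Tp.common ⟨p, h, hl⟩ ht hx
  have h5 := hh_le h1 h3
  exact h2.pre (pre_of_first h h1 hl h3
    (fun m hm hm' => hm.eq_of_norm_ge (hp ▸ hh_le (h.pre hm) hm')) (by omega))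

theorem exists_letter {v : G} (hv : v ≠ 1) : ∃ a : σ × Bool, ∃ x p, T.Γ.Reads x p ∧
    Γ.lev (v * Γ.π p) < Γ.lev v ∧ p.norm = hh Γ v ∧ Pre (lt a) p := by
  obtain ⟨x, g, h1, h2⟩ := Γ.exists_tp hv
  obtain ⟨x', p, h3, h4, h5⟩ : Dn Γ v (hh Γ v) :=
    Nat.sInf_mem (s := {n | Dn Γ v n}) ⟨_, x, g, h1, h2, rfl⟩
  obtain ⟨a, ha⟩ := exists_first (g := p) (by rintro rfl; simp at h4)
  exact ⟨a, x', p, h3, h4, h5, ha⟩

/-- One step of the descent. -/
def nu (Γ : Geo T G) (v : G) : G :=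
  if h : v = 1 then 1 else v * Γ.π (lt (exists_letter (Γ := Γ) h).choose)

theorem nu_spec {v : G} {x : T.X} (ht : Γ.Tp v x) : ∃ a p, nu Γ v = v * Γ.π (lt a) ∧
    T.Γ.Reads x p ∧ Γ.lev (v * Γ.π p) < Γ.lev v ∧ p.norm = hh Γ v ∧ Pre (lt a) p := by
  have hv := ht.ne_one
  obtain ⟨x', p, h1, h2, h3, h4⟩ := (exists_letter (Γ := Γ) hv).choose_spec
  exact ⟨_, p, dif_neg hv, all_read h1 h2 h3 ht, h2, h3, h4⟩

theorem nu_step {v : G} {x : T.X} (ht : Γ.Tp v x) : ∃ a y, nu Γ v = v * Γ.π (lt a) ∧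
    T.Γ.Rd x (lt a) y ∧ 1 ≤ hh Γ v ∧ (Γ.lev (nu Γ v) < Γ.lev v ∨
      (Γ.lev (nu Γ v) = Γ.lev v ∧ hh Γ (nu Γ v) < hh Γ v ∧ Γ.Tp (nu Γ v) y)) := by
  obtain ⟨a, p, h1, ⟨z, h2⟩, h3, h4, h5⟩ := nu_spec ht
  obtain ⟨y, h6, h7⟩ := h2.split h5
  have h8 := h5.norm_le
  have h9 := h5.norm_rest
  rw [norm_lt] at h8 h9
  refine ⟨a, y, h1, h6, by omega, ?_⟩
  have h10 := (ht.le ⟨y, h6⟩).1
  rw [h1]
  rcases h10.lt_or_eq with h11 | h11
  · exact Or.inl h11
  · refine Or.inr ⟨h11, ?_, ht.move h6 h11.ge⟩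
    have h12 := hh_le (Γ := Γ) (v := v * Γ.π (lt a)) ⟨z, h7⟩ (by
      rw [mul_assoc, ← map_mul, mul_inv_cancel_left, h11]; exact h3)
    omega

theorem word (n : ℕ) : ∀ (v : G) (x : T.X), hh Γ v = n → Γ.Tp v x → ∃ p, T.Γ.Reads x p ∧
    p.norm = hh Γ v ∧ Γ.lev (v * Γ.π p) < Γ.lev v ∧
    ∀ m, Pre m p → (nu Γ)^[m.norm] v = v * Γ.π m := by
  induction n using Nat.strong_induction_on with
  | _ n ih =>
  intro v x hn ht
  obtain ⟨a, y, h1, h2, h3, h4 | ⟨h4, h5, h6⟩⟩ := nu_step ht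
  · rw [h1] at h4
    have h5 := hh_le ⟨y, h2⟩ h4
    rw [norm_lt] at h5
    refine ⟨lt a, ⟨y, h2⟩, by rw [norm_lt]; omega, h4, fun m hm => ?_⟩
    by_cases hm' : m = lt a
    · rw [hm', norm_lt, Function.iterate_one, h1]
    · have h6 := hm.norm_lt hm'
      rw [norm_lt] at h6
      rw [FreeGroup.norm_eq_zero.1 (show m.norm = 0 by omega)]
      simp
  · obtain ⟨p, ⟨z, h7⟩, h8, h9, h10⟩ := ih _ (hn ▸ h5) (nu Γ v) y rfl h6
    have h11 : Γ.lev (v * Γ.π (lt a * p)) < Γ.lev v := by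
      rw [map_mul, ← mul_assoc, ← h1, ← h4]; exact h9
    have h12 := hh_le ⟨z, h2.trans h7⟩ h11
    have h13 := FreeGroup.norm_mul_le (lt a) p
    rw [norm_lt] at h13
    have h14 : Pre (lt a) (lt a * p) := by
      unfold Pre; rw [inv_mul_cancel_left, norm_lt]; omega
    refine ⟨lt a * p, ⟨z, h2.trans h7⟩, by omega, h11, fun m hm => ?_⟩
    by_cases hm' : m = 1
    · rw [hm']; simp
    · have h15 : 1 ≤ m.norm := Nat.pos_of_ne_zero fun h0 => hm' (FreeGroup.norm_eq_zero.1 h0)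
      have h16 : Pre (lt a) m := h14.total hm (by rw [norm_lt]; exact h15)
      have h17 := h16.cancel hm
      rw [inv_mul_cancel_left] at h17
      have h18 := h16.norm_rest
      rw [norm_lt] at h18
      rw [show m.norm = ((lt a)⁻¹ * m).norm + 1 by omega, Function.iterate_succ_apply,
        h10 _ h17, h1, mul_assoc, ← map_mul, mul_inv_cancel_left]

/-- The descent structure. -/
def theDesc (Γ : Geo T G) : Desc Γ where
  ν := nu Γ
  h := hh Γ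
  nu_one := dif_pos rfl
  h_one := hh_one
  nu_ds v := by
    by_cases hv : v = 1
    · rw [hv, nu, dif_pos rfl]; simp
    · obtain ⟨x, hx⟩ := Γ.exists_tp hv
      obtain ⟨a, -, h1, -⟩ := nu_step hx
      rw [h1]
      exact (Γ.ds_pi v _).trans (norm_lt a).le
  word v x ht := word _ v x rfl ht
  min v x g h hl := hh_le h hl
  two v x x' h h' hne := by
    obtain ⟨g, h1, -, h3, h4, -⟩ := h.common h' hne
    exact (hh_le h1 h3).trans_lt h4
  pot v hv := by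
    obtain ⟨x, hx⟩ := Γ.exists_tp hv
    obtain ⟨a, y, -, -, -, h4 | ⟨h4, h5, -⟩⟩ := nu_step hx
    · exact Or.inl h4
    · exact Or.inr ⟨h4, h5⟩

theorem first_desc {z : G} {g : FreeGroup σ} (hle : ∀ m, Pre m g → Γ.lev (z * Γ.π m) ≤ Γ.lev z)
    (hlt : ∃ m, Pre m g ∧ Γ.lev (z * Γ.π m) < Γ.lev z) :
    ∃ s, Pre s g ∧ Γ.lev (z * Γ.π s) < Γ.lev z ∧
      ∀ m, Pre m s → m ≠ s → Γ.lev (z * Γ.π m) = Γ.lev z := by
  have hex : ∃ n, ∃ m, Pre m g ∧ Γ.lev (z * Γ.π m) < Γ.lev z ∧ m.norm = n := by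
    obtain ⟨m, h1, h2⟩ := hlt
    exact ⟨_, m, h1, h2, rfl⟩
  obtain ⟨s, h1, h2, h3⟩ := Nat.find_spec hex
  refine ⟨s, h1, h2, fun m hm hne => le_antisymm (hle m (hm.trans h1)) (not_lt.1 fun h => ?_)⟩
  exact Nat.find_min hex (h3 ▸ hm.norm_lt hne) ⟨m, hm.trans h1, h, rfl⟩

/-- A geodesic first descent from a point that is not deep is the descent path. -/
theorem gd_desc {D : Desc Γ} (hD : DaP D) {z : G} {x : T.X} {s : FreeGroup σ} (hg : Γ.Gd s)
    (h : T.Γ.Reads x s) (hl : Γ.lev (z * Γ.π s) < Γ.lev z)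
    (hf : ∀ m, Pre m s → m ≠ s → Γ.lev (z * Γ.π m) = Γ.lev z) (hz : D.h z < 48 * T.ell x) :
    s.norm = D.h z ∧ (∀ m, Pre m s → D.ν^[m.norm] z = z * Γ.π m) ∧
      ∀ x', Γ.Tp z x' → T.Γ.Reads x' s := by
  obtain ⟨p, h1, h2, h3, -⟩ := D.word z x ⟨s, h, hl⟩
  have h4 := gate_ds h1 h h3 hl
  have h5 := Γ.ds_pi z p
  have h6 := Γ.W.ds_tri z (z * Γ.π p) (z * Γ.π s)
  rw [hg.ds] at h6
  exact hD z x s h hl hf (by omega)

theorem covg (hT : TwoStmt) (D : Desc Γ) : CovgP Γ := by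
  intro u g x₁ x₃ hg hl h1 h3
  obtain ⟨j, hj⟩ := h1.lev_pos
  refine hT σ T G (cay Γ.π) Set.univ Γ.lev j (Γ.lay j) u g _ x₁ x₃ ((cay_rd _).2 rfl)
    (fun m z hm hz => by rw [(cay_rd _).1 hz, hl m hm, hj]) (Γ.tp_iff.1 h1) (Γ.tp_iff.1 h3) ?_
  rintro m m' z z' x y hm hm' hz hz' hx hxy ⟨x', hx1, hx2⟩ ⟨y', hy1, hy2⟩
  rw [cay_rd] at hz hz'
  rw [← Γ.tp_iff] at hx hx2 hy2
  have e : z' = z * Γ.π (m⁻¹ * m') := by
    rw [hz, hz', mul_assoc, ← map_mul, mul_inv_cancel_left]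
  have hlev : Γ.lev z' = Γ.lev z := by rw [hz, hz', hl m' hm', hl m (hm.trans hm')]
  have hy : Γ.Tp z' y := e ▸ hx.move hxy (e ▸ hlev.ge)
  obtain ⟨p, p1, p2, p3, -⟩ := D.word z x hx
  obtain ⟨p', ⟨w, q1⟩, q2, q3, -⟩ := D.word z' y hy
  have h4 := D.two z x x' hx hx2 hx1.symm
  have h5 := D.two z' y y' hy hy2 hy1.symm
  rw [T.ell_rd hxy] at h5
  have e' : z * Γ.π (m⁻¹ * m' * p') = z' * Γ.π p' := by rw [map_mul, ← mul_assoc, ← e]
  have h6 := gate_ds p1 ⟨w, hxy.trans q1⟩ p3 (by rw [e', ← hlev]; exact q3)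
  rw [e'] at h6
  have h7 := Γ.ds_pi z p
  have h8 := Γ.ds_pi z' p'
  rw [Γ.W.ds_comm] at h8
  have h9 := Γ.W.ds_tri z (z * Γ.π p) z'
  have h10 := Γ.W.ds_tri (z * Γ.π p) (z' * Γ.π p') z'
  have h11 := (hg.seg hm hm').ds z
  rw [← e] at h11
  omega

/-- The two cells that cover a geodesic on one level, seen from their common point. -/
theorem cover (hC : CovgP Γ) {u : G} {g : FreeGroup σ} {x₁ x₃ : T.X} (hg : Γ.Gd g)
    (hl : ∀ m, Pre m g → Γ.lev (u * Γ.π m) = Γ.lev u) (h1 : Γ.Tp u x₁)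
    (h3 : Γ.Tp (u * Γ.π g) x₃) : ∃ m y₁ y₃, Pre m g ∧ T.Γ.Rd x₁ m y₁ ∧
      T.Γ.Rd y₃ (m⁻¹ * g) x₃ ∧ Γ.Tp (u * Γ.π m) y₁ ∧ Γ.Tp (u * Γ.π m) y₃ := by
  obtain ⟨m, hm, ⟨y₁, h4⟩, ⟨y₃, h5⟩⟩ := hC u g x₁ x₃ hg hl h1 h3
  have e : u * Γ.π g * Γ.π (g⁻¹ * m) = u * Γ.π m := by
    rw [mul_assoc, ← map_mul, mul_inv_cancel_left]
  refine ⟨m, y₁, y₃, hm, h4, by simpa using h5.inv, h1.move h4 (hl m hm).ge, ?_⟩
  exact e ▸ h3.move h5 (by rw [e, hl m hm, hl g (Pre.refl g)])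

theorem ca {D : Desc Γ} (hD : DaP D) (hC : CovgP Γ) : CaP Γ := by
  intro a s x hg hl hf hx
  obtain ⟨s', b, rfl, h1, h2⟩ := exists_last (g := s) (by rintro rfl; simp at hl)
  have hs : ∀ m, Pre m s' → Γ.lev (a * Γ.π m) = Γ.lev a := fun m hm =>
    hf m (hm.trans h2) (by rintro rfl; have := hm.norm_le; omega)
  have h3 := hs s' (Pre.refl _)
  obtain ⟨x₃, h4, w, h5⟩ := Γ.edge (v := a * Γ.π s') (by
    intro h0; rw [h0, Γ.lev_one] at h3; omega) b (by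
    rw [mul_assoc, ← map_mul, h3]; exact hl.le)
  obtain ⟨m, y₁, y₃, hm, h6, h7, h8, h9⟩ := cover hC (hg.pre h2).1 hs hx h4
  have h10 : T.Γ.Rd y₃ (m⁻¹ * (s' * lt b)) w := by rw [← mul_assoc]; exact h7.trans h5
  have key : T.Γ.Reads y₁ (m⁻¹ * (s' * lt b)) := by
    by_cases hy : y₁ = y₃
    · exact ⟨w, hy ▸ h10⟩
    have h11 := D.two _ y₃ y₁ h9 h8 (Ne.symm hy)
    have hm' := hm.trans h2
    refine (gd_desc hD (hg.pre hm').2 ⟨w, h10⟩ ?_ (fun n hn hne => ?_) (by omega)).2.2 y₁ h8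
    · rw [mul_assoc, ← map_mul, mul_inv_cancel_left, hs m hm]; exact hl
    · rw [mul_assoc, ← map_mul, hs m hm]
      exact hf _ (hm'.mul hn).1 (by rintro h0; exact hne (by rw [← h0]; group))
  obtain ⟨w', hw'⟩ := key
  exact ⟨w', by simpa using h6.trans hw'⟩

theorem pre_back {m n : FreeGroup σ} (h : Pre n m⁻¹) : Pre (m * n) m := by
  simpa using h.inv

theorem gc1 (hA : CaP Γ) : Gc1P Γ := by
  intro u g m i hg hu hw hm
  by_contra hc
  obtain ⟨k, -, hk⟩ := Finset.exists_max_image (Finset.range (g.norm + 1))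
    (fun k => Γ.lev (u * Γ.π (pfx g k))) ⟨0, by simp⟩
  have hmax : ∀ n, Pre n g → Γ.lev (u * Γ.π n) ≤ Γ.lev (u * Γ.π (pfx g k)) := fun n hn => by
    have := hk n.norm (Finset.mem_range.2 (Nat.lt_succ_of_le hn.norm_le))
    rwa [← hn.eq_pfx] at this
  have h0 := pre_pfx g k
  generalize pfx g k = m₀ at hmax h0
  have h1 := hmax m hm
  have e : ∀ n, u * Γ.π m₀ * Γ.π n = u * Γ.π (m₀ * n) := fun n => by rw [map_mul, mul_assoc]
  obtain ⟨B, B1, B2, B3⟩ := first_desc (Γ := Γ) (z := u * Γ.π m₀) (g := m₀⁻¹ * g)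
    (fun n hn => by rw [e]; exact hmax _ (h0.mul hn).1)
    ⟨_, Pre.refl _, by rw [e, mul_inv_cancel_left]; omega⟩
  obtain ⟨A, A1, A2, A3⟩ := first_desc (Γ := Γ) (z := u * Γ.π m₀) (g := m₀⁻¹)
    (fun n hn => by rw [e]; exact hmax _ ((pre_back hn).trans h0))
    ⟨_, Pre.refl _, by rw [e, mul_inv_cancel, map_one, mul_one]; omega⟩
  obtain ⟨x, hx⟩ := Γ.exists_tp (v := u * Γ.π m₀) (by
    intro h; rw [h, Γ.lev_one] at h1; omega)
  have rB := hA _ B x ((hg.pre h0).2.pre B1).1 B2 B3 hx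
  have rA := hA _ A x ((hg.pre h0).1.inv.pre A1).1 A2 A3 hx
  have h2 := pre_back A1
  obtain ⟨h3, h4⟩ := h0.mul B1
  have h5 := hg.seg (h2.trans h4) h3
  have h6 := h2.cancel h4
  have e1 : (m₀ * A)⁻¹ * (m₀ * B) = A⁻¹ * B := by group
  have e2 : (m₀ * A)⁻¹ * m₀ = A⁻¹ := by group
  rw [e1] at h5
  rw [e1, e2] at h6
  have h7 := gate_ds rA rB A2 B2
  have h8 := h5.ds (u * Γ.π m₀ * Γ.π A)
  rw [mul_assoc _ (Γ.π A), ← map_mul, mul_inv_cancel_left] at h8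
  have h9 := T.two_le_ell x
  have := seg_low rA rB A2 B2 (by omega) (c := 1) (btw_iff_pre.2 (by simpa using h6))
  simp at this

theorem conv (hG : Gc1P Γ) (hA : CaP Γ) : ConvP Γ := by
  intro x g₀ y g h hg he
  by_cases h1 : g = 1
  · rw [h1] at he ⊢
    exact LG.rd_one.2 ((Γ.cinj (LG.Rd.refl _ x) h).2 he)
  have hne : ∀ m, Pre m g → m ≠ 1 → Γ.π m ≠ 1 := fun m hm hm' h0 => by
    have := (hg.pre hm).1
    rw [Gen.Gd, h0, Γ.W.wl_one] at this
    exact hm' (FreeGroup.norm_eq_zero.1 this.symm)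
  have h2 : Γ.lev (1 * Γ.π g) ≤ 1 := by
    have := Γ.lev_le 1 ⟨y, h⟩
    rwa [Γ.lev_one, ← he] at this
  have h3 : ∀ m, Pre m g → m ≠ 1 → Γ.lev (Γ.π m) = 1 := fun m hm hm' => by
    have h4 := hG 1 g m 1 hg (by simp) h2 hm
    have h5 := (Γ.lev_zero _).not.2 (hne m hm hm')
    rw [one_mul] at h4; omega
  have h4 := h3 g (Pre.refl g) h1
  obtain ⟨x', h5⟩ := hA (Γ.π g) g⁻¹ y hg.inv (by simp [h4]) (fun m hm hm' => by
    rw [← map_mul, h4]
    exact h3 _ (pre_back hm) fun h0 => hm' (eq_inv_of_mul_eq_one_right h0))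
    ⟨g₀⁻¹, ⟨x, h.inv⟩, by rw [map_inv, ← he]; simp [h4]⟩
  have h6 : x' = x := (Γ.cinj h5 h.inv).2 (by rw [map_inv, map_inv, he])
  simpa [h6] using h5.inv

theorem fs (D : Desc Γ) (hC : CovgP Γ) (hG : Gc1P Γ) (hA : CaP Γ) : FsP D := by
  intro y y' x hx hh hl hd
  obtain ⟨g, hg, rfl, hn⟩ := Γ.exists_gd y y'
  have hle : ∀ m, Pre m g → Γ.lev (y * Γ.π m) ≤ Γ.lev y := fun m hm =>
    hG y g m _ hg le_rfl hl hm
  have heq : ∀ m, Pre m g → Γ.lev (y * Γ.π m) = Γ.lev y := fun m hm => by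
    by_contra hc
    obtain ⟨s, h1, h2, h3⟩ := first_desc hle ⟨m, hm, lt_of_le_of_ne (hle m hm) hc⟩
    have h4 := D.min y x s (hA y s x (hg.pre h1).1 h2 h3 hx) h2
    have h5 := h1.norm_le
    omega
  obtain ⟨j, hj⟩ := hx.lev_pos
  obtain ⟨x₃, h3⟩ := Γ.exists_tp (v := y * Γ.π g) (by
    intro h0; have := heq g (Pre.refl g); rw [h0, Γ.lev_one] at this; omega)
  obtain ⟨m, y₁, y₃, hm, h6, h7, h8, h9⟩ := cover hC hg heq hx h3
  by_cases hy : y₁ = y₃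
  · subst hy
    exact ⟨g, x₃, by simpa using h6.trans h7, rfl, h3⟩
  exfalso
  have h10 := D.two _ y₁ y₃ h8 h9 hy
  obtain ⟨p, ⟨w, p1⟩, p2, p3, -⟩ := D.word _ y₁ h8
  have h11 := D.min y x (m * p) ⟨w, h6.trans p1⟩ (by
    rw [map_mul, ← mul_assoc, ← heq m hm]; exact p3)
  have h12 := FreeGroup.norm_mul_le m p
  have h13 := hm.norm_le
  rw [T.ell_rd h6] at h10
  omega

/-- In a small configuration, `z A` is on the descent path of `z`, or its descent path starts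
towards `z`. -/
theorem tree {z : G} {y x : T.X} {A p p' : FreeGroup σ} (hA : T.Γ.Rd y A x)
    (hl : ∀ m, Pre m A → Γ.lev (z * Γ.π m) = Γ.lev z) (hp : T.Γ.Reads y p)
    (hp' : T.Γ.Reads x p') (lp : Γ.lev (z * Γ.π p) < Γ.lev z)
    (lp' : Γ.lev (z * Γ.π A * Γ.π p') < Γ.lev z)
    (hn : p.norm + A.norm + p'.norm + 2 * T.ell y < 100 * T.ell y) :
    Pre A p ∨ ∃ c, c ≠ 1 ∧ Pre c A⁻¹ ∧ Pre c p' := by
  obtain ⟨c, h1, h2, h3⟩ := median_one A p
  by_cases hc : c = A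
  · exact Or.inl (hc ▸ h2)
  obtain ⟨c', h4, h5, h6⟩ := median_one A⁻¹ p'
  by_cases hc' : c' = 1
  swap
  · exact Or.inr ⟨c', hc', h4, h5⟩
  exfalso
  subst hc'
  have h7 : Btw 1 A (A * p') := by simpa using (btw_mul A).2 h6
  obtain ⟨w, hw⟩ := hp'
  rcases h3.symm.thin (A * p') with h8 | h8
  · have h9 := norm_div_le p (A * p')
    have h10 := FreeGroup.norm_mul_le A p'
    have := seg_low hp ⟨w, hA.trans hw⟩ lp (by rw [map_mul, ← mul_assoc]; exact lp')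
      (by omega) h8
    rw [hl c h1] at this
    exact lt_irrefl _ this
  · have h9 := ((btw_one.2 h1).trans h7).2
    unfold Btw at h8 h9
    rw [norm_inv_mul_comm (A * p') c, norm_inv_mul_comm (A * p') A] at h8
    have h10 : (c⁻¹ * A).norm = 0 := by omega
    rw [FreeGroup.norm_eq_zero, inv_mul_eq_one] at h10
    exact hc h10

theorem toward {z : G} {A c : FreeGroup σ} (hc : c ≠ 1) (h : Pre c A⁻¹) :
    Γ.W.ds (z * Γ.π A * Γ.π c) z < A.norm := by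
  have h1 := h.norm_rest
  have h2 := h.norm_le
  have h3 : 1 ≤ c.norm := Nat.pos_of_ne_zero fun h0 => hc (FreeGroup.norm_eq_zero.1 h0)
  rw [FreeGroup.norm_inv_eq] at h1 h2
  have h4 := Γ.ds_pi (z * Γ.π A * Γ.π c) (c⁻¹ * A⁻¹)
  have e : z * Γ.π A * Γ.π c * Γ.π (c⁻¹ * A⁻¹) = z := by
    rw [map_mul, map_inv, map_inv]; group
  rw [e] at h4
  omega

/-- One side of a geodesic covered by two different cells. -/
theorem side (D : Desc Γ) {z : G} {y x : T.X} {A p : FreeGroup σ} (hA : T.Γ.Rd y A x)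
    (hl : ∀ m, Pre m A → Γ.lev (z * Γ.π m) = Γ.lev z) (hp : T.Γ.Reads y p)
    (lp : Γ.lev (z * Γ.π p) < Γ.lev z) (hn : p.norm < T.ell y) :
    Pre A p ∨ ∃ s, s ≤ 2 * A.norm ∧ Γ.W.ds (D.ν^[s] (z * Γ.π A)) z < A.norm := by
  have h1 := hl A (Pre.refl A)
  have ht : Γ.Tp (z * Γ.π A) x := Geo.Tp.move ⟨p, hp, lp⟩ hA h1.ge
  obtain ⟨p', q1, q2, q3, q4⟩ := D.word _ x ht
  have h2 := D.min (z * Γ.π A) x _ (LG.Reads.div hA hp) (by
    rw [mul_assoc, ← map_mul, mul_inv_cancel_left, h1]; exact lp)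
  have h3 := norm_div_le A p
  rw [h1] at q3
  by_cases hs : A.norm ≤ 40 * T.ell y
  · rcases tree hA hl hp q1 lp q3 (by omega) with h | ⟨c, c1, c2, c3⟩
    · exact Or.inl h
    · have := c2.norm_le
      rw [FreeGroup.norm_inv_eq] at this
      exact Or.inr ⟨c.norm, by omega, by rw [q4 c c3]; exact toward c1 c2⟩
  · refine Or.inr ⟨p'.norm, by omega, ?_⟩
    obtain ⟨w, hw⟩ := q1
    have h4 := gate_ds ⟨w, hA.trans hw⟩ hp (by rw [map_mul, ← mul_assoc]; exact q3) lp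
    have h5 := Γ.ds_pi z p
    rw [Γ.W.ds_comm] at h5
    have h6 := Γ.W.ds_tri (z * Γ.π (A * p')) (z * Γ.π p) z
    rw [q4 p' (Pre.refl _), mul_assoc, ← map_mul]
    omega

/-- A geodesic that descends. -/
theorem down {D : Desc Γ} (hD : DaP D) (hA : CaP Γ) {a : G} {g : FreeGroup σ} (hg : Γ.Gd g)
    (hle : ∀ m, Pre m g → Γ.lev (a * Γ.π m) ≤ Γ.lev a)
    (hlt : ∃ m, Pre m g ∧ Γ.lev (a * Γ.π m) < Γ.lev a) :
    ∃ s, s ≤ g.norm ∧ Γ.W.ds (D.ν^[s] a) (a * Γ.π g) < g.norm := by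
  obtain ⟨s, h1, h2, h3⟩ := first_desc hle hlt
  obtain ⟨x, hx⟩ := Γ.exists_tp (v := a) (by rintro rfl; simp at h2)
  have hs := (hg.pre h1).1
  have h4 := hA a s x hs h2 h3 hx
  have h5 := h1.norm_le
  have h6 := h1.norm_rest
  have h7 := Γ.ds_pi_pi a s g
  have h8 : 1 ≤ s.norm := Nat.pos_of_ne_zero fun h0 => by
    rw [FreeGroup.norm_eq_zero.1 h0] at h2; simp at h2
  by_cases hz : D.h a < 48 * T.ell x
  · refine ⟨s.norm, h5, ?_⟩
    rw [(gd_desc hD hs h4 h2 h3 hz).2.1 s (Pre.refl s)]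
    omega
  · obtain ⟨p, p1, p2, p3, p4⟩ := D.word a x hx
    have h9 := D.min a x s h4 h2
    have h10 := gate_ds p1 h4 p3 h2
    have h11 := Γ.W.ds_tri (a * Γ.π p) (a * Γ.π s) (a * Γ.π g)
    have h12 := T.two_le_ell x
    refine ⟨p.norm, by omega, ?_⟩
    rw [p4 p (Pre.refl p)]
    omega

theorem word_first (D : Desc Γ) {z : G} {x : T.X} {p : FreeGroup σ} (hx : Γ.Tp z x)
    (h : T.Γ.Reads x p) (hn : p.norm = D.h z) {m : FreeGroup σ} (hm : Pre m p) (hne : m ≠ p) :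
    Γ.lev (z * Γ.π m) = Γ.lev z := by
  refine le_antisymm (hx.le (h.pre hm)).1 (not_lt.1 fun hc => ?_)
  have h1 := D.min z x m (h.pre hm) hc
  have h2 := hm.norm_lt hne
  omega

theorem con {D : Desc Γ} (hD : DaP D) (hC : CovgP Γ) (hG : Gc1P Γ) (hA : CaP Γ) : ConP D := by
  intro a b hab
  obtain ⟨g, hg, rfl, hn⟩ := Γ.exists_gd a b
  rw [← hn]
  have hd : 1 ≤ g.norm := Nat.pos_of_ne_zero fun h0 => hab (by
    rw [FreeGroup.norm_eq_zero.1 h0]; simp)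
  by_cases heq : ∀ m, Pre m g → Γ.lev (a * Γ.π m) = Γ.lev a
  swap
  · left
    push Not at heq
    obtain ⟨m, hm, hm'⟩ := heq
    by_cases hl : Γ.lev (a * Γ.π g) ≤ Γ.lev a
    · have hle : ∀ m, Pre m g → Γ.lev (a * Γ.π m) ≤ Γ.lev a := fun m hm =>
        hG a g m _ hg le_rfl hl hm
      obtain ⟨s, h1, h2⟩ := down hD hA hg hle ⟨m, hm, lt_of_le_of_ne (hle m hm) hm'⟩
      exact ⟨s, 0, by omega, by omega, h2⟩
    · have e : a * Γ.π g * Γ.π g⁻¹ = a := by simp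
      obtain ⟨s, h1, h2⟩ := down hD hA (a := a * Γ.π g) hg.inv
        (fun m hm => hG _ g⁻¹ m _ hg.inv le_rfl (by rw [e]; omega) hm)
        ⟨_, Pre.refl _, by rw [e]; omega⟩
      rw [FreeGroup.norm_inv_eq] at h1 h2
      rw [e, Γ.W.ds_comm] at h2
      exact ⟨0, s, by omega, by omega, h2⟩
  have hb := heq g (Pre.refl g)
  have ha1 : a ≠ 1 := by
    rintro rfl
    rw [Γ.lev_one, Γ.lev_zero] at hb
    exact hab hb.symm
  obtain ⟨x₁, h1⟩ := Γ.exists_tp ha1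
  obtain ⟨x₃, h3⟩ := Γ.exists_tp (v := a * Γ.π g) (by
    intro h0; rw [h0, Γ.lev_one] at hb; exact ha1 ((Γ.lev_zero a).1 hb.symm))
  obtain ⟨m, y₁, y₃, hm, h6, h7, h8, h9⟩ := cover hC hg heq h1 h3
  by_cases hy : y₁ = y₃
  · subst hy
    have h10 : T.Γ.Rd x₁ g x₃ := by simpa using h6.trans h7
    obtain ⟨p, p1, p2, p3, p4⟩ := D.word a x₁ h1
    obtain ⟨p', q1, q2, q3, q4⟩ := D.word _ x₃ h3
    rw [hb] at q3
    have h11 : T.Γ.Reads x₁ (g * p') := by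
      obtain ⟨w, hw⟩ := q1
      exact ⟨w, h10.trans hw⟩
    have h12 : Γ.lev (a * Γ.π (g * p')) < Γ.lev a := by rw [map_mul, ← mul_assoc]; exact q3
    by_cases hbig : 10 * T.ell x₁ ≤ g.norm ∨
        (30 * T.ell x₁ ≤ D.h a ∧ 30 * T.ell x₁ ≤ D.h (a * Γ.π g))
    · refine Or.inr ⟨x₁, g, x₃, h1, h10, rfl, h3, ?_, hbig⟩
      rw [← p2, ← q2, p4 p (Pre.refl p), q4 p' (Pre.refl p'), mul_assoc, ← map_mul]
      exact gate_ds p1 h11 p3 h12
    left
    have h13 := D.min a x₁ _ h11 h12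
    have h14 := FreeGroup.norm_mul_le g p'
    have h15 := D.min (a * Γ.π g) x₃ _ (LG.Reads.div h10 p1) (by
      rw [mul_assoc, ← map_mul, mul_inv_cancel_left, hb]; exact p3)
    have h16 := norm_div_le g p
    rcases tree h10 heq p1 q1 p3 q3 (by omega) with h | ⟨c, c1, c2, c3⟩
    · refine ⟨g.norm, 0, by omega, by omega, ?_⟩
      rw [p4 g h, Function.iterate_zero_apply, Γ.W.ds_self]
      omega
    · have := c2.norm_le
      rw [FreeGroup.norm_inv_eq] at this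
      refine ⟨0, c.norm, by omega, by omega, ?_⟩
      rw [q4 c c3, Function.iterate_zero_apply, Γ.W.ds_comm]
      exact toward c1 c2
  left
  have hz := heq m hm
  obtain ⟨p, p1, p2, p3, p4⟩ := D.word _ y₁ h8
  have h10 := D.two _ y₁ y₃ h8 h9 hy
  have h11 := D.two _ y₃ y₁ h9 h8 (Ne.symm hy)
  have p5 := (hD _ y₁ p p1 p3 (fun n hn hne => word_first D h8 p1 p2 hn hne)
    (by omega)).2.2 y₃ h9
  have e : ∀ n, a * Γ.π m * Γ.π n = a * Γ.π (m * n) := fun n => by rw [map_mul, mul_assoc]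
  have eA : a * Γ.π m * Γ.π m⁻¹ = a := by simp
  have eB : a * Γ.π m * Γ.π (m⁻¹ * g) = a * Γ.π g := by rw [e, mul_inv_cancel_left]
  have hm1 := hm.norm_le
  have hm2 := hm.norm_rest
  have sA := side D h6.inv (fun n hn => by rw [e, hz]; exact heq _ ((pre_back hn).trans hm))
    p1 p3 (by omega)
  have sB := side D h7 (fun n hn => by rw [e, hz]; exact heq _ (hm.mul hn).1) p5 p3 (by omega)
  rw [eA, FreeGroup.norm_inv_eq] at sA
  rw [eB] at sB
  rcases sA with sA | ⟨s, s1, s2⟩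
  swap
  · have h12 := Γ.ds_pi_pi a m g
    have h13 := Γ.W.ds_tri (D.ν^[s] a) (a * Γ.π m) (a * Γ.π g)
    exact ⟨s, 0, by omega, by omega, by rw [Function.iterate_zero_apply]; omega⟩
  rcases sB with sB | ⟨s, s1, s2⟩
  swap
  · have h12 := Γ.ds_pi a m
    have h13 := Γ.W.ds_tri a (a * Γ.π m) (D.ν^[s] (a * Γ.π g))
    rw [Γ.W.ds_comm] at s2
    exact ⟨0, s, by omega, by omega, by rw [Function.iterate_zero_apply]; omega⟩
  have fA := p4 _ sA
  have fB := p4 _ sB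
  rw [eA, FreeGroup.norm_inv_eq] at fA
  rw [eB] at fB
  refine ⟨(m⁻¹ * g).norm, m.norm, by omega, by omega, ?_⟩
  have : D.ν^[(m⁻¹ * g).norm] a = D.ν^[m.norm] (a * Γ.π g) := by
    rw [← fB, ← Function.iterate_add_apply, add_comm, Function.iterate_add_apply, fA]
  rw [this, Γ.W.ds_self]
  omega

end DescM

open DescM

theorem desc : DescStmt := by
  intro σ _ _ T G _ Γ
  refine ⟨theDesc Γ, fun z x s h hl hf hn => ?_⟩
  obtain ⟨p, p1, p2, p3, p4⟩ := (theDesc Γ).word z x ⟨s, h, hl⟩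
  have h1 : Pre s p := pre_of_first h p1 hl p3
    (fun m hm hm' => by by_contra hne; rw [hf m hm hne] at hm'; exact lt_irrefl _ hm') (by omega)
  have h2 : s = p := h1.eq_of_norm_ge (p2 ▸ (theDesc Γ).min z x s h hl)
  subst h2
  exact ⟨p2, p4, fun x' hx' => all_read p1 p3 p2 hx'⟩

theorem gc (hT : TwoStmt) : GcStmt := by
  intro σ _ _ T G _ Γ D hD
  have h1 := covg hT D
  have h2 := ca hD h1
  exact ⟨h1, gc1 h2, h2, conv (gc1 h2) h2⟩

theorem con : ConStmt := fun _ _ _ _ _ _ _ D hD hC hG hA =>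
  ⟨DescM.con hD hC hG hA, fs D hC hG hA⟩

end Pool.Agent.MP_88ca14_an

end
end MrgPart1

-- ======== part 2: formerly Pool.Agent.MP_88ca14_an.Fam
section MrgPart2

/-!
PROJECT LRX, modules FR and FAM: sums of vector functionals of bounded rank (a finite net and
weak-star limits), and families of vectors with the tail property (heavy and light coordinates).
-/

set_option autoImplicit false
set_option maxSynthPendingDepth 3

noncomputable section

namespace Pool.Agent.MP_88ca14_an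

open Filter Topology Hb2
open scoped Classical ComplexConjugate Matrix

namespace FamM

section Forms

variable {m n : Type} [Fintype m] [Fintype n]

lemma fm_add_left (M : m → n → ℂ) (v v' : m → ℂ) (w : n → ℂ) :
    fm M (v + v') w = fm M v w + fm M v' w := by
  simp only [fm, Pi.add_apply, map_add, add_mul, Finset.sum_add_distrib]

lemma fm_add_right (M : m → n → ℂ) (v : m → ℂ) (w w' : n → ℂ) :
    fm M v (w + w') = fm M v w + fm M v w' := by
  simp only [fm, Pi.add_apply, mul_add, Finset.sum_add_distrib]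

lemma bd_entry (M : m → n → ℂ) (c : ℝ) (h : Bd M c) (i : m) (j : n) : ‖M i j‖ ≤ c := by
  have := h (Pi.single i 1) (Pi.single j 1)
  have e1 : nsq (Pi.single i 1 : m → ℂ) = 1 := by
    simp [nsq, Pi.single_apply, apply_ite norm]
  have e2 : nsq (Pi.single j 1 : n → ℂ) = 1 := by
    simp [nsq, Pi.single_apply, apply_ite norm]
  have e3 : fm M (Pi.single i 1) (Pi.single j 1) = M i j := by
    simp [fm, Pi.single_apply, apply_ite conj]
  simpa [e1, e2, e3] using this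

lemma tensor2 (B : m → m → ℂ) (M : n → n → ℂ) (c c' : ℝ) (hc : 0 ≤ c) (hc' : 0 ≤ c')
    (hB : Bd B c) (hM : Bd M c') (v u : n → m → ℂ) :
    ‖∑ x, ∑ y, fm B (v x) (u y) * M x y‖ ≤
      c * c' * (√(∑ x, nsq (v x)) * √(∑ x, nsq (u x))) := by
  set w : n → m → ℂ := fun x q => ∑ y, M x y * u y q with hw
  have h1 : ∀ x, ∑ y, fm B (v x) (u y) * M x y = fm B (v x) (w x) := by
    intro x
    simp only [fm, hw, Finset.mul_sum, Finset.sum_mul]
    rw [Finset.sum_comm]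
    refine Finset.sum_congr rfl fun p _ => ?_
    rw [Finset.sum_comm]
    exact Finset.sum_congr rfl fun q _ => Finset.sum_congr rfl fun y _ => by ring
  have h2 : ∑ x, nsq (w x) ≤ c' ^ 2 * ∑ x, nsq (u x) := by
    have : ∀ q, nsq (fun x => w x q) ≤ c' ^ 2 * nsq (fun y => u y q) := fun q =>
      nsq_mulVec M c' hM fun y => u y q
    calc ∑ x, nsq (w x) = ∑ q, nsq (fun x => w x q) := Finset.sum_comm
      _ ≤ ∑ q, c' ^ 2 * nsq (fun y => u y q) := Finset.sum_le_sum fun q _ => this q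
      _ = c' ^ 2 * ∑ x, nsq (u x) := by
        rw [← Finset.mul_sum]; congr 1; exact Finset.sum_comm
  have h3 : √(∑ x, nsq (w x)) ≤ c' * √(∑ x, nsq (u x)) := by
    rw [← Real.sqrt_sq hc', ← Real.sqrt_mul (by positivity)]
    exact Real.sqrt_le_sqrt h2
  calc ‖∑ x, ∑ y, fm B (v x) (u y) * M x y‖ = ‖∑ x, fm B (v x) (w x)‖ := by simp only [h1]
    _ ≤ ∑ x, c * (√(nsq (v x)) * √(nsq (w x))) :=
      norm_sum_le_of_le _ fun x _ => by rw [← mul_assoc]; exact hB _ _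
    _ ≤ c * (√(∑ x, nsq (v x)) * √(∑ x, nsq (w x))) := by
      rw [← Finset.mul_sum]
      exact mul_le_mul_of_nonneg_left
        (Real.sum_sqrt_mul_sqrt_le _ (fun x => nsq_nonneg _) fun x => nsq_nonneg _) hc
    _ ≤ c * (√(∑ x, nsq (v x)) * (c' * √(∑ x, nsq (u x)))) := by gcongr
    _ = _ := by ring

lemma mink {κ G : Type} (s : Finset κ) (Γ : Finset G) (f : κ → G → ℂ) :
    √(∑ g ∈ Γ, ‖∑ a ∈ s, f a g‖ ^ 2) ≤ ∑ a ∈ s, √(∑ g ∈ Γ, ‖f a g‖ ^ 2) := by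
  let F : κ → EuclideanSpace ℂ Γ := fun a => WithLp.toLp 2 fun g => f a g
  have h := norm_sum_le s F
  have e : ∀ v : G → ℂ, ‖(WithLp.toLp 2 fun g : Γ => v g : EuclideanSpace ℂ Γ)‖ =
      √(∑ g ∈ Γ, ‖v g‖ ^ 2) := fun v => by
    rw [EuclideanSpace.norm_eq, ← Finset.sum_coe_sort Γ fun g => ‖v g‖ ^ 2]
  have e2 : ∑ a ∈ s, F a = WithLp.toLp 2 fun g : Γ => ∑ a ∈ s, f a g := by
    ext g; simp [F]
  rw [e2, e fun g => ∑ a ∈ s, f a g] at h
  simpa only [F, e] using h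

end Forms

section Alg

variable {G : Type} [Group G] {A : Type} [CStarAlgebra A] [PartialOrder A] [StarOrderedRing A]

variable (A) in
/-- A constant with `mn (a) ≤ K0 ‖a‖` for one by one matrices. -/
def K0 : ℝ := ‖sing (A := A) (0 : Fin 1) 0‖

lemma K0_nonneg : 0 ≤ K0 A := norm_nonneg _

lemma mn_one (a : A) : mn (Matrix.single (0 : Fin 1) 0 a) ≤ K0 A * ‖a‖ :=
  (sing (A := A) (0 : Fin 1) 0).le_opNorm a

/-- A multiple of a complete contraction. -/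
def CCM {n : Type} [Fintype n] (θ : n → n → StrongDual ℂ A) (μ : ℝ) : Prop :=
  ∀ (k : ℕ) (a : Matrix (Fin k) (Fin k) A),
    Bd (fun (p q : Fin k × n) => θ p.2 q.2 (a p.1 q.1)) (μ * mn a)

lemma ccm_norm {n : Type} [Fintype n] {θ : n → n → StrongDual ℂ A} {μ : ℝ} (hμ : 0 ≤ μ)
    (h : CCM θ μ) (s t : n) : ‖θ s t‖ ≤ μ * K0 A := by
  refine ContinuousLinearMap.opNorm_le_bound _ (mul_nonneg hμ K0_nonneg) fun a => ?_
  have := bd_entry _ _ (h 1 (Matrix.single 0 0 a)) (0, s) (0, t)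
  simp only [Matrix.single_apply_same] at this
  rw [mul_assoc]
  exact this.trans (mul_le_mul_of_nonneg_left (mn_one a) hμ)

lemma ccm_one {n : Type} [Fintype n] {θ : n → n → StrongDual ℂ A} (h : CCF θ) : CCM θ 1 :=
  fun k a => by rw [one_mul]; exact h k a

lemma ccm_sum {n κ : Type} [Fintype n] (s : Finset κ) (θ : κ → n → n → StrongDual ℂ A)
    (μ : κ → ℝ) (h : ∀ a ∈ s, 0 ≤ μ a ∧ CCF (θ a)) :
    CCM (fun p q => ∑ a ∈ s, (μ a : ℂ) • θ a p q) (∑ a ∈ s, μ a) := by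
  intro k x v w
  have e : fm (fun p q : Fin k × n => (∑ a ∈ s, (μ a : ℂ) • θ a p.2 q.2) (x p.1 q.1)) v w =
      ∑ a ∈ s, (μ a : ℂ) * fm (fun p q : Fin k × n => θ a p.2 q.2 (x p.1 q.1)) v w := by
    simp only [fm, sum_apply, smul_apply, smul_eq_mul,
      Finset.mul_sum, Finset.sum_mul]
    rw [Finset.sum_comm (s := s)]
    refine Finset.sum_congr rfl fun p _ => ?_
    rw [Finset.sum_comm (s := s)]
    exact Finset.sum_congr rfl fun q _ => Finset.sum_congr rfl fun a _ => by ring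
  rw [e, Finset.sum_mul, Finset.sum_mul, Finset.sum_mul]
  refine norm_sum_le_of_le _ fun a ha => ?_
  rw [norm_mul, Complex.norm_real, Real.norm_of_nonneg (h a ha).1, mul_assoc, mul_assoc,
    ← mul_assoc (mn x)]
  exact mul_le_mul_of_nonneg_left ((h a ha).2 k x v w) (h a ha).1

lemma ccm_lim {n : Type} [Fintype n] (θ : ℕ → n → n → StrongDual ℂ A) (μ : ℕ → ℝ)
    (θ' : n → n → StrongDual ℂ A) (μ' : ℝ) (h : ∀ i, CCM (θ i) (μ i))
    (hθ : ∀ s t a, Tendsto (fun i => θ i s t a) UU (𝓝 (θ' s t a))) (hμ : Tendsto μ UU (𝓝 μ')) :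
    CCM θ' μ' := by
  intro k x v w
  refine le_of_tendsto_of_tendsto' (b := UU) ?_ ?_ fun i => h i k x v w
  · refine Tendsto.norm ?_
    unfold fm
    exact tendsto_finset_sum _ fun p _ => tendsto_finset_sum _ fun q _ =>
      ((hθ _ _ _).const_mul _).mul_const _
  · exact ((hμ.mul_const _).mul_const _).mul_const _

lemma ex_lim {E : Type} [NormedAddCommGroup E] [ProperSpace E] (f : ℕ → E) (B : ℝ)
    (h : ∀ i, ‖f i‖ ≤ B) : ∃ y, Tendsto f UU (𝓝 y) := by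
  obtain ⟨y, -, hy⟩ := (isCompact_closedBall (0 : E) B).ultrafilter_le_nhds
    ((Filter.hyperfilter ℕ).map f) (by
      rw [Ultrafilter.coe_map, Filter.le_principal_iff, Filter.mem_map]
      exact Filter.univ_mem' fun i => by simpa using h i)
  exact ⟨y, hy⟩

omit [PartialOrder A] [StarOrderedRing A] in
lemma ex_wlim (Φ : ℕ → StrongDual ℂ A) (B : ℝ) (h : ∀ i, ‖Φ i‖ ≤ B) :
    ∃ F : StrongDual ℂ A, ∀ a, Tendsto (fun i => Φ i a) UU (𝓝 (F a)) := by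
  choose f hf using fun a => ex_lim (fun i => Φ i a) (B * ‖a‖) fun i =>
    (Φ i).le_of_opNorm_le (h i) a
  refine ⟨ContinuousLinearMap.ofTendstoOfBoundedRange (l := UU) f Φ (tendsto_pi_nhds.2 hf)
    (isBounded_iff_forall_norm_le.2 ⟨B, ?_⟩), hf⟩
  rintro _ ⟨i, rfl⟩
  exact h i

variable {d : ℕ}

/-- The coefficient tensor `w` pairs with `e` and every complete contraction to at most `μ`. -/
def WP (e : Fin d → Bid A) {r : ℕ} (w : Fin d → Fin r → Fin r → ℂ) (μ : ℝ) : Prop :=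
  ∀ θ : Fin r → Fin r → StrongDual ℂ A, CCF θ → ‖∑ j, ∑ s, ∑ t, w j s t * e j (θ s t)‖ ≤ μ

lemma wp_ccm (e : Fin d → Bid A) {r : ℕ} (w : Fin d → Fin r → Fin r → ℂ) (hw : WP e w 1)
    (θ : Fin r → Fin r → StrongDual ℂ A) (μ : ℝ) (hμ : 0 ≤ μ) (h : CCM θ μ) :
    ‖∑ j, ∑ s, ∑ t, w j s t * e j (θ s t)‖ ≤ μ := by
  refine le_of_forall_pos_le_add fun ε hε => ?_
  have hp : 0 < μ + ε := by positivity
  have hp' : ((μ + ε : ℝ) : ℂ) ≠ 0 := Complex.ofReal_ne_zero.2 hp.ne'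
  have h1 : CCF fun s t => ((μ + ε : ℝ) : ℂ)⁻¹ • θ s t := by
    intro k x v u
    have e1 : fm (fun p q : Fin k × Fin r => (((μ + ε : ℝ) : ℂ)⁻¹ • θ p.2 q.2) (x p.1 q.1)) v u =
        ((μ + ε : ℝ) : ℂ)⁻¹ * fm (fun p q : Fin k × Fin r => θ p.2 q.2 (x p.1 q.1)) v u := by
      simp only [fm, smul_apply, smul_eq_mul, Finset.mul_sum]
      exact Finset.sum_congr rfl fun p _ => Finset.sum_congr rfl fun q _ => by ring
    rw [e1, norm_mul, norm_inv, Complex.norm_real, Real.norm_of_nonneg hp.le,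
      inv_mul_le_iff₀ hp]
    refine (h k x v u).trans ?_
    have := mn_nonneg x
    rw [← mul_assoc, ← mul_assoc]
    gcongr
    linarith
  have h2 := hw _ h1
  have e2 : ∑ j, ∑ s, ∑ t, w j s t * e j (((μ + ε : ℝ) : ℂ)⁻¹ • θ s t) =
      ((μ + ε : ℝ) : ℂ)⁻¹ * ∑ j, ∑ s, ∑ t, w j s t * e j (θ s t) := by
    simp only [map_smul, smul_eq_mul, Finset.mul_sum]
    exact Finset.sum_congr rfl fun j _ => Finset.sum_congr rfl fun s _ =>
      Finset.sum_congr rfl fun t _ => by ring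
  rw [e2, norm_mul, norm_inv, Complex.norm_real, Real.norm_of_nonneg hp.le,
    inv_mul_le_iff₀ hp, mul_one] at h2
  exact h2

lemma wp_norm (e : Fin d → Bid A) {r : ℕ} (w : Fin d → Fin r → Fin r → ℂ) (μ c : ℝ)
    (hc : 0 ≤ c) (hμ : 0 ≤ μ) (hw : WP e w μ) (hb : ∀ j s t, ‖w j s t‖ ≤ c * μ) :
    ∃ w' : Fin d → Fin r → Fin r → ℂ, (WP e w' 1 ∧ ‖w'‖ ≤ c) ∧
      ∀ j s t, w j s t = μ * w' j s t := by
  rcases hμ.eq_or_lt with rfl | hp
  · refine ⟨0, ⟨fun θ _ => by simp, by simpa using hc⟩, fun j s t => ?_⟩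
    simpa using hb j s t
  have hp' : (μ : ℂ) ≠ 0 := Complex.ofReal_ne_zero.2 hp.ne'
  refine ⟨fun j s t => (μ : ℂ)⁻¹ * w j s t, ⟨fun θ hθ => ?_, ?_⟩, fun j s t => by field_simp⟩
  · simp only [mul_assoc, ← Finset.mul_sum]
    rw [norm_mul, norm_inv, Complex.norm_real, Real.norm_of_nonneg hp.le, inv_mul_le_iff₀ hp,
      mul_one]
    exact hw θ hθ
  · refine (pi_norm_le_iff_of_nonneg hc).2 fun j => (pi_norm_le_iff_of_nonneg hc).2 fun s =>
      (pi_norm_le_iff_of_nonneg hc).2 fun t => ?_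
    rw [norm_mul, norm_inv, Complex.norm_real, Real.norm_of_nonneg hp.le, inv_mul_le_iff₀ hp,
      mul_comm]
    exact hb j s t

lemma core (e : Fin d → Bid A) {r : ℕ} {κ : Type} (s : ℕ → Finset κ)
    (w : ℕ → κ → Fin d → Fin r → Fin r → ℂ) (θ : ℕ → κ → Fin r → Fin r → StrongDual ℂ A)
    (m : ℕ → κ → ℝ) (c : ℝ) (hc : 0 ≤ c)
    (h : ∀ i a, 0 ≤ m i a ∧ CCF (θ i a) ∧ WP e (w i a) (m i a) ∧
      ∀ j p q, ‖w i a j p q‖ ≤ c * m i a) (hm : ∀ i, ∑ a ∈ s i, m i a ≤ 1) :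
    GoodL e (fun i j => ∑ a ∈ s i, ∑ p, ∑ q, w i a j p q • θ i a p q)
      (fun i => ∑ a ∈ s i, m i a) 0 := by
  intro F μ hF hμ
  choose w' hw' hww using fun i a =>
    wp_norm e (w i a) (m i a) c hc (h i a).1 (h i a).2.2.1 (h i a).2.2.2
  set X : ℝ := (r : ℝ) ^ 2 * K0 A * ∑ j, ‖e j‖ + 1 with hX
  have hK := K0_nonneg (A := A)
  have hX0 : 0 < X := by positivity
  rw [add_zero]
  refine le_of_forall_pos_le_add fun ε hε => ?_
  have htb : TotallyBounded {y : Fin d → Fin r → Fin r → ℂ | WP e y 1 ∧ ‖y‖ ≤ c} :=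
    (isCompact_closedBall (0 : Fin d → Fin r → Fin r → ℂ) c).totallyBounded.subset
      fun y hy => by simpa using hy.2
  obtain ⟨T, hT, hTf, hcov⟩ := Metric.finite_approx_of_totallyBounded htb (ε / X) (by positivity)
  have hn : ∀ i a, ∃ y ∈ hTf.toFinset, ‖w' i a - y‖ ≤ ε / X := fun i a => by
    obtain ⟨y, hy, hy'⟩ := Set.mem_iUnion₂.1 (hcov (hw' i a))
    exact ⟨y, hTf.mem_toFinset.2 hy, (mem_ball_iff_norm.1 hy').le⟩
  choose ν hν hνd using hn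
  let Θ : (Fin d → Fin r → Fin r → ℂ) → ℕ → Fin r → Fin r → StrongDual ℂ A := fun y i p q =>
    ∑ a ∈ (s i).filter (fun a => ν i a = y), (m i a : ℂ) • θ i a p q
  let M : (Fin d → Fin r → Fin r → ℂ) → ℕ → ℝ := fun y i =>
    ∑ a ∈ (s i).filter (fun a => ν i a = y), m i a
  have hΘ : ∀ y i, CCM (Θ y i) (M y i) := fun y i =>
    ccm_sum _ (θ i) (m i) fun a _ => ⟨(h i a).1, (h i a).2.1⟩
  have hM0 : ∀ y i, 0 ≤ M y i := fun y i => Finset.sum_nonneg fun a _ => (h i a).1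
  have hM1 : ∀ y i, M y i ≤ 1 := fun y i =>
    (Finset.sum_le_sum_of_subset_of_nonneg (Finset.filter_subset _ _)
      fun a _ _ => (h i a).1).trans (hm i)
  choose Θ' hΘ' using fun y p q => ex_wlim (fun i => Θ y i p q) (1 * K0 A) fun i =>
    (ccm_norm (hM0 y i) (hΘ y i) p q).trans (mul_le_mul_of_nonneg_right (hM1 y i) hK)
  choose M' hM' using fun y => ex_lim (M y) 1 fun i => by
    rw [Real.norm_of_nonneg (hM0 y i)]; exact hM1 y i
  have hμ' : ∑ y ∈ hTf.toFinset, M' y = μ := by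
    refine tendsto_nhds_unique (tendsto_finset_sum _ fun y _ => hM' y) (hμ.congr fun i => ?_)
    exact (Finset.sum_fiberwise_of_maps_to (fun a _ => hν i a) _).symm
  let F' : Fin d → StrongDual ℂ A := fun j =>
    ∑ y ∈ hTf.toFinset, ∑ p, ∑ q, y j p q • Θ' y p q
  have h1 : ‖∑ j, e j (F' j)‖ ≤ μ := by
    have e1 : ∑ j, e j (F' j) =
        ∑ y ∈ hTf.toFinset, ∑ j, ∑ p, ∑ q, y j p q * e j (Θ' y p q) := by
      simp only [F', map_sum, map_smul, smul_eq_mul]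
      exact Finset.sum_comm
    rw [e1, ← hμ']
    refine norm_sum_le_of_le _ fun y hy => wp_ccm e y (hT (hTf.mem_toFinset.1 hy)).1 _ _
      (ge_of_tendsto' (hM' y) (hM0 y)) (ccm_lim _ _ _ _ (hΘ y) (hΘ' y) (hM' y))
  have h2 : ∀ j, ‖F j - F' j‖ ≤ ε / X * ((r : ℝ) ^ 2 * K0 A) := fun j => by
    refine ContinuousLinearMap.opNorm_le_bound _ (by positivity) fun x => ?_
    have hl : Tendsto (fun i => (∑ a ∈ s i, ∑ p, ∑ q, w i a j p q • θ i a p q) x -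
        ∑ y ∈ hTf.toFinset, ∑ p, ∑ q, y j p q * Θ y i p q x) UU (𝓝 ((F j - F' j) x)) := by
      simp only [F', sub_apply]
      refine (hF j x).sub ?_
      simp only [sum_apply, smul_apply, smul_eq_mul]
      exact tendsto_finset_sum _ fun y _ => tendsto_finset_sum _ fun p _ =>
        tendsto_finset_sum _ fun q _ => (hΘ' y p q x).const_mul _
    refine le_of_tendsto' hl.norm fun i => ?_
    have e2 : ∑ y ∈ hTf.toFinset, ∑ p, ∑ q, y j p q * Θ y i p q x =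
        ∑ a ∈ s i, ∑ p, ∑ q, ν i a j p q * (m i a * θ i a p q x) := by
      rw [← Finset.sum_fiberwise_of_maps_to (fun a _ => hν i a)]
      refine Finset.sum_congr rfl fun y _ => ?_
      simp only [Θ, sum_apply, smul_apply, smul_eq_mul,
        Finset.mul_sum]
      rw [Finset.sum_comm (s := (s i).filter _)]
      refine Finset.sum_congr rfl fun p _ => ?_
      rw [Finset.sum_comm (s := (s i).filter _)]
      refine Finset.sum_congr rfl fun q _ => Finset.sum_congr rfl fun a ha => ?_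
      rw [(Finset.mem_filter.1 ha).2]
    simp only [e2, sum_apply, smul_apply, smul_eq_mul,
      ← Finset.sum_sub_distrib]
    calc _ ≤ ∑ a ∈ s i, ∑ _p : Fin r, ∑ _q : Fin r, m i a * (ε / X * (K0 A * ‖x‖)) := by
          refine norm_sum_le_of_le _ fun a _ => norm_sum_le_of_le _ fun p _ =>
            norm_sum_le_of_le _ fun q _ => ?_
          have e3 : w i a j p q * θ i a p q x - ν i a j p q * (m i a * θ i a p q x) =
              m i a * ((w' i a - ν i a) j p q * θ i a p q x) := by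
            rw [hww]; simp only [Pi.sub_apply]; ring
          have h3 : ‖(w' i a - ν i a) j p q‖ ≤ ε / X :=
            ((norm_le_pi_norm _ q).trans ((norm_le_pi_norm _ p).trans
              (norm_le_pi_norm _ j))).trans (hνd i a)
          have h4 : ‖θ i a p q x‖ ≤ K0 A * ‖x‖ := (θ i a p q).le_of_opNorm_le
            (by simpa using ccm_norm zero_le_one (ccm_one (h i a).2.1) p q) x
          rw [e3, norm_mul, norm_mul, Complex.norm_real, Real.norm_of_nonneg (h i a).1]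
          have := (h i a).1
          gcongr
      _ = (∑ a ∈ s i, m i a) * (ε / X * ((r : ℝ) ^ 2 * K0 A) * ‖x‖) := by
          rw [Finset.sum_mul]
          refine Finset.sum_congr rfl fun a _ => ?_
          simp only [Finset.sum_const, Finset.card_univ, Fintype.card_fin, nsmul_eq_mul]
          ring
      _ ≤ 1 * (ε / X * ((r : ℝ) ^ 2 * K0 A) * ‖x‖) := by gcongr; exact hm i
      _ = _ := one_mul _
  have e4 : ∑ j, e j (F j) = ∑ j, e j (F' j) + ∑ j, e j (F j - F' j) := by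
    simp [← Finset.sum_add_distrib]
  have h5 : ‖∑ j, e j (F j - F' j)‖ ≤ ε := by
    calc _ ≤ ∑ j, ‖e j‖ * (ε / X * ((r : ℝ) ^ 2 * K0 A)) :=
          norm_sum_le_of_le _ fun j _ => (e j).le_opNorm_of_le (h2 j)
      _ = ε / X * (X - 1) := by rw [← Finset.sum_mul, hX]; ring
      _ ≤ ε / X * X := by gcongr; linarith
      _ = ε := by field_simp
  rw [e4]
  exact (norm_add_le _ _).trans (add_le_add h1 h5)

end Alg

section Vecs

variable {G K : Type} [Fintype K]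

lemma cut_apply (P : Finset K) (α : Vec G K) (x : G) (p : K) :
    cut P α x p = if p ∈ P then α x p else 0 := by
  simp [cut, Finsupp.mapRange_apply]

lemma cut_supp (P : Finset K) (α : Vec G K) : (cut P α).support ⊆ α.support :=
  Finsupp.support_mapRange

lemma sum_ext {M : Type} [AddCommMonoid M] (ζ : Vec G K) {S : Finset G} (hs : ζ.support ⊆ S)
    (f : G → (K → ℂ) → M) (hf : ∀ x, f x 0 = 0) :
    ∑ x ∈ ζ.support, f x (ζ x) = ∑ x ∈ S, f x (ζ x) :=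
  Finset.sum_subset hs fun x _ hx => by rw [Finsupp.notMem_support_iff.1 hx, hf]

lemma cms_nonneg (α : Vec G K) (p : K) : 0 ≤ cms α p := Finset.sum_nonneg fun _ _ => by positivity

lemma ms_nonneg (α : Vec G K) : 0 ≤ ms α := Finset.sum_nonneg fun _ _ => nsq_nonneg _

lemma ms_cms (α : Vec G K) : ms α = ∑ p, cms α p := Finset.sum_comm

lemma cms_cut (P : Finset K) (α : Vec G K) (p : K) :
    cms (cut P α) p = if p ∈ P then cms α p else 0 := by
  unfold cms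
  rw [sum_ext (cut P α) (cut_supp P α) (fun _ v => ‖v p‖ ^ 2) fun _ => by simp]
  simp only [cut_apply]
  split_ifs <;> simp

lemma ms_cut (P : Finset K) (α : Vec G K) : ms (cut P α) = ∑ p ∈ P, cms α p := by
  simp [ms_cms, cms_cut]

lemma ms_cut_le (P : Finset K) (α : Vec G K) : ms (cut P α) ≤ ms α := by
  rw [ms_cut, ms_cms]
  exact Finset.sum_le_sum_of_subset_of_nonneg (Finset.subset_univ _) fun p _ _ => cms_nonneg α p

lemma nsq_cut (P : Finset K) (α : Vec G K) (x : G) : nsq (cut P α x) ≤ nsq (α x) :=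
  Finset.sum_le_sum fun p _ => by rw [cut_apply]; split_ifs <;> simp

lemma dg_cut (P : Finset K) {α : Vec G K} (h : DG α) : DG (cut P α) := by
  intro p q hpq
  rw [sum_ext (cut P α) (cut_supp P α) (fun _ v => conj (v p) * v q) fun _ => by simp]
  simp only [cut_apply]
  split_ifs <;> simp [h p q hpq]

lemma dg_sum {α : Vec G K} (h : DG α) (u : K → ℂ) :
    ∑ x ∈ α.support, ‖∑ p, α x p * u p‖ ^ 2 = ∑ p, cms α p * ‖u p‖ ^ 2 := by
  have e1 : ∀ z : ℂ, ((‖z‖ ^ 2 : ℝ) : ℂ) = conj z * z := fun z => by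
    rw [Complex.ofReal_pow, Complex.conj_mul']
  apply Complex.ofReal_injective
  simp only [cms, Complex.ofReal_sum, Complex.ofReal_mul, e1, map_sum, map_mul, Finset.sum_mul,
    Finset.mul_sum]
  rw [Finset.sum_comm]
  refine Finset.sum_congr rfl fun q _ => ?_
  rw [Finset.sum_comm, Finset.sum_eq_single q]
  · exact Finset.sum_congr rfl fun x _ => by ring
  · intro p _ hpq
    have : ∑ x ∈ α.support, conj (α x p) * conj (u p) * (α x q * u q) =
        (∑ x ∈ α.support, conj (α x p) * α x q) * (conj (u p) * u q) := by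
      rw [Finset.sum_mul]; exact Finset.sum_congr rfl fun x _ => by ring
    rw [this, h p q hpq, zero_mul]
  · simp

lemma band (c : K → ℝ) (hc : ∀ p, 0 ≤ c p) (δ : ℝ) (hδ : 0 ≤ δ) (hδ1 : δ ≤ 1) (N : ℕ)
    (hN : 0 < N) : ∃ t < N, ∑ p ∈ Finset.univ.filter
      (fun p => c p ≤ δ ^ t * ∑ q, c q ∧ ¬ c p ≤ δ ^ (t + 1) * ∑ q, c q), c p ≤
        (∑ q, c q) / N := by
  set m := ∑ q, c q with hm
  have hm0 : 0 ≤ m := Finset.sum_nonneg fun p _ => hc p
  let f : ℕ → ℝ := fun t => ∑ p, if c p ≤ δ ^ t * m then c p else 0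
  have h1 : ∑ t ∈ Finset.range N, (f t - f (t + 1)) ≤ ∑ _t ∈ Finset.range N, m / N := by
    rw [Finset.sum_range_sub', Finset.sum_const, Finset.card_range, nsmul_eq_mul,
      mul_div_cancel₀ _ (by positivity)]
    have h2 : f 0 ≤ m := Finset.sum_le_sum fun p _ => by split_ifs <;> simp [hc p]
    have h3 : 0 ≤ f N := Finset.sum_nonneg fun p _ => by split_ifs <;> simp [hc p]
    linarith
  obtain ⟨t, ht, ht'⟩ := Finset.exists_le_of_sum_le ⟨0, Finset.mem_range.2 hN⟩ h1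
  refine ⟨t, Finset.mem_range.1 ht, le_trans (le_of_eq ?_) ht'⟩
  rw [Finset.sum_filter, ← Finset.sum_sub_distrib]
  refine Finset.sum_congr rfl fun p _ => ?_
  have h4 : δ ^ (t + 1) * m ≤ δ ^ t * m :=
    mul_le_mul_of_nonneg_right (pow_le_pow_of_le_one hδ hδ1 (Nat.le_succ t)) hm0
  by_cases h5 : c p ≤ δ ^ (t + 1) * m
  · simp [h5, h5.trans h4]
  · simp [h5]

variable [Group G] {A : Type} [CStarAlgebra A] [PartialOrder A] [StarOrderedRing A]

lemma Q2_eq (R : Reg G A) (b : K → K → ℂ) (ζ ζ' : Vec G K) (S : Finset G) (hs : ζ.support ⊆ S)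
    (hs' : ζ'.support ⊆ S) :
    R.Q2 b ζ ζ' = ∑ x ∈ S, ∑ y ∈ S, fm b (ζ x) (ζ' y) • R.co x y := by
  unfold Reg.Q2
  rw [sum_ext ζ hs (fun x v => ∑ y ∈ ζ'.support, fm b v (ζ' y) • R.co x y) fun x => by
    simp [fm_zero_left]]
  exact Finset.sum_congr rfl fun x _ =>
    sum_ext ζ' hs' (fun y v => fm b (ζ x) v • R.co x y) fun y => by simp [fm_zero_right]

lemma Q2_le (R : Reg G A) (b : K → K → ℂ) (C : ℝ) (hC : 0 ≤ C) (hb : Bd b C) (ζ ζ' : Vec G K) :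
    ‖R.Q2 b ζ ζ'‖ ≤ C * K0 A * (√(ms ζ) * √(ms ζ')) := by
  have hK := K0_nonneg (A := A)
  refine ContinuousLinearMap.opNorm_le_bound _ (by positivity) fun a => ?_
  set S := ζ.support ∪ ζ'.support
  have h1 : Bd (fun x y : S => R.co x y a) (K0 A * ‖a‖) := by
    intro v w
    have h2 := R.mat_le 1 (Matrix.single 0 0 a) S (fun p => v p.2) fun p => w p.2
    have h3 := mn_one a
    simp only [fm, nsq, Fintype.sum_prod_type, Fin.sum_univ_one, Matrix.single_apply_same] at h2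
    refine h2.trans ?_
    unfold nsq
    gcongr
  have := tensor2 b _ C _ hC (by positivity) hb h1 (fun x => ζ x) fun x => ζ' x
  rw [← ms_eq ζ S Finset.subset_union_left, ← ms_eq ζ' S Finset.subset_union_right] at this
  rw [Q2_eq R b ζ ζ' S Finset.subset_union_left Finset.subset_union_right,
    ← Finset.sum_coe_sort S]
  simp only [← Finset.sum_coe_sort S, sum_apply,
    smul_apply, smul_eq_mul]
  refine this.trans (le_of_eq ?_)
  ring

lemma ccf_om (R : Reg G A) (S : Finset G) {n : Type} [Fintype n] (η : n → G → ℂ)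
    (h : ∀ v : n → ℂ, ∑ x ∈ S, ‖∑ s, η s x * v s‖ ^ 2 ≤ nsq v) :
    CCF fun s t => ∑ x : S, ∑ y : S, (conj (η s x) * η t y) • R.co x y := by
  intro k a v w
  have h1 := R.mat_le k a S (fun p => ∑ s, η s p.2 * v (p.1, s)) fun p => ∑ s, η s p.2 * w (p.1, s)
  have h2 : ∀ v : Fin k × n → ℂ,
      nsq (fun p : Fin k × S => ∑ s, η s p.2 * v (p.1, s)) ≤ nsq v := fun v => by
    simp only [nsq, Fintype.sum_prod_type]
    refine Finset.sum_le_sum fun p _ => ?_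
    rw [Finset.sum_coe_sort S fun x => ‖∑ s, η s x * v (p, s)‖ ^ 2]
    exact h fun s => v (p, s)
  have e : fm (fun p q : Fin k × n =>
      (∑ x : S, ∑ y : S, (conj (η p.2 x) * η q.2 y) • R.co x y) (a p.1 q.1)) v w =
      fm (fun p q : Fin k × S => R.co p.2 q.2 (a p.1 q.1))
        (fun p => ∑ s, η s p.2 * v (p.1, s)) fun p => ∑ s, η s p.2 * w (p.1, s) := by
    simp only [fm, Fintype.sum_prod_type, sum_apply,
      smul_apply, smul_eq_mul, map_sum, map_mul, Finset.mul_sum,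
      Finset.sum_mul]
    refine Finset.sum_congr rfl fun p _ => ?_
    have e1 : ∀ f : n → Fin k → n → S → S → ℂ, ∑ s, ∑ q, ∑ t, ∑ x, ∑ y, f s q t x y =
        ∑ x, ∑ q, ∑ y, ∑ t, ∑ s, f s q t x y := fun f => by
      simp only [← Fintype.sum_prod_type']
      exact Fintype.sum_equiv ⟨fun z => (z.2.2.2.1, z.2.1, z.2.2.2.2, z.2.2.1, z.1),
        fun z => (z.2.2.2.2, z.2.1, z.2.2.2.1, z.1, z.2.2.1), fun _ => rfl, fun _ => rfl⟩ _ _
        fun _ => rfl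
    rw [e1]
    refine Finset.sum_congr rfl fun x _ => Finset.sum_congr rfl fun q _ =>
      Finset.sum_congr rfl fun y _ => Finset.sum_congr rfl fun t _ =>
      Finset.sum_congr rfl fun s _ => by ring
  rw [e]
  refine h1.trans ?_
  have := mn_nonneg a
  gcongr
  exacts [h2 v, h2 w]

lemma Q_fact (R : Reg G A) (b : K → K → ℂ) (ζ : Vec G K) (S : Finset G) (hs : ζ.support ⊆ S)
    {n : Type} [Fintype n] (η : n → G → ℂ) (V : K → n → ℂ)
    (h : ∀ x p, ζ x p = ∑ s, V p s * η s x) :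
    R.Q b ζ = ∑ s, ∑ t, fm b (fun p => V p s) (fun p => V p t) •
      ∑ x : S, ∑ y : S, (conj (η s x) * η t y) • R.co x y := by
  rw [Q_eq R b ζ S hs]
  simp only [Finset.smul_sum, smul_smul]
  have e1 : ∀ f : n → n → S → S → StrongDual ℂ A, ∑ s, ∑ t, ∑ x, ∑ y, f s t x y =
      ∑ x, ∑ y, ∑ s, ∑ t, f s t x y := fun f => by
    simp only [← Fintype.sum_prod_type']
    exact Fintype.sum_equiv ⟨fun z => (z.2.2.1, z.2.2.2, z.1, z.2.1),
      fun z => (z.2.2.1, z.2.2.2, z.1, z.2.1), fun _ => rfl, fun _ => rfl⟩ _ _ fun _ => rfl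
  rw [e1]
  refine Finset.sum_congr rfl fun x _ => Finset.sum_congr rfl fun y _ => ?_
  simp only [← Finset.sum_smul]
  congr 1
  simp only [fm, h, map_sum, map_mul, Finset.sum_mul, Finset.mul_sum]
  have e2 : ∀ f : K → K → n → n → ℂ, ∑ p, ∑ q, ∑ t, ∑ s, f p q s t =
      ∑ s, ∑ t, ∑ p, ∑ q, f p q s t := fun f => by
    simp only [← Fintype.sum_prod_type']
    exact Fintype.sum_equiv ⟨fun z => (z.2.2.2, z.2.2.1, z.1, z.2.1),
      fun z => (z.2.2.1, z.2.2.2, z.2.1, z.1), fun _ => rfl, fun _ => rfl⟩ _ _ fun _ => rfl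
  rw [e2]
  exact Finset.sum_congr rfl fun s _ => Finset.sum_congr rfl fun t _ =>
    Finset.sum_congr rfl fun p _ => Finset.sum_congr rfl fun q _ => by ring

lemma heavy (R : Reg G A) {d : ℕ} (e : Fin d → Bid A) (b : Fin d → K → K → ℂ) (C : ℝ)
    (hC : 0 ≤ C) (hb : ∀ j, Bd (b j) C) (hn : NR e b) (α : Vec G K) (hα : DG α) (H : Finset K)
    (hH : ∀ p ∈ H, 0 < cms α p) (r : ℕ) (φ : K → Fin r) (hφ : Set.InjOn φ H) :
    ∃ (w : Fin d → Fin r → Fin r → ℂ) (θ : Fin r → Fin r → StrongDual ℂ A), CCF θ ∧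
      WP e w (ms (cut H α)) ∧ (∀ j s t, ‖w j s t‖ ≤ C * ms (cut H α)) ∧
      ∀ j, R.Q (b j) (cut H α) = ∑ s, ∑ t, w j s t • θ s t := by
  let V : K → Fin r → ℂ := fun p s => if p ∈ H ∧ φ p = s then (√(cms α p) : ℝ) else 0
  let η : Fin r → G → ℂ := fun s x =>
    ∑ p, α x p * if p ∈ H ∧ φ p = s then ((√(cms α p) : ℝ) : ℂ)⁻¹ else 0
  have hV : nsq (fun p : K × Fin r => V p.1 p.2) = ms (cut H α) := by
    rw [ms_cms]
    simp only [nsq, Fintype.sum_prod_type, cms_cut]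
    refine Finset.sum_congr rfl fun p _ => ?_
    rw [Finset.sum_eq_single (φ p) (fun s _ hs => by simp [V, hs.symm]) (by simp)]
    by_cases hp : p ∈ H <;> simp [V, hp, cms_nonneg]
  have hVs : ∀ s, nsq (fun p => V p s) ≤ ms (cut H α) := fun s => by
    rw [← hV]
    simp only [nsq, Fintype.sum_prod_type]
    exact Finset.sum_le_sum fun p _ =>
      Finset.single_le_sum (f := fun s => ‖V p s‖ ^ 2) (fun _ _ => by positivity)
        (Finset.mem_univ s)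
  refine ⟨fun j s t => fm (b j) (fun p => V p s) (fun p => V p t), _,
    ccf_om R α.support η fun v => ?_, fun θ hθ => ?_, fun j s t => ?_,
    fun j => Q_fact R (b j) _ _ (cut_supp H α) η V fun x p => ?_⟩
  · have e1 : ∀ x, ∑ s, η s x * v s =
        ∑ p, α x p * if p ∈ H then ((√(cms α p) : ℝ) : ℂ)⁻¹ * v (φ p) else 0 := fun x => by
      simp only [η, Finset.sum_mul]
      rw [Finset.sum_comm]
      refine Finset.sum_congr rfl fun p _ => ?_
      rw [Finset.sum_eq_single (φ p) (fun s _ hs => by simp [hs.symm]) (by simp)]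
      by_cases hp : p ∈ H <;> simp [hp, mul_assoc]
    simp only [e1]
    rw [dg_sum hα]
    calc _ = ∑ p ∈ H, ‖v (φ p)‖ ^ 2 := by
          rw [← Finset.sum_subset (Finset.subset_univ H) fun p _ hp => by simp [hp]]
          refine Finset.sum_congr rfl fun p hp => ?_
          have := hH p hp
          rw [if_pos hp, norm_mul, norm_inv, Complex.norm_real, Real.norm_of_nonneg
            (Real.sqrt_nonneg _), mul_pow, inv_pow, Real.sq_sqrt this.le]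
          field_simp
      _ = ∑ s ∈ H.image φ, ‖v s‖ ^ 2 := (Finset.sum_image (f := fun s => ‖v s‖ ^ 2) hφ).symm
      _ ≤ nsq v := Finset.sum_le_sum_of_subset_of_nonneg (Finset.subset_univ _)
          fun _ _ _ => by positivity
  · rw [← hV]
    refine le_trans (le_of_eq ?_) (hn (Fin r) θ hθ fun p => V p.1 p.2)
    congr 1
    refine Finset.sum_congr rfl fun j _ => ?_
    simp only [fm, Fintype.sum_prod_type, Finset.sum_mul]
    rw [sum4]
    exact Finset.sum_congr rfl fun p _ => Finset.sum_congr rfl fun s _ =>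
      Finset.sum_congr rfl fun q _ => Finset.sum_congr rfl fun t _ => by ring
  · refine (hb j _ _).trans ?_
    rw [mul_assoc, ← Real.mul_self_sqrt (ms_nonneg (cut H α))]
    gcongr
    exacts [hVs s, hVs t]
  · rw [cut_apply, Finset.sum_eq_single (φ p) (fun s _ hs => by simp [V, hs.symm]) (by simp)]
    by_cases hp : p ∈ H
    · have h0 : ((√(cms α p) : ℝ) : ℂ) ≠ 0 :=
        Complex.ofReal_ne_zero.2 (Real.sqrt_pos.2 (hH p hp)).ne'
      simp only [V, η, hp, true_and, if_true]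
      rw [Finset.sum_eq_single p (fun q _ hq => ?_) (by simp)]
      · simp only [hp, true_and, if_true]; field_simp
      · rw [if_neg fun hh => hq (hφ hh.1 hp hh.2), mul_zero]
    · simp [V, hp]

lemma light (hHs : HsStmt) (W : WG G) (R : Reg G A) (b : K → K → ℂ) (C : ℝ) (hC : 0 ≤ C)
    (hb : Bd b C) {K' : Type} [Fintype K'] (ξ : Vec G K') (l : Vec G K) (hl : DG l)
    (hs : l.support ⊆ ξ.support) (hx : ∀ x, nsq (l x) ≤ nsq (ξ x)) (τ M ρ κ₀ : ℝ) (hτ : 0 ≤ τ)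
    (hρ : 0 ≤ ρ) (hκ : 0 ≤ κ₀) (hM : ms l ≤ M) (hc : ∀ p, cms l p ≤ τ ^ 2 * M) (L : ℕ)
    (hT : TP W ξ L κ₀ ρ) (Γ : Finset G) (hΓ : ∀ g ∈ Γ, L ≤ W.wl g) :
    √(∑ g ∈ Γ, ‖R.Q b l (R.u g)‖ ^ 2) ≤ (C + 1) * √κ₀ * (τ * M + ρ) := by
  have hM0 : 0 ≤ M := (ms_nonneg l).trans hM
  have hp : 0 < C + 1 := by positivity
  have hp' : ((C + 1 : ℝ) : ℂ) ≠ 0 := Complex.ofReal_ne_zero.2 hp.ne'
  let kk : G → G → ℂ := fun x y => ((C + 1 : ℝ) : ℂ)⁻¹ * fm b (l x) (l y)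
  have hn : ∀ x y, ‖kk x y‖ = (C + 1)⁻¹ * ‖fm b (l x) (l y)‖ := fun x y => by
    simp only [kk]
    rw [norm_mul, norm_inv, Complex.norm_real, Real.norm_of_nonneg hp.le]
  have h1 := hT kk (fun x y => by
    rw [hn, inv_mul_le_iff₀ hp, ← mul_assoc]
    refine (hb _ _).trans ?_
    gcongr
    exacts [by linarith, hx x, hx y]) Γ hΓ
  have h2 : ∀ g, R.Q b l (R.u g) = ((C + 1 : ℝ) : ℂ) * ∑ x ∈ ξ.support, kk x (x * g) := by
    intro g
    rw [Reg.Q, Q2_eq R b l l _ hs hs, Finset.mul_sum]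
    simp only [sum_apply, smul_apply, smul_eq_mul, R.co_u, mul_ite, mul_one, mul_zero,
      Finset.sum_ite_eq', kk]
    refine Finset.sum_congr rfl fun x _ => ?_
    rw [mul_inv_cancel_left₀ hp']
    split_ifs with h
    · rfl
    · rw [Finsupp.notMem_support_iff.1 fun h' => h (hs h'), fm_zero_right]
  have h3 : ∑ x ∈ ξ.support, ∑ y ∈ ξ.support, ‖kk x y‖ ^ 2 ≤ (τ * M) ^ 2 := by
    have h4 := hHs G K b C (τ ^ 2 * M) l hC (by positivity) hb hl hc
    rw [sum_ext l hs (fun x v => ∑ y ∈ l.support, ‖fm b v (l y)‖ ^ 2) fun x => by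
      simp [fm_zero_left]] at h4
    have h5 : ∀ x, ∑ y ∈ l.support, ‖fm b (l x) (l y)‖ ^ 2 =
        ∑ y ∈ ξ.support, ‖fm b (l x) (l y)‖ ^ 2 := fun x =>
      sum_ext l hs (fun y v => ‖fm b (l x) v‖ ^ 2) fun y => by simp [fm_zero_right]
    simp only [h5] at h4
    simp only [hn, mul_pow, ← Finset.mul_sum]
    rw [inv_pow, inv_mul_le_iff₀ (by positivity)]
    refine h4.trans ?_
    calc C ^ 2 * (τ ^ 2 * M) * ms l ≤ (C + 1) ^ 2 * (τ ^ 2 * M) * M := by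
          have := ms_nonneg l
          gcongr; linarith
      _ = _ := by ring
  rw [Real.sqrt_le_left (by positivity)]
  simp only [h2, norm_mul, mul_pow, ← Finset.mul_sum, Complex.norm_real,
    Real.norm_of_nonneg hp.le, Real.sq_sqrt hκ]
  rw [mul_assoc]
  refine mul_le_mul_of_nonneg_left (h1.trans (mul_le_mul_of_nonneg_left ?_ hκ)) (by positivity)
  nlinarith [mul_nonneg (mul_nonneg hτ hM0) hρ]

/-- The decomposition of one vector functional. -/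
def Dec (W : WG G) (R : Reg G A) {d : ℕ} (e : Fin d → Bid A) (b : Fin d → K → K → ℂ) (C : ℝ)
    (ξ : Vec G K) (τ : ℝ) (r : ℕ) (w : Fin d → Fin r → Fin r → ℂ)
    (θ : Fin r → Fin r → StrongDual ℂ A) (mH mL : ℝ) (Φ Ψ : Fin d → StrongDual ℂ A) : Prop :=
  (0 ≤ mH ∧ CCF θ ∧ WP e w mH ∧ ∀ j s t, ‖w j s t‖ ≤ C * mH) ∧ 0 ≤ mL ∧ mH + mL ≤ ms ξ ∧
  (∀ j, R.Q (b j) ξ = ∑ s, ∑ t, w j s t • θ s t + Φ j + Ψ j) ∧
  (∀ j, ‖∑ s, ∑ t, w j s t • θ s t‖ ≤ C * K0 A * ms ξ ∧ ‖Φ j‖ ≤ C * K0 A * ms ξ ∧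
    ‖Ψ j‖ ≤ τ * (2 * C + 2 * C * K0 A) * ms ξ) ∧ ‖∑ j, e j (Φ j)‖ ≤ mL ∧
  ∀ L κ₀ ρ, 0 ≤ κ₀ → 0 ≤ ρ → TP W ξ L κ₀ ρ → ∀ j, ∀ Γ : Finset G, (∀ g ∈ Γ, L ≤ W.wl g) →
    √(∑ g ∈ Γ, ‖Φ j (R.u g)‖ ^ 2) ≤ (C + 1) * √κ₀ * (τ * ms ξ + ρ)

lemma dec (hCo : ComprStmt) (hD : DiagzStmt) (hCr : CrossStmt) (hN : NrqStmt) (hHs : HsStmt)
    (W : WG G) (R : Reg G A) {d : ℕ} (e : Fin d → Bid A) {k : ℕ}
    (b : Fin d → Fin k → Fin k → ℂ) (C : ℝ) (hC : 0 ≤ C) (hb : ∀ j, Bd (b j) C) (hn : NR e b)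
    (ξ : Vec G (Fin k)) (τ : ℝ) (hτ : 0 < τ) (hτ1 : τ ≤ 1) (N : ℕ) (hN0 : 0 < N)
    (hNτ : 1 ≤ τ ^ 2 * N) (r : ℕ) (hr : 1 ≤ (τ ^ 2) ^ N * r) :
    ∃ w θ mH mL Φ Ψ, Dec W R e b C ξ τ r w θ mH mL Φ Ψ := by
  obtain ⟨J, α, hJ, hξ, hα⟩ := hD G k ξ
  obtain ⟨c1, c2, c3⟩ := hCo G A R _ _ J fun v => (hJ v).le
  set b' : Fin d → Fin k → Fin k → ℂ := fun j => Jᴴ * Matrix.of (b j) * J with hb'
  have hn' : NR e b' := c1 d e b hn
  have hbd : ∀ j, Bd (b' j) C := fun j => c2 _ C hC (hb j)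
  have hx : ∀ x, nsq (ξ x) = nsq (α x) := fun x => by rw [hξ, hJ]
  have hs : α.support ⊆ ξ.support := fun x h => by
    rw [Finsupp.mem_support_iff] at h ⊢
    exact fun h0 => h (eq_zero_of_nsq _ (by rw [← hx, h0, nsq_zero]))
  have hm : ms α = ms ξ := by
    rw [ms_eq α _ hs, ms_eq ξ _ subset_rfl]; simp only [hx]
  have hm0 := ms_nonneg ξ
  have hK := K0_nonneg (A := A)
  have hδ1 : τ ^ 2 ≤ 1 := pow_le_one₀ hτ.le hτ1
  obtain ⟨t, ht, hband⟩ := band (cms α) (cms_nonneg α) (τ ^ 2) (by positivity) hδ1 N hN0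
  rw [← ms_cms, hm] at hband
  set M := ms ξ with hM
  set δ := τ ^ 2 with hδ
  have hδ0 : 0 < δ := by positivity
  set Hh := Finset.univ.filter fun p => ¬ cms α p ≤ δ ^ t * M with hHh
  set Ll := Finset.univ.filter fun p => cms α p ≤ δ ^ (t + 1) * M with hLl
  set Mm := Finset.univ.filter fun p => cms α p ≤ δ ^ t * M ∧ ¬ cms α p ≤ δ ^ (t + 1) * M
    with hMm
  have h4 : δ ^ (t + 1) * M ≤ δ ^ t * M :=
    mul_le_mul_of_nonneg_right (pow_le_pow_of_le_one hδ0.le hδ1 (Nat.le_succ t)) hm0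
  have hHM : ms (cut Hh α) ≤ M := hm ▸ ms_cut_le _ _
  have hLM : ms (cut Ll α) ≤ M := hm ▸ ms_cut_le _ _
  have hcard : (Hh.card : ℝ) * δ ^ t ≤ 1 := by
    rcases Hh.eq_empty_or_nonempty with h | ⟨p, hp⟩
    · simp [h]
    have h5 : (Hh.card : ℝ) * (δ ^ t * M) ≤ M := by
      rw [← nsmul_eq_mul]
      refine (Finset.card_nsmul_le_sum _ (cms α) _ fun q hq => ?_).trans (ms_cut Hh α ▸ hHM)
      exact (not_le.1 (Finset.mem_filter.1 hq).2).le
    have h6 : 0 < M := by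
      have h7 : cms α p ≤ M := by
        rw [← hm, ms_cms]
        exact Finset.single_le_sum (fun q _ => cms_nonneg α q) (Finset.mem_univ p)
      have h8 := not_le.1 (Finset.mem_filter.1 hp).2
      exact lt_of_le_of_lt (by positivity) (h8.trans_le h7)
    rw [← mul_assoc] at h5
    exact (mul_le_iff_le_one_left h6).1 h5
  have hcr : Hh.card ≤ r := by
    have h5 : δ ^ N ≤ δ ^ t := pow_le_pow_of_le_one hδ0.le hδ1 ht.le
    have h6 : (Hh.card : ℝ) * δ ^ t ≤ r * δ ^ t := by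
      refine hcard.trans (hr.trans ?_)
      rw [mul_comm]; gcongr
    exact_mod_cast le_of_mul_le_mul_right h6 (by positivity)
  have hr0 : 0 < r := Nat.pos_of_ne_zero fun h => by rw [h] at hr; norm_num at hr
  obtain ⟨φ, hφ⟩ : ∃ φ : Fin k → Fin r, Set.InjOn φ Hh := by
    obtain ⟨f⟩ := Function.Embedding.nonempty_of_card_le (α := Hh) (β := Fin r) (by simpa using hcr)
    refine ⟨fun p => if h : p ∈ Hh then f ⟨p, h⟩ else ⟨0, hr0⟩, fun p hp q hq hpq => ?_⟩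
    simp only [dif_pos (Finset.mem_coe.1 hp), dif_pos (Finset.mem_coe.1 hq)] at hpq
    exact congrArg Subtype.val (f.injective hpq)
  obtain ⟨w, θ, h1, h2, h3, hw⟩ := heavy R e b' C hC hbd hn' α hα Hh (fun p hp =>
    lt_of_le_of_lt (by positivity) (not_le.1 (Finset.mem_filter.1 hp).2)) r φ hφ
  have hQ : ∀ j (ζ : Vec G (Fin k)), ms ζ ≤ M → ‖R.Q (b' j) ζ‖ ≤ C * K0 A * M := fun j ζ h => by
    refine (Q2_le R _ C hC (hbd j) ζ ζ).trans ?_
    rw [Real.mul_self_sqrt (ms_nonneg ζ)]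
    gcongr
  have hLc : ∀ p ∈ Ll, cms α p ≤ δ ^ (t + 1) * M := fun p hp => (Finset.mem_filter.1 hp).2
  refine ⟨w, θ, ms (cut Hh α), ms (cut Ll α), fun j => R.Q (b' j) (cut Ll α), fun j =>
    R.Q2 (b' j) (cut Hh α) (cut Ll α) + R.Q2 (b' j) (cut Ll α) (cut Hh α) +
      (R.Q2 (b' j) (cut Mm α) α + R.Q2 (b' j) (cut Mmᶜ α) (cut Mm α)),
    ⟨ms_nonneg _, h1, h2, h3⟩, ms_nonneg _, ?_, fun j => ?_, fun j => ⟨?_, hQ j _ hLM, ?_⟩,
    hN G A R d e _ b' _ hn', fun L κ₀ ρ hκ hρ hT j Γ hΓ => ?_⟩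
  · rw [ms_cut, ms_cut, ← Finset.sum_union, ← ms_cut]
    · exact (ms_cut_le _ _).trans hm.le
    · exact Finset.disjoint_filter.2 fun p _ h h' => h (h'.trans h4)
  · have e1 : ∀ x, α x = cut Hh α x + cut Ll α x + cut Mm α x := fun x => by
      funext p
      simp only [Pi.add_apply, cut_apply, hHh, hLl, hMm, Finset.mem_filter, Finset.mem_univ,
        true_and]
      by_cases h5 : cms α p ≤ δ ^ (t + 1) * M
      · simp [h5, h5.trans h4]
      · by_cases h6 : cms α p ≤ δ ^ t * M <;> simp [h5, h6]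
    have e2 : ∀ x, cut Mmᶜ α x = cut Hh α x + cut Ll α x := fun x => by
      funext p
      have := congrFun (e1 x) p
      simp only [Pi.add_apply, cut_apply, Finset.mem_compl] at this ⊢
      by_cases h5 : p ∈ Mm
      · simp only [h5, if_true, not_true, if_false] at this ⊢
        linear_combination this
      · simp only [h5, if_false, not_false_iff, if_true] at this ⊢
        linear_combination this
    rw [c3 (b j) ξ α hξ, ← hw j]
    have hc := fun P => cut_supp P α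
    simp only [Reg.Q]
    rw [Q2_eq R _ α α _ subset_rfl subset_rfl, Q2_eq R _ _ _ _ (hc Hh) (hc Hh),
      Q2_eq R _ _ _ _ (hc Ll) (hc Ll), Q2_eq R _ _ _ _ (hc Hh) (hc Ll),
      Q2_eq R _ _ _ _ (hc Ll) (hc Hh), Q2_eq R _ _ α _ (hc Mm) subset_rfl,
      Q2_eq R _ _ _ _ (hc Mmᶜ) (hc Mm)]
    simp only [← Finset.sum_add_distrib, ← add_smul]
    refine Finset.sum_congr rfl fun x _ => Finset.sum_congr rfl fun y _ => ?_
    congr 1
    have q1 := e1 x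
    have q2 := e1 y
    rw [e2 x]
    generalize cut Hh α x = x1, cut Ll α x = x2, cut Mm α x = x3 at q1 ⊢
    generalize cut Hh α y = y1, cut Ll α y = y2, cut Mm α y = y3 at q2 ⊢
    simp only [q1, q2, fm_add_left, fm_add_right]
    ring
  · rw [← hw j]; exact hQ j _ hHM
  · obtain ⟨k1, k2⟩ := hCr G A R _ (b' j) C (δ ^ (t + 1) * M) α Hh Ll hC (hbd j) hα hLc
    have k3 : C * √(Hh.card * ms α) * √(δ ^ (t + 1) * M) ≤ τ * C * M := by
      rw [mul_assoc, ← Real.sqrt_mul (mul_nonneg (by positivity) (ms_nonneg α)), hm,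
        mul_comm τ, mul_assoc C]
      refine mul_le_mul_of_nonneg_left (Real.sqrt_le_iff.2 ⟨by positivity, ?_⟩) hC
      calc Hh.card * M * (δ ^ (t + 1) * M) = (Hh.card * δ ^ t) * (τ * M) ^ 2 := by
            rw [mul_pow, ← hδ]; ring
        _ ≤ 1 * (τ * M) ^ 2 := by gcongr
        _ = _ := one_mul _
    have k4 : ms (cut Mm α) ≤ τ ^ 2 * M := by
      rw [ms_cut]
      refine hband.trans ?_
      rw [div_le_iff₀ (by positivity)]
      nlinarith
    have k5 : ∀ z, 0 ≤ z → z ≤ M → √z * √(ms (cut Mm α)) ≤ τ * M := fun z h0 hz => by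
      rw [← Real.sqrt_mul h0]
      refine Real.sqrt_le_iff.2 ⟨by positivity, ?_⟩
      calc z * ms (cut Mm α) ≤ M * (τ ^ 2 * M) := mul_le_mul hz k4 (ms_nonneg _) hm0
        _ = _ := by ring
    have k6 := (Q2_le R _ C hC (hbd j) (cut Mm α) α).trans (mul_le_mul_of_nonneg_left
      ((mul_comm _ _).trans_le (k5 _ (ms_nonneg α) hm.le)) (by positivity))
    have k7 := (Q2_le R _ C hC (hbd j) (cut Mmᶜ α) (cut Mm α)).trans (mul_le_mul_of_nonneg_left
      (k5 _ (ms_nonneg _) (hm ▸ ms_cut_le _ _)) (by positivity))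
    refine (norm_add_le_of_le (norm_add_le_of_le (k1.trans k3) (k2.trans k3))
      (norm_add_le_of_le k6 k7)).trans (le_of_eq ?_)
    ring
  · refine light hHs W R _ C hC (hbd j) ξ _ (dg_cut _ hα) ((cut_supp _ _).trans hs)
      (fun x => (nsq_cut _ _ x).trans (hx x).ge) τ M ρ κ₀ hτ.le hρ hκ hLM (fun p => ?_) L hT Γ hΓ
    rw [cms_cut]
    split_ifs with hp
    · refine (hLc p hp).trans (mul_le_mul_of_nonneg_right ?_ hm0)
      exact pow_le_of_le_one hδ0.le hδ1 (Nat.succ_ne_zero t)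
    · positivity

end Vecs

lemma goodL_of {A : Type} [CStarAlgebra A] [PartialOrder A] [StarOrderedRing A] {d : ℕ}
    (e : Fin d → Bid A) (Φ : ℕ → Fin d → StrongDual ℂ A) (m : ℕ → ℝ) (err X : ℝ) (hX : 0 ≤ X)
    (h : ∀ τ : ℝ, 0 < τ → τ ≤ 1 → GoodL e Φ m (err + τ * X)) : GoodL e Φ m err := by
  intro F μ hF hμ
  refine le_of_forall_pos_le_add fun ε hε => ?_
  have h1 := h (min 1 (ε / (X + 1))) (by positivity) (min_le_left _ _) F μ hF hμ
  have h2 : min 1 (ε / (X + 1)) * X ≤ ε := by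
    calc _ ≤ ε / (X + 1) * (X + 1) := by gcongr; exacts [min_le_right _ _, by linarith]
      _ = ε := by field_simp
  linarith

end FamM

open FamM

theorem fr : FrStmt := by
  intro G _ A _ _ _ R d e r κ s b ξ c hc h hm
  have key : ∀ i a, ∃ (w : Fin d → Fin r → Fin r → ℂ) (θ : Fin r → Fin r → StrongDual ℂ A)
      (m : ℝ), (0 ≤ m ∧ CCF θ ∧ WP e w m ∧ ∀ j p q, ‖w j p q‖ ≤ c * m) ∧ (a ∈ s i →
        m = ms (ξ i a) ∧ ∀ j, R.Q (b i a j) (ξ i a) = ∑ p, ∑ q, w j p q • θ p q) := by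
    intro i a
    by_cases ha : a ∈ s i
    · obtain ⟨h1, h2, h3⟩ := h i a ha
      have e1 : cut (Finset.univ.filter fun p => 0 < cms (ξ i a) p) (ξ i a) = ξ i a := by
        ext x p
        rw [cut_apply]
        split_ifs with hp
        · rfl
        · by_contra h0
          refine hp (Finset.mem_filter.2 ⟨Finset.mem_univ _, Finset.sum_pos' (fun _ _ => by
            positivity) ⟨x, Finsupp.mem_support_iff.2 fun hx => h0 (by simp [hx]), ?_⟩⟩)
          have := norm_pos_iff.2 (Ne.symm h0)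
          positivity
      obtain ⟨w, θ, k1, k2, k3, k4⟩ := heavy R e (b i a) c hc h1 h2 _ h3 _
        (fun p hp => (Finset.mem_filter.1 hp).2) r id (Set.injOn_id _)
      rw [e1] at k2 k3 k4
      exact ⟨w, θ, _, ⟨ms_nonneg _, k1, k2, k3⟩, fun _ => ⟨rfl, k4⟩⟩
    · refine ⟨0, 0, 0, ⟨le_rfl, fun k x v w => ?_, fun θ _ => by simp, by simp⟩,
        fun h => absurd h ha⟩
      have := mn_nonneg x
      simp only [fm, Pi.zero_apply, zero_apply, mul_zero, zero_mul, Finset.sum_const_zero,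
        norm_zero]
      positivity
  choose w θ m h1 h2 using key
  have e1 : (fun i => ∑ a ∈ s i, ms (ξ i a)) = fun i => ∑ a ∈ s i, m i a :=
    funext fun i => Finset.sum_congr rfl fun a ha => (h2 i a ha).1.symm
  have e2 : (fun i j => ∑ a ∈ s i, R.Q (b i a j) (ξ i a)) =
      fun i j => ∑ a ∈ s i, ∑ p, ∑ q, w i a j p q • θ i a p q :=
    funext fun i => funext fun j => Finset.sum_congr rfl fun a ha => (h2 i a ha).2 j
  rw [e1, e2]
  exact core e s w θ m c hc h1 fun i => (congrFun e1 i).ge.trans (hm i)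

theorem fam (hCo : ComprStmt) (hD : DiagzStmt) (hCr : CrossStmt) (hN : NrqStmt) (hHs : HsStmt)
    (hT : TailStmt) (hCb : CombStmt) : FamStmt := by
  intro G _ W A _ _ _ R d e S κ s ξ ρ L κ₀ ρ₀ hκ hρ hm hρ₀ hTP
  have hC := S.C_nonneg
  have hK := K0_nonneg (A := A)
  have hρ0 : 0 ≤ ρ₀ := (Finset.sum_nonneg fun a _ => hρ 0 a).trans (hρ₀ 0)
  refine goodL_of e _ _ _ ((2 * (S.C + 1) * √κ₀ + (2 * S.C + 2 * S.C * K0 A)) * ∑ j, ‖e j‖)
    (by positivity) fun τ hτ hτ1 => ?_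
  obtain ⟨N, hN1⟩ := exists_nat_ge (τ ^ 2)⁻¹
  have hNτ : 1 ≤ τ ^ 2 * N := by rwa [inv_le_iff_one_le_mul₀' (by positivity)] at hN1
  have hN0 : 0 < N := Nat.pos_of_ne_zero fun h => by rw [h] at hNτ; norm_num at hNτ
  obtain ⟨r, hr1⟩ := exists_nat_ge ((τ ^ 2) ^ N)⁻¹
  have hr : 1 ≤ (τ ^ 2) ^ N * r := by rwa [inv_le_iff_one_le_mul₀' (by positivity)] at hr1
  choose w θ mH mL Φ Ψ h using fun i a => dec hCo hD hCr hN hHs W R e (S.b i) S.C hC (S.bd i)
    (S.nr i) (ξ i a) τ hτ hτ1 N hN0 hNτ r hr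
  choose h1 h2 h3 h4 h5 h6 h7 using h
  have hs : ∀ (f : ℕ → κ → ℝ) (c : ℝ), 0 ≤ c → (∀ i a, f i a ≤ c * ms (ξ i a)) →
      ∀ i, ∑ a ∈ s i, f i a ≤ c := fun f c hc hf i => by
    refine (Finset.sum_le_sum fun a _ => hf i a).trans ?_
    rw [← Finset.mul_sum]
    exact mul_le_of_le_one_right hc (hm i)
  have hH : ∀ i, ∑ a ∈ s i, mH i a ≤ 1 :=
    hs _ 1 zero_le_one fun i a => by linarith [h2 i a, h3 i a]
  have hL : ∀ i, ∑ a ∈ s i, mL i a ≤ 1 :=
    hs _ 1 zero_le_one fun i a => by linarith [(h1 i a).1, h3 i a]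
  have hB : 0 ≤ S.C * K0 A := by positivity
  have g1 := core e s w θ mH S.C hC h1 hH
  have g2 := hT G W A R d e (fun i j => ∑ a ∈ s i, Φ i a j) (fun i => ∑ a ∈ s i, mL i a) L
    ((S.C + 1) * √κ₀ * (τ + ρ₀)) (by positivity) (fun i => by
      simp only [map_sum]
      rw [Finset.sum_comm]
      exact norm_sum_le_of_le _ fun a _ => h6 i a) (hTP.mono fun i hi j Γ hΓ => by
      rw [← Real.sqrt_le_left (by positivity)]
      simp only [sum_apply]
      refine (mink (s i) Γ fun a g => Φ i a j (R.u g)).trans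
        ((Finset.sum_le_sum fun a ha => h7 i a L κ₀ _ hκ (hρ i a) (hi a ha) j Γ hΓ).trans ?_)
      rw [← Finset.mul_sum, Finset.sum_add_distrib]
      gcongr
      exacts [hs (fun i a => τ * ms (ξ i a)) τ hτ.le (fun _ _ => le_rfl) i, hρ₀ i])
  have g3 := hCb G A R d e (fun i j => ∑ a ∈ s i, R.Q (S.b i j) (ξ i a)) _ _
    (fun i j => ∑ a ∈ s i, Ψ i a j) (fun i => ∑ a ∈ s i, ms (ξ i a)) _ _ _ _
    (τ * (2 * S.C + 2 * S.C * K0 A)) (S.C * K0 A + 1) (fun i j => ⟨?_, ?_⟩) (fun i => ⟨?_, ?_⟩)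
    (Eventually.of_forall fun i j => ?_) (fun j g => ?_) (Eventually.of_forall fun i => ?_) g1 g2
  · convert g3 using 1
    ring
  · exact (norm_sum_le _ _).trans ((hs _ _ hB (fun i a => (h5 i a j).1) i).trans (by linarith))
  · exact (norm_sum_le _ _).trans ((hs _ _ hB (fun i a => (h5 i a j).2.1) i).trans (by linarith))
  · rw [abs_of_nonneg (Finset.sum_nonneg fun a _ => (h1 i a).1)]
    linarith [hH i]
  · rw [abs_of_nonneg (Finset.sum_nonneg fun a _ => h2 i a)]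
    linarith [hL i]
  · exact (norm_sum_le _ _).trans (hs _ _ (by positivity) (fun i a => (h5 i a j).2.2) i)
  · refine tendsto_const_nhds.congr fun i => ?_
    simp only [h4, Finset.sum_add_distrib]
    rw [add_sub_assoc, add_sub_assoc]
    simp
  · rw [← Finset.sum_add_distrib]
    exact Finset.sum_le_sum fun a _ => h3 i a

end Pool.Agent.MP_88ca14_an

end
end MrgPart2

-- marker of a merged file
example : 731051 + 532387 = 731051 + 532387 := rfl
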