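import Mathlib.Analysis.CStarAlgebra.CStarMatrix
import Mathlib.Analysis.InnerProductSpace.TensorProduct

/-!
Local reflexivity and exactness of C⋆-algebras: the definitions used in the final statement.
-/

set_option autoImplicit false

noncomputable section

namespace Pool.Agent.MP_88ca14_an.Sp

open Filter Topology
open scoped TensorProduct

section LR

variable {A : Type} [CStarAlgebra A] [PartialOrder A] [StarOrderedRing A]

/-- The map `a ↦ a ⊗ e_{pq}` from `A` to the C⋆-algebra `M_k(A)`. -/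
def sing {k : ℕ} (p q : Fin k) : A →L[ℂ] CStarMatrix (Fin k) (Fin k) A where
  toFun a := CStarMatrix.ofMatrix (Matrix.single p q a)
  map_add' a b := by rw [Matrix.single_add]; rfl
  map_smul' c a := by
    rw [RingHom.id_apply, ← Matrix.smul_single]; rfl
  cont := by
    refine continuous_pi fun i => continuous_pi fun j => ?_
    by_cases h : p = i ∧ q = j
    · have : (fun a : A => CStarMatrix.ofMatrix (Matrix.single p q a) i j) = fun a => a := by
        funext a; simp [Matrix.single, h]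
      rw [this]; exact continuous_id
    · have : (fun a : A => CStarMatrix.ofMatrix (Matrix.single p q a) i j) = fun _ => 0 := by
        funext a; simp [Matrix.single, h]
      rw [this]; exact continuous_const

/-- The canonical identification `M_k(A**) = M_k(A)**`: the matrix `x` acts on a functional `ψ`
of `M_k(A)` by `∑ p q, x p q (a ↦ ψ (a ⊗ e_{pq}))`. -/
def hat {k : ℕ} (x : Matrix (Fin k) (Fin k) (StrongDual ℂ (StrongDual ℂ A))) :
    StrongDual ℂ (StrongDual ℂ (CStarMatrix (Fin k) (Fin k) A)) :=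
  ∑ p, ∑ q, (x p q).comp (ContinuousLinearMap.precomp ℂ (sing p q))

/-- A linear map `u` from a subspace `E` of `A**` to `A` is a complete contraction: for every `k`
the amplification `M_k(E) → M_k(A)` is contractive, where `M_k(E) ⊆ M_k(A**) = M_k(A)**`. -/
structure IsCC (E : Submodule ℂ (StrongDual ℂ (StrongDual ℂ A))) (u : E →ₗ[ℂ] A) : Prop where
  norm_le : ∀ (k : ℕ) (x : Matrix (Fin k) (Fin k) E),
    ‖CStarMatrix.ofMatrix (x.map u)‖ ≤ ‖hat (x.map Subtype.val)‖

variable (A) in
/-- `A` is locally reflexive: for every finite-dimensional `E ⊆ A**` there is a net of complete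
contractions `u i : E → A` with `u i e → e` in the topology `σ(A**, A*)` for each `e ∈ E`. -/
structure LocallyReflexive : Prop where
  net : ∀ E : Submodule ℂ (StrongDual ℂ (StrongDual ℂ A)), Module.Finite ℂ E →
    ∃ (ι : Type) (_ : Preorder ι) (_ : IsDirected ι (· ≤ ·)) (_ : Nonempty ι)
      (u : ι → E →ₗ[ℂ] A), (∀ i, IsCC E (u i)) ∧
        ∀ (e : E) (f : StrongDual ℂ A), Tendsto (fun i => f (u i e)) atTop (𝓝 (e.1 f))

end LR

section Exact

variable {A B : Type} [CStarAlgebra A] [CStarAlgebra B]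

/-- `‖(π ⊗ σ)(x)‖ ≤ c` for all representations `π` of `B` on `H` and `σ` of `A` on `K`.  Here
`T = π ⊗ σ` is the linear map that sends `b ⊗ a` to the operator `π b ⊗ σ a` on the algebraic
tensor product of the Hilbert spaces with its inner product norm. -/
structure RepLE (H K : Type) [NormedAddCommGroup H] [InnerProductSpace ℂ H] [CompleteSpace H]
    [NormedAddCommGroup K] [InnerProductSpace ℂ K] [CompleteSpace K]
    (x : B ⊗[ℂ] A) (c : ℝ) : Prop where
  le : ∀ (π : B →⋆ₐ[ℂ] (H →L[ℂ] H)) (σ : A →⋆ₐ[ℂ] (K →L[ℂ] K))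
    (T : B ⊗[ℂ] A →ₗ[ℂ] (H ⊗[ℂ] K →L[ℂ] H ⊗[ℂ] K)),
    (∀ b a, T (b ⊗ₜ[ℂ] a) = TensorProduct.mapL (π b) (σ a)) → ‖T x‖ ≤ c

/-- The minimal (spatial) C⋆-norm of `x`, the supremum of `‖(π ⊗ σ)(x)‖` over all representations
on Hilbert spaces, is at most `c`. -/
def MinLE (x : B ⊗[ℂ] A) (c : ℝ) : Prop :=
  ∀ (H K : Type) [NormedAddCommGroup H] [InnerProductSpace ℂ H] [CompleteSpace H]
    [NormedAddCommGroup K] [InnerProductSpace ℂ K] [CompleteSpace K], RepLE H K x c

/-- Exactness in the middle of `0 → I ⊗ A → B ⊗ A → C ⊗ A → 0` (minimal tensor products) for every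
surjective ⋆-homomorphism `q : B → C` with kernel `I`.  An element of `B ⊗_min A` is a Cauchy
sequence `x` in the algebraic tensor product; if its image in `C ⊗_min A` is zero, then it lies in
the closure of the span of the `b ⊗ a` with `b ∈ I`. -/
structure ExactAt (A B C : Type) [CStarAlgebra A] [CStarAlgebra B] [CStarAlgebra C] : Prop where
  mid : ∀ q : B →⋆ₐ[ℂ] C, Function.Surjective q → ∀ x : ℕ → B ⊗[ℂ] A,
    (∀ ε : ℝ, 0 < ε → ∃ N, ∀ m, N ≤ m → ∀ n, N ≤ n → MinLE (x m - x n) ε) →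
    (∀ ε : ℝ, 0 < ε → ∃ N, ∀ n, N ≤ n →
      MinLE (LinearMap.rTensor A q.toAlgHom.toLinearMap (x n)) ε) →
    ∀ ε : ℝ, 0 < ε →
      ∃ y ∈ Submodule.span ℂ {z : B ⊗[ℂ] A | ∃ (b : B) (a : A), q b = 0 ∧ z = b ⊗ₜ[ℂ] a},
        ∃ N, ∀ n, N ≤ n → MinLE (x n - y) ε

/-- `A` is exact. -/
def IsExact (A : Type) [CStarAlgebra A] : Prop :=
  ∀ (B C : Type) [CStarAlgebra B] [CStarAlgebra C], ExactAt A B C

end Exact

end Pool.Agent.MP_88ca14_an.Sp
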