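import Mathlib.Logic.Equiv.PartialEquiv
import Mathlib.Topology.Sheaves.Presheaf
import Mathlib.Tactic.ENatToNat
import Mathlib.Tactic.Monotonicity.Lemmas
import Mathlib.Data.Int.Star
import Mathlib.Algebra.Order.Ring.Star
import Mathlib.Analysis.SpecificLimits.Basic
import Mathlib.RingTheory.PiTensorProduct
import Mathlib.RingTheory.WittVector.IsPoly
import Mathlib.Tactic.Polynomial.Basic
import Mathlib.Tactic.ReduceModChar
import Pool.Agent.MP_88ca14_an.SpecG

-- ======== part 0: formerly Pool.Agent.MP_88ca14_an.Gr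
section MrgPart0

/-!
PROJECT LRX: walks in labelled graphs, graphs of large girth, lifting of walks to coloured graphs
and cylinders.
-/

set_option autoImplicit false

noncomputable section

namespace Pool.Agent.MP_88ca14_an

open scoped Classical

namespace GrM

section Basic

variable {σ V : Type} {Y : LG σ V}

theorem walk_nil {v w : V} : Y.Walk v [] w ↔ v = w := Iff.rfl

theorem walk_cons {v w : V} {a : σ × Bool} {L : List (σ × Bool)} :
    Y.Walk v (a :: L) w ↔ ∃ u, Y.step v a u ∧ Y.Walk u L w := Iff.rfl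

theorem step_func {v w w' : V} {a : σ × Bool} (h : Y.step v a w) (h' : Y.step v a w') :
    w = w' := by
  rcases h with ⟨h1, h2⟩ | ⟨h1, h2⟩ <;> rcases h' with ⟨h3, h4⟩ | ⟨h3, h4⟩
  · exact Y.func h2 h4
  · rw [h1] at h3; cases h3
  · rw [h1] at h3; cases h3
  · exact Y.inj h2 h4

theorem step_rev {v w : V} {a : σ × Bool} (h : Y.step v a w) : Y.step w (a.1, !a.2) v := by
  rcases h with ⟨h1, h2⟩ | ⟨h1, h2⟩
  · exact Or.inr ⟨by simp [h1], h2⟩
  · exact Or.inl ⟨by simp [h1], h2⟩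

theorem walk_append {L L' : List (σ × Bool)} :
    ∀ {v w : V}, Y.Walk v (L ++ L') w ↔ ∃ u, Y.Walk v L u ∧ Y.Walk u L' w := by
  induction L with
  | nil => intro v w; simp [walk_nil]
  | cons a L ih =>
    intro v w
    simp only [List.cons_append, walk_cons, ih]
    constructor
    · rintro ⟨u, h1, u', h2, h3⟩
      exact ⟨u', ⟨u, h1, h2⟩, h3⟩
    · rintro ⟨u', ⟨u, h1, h2⟩, h3⟩
      exact ⟨u, h1, u', h2, h3⟩

theorem walk_single {v w : V} {a : σ × Bool} : Y.Walk v [a] w ↔ Y.step v a w := by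
  simp [walk_cons, walk_nil]

theorem walk_func {L : List (σ × Bool)} :
    ∀ {v w w' : V}, Y.Walk v L w → Y.Walk v L w' → w = w' := by
  induction L with
  | nil => intro v w w' h h'; exact h.symm.trans h'
  | cons a L ih =>
    rintro v w w' ⟨u, h1, h2⟩ ⟨u', h3, h4⟩
    obtain rfl := step_func h1 h3
    exact ih h2 h4

theorem walk_rev {L : List (σ × Bool)} :
    ∀ {v w : V}, Y.Walk v L w → Y.Walk w (FreeGroup.invRev L) v := by
  induction L with
  | nil => intro v w h; exact h.symm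
  | cons a L ih =>
    rintro v w ⟨u, h1, h2⟩
    rw [FreeGroup.invRev_cons]
    refine walk_append.2 ⟨u, ih h2, ?_⟩
    have : FreeGroup.invRev [a] = [(a.1, !a.2)] := by simp [FreeGroup.invRev]
    rw [this]
    exact walk_single.2 (step_rev h1)

theorem walk_red_step {L L' : List (σ × Bool)} (h : FreeGroup.Red.Step L L') {v w : V}
    (hw : Y.Walk v L w) : Y.Walk v L' w := by
  obtain ⟨L₁, L₂, x, b⟩ := h
  obtain ⟨u, h1, u₁, h2, u₂, h3, h4⟩ := walk_append.1 hw
  have h5 := step_rev h2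
  obtain rfl : u₂ = u := step_func h3 h5
  exact walk_append.2 ⟨u₂, h1, h4⟩

theorem walk_red {L L' : List (σ × Bool)} (h : FreeGroup.Red L L') {v w : V}
    (hw : Y.Walk v L w) : Y.Walk v L' w := by
  induction h with
  | refl => exact hw
  | tail _ h2 ih => exact walk_red_step h2 ih

theorem red_left {L L' : List (σ × Bool)} (h : FreeGroup.IsReduced (L ++ L')) :
    FreeGroup.IsReduced L := List.IsChain.left_of_append h

theorem red_right {L L' : List (σ × Bool)} (h : FreeGroup.IsReduced (L ++ L')) :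
    FreeGroup.IsReduced L' := List.IsChain.right_of_append h

/-- Balls are small. -/
theorem ball_card {D : ℕ} (hD : Y.Deg D) (m : ℕ) : ∀ u : V, ∃ s : Finset V,
    s.card ≤ (D + 1) ^ m ∧ ∀ L v, L.length ≤ m → Y.Walk u L v → v ∈ s := by
  induction m with
  | zero =>
    intro u
    refine ⟨{u}, by simp, fun L v hL hw => ?_⟩
    obtain rfl : L = [] := List.length_eq_zero_iff.1 (by omega)
    exact Finset.mem_singleton.2 hw.symm
  | succ m ih =>
    intro u
    choose s hs hs' using ih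
    obtain ⟨t, ht, ht'⟩ := hD u
    let nx : σ × Bool → V := fun a => if h : ∃ y, Y.step u a y then h.choose else u
    refine ⟨insert u (t.biUnion fun a => s (nx a)), ?_, fun L v hL hw => ?_⟩
    · have h1 := Finset.card_insert_le u (t.biUnion fun a => s (nx a))
      have h2 : (t.biUnion fun a => s (nx a)).card ≤ t.card * (D + 1) ^ m :=
        Finset.card_biUnion_le_card_mul _ _ _ fun a _ => hs _
      have h3 : t.card * (D + 1) ^ m ≤ D * (D + 1) ^ m := Nat.mul_le_mul_right _ ht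
      have h4 : 1 ≤ (D + 1) ^ m := Nat.one_le_pow _ _ (by omega)
      rw [pow_succ]
      nlinarith
    · cases L with
      | nil => exact Finset.mem_insert.2 (Or.inl hw.symm)
      | cons a L =>
        obtain ⟨y, h1, h2⟩ := hw
        have h3 : ∃ y, Y.step u a y := ⟨y, h1⟩
        have h4 : nx a = y := by
          simp only [nx, dif_pos h3]
          exact step_func h3.choose_spec h1
        refine Finset.mem_insert.2 (Or.inr (Finset.mem_biUnion.2 ⟨a, ht' a y h1, ?_⟩))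
        rw [h4]
        exact hs' y L v (by simpa using hL) h2

variable [DecidableEq σ]

theorem rd_mk {L : List (σ × Bool)} {v w : V} (h : Y.Walk v L w) :
    Y.Rd v (FreeGroup.mk L) w := by
  unfold LG.Rd
  rw [FreeGroup.toWord_mk]
  exact walk_red FreeGroup.reduce.red h

theorem rd_one {v w : V} : Y.Rd v 1 w ↔ v = w := Iff.rfl

theorem rd_mul {v u w : V} {g h : FreeGroup σ} (h1 : Y.Rd v g u) (h2 : Y.Rd u h w) :
    Y.Rd v (g * h) w := by
  have := rd_mk (walk_append.2 ⟨u, h1, h2⟩)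
  rwa [← FreeGroup.mul_mk, FreeGroup.mk_toWord, FreeGroup.mk_toWord] at this

theorem rd_inv {v w : V} {g : FreeGroup σ} (h : Y.Rd v g w) : Y.Rd w g⁻¹ v := by
  unfold LG.Rd
  rw [FreeGroup.toWord_inv]
  exact walk_rev h

theorem rd_func {v w w' : V} {g : FreeGroup σ} (h : Y.Rd v g w) (h' : Y.Rd v g w') : w = w' :=
  walk_func h h'

theorem near_of_walk {L : List (σ × Bool)} {v w : V} {n : ℕ} (h : Y.Walk v L w)
    (hn : L.length ≤ n) : Y.Near n v w :=
  ⟨_, rd_mk h, FreeGroup.norm_mk_le.trans hn⟩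

theorem toWord_mk_red {L : List (σ × Bool)} (h : FreeGroup.IsReduced L) :
    (FreeGroup.mk L).toWord = L := by
  rw [FreeGroup.toWord_mk, h.reduce_eq]

/-- The girth condition for lists. -/
theorem girth_list {n : ℕ} (hg : Y.Girth n) {L : List (σ × Bool)} (hr : FreeGroup.IsReduced L)
    (hl : L.length < n) {x : V} (hw : Y.Walk x L x) : L = [] := by
  rcases hg x _ (rd_mk hw) with h | h
  · rw [← toWord_mk_red hr, h]; rfl
  · unfold FreeGroup.norm at h
    rw [toWord_mk_red hr] at h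
    omega

theorem girth_of_list {n : ℕ} (h : ∀ x L, FreeGroup.IsReduced L → L.length < n →
    Y.Walk x L x → L = []) : Y.Girth n := by
  intro x g hw
  by_cases hl : g.toWord.length < n
  · exact Or.inl (FreeGroup.toWord_eq_nil_iff.1 (h x _ FreeGroup.isReduced_toWord hl hw))
  · exact Or.inr (not_lt.1 hl)

end Basic

/-! ### Adding an edge -/

section Add

variable {σ V : Type} (Y : LG σ V) (u v : V) (a : σ)

/-- The graph with one more edge. -/
def addE (hu : ∀ w, ¬ Y.rel u a w) (hv : ∀ w, ¬ Y.rel w a v) : LG σ V where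
  rel x b y := Y.rel x b y ∨ (x = u ∧ b = a ∧ y = v)
  func := by
    rintro x b y y' (h | ⟨rfl, rfl, rfl⟩) (h' | ⟨h1, h2, h3⟩)
    · exact Y.func h h'
    · subst h1 h2; exact (hu _ h).elim
    · exact (hu _ h').elim
    · exact h3.symm
  inj := by
    rintro x x' b y (h | ⟨rfl, rfl, rfl⟩) (h' | ⟨h1, h2, h3⟩)
    · exact Y.inj h h'
    · subst h2 h3; exact (hv _ h).elim
    · exact (hv _ h').elim
    · exact h1.symm

variable {Y u v a} {hu : ∀ w, ¬ Y.rel u a w} {hv : ∀ w, ¬ Y.rel w a v}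

theorem addE_step {x y : V} {c : σ × Bool} (h : (addE Y u v a hu hv).step x c y) :
    Y.step x c y ∨ (c = (a, true) ∧ x = u ∧ y = v) ∨ (c = (a, false) ∧ x = v ∧ y = u) := by
  obtain ⟨c1, c2⟩ := c
  rcases h with ⟨h1, h2 | ⟨h2, h3, h4⟩⟩ | ⟨h1, h2 | ⟨h2, h3, h4⟩⟩
  · exact Or.inl (Or.inl ⟨h1, h2⟩)
  · exact Or.inr (Or.inl ⟨Prod.ext h3 h1, h2, h4⟩)
  · exact Or.inl (Or.inr ⟨h1, h2⟩)
  · exact Or.inr (Or.inr ⟨Prod.ext h3 h1, h4, h2⟩)

theorem step_addE {x y : V} {c : σ × Bool} (h : Y.step x c y) :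
    (addE Y u v a hu hv).step x c y := by
  rcases h with ⟨h1, h2⟩ | ⟨h1, h2⟩
  · exact Or.inl ⟨h1, Or.inl h2⟩
  · exact Or.inr ⟨h1, Or.inl h2⟩

variable [DecidableEq σ]

theorem addE_walk {n : ℕ} (hg : Y.Girth n) (hf : ∀ L, L.length < n → ¬ Y.Walk u L v) :
    ∀ (L : List (σ × Bool)) (x y : V), FreeGroup.IsReduced L → L.length < n →
      (addE Y u v a hu hv).Walk x L y → Y.Walk x L y ∨
        (∃ L₁ L₂, L = L₁ ++ (a, true) :: L₂ ∧ Y.Walk x L₁ u ∧ Y.Walk v L₂ y) ∨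
        (∃ L₁ L₂, L = L₁ ++ (a, false) :: L₂ ∧ Y.Walk x L₁ v ∧ Y.Walk u L₂ y) := by
  have hf' : ∀ L, L.length < n → ¬ Y.Walk v L u := fun L hL hw =>
    hf _ (by rwa [FreeGroup.invRev_length]) (walk_rev hw)
  intro L
  induction L with
  | nil => intro x y _ _ h; exact Or.inl h
  | cons c L ih =>
    rintro x y hr hl ⟨z, h1, h2⟩
    have hr' : FreeGroup.IsReduced L := red_right (L := [c]) hr
    have hl' : L.length < n := by simp at hl; omega
    rcases addE_step h1 with h3 | ⟨rfl, rfl, rfl⟩ | ⟨rfl, rfl, rfl⟩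
    · rcases ih z y hr' hl' h2 with h4 | ⟨L₁, L₂, rfl, h4, h5⟩ | ⟨L₁, L₂, rfl, h4, h5⟩
      · exact Or.inl ⟨z, h3, h4⟩
      · exact Or.inr (Or.inl ⟨c :: L₁, L₂, rfl, ⟨z, h3, h4⟩, h5⟩)
      · exact Or.inr (Or.inr ⟨c :: L₁, L₂, rfl, ⟨z, h3, h4⟩, h5⟩)
    · rcases ih z y hr' hl' h2 with h4 | ⟨L₁, L₂, rfl, h4, h5⟩ | ⟨L₁, L₂, rfl, h4, h5⟩
      · exact Or.inr (Or.inl ⟨[], L, rfl, rfl, h4⟩)
      · exact (hf' L₁ (by simp at hl'; omega) h4).elim
      · obtain rfl := girth_list hg (red_left hr') (by simp at hl'; omega) h4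
        simp [FreeGroup.isReduced_cons_cons] at hr
    · rcases ih z y hr' hl' h2 with h4 | ⟨L₁, L₂, rfl, h4, h5⟩ | ⟨L₁, L₂, rfl, h4, h5⟩
      · exact Or.inr (Or.inr ⟨[], L, rfl, rfl, h4⟩)
      · obtain rfl := girth_list hg (red_left hr') (by simp at hl'; omega) h4
        simp [FreeGroup.isReduced_cons_cons] at hr
      · exact (hf L₁ (by simp at hl'; omega) h4).elim

theorem addE_girth {n : ℕ} (hg : Y.Girth n) (hf : ∀ L, L.length < n → ¬ Y.Walk u L v) :
    (addE Y u v a hu hv).Girth n := by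
  refine girth_of_list fun x L hr hl hw => ?_
  rcases addE_walk hg hf L x x hr hl hw with h | ⟨L₁, L₂, rfl, h4, h5⟩ | ⟨L₁, L₂, rfl, h4, h5⟩
  · exact girth_list hg hr hl h
  · refine (hf _ ?_ (walk_rev (walk_append.2 ⟨x, h5, h4⟩))).elim
    rw [FreeGroup.invRev_length]
    simp at hl ⊢
    omega
  · refine (hf _ ?_ (walk_append.2 ⟨x, h5, h4⟩)).elim
    simp at hl ⊢
    omega

end Add

/-! ### A graph of large girth with many edges -/

section Max

variable {σ V : Type} [Fintype σ] [DecidableEq σ] [Fintype V]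

/-- The pairs (vertex, letter) for which a step is defined. -/
def dset (Y : LG σ V) : Finset (V × (σ × Bool)) :=
  Finset.univ.filter fun p => ∃ y, Y.step p.1 p.2 y

omit [DecidableEq σ] in
theorem mem_dset {Y : LG σ V} {p : V × (σ × Bool)} : p ∈ dset Y ↔ ∃ y, Y.step p.1 p.2 y := by
  simp [dset]

omit [Fintype σ] [DecidableEq σ] in
theorem card_dom_ran (Y : LG σ V) (a : σ) :
    (Finset.univ.filter fun x => ∀ w, ¬ Y.rel x a w).card =
      (Finset.univ.filter fun x => ∀ w, ¬ Y.rel w a x).card := by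
  have h1 : (Finset.univ.filter fun x => ¬ ∀ w, ¬ Y.rel x a w).card =
      (Finset.univ.filter fun x => ¬ ∀ w, ¬ Y.rel w a x).card := by
    refine Finset.card_bij (fun x hx => (not_forall.1 (Finset.mem_filter.1 hx).2).choose)
      ?_ ?_ ?_
    · intro x hx
      have := not_not.1 (not_forall.1 (Finset.mem_filter.1 hx).2).choose_spec
      exact Finset.mem_filter.2 ⟨Finset.mem_univ _, fun h => h _ this⟩
    · intro x hx x' hx' h
      have h1 := not_not.1 (not_forall.1 (Finset.mem_filter.1 hx).2).choose_spec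
      have h2 := not_not.1 (not_forall.1 (Finset.mem_filter.1 hx').2).choose_spec
      rw [h] at h1
      exact Y.inj h1 h2
    · intro y hy
      obtain ⟨x, hx⟩ := not_forall.1 (Finset.mem_filter.1 hy).2
      have hx' := not_not.1 hx
      have hm : x ∈ Finset.univ.filter fun x => ¬ ∀ w, ¬ Y.rel x a w :=
        Finset.mem_filter.2 ⟨Finset.mem_univ _, fun h => h _ hx'⟩
      exact ⟨x, hm, Y.func
        (not_not.1 (not_forall.1 (Finset.mem_filter.1 hm).2).choose_spec) hx'⟩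
  have h2 := Finset.card_filter_add_card_filter_not (s := (Finset.univ : Finset V))
    (fun x => ∀ w, ¬ Y.rel x a w)
  have h3 := Finset.card_filter_add_card_filter_not (s := (Finset.univ : Finset V))
    (fun x => ∀ w, ¬ Y.rel w a x)
  omega

theorem exists_max (n : ℕ) : ∃ Y : LG σ V, Y.Girth n ∧
    ∀ Y' : LG σ V, Y'.Girth n → (dset Y').card ≤ (dset Y).card := by
  have h0 : ∃ k, ∃ Y : LG σ V, Y.Girth n ∧
      Fintype.card (V × (σ × Bool)) - (dset Y).card = k := by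
    refine ⟨_, ⟨fun _ _ _ => False, fun h => h.elim, fun h => h.elim⟩, ?_, rfl⟩
    refine girth_of_list fun x L _ _ hw => ?_
    cases L with
    | nil => rfl
    | cons c L =>
      obtain ⟨z, h1, -⟩ := hw
      rcases h1 with ⟨-, h⟩ | ⟨-, h⟩ <;> exact h.elim
  obtain ⟨Y, hY, hk⟩ := Nat.find_spec h0
  refine ⟨Y, hY, fun Y' hY' => ?_⟩
  have h1 := Nat.find_min' h0 ⟨Y', hY', rfl⟩
  have h2 := Finset.card_le_univ (dset Y')
  omega

theorem exists_dense (n : ℕ) : ∃ Y : LG σ V, Y.Girth n ∧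
    2 * Fintype.card σ * Fintype.card V ≤
      (dset Y).card + 2 * Fintype.card σ * (2 * Fintype.card σ + 1) ^ n := by
  obtain ⟨Y, hY, hmax⟩ := exists_max (σ := σ) (V := V) n
  refine ⟨Y, hY, ?_⟩
  have hD : Y.Deg (2 * Fintype.card σ) := fun x =>
    ⟨Finset.univ, by simp [Fintype.card_prod, mul_comm], fun a _ _ => Finset.mem_univ a⟩
  have key : ∀ a : σ, (Finset.univ.filter fun x => ∀ w, ¬ Y.rel w a x).card ≤
      (2 * Fintype.card σ + 1) ^ n := by
    intro a
    by_cases h : (Finset.univ.filter fun x => ∀ w, ¬ Y.rel x a w).Nonempty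
    · obtain ⟨u, hu⟩ := h
      have hu' := (Finset.mem_filter.1 hu).2
      obtain ⟨s, hs, hs'⟩ := ball_card hD n u
      refine le_trans (Finset.card_le_card fun v hv => ?_) hs
      have hv' := (Finset.mem_filter.1 hv).2
      by_contra hvs
      have hf : ∀ L, L.length < n → ¬ Y.Walk u L v := fun L hL hw => hvs (hs' L v hL.le hw)
      have h1 := hmax _ (addE_girth (a := a) (hu := hu') (hv := hv') hY hf)
      refine absurd h1 (not_le.2 (Finset.card_lt_card ⟨fun p hp => ?_, fun hsub => ?_⟩))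
      · obtain ⟨y, hy⟩ := mem_dset.1 hp
        exact mem_dset.2 ⟨y, step_addE hy⟩
      · have h2 : (u, (a, true)) ∈ dset (addE Y u v a hu' hv') :=
          mem_dset.2 ⟨v, Or.inl ⟨rfl, Or.inr ⟨rfl, rfl, rfl⟩⟩⟩
        obtain ⟨y, hy⟩ := mem_dset.1 (hsub h2)
        rcases hy with ⟨-, hy⟩ | ⟨hy, -⟩
        · exact hu' y hy
        · cases hy
    · rw [← card_dom_ran, Finset.not_nonempty_iff_eq_empty.1 h]
      simp
  have hfib : ∀ c : σ × Bool, (Finset.univ.filter fun x => ¬ ∃ y, Y.step x c y).card ≤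
      (2 * Fintype.card σ + 1) ^ n := by
    rintro ⟨a, b⟩
    cases b
    · refine le_trans (Finset.card_le_card fun x hx => ?_) (key a)
      exact Finset.mem_filter.2 ⟨Finset.mem_univ _, fun w hw =>
        (Finset.mem_filter.1 hx).2 ⟨w, Or.inr ⟨rfl, hw⟩⟩⟩
    · refine le_trans (Finset.card_le_card fun x hx => ?_) ((card_dom_ran Y a).le.trans (key a))
      exact Finset.mem_filter.2 ⟨Finset.mem_univ _, fun w hw =>
        (Finset.mem_filter.1 hx).2 ⟨w, Or.inl ⟨rfl, hw⟩⟩⟩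
  have hsub : (Finset.univ : Finset (V × (σ × Bool))) ⊆ dset Y ∪
      Finset.univ.biUnion fun c : σ × Bool =>
        (Finset.univ.filter fun x => ¬ ∃ y, Y.step x c y).image fun x => (x, c) := by
    intro p _
    by_cases hp : p ∈ dset Y
    · exact Finset.mem_union_left _ hp
    · refine Finset.mem_union_right _ (Finset.mem_biUnion.2 ⟨p.2, Finset.mem_univ _, ?_⟩)
      exact Finset.mem_image.2 ⟨p.1, Finset.mem_filter.2
        ⟨Finset.mem_univ _, fun h => hp (mem_dset.2 h)⟩, rfl⟩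
  have h1 := (Finset.card_le_card hsub).trans (Finset.card_union_le _ _)
  have h2 : (Finset.univ.biUnion fun c : σ × Bool =>
      (Finset.univ.filter fun x => ¬ ∃ y, Y.step x c y).image fun x => (x, c)).card ≤
      (Finset.univ : Finset (σ × Bool)).card * (2 * Fintype.card σ + 1) ^ n :=
    Finset.card_biUnion_le_card_mul _ _ _ fun c _ => Finset.card_image_le.trans (hfib c)
  simp only [Finset.card_univ, Fintype.card_prod, Fintype.card_bool] at h1 h2
  calc 2 * Fintype.card σ * Fintype.card V = Fintype.card V * (Fintype.card σ * 2) := by ring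
    _ ≤ _ := h1
    _ ≤ _ := by rw [mul_comm 2 (Fintype.card σ)] at *; omega

/-- The equivalence relation of being joined by a walk. -/
def joined (Y : LG σ V) : Setoid V where
  r x y := ∃ L, Y.Walk x L y
  iseqv := ⟨fun _ => ⟨[], rfl⟩, fun ⟨_, h⟩ => ⟨_, walk_rev h⟩,
    fun ⟨_, h⟩ ⟨_, h'⟩ => ⟨_, walk_append.2 ⟨_, h, h'⟩⟩⟩

omit [DecidableEq σ] in
theorem exists_comp [Nonempty V] (Y : LG σ V) (c : ℕ)
    (h : c * Fintype.card V ≤ (dset Y).card) : ∃ C : Finset V, C.Nonempty ∧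
      (∀ x ∈ C, ∀ y, y ∈ C ↔ ∃ L, Y.Walk x L y) ∧
      ∃ t : Finset (V × (σ × Bool)), c * C.card ≤ t.card ∧ ∀ p ∈ t, p ∈ dset Y ∧ p.1 ∈ C := by
  let f : V → V := fun x => (Quotient.mk (joined Y) x).out
  have hf : ∀ x y, f x = f y ↔ ∃ L, Y.Walk x L y := fun x y => by
    simp only [f, Quotient.out_inj]
    exact Quotient.eq
  have h1 := Finset.card_eq_sum_card_fiberwise (f := f) (s := Finset.univ)
    (t := Finset.univ.image f) fun x _ => Finset.mem_coe.2 (Finset.mem_image_of_mem f (by simp))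
  have h2 := Finset.card_eq_sum_card_fiberwise (f := fun p : V × (σ × Bool) => f p.1)
    (s := dset Y) (t := Finset.univ.image f)
    fun p _ => Finset.mem_coe.2 (Finset.mem_image_of_mem f (by simp))
  rw [← Finset.card_univ, h1, h2, Finset.mul_sum] at h
  obtain ⟨q, hq, hle⟩ := Finset.exists_le_of_sum_le (Finset.univ_nonempty.image f) h
  obtain ⟨x₀, -, rfl⟩ := Finset.mem_image.1 hq
  refine ⟨Finset.univ.filter fun x => f x = f x₀, ⟨x₀, by simp⟩, fun x hx y => ?_, _, hle,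
    fun p hp => ?_⟩
  · rw [← hf, (Finset.mem_filter.1 hx).2]
    simp [eq_comm]
  · have := Finset.mem_filter.1 hp
    exact ⟨this.1, Finset.mem_filter.2 ⟨Finset.mem_univ _, this.2⟩⟩

end Max

section Res

variable {σ V W : Type}

/-- The pull-back of a graph along an injective map. -/
def pull (Y : LG σ V) (e : W → V) (he : Function.Injective e) : LG σ W where
  rel x a y := Y.rel (e x) a (e y)
  func h h' := he (Y.func h h')
  inj h h' := he (Y.inj h h')

variable {Y : LG σ V} {e : W → V} {he : Function.Injective e}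

theorem pull_walk {L : List (σ × Bool)} :
    ∀ {x y : W}, (pull Y e he).Walk x L y → Y.Walk (e x) L (e y) := by
  induction L with
  | nil => intro x y h; exact congrArg e h
  | cons a L ih =>
    rintro x y ⟨z, h1, h2⟩
    exact ⟨e z, h1, ih h2⟩

theorem walk_pull (hc : ∀ x a v, Y.step (e x) a v → ∃ z, e z = v) {L : List (σ × Bool)} :
    ∀ {x y : W}, Y.Walk (e x) L (e y) → (pull Y e he).Walk x L y := by
  induction L with
  | nil => intro x y h; exact he h
  | cons a L ih =>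
    rintro x y ⟨v, h1, h2⟩
    obtain ⟨z, rfl⟩ := hc x a v h1
    exact ⟨z, h1, ih h2⟩

end Res

/-! ### Coloured graphs -/

section Col

variable {B C V : Type}

/-- Forget the colour of a letter. -/
def pl (c : (B × C) × Bool) : B × Bool := (c.1.1, c.2)

/-- The edge used by a step. -/
def edge (v : V) (a : B × Bool) (w : V) : V × B := (if a.2 then v else w, a.1)

variable {Γ : LG B V} {ω : V × B → C}

theorem col_step {v w : V} {c : (B × C) × Bool} :
    (col Γ ω).step v c w ↔ Γ.step v (pl c) w ∧ ω (edge v (pl c) w) = c.1.2 := by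
  obtain ⟨⟨b, k⟩, s⟩ := c
  cases s <;> simp [LG.step, col, pl, edge]

theorem col_walk {L : List ((B × C) × Bool)} :
    ∀ {x y : V}, (col Γ ω).Walk x L y → Γ.Walk x (L.map pl) y := by
  induction L with
  | nil => intro x y h; exact h
  | cons c L ih =>
    rintro x y ⟨z, h1, h2⟩
    exact ⟨z, (col_step.1 h1).1, ih h2⟩

theorem col_red {L : List ((B × C) × Bool)} : ∀ {x y : V}, (col Γ ω).Walk x L y →
    FreeGroup.IsReduced L → FreeGroup.IsReduced (L.map pl) := by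
  induction L with
  | nil => intro x y _ _; exact FreeGroup.IsReduced.nil
  | cons c L ih =>
    rintro x y ⟨z, h1, h2⟩ hr
    cases L with
    | nil => exact FreeGroup.IsReduced.singleton
    | cons c' L =>
      rw [FreeGroup.isReduced_cons_cons] at hr
      have h3 := ih h2 hr.2
      obtain ⟨z', h4, -⟩ := h2
      simp only [List.map_cons] at h3 ⊢
      refine FreeGroup.isReduced_cons_cons.2 ⟨fun hb => ?_, h3⟩
      by_contra hs
      obtain ⟨h5, h6⟩ := col_step.1 h1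
      obtain ⟨h7, h8⟩ := col_step.1 h4
      have h9 : pl c' = ((pl c).1, !(pl c).2) := by
        refine Prod.ext hb.symm ?_
        revert hs
        cases (pl c).2 <;> cases (pl c').2 <;> simp
      rw [h9] at h7 h8
      obtain rfl : z' = x := step_func h7 (step_rev h5)
      have h10 : edge z ((pl c).1, !(pl c).2) z' = edge z' (pl c) z := by
        unfold edge
        cases (pl c).2 <;> simp
      rw [h10, h6] at h8
      exact hs (hr.1 (Prod.ext hb h8))

theorem red_of_map {L : List ((B × C) × Bool)} (h : FreeGroup.IsReduced (L.map pl)) :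
    FreeGroup.IsReduced L := by
  induction L with
  | nil => exact FreeGroup.IsReduced.nil
  | cons c L ih =>
    cases L with
    | nil => exact FreeGroup.IsReduced.singleton
    | cons c' L =>
      simp only [List.map_cons] at h ih
      rw [FreeGroup.isReduced_cons_cons] at h
      exact FreeGroup.isReduced_cons_cons.2
        ⟨fun hb => h.1 (congrArg (Prod.fst : B × C → B) hb), ih h.2⟩

theorem walk_lift {L₀ : List (B × Bool)} : ∀ {x y : V}, Γ.Walk x L₀ y →
    ∃ L : List ((B × C) × Bool), L.map pl = L₀ ∧ (col Γ ω).Walk x L y := by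
  induction L₀ with
  | nil => intro x y h; exact ⟨[], rfl, h⟩
  | cons a L₀ ih =>
    rintro x y ⟨z, h1, h2⟩
    obtain ⟨L, rfl, h3⟩ := ih h2
    exact ⟨((a.1, ω (edge x a z)), a.2) :: L, rfl, z, col_step.2 ⟨h1, rfl⟩, h3⟩

theorem lift_unique {L : List ((B × C) × Bool)} : ∀ {L' : List ((B × C) × Bool)} {x y y' : V},
    (col Γ ω).Walk x L y → (col Γ ω).Walk x L' y' → L.map pl = L'.map pl → L = L' := by
  induction L with
  | nil => intro L' x y y' _ _ h; exact (List.map_eq_nil_iff.1 h.symm).symm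
  | cons c L ih =>
    intro L' x y y' h h' he
    cases L' with
    | nil => simp at he
    | cons c' L' =>
      obtain ⟨z, h1, h2⟩ := h
      obtain ⟨z', h3, h4⟩ := h'
      simp only [List.map_cons, List.cons.injEq] at he
      obtain ⟨h5, h6⟩ := col_step.1 h1
      obtain ⟨h7, h8⟩ := col_step.1 h3
      rw [← he.1] at h7 h8
      obtain rfl := step_func h5 h7
      have h9 : c = c' := by
        have e1 := congrArg Prod.fst he.1
        have e2 := congrArg Prod.snd he.1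
        exact Prod.ext (Prod.ext e1 (h6.symm.trans h8)) e2
      rw [h9, ih h2 h4 he.2]

theorem pr_eq [DecidableEq B] [DecidableEq C] (g : FreeGroup (B × C)) :
    pr g = FreeGroup.mk (g.toWord.map pl) := by
  conv_lhs => rw [← FreeGroup.mk_toWord (x := g)]
  unfold pr
  rw [FreeGroup.map.mk]
  rfl

theorem pr_toWord [DecidableEq B] [DecidableEq C] {g : FreeGroup (B × C)} {x y : V}
    (h : (col Γ ω).Rd x g y) : (pr g).toWord = g.toWord.map pl := by
  rw [pr_eq, toWord_mk_red (col_red h FreeGroup.isReduced_toWord)]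

theorem pr_toWord_of_norm [DecidableEq B] [DecidableEq C] {g : FreeGroup (B × C)}
    (h : (pr g).norm = g.norm) : (pr g).toWord = g.toWord.map pl := by
  unfold FreeGroup.norm at h
  rw [pr_eq, FreeGroup.toWord_mk] at h ⊢
  exact (FreeGroup.Red.sublist FreeGroup.reduce.red).eq_of_length (by rw [h, List.length_map])

theorem cyl_list [DecidableEq B] [Nonempty C] {n : ℕ} (hg : Γ.Girth n) :
    ∀ (L : List ((B × C) × Bool)) (x y : V), L.length < n → FreeGroup.IsReduced (L.map pl) →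
      Γ.Walk x (L.map pl) y → ∃ (s : Finset (V × B)) (k : V × B → C), s.card = L.length ∧
        (∀ e ∈ s, ∃ L₁ a L₂ v v', L.map pl = L₁ ++ a :: L₂ ∧ Γ.Walk x L₁ v ∧ Γ.step v a v' ∧
          e = edge v a v') ∧
        ∀ ω : V × B → C, (∃ w, (col Γ ω).Walk x L w) ↔ ∀ e ∈ s, ω e = k e := by
  intro L
  induction L with
  | nil =>
    intro x y _ _ _
    exact ⟨∅, fun _ => Classical.arbitrary C, rfl, by simp, fun ω => by simp [walk_nil]⟩
  | cons c L ih =>
    rintro x y hl hr ⟨z, h1, h2⟩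
    simp only [List.map_cons] at hr
    have hr' : FreeGroup.IsReduced (L.map pl) := red_right (L := [pl c]) hr
    have hl' : L.length + 1 < n := by simpa using hl
    obtain ⟨s, k, hs, hs', hk⟩ := ih z y (by omega) hr' h2
    have hne : edge x (pl c) z ∉ s := by
      intro he
      obtain ⟨L₁, a, L₂, v, v', h3, h4, h5, h6⟩ := hs' _ he
      have hlen : L.length = L₁.length + (L₂.length + 1) := by
        have := congrArg List.length h3
        simpa using this
      have hb : (pl c).1 = a.1 := congrArg Prod.snd h6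
      have hv : (if (pl c).2 then x else z) = if a.2 then v else v' := congrArg Prod.fst h6
      rw [h3] at hr hr'
      by_cases hs : (pl c).2 = a.2
      · have ha : pl c = a := Prod.ext hb hs
        have hxv : x = v := by
          rw [ha] at h1 hv
          cases h : a.2
          · rw [h] at hv
            simp only [Bool.false_eq_true, if_false] at hv
            subst hv
            exact step_func (step_rev h1) (step_rev h5)
          · rw [h] at hv
            simpa using hv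
        subst hxv
        have := girth_list hg (L := pl c :: L₁) (red_left (L' := a :: L₂) hr)
          (by simp; omega) ⟨z, h1, h4⟩
        cases this
      · have ha : a = ((pl c).1, !(pl c).2) := by
          refine Prod.ext hb.symm ?_
          revert hs
          cases (pl c).2 <;> cases a.2 <;> simp
        have hzv : z = v := by
          have h7 := step_rev h1
          rw [← ha] at h7
          cases h : a.2
          · have h' : (pl c).2 = true := by
              revert hs; rw [h]; cases (pl c).2 <;> simp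
            rw [h, h'] at hv
            simp only [Bool.false_eq_true, if_false, if_true] at hv
            subst hv
            exact step_func (step_rev h7) (step_rev h5)
          · have h' : (pl c).2 = false := by
              revert hs; rw [h]; cases (pl c).2 <;> simp
            rw [h, h'] at hv
            simpa using hv
        subst hzv
        obtain rfl := girth_list hg (red_left hr') (by omega) h4
        exact hs ((FreeGroup.isReduced_cons_cons.1 hr).1 hb)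
    refine ⟨insert (edge x (pl c) z) s, Function.update k (edge x (pl c) z) c.1.2,
      by rw [Finset.card_insert_of_notMem hne, hs]; rfl, fun e he => ?_, fun ω => ?_⟩
    · rcases Finset.mem_insert.1 he with rfl | he
      · exact ⟨[], pl c, L.map pl, x, z, rfl, rfl, h1, rfl⟩
      · obtain ⟨L₁, a, L₂, v, v', h3, h4, h5, h6⟩ := hs' _ he
        exact ⟨pl c :: L₁, a, L₂, v, v', by simp [h3], ⟨z, h1, h4⟩, h5, h6⟩
    · rw [Finset.forall_mem_insert, Function.update_self]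
      have hu : (∀ e ∈ s, ω e = Function.update k (edge x (pl c) z) c.1.2 e) ↔
          ∀ e ∈ s, ω e = k e := by
        refine forall₂_congr fun e he => ?_
        rw [Function.update_of_ne (fun h : e = edge x (pl c) z => hne (h ▸ he))]
      rw [hu, ← hk]
      constructor
      · rintro ⟨w, z', h3, h4⟩
        obtain ⟨h5, h6⟩ := col_step.1 h3
        obtain rfl := step_func h1 h5
        exact ⟨h6, w, h4⟩
      · rintro ⟨h3, w, h4⟩
        exact ⟨w, z, col_step.2 ⟨h1, h3⟩, h4⟩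

end Col

end GrM

open GrM

theorem gr : GrStmt := by
  intro l hl
  have hN : 0 < 17 ^ (101 * l) := by positivity
  have : Nonempty (Fin (17 ^ (101 * l))) := ⟨⟨0, hN⟩⟩
  obtain ⟨Y, hY, hd⟩ := exists_dense (σ := Fin 8) (V := Fin (17 ^ (101 * l))) (100 * l)
  simp only [Fintype.card_fin] at hd
  have h1 : 17 * 17 ^ (100 * l) ≤ 17 ^ (101 * l) := by
    rw [← pow_succ']
    exact Nat.pow_le_pow_right (by norm_num) (by omega)
  obtain ⟨C, hC, hC', t, hc, ht⟩ := exists_comp Y 9 (by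
    rw [Fintype.card_fin]
    norm_num at hd
    omega)
  let e : Fin C.card → Fin (17 ^ (101 * l)) := fun i => (C.equivFin.symm i).1
  have he : Function.Injective e := fun i j h => C.equivFin.symm.injective (Subtype.ext h)
  have hm : ∀ i, e i ∈ C := fun i => (C.equivFin.symm i).2
  have hs : ∀ v ∈ C, ∃ i, e i = v := fun v hv => ⟨C.equivFin ⟨v, hv⟩, by simp [e]⟩
  have hcl : ∀ x a v, Y.step (e x) a v → ∃ z, e z = v := fun x a v h =>
    hs v ((hC' _ (hm x) v).2 ⟨[a], walk_single.2 h⟩)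
  refine ⟨C.card, pull Y e he, hC.card_pos, ?_, fun x y => ?_, fun x g h => ?_, ?_⟩
  · simpa using Finset.card_le_univ C
  · obtain ⟨L, hL⟩ := (hC' _ (hm x) _).1 (hm y)
    exact ⟨_, rd_mk (walk_pull hcl hL)⟩
  · exact hY (e x) g (pull_walk h)
  · refine hc.trans (Finset.card_le_card_of_surjOn (fun p => (e p.1, p.2)) fun p hp => ?_)
    obtain ⟨h2, h3⟩ := ht p (Finset.mem_coe.1 hp)
    obtain ⟨y, hy⟩ := mem_dset.1 h2
    obtain ⟨i, hi⟩ := hs _ h3
    rw [← hi] at hy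
    obtain ⟨z, rfl⟩ := hcl _ _ _ hy
    refine ⟨(i, p.2), Finset.mem_coe.2 (Finset.mem_filter.2 ⟨Finset.mem_univ _, z, hy⟩), ?_⟩
    exact Prod.ext hi rfl

theorem lift : LiftStmt := by
  intro B C V _ _ Γ ω
  refine ⟨fun x g y h => ⟨?_, ?_⟩, fun x g₀ y h => ?_, ?_⟩
  · unfold LG.Rd
    rw [pr_toWord h]
    exact col_walk h
  · unfold FreeGroup.norm
    rw [pr_toWord h, List.length_map]
  · obtain ⟨L, h1, h2⟩ := walk_lift (ω := ω) h
    have hr : FreeGroup.IsReduced L := red_of_map (h1 ▸ FreeGroup.isReduced_toWord)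
    refine ⟨FreeGroup.mk L, rd_mk h2, ?_⟩
    rw [pr_eq, toWord_mk_red hr, h1, FreeGroup.mk_toWord]
  · rintro x g g' ⟨y, h⟩ ⟨y', h'⟩ he
    refine FreeGroup.toWord_injective (lift_unique h h' ?_)
    rw [← pr_toWord h, ← pr_toWord h', he]

theorem cyl : CylStmt := by
  rintro B C V _ _ _ Γ n hg x g hn ⟨y, hy⟩ hp
  have h1 := pr_toWord_of_norm hp
  unfold LG.Rd at hy
  rw [h1] at hy
  obtain ⟨s, k, hs, hs', hk⟩ := cyl_list hg g.toWord x y hn
    (h1 ▸ FreeGroup.isReduced_toWord) hy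
  refine ⟨(s, k), hs, fun e he => ?_, fun ω => hk ω⟩
  obtain ⟨L₁, a, L₂, v, v', h3, h4, h5, rfl⟩ := hs' e he
  have hlen : g.norm = L₁.length + (L₂.length + 1) := by
    have := congrArg List.length h3
    simpa [FreeGroup.norm] using this
  unfold edge
  cases a.2
  · exact near_of_walk (walk_append.2 ⟨v, h4, walk_single.2 h5⟩) (by simp; omega)
  · exact near_of_walk h4 (by omega)

end Pool.Agent.MP_88ca14_an

end
end MrgPart0

-- ======== part 1: formerly Pool.Agent.MP_88ca14_an.Xs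
section MrgPart1

/-!
PROJECT LRX: the union bounds for random colourings and the construction of one tile.
-/

set_option autoImplicit false

noncomputable section

namespace Pool.Agent.MP_88ca14_an

open scoped Classical

open GrM

namespace XsM

/-! ### Covers -/

section Cover

variable {E C : Type} {β : ℝ}

theorem cov_mono {Ev Ev' : Set (E → C)} {Rg Rg' : Set E} {θ θ' : ℝ} (h : Cov β Ev Rg θ)
    (h1 : Ev' ⊆ Ev) (h2 : Rg ⊆ Rg') (h3 : θ ≤ θ') : Cov β Ev' Rg' θ' := by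
  obtain ⟨K, k1, k2, k3⟩ := h
  exact ⟨K, fun κ hκ => (k1 κ hκ).trans h2, fun ω hω => k2 ω (h1 hω), k3.trans h3⟩

theorem cov_of_mem {Ev : Set (E → C)} {Rg : Set E} {θ : ℝ} (h0 : 0 ≤ θ)
    (h : ∀ ω ∈ Ev, Cov β Ev Rg θ) : Cov β Ev Rg θ := by
  by_cases hne : Ev.Nonempty
  · obtain ⟨ω, hω⟩ := hne
    exact h ω hω
  · exact ⟨∅, by simp, fun ω hω => (hne ⟨ω, hω⟩).elim, by simpa using h0⟩

theorem cov_union (hU : CovUStmt) (hβ : 0 < β) {ι : Type} (s : Finset ι) (F : ι → Set (E → C))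
    {Ev : Set (E → C)} {Rg : Set E} {θ θ' : ℝ} (h : ∀ i ∈ s, Cov β (F i) Rg θ)
    (hE : ∀ ω ∈ Ev, ∃ i ∈ s, ω ∈ F i) (hθ : s.card * θ ≤ θ') : Cov β Ev Rg θ' := by
  refine cov_mono (hU E C ι β hβ s F Rg (fun _ => θ) h) (fun ω hω => ?_) le_rfl ?_
  · obtain ⟨i, hi, hi'⟩ := hE ω hω
    exact Set.mem_biUnion hi hi'
  · simpa using hθ

theorem cov_rank [Fintype E] [Fintype C] [Nonempty C] (hβ : 0 < β)
    (hC : (Fintype.card C : ℝ) = 2 * β) (R : E → E → Prop) (hR : WellFounded R) (A : Finset E)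
    (p : E → E) (hp : ∀ e ∈ A, R (p e) e) :
    Cov β {ω : E → C | ∀ e ∈ A, ω e = ω (p e)} Set.univ ((2 * β⁻¹) ^ A.card) := by
  let D : Finset E := A.image p \ A
  let Vv : Finset E := A ∪ D
  let c₀ : C := Classical.arbitrary C
  let φ : (E → C) → Finset E × (E → C) := fun ω => (Vv, fun e => if e ∈ Vv then ω e else c₀)
  let K := (Finset.univ.filter fun ω : E → C => ∀ e ∈ A, ω e = ω (p e)).image φ
  have hpV : ∀ e ∈ A, p e ∈ Vv := fun e he => by
    by_cases h : p e ∈ A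
    · exact Finset.mem_union_left _ h
    · exact Finset.mem_union_right _ (Finset.mem_sdiff.2 ⟨Finset.mem_image_of_mem p he, h⟩)
  have hK : K.card ≤ (Finset.univ : Finset (D → C)).card := by
    refine Finset.card_le_card_of_injOn (fun κ e => κ.2 e) (fun _ _ => by simp) ?_
    intro κ hκ κ' hκ' h
    obtain ⟨ω, hω, rfl⟩ := Finset.mem_image.1 (Finset.mem_coe.1 hκ)
    obtain ⟨ω', hω', rfl⟩ := Finset.mem_image.1 (Finset.mem_coe.1 hκ')
    have h1 := (Finset.mem_filter.1 hω).2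
    have h2 := (Finset.mem_filter.1 hω').2
    have key : ∀ e, e ∈ Vv → ω e = ω' e := by
      intro e
      refine hR.induction (C := fun e => e ∈ Vv → ω e = ω' e) e fun e ih he => ?_
      by_cases ha : e ∈ A
      · rw [h1 e ha, h2 e ha]
        exact ih _ (hp e ha) (hpV e ha)
      · have hd : e ∈ D := (Finset.mem_union.1 he).resolve_left ha
        have := congrFun h ⟨e, hd⟩
        simpa [φ, he] using this
    refine Prod.ext rfl (funext fun e => ?_)
    by_cases he : e ∈ Vv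
    · simp [φ, he, key e he]
    · simp [φ, he]
  have hV : Vv.card = A.card + D.card :=
    Finset.card_union_of_disjoint Finset.disjoint_sdiff
  have hD : D.card ≤ A.card := (Finset.card_le_card Finset.sdiff_subset).trans Finset.card_image_le
  refine ⟨K, fun _ _ => Set.subset_univ _, fun ω hω => ?_, ?_⟩
  · refine ⟨φ ω, Finset.mem_image_of_mem φ (Finset.mem_filter.2 ⟨Finset.mem_univ _, hω⟩), ?_⟩
    intro e he
    have he' : e ∈ Vv := he
    simp [φ, he']
  · have h1 : ∑ κ ∈ K, β⁻¹ ^ κ.1.card = K.card * β⁻¹ ^ Vv.card := by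
      rw [← nsmul_eq_mul, ← Finset.sum_const]
      refine Finset.sum_congr rfl fun κ hκ => ?_
      obtain ⟨ω, -, rfl⟩ := Finset.mem_image.1 hκ
      rfl
    have h2 : (K.card : ℝ) ≤ (2 * β) ^ D.card := by
      rw [← hC]
      simp only [Finset.card_univ, Fintype.card_fun, Fintype.card_coe] at hK
      exact_mod_cast hK
    have h3 : (2 : ℝ) ^ D.card ≤ 2 ^ A.card := pow_le_pow_right₀ (by norm_num) hD
    have hb : 0 < β⁻¹ := inv_pos.2 hβ
    rw [h1, hV]
    calc (K.card : ℝ) * β⁻¹ ^ (A.card + D.card) ≤ (2 * β) ^ D.card * β⁻¹ ^ (A.card + D.card) := by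
          gcongr
      _ = 2 ^ D.card * β⁻¹ ^ A.card * (β * β⁻¹) ^ D.card := by
          rw [mul_pow, mul_pow, pow_add]; ring
      _ = 2 ^ D.card * β⁻¹ ^ A.card := by rw [mul_inv_cancel₀ hβ.ne', one_pow, mul_one]
      _ ≤ 2 ^ A.card * β⁻¹ ^ A.card := by gcongr
      _ = _ := (mul_pow _ _ _).symm

/-- The number of first coordinates. -/
def fc (P : Finset (E × E)) : ℕ := (P.image Prod.fst).card

theorem cov_pairs [Fintype E] [Fintype C] [Nonempty C] (hβ : 2 ≤ β)
    (hC : (Fintype.card C : ℝ) = 2 * β) (P : Finset (E × E)) (hP : ∀ q ∈ P, q.1 ≠ q.2) (m : ℕ)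
    (hm : 2 * m ≤ fc P + 1) :
    Cov β {ω : E → C | ∀ q ∈ P, ω q.1 = ω q.2} Set.univ ((2 * β⁻¹) ^ m) := by
  unfold fc at hm
  have hβ0 : 0 < β := by linarith
  let p : E → E := fun e => if h : ∃ e', (e, e') ∈ P then h.choose else e
  have hp : ∀ e ∈ P.image Prod.fst, (e, p e) ∈ P := by
    intro e he
    obtain ⟨q, hq, rfl⟩ := Finset.mem_image.1 he
    have h : ∃ e', (q.1, e') ∈ P := ⟨q.2, hq⟩
    simp only [p, dif_pos h]
    exact h.choose_spec
  let rk := Fintype.equivFin E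
  have hle : 2 * β⁻¹ ≤ 1 := by
    rw [← div_eq_mul_inv, div_le_one hβ0]; exact hβ
  have key : ∀ (R : E → E → Prop), WellFounded R → ∀ A ⊆ P.image Prod.fst,
      (∀ e ∈ A, R (p e) e) → m ≤ A.card →
      Cov β {ω : E → C | ∀ q ∈ P, ω q.1 = ω q.2} Set.univ ((2 * β⁻¹) ^ m) := by
    intro R hR A hA h1 h2
    refine cov_mono (cov_rank hβ0 hC R hR A p h1) (fun ω hω e he => hω _ (hp e (hA he))) le_rfl ?_
    exact pow_le_pow_of_le_one (by positivity) hle h2
  have hc := Finset.card_filter_add_card_filter_not (s := P.image Prod.fst)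
    (fun e => rk (p e) < rk e)
  by_cases h : m ≤ ((P.image Prod.fst).filter fun e => rk (p e) < rk e).card
  · exact key (fun a b => rk a < rk b) (InvImage.wf rk wellFounded_lt) _ (Finset.filter_subset _ _)
      (fun e he => (Finset.mem_filter.1 he).2) h
  · refine key (fun a b => rk b < rk a) (InvImage.wf rk wellFounded_gt) _
      (Finset.filter_subset (fun e => ¬ rk (p e) < rk e) _) (fun e he => ?_) (by omega)
    obtain ⟨h1, h2⟩ := Finset.mem_filter.1 he
    exact lt_of_le_of_ne (not_lt.1 h2) fun h3 => hP _ (hp e h1) (rk.injective h3)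

end Cover

/-! ### Counting -/

theorem lists_card (α : Type) [Fintype α] (n : ℕ) : ∃ s : Finset (List α),
    s.card ≤ (Fintype.card α + 1) ^ n ∧ ∀ L, L.length ≤ n → L ∈ s := by
  induction n with
  | zero => exact ⟨{[]}, by simp, fun L hL => by simpa using hL⟩
  | succ n ih =>
    obtain ⟨s, hs, hs'⟩ := ih
    refine ⟨insert [] ((Finset.univ ×ˢ s).image fun p : α × List α => p.1 :: p.2), ?_,
      fun L hL => ?_⟩
    · have h1 := Finset.card_insert_le []
        ((Finset.univ ×ˢ s).image fun p : α × List α => p.1 :: p.2)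
      have h2 : ((Finset.univ ×ˢ s).image fun p : α × List α => p.1 :: p.2).card ≤
          Fintype.card α * s.card := Finset.card_image_le.trans (by simp)
      have h3 := Nat.mul_le_mul_left (Fintype.card α) hs
      have h4 : 1 ≤ (Fintype.card α + 1) ^ n := Nat.one_le_pow _ _ (by omega)
      rw [pow_succ]
      nlinarith
    · cases L with
      | nil => exact Finset.mem_insert_self _ _
      | cons a L =>
        refine Finset.mem_insert_of_mem (Finset.mem_image.2 ⟨(a, L), ?_, rfl⟩)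
        exact Finset.mem_product.2 ⟨Finset.mem_univ _, hs' L (by simpa using hL)⟩

theorem subsets_card {α : Type} (t : Finset α) (k : ℕ) : ∃ s : Finset (Finset α),
    s.card ≤ (t.card + 1) ^ k ∧ ∀ u ⊆ t, u.card ≤ k → u ∈ s := by
  obtain ⟨s, hs, hs'⟩ := lists_card t k
  refine ⟨s.image fun L => (L.map Subtype.val).toFinset,
    Finset.card_image_le.trans (by simpa using hs), fun u hu hk => ?_⟩
  refine Finset.mem_image.2 ⟨u.attach.toList.map fun a => ⟨a.1, hu a.2⟩,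
    hs' _ (by simpa using hk), ?_⟩
  ext a
  simp

/-! ### Closed walks that visit many vertices -/

section Tour

variable {σ V : Type} {Y : LG σ V}

/-- `u` is visited by the walk `L` from `z`. -/
def Vis (Y : LG σ V) (z : V) (L : List (σ × Bool)) (u : V) : Prop :=
  ∃ L₁ L₂, L = L₁ ++ L₂ ∧ Y.Walk z L₁ u

theorem exit (S : Finset V) {L : List (σ × Bool)} : ∀ {u t : V}, u ∈ S → t ∉ S → Y.Walk u L t →
    ∃ u' a w, u' ∈ S ∧ w ∉ S ∧ Y.step u' a w := by
  induction L with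
  | nil => intro u t hu ht h; exact (ht (h ▸ hu)).elim
  | cons a L ih =>
    rintro u t hu ht ⟨w, h1, h2⟩
    by_cases hw : w ∈ S
    · exact ih hw ht h2
    · exact ⟨u, a, w, hu, hw, h1⟩

theorem tour (z : V) (T : Finset V) (hT : ∀ t ∈ T, ∃ L, Y.Walk z L t) : ∀ k, k < T.card →
    ∃ (L : List (σ × Bool)) (S : Finset V), L.length ≤ 2 * k ∧ Y.Walk z L z ∧ S.card = k + 1 ∧
      z ∈ S ∧ ∀ u ∈ S, Vis Y z L u := by
  intro k
  induction k with
  | zero =>
    intro _
    refine ⟨[], {z}, by simp, rfl, by simp, by simp, fun u hu => ⟨[], [], rfl, ?_⟩⟩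
    exact (Finset.mem_singleton.1 hu).symm
  | succ k ih =>
    intro hk
    obtain ⟨L, S, h1, h2, h3, h4, h5⟩ := ih (by omega)
    obtain ⟨t, ht, hts⟩ := Finset.exists_mem_notMem_of_card_lt_card (s := S) (t := T) (by omega)
    obtain ⟨M, hM⟩ := hT t ht
    obtain ⟨u, a, w, hu, hw, hs⟩ := exit S h4 hts hM
    obtain ⟨L₁, L₂, rfl, h6⟩ := h5 u hu
    obtain ⟨u', h7, h8⟩ := walk_append.1 h2
    obtain rfl := walk_func h6 h7
    refine ⟨L₁ ++ a :: (a.1, !a.2) :: L₂, insert w S, by simp at h1 ⊢; omega,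
      walk_append.2 ⟨u, h6, w, hs, u, step_rev hs, h8⟩,
      by rw [Finset.card_insert_of_notMem hw, h3], Finset.mem_insert_of_mem h4, fun v hv => ?_⟩
    rcases Finset.mem_insert.1 hv with rfl | hv
    · exact ⟨L₁ ++ [a], (a.1, !a.2) :: L₂, by simp, walk_append.2 ⟨u, h6, walk_single.2 hs⟩⟩
    · obtain ⟨M₁, M₂, h9, h10⟩ := h5 v hv
      rcases List.append_eq_append_iff.1 h9 with ⟨X, rfl, rfl⟩ | ⟨X, rfl, rfl⟩
      · obtain ⟨u', h11, h12⟩ := walk_append.1 h10
        obtain rfl := walk_func h6 h11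
        exact ⟨L₁ ++ a :: (a.1, !a.2) :: X, M₂, by simp,
          walk_append.2 ⟨u, h6, w, hs, u, step_rev hs, h12⟩⟩
      · exact ⟨M₁, X ++ a :: (a.1, !a.2) :: L₂, by simp, h10⟩

variable [DecidableEq σ]

/-- The tree of the common words of two vertices. -/
def tree (Y : LG σ V) (x x' : V) : LG σ (FreeGroup σ) where
  rel g a h := h = g * FreeGroup.of a ∧ (Y.Reads x g ∧ Y.Reads x' g) ∧
    (Y.Reads x h ∧ Y.Reads x' h)
  func h h' := h.1.trans h'.1.symm
  inj h h' := mul_right_cancel (h.1.symm.trans h'.1)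

theorem tree_step {x x' : V} {g h : FreeGroup σ} {a : σ × Bool} :
    (tree Y x x').step g a h ↔ h = g * FreeGroup.mk [a] ∧ (Y.Reads x g ∧ Y.Reads x' g) ∧
      (Y.Reads x h ∧ Y.Reads x' h) := by
  obtain ⟨a, b⟩ := a
  cases b
  · have e : FreeGroup.mk [(a, false)] = (FreeGroup.of a)⁻¹ := rfl
    simp only [LG.step, tree, e, Bool.false_eq_true, false_and, true_and, false_or,
      eq_mul_inv_iff_mul_eq]
    exact ⟨fun h => ⟨h.1.symm, h.2.2, h.2.1⟩, fun h => ⟨h.1.symm, h.2.2, h.2.1⟩⟩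
  · have e : FreeGroup.mk [(a, true)] = FreeGroup.of a := rfl
    simp [LG.step, tree, e]

theorem rd_step {x v w : V} {g : FreeGroup σ} {a : σ × Bool} (h : Y.Rd x g v)
    (h' : Y.Rd x (g * FreeGroup.mk [a]) w) : Y.step v a w := by
  have := rd_mul (rd_inv h) h'
  rw [inv_mul_cancel_left] at this
  unfold LG.Rd at this
  rw [toWord_mk_red FreeGroup.IsReduced.singleton] at this
  exact walk_single.1 this

theorem tree_walk {x x' : V} {L : List (σ × Bool)} : ∀ {g : FreeGroup σ} {v v' w w' : V},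
    Y.Rd x g v → Y.Rd x' g v' → Y.Walk v L w → Y.Walk v' L w' →
      (tree Y x x').Walk g L (g * FreeGroup.mk L) := by
  induction L with
  | nil => intro g _ _ _ _ _ _ _ _; exact (mul_one g).symm
  | cons a L ih =>
    rintro g v v' w w' h1 h2 ⟨u, h3, h4⟩ ⟨u', h5, h6⟩
    have h7 := rd_mul h1 (rd_mk (walk_single.2 h3))
    have h8 := rd_mul h2 (rd_mk (walk_single.2 h5))
    refine ⟨g * FreeGroup.mk [a], tree_step.2 ⟨rfl, ⟨⟨_, h1⟩, _, h2⟩, ⟨_, h7⟩, _, h8⟩, ?_⟩
    have := ih h7 h8 h4 h6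
    rwa [mul_assoc, FreeGroup.mul_mk] at this

theorem walk_tree {x x' : V} {L : List (σ × Bool)} : ∀ {g h : FreeGroup σ} {v v' : V},
    (tree Y x x').Walk g L h → Y.Rd x g v → Y.Rd x' g v' →
      h = g * FreeGroup.mk L ∧ (∃ w, Y.Walk v L w) ∧ ∃ w', Y.Walk v' L w' := by
  induction L with
  | nil => intro g h v v' h1 _ _; exact ⟨h1.symm.trans (mul_one g).symm, ⟨v, rfl⟩, v', rfl⟩
  | cons a L ih =>
    rintro g h v v' ⟨g', h1, h2⟩ h3 h4
    obtain ⟨rfl, -, ⟨u, h5⟩, u', h6⟩ := tree_step.1 h1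
    obtain ⟨h7, ⟨w, h8⟩, w', h9⟩ := ih h2 h5 h6
    refine ⟨?_, ⟨w, u, rd_step h3 h5, h8⟩, w', u', rd_step h4 h6, h9⟩
    rw [h7, mul_assoc, FreeGroup.mul_mk]
    rfl

theorem common_tour {n l : ℕ} (hg : Y.Girth n) (hl : 4 * l < n) {x x' : V}
    (s : Finset (FreeGroup σ)) (hs : ∀ g ∈ s, Y.Reads x g ∧ Y.Reads x' g) (hc : l < s.card) :
    ∃ (L : List (σ × Bool)) (S : Finset V), L.length ≤ 2 * l ∧ (∃ w, Y.Walk x L w) ∧
      (∃ w, Y.Walk x' L w) ∧ S.card = l + 1 ∧ ∀ u ∈ S, Vis Y x L u := by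
  obtain ⟨L, S, h1, h2, h3, -, h5⟩ := tour (Y := tree Y x x') 1 s (fun g hg => by
    obtain ⟨⟨v, hv⟩, v', hv'⟩ := hs g hg
    have := tree_walk (rd_one.2 (rfl : x = x)) (rd_one.2 (rfl : x' = x')) hv hv'
    exact ⟨_, by rwa [one_mul, FreeGroup.mk_toWord] at this⟩) l hc
  have h6 : ∀ g ∈ S, ∃ u, Vis Y x L u ∧ Y.Rd x g u ∧ g.norm ≤ 2 * l := by
    intro g hg
    obtain ⟨L₁, L₂, rfl, h7⟩ := h5 g hg
    obtain ⟨rfl, ⟨w, h8⟩, -⟩ := walk_tree h7 (rd_one.2 (rfl : x = x)) (rd_one.2 (rfl : x' = x'))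
    rw [one_mul]
    exact ⟨w, ⟨L₁, L₂, rfl, h8⟩, rd_mk h8, FreeGroup.norm_mk_le.trans (by simp at h1; omega)⟩
  have : Nonempty V := ⟨x⟩
  choose! f hf1 hf2 hf3 using h6
  obtain ⟨-, h8, h9⟩ := walk_tree h2 (rd_one.2 (rfl : x = x)) (rd_one.2 (rfl : x' = x'))
  refine ⟨L, S.image f, h1, h8, h9, ?_, fun u hu => ?_⟩
  · rw [← h3]
    refine Finset.card_image_of_injOn fun g hg₁ g' hg' h => ?_
    have h10 := rd_mul (rd_inv (hf2 g hg₁)) (h ▸ hf2 g' hg')
    rcases hg _ _ h10 with h11 | h11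
    · exact inv_mul_eq_one.1 h11
    · have h12 := FreeGroup.norm_mul_le g⁻¹ g'
      rw [FreeGroup.norm_inv_eq] at h12
      have := hf3 g hg₁
      have := hf3 g' hg'
      omega
  · obtain ⟨g, hg, rfl⟩ := Finset.mem_image.1 hu
    exact hf1 g hg

end Tour

/-! ### Pairs of edges -/

section Pairs

variable {B C V : Type} {Γ : LG B V}

theorem col_girth [DecidableEq B] [DecidableEq C] {n : ℕ} (hg : Γ.Girth n) (ω : V × B → C) :
    (col Γ ω).Girth n := by
  intro x g h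
  obtain ⟨h1, h2⟩ := (lift B C V Γ ω).1 x g x h
  rcases hg x _ h1 with h3 | h3
  · left
    rw [h3, FreeGroup.norm_one] at h2
    exact FreeGroup.norm_eq_zero.1 h2.symm
  · exact Or.inr (h2 ▸ h3)

theorem edge_inj {v w v' w' : V} {a : B × Bool} (h : Γ.step v a w) (h' : Γ.step v' a w')
    (he : edge v a w = edge v' a w') : v = v' := by
  have hv : (if a.2 then v else w) = if a.2 then v' else w' := congrArg Prod.fst he
  cases h2 : a.2
  · rw [h2] at hv
    simp only [Bool.false_eq_true, if_false] at hv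
    subst hv
    exact step_func (step_rev h) (step_rev h')
  · rw [h2] at hv
    simpa using hv

/-- The pairs of edges used at the same time by the walks from `x` and `x'`. -/
def prs [Fintype V] [Fintype B] (Γ : LG B V) (x x' : V) (L₀ : List (B × Bool)) :
    Finset ((V × B) × (V × B)) :=
  Finset.univ.filter fun q => ∃ M₁ a M₂ v w v' w', L₀ = M₁ ++ a :: M₂ ∧ Γ.Walk x M₁ v ∧
    Γ.step v a w ∧ Γ.Walk x' M₁ v' ∧ Γ.step v' a w' ∧ q = (edge v a w, edge v' a w')

variable [Fintype V] [Fintype B]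

theorem prs_ne {x x' : V} (hx : x ≠ x') (L₀ : List (B × Bool)) :
    ∀ q ∈ prs Γ x x' L₀, q.1 ≠ q.2 := by
  intro q hq he
  obtain ⟨M₁, a, M₂, v, w, v', w', -, h1, h2, h3, h4, rfl⟩ := (Finset.mem_filter.1 hq).2
  obtain rfl := edge_inj h2 h4 he
  exact hx (walk_func (walk_rev h1) (walk_rev h3))

theorem prs_col {ω : V × B → C} {x x' y y' : V} {L : List ((B × C) × Bool)}
    (h : (col Γ ω).Walk x L y) (h' : (col Γ ω).Walk x' L y') :
    ∀ q ∈ prs Γ x x' (L.map pl), ω q.1 = ω q.2 := by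
  intro q hq
  obtain ⟨M₁, a, M₂, v, w, v', w', h0, h1, h2, h3, h4, rfl⟩ := (Finset.mem_filter.1 hq).2
  obtain ⟨L₁, L₂, rfl, rfl, h5⟩ := List.map_eq_append_iff.1 h0
  obtain ⟨c, L₂, rfl, rfl, rfl⟩ := List.map_eq_cons_iff.1 h5
  obtain ⟨u, h6, u₁, h7, -⟩ := walk_append.1 h
  obtain ⟨u', h8, u₁', h9, -⟩ := walk_append.1 h'
  obtain rfl := walk_func (col_walk h6) h1
  obtain rfl := walk_func (col_walk h8) h3
  obtain ⟨h10, h11⟩ := col_step.1 h7
  obtain ⟨h12, h13⟩ := col_step.1 h9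
  obtain rfl := step_func h10 h2
  obtain rfl := step_func h12 h4
  exact h11.trans h13.symm

theorem prs_card {x x' y' : V} {L₀ : List (B × Bool)} (h' : Γ.Walk x' L₀ y') (S : Finset V)
    (hS : ∀ u ∈ S, Vis Γ x L₀ u) : S.card ≤ 2 * fc (prs Γ x x' L₀) + 1 := by
  let tg : V × B → V := fun e => if h : ∃ w, Γ.rel e.1 e.2 w then h.choose else e.1
  let A := (prs Γ x x' L₀).image Prod.fst
  have hsub : S ⊆ insert x (A.image Prod.fst ∪ A.image tg) := by
    intro u hu
    obtain ⟨L₁, L₂, rfl, h1⟩ := hS u hu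
    rcases List.eq_nil_or_concat L₁ with rfl | ⟨M, a, rfl⟩
    · exact Finset.mem_insert.2 (Or.inl h1.symm)
    · rw [List.concat_eq_append] at h1 h'
      obtain ⟨v, h2, h3⟩ := walk_append.1 h1
      obtain ⟨w', h4, -⟩ := walk_append.1 h'
      obtain ⟨v', h5, h6⟩ := walk_append.1 h4
      rw [walk_single] at h3 h6
      have hA : edge v a u ∈ A := by
        refine Finset.mem_image.2 ⟨(edge v a u, edge v' a w'), Finset.mem_filter.2
          ⟨Finset.mem_univ _, M, a, L₂, v, u, v', w', ?_, h2, h3, h5, h6, rfl⟩, rfl⟩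
        simp
      refine Finset.mem_insert_of_mem ?_
      rcases h3 with ⟨h7, h8⟩ | ⟨h7, h8⟩
      · refine Finset.mem_union_right _ (Finset.mem_image.2 ⟨_, hA, ?_⟩)
        have h9 : edge v a u = (v, a.1) := by simp [edge, h7]
        have h10 : ∃ w, Γ.rel v a.1 w := ⟨u, h8⟩
        rw [h9]
        simp only [tg, dif_pos h10]
        exact Γ.func h10.choose_spec h8
      · exact Finset.mem_union_left _ (Finset.mem_image.2 ⟨_, hA, by simp [edge, h7]⟩)
  have h1 := (Finset.card_le_card hsub).trans (Finset.card_insert_le _ _)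
  have h2 := Finset.card_union_le (A.image Prod.fst) (A.image tg)
  have h3 : (A.image Prod.fst).card ≤ A.card := Finset.card_image_le
  have h4 : (A.image tg).card ≤ A.card := Finset.card_image_le
  have h5 : fc (prs Γ x x' L₀) = A.card := by
    refine congrArg Finset.card (Finset.ext fun e => ?_)
    simp only [A, Finset.mem_image]
  omega

end Pairs

/-! ### Numbers -/

theorem mul_beta {β e : ℕ} (hβ : β = 17 ^ e) {c : ℝ} {k j : ℕ} (hc : c ≤ 17 ^ k)
    (h : k + j = e) : c * (β : ℝ)⁻¹ ≤ 17⁻¹ ^ j := by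
  rw [hβ, Nat.cast_pow, ← inv_pow, ← h, pow_add, Nat.cast_ofNat]
  calc c * (17⁻¹ ^ k * 17⁻¹ ^ j) ≤ 17 ^ k * (17⁻¹ ^ k * 17⁻¹ ^ j) := by gcongr
    _ = (17 * 17⁻¹) ^ k * 17⁻¹ ^ j := by rw [mul_pow]; ring
    _ = _ := by rw [mul_inv_cancel₀ (by norm_num), one_pow, one_mul]

theorem pw_le {a b j : ℕ} {c : ℕ} (hc : c ≤ 17 ^ a) (h : a + j ≤ b) :
    (c : ℝ) * 17⁻¹ ^ b ≤ 17⁻¹ ^ j := by
  have h1 : (c : ℝ) ≤ 17 ^ a := by exact_mod_cast hc
  have h2 : (17 : ℝ)⁻¹ ^ b ≤ 17⁻¹ ^ (a + j) := pow_le_pow_of_le_one (by norm_num) (by norm_num) h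
  calc (c : ℝ) * 17⁻¹ ^ b ≤ 17 ^ a * 17⁻¹ ^ (a + j) := by gcongr
    _ = (17 * 17⁻¹) ^ a * 17⁻¹ ^ j := by rw [mul_pow, pow_add]; ring
    _ = _ := by rw [mul_inv_cancel₀ (by norm_num), one_pow, one_mul]

theorem beta_ex {β : ℕ} (hβ : β = 17 ^ 3000) :
    ∃ e, 3000 ≤ e ∧ e ≤ 3000 ∧ β = 17 ^ e ∧ 2 ≤ β := by
  have h : ∀ e : ℕ, 1 ≤ e → 2 ≤ 17 ^ e := fun e he =>
    le_trans (by norm_num) (Nat.pow_le_pow_right (by norm_num) he)
  exact ⟨3000, le_rfl, le_rfl, hβ, hβ ▸ h 3000 (by norm_num)⟩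

/-! ### Local events -/

section Near

variable {σ V : Type} [DecidableEq σ] {Y : LG σ V}

theorem near_trans {a b : ℕ} {u v w : V} (h : Y.Near a u v) (h' : Y.Near b v w) :
    Y.Near (a + b) u w := by
  obtain ⟨g, h1, h2⟩ := h
  obtain ⟨g', h3, h4⟩ := h'
  exact ⟨g * g', rd_mul h1 h3, (FreeGroup.norm_mul_le g g').trans (by omega)⟩

theorem near_mono {a b : ℕ} {u v : V} (h : Y.Near a u v) (hab : a ≤ b) : Y.Near b u v := by
  obtain ⟨g, h1, h2⟩ := h
  exact ⟨g, h1, h2.trans hab⟩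

theorem near_symm {a : ℕ} {u v : V} (h : Y.Near a u v) : Y.Near a v u := by
  obtain ⟨g, h1, h2⟩ := h
  exact ⟨g⁻¹, rd_inv h1, by rwa [FreeGroup.norm_inv_eq]⟩

theorem ball_near {D : ℕ} (hD : Y.Deg D) (m : ℕ) (u : V) : ∃ s : Finset V,
    s.card ≤ (D + 1) ^ m ∧ ∀ v, Y.Near m u v → v ∈ s := by
  obtain ⟨s, h1, h2⟩ := ball_card hD m u
  exact ⟨s, h1, fun v ⟨g, h3, h4⟩ => h2 _ v h4 h3⟩

theorem geod {n : ℕ} (hg : Y.Girth n) {L : List (σ × Bool)} (hr : FreeGroup.IsReduced L)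
    {z v v' : V} {t t' d : ℕ} (ht : t + d < t') (ht' : t' ≤ L.length) (hn : t' + d < n)
    (h : Y.Walk z (L.take t) v) (h' : Y.Walk z (L.take t') v') : ¬ Y.Near d v v' := by
  rintro ⟨g, h1, h2⟩
  have e1 : L.take t' = L.take t ++ (L.take t').drop t := by
    conv_lhs => rw [← List.take_append_drop t (L.take t')]
    rw [List.take_take, min_eq_left (by omega)]
  have hr1 : FreeGroup.IsReduced (L.take t') :=
    red_left (L' := L.drop t') (by rwa [List.take_append_drop])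
  rw [e1] at h' hr1
  obtain ⟨u, h3, h4⟩ := walk_append.1 h'
  obtain rfl := walk_func h h3
  have hlen : (FreeGroup.mk ((L.take t').drop t)).norm = t' - t := by
    unfold FreeGroup.norm
    rw [toWord_mk_red (red_right hr1)]
    simp only [List.length_drop, List.length_take]
    omega
  rcases hg _ _ (rd_mul (rd_mk h4) (rd_inv h1)) with h5 | h5
  · rw [mul_inv_eq_one.1 h5] at hlen
    omega
  · have h6 := FreeGroup.norm_mul_le (FreeGroup.mk ((L.take t').drop t)) g⁻¹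
    rw [FreeGroup.norm_inv_eq] at h6
    omega

theorem chain_card [Fintype V] {D : ℕ} (hD : Y.Deg D) (l M : ℕ) (hM : 0 < M) :
    ∃ Z : Finset (Fin M → V), Z.card ≤ Fintype.card V * (M * (D + 1) ^ l) ^ M ∧
      ∀ z : Fin M → V, (∀ k : Fin M, k.val = 0 ∨ ∃ j, j < k ∧ Y.Near l (z j) (z k)) → z ∈ Z := by
  choose s hs hs' using ball_near hD l
  let idx : V → V → ℕ := fun u v => if h : v ∈ s u then ((s u).equivFin ⟨v, h⟩ : ℕ) else 0
  let jj : (Fin M → V) → Fin M → Fin M := fun z k =>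
    if h : ∃ j, j < k ∧ Y.Near l (z j) (z k) then h.choose else k
  have hj : ∀ z k, (∃ j, j < k ∧ Y.Near l (z j) (z k)) →
      jj z k < k ∧ z k ∈ s (z (jj z k)) := by
    intro z k h
    simp only [jj, dif_pos h]
    exact ⟨h.choose_spec.1, hs' _ _ h.choose_spec.2⟩
  refine ⟨Finset.univ.filter fun z =>
    ∀ k : Fin M, k.val = 0 ∨ ∃ j, j < k ∧ Y.Near l (z j) (z k), ?_,
    fun z hz => Finset.mem_filter.2 ⟨Finset.mem_univ _, hz⟩⟩
  refine le_trans (Finset.card_le_card_of_injOn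
    (t := (Finset.univ : Finset V) ×ˢ Fintype.piFinset fun _ : Fin M =>
      (Finset.univ : Finset (Fin M)) ×ˢ Finset.range ((D + 1) ^ l))
    (fun z => (z ⟨0, hM⟩, fun k => (jj z k, idx (z (jj z k)) (z k)))) (fun z _ => ?_) ?_)
    (by simp [Fintype.card_piFinset])
  · refine Finset.mem_coe.2 (Finset.mem_product.2 ⟨Finset.mem_univ _,
      Fintype.mem_piFinset.2 fun k => Finset.mem_product.2 ⟨Finset.mem_univ _, ?_⟩⟩)
    simp only [Finset.mem_range, idx]
    split_ifs with h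
    · exact lt_of_lt_of_le (Fin.is_lt _) (hs _)
    · positivity
  · intro z hz z' hz' h
    have h1 := (Finset.mem_filter.1 (Finset.mem_coe.1 hz)).2
    have h2 := (Finset.mem_filter.1 (Finset.mem_coe.1 hz')).2
    have h3 : z ⟨0, hM⟩ = z' ⟨0, hM⟩ := congrArg Prod.fst h
    have h4 := congrArg Prod.snd h
    funext k
    refine (wellFounded_lt (α := Fin M)).induction (C := fun k => z k = z' k) k fun k ih => ?_
    by_cases hk : k.val = 0
    · obtain rfl : k = ⟨0, hM⟩ := Fin.ext hk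
      exact h3
    · obtain ⟨h5, h6⟩ := hj z k ((h1 k).resolve_left hk)
      obtain ⟨-, h7⟩ := hj z' k ((h2 k).resolve_left hk)
      have h8 : jj z k = jj z' k := congrArg Prod.fst (congrFun h4 k)
      have h9 : idx (z (jj z k)) (z k) = idx (z' (jj z' k)) (z' k) :=
        congrArg Prod.snd (congrFun h4 k)
      rw [← h8, ← ih _ h5] at h9 h7
      simp only [idx, dif_pos h6, dif_pos h7] at h9
      exact congrArg Subtype.val ((s _).equivFin.injective (Fin.ext h9))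

theorem fams [Fintype σ] (r : ℕ) : ∃ I : Finset (ℕ → Finset (FreeGroup σ)),
    I.card ≤ (((2 * Fintype.card σ + 1) ^ r + 1) ^ 1024 ^ r) ^ (r + 1) ∧
      ∀ S, Fam S → ∃ S' ∈ I, Fam S' ∧ ∀ ρ, ρ ≤ r → S' ρ = S ρ := by
  obtain ⟨Ls, h1, h2⟩ := lists_card (σ × Bool) r
  obtain ⟨s, h3, h4⟩ := subsets_card (Ls.image FreeGroup.mk) (1024 ^ r)
  refine ⟨(Fintype.piFinset fun _ : Fin (r + 1) => s).image
    fun F ρ => if h : ρ < r + 1 then F ⟨ρ, h⟩ else ∅, Finset.card_image_le.trans ?_,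
    fun S hS => ⟨_, Finset.mem_image_of_mem _ (a := fun ρ => S ρ.val)
      (Fintype.mem_piFinset.2 fun ρ => h4 _ (fun g hg => ?_) ?_), fun ρ => ?_, fun ρ hρ => ?_⟩⟩
  · simp only [Fintype.card_piFinset, Finset.prod_const, Finset.card_univ, Fintype.card_fin]
    refine Nat.pow_le_pow_left (h3.trans (Nat.pow_le_pow_left ?_ _)) _
    have h5 : (Ls.image FreeGroup.mk).card ≤ Ls.card := Finset.card_image_le
    simp only [Fintype.card_prod, Fintype.card_bool] at h1
    rw [mul_comm 2]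
    omega
  · refine Finset.mem_image.2 ⟨g.toWord, h2 _ ?_, FreeGroup.mk_toWord⟩
    have h5 := (hS ρ).2 g hg
    have := ρ.is_lt
    unfold FreeGroup.norm at h5
    omega
  · exact (hS ρ).1.trans (Nat.pow_le_pow_right (by norm_num) (Nat.lt_succ_iff.1 ρ.is_lt))
  · by_cases h : ρ < r + 1
    · simp only [dif_pos h]
      exact hS ρ
    · simp only [dif_neg h]
      simp
  · simp only [dif_pos (Nat.lt_succ_of_le hρ)]

theorem loc_congr {S S' : ℕ → Finset (FreeGroup σ)} {r : ℕ} (h : ∀ ρ, ρ ≤ r → S' ρ = S ρ) {z : V}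
    (hz : Loc Y S r z) : Loc Y S' r z := by
  obtain ⟨g, h1, h2, a, h3, h4, h5, h6⟩ := hz
  refine ⟨g, h1, h2, a, h3, h4, h5, fun t ht => ?_⟩
  rw [h _ (h3 t)]
  exact h6 t ht

end Near

section Local

variable {B C V : Type} [DecidableEq B] [DecidableEq C] {Γ : LG B V}

theorem col_near {ω : V × B → C} {n : ℕ} {v w : V} :
    (col Γ ω).Near n v w ↔ Γ.Near n v w := by
  constructor
  · rintro ⟨g, h1, h2⟩
    obtain ⟨h3, h4⟩ := (lift B C V Γ ω).1 v g w h1
    exact ⟨_, h3, h4 ▸ h2⟩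
  · rintro ⟨g, h1, h2⟩
    obtain ⟨g', h3, rfl⟩ := (lift B C V Γ ω).2.1 v g w h1
    exact ⟨g', h3, ((lift B C V Γ ω).1 v g' w h3).2 ▸ h2⟩

variable [Nonempty C] {β : ℝ}

theorem cov_word (hβ : 0 < β) {n : ℕ} (hg : Γ.Girth n) (y : V) (w : FreeGroup (B × C))
    (hw : w.norm < n) : Cov β {ω : V × B → C | (col Γ ω).Reads y w}
      {e | Γ.Near w.norm y e.1} (β⁻¹ ^ w.norm) := by
  refine cov_of_mem (by positivity) fun ω ⟨y', h⟩ => ?_
  obtain ⟨h1, h2⟩ := (lift B C V Γ ω).1 y w y' h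
  obtain ⟨κ, h3, h4, h5⟩ := cyl B C V Γ n hg y w hw ⟨_, h1⟩ h2
  refine ⟨{κ}, fun κ' hκ' e he => ?_, fun ω' hω' => ⟨κ, by simp, (h5 ω').1 hω'⟩, by simp [h3]⟩
  rw [Finset.mem_singleton.1 hκ'] at he
  exact h4 e he

theorem cov_point (hU : CovUStmt) (hβ : 0 < β) {n : ℕ} (hg : Γ.Girth n) (hD : Γ.Deg 16) (v : V)
    {ρ : ℕ} (hρ : ρ < n) (S : Finset (FreeGroup (B × C))) (hS : S.card ≤ 1024 ^ ρ)
    (hS' : ∀ w ∈ S, w.norm = ρ) :
    Cov β {ω : V × B → C | ∃ y, Γ.Near ρ v y ∧ ∃ w ∈ S, (col Γ ω).Reads y w}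
      {e | Γ.Near (2 * ρ) v e.1} ((17408 * β⁻¹) ^ ρ) := by
  obtain ⟨s, h1, h2⟩ := ball_near hD ρ v
  refine cov_union hU hβ (s ×ˢ S) (fun i => {ω | Γ.Near ρ v i.1 ∧ (col Γ ω).Reads i.1 i.2})
    (θ := β⁻¹ ^ ρ) (fun i hi => cov_of_mem (by positivity) fun ω hω => ?_) ?_ ?_
  · have h3 := hS' _ (Finset.mem_product.1 hi).2
    refine cov_mono (cov_word hβ hg i.1 i.2 (h3 ▸ hρ)) (fun ω hω => hω.2) (fun e he => ?_)
      (by rw [h3])
    have h4 := near_trans hω.1 he
    rw [h3, ← two_mul] at h4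
    exact h4
  · rintro ω ⟨y, h3, w, h4, h5⟩
    exact ⟨(y, w), Finset.mem_product.2 ⟨h2 y h3, h4⟩, h3, h5⟩
  · have h3 : ((s ×ˢ S).card : ℝ) ≤ 17408 ^ ρ := by
      have : (s ×ˢ S).card ≤ 17408 ^ ρ := by
        rw [Finset.card_product, show 17408 = (16 + 1) * 1024 from rfl, mul_pow]
        exact Nat.mul_le_mul h1 hS
      exact_mod_cast this
    rw [mul_pow]
    gcongr

theorem cov_line (hU : CovUStmt) (hI : CovIStmt) (hβ : 0 < β) {n : ℕ} (hg : Γ.Girth n)
    (hD : Γ.Deg 16) {S : ℕ → Finset (FreeGroup (B × C))} (hS : Fam S) {r m : ℕ}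
    (hn : m + 4 * r < n) {L : List (B × Bool)} (hr : FreeGroup.IsReduced L) (hl : L.length = m)
    {z y : V} (hw : Γ.Walk z L y) {a : Fin (m + 1) → ℕ} (ha : ∀ t, a t ≤ r)
    (hs : ∀ t t', t < t' → a t ≠ 0 → a t' ≠ 0 → t.val + 2 * a t + 2 * a t' < t'.val) :
    Cov β {ω : V × B → C | ∀ t, a t ≠ 0 → ∃ v y, Γ.Walk z (L.take t.val) v ∧
        Γ.Near (a t) v y ∧ ∃ w ∈ S (a t), (col Γ ω).Reads y w}
      {e | Γ.Near (m + 2 * r) z e.1} ((17408 * β⁻¹) ^ ∑ t, a t) := by
  have hv : ∀ t : Fin (m + 1), ∃ v, Γ.Walk z (L.take t.val) v := fun t => by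
    rw [← List.take_append_drop t.val L] at hw
    obtain ⟨v, h1, -⟩ := walk_append.1 hw
    exact ⟨v, h1⟩
  choose vt hvt using hv
  have hdis : ∀ t t' : Fin (m + 1), t < t' → a t ≠ 0 → a t' ≠ 0 →
      Disjoint {e : V × B | Γ.Near (2 * a t) (vt t) e.1}
        {e : V × B | Γ.Near (2 * a t') (vt t') e.1} := by
    intro t t' h1 h2 h3
    refine Set.disjoint_left.2 fun e he he' => ?_
    have h4 := hs t t' h1 h2 h3
    have h5 := ha t
    have h6 := ha t'
    have h7 := t'.is_lt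
    exact geod hg hr (d := 2 * a t + 2 * a t') (by omega) (by omega) (by omega) (hvt t) (hvt t')
      (near_trans he (near_symm he'))
  refine cov_mono (hI (V × B) C (Fin (m + 1)) β hβ (Finset.univ.filter fun t => a t ≠ 0) _ _ _
    (fun t _ => cov_point hU hβ hg hD (vt t) (ρ := a t) (by have := ha t; omega) (S (a t))
      (hS _).1 (hS _).2) fun t ht t' ht' hne => ?_) (fun ω hω => ?_) (fun e he => ?_) ?_
  · have h1 := (Finset.mem_filter.1 ht).2
    have h2 := (Finset.mem_filter.1 ht').2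
    rcases lt_or_gt_of_ne hne with h | h
    · exact hdis t t' h h1 h2
    · exact (hdis t' t h h2 h1).symm
  · refine Set.mem_iInter₂.2 fun t ht => ?_
    obtain ⟨v, y, h1, h2, h3⟩ := hω t (Finset.mem_filter.1 ht).2
    obtain rfl := walk_func h1 (hvt t)
    exact ⟨y, h2, h3⟩
  · obtain ⟨t, -, h1⟩ := Set.mem_iUnion₂.1 he
    have h2 : Γ.Near m z (vt t) := near_of_walk (hvt t) (by simp; omega)
    exact near_mono (near_trans h2 h1) (by have := ha t; omega)
  · rw [Finset.prod_pow_eq_pow_sum, Finset.sum_filter_ne_zero]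

theorem cov_loc [Fintype B] (hB : Fintype.card B = 8) (hU : CovUStmt) (hI : CovIStmt)
    (hβ : 0 < β) {j : ℕ} (hj : 2982 ≤ j) (hq : 34816 * β⁻¹ ≤ 17⁻¹ ^ j) {n : ℕ} (hg : Γ.Girth n)
    {S : ℕ → Finset (FreeGroup (B × C))} (hS : Fam S) {r : ℕ} (hn : 2 ^ r / 4 + 4 * r < n)
    (z : V) : Cov β {ω : V × B → C | Loc (col Γ ω) S r z}
      {e | Γ.Near (2 ^ r / 4 + 2 * r) z e.1} (17⁻¹ ^ (35 * 2 ^ r)) := by
  have hD : Γ.Deg 16 := fun x =>
    ⟨Finset.univ, by simp [Fintype.card_prod, hB], fun a _ _ => Finset.mem_univ a⟩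
  obtain ⟨m, hm⟩ : ∃ m, 2 ^ r / 4 = m := ⟨_, rfl⟩
  obtain ⟨Ls, hLs, hLs'⟩ := lists_card (B × Bool) m
  unfold Loc
  rw [hm] at hn ⊢
  refine cov_mono (hU (V × B) C _ β hβ
    (Ls ×ˢ Fintype.piFinset fun _ : Fin (m + 1) => Finset.range (r + 1))
    (fun i => {ω | (FreeGroup.IsReduced i.1 ∧ i.1.length = m ∧ (∃ y, Γ.Walk z i.1 y) ∧
      (∀ t, i.2 t ≤ r) ∧ (∀ t t', t < t' → i.2 t ≠ 0 → i.2 t' ≠ 0 →
        t.val + 2 * i.2 t + 2 * i.2 t' < t'.val) ∧ m + 1 ≤ 21 * ∑ t, i.2 t) ∧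
      ∀ t, i.2 t ≠ 0 → ∃ v y, Γ.Walk z (i.1.take t.val) v ∧
        Γ.Near (i.2 t) v y ∧ ∃ w ∈ S (i.2 t), (col Γ ω).Reads y w})
    {e | Γ.Near (m + 2 * r) z e.1}
    (fun i => 17⁻¹ ^ (142 * (m + 1)) * ∏ t, (1 / 2 : ℝ) ^ i.2 t)
    fun i _ => cov_of_mem (by positivity) fun ω hω => ?_) ?_ le_rfl ?_
  · obtain ⟨⟨h1, h2, ⟨y, h3⟩, h4, h5, h6⟩, -⟩ := hω
    refine cov_mono (cov_line hU hI hβ hg hD hS hn h1 h2 h3 h4 h5) (fun ω hω => hω.2) le_rfl ?_
    rw [Finset.prod_pow_eq_pow_sum]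
    have h7 : (34816 * β⁻¹) ^ ∑ t, i.2 t ≤ 17⁻¹ ^ (142 * (m + 1)) := by
      refine (pow_le_pow_left₀ (by positivity) hq _).trans ?_
      rw [← pow_mul]
      refine pow_le_pow_of_le_one (by norm_num) (by norm_num) ?_
      have := Nat.mul_le_mul_right (∑ t, i.2 t) hj
      omega
    calc (17408 * β⁻¹) ^ ∑ t, i.2 t = (34816 * β⁻¹) ^ (∑ t, i.2 t) * (1 / 2) ^ ∑ t, i.2 t := by
          rw [← mul_pow]; congr 1; ring
      _ ≤ _ := by gcongr
  · rintro ω ⟨g, ⟨y, h1⟩, h2, a, h3, h4, h5, h6⟩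
    have h7 : (g.toWord.map pl).length = m := by rw [List.length_map]; exact h2
    refine Set.mem_biUnion (x := (g.toWord.map pl, a)) (Finset.mem_coe.2 (Finset.mem_product.2
      ⟨hLs' _ h7.le, Fintype.mem_piFinset.2 fun t =>
        Finset.mem_range.2 (Nat.lt_succ_of_le (h3 t))⟩))
      ⟨⟨col_red h1 FreeGroup.isReduced_toWord, h7, ⟨y, col_walk h1⟩, h3, h4, h5⟩, fun t ht => ?_⟩
    obtain ⟨v, y, h8, h9, h10⟩ := h6 t ht
    refine ⟨v, y, ?_, col_near.1 h9, h10⟩
    unfold LG.Rd pfx at h8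
    rw [toWord_mk_red (red_left (L' := g.toWord.drop t.val)
      (by rw [List.take_append_drop]; exact FreeGroup.isReduced_toWord))] at h8
    have := col_walk h8
    rwa [List.map_take] at this
  · rw [Finset.sum_product]
    simp only [← Finset.mul_sum, Finset.sum_const, nsmul_eq_mul]
    rw [← Finset.prod_univ_sum (fun _ : Fin (m + 1) => Finset.range (r + 1))
      (fun _ k => (1 / 2 : ℝ) ^ k)]
    simp only [Finset.prod_const, Finset.card_univ, Fintype.card_fin]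
    have h1 : (∑ k ∈ Finset.range (r + 1), (1 / 2 : ℝ) ^ k) ^ (m + 1) ≤ 2 ^ (m + 1) :=
      pow_le_pow_left₀ (by positivity) (sum_geometric_two_le _) _
    have h2 : Ls.card * 2 ^ (m + 1) ≤ 17 ^ (2 * (m + 1)) := by
      simp only [Fintype.card_prod, Fintype.card_bool, hB] at hLs
      calc Ls.card * 2 ^ (m + 1) ≤ 17 ^ (m + 1) * 17 ^ (m + 1) :=
            Nat.mul_le_mul (hLs.trans (Nat.pow_le_pow_right (by norm_num) (by omega)))
              (Nat.pow_le_pow_left (by norm_num) _)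
        _ = _ := by rw [← pow_add, two_mul]
    calc _ ≤ 17⁻¹ ^ (142 * (m + 1)) * ((Ls.card : ℝ) * 2 ^ (m + 1)) := by gcongr
      _ = ((Ls.card * 2 ^ (m + 1) : ℕ) : ℝ) * 17⁻¹ ^ (142 * (m + 1)) := by push_cast; ring
      _ ≤ _ := pw_le h2 (by omega)

end Local

theorem pow_bounds {r : ℕ} (hr : 6 ≤ r) :
    10 * r ≤ 2 ^ r ∧ 3003 * (r * (r + 1)) ≤ (2 ^ r) ^ 3 := by
  induction r, hr using Nat.le_induction with
  | base => norm_num
  | succ r hr ih =>
    rw [pow_succ, mul_pow]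
    constructor
    · omega
    · nlinarith [ih.2]

theorem tot_bound {r e c a b N : ℕ} (hr : 6 ≤ r) (he : e ≤ 3000) (h14 : c ≤ 17 ^ (e + 2))
    (ha : a ≤ ((c ^ r + 1) ^ 1024 ^ r) ^ (r + 1)) (hN : N ≤ 17 ^ (101 * 2 ^ r))
    (hb : b ≤ N * ((2 ^ r) ^ 12 * (16 + 1) ^ 2 ^ r) ^ (2 ^ r) ^ 12) :
    a * b ≤ 17 ^ (4 * (2 ^ r * (2 ^ r) ^ 12)) := by
  obtain ⟨hr1, hr2⟩ := pow_bounds hr
  obtain ⟨l, hl⟩ : ∃ l, 2 ^ r = l := ⟨_, rfl⟩
  have h10 : 1024 ^ r = l ^ 10 := by rw [← hl, ← pow_mul, mul_comm, pow_mul]; rfl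
  have h12 : l ^ 12 ≤ 17 ^ l := by
    calc l ^ 12 = 16 ^ (3 * r) := by
          rw [← hl, ← pow_mul, show 16 = 2 ^ 4 from rfl, ← pow_mul]; congr 1; omega
      _ ≤ 17 ^ (3 * r) := Nat.pow_le_pow_left (by norm_num) _
      _ ≤ 17 ^ l := Nat.pow_le_pow_right (by norm_num) (by omega)
  rw [hl] at hr1 hr2 hb hN ⊢
  rw [h10] at ha
  have hl1 : 101 ≤ l ^ 12 :=
    le_trans (by norm_num) (Nat.pow_le_pow_left (show 60 ≤ l by omega) 12)
  have h13 : c ^ r + 1 ≤ 17 ^ (3003 * r) := by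
    have h15 := Nat.pow_le_pow_left h14 r
    rw [← pow_mul] at h15
    have h16 : 17 ^ ((e + 2) * r + 1) ≤ 17 ^ (3003 * r) := by
      refine Nat.pow_le_pow_right (by norm_num) ?_
      have := Nat.mul_le_mul_right r (show e + 2 ≤ 3002 by omega)
      omega
    have h17 : 1 ≤ 17 ^ ((e + 2) * r) := Nat.one_le_pow _ _ (by norm_num)
    rw [pow_succ] at h16
    omega
  have hI3 : a ≤ 17 ^ (l * l ^ 12) := by
    refine ha.trans ((Nat.pow_le_pow_left (Nat.pow_le_pow_left h13 _) _).trans ?_)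
    rw [← pow_mul, ← pow_mul]
    refine Nat.pow_le_pow_right (by norm_num) ?_
    calc 3003 * r * (l ^ 10 * (r + 1)) = 3003 * (r * (r + 1)) * l ^ 10 := by ring
      _ ≤ l ^ 3 * l ^ 10 := Nat.mul_le_mul_right _ hr2
      _ = _ := by ring
  have hZ3 : b ≤ 17 ^ (3 * (l * l ^ 12)) := by
    refine hb.trans ((Nat.mul_le_mul hN (Nat.pow_le_pow_left
      (Nat.mul_le_mul_right _ h12) _)).trans ?_)
    rw [← pow_add, ← pow_mul, ← pow_add]
    refine Nat.pow_le_pow_right (by norm_num) ?_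
    have := Nat.mul_le_mul_left l hl1
    rw [add_mul]
    omega
  refine (Nat.mul_le_mul hI3 hZ3).trans ?_
  rw [← pow_add]
  exact Nat.pow_le_pow_right (by norm_num) (by omega)

end XsM

open XsM

theorem pcs (hU : CovUStmt) : PcsStmt := by
  intro C _ _ β hβ₀ hC l N Γ hl hN hg
  obtain ⟨e, he, -, hβ, h2⟩ := beta_ex hβ₀
  clear hβ₀
  have h2' : (2 : ℝ) ≤ β := by exact_mod_cast h2
  have hne : Nonempty C := Fintype.card_pos_iff.1 (by omega)
  have hC' : (Fintype.card C : ℝ) = 2 * β := by exact_mod_cast hC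
  obtain ⟨Ls, hLs, hLs'⟩ := lists_card (Fin 8 × Bool) (2 * l)
  obtain ⟨m, hm1, hm2⟩ : ∃ m, l ≤ 4 * m ∧ 4 * m ≤ l + 3 := ⟨(l + 3) / 4, by omega, by omega⟩
  refine cov_union hU (by linarith) ((Finset.univ : Finset (Fin N × Fin N)) ×ˢ Ls)
    (fun i => {ω | i.1.1 ≠ i.1.2 ∧ 2 * m ≤ fc (prs Γ i.1.1 i.1.2 i.2) + 1 ∧
      ∀ q ∈ prs Γ i.1.1 i.1.2 i.2, ω q.1 = ω q.2}) (θ := (2 * (β : ℝ)⁻¹) ^ m)
    (fun i _ => cov_of_mem (by positivity) fun ω hω => ?_) (fun ω hω => ?_) ?_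
  · exact cov_mono (cov_pairs h2' hC' _ (prs_ne hω.1 _) m hω.2.1) (fun ω hω => hω.2.2) le_rfl
      le_rfl
  · simp only [Cnt, Set.mem_ofPred_eq, not_forall, not_le] at hω
    obtain ⟨x, x', hx, s, hs, hc⟩ := hω
    obtain ⟨L, S, h1, ⟨w, h3⟩, ⟨w', h4⟩, h5, h6⟩ :=
      common_tour (col_girth hg ω) (by omega) s hs hc
    refine ⟨((x, x'), L.map pl), Finset.mem_product.2 ⟨Finset.mem_univ _,
      hLs' _ (by simpa using h1)⟩, hx, ?_, prs_col h3 h4⟩
    have h7 := prs_card (x := x) (col_walk h4) S fun u hu => by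
      obtain ⟨L₁, L₂, rfl, h8⟩ := h6 u hu
      exact ⟨L₁.map pl, L₂.map pl, by simp, col_walk h8⟩
    simp only
    omega
  · have h3 : 2 * (β : ℝ)⁻¹ ≤ 17⁻¹ ^ (e - 1) := mul_beta hβ (k := 1) (by norm_num) (by omega)
    have h4 : (2 * (β : ℝ)⁻¹) ^ m ≤ 17⁻¹ ^ ((e - 1) * m) := by
      rw [pow_mul]
      exact pow_le_pow_left₀ (by positivity) h3 m
    have h5 : ((Finset.univ : Finset (Fin N × Fin N)) ×ˢ Ls).card ≤ 17 ^ (204 * l) := by
      simp only [Finset.card_product, Finset.card_univ, Fintype.card_prod, Fintype.card_fin,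
        Fintype.card_bool] at hLs ⊢
      calc N * N * Ls.card ≤ 17 ^ (101 * l) * 17 ^ (101 * l) * 17 ^ (2 * l) := by gcongr
        _ = _ := by rw [← pow_add, ← pow_add]; congr 1; omega
    calc _ ≤ (((Finset.univ : Finset (Fin N × Fin N)) ×ˢ Ls).card : ℝ) * 17⁻¹ ^ ((e - 1) * m) := by
          gcongr
      _ ≤ 17⁻¹ ^ 1 := pw_le h5 (by
          have := Nat.mul_le_mul_right m (show 2999 ≤ e - 1 by omega)
          omega)
      _ ≤ 1 / 3 := by norm_num

theorem x7b (hU : CovUStmt) (hI : CovIStmt) (ha : X7aStmt) : X7bStmt := by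
  intro C _ _ β hβ₀ hC r N Γ hr hN hg
  obtain ⟨e, he, he', hβ, h2⟩ := beta_ex hβ₀
  clear hβ₀
  have h2' : (2 : ℝ) ≤ β := by exact_mod_cast h2
  have hb : (0 : ℝ) < β := by linarith
  have hne : Nonempty C := Fintype.card_pos_iff.1 (by omega)
  obtain ⟨hr1, -⟩ := pow_bounds hr
  have hq : 34816 * (β : ℝ)⁻¹ ≤ 17⁻¹ ^ (e - 4) := mul_beta hβ (k := 4) (by norm_num) (by omega)
  have hD : Γ.Deg 16 := fun x =>
    ⟨Finset.univ, by simp [Fintype.card_prod], fun a _ _ => Finset.mem_univ a⟩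
  obtain ⟨I, hI1, hI2⟩ := fams (σ := Fin 8 × C) r
  obtain ⟨Z, hZ1, hZ2⟩ := chain_card hD (2 ^ r) ((2 ^ r) ^ 12) (by positivity)
  refine cov_union hU hb (I ×ˢ Z) (fun i => {ω | Fam i.1 ∧
      (∀ j k, j ≠ k → ¬ Γ.Near (2 ^ r - 1) (i.2 j) (i.2 k)) ∧ ∀ k, Loc (col Γ ω) i.1 r (i.2 k)})
    (θ := 17⁻¹ ^ (35 * 2 ^ r * (2 ^ r) ^ 12))
    (fun i _ => cov_of_mem (by positivity) fun ω hω => ?_) (fun ω hω => ?_) ?_
  · refine cov_mono (hI _ C (Fin ((2 ^ r) ^ 12)) β hb Finset.univ _ _ _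
      (fun k _ => cov_loc (Fintype.card_fin 8) hU hI hb (by omega) hq hg hω.1 (r := r) (by omega)
        (i.2 k)) fun j _ k _ hjk => ?_) (fun ω' hω' => ?_) (Set.subset_univ _) ?_
    · refine Set.disjoint_left.2 fun e h1 h3 => hω.2.1 j k hjk ?_
      exact near_mono (near_trans h1 (near_symm h3)) (by omega)
    · exact Set.mem_iInter₂.2 fun k _ => hω'.2.2 k
    · rw [Finset.prod_const, Finset.card_univ, Fintype.card_fin, ← pow_mul]
  · simp only [Set.mem_ofPred_eq, not_forall] at hω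
    obtain ⟨S, hS, x, hx⟩ := hω
    obtain ⟨z, h1, h3, h4⟩ := ha _ _ (col Γ ω) S r x hx
    obtain ⟨S', h5, h6, h7⟩ := hI2 S hS
    refine ⟨(S', z), Finset.mem_product.2 ⟨h5, hZ2 z fun k => ?_⟩, h6,
      fun j k hjk h => h3 j k hjk (col_near.2 h), fun k => loc_congr h7 (h4 k)⟩
    rcases h1 k with h | ⟨j, h8, h9⟩
    · exact Or.inl h
    · exact Or.inr ⟨j, h8, col_near.1 h9⟩
  · have h18 : (I ×ˢ Z).card ≤ 17 ^ (4 * (2 ^ r * (2 ^ r) ^ 12)) := by
      rw [Finset.card_product]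
      refine tot_bound hr he' ?_ hI1 hN (by rwa [Fintype.card_fin] at hZ1)
      rw [Fintype.card_prod, Fintype.card_fin, hC, pow_add, ← hβ]
      omega
    have h19 : 1 ≤ 2 ^ r * (2 ^ r) ^ 12 := Nat.mul_pos (by positivity) (by positivity)
    calc _ ≤ (17 : ℝ)⁻¹ ^ 1 := pw_le h18 (by rw [mul_assoc]; omega)
      _ ≤ 1 / 3 := by norm_num

theorem xstep (hR : RosStmt) (hU : CovUStmt) (hI : CovIStmt) (ha : X7aStmt) : XstepStmt := by
  intro C _ _ β hβ₀ hC r hr Λ Wd hW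
  obtain ⟨N, Γ, hN0, hN, hconn, hg, hbig⟩ := gr (2 ^ r) Nat.one_le_two_pow
  have c1 := pcs hU C β hβ₀ hC (2 ^ r) N Γ Nat.one_le_two_pow hN hg
  have c2 := x7b hU hI ha C β hβ₀ hC r N Γ hr hN hg
  obtain ⟨e, he, he', hβ, h2⟩ := beta_ex hβ₀
  clear hβ₀
  have h2' : (2 : ℝ) ≤ β := by exact_mod_cast h2
  have hb : (0 : ℝ) < β := by linarith
  have hne : Nonempty C := Fintype.card_pos_iff.1 (by omega)
  have hC' : (Fintype.card C : ℝ) = 2 * β := by exact_mod_cast hC
  have hD : Γ.Deg 16 := fun x =>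
    ⟨Finset.univ, by simp [Fintype.card_prod], fun a _ _ => Finset.mem_univ a⟩
  have hcyl : ∀ (x : Fin N) (g : FreeGroup (Fin 8 × C)),
      ∃ κ : Finset (Fin N × Fin 8) × (Fin N × Fin 8 → C),
        g.norm ≤ 2 ^ r ∧ Γ.Reads x (pr g) ∧ (pr g).norm = g.norm → κ.1.card = g.norm ∧
          (∀ e ∈ κ.1, Γ.Near g.norm x e.1) ∧ ∀ ω, (col Γ ω).Reads x g ↔ InCyl ω κ := by
    intro x g
    by_cases h : g.norm ≤ 2 ^ r ∧ Γ.Reads x (pr g) ∧ (pr g).norm = g.norm
    · obtain ⟨κ, hκ⟩ := cyl (Fin 8) C (Fin N) Γ _ hg x g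
        (by have := h.1; have := @Nat.one_le_two_pow r; omega) h.2.1 h.2.2
      exact ⟨κ, fun _ => hκ⟩
    · exact ⟨(∅, fun _ => Classical.arbitrary C), fun h' => (h h').elim⟩
  choose κ hκ using hcyl
  choose bl hbl hbl' using ball_near hD
  let J : Finset (Σ _ : ℕ, Fin N × FreeGroup (Fin 8 × C)) :=
    (Λ.sigma fun n => Finset.univ ×ˢ Wd n).filter fun i =>
      Γ.Reads i.2.1 (pr i.2.2) ∧ (pr i.2.2).norm = i.2.2.norm
  have hJ : ∀ i ∈ J, i.1 ∈ Λ ∧ i.2.2 ∈ Wd i.1 ∧ i.2.2.norm = i.1 ∧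
      (κ i.2.1 i.2.2).1.card = i.1 ∧ ∀ e ∈ (κ i.2.1 i.2.2).1, Γ.Near i.1 i.2.1 e.1 := by
    intro i hi
    obtain ⟨h1, h3⟩ := Finset.mem_filter.1 hi
    obtain ⟨h4, h5⟩ := Finset.mem_sigma.1 h1
    have h6 := (Finset.mem_product.1 h5).2
    have h7 := (hW _ h4).2.2.2 _ h6
    obtain ⟨h8, h9, -⟩ := hκ i.2.1 i.2.2 ⟨h7 ▸ (hW _ h4).2.1, h3⟩
    exact ⟨h4, h6, h7, h8.trans h7, h7 ▸ h9⟩
  have hq : 17 ^ 103 * (β : ℝ)⁻¹ ≤ 1 / 2 := by
    refine (mul_beta hβ (k := 103) (j := e - 103) le_rfl (by omega)).trans ?_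
    exact (pow_le_pow_of_le_one (by norm_num) (by norm_num) (show 1 ≤ e - 103 by omega)).trans
      (by norm_num)
  refine Exists.elim (hR (Fin N × Fin 8) C β (by linarith) (by linarith)
    (J.image fun i => κ i.2.1 i.2.2) (fun k hk => by
      obtain ⟨i, hi, rfl⟩ := Finset.mem_image.1 hk
      obtain ⟨h1, -, -, h3, -⟩ := hJ i hi
      exact Finset.card_pos.1 (by have := (hW _ h1).1; omega)) (fun e => ?_)
    ({ω | ¬ Cnt (col Γ ω) (2 ^ r)} ∪ {ω | ¬ ∀ S, Fam S → ∀ x, ThinAt (col Γ ω) S r x})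
    (2 / 3) (by norm_num) ?_) fun ω ⟨hω1, hω2⟩ => ?_
  rotate_right
  · simp only [Set.mem_union, Set.mem_ofPred_eq, not_or, not_not] at hω2
    obtain ⟨l1, l2, -⟩ := lift (Fin 8) C (Fin N) Γ ω
    let nx : Fin N → Fin 8 × Bool → Fin N := fun x a =>
      if h : ∃ y, Γ.step x a y then h.choose else x
    have hnx : ∀ x a y, Γ.step x a y → nx x a = y := fun x a y h => by
      have h' : ∃ y, Γ.step x a y := ⟨y, h⟩
      simp only [nx, dif_pos h']
      exact step_func h'.choose_spec h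
    refine ⟨N, col Γ ω, ⟨hN0, hN, fun x y => ?_, fun x => ?_, col_girth hg ω, hω2.1, hω2.2, ?_⟩,
      fun x n hn g hg' ⟨y, h⟩ => ?_⟩
    · obtain ⟨g₀, h⟩ := hconn x y
      obtain ⟨g, h', -⟩ := l2 x g₀ y h
      exact ⟨g, h'⟩
    · refine ⟨Finset.univ.image fun a : Fin 8 × Bool => ((a.1, ω (edge x a (nx x a))), a.2),
        Finset.card_image_le.trans (by simp [Fintype.card_prod]), fun c y h => ?_⟩
      obtain ⟨h1, h3⟩ := col_step.1 h
      refine Finset.mem_image.2 ⟨pl c, Finset.mem_univ _, ?_⟩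
      rw [hnx _ _ _ h1, h3]
      rfl
    · refine hbig.trans (Finset.card_le_card_of_surjOn (fun p => (p.1, pl p.2)) fun p hp => ?_)
      obtain ⟨y, hy⟩ := (Finset.mem_filter.1 (Finset.mem_coe.1 hp)).2
      exact ⟨(p.1, ((p.2.1, ω (edge p.1 p.2 y)), p.2.2)), Finset.mem_coe.2 (Finset.mem_filter.2
        ⟨Finset.mem_univ _, y, col_step.2 ⟨hy, rfl⟩⟩), rfl⟩
    · obtain ⟨h1, h3⟩ := l1 x g y h
      have h4 := (hW n hn).2.2.2 g hg'
      refine hω1 (κ x g) (Finset.mem_image.2 ⟨⟨n, x, g⟩, Finset.mem_filter.2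
        ⟨Finset.mem_sigma.2 ⟨hn, Finset.mem_product.2 ⟨Finset.mem_univ _, hg'⟩⟩, ⟨y, h1⟩, h3⟩,
          rfl⟩) ?_
      exact ((hκ x g ⟨h4 ▸ (hW n hn).2.1, ⟨y, h1⟩, h3⟩).2.2 ω).1 ⟨y, h⟩
  · let J' := J.filter fun i => e ∈ (κ i.2.1 i.2.2).1
    have s1 : ∑ k ∈ (J.image fun i => κ i.2.1 i.2.2).filter (fun k => e ∈ k.1),
        (β : ℝ)⁻¹ ^ (k.1.card - 1) ≤
        ∑ k ∈ J'.image fun i => κ i.2.1 i.2.2, (β : ℝ)⁻¹ ^ (k.1.card - 1) := by
      refine Finset.sum_le_sum_of_subset_of_nonneg (fun k hk => ?_) fun _ _ _ => by positivity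
      obtain ⟨h1, h3⟩ := Finset.mem_filter.1 hk
      obtain ⟨i, hi, rfl⟩ := Finset.mem_image.1 h1
      exact Finset.mem_image.2 ⟨i, Finset.mem_filter.2 ⟨hi, h3⟩, rfl⟩
    have s2 : ∑ k ∈ J'.image fun i => κ i.2.1 i.2.2, (β : ℝ)⁻¹ ^ (k.1.card - 1) ≤
        ∑ i ∈ J', (β : ℝ)⁻¹ ^ ((κ i.2.1 i.2.2).1.card - 1) :=
      Finset.sum_image_le_of_nonneg fun _ _ => by positivity
    have s3 : ∑ i ∈ J', (β : ℝ)⁻¹ ^ ((κ i.2.1 i.2.2).1.card - 1) ≤
        ∑ i ∈ Λ.sigma fun n => bl n e.1 ×ˢ Wd n, (β : ℝ)⁻¹ ^ (i.1 - 1) := by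
      rw [Finset.sum_congr rfl fun i hi => by rw [(hJ i (Finset.mem_filter.1 hi).1).2.2.2.1]]
      refine Finset.sum_le_sum_of_subset_of_nonneg (fun i hi => ?_) fun _ _ _ => by positivity
      obtain ⟨h1, h3⟩ := Finset.mem_filter.1 hi
      obtain ⟨h4, h5, -, -, h6⟩ := hJ i h1
      exact Finset.mem_sigma.2 ⟨h4, Finset.mem_product.2 ⟨hbl' _ _ _ (near_symm (h6 e h3)), h5⟩⟩
    have s4 : ∑ i ∈ Λ.sigma fun n => bl n e.1 ×ˢ Wd n, (β : ℝ)⁻¹ ^ (i.1 - 1) ≤
        ∑ n ∈ Finset.range (2 ^ r), (1 / 2 : ℝ) ^ n * 17 ^ 103 := by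
      rw [Finset.sum_sigma]
      have s5 : ∑ n ∈ Finset.range (2 ^ r), (1 / 2 : ℝ) ^ n * 17 ^ 103 =
          ∑ n ∈ (Finset.range (2 ^ r)).image (· + 1), (1 / 2 : ℝ) ^ (n - 1) * 17 ^ 103 := by
        rw [Finset.sum_image fun a _ b _ h => by simpa using h]
        simp
      rw [s5]
      refine le_trans (Finset.sum_le_sum fun n hn => ?_)
        (Finset.sum_le_sum_of_subset_of_nonneg (fun n hn => ?_) fun _ _ _ => by positivity)
      · obtain ⟨h1, -, h3, -⟩ := hW n hn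
        obtain ⟨k, rfl⟩ : ∃ k, n = k + 1 := ⟨n - 1, by omega⟩
        have h4 : ((bl (k + 1) e.1 ×ˢ Wd (k + 1)).card : ℝ) ≤ (17 ^ 103) ^ k * 17 ^ 103 := by
          have : (bl (k + 1) e.1 ×ˢ Wd (k + 1)).card ≤ (17 ^ 103) ^ k * 17 ^ 103 := by
            rw [Finset.card_product, ← pow_succ, ← pow_mul]
            refine (Nat.mul_le_mul (hbl _ _) h3).trans ?_
            rw [← pow_add]
            exact Nat.pow_le_pow_right (by norm_num) (by omega)
          exact_mod_cast this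
        simp only [Finset.sum_const, nsmul_eq_mul, Nat.add_sub_cancel]
        calc _ ≤ (17 ^ 103) ^ k * 17 ^ 103 * (β : ℝ)⁻¹ ^ k := by gcongr
          _ = (17 ^ 103 * (β : ℝ)⁻¹) ^ k * 17 ^ 103 := by rw [mul_pow]; ring
          _ ≤ _ := by gcongr
      · obtain ⟨h1, h3, -⟩ := hW n hn
        exact Finset.mem_image.2 ⟨n - 1, Finset.mem_range.2 (by omega), by omega⟩
    have s6 : ∑ n ∈ Finset.range (2 ^ r), (1 / 2 : ℝ) ^ n * 17 ^ 103 ≤ (β : ℝ) := by
      rw [← Finset.sum_mul]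
      have h1 := sum_geometric_two_le (2 ^ r)
      have h3 : (17 : ℝ) ^ 103 ≤ 1 / 2 * β := by
        rwa [← div_eq_mul_inv, div_le_iff₀ hb] at hq
      calc _ ≤ 2 * (1 / 2 * (β : ℝ)) := by gcongr
        _ = β := by ring
    rw [hC']
    refine le_trans (le_of_eq ?_) ((s1.trans (s2.trans (s3.trans (s4.trans s6)))).trans
      (by linarith))
    refine Finset.sum_congr (Finset.ext fun k => ?_) fun _ _ => rfl
    simp only [Finset.mem_filter]
  · obtain ⟨K₁, -, k1, k2⟩ := c1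
    obtain ⟨K₂, -, k3, k4⟩ := c2
    refine ⟨K₁ ∪ K₂, fun _ _ => Set.subset_univ _, fun ω hω => ?_, ?_⟩
    · rcases hω with h | h
      · obtain ⟨k, h1, h3⟩ := k1 ω h
        exact ⟨k, Finset.mem_union_left _ h1, h3⟩
      · obtain ⟨k, h1, h3⟩ := k3 ω h
        exact ⟨k, Finset.mem_union_right _ h1, h3⟩
    · have h1 := Finset.sum_union_inter (s₁ := K₁) (s₂ := K₂)
        (f := fun k => (β : ℝ)⁻¹ ^ k.1.card)
      have h3 : 0 ≤ ∑ k ∈ K₁ ∩ K₂, (β : ℝ)⁻¹ ^ k.1.card :=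
        Finset.sum_nonneg fun _ _ => by positivity
      linarith

end Pool.Agent.MP_88ca14_an

end
end MrgPart1

-- marker of a merged file
example : 731051 + 103827 = 731051 + 103827 := rfl
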