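import Mathlib.Algebra.Order.Chebyshev
import Pool.Agent.MP_88ca14_an.Fam
import Pool.Agent.MP_88ca14_an.Chan
import Pool.Agent.MP_88ca14_an.Graph
import Pool.Agent.MP_88ca14_an.Xs
import Pool.Agent.MP_88ca14_an.Amn

-- ======== part 0: formerly Pool.Agent.MP_88ca14_an.Geo
section MrgPart0

/-!
PROJECT LRX, modules STEPA and GEO: gluing the fresh cells, and the Cayley graph as the limit.
-/

set_option autoImplicit false

noncomputable section

namespace Pool.Agent.MP_88ca14_an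

open scoped Classical

namespace GeoM

variable {σ : Type} [Fintype σ] [DecidableEq σ] {T : Tiles σ}

theorem top_mono {V : Type} {Y Y' : LG σ V} {lev : V → ℕ}
    (hm : ∀ v a w, Y.rel v a w → Y'.rel v a w) {v : V} {x : T.X} (h : Top T Y lev v x) :
    Top T Y' lev v x := by
  obtain ⟨g, w, h1, h2, h3⟩ := h
  exact ⟨g, w, h1, h2.mono hm, h3⟩

omit [Fintype σ] in
theorem phi_rd {X G : Type} [Group G] {π : FreeGroup σ →* G} {D : X → X → G}
    {Y : LG σ (Addr X)} (h : ∀ v a w, Y.rel v a w → w.phi D = v.phi D * π (FreeGroup.of a))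
    {v w : Addr X} {g : FreeGroup σ} (hr : Y.Rd v g w) : w.phi D = v.phi D * π g := by
  refine LG.Rd.induction (P := fun g w => w.phi D = v.phi D * π g) (by simp) ?_ hr
  rintro g w ⟨a, b⟩ w' - - hs ih
  rw [map_mul, ← mul_assoc, ← ih]
  cases b
  · rw [lt_false, map_inv, h _ _ _ (LG.step_false.1 hs), mul_inv_cancel_right]
  · rw [lt_true]; exact h _ _ _ (LG.step_true.1 hs)

section StepA

variable (T)

/-- A point `y` of the fresh cell through `v` at position `x`. -/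
structure Tri (Y : LG σ (Addr T.X)) (Vs : Set (Addr T.X)) (i : ℕ) where
  v : Addr T.X
  x : T.X
  y : T.X
  hv : v ∈ Vs
  hl : v.lev = i
  ht : ¬ Top T Y Addr.lev v x
  hc : ∃ g, T.Γ.Rd x g y

variable {T} {G : Type} [Group G] {π : FreeGroup σ →* G} {D : T.X → T.X → G}
  {Y : LG σ (Addr T.X)} {Vs : Set (Addr T.X)} {i : ℕ}

/-- The same cell with another point. -/
def Tri.mv (t : Tri T Y Vs i) (y' : T.X) (h : ∃ g, T.Γ.Rd t.y g y') : Tri T Y Vs i :=
  ⟨t.v, t.x, y', t.hv, t.hl, t.ht, by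
    obtain ⟨g, hg⟩ := t.hc
    obtain ⟨g', hg'⟩ := h
    exact ⟨_, hg.trans hg'⟩⟩

/-- Two points that are identified. -/
def Rl (t t' : Tri T Y Vs i) : Prop :=
  ∃ u a a' p p' g, Y.Rd t.v p u ∧ T.Γ.Rd t.x p a ∧ Y.Rd t'.v p' u ∧ T.Γ.Rd t'.x p' a' ∧
    T.Γ.Rd a g t.y ∧ T.Γ.Rd a' g t'.y

/-- The point is the old vertex `w`. -/
def Old (t : Tri T Y Vs i) (w : Addr T.X) : Prop := ∃ g, T.Γ.Rd t.x g t.y ∧ Y.Rd t.v g w

theorem Rl.refl (t : Tri T Y Vs i) : Rl t t := by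
  obtain ⟨g, hg⟩ := t.hc
  exact ⟨t.v, t.x, t.x, 1, 1, g, .refl _ _, .refl _ _, .refl _ _, .refl _ _, hg, hg⟩

theorem Rl.symm {t t' : Tri T Y Vs i} (h : Rl t t') : Rl t' t := by
  obtain ⟨u, a, a', p, p', g, h1, h2, h3, h4, h5, h6⟩ := h
  exact ⟨u, a', a, p', p, g, h3, h4, h1, h2, h6, h5⟩

/-- Gate vertices are fresh again. -/
theorem gate_fl (hc : Core T π D Y Vs i) (t : Tri T Y Vs i) {p : FreeGroup σ} {u : Addr T.X}
    {a : T.X} (h1 : Y.Rd t.v p u) (h2 : T.Γ.Rd t.x p a) :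
    u ∈ Vs ∧ u.lev = i ∧ ¬ Top T Y Addr.lev u a := by
  have hu := h1.mem hc.mem t.hv
  have hl : u.lev = i := by
    have h3 := hc.le u hu
    by_contra hne
    exact t.ht ⟨p, u, ⟨a, h2⟩, h1, by rw [t.hl]; omega⟩
  exact ⟨hu, hl, fun ht => t.ht (ht.move h2.inv h1.inv (by rw [hl, t.hl]))⟩

theorem gate_short (hc : Core T π D Y Vs i) (t : Tri T Y Vs i) {p p' : FreeGroup σ}
    {u u' : Addr T.X} {a a' : T.X} (h1 : Y.Rd t.v p u) (h2 : T.Γ.Rd t.x p a)
    (h1' : Y.Rd t.v p' u') (h2' : T.Γ.Rd t.x p' a') :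
    (p⁻¹ * p').norm ≤ 2 * T.ell a ∧ (u' = u → p⁻¹ * p' = 1) := by
  obtain ⟨h3, h4, h5⟩ := gate_fl hc t h1 h2
  exact hc.fresh u h3 h4 a h5 _ u' ⟨a', h2.div h2'⟩ (h1.div h1')

theorem Rl.trans (hc : Core T π D Y Vs i) {t t' t'' : Tri T Y Vs i} (h : Rl t t')
    (h' : Rl t' t'') : Rl t t'' := by
  obtain ⟨u, a, a', p, p', g, h1, h2, h3, h4, h5, h6⟩ := h
  obtain ⟨u2, b', b'', q', q'', g2, k1, k2, k3, k4, k5, k6⟩ := h'
  have e1 := h3.div k1
  have e2 := h4.div k2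
  by_cases ha : a = a'
  · subst ha
    obtain hy := h5.func h6
    exact ⟨u2, b', b'', _, q'', g2, h1.trans e1, h2.trans e2, k3, k4, hy ▸ k5, k6⟩
  by_cases hb : b' = b''
  · subst hb
    obtain hy := k5.func k6
    exact ⟨u, a, a', p, _, g, h1, h2, k3.trans e1.inv, k4.trans e2.inv, h5, hy ▸ h6⟩
  have l1 := (T.piece' ha ⟨_, h5⟩ ⟨_, h6⟩).2
  have l2 := (T.piece' hb ⟨_, k5⟩ ⟨_, k6⟩).1
  have l3 := (gate_short hc t' h3 h4 k1 k2).1
  rw [T.ell_rd e2] at l2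
  have l4 := FreeGroup.norm_mul_le (p'⁻¹ * q') g2
  have e3 : g = p'⁻¹ * q' * g2 := T.eq_of_short h6 (e2.trans k5) (by omega)
  obtain ⟨m, m1, m2, m3⟩ := median_one (p'⁻¹ * q') g
  obtain ⟨u3, n1, n2⟩ := e1.split m1
  obtain ⟨a3, n3, n4⟩ := h5.split m2
  have m4 := btw_iff_pre.1 m3
  have e4 : (p'⁻¹ * q')⁻¹ * g = g2 := by rw [e3]; group
  rw [e4] at m4
  obtain ⟨b3, n5, n6⟩ := k6.split m4
  have e5 : ((p'⁻¹ * q')⁻¹ * m)⁻¹ * g2 = m⁻¹ * g := by rw [e3]; group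
  rw [e5] at n6
  exact ⟨u3, a3, b3, _, _, _, h1.trans n1, h2.trans n3, k3.trans (e1.div n1), k4.trans n5, n4, n6⟩

theorem Old.short (hc : Core T π D Y Vs i) {t : Tri T Y Vs i} {g : FreeGroup σ} {y : T.X}
    {w : Addr T.X} (h1 : T.Γ.Rd t.x g y) (h2 : Y.Rd t.v g w) : g.norm ≤ 2 * T.ell t.x :=
  (hc.fresh t.v t.hv t.hl t.x t.ht g w ⟨y, h1⟩ h2).1

theorem Old.uniq (hc : Core T π D Y Vs i) {t : Tri T Y Vs i} {w w' : Addr T.X} (h : Old t w)
    (h' : Old t w') : w = w' := by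
  obtain ⟨g, h1, h2⟩ := h
  obtain ⟨g', h3, h4⟩ := h'
  have l1 := Old.short hc h1 h2
  have l2 := Old.short hc h3 h4
  have l3 := T.two_le_ell t.x
  obtain rfl := T.eq_of_short h1 h3 (by omega)
  exact h2.func h4

theorem Old.mem (hc : Core T π D Y Vs i) {t : Tri T Y Vs i} {w : Addr T.X} (h : Old t w) :
    w ∈ Vs := by
  obtain ⟨g, -, h2⟩ := h
  exact h2.mem hc.mem t.hv

theorem Old.rl (hc : Core T π D Y Vs i) {t t' : Tri T Y Vs i} {w : Addr T.X} (h : Old t w)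
    (hr : Rl t t') : Old t' w := by
  obtain ⟨g0, k1, k2⟩ := h
  obtain ⟨u, a, a', p, p', g, h1, h2, h3, h4, h5, h6⟩ := hr
  by_cases ha : a = a'
  · subst ha
    obtain hy := h5.func h6
    exact ⟨_, h4.trans (hy ▸ h2.div k1), h3.trans (h1.div k2)⟩
  have l1 := (T.piece' ha ⟨_, h5⟩ ⟨_, h6⟩).1
  have l2 := (gate_short hc t h1 h2 k2 k1).1
  have e : g = p⁻¹ * g0 := T.eq_of_short h5 (h2.div k1) (by omega)
  exact ⟨_, h4.trans h6, h3.trans (e ▸ h1.div k2)⟩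

/-- The chosen representative of a class. -/
def rep (t : Tri T Y Vs i) : Tri T Y Vs i :=
  @Classical.epsilon _ ⟨t⟩ fun s => Rl t s

theorem rl_rep (t : Tri T Y Vs i) : Rl t (rep t) :=
  Classical.epsilon_spec (p := fun s => Rl t s) ⟨t, Rl.refl t⟩

theorem rep_eq (hc : Core T π D Y Vs i) {t t' : Tri T Y Vs i} (h : Rl t t') : rep t = rep t' := by
  have : (fun s => Rl t s) = fun s => Rl t' s :=
    funext fun s => propext ⟨fun k => h.symm.trans hc k, fun k => h.trans hc k⟩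
  unfold rep
  rw [this]

/-- The vertex of a point of a fresh cell. -/
def vx (t : Tri T Y Vs i) : Addr T.X :=
  if h : ∃ w, Old t w then h.choose else Addr.new (rep t).v (rep t).x (rep t).y

theorem vx_old (hc : Core T π D Y Vs i) {t : Tri T Y Vs i} {w : Addr T.X} (h : Old t w) :
    vx t = w := by
  have h1 : ∃ w, Old t w := ⟨w, h⟩
  rw [vx, dif_pos h1]
  exact h1.choose_spec.uniq hc h

theorem vx_new {t : Tri T Y Vs i} (h : ¬ ∃ w, Old t w) :
    vx t = Addr.new (rep t).v (rep t).x (rep t).y ∧ (vx t).lev = i + 1 := by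
  rw [vx, dif_neg h]
  exact ⟨rfl, by rw [Addr.lev, (rep t).hl]⟩

theorem old_vx (hc : Core T π D Y Vs i) {t : Tri T Y Vs i} (h : (vx t).lev ≤ i) :
    Old t (vx t) := by
  by_cases h1 : ∃ w, Old t w
  · obtain ⟨w, hw⟩ := h1
    rwa [vx_old hc hw]
  · have := (vx_new h1).2
    omega

theorem vx_le (hc : Core T π D Y Vs i) (t : Tri T Y Vs i) : (vx t).lev ≤ i + 1 := by
  by_cases h1 : ∃ w, Old t w
  · obtain ⟨w, hw⟩ := h1
    rw [vx_old hc hw]
    exact (hc.le w (hw.mem hc)).trans (Nat.le_succ i)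
  · exact (vx_new h1).2.le

theorem vx_eq (hc : Core T π D Y Vs i) {t t' : Tri T Y Vs i} : vx t = vx t' ↔ Rl t t' := by
  constructor
  · intro h
    by_cases hl : (vx t).lev ≤ i
    · obtain ⟨g, h1, h2⟩ := old_vx hc hl
      obtain ⟨g', h3, h4⟩ := old_vx hc (h ▸ hl)
      exact ⟨_, _, _, g, g', 1, h2, h1, h ▸ h4, h3, .refl _ _, .refl _ _⟩
    · have k : ∀ s : Tri T Y Vs i, ¬ (vx s).lev ≤ i → ¬ ∃ w, Old s w := by
        rintro s hs ⟨w, hw⟩
        rw [vx_old hc hw] at hs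
        exact hs (hc.le w (hw.mem hc))
      have h1 := (vx_new (k t hl)).1
      have h2 := (vx_new (k t' (h ▸ hl))).1
      rw [h1, h2] at h
      injection h with e1 e2 e3
      have e : rep t = rep t' := by
        generalize rep t = s at *
        generalize rep t' = s' at *
        cases s; cases s'
        simp only at e1 e2 e3
        subst e1 e2 e3
        rfl
      exact (rl_rep t).trans hc (e ▸ (rl_rep t').symm)
  · intro h
    by_cases h1 : ∃ w, Old t w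
    · obtain ⟨w, hw⟩ := h1
      rw [vx_old hc hw, vx_old hc (hw.rl hc h)]
    · have h2 : ¬ ∃ w, Old t' w := fun ⟨w, hw⟩ => h1 ⟨w, hw.rl hc h.symm⟩
      rw [(vx_new h1).1, (vx_new h2).1, rep_eq hc h]

theorem vx_phi (hD : ∀ x g y, T.Γ.Rd x g y → D x y = π g) (hc : Core T π D Y Vs i)
    (t : Tri T Y Vs i) : (vx t).phi D = t.v.phi D * D t.x t.y := by
  by_cases h1 : ∃ w, Old t w
  · obtain ⟨w, hw⟩ := h1
    rw [vx_old hc hw]
    obtain ⟨g, h2, h3⟩ := hw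
    rw [phi_rd hc.phi h3, hD _ _ _ h2]
  · rw [(vx_new h1).1, Addr.phi]
    obtain ⟨u, a, a', p, p', g, k1, k2, k3, k4, k5, k6⟩ := rl_rep t
    rw [hD _ _ _ (k2.trans k5), hD _ _ _ (k4.trans k6), map_mul, map_mul, ← mul_assoc,
      ← mul_assoc, ← phi_rd hc.phi k1, ← phi_rd hc.phi k3]

/-- Steps of the new graph. -/
def St (Y : LG σ (Addr T.X)) (Vs : Set (Addr T.X)) (i : ℕ) (z : Addr T.X) (a : σ × Bool)
    (z' : Addr T.X) : Prop :=
  Y.step z a z' ∨ ∃ (t : Tri T Y Vs i) (y' : T.X) (h : T.Γ.step t.y a y'),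
    z = vx t ∧ z' = vx (t.mv y' ⟨_, LG.rd_lt.2 h⟩)

omit [DecidableEq σ] in
theorem step_mem {V : Type} {Y : LG σ V} {Vs : Set V}
    (hm : ∀ v a w, Y.rel v a w → v ∈ Vs ∧ w ∈ Vs) {v w : V} {a : σ × Bool} (h : Y.step v a w) :
    v ∈ Vs ∧ w ∈ Vs :=
  h.elim (fun h => hm _ _ _ h.2) fun h => (hm _ _ _ h.2).symm

theorem St.func (hc : Core T π D Y Vs i) {z w w' : Addr T.X} {a : σ × Bool}
    (h : St Y Vs i z a w) (h' : St Y Vs i z a w') : w = w' := by
  have key : ∀ {w w' : Addr T.X}, Y.step z a w →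
      (∃ (t : Tri T Y Vs i) (y' : T.X) (h : T.Γ.step t.y a y'),
        z = vx t ∧ w' = vx (t.mv y' ⟨_, LG.rd_lt.2 h⟩)) → w = w' := by
    rintro w w' h ⟨t, y', h1, rfl, rfl⟩
    obtain ⟨g, h2, h3⟩ := old_vx hc (hc.le _ (step_mem hc.mem h).1)
    exact (vx_old hc (t := t.mv y' _)
      ⟨g * lt a, h2.trans (LG.rd_lt.2 h1), h3.trans (LG.rd_lt.2 h)⟩).symm
  rcases h with h | h <;> rcases h' with h' | h'
  · exact LG.step_func h h'
  · exact key h h'
  · exact (key h' h).symm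
  · obtain ⟨t, y, h1, rfl, rfl⟩ := h
    obtain ⟨t', y', h2, h3, rfl⟩ := h'
    obtain ⟨u, b, b', p, p', g, k1, k2, k3, k4, k5, k6⟩ := (vx_eq hc).1 h3
    exact (vx_eq hc).2 ⟨u, b, b', p, p', _, k1, k2, k3, k4, k5.trans (LG.rd_lt.2 h1),
      k6.trans (LG.rd_lt.2 h2)⟩

theorem St.inv {z w : Addr T.X} {a : σ × Bool} (h : St Y Vs i z a w) :
    St Y Vs i w (a.1, !a.2) z := by
  rcases h with h | ⟨t, y, h1, rfl, rfl⟩
  · exact Or.inl (LG.step_inv.2 h)
  · exact Or.inr ⟨t.mv y ⟨_, LG.rd_lt.2 h1⟩, t.y, LG.step_inv.2 h1, rfl, rfl⟩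

/-- The new graph. -/
def NG (hc : Core T π D Y Vs i) : LG σ (Addr T.X) where
  rel z a z' := St Y Vs i z (a, true) z'
  func h h' := h.func hc h'
  inj h h' := h.inv.func hc h'.inv

theorem ng_step (hc : Core T π D Y Vs i) {z w : Addr T.X} {a : σ × Bool} :
    (NG hc).step z a w ↔ St Y Vs i z a w := by
  obtain ⟨a, b⟩ := a
  cases b
  · rw [LG.step_false]
    exact ⟨fun h => St.inv h, fun h => St.inv h⟩
  · rw [LG.step_true]; rfl

theorem ng_mono (hc : Core T π D Y Vs i) (v : Addr T.X) (a : σ) (w : Addr T.X)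
    (h : Y.rel v a w) : (NG hc).rel v a w := Or.inl (LG.step_true.2 h)

theorem rd_cell (hc : Core T π D Y Vs i) (t : Tri T Y Vs i) {g : FreeGroup σ} {y : T.X}
    (h : T.Γ.Rd t.y g y) : (NG hc).Rd (vx t) g (vx (t.mv y ⟨g, h⟩)) := by
  have := LG.Rd.induction (P := fun g y => ∀ k, (NG hc).Rd (vx t) g (vx (t.mv y k)))
    (fun _ => LG.Rd.refl _ _) (fun g w a w' _ h1 h2 ih k => (ih ⟨g, h1⟩).trans
      (LG.rd_lt.2 ((ng_step hc).2 (Or.inr ⟨t.mv w ⟨g, h1⟩, w', h2, rfl, rfl⟩)))) h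
  exact this _

/-- The base point of a fresh cell. -/
def base {v : Addr T.X} {x : T.X} (hv : v ∈ Vs) (hl : v.lev = i)
    (ht : ¬ Top T Y Addr.lev v x) : Tri T Y Vs i :=
  ⟨v, x, x, hv, hl, ht, ⟨1, .refl _ _⟩⟩

theorem rd_base (hc : Core T π D Y Vs i) {v : Addr T.X} {x y : T.X} (hv : v ∈ Vs)
    (hl : v.lev = i) (ht : ¬ Top T Y Addr.lev v x) {g : FreeGroup σ} (h : T.Γ.Rd x g y) :
    (NG hc).Rd v g (vx ((base hv hl ht).mv y ⟨g, h⟩)) := by
  have h1 := rd_cell hc (base hv hl ht) h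
  rwa [vx_old hc (t := base hv hl ht) (w := v) ⟨1, .refl _ _, .refl _ _⟩] at h1

theorem top_vx (hc : Core T π D Y Vs i) (t : Tri T Y Vs i) (h : (vx t).lev = i + 1) :
    Top T (NG hc) Addr.lev (vx t) t.y := by
  obtain ⟨g, hg⟩ := t.hc
  have h1 := rd_base hc t.hv t.hl t.ht hg
  exact ⟨g⁻¹, t.v, ⟨_, hg.inv⟩, h1.inv, by rw [h, t.hl]; omega⟩

/-- Cells that were glued earlier. -/
theorem done_cell (hc : Core T π D Y Vs i) {v : Addr T.X} {x : T.X} (hv : v ∈ Vs)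
    (h : v.lev < i ∨ Top T Y Addr.lev v x) :
    (∀ g y, T.Γ.Rd x g y → ∃ w, Y.Rd v g w ∧ w.lev ≤ v.lev + 1) ∧
    ∀ g y g' y' w w', T.Γ.Rd x g y → T.Γ.Rd x g' y' → Y.Rd v g w → Y.Rd v g' w' →
      (y = y' ↔ w = w') := by
  rcases h with h | ⟨g0, w0, ⟨y0, h1⟩, h2, h3⟩
  · exact ⟨hc.cell v hv h x, hc.cinj v hv h x⟩
  · have h4 := h2.mem hc.mem hv
    have h5 := hc.le v hv
    refine ⟨fun g y hg => ?_, fun g y g' y' w w' k1 k2 k3 k4 =>
      hc.cinj w0 h4 (by omega) y0 _ y _ y' w w' (h1.div k1) (h1.div k2) (h2.div k3) (h2.div k4)⟩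
    obtain ⟨w, k1, k2⟩ := hc.cell w0 h4 (by omega) y0 _ y (h1.div hg)
    exact ⟨w, by simpa using h2.trans k1, by omega⟩

/-- The new vertex set. -/
def NV (Y : LG σ (Addr T.X)) (Vs : Set (Addr T.X)) (i : ℕ) : Set (Addr T.X) :=
  {z | z ∈ Vs ∨ ∃ t : Tri T Y Vs i, z = vx t}

theorem nv_old (hc : Core T π D Y Vs i) {v : Addr T.X} (hv : v ∈ NV Y Vs i) (hl : v.lev ≤ i) :
    v ∈ Vs := by
  rcases hv with hv | ⟨t, rfl⟩
  · exact hv
  · exact (old_vx hc hl).mem hc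

theorem ng_mem (hc : Core T π D Y Vs i) (v : Addr T.X) (a : σ) (w : Addr T.X)
    (h : (NG hc).rel v a w) : v ∈ NV Y Vs i ∧ w ∈ NV Y Vs i := by
  rcases h with h | ⟨t, y, h1, rfl, rfl⟩
  · exact ⟨Or.inl (step_mem hc.mem h).1, Or.inl (step_mem hc.mem h).2⟩
  · exact ⟨Or.inr ⟨_, rfl⟩, Or.inr ⟨_, rfl⟩⟩

theorem top_char (hc : Core T π D Y Vs i) {z : Addr T.X} {y : T.X} (hz : z.lev = i + 1)
    (h : Top T (NG hc) Addr.lev z y) : ∃ t : Tri T Y Vs i, t.y = y ∧ z = vx t := by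
  obtain ⟨g, w, ⟨x, h1⟩, h2, h3⟩ := h
  have hg : g ≠ 1 := by
    rintro rfl
    rw [LG.rd_one.1 h2] at h3; exact lt_irrefl _ h3
  have hw := nv_old hc (h2.mem_of_ne (ng_mem hc) hg).2 (by omega)
  by_cases hd : w.lev < i ∨ Top T Y Addr.lev w x
  · obtain ⟨z', k1, -⟩ := (done_cell hc hw hd).1 _ _ h1.inv
    obtain rfl := (k1.mono (ng_mono hc)).func h2.inv
    have := hc.le _ (k1.mem hc.mem hw)
    omega
  · rw [not_or] at hd
    have hl : w.lev = i := by omega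
    exact ⟨_, rfl, h2.inv.func (rd_base hc hw hl hd.2 h1.inv)⟩

theorem ng_lay (hc : Core T π D Y Vs i) : Lay T (NG hc) (NV Y Vs i) Addr.lev i where
  mem := ng_mem hc
  cell v hv hl x g y hg := by
    have hv := nv_old hc hv hl
    by_cases hd : v.lev < i ∨ Top T Y Addr.lev v x
    · obtain ⟨w, h1, h2⟩ := (done_cell hc hv hd).1 _ _ hg
      exact ⟨w, h1.mono (ng_mono hc), h2⟩
    · rw [not_or] at hd
      have hl' : v.lev = i := by omega
      exact ⟨_, rd_base hc hv hl' hd.2 hg, (vx_le hc _).trans (by omega)⟩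
  cinj v hv hl x g y g' y' w w' h1 h2 h3 h4 := by
    have hv := nv_old hc hv hl
    by_cases hd : v.lev < i ∨ Top T Y Addr.lev v x
    · obtain ⟨u, k1, -⟩ := (done_cell hc hv hd).1 _ _ h1
      obtain ⟨u', k2, -⟩ := (done_cell hc hv hd).1 _ _ h2
      obtain rfl := (k1.mono (ng_mono hc)).func h3
      obtain rfl := (k2.mono (ng_mono hc)).func h4
      exact (done_cell hc hv hd).2 _ _ _ _ _ _ h1 h2 k1 k2
    · rw [not_or] at hd
      have hl' : v.lev = i := by omega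
      rw [h3.func (rd_base hc hv hl' hd.2 h1), h4.func (rd_base hc hv hl' hd.2 h2)]
      refine ⟨by rintro rfl; rfl, fun h => ?_⟩
      obtain ⟨u, a, a', p, p', k, k1, k2, k3, k4, k5, k6⟩ := (vx_eq hc).1 h
      have e := (gate_short hc (base hv hl' hd.2) k1 k2 k3 k4).2 rfl
      rw [inv_mul_eq_one] at e
      subst e
      obtain rfl := k2.func k4
      exact k5.func k6
  common z x x' hz h1 h2 _ := by
    obtain ⟨t, rfl, rfl⟩ := top_char hc hz h1
    obtain ⟨t', rfl, h3⟩ := top_char hc hz h2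
    obtain ⟨u, a, a', p, p', g, k1, k2, k3, k4, k5, k6⟩ := (vx_eq hc).1 h3
    have h4 := rd_cell hc t k5.inv
    rw [vx_old hc (t := t.mv a _) (w := u) ⟨p, k2, k1⟩] at h4
    exact ⟨g⁻¹, u, ⟨_, k5.inv⟩, ⟨_, k6.inv⟩, h4, hc.le u (k1.mem hc.mem t.hv)⟩
  edge z a w h hz _ := by
    rcases (ng_step hc).1 h with h | ⟨t, y, h1, rfl, -⟩
    · have := hc.le z (step_mem hc.mem h).1
      omega
    · exact ⟨t.y, top_vx hc t hz, y, LG.rd_lt.2 h1⟩
  top z hv hz := by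
    rcases hv with hv | ⟨t, rfl⟩
    · have := hc.le z hv
      omega
    · exact ⟨t.y, top_vx hc t hz⟩
  gate v hv hl x ht g y w h1 h2 hw := by
    have hv := nv_old hc hv hl.le
    have ht' : ¬ Top T Y Addr.lev v x := fun h => ht (top_mono (ng_mono hc) h)
    obtain rfl := h2.func (rd_base hc hv hl ht' h1)
    obtain ⟨q, k1, k2⟩ := old_vx hc hw
    refine ⟨q, k1, Old.short hc k1 k2, fun m u hm hu => ?_⟩
    obtain ⟨u', k3, -⟩ := k2.split hm
    obtain rfl := (k3.mono (ng_mono hc)).func hu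
    exact hc.le _ (k3.mem hc.mem hv)

theorem ng_ext (hc : Core T π D Y Vs i) : Ext Y Vs (NG hc) (NV Y Vs i) i where
  sub _ hv := Or.inl hv
  rel := ng_mono hc
  old _ hv hl := nv_old hc hv hl
  full v a w h h1 h2 := by
    rcases h with h | ⟨t, y, k, rfl, rfl⟩
    · exact LG.step_true.1 h
    · obtain ⟨g, k1, k2⟩ := old_vx hc h1
      obtain ⟨g', k3, k4⟩ := old_vx hc h2
      have l1 := Old.short hc k1 k2
      have l2 : g'.norm ≤ 2 * T.ell t.x := Old.short hc k3 k4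
      have l3 := T.two_le_ell t.x
      have l4 := FreeGroup.norm_mul_le g (lt (a, true))
      rw [norm_lt] at l4
      have e : g * lt (a, true) = g' :=
        T.eq_of_short (k1.trans (LG.rd_lt.2 k)) k3 (by omega)
      have k5 := k2.div k4
      rw [← e, inv_mul_cancel_left] at k5
      exact LG.step_true.1 (LG.rd_lt.1 k5)

end StepA

end GeoM

open GeoM in
theorem stepA : StepAStmt := by
  intro σ _ _ T G _ π D hD Y Vs i hc
  refine ⟨NG hc, NV Y Vs i, ng_ext hc, ng_lay hc, ?_, ?_⟩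
  · rintro v (hv | ⟨t, rfl⟩)
    · exact (hc.le v hv).trans (Nat.le_succ i)
    · exact vx_le hc t
  · rintro v a w (h | ⟨t, y, k, rfl, rfl⟩)
    · exact hc.phi _ _ _ (LG.step_true.1 h)
    · obtain ⟨g, hg⟩ := t.hc
      rw [vx_phi hD hc, vx_phi hD hc, mul_assoc, hD _ _ _ hg, ← map_mul]
      exact congrArg _ (hD _ _ _ (hg.trans (LG.rd_lt.2 k)))

namespace GeoM

variable {σ : Type} [Fintype σ] [DecidableEq σ] {T : Tiles σ} {G : Type} [Group G]

/-- Transfer of the layer structure from a stage to the Cayley graph. -/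
theorem lay_transfer {V : Type} {Y : LG σ V} {Vs : Set V} {lev : V → ℕ} {j : ℕ}
    (h : Lay T Y Vs lev j) (π : FreeGroup σ →* G) (ψ : G → V) (hi : Function.Injective ψ)
    (ha : ∀ γ, lev (ψ γ) ≤ j + 1 → ψ γ ∈ Vs)
    (hb : ∀ γ g w, Y.Rd (ψ γ) g w → w = ψ (γ * π g))
    (hc : ∀ γ a, lev (ψ γ) ≤ j + 1 → lev (ψ (γ * π (lt a))) ≤ j + 1 →
      Y.step (ψ γ) a (ψ (γ * π (lt a)))) :
    Lay T (cay π) Set.univ (fun γ => lev (ψ γ)) j := by
  have cell : ∀ γ, lev (ψ γ) ≤ j → ∀ x g y, T.Γ.Rd x g y →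
      Y.Rd (ψ γ) g (ψ (γ * π g)) ∧ lev (ψ (γ * π g)) ≤ lev (ψ γ) + 1 := by
    intro γ hl x g y hg
    obtain ⟨w, h1, h2⟩ := h.cell _ (ha γ (by omega)) hl x g y hg
    obtain rfl := hb _ _ _ h1
    exact ⟨h1, h2⟩
  have up : ∀ γ x, Top T Y lev (ψ γ) x → Top T (cay π) (fun γ => lev (ψ γ)) γ x := by
    rintro γ x ⟨g, w, h1, h2, h3⟩
    obtain rfl := hb _ _ _ h2
    exact ⟨g, _, h1, (cay_rd π).2 rfl, h3⟩
  have down : ∀ γ x, lev (ψ γ) ≤ j + 1 → Top T (cay π) (fun γ => lev (ψ γ)) γ x →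
      Top T Y lev (ψ γ) x := by
    rintro γ x hl ⟨g, w, ⟨y, h1⟩, h2, h3⟩
    obtain rfl := (cay_rd π).1 h2
    have h3 : lev (ψ (γ * π g)) < lev (ψ γ) := h3
    have h4 := (cell (γ * π g) (by omega) y _ x h1.inv).1
    rw [map_inv, mul_inv_cancel_right] at h4
    exact ⟨g, _, ⟨y, h1⟩, by simpa using h4.inv, h3⟩
  refine ⟨fun _ _ _ _ => ⟨trivial, trivial⟩, ?_, ?_, ?_, ?_, ?_, ?_⟩
  · intro γ _ hl x g y hg
    exact ⟨_, (cay_rd π).2 rfl, (cell γ hl x g y hg).2⟩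
  · intro γ _ hl x g y g' y' w w' h1 h2 h3 h4
    rw [(cay_rd π).1 h3, (cay_rd π).1 h4, ← hi.eq_iff]
    exact h.cinj _ (ha γ (by omega)) hl x g y g' y' _ _ h1 h2 (cell γ hl x g y h1).1
      (cell γ hl x g' y' h2).1
  · intro γ x x' hl h1 h2 hne
    obtain ⟨g, w, k1, k2, k3, k4⟩ := h.common _ x x' hl (down γ x hl.le h1) (down γ x' hl.le h2) hne
    obtain rfl := hb _ _ _ k3
    exact ⟨g, _, k1, k2, (cay_rd π).2 rfl, k4⟩
  · intro γ a w hs hl hw
    obtain rfl := (cay_step π).1 hs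
    obtain ⟨x, k1, k2⟩ := h.edge _ a _ (hc γ a hl.le hw) hl hw
    exact ⟨x, up γ x k1, k2⟩
  · intro γ _ hl
    obtain ⟨x, hx⟩ := h.top _ (ha γ hl.le) hl
    exact ⟨x, up γ x hx⟩
  · intro γ _ hl x ht g y w h1 h2 hw
    obtain rfl := (cay_rd π).1 h2
    obtain ⟨q, k1, k2, k3⟩ := h.gate _ (ha γ (by omega)) hl x (fun k => ht (up γ x k)) g y _ h1
      (cell γ hl.le x g y h1).1 hw
    refine ⟨q, k1, k2, fun m u hm hu => ?_⟩
    obtain rfl := (cay_rd π).1 hu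
    obtain ⟨z, hz, -⟩ := k1.split hm
    exact k3 m _ hm (cell γ hl.le x m z hz).1

variable (T)

/-- The words that are closed in some tile. -/
def relN : Subgroup (FreeGroup σ) := Subgroup.normalClosure {g | ∃ x, T.Γ.Rd x g x}

instance : (relN T).Normal := Subgroup.normalClosure_normal

/-- The group. -/
abbrev GG : Type := FreeGroup σ ⧸ relN T

def pp : FreeGroup σ →* GG T := QuotientGroup.mk' (relN T)

def DD (x y : T.X) : GG T := if h : ∃ g, T.Γ.Rd x g y then pp T h.choose else 1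

theorem DD_eq (x : T.X) (g : FreeGroup σ) (y : T.X) (h : T.Γ.Rd x g y) : DD T x y = pp T g := by
  have h1 : ∃ g, T.Γ.Rd x g y := ⟨g, h⟩
  rw [DD, dif_pos h1, ← mul_inv_eq_one, ← map_inv, ← map_mul]
  exact (QuotientGroup.eq_one_iff _).2
    (Subgroup.subset_normalClosure ⟨x, h1.choose_spec.trans h.inv⟩)

/-- A stage of the construction. -/
def Stg (i : ℕ) : Type :=
  {p : LG σ (Addr T.X) × Set (Addr T.X) // Core T (pp T) (DD T) p.1 p.2 i}

def emptyG (σ V : Type) : LG σ V where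
  rel _ _ _ := False
  func h := h.elim
  inj h := h.elim

def stg0 : Stg T 0 :=
  ⟨(emptyG _ _, {Addr.root}), rfl, fun _ _ _ h => False.elim h, by rintro v rfl; rfl,
    fun _ _ h => absurd h (Nat.not_lt_zero _), fun _ _ h => absurd h (Nat.not_lt_zero _),
    fun _ _ _ h => False.elim h, fun v _ _ x _ g w _ h => by
      have : g = 1 := by
        by_contra hg
        exact (h.mem_of_ne (Vs := ∅) (fun _ _ _ h => False.elim h) hg).1
      subst this
      simp⟩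

theorem stg_next (hB : StepBStmt) (i : ℕ) (s : Stg T i) : ∃ s' : Stg T (i + 1),
    Ext s.1.1 s.1.2 s'.1.1 s'.1.2 i ∧ Lay T s'.1.1 s'.1.2 Addr.lev i := by
  obtain ⟨Y', Vs', h1, h2, h3, h4⟩ := stepA σ T _ (pp T) (DD T) (DD_eq T) _ _ i s.2
  exact ⟨⟨(Y', Vs'), h1.sub s.2.root, h2.mem, h3,
    fun v hv hl => h2.cell v hv (Nat.lt_succ_iff.1 hl),
    fun v hv hl => h2.cinj v hv (Nat.lt_succ_iff.1 hl), h4, hB σ T _ Y' Vs' _ i h2 h3⟩, h1, h2⟩

theorem stages (hB : StepBStmt) : ∃ (Y : ℕ → LG σ (Addr T.X)) (Vs : ℕ → Set (Addr T.X)),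
    ∀ i, Core T (pp T) (DD T) (Y i) (Vs i) i ∧ Ext (Y i) (Vs i) (Y (i + 1)) (Vs (i + 1)) i ∧
      Lay T (Y (i + 1)) (Vs (i + 1)) Addr.lev i := by
  choose nx h1 h2 using stg_next T hB
  let s : ∀ i, Stg T i := fun i => Nat.rec (stg0 T) nx i
  exact ⟨fun i => (s i).1.1, fun i => (s i).1.2, fun i => ⟨(s i).2, h1 i (s i), h2 i (s i)⟩⟩

end GeoM

open GeoM in
theorem geo (hB : StepBStmt) : GeoStmt := by
  intro σ _ _ T
  obtain ⟨Y, Vs, H⟩ := stages T hB
  have mono : ∀ i k, i ≤ k → Vs i ⊆ Vs k ∧ ∀ v a w, (Y i).rel v a w → (Y k).rel v a w := by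
    intro i k hk
    induction k, hk using Nat.le_induction with
    | base => exact ⟨subset_rfl, fun _ _ _ h => h⟩
    | succ k _ ih =>
      exact ⟨ih.1.trans (H k).2.1.sub, fun v a w h => (H k).2.1.rel _ _ _ (ih.2 v a w h)⟩
  have old : ∀ i k, i ≤ k → (∀ v ∈ Vs k, v.lev ≤ i → v ∈ Vs i) ∧
      ∀ v a w, (Y k).rel v a w → v.lev ≤ i → w.lev ≤ i → (Y i).rel v a w := by
    intro i k hk
    induction k, hk using Nat.le_induction with
    | base => exact ⟨fun _ h _ => h, fun _ _ _ h _ _ => h⟩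
    | succ k hk ih =>
      exact ⟨fun v hv hl => ih.1 v ((H k).2.1.old v hv (hl.trans hk)) hl,
        fun v a w h h1 h2 => ih.2 v a w ((H k).2.1.full v a w h (h1.trans hk) (h2.trans hk)) h1 h2⟩
  let Z : LG σ (Addr T.X) :=
    { rel := fun v a w => ∃ i, (Y i).rel v a w
      func := fun ⟨i, h⟩ ⟨k, h'⟩ => (Y (max i k)).func ((mono _ _ (le_max_left _ _)).2 _ _ _ h)
        ((mono _ _ (le_max_right _ _)).2 _ _ _ h')
      inj := fun ⟨i, h⟩ ⟨k, h'⟩ => (Y (max i k)).inj ((mono _ _ (le_max_left _ _)).2 _ _ _ h)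
        ((mono _ _ (le_max_right _ _)).2 _ _ _ h') }
  let W : Set (Addr T.X) := {v | ∃ i, v ∈ Vs i}
  have zm : ∀ i v a w, (Y i).rel v a w → Z.rel v a w := fun i _ _ _ h => ⟨i, h⟩
  have zmem : ∀ v a w, Z.rel v a w → v ∈ W ∧ w ∈ W := fun v a w ⟨i, h⟩ =>
    ⟨⟨i, ((H i).1.mem v a w h).1⟩, ⟨i, ((H i).1.mem v a w h).2⟩⟩
  have zphi : ∀ v a w, Z.rel v a w → w.phi (DD T) = v.phi (DD T) * pp T (FreeGroup.of a) :=
    fun v a w ⟨i, h⟩ => (H i).1.phi v a w h
  have wold : ∀ v ∈ W, ∀ i, v.lev ≤ i → v ∈ Vs i := by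
    rintro v ⟨k, hk⟩ i hl
    rcases le_total i k with h | h
    · exact (old i k h).1 v hk hl
    · exact (mono k i h).1 hk
  have zold : ∀ v a w i, Z.rel v a w → v.lev ≤ i → w.lev ≤ i → (Y i).rel v a w := by
    rintro v a w i ⟨k, hk⟩ h1 h2
    rcases le_total i k with h | h
    · exact (old i k h).2 v a w hk h1 h2
    · exact (mono k i h).2 _ _ _ hk
  have zcell : ∀ v ∈ W, ∀ x g y, T.Γ.Rd x g y → ∃ w, (Y (v.lev + 1)).Rd v g w :=
    fun v hv x g y hg => by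
      obtain ⟨w, h1, -⟩ := (H v.lev).2.2.cell v (wold v hv _ (Nat.le_succ _)) le_rfl x g y hg
      exact ⟨w, h1⟩
  have full : ∀ v ∈ W, ∀ g, ∃ w, Z.Rd v g w := by
    intro v hv g
    induction g using pre_induction with
    | h1 => exact ⟨v, .refl _ _⟩
    | hs g a _ ih =>
      obtain ⟨u, hu⟩ := ih
      obtain ⟨x, y, hxy⟩ : ∃ x y, T.Γ.step x a y := by
        obtain ⟨a, b⟩ := a
        obtain ⟨x, y, h⟩ := T.letters a
        cases b
        · exact ⟨y, x, LG.step_false.2 h⟩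
        · exact ⟨x, y, LG.step_true.2 h⟩
      obtain ⟨w, hw⟩ := zcell u (hu.mem zmem hv) x _ y (LG.rd_lt.2 hxy)
      exact ⟨w, hu.trans (hw.mono (zm _))⟩
  let K : Subgroup (FreeGroup σ) :=
    { carrier := {g | ∀ v ∈ W, Z.Rd v g v}
      mul_mem' := fun h h' v hv => (h v hv).trans (h' v hv)
      one_mem' := fun v _ => .refl _ _
      inv_mem' := fun h v hv => (h v hv).inv }
  have : K.Normal := ⟨fun n hn g v hv => by
    obtain ⟨w, hw⟩ := full v hv g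
    exact (hw.trans (hn w (hw.mem zmem hv))).trans hw.inv⟩
  have hK : relN T ≤ K := Subgroup.normalClosure_le_normal (by
    rintro g ⟨x, hx⟩ v hv
    obtain ⟨w, hw⟩ := zcell v hv x g x hx
    have := ((H v.lev).2.2.cinj v (wold v hv _ (Nat.le_succ _)) le_rfl x g x 1 x w v hx
      (.refl _ _) hw (.refl _ _)).1 rfl
    subst this
    exact hw.mono (zm _))
  have hroot : Addr.root ∈ W := ⟨0, (H 0).1.root⟩
  have hsurj : Function.Surjective (pp T) := QuotientGroup.mk'_surjective _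
  have hψ : ∀ γ : GG T, ∃ v, ∀ g, pp T g = γ → Z.Rd Addr.root g v := by
    intro γ
    obtain ⟨g, rfl⟩ := hsurj γ
    obtain ⟨v, hv⟩ := full _ hroot g
    refine ⟨v, fun g' hg' => ?_⟩
    have h1 : g' * g⁻¹ ∈ relN T := by
      rw [← QuotientGroup.eq_one_iff]
      change pp T (g' * g⁻¹) = 1
      rw [map_mul, map_inv, hg', mul_inv_cancel]
    simpa using (hK h1 _ hroot).trans hv
  choose ψ hψ using hψ
  have ψW : ∀ γ, ψ γ ∈ W := fun γ => by
    obtain ⟨g, hg⟩ := hsurj γ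
    exact (hψ γ g hg).mem zmem hroot
  have ψphi : ∀ γ, (ψ γ).phi (DD T) = γ := fun γ => by
    obtain ⟨g, hg⟩ := hsurj γ
    rw [phi_rd zphi (hψ γ g hg), Addr.phi, one_mul, hg]
  have ψinj : Function.Injective ψ := fun γ γ' h => by rw [← ψphi γ, h, ψphi]
  have ψrd : ∀ γ g, Z.Rd (ψ γ) g (ψ (γ * pp T g)) := fun γ g => by
    obtain ⟨k, hk⟩ := hsurj γ
    simpa using (hψ γ k hk).div (hψ _ (k * g) (by rw [map_mul, hk]))
  obtain ⟨Γ, hΓ⟩ := exists_gen (pp T) hsurj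
  refine ⟨GG T, inferInstance, ⟨⟨Γ, fun γ => (ψ γ).lev, fun γ => ?_, fun j => ?_⟩⟩⟩
  · have h1 : ψ 1 = Addr.root := (LG.rd_one.1 (hψ 1 1 (map_one _))).symm
    constructor
    · intro h
      apply ψinj
      rw [h1]
      generalize ψ γ = v at h
      cases v
      · rfl
      · simp [Addr.lev] at h
    · rintro rfl
      rw [h1]; rfl
  · rw [hΓ]
    refine lay_transfer (H j).2.2 (pp T) ψ ψinj (fun γ hl => wold _ (ψW γ) _ hl)
      (fun γ g w h => (h.mono (zm _)).func (ψrd γ g)) fun γ a h1 h2 => ?_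
    exact (LG.rd_lt.1 (ψrd γ (lt a))).imp (fun h => ⟨h.1, zold _ _ _ _ h.2 h1 h2⟩)
      fun h => ⟨h.1, zold _ _ _ _ h.2 h2 h1⟩

end Pool.Agent.MP_88ca14_an

end
end MrgPart0

-- ======== part 1: formerly Pool.Agent.MP_88ca14_an.Om
section MrgPart1

/-!
PROJECT LRX, modules W3a, W3, OM2, OM: vectors near the deep points of large cells, and the
assembly of the estimate for all vectors.
-/

set_option autoImplicit false
set_option maxSynthPendingDepth 3

noncomputable section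

namespace Pool.Agent.MP_88ca14_an

open Filter Topology
open scoped Classical ComplexConjugate

namespace OmM

section Res

variable {G K : Type} [Fintype K]

omit [Fintype K] in
lemma res_apply (S : Set G) (ζ : Vec G K) (x : G) : res S ζ x = if x ∈ S then ζ x else 0 :=
  Finsupp.filter_apply _ _ _

omit [Fintype K] in
lemma mem_res {S : Set G} {ζ : Vec G K} {x : G} :
    x ∈ (res S ζ).support ↔ x ∈ ζ.support ∧ x ∈ S := by
  simp only [Finsupp.mem_support_iff, res_apply]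
  by_cases h : x ∈ S <;> simp [h]

omit [Fintype K] in
lemma res_res (S S' : Set G) (ζ : Vec G K) : res S (res S' ζ) = res (S' ∩ S) ζ := by
  ext x p
  simp only [res_apply, Set.mem_inter_iff]
  by_cases h : x ∈ S <;> by_cases h' : x ∈ S' <;> simp [h, h']

lemma ms_res (S : Set G) (ζ : Vec G K) :
    ms (res S ζ) = ∑ x ∈ ζ.support, if x ∈ S then nsq (ζ x) else 0 := by
  rw [Hb2.ms_eq _ ζ.support fun x hx => (mem_res.1 hx).1,
    Finset.sum_coe_sort ζ.support fun x => nsq (res S ζ x)]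
  refine Finset.sum_congr rfl fun x _ => ?_
  rw [res_apply]
  split_ifs
  exacts [rfl, Hb2.nsq_zero]

lemma ms_res_mono {S S' : Set G} (h : S ⊆ S') (ζ : Vec G K) : ms (res S ζ) ≤ ms (res S' ζ) := by
  rw [ms_res, ms_res]
  refine Finset.sum_le_sum fun x _ => ?_
  by_cases h1 : x ∈ S
  · rw [if_pos h1, if_pos (h h1)]
  · rw [if_neg h1]
    split_ifs
    exacts [Hb2.nsq_nonneg _, le_rfl]

lemma ms_res_le (S : Set G) (ζ : Vec G K) : ms (res S ζ) ≤ ms ζ := by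
  rw [ms_res]
  refine Finset.sum_le_sum fun x _ => ?_
  split_ifs
  exacts [le_rfl, Hb2.nsq_nonneg _]

lemma ms_nonneg (ζ : Vec G K) : 0 ≤ ms ζ := Finset.sum_nonneg fun _ _ => Hb2.nsq_nonneg _

lemma nsq_le_ms (ζ : Vec G K) (x : G) : nsq (ζ x) ≤ ms ζ := by
  by_cases h : x ∈ ζ.support
  · exact Finset.single_le_sum (f := fun x => nsq (ζ x)) (fun _ _ => Hb2.nsq_nonneg _) h
  · rw [Finsupp.notMem_support_iff.1 h, Hb2.nsq_zero]; exact ms_nonneg ζ

lemma small_mono {k : ℕ → ℕ} {ζ : ∀ i, Vec G (Fin (k i))} {S S' : ℕ → Set G} {η : ℝ}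
    (h : Small ζ S η) (hS : ∀ᶠ i in UU, S' i ⊆ S i) : Small ζ S' η :=
  (h.and hS).mono fun _ hi => (ms_res_mono hi.2 _).trans hi.1

lemma small_res {k : ℕ → ℕ} {ζ : ∀ i, Vec G (Fin (k i))} {S U : ℕ → Set G} {η : ℝ}
    (h : Small ζ (fun i => U i ∩ S i) η) : Small (fun i => res (U i) (ζ i)) S η :=
  h.mono fun i hi => by rw [res_res]; exact hi

lemma ms_fiber {ι : Type} [DecidableEq ι] (c : G → ι) (ζ : Vec G K) :
    ∑ a ∈ ζ.support.image c, ms (res {v | c v = a} ζ) = ms ζ := by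
  simp only [ms_res]
  rw [Finset.sum_comm]
  refine Finset.sum_congr rfl fun x hx => ?_
  refine (Finset.sum_eq_single (c x) (fun a _ ha => if_neg ha.symm)
    fun hn => absurd (Finset.mem_image_of_mem c hx) hn).trans (if_pos rfl)

variable [Group G]

lemma sum_ball (W : WG G) (R₀ : ℕ) (Y : Finset G) (ζ : Vec G K) :
    ∑ y ∈ Y, ms (res {v | W.ds y v ≤ R₀} ζ) ≤ (W.ball R₀).card * ms ζ := by
  simp only [ms_res]
  rw [Finset.sum_comm, ms, Finset.mul_sum]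
  refine Finset.sum_le_sum fun v _ => ?_
  refine le_trans (le_of_eq ((Finset.sum_congr rfl fun y _ => by
    by_cases h : W.ds y v ≤ R₀ <;> simp [h]).trans
    (Finset.sum_filter (fun y => W.ds y v ≤ R₀) fun _ => nsq (ζ v)).symm)) ?_
  rw [Finset.sum_const, nsmul_eq_mul]
  refine mul_le_mul_of_nonneg_right ?_ (Hb2.nsq_nonneg _)
  exact_mod_cast Finset.card_le_card_of_injOn (fun y => y⁻¹ * v)
    (fun y hy => (W.mem_ball _ _).2 (Finset.mem_filter.1 hy).2)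
    fun y _ y' _ h => inv_injective (mul_right_cancel h)

variable {A : Type} [CStarAlgebra A] [PartialOrder A] [StarOrderedRing A]

lemma Q_apply (R : Reg G A) (b : K → K → ℂ) (ζ : Vec G K) (s : Finset G) (hs : ζ.support ⊆ s)
    (a : A) : R.Q b ζ a = ∑ x ∈ s, ∑ y ∈ s, fm b (ζ x) (ζ y) * R.co x y a := by
  rw [Hb2.Q_eq R b ζ s hs, ← Finset.sum_coe_sort s]
  simp only [sum_apply, smul_apply, smul_eq_mul]
  exact Finset.sum_congr rfl fun x _ =>
    Finset.sum_coe_sort s fun y => fm b (ζ x) (ζ y) * R.co x y a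

lemma Q_fiber {ι : Type} [DecidableEq ι] (R : Reg G A) (b : K → K → ℂ) (ζ : Vec G K) (c : G → ι) (g : G)
    (h : ∀ x ∈ ζ.support, x * g ∈ ζ.support → c x = c (x * g)) :
    R.Q b ζ (R.u g) = ∑ a ∈ ζ.support.image c, R.Q b (res {v | c v = a} ζ) (R.u g) := by
  rw [Q_apply R b ζ _ subset_rfl, Finset.sum_congr rfl fun a _ =>
    Q_apply R b (res {v | c v = a} ζ) ζ.support (fun x hx => (mem_res.1 hx).1) (R.u g),
    Finset.sum_comm (s := ζ.support.image c)]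
  refine Finset.sum_congr rfl fun x hx => ?_
  rw [Finset.sum_comm]
  refine Finset.sum_congr rfl fun y hy => ?_
  rw [R.co_u]
  split_ifs with hxy
  · subst hxy
    rw [Finset.sum_eq_single (c x)]
    · rw [res_apply, res_apply, if_pos (show x ∈ {v | c v = c x} from rfl),
        if_pos (show x * g ∈ {v | c v = c x} from (h x hx hy).symm)]
    · intro a _ ha
      rw [res_apply, if_neg (show x ∉ {v | c v = a} from ha.symm), Hb2.fm_zero_left, zero_mul]
    · exact fun hn => absurd (Finset.mem_image_of_mem c hx) hn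
  · simp

lemma Q_norm (R : Reg G A) (b : K → K → ℂ) (C : ℝ) (hC : 0 ≤ C) (hb : Bd b C) (ζ : Vec G K) :
    ‖R.Q b ζ‖ ≤ C * ‖sing (A := A) (0 : Fin 1) 0‖ * ms ζ :=
  ContinuousLinearMap.opNorm_le_bound _ (mul_nonneg (by positivity) (ms_nonneg ζ)) fun a =>
    (Hb2.Q_le R b C hC hb ζ a).trans_eq (by ring)

end Res

section GoodL

variable {A : Type} [CStarAlgebra A] [PartialOrder A] [StarOrderedRing A] {d : ℕ}
  {e : Fin d → Bid A}

omit [PartialOrder A] [StarOrderedRing A] in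
lemma good_mono {Φ : ℕ → Fin d → StrongDual ℂ A} {m : ℕ → ℝ} {η η' : ℝ} (h : GoodL e Φ m η)
    (hη : η ≤ η') : GoodL e Φ m η' := fun F μ h1 h2 => (h F μ h1 h2).trans (by linarith)

omit [PartialOrder A] [StarOrderedRing A] in
lemma good_zero : GoodL e (fun _ _ => 0) (fun _ => 0) 0 := by
  intro F μ h1 h2
  have h3 : ∀ j, F j = 0 := fun j => ContinuousLinearMap.ext fun a =>
    tendsto_nhds_unique (h1 j a) tendsto_const_nhds
  rw [tendsto_nhds_unique h2 tendsto_const_nhds]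
  simp [h3]

end GoodL

end OmM

open OmM

theorem w3a (hL2 : L2Stmt) : W3aStmt := by
  intro σ _ _ T G _ M K _ ξ γ i L R₀ w ρ hL hw hρ hs kk hk Γ hΓ
  have := T.nonempty_X
  choose! X Hh h1 h2 h3 h4 h5 using hs
  obtain ⟨B, hB⟩ : ∃ B, B = M.W.ball R₀ := ⟨_, rfl⟩
  rw [← hB]
  let P : G → T.X → Prop := fun h x =>
    γ * M.f x * h ∈ ξ.support ∧ Hh (γ * M.f x * h) = h ∧ X (γ * M.f x * h) = x
  have re : ∀ {β : Type} [AddCommMonoid β] (h : G) (F : G → β),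
      ∑ v ∈ ξ.support.filter (fun v => Hh v = h), F v =
        ∑ x ∈ T.pts i, if P h x then F (γ * M.f x * h) else 0 := by
    intro β _ h F
    rw [← Finset.sum_filter]
    have hv : ∀ v ∈ ξ.support.filter (fun v => Hh v = h), γ * M.f (X v) * h = v := fun v hv => by
      obtain ⟨a, b⟩ := Finset.mem_filter.1 hv
      rw [← b, ← h2 v a]
    refine Finset.sum_nbij' X (fun x => γ * M.f x * h) (fun v hv' => ?_) (fun x hx => ?_) hv
      (fun x hx => (Finset.mem_filter.1 hx).2.2.2) fun v hv' => by rw [hv v hv']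
    · obtain ⟨a, b⟩ := Finset.mem_filter.1 hv'
      refine Finset.mem_filter.2 ⟨(T.mem_pts _ _).2 (h1 v a), ?_⟩
      simp only [P, hv v hv']
      exact ⟨a, b, trivial⟩
    · obtain ⟨-, a, b, -⟩ := Finset.mem_filter.1 hx
      exact Finset.mem_filter.2 ⟨a, b⟩
  let k' : G → G → T.X → T.X → ℂ := fun h h' x y =>
    if P h x ∧ P h' y then kk (γ * M.f x * h) (γ * M.f y * h') else 0
  let a : G × G → G → ℂ := fun q g => ∑ x ∈ T.pts i, ∑ y ∈ T.pts i,
    if M.f y = M.f x * (q.1 * g * q.2⁻¹) then k' q.1 q.2 x y else 0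
  have mp : ∀ v ∈ ξ.support, Hh v ∈ B := fun v hv => hB ▸ (M.W.mem_ball _ _).2 (h3 v hv)
  have e1 : ∀ g, ∑ v ∈ ξ.support, kk v (v * g) = ∑ q ∈ B ×ˢ B, a q g := by
    intro g
    have b1 : ∀ v, kk v (v * g) = ∑ h' ∈ B, ∑ v' ∈ ξ.support.filter (fun v => Hh v = h'),
        if v' = v * g then kk v v' else 0 := by
      intro v
      rw [Finset.sum_fiberwise_of_maps_to mp, Finset.sum_ite_eq']
      split_ifs with hv
      · rfl
      · have := hk v (v * g)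
        rw [Finsupp.notMem_support_iff.1 hv, Hb2.nsq_zero, Real.sqrt_zero, mul_zero] at this
        exact norm_le_zero_iff.1 this
    rw [← Finset.sum_fiberwise_of_maps_to mp, Finset.sum_product]
    refine Finset.sum_congr rfl fun h _ => ?_
    simp only [b1]
    rw [Finset.sum_comm]
    refine Finset.sum_congr rfl fun h' _ => ?_
    rw [re]
    refine Finset.sum_congr rfl fun x _ => ?_
    rw [re]
    by_cases hx : P h x
    · rw [if_pos hx]
      refine Finset.sum_congr rfl fun y _ => ?_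
      have : γ * M.f y * h' = γ * M.f x * h * g ↔ M.f y = M.f x * (h * g * h'⁻¹) := by
        rw [mul_assoc γ, mul_assoc γ, mul_assoc γ, mul_right_inj, ← eq_mul_inv_iff_mul_eq]
        simp only [mul_assoc]
      simp only [k', this, hx, true_and]
      by_cases hy : P h' y <;> simp [hy]
    · simp [k', hx]
  have e2 : ∀ q ∈ B ×ˢ B, ∑ g ∈ Γ, ‖a q g‖ ^ 2 ≤
      2 * (∑ x ∈ ξ.support, ∑ y ∈ ξ.support, ‖kk x y‖ ^ 2 + ρ ^ 2) := by
    rintro ⟨h, h'⟩ hq
    obtain ⟨q1, q2⟩ := Finset.mem_product.1 hq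
    rw [hB, M.W.mem_ball] at q1 q2
    have b1 := hL2 σ T G M i L w (k' h h') hL hw (fun x y => ?_) (fun x y hxy => ?_)
      (Γ.image fun g => h * g * h'⁻¹) fun g' hg' => ?_
    · rw [Finset.sum_image fun g _ g' _ e => mul_left_cancel (mul_right_cancel e)] at b1
      have b2 : ∑ x ∈ T.pts i, ∑ y ∈ T.pts i, ‖k' h h' x y‖ ^ 2 ≤
          ∑ x ∈ ξ.support, ∑ y ∈ ξ.support, ‖kk x y‖ ^ 2 := by
        calc _ = ∑ v ∈ ξ.support.filter (fun v => Hh v = h),
              ∑ v' ∈ ξ.support.filter (fun v => Hh v = h'), ‖kk v v'‖ ^ 2 := by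
              rw [re]
              refine Finset.sum_congr rfl fun x _ => ?_
              rw [re]
              by_cases hx : P h x
              · rw [if_pos hx]
                refine Finset.sum_congr rfl fun y _ => ?_
                by_cases hy : P h' y <;> simp [k', hx, hy]
              · simp [k', hx]
          _ ≤ _ := (Finset.sum_le_sum fun v _ => Finset.sum_le_sum_of_subset_of_nonneg
              (Finset.filter_subset _ _) fun _ _ _ => by positivity).trans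
              (Finset.sum_le_sum_of_subset_of_nonneg (Finset.filter_subset _ _)
                fun _ _ _ => by positivity)
      have b3 : 12 * MM T w i ^ 2 / 2 ^ L ≤ 2 * ρ ^ 2 := by
        rw [div_le_iff₀ (by positivity)]; linarith
      exact b1.trans (by linarith)
    · simp only [k']
      split_ifs with hP
      · refine (hk _ _).trans (mul_le_mul ?_ ?_ (Real.sqrt_nonneg _) (hw _))
        · simpa only [hP.1.2.2] using h5 _ hP.1.1
        · simpa only [hP.2.2.2] using h5 _ hP.2.1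
      · rw [norm_zero]; exact mul_nonneg (hw _) (hw _)
    · have hP : P h x ∧ P h' y := by
        by_contra hn
        exact hxy (if_neg hn)
      exact ⟨by simpa only [hP.1.2.2] using h4 _ hP.1.1, by simpa only [hP.2.2.2] using h4 _ hP.2.1⟩
    · obtain ⟨g, hg, rfl⟩ := Finset.mem_image.1 hg'
      have c1 := hΓ g hg
      have c2 := M.W.wl_mul (h⁻¹ * (h * g * h'⁻¹)) h'
      have c3 := M.W.wl_mul h⁻¹ (h * g * h'⁻¹)
      rw [show h⁻¹ * (h * g * h'⁻¹) * h' = g by group] at c2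
      rw [M.W.wl_inv] at c3
      dsimp only at q1 q2
      omega
  calc ∑ g ∈ Γ, ‖∑ v ∈ ξ.support, kk v (v * g)‖ ^ 2
      ≤ ∑ g ∈ Γ, ((B ×ˢ B).card : ℝ) * ∑ q ∈ B ×ˢ B, ‖a q g‖ ^ 2 := by
        refine Finset.sum_le_sum fun g _ => ?_
        rw [e1]
        exact (pow_le_pow_left₀ (norm_nonneg _) (norm_sum_le _ _) 2).trans
          sq_sum_le_card_mul_sum_sq
    _ = ((B ×ˢ B).card : ℝ) * ∑ q ∈ B ×ˢ B, ∑ g ∈ Γ, ‖a q g‖ ^ 2 := by
        rw [← Finset.mul_sum, Finset.sum_comm]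
    _ ≤ ((B ×ˢ B).card : ℝ) * ((B ×ˢ B).card •
          (2 * (∑ x ∈ ξ.support, ∑ y ∈ ξ.support, ‖kk x y‖ ^ 2 + ρ ^ 2))) :=
        mul_le_mul_of_nonneg_left (Finset.sum_le_card_nsmul _ _ _ e2) (Nat.cast_nonneg _)
    _ = _ := by rw [nsmul_eq_mul, Finset.card_product]; push_cast; ring

theorem w3 (h3a : W3aStmt) (hC : CombStmt) (hF : FamStmt) : W3Stmt := by
  intro σ _ _ T G _ M A _ _ _ R d e S R₀ B₀ η hη
  obtain ⟨κ, hκ⟩ : ∃ κ : ℝ, κ = 2 * ((M.W.ball R₀).card : ℝ) ^ 4 := ⟨_, rfl⟩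
  have t1 : Tendsto (fun L : ℕ => 2 * (S.C + 1) * √κ * (√(6 / 2 ^ L) * B₀) * ∑ j, ‖e j‖) atTop
      (𝓝 (2 * (S.C + 1) * √κ * (√0 * B₀) * ∑ j, ‖e j‖)) :=
    ((((tendsto_const_nhds.div_atTop (tendsto_pow_atTop_atTop_of_one_lt one_lt_two)).sqrt).mul_const
      _).const_mul _).mul_const _
  rw [Real.sqrt_zero, zero_mul, mul_zero, zero_mul] at t1
  obtain ⟨L₀, hL₀⟩ := eventually_atTop.1 (t1.eventually_le_const hη)
  refine ⟨L₀, fun L hL ζ Lf w hm hLf hw hB hs => ?_⟩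
  choose! y y1 y2 y3 y4 using hs
  let c : ℕ → G → G × T.ι := fun i v => M.cl (y i v)
  let ξ : ∀ i, G × T.ι → Vec G (Fin (S.k i)) := fun i a => res {v | c i v = a} (ζ i)
  have hms : ∀ i, ∑ a ∈ (ζ i).support.image (c i), ms (ξ i a) = ms (ζ i) := fun i =>
    ms_fiber (c i) (ζ i)
  have hMM : ∀ i a, 0 ≤ MM T (w i a) a.2 := fun i a => Finset.sum_nonneg fun _ _ => sq_nonneg _
  have g1 := hF G M.W A R d e S (G × T.ι) (fun i => (ζ i).support.image (c i)) ξ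
    (fun i a => √(6 / 2 ^ L) * MM T (w i a) a.2) (L + 2 * R₀) κ (√(6 / 2 ^ L) * B₀)
    (by rw [hκ]; positivity) (fun i a => mul_nonneg (Real.sqrt_nonneg _) (hMM i a))
    (fun i => (hms i).trans_le (hm i))
    (fun i => by
      rw [← Finset.mul_sum]; exact mul_le_mul_of_nonneg_left (hB i _) (Real.sqrt_nonneg _))
    ((hLf.eventually_ge_atTop (2 ^ L)).mono fun i hi a ha => by
      obtain ⟨v₀, hv₀, rfl⟩ := Finset.mem_image.1 ha
      rw [hκ]
      refine h3a σ T G M _ _ (c i v₀).1 (c i v₀).2 L R₀ (w i (c i v₀)) _ ?_ (hw i _) ?_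
        fun v hv => ?_
      · exact ((Nat.pow_lt_pow_iff_right one_lt_two).1
          (hi.trans_lt (M.Y_ell _ _ (y1 i v₀ hv₀)))).le
      · rw [mul_pow, Real.sq_sqrt (by positivity)]
        exact le_of_eq (by field_simp)
      · obtain ⟨k1, k2⟩ := mem_res.1 hv
        have k3 : c i v = c i v₀ := k2
        refine ⟨M.pt (y i v), (y i v)⁻¹ * v, ?_, ?_, y2 i v k1, ?_, ?_⟩
        · rw [← k3]; rfl
        · rw [← k3]; simp [c, MG.cl]
        · rw [← k3]; exact y3 i v k1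
        · rw [res_apply, if_pos k2, ← k3]; exact y4 i v k1)
  obtain ⟨N, hN⟩ : ∃ N, N = ‖sing (A := A) (0 : Fin 1) 0‖ := ⟨_, rfl⟩
  have hN0 : 0 ≤ S.C * N := mul_nonneg S.C_nonneg (hN ▸ norm_nonneg _)
  have g2 := hC G A R d e (fun i j => R.Q (S.b i j) (ζ i)) _ _ (fun _ _ => 0)
    (fun i => ms (ζ i)) _ _ _ _ 0 (S.C * N + 1) (fun i j => ⟨?_, by rw [norm_zero]; linarith⟩)
    (fun i => ⟨?_, by rw [abs_zero]; linarith⟩) (Eventually.of_forall fun _ _ => norm_zero.le)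
    (fun j g => ?_) (Eventually.of_forall fun i => by rw [hms, add_zero]) g1 good_zero
  · refine good_mono g2 ?_
    rw [add_zero, zero_mul, add_zero]
    exact hL₀ L hL
  · refine (norm_sum_le _ _).trans ((Finset.sum_le_sum fun a _ =>
      Q_norm R _ S.C S.C_nonneg (S.bd i j) (ξ i a)).trans ?_)
    rw [← Finset.mul_sum, hms, ← hN]
    nlinarith [hm i]
  · rw [hms, abs_of_nonneg (ms_nonneg _)]
    linarith [hm i]
  · refine tendsto_const_nhds.congr'
      ((hLf.eventually_ge_atTop (R₀ + M.W.wl g + R₀)).mono fun i hi => ?_)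
    simp only [sub_zero, sub_apply, sum_apply]
    rw [Q_fiber R _ (ζ i) (c i) g fun x hx hx' => ?_, sub_self]
    have d1 := M.W.ds_tri (y i x) x (y i (x * g))
    have d2 := M.W.ds_tri x (x * g) (y i (x * g))
    rw [M.W.ds_mul_right, M.W.ds_comm (x * g)] at d2
    have := M.sep (Lf i) _ (y1 i x hx) _ (y1 i _ hx') (by
      have := y2 i x hx
      have := y2 i _ hx'
      omega)
    exact Prod.ext this.2 this.1

theorem om2 (hSat : SatStmt) (hSp : SplitStmt) (hAp : ApproxStmt) (hAm : AmStmt) (hHv : HvStmt)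
    (hNb : NbhStmt) (h3 : W3Stmt) : Om2Stmt := by
  intro σ _ _ T G _ M A _ _ _ R d e S ζ Lf R₀ hm hLf hs
  let P : ℕ → G × T.ι → T.X → Prop := fun i c x =>
    M.cl (c.1 * M.f x) = c ∧ M.pt (c.1 * M.f x) = x
  let w : ℕ → G × T.ι → T.X → ℝ := fun i c x =>
    if P i c x then √(ms (res {v | M.W.ds (c.1 * M.f x) v ≤ R₀} (ζ i))) else 0
  have hw : ∀ i c x, 0 ≤ w i c x := fun i c x => by
    simp only [w]
    split_ifs
    exacts [Real.sqrt_nonneg _, le_rfl]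
  have hw1 : ∀ i y, w i (M.cl y) (M.pt y) = √(ms (res {v | M.W.ds y v ≤ R₀} (ζ i))) := by
    intro i y
    have : (M.cl y).1 * M.f (M.pt y) = y := by simp [MG.cl]
    simp only [w, P, this, and_self, if_true]
  have hB : ∀ i (s : Finset (G × T.ι)), ∑ c ∈ s, MM T (w i c) c.2 ≤ (M.W.ball R₀).card := by
    intro i s
    let t := (s.sigma fun c => T.pts c.2).filter fun q => P i q.1 q.2
    calc ∑ c ∈ s, MM T (w i c) c.2
        = ∑ q ∈ t, ms (res {v | M.W.ds (q.1.1 * M.f q.2) v ≤ R₀} (ζ i)) := by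
          rw [Finset.sum_filter, Finset.sum_sigma]
          refine Finset.sum_congr rfl fun c _ => Finset.sum_congr rfl fun x _ => ?_
          simp only [w]
          split_ifs
          exacts [Real.sq_sqrt (ms_nonneg _), by simp]
      _ = ∑ y ∈ t.image fun q => q.1.1 * M.f q.2, ms (res {v | M.W.ds y v ≤ R₀} (ζ i)) := by
          rw [Finset.sum_image]
          rintro ⟨c, x⟩ hq ⟨c', x'⟩ hq' h
          obtain ⟨-, a1, a2⟩ := Finset.mem_filter.1 hq
          obtain ⟨-, b1, b2⟩ := Finset.mem_filter.1 hq'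
          dsimp only at h a1 a2 b1 b2
          rw [h] at a1 a2
          rw [← a1, ← a2, b1, b2]
      _ ≤ (M.W.ball R₀).card * ms (ζ i) := sum_ball _ _ _ _
      _ ≤ _ := mul_le_of_le_one_right (Nat.cast_nonneg _) (hm i)
  let Z : ℕ → ℕ → Set G := fun i L => {y | y ∈ M.Y (Lf i) ∧
    Hv T.Γ (Hs T (w i (M.cl y)) (T.ty (M.pt y))) L (T.r (T.ty (M.pt y))) (M.pt y)}
  have hZ : ∀ i L L', L ≤ L' → Z i L' ⊆ Z i L := fun i L L' h y ⟨a, r, b, c⟩ =>
    ⟨a, r, h.trans b, c⟩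
  obtain ⟨U, Lg, hLg, s1, s2, s3⟩ := hSat G M.W S.k ζ hm Z hZ
  have := hSp G M.W A R d e S ζ U 0 0 hm s1 ?_ ?_
  · simpa using this
  · refine hAm G M.W A R d e S _ (fun i => (ms_res_le _ _).trans (hm i)) fun R₁ ε hε => ?_
    obtain ⟨r, hr⟩ := s3 ε hε
    obtain ⟨S₀, L, hS₀⟩ := M.am2 (R₁ + 2 * r) ε hε
    refine ⟨S₀ + r, fun i => M.W.Nb r {y | y ∈ M.Y L ∧
      Hv T.Γ (Hs T (w i (M.cl y)) (T.ty (M.pt y))) L (T.r (T.ty (M.pt y))) (M.pt y)},
      Eventually.of_forall fun i => hNb G M.W _ R₁ r ε S₀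
        (hS₀ (fun c => Hs T (w i c) c.2) fun c => hHv σ T _ _), small_res (small_mono hr ?_)⟩
    filter_upwards [hLf.eventually_ge_atTop L, hLg.eventually_ge_atTop L] with i a b
    refine Set.inter_subset_inter_right _ (Set.compl_subset_compl.2 (M.W.nb_mono le_rfl ?_))
    exact fun y hy => ⟨M.Y_anti _ _ a hy.1, (hZ i _ _ b hy).2⟩
  · refine hAp G A R d e S _ (fun i => (ms_res_le _ _).trans (hm i)) fun η hη => ?_
    obtain ⟨L₀, hL₀⟩ := h3 σ T G M A R d e S R₀ (M.W.ball R₀).card η hη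
    obtain ⟨L, hL⟩ := s2 R₀ η hη
    refine ⟨fun i => (M.W.Nb R₀ (Z i (max L L₀)))ᶜ, small_res (small_mono hL
      (Eventually.of_forall fun i => ?_)), hL₀ (max L L₀) (le_max_right _ _) _ Lf w
      (fun i => (ms_res_le _ _).trans ((ms_res_le _ _).trans (hm i))) hLf hw hB fun i v hv => ?_⟩
    · rw [compl_compl]
      exact Set.inter_subset_inter_right _ (M.W.nb_mono le_rfl (hZ i _ _ (le_max_left _ _)))
    · obtain ⟨a, b⟩ := mem_res.1 hv
      obtain ⟨a1, a2⟩ := mem_res.1 a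
      obtain ⟨y, y1, y2⟩ := hs i v a1
      have y3 : M.W.ds y v ≤ R₀ := M.W.ds_comm v y ▸ y2
      refine ⟨y, y1, y3, fun hv => b ⟨y, ⟨y1, hv⟩, y2⟩, ?_⟩
      rw [hw1, res_apply, if_pos b, res_apply, if_pos a2]
      refine Real.sqrt_le_sqrt (le_trans (le_of_eq ?_) (nsq_le_ms _ v))
      rw [res_apply, if_pos (show v ∈ {v | M.W.ds y v ≤ R₀} from y3)]

theorem om (hSat : SatStmt) (hSp : SplitStmt) (hAp : ApproxStmt) (hAm : AmStmt) (h2 : Om2Stmt) :
    OmStmt := by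
  intro σ _ _ T G _ M A _ _ _ R d e S ζ hm
  obtain ⟨U, Lf, hL, s1, s2, s3⟩ :=
    hSat G M.W S.k ζ hm (fun _ L => M.Y L) fun _ L L' h => M.Y_anti L L' h
  have := hSp G M.W A R d e S ζ U 0 0 hm s1 ?_ ?_
  · simpa using this
  · refine hAp G A R d e S _ (fun i => (ms_res_le _ _).trans (hm i)) fun η hη => ?_
    obtain ⟨r, hr⟩ := s3 η hη
    exact ⟨fun i => M.W.Nb r (M.Y (Lf i)), small_res hr, good_mono (h2 σ T G M A R d e S _ Lf r
      (fun i => (ms_res_le _ _).trans ((ms_res_le _ _).trans (hm i))) hL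
      fun i v hv => (mem_res.1 hv).2) hη.le⟩
  · refine hAm G M.W A R d e S _ (fun i => (ms_res_le _ _).trans (hm i)) fun R₀ ε hε => ?_
    obtain ⟨S', hS'⟩ := M.am1 R₀ ε hε
    obtain ⟨L, hL'⟩ := s2 S' ε hε
    obtain ⟨S₀, hS₀⟩ := hS' L
    exact ⟨S₀, fun _ => (M.W.Nb S' (M.Y L))ᶜ, Eventually.of_forall fun _ => hS₀,
      small_res (by simpa only [compl_compl] using hL')⟩

end Pool.Agent.MP_88ca14_an

end
end MrgPart1

-- ======== part 2: formerly Pool.Agent.MP_88ca14_an.Xa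
section MrgPart2

/-!
PROJECT LRX: amenability of the heavy points of a tile (`xa`) and the monster package (`mon`).
-/

set_option autoImplicit false

noncomputable section

namespace Pool.Agent.MP_88ca14_an

open scoped Classical
open Amn

namespace XaM

section L1

variable {α β : Type}

theorem l1_zero : l1 (0 : α →₀ ℝ) = 0 := by simp [l1]

theorem l1_add (φ ψ : α →₀ ℝ) : l1 (φ + ψ) ≤ l1 φ + l1 ψ :=
  l1_le_add _ _ _ fun z => by simpa using abs_add_le (φ z) (ψ z)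

theorem l1_sum {ι : Type} (s : Finset ι) (φ : ι → α →₀ ℝ) :
    l1 (∑ i ∈ s, φ i) ≤ ∑ i ∈ s, l1 (φ i) := by
  induction s using Finset.induction_on with
  | empty => simp [l1_zero]
  | insert a s ha ih =>
    rw [Finset.sum_insert ha, Finset.sum_insert ha]
    exact (l1_add _ _).trans (by linarith)

theorem l1_single (a : α) (r : ℝ) : l1 (Finsupp.single a r) = |r| := by
  rw [l1_eq _ {a} Finsupp.support_single_subset]; simp

theorem l1_tri (φ ψ χ : α →₀ ℝ) : l1 (φ - χ) ≤ l1 (φ - ψ) + l1 (ψ - χ) := by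
  have := l1_add (φ - ψ) (ψ - χ)
  rwa [sub_add_sub_cancel] at this

theorem l1_map (f : α → β) (φ : α →₀ ℝ) : l1 (Finsupp.mapDomain f φ) ≤ l1 φ := by
  rw [Finsupp.mapDomain, Finsupp.sum]
  refine (l1_sum _ _).trans (le_of_eq ?_)
  simp only [l1_single]; rfl

theorem tot_map (f : α → β) (φ : α →₀ ℝ) : tot (Finsupp.mapDomain f φ) = tot φ := by
  conv_rhs => rw [← Finsupp.sum_single φ]
  rw [Finsupp.mapDomain, Finsupp.sum, Finsupp.sum, map_sum, map_sum]
  simp only [tot_single]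

theorem map_nonneg (f : α → β) (φ : α →₀ ℝ) (h : ∀ z, 0 ≤ φ z) (z : β) :
    0 ≤ Finsupp.mapDomain f φ z := by
  rw [Finsupp.mapDomain, Finsupp.sum, Finsupp.finsetSum_apply]
  refine Finset.sum_nonneg fun a _ => ?_
  rw [Finsupp.single_apply]
  split_ifs
  · exact h a
  · exact le_rfl

theorem map_sub (f : α → β) (φ ψ : α →₀ ℝ) :
    Finsupp.mapDomain f φ - Finsupp.mapDomain f ψ = Finsupp.mapDomain f (φ - ψ) :=
  ((Finsupp.mapDomain.addMonoidHom f).map_sub φ ψ).symm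

end L1

section Local

variable {σ V : Type} [DecidableEq σ] (Y : LG σ V)

theorem near_mono {m n : ℕ} {u v : V} (h : Y.Near m u v) (hmn : m ≤ n) : Y.Near n u v :=
  let ⟨g, h1, h2⟩ := h
  ⟨g, h1, h2.trans hmn⟩

theorem near_refl (n : ℕ) (u : V) : Y.Near n u u := ⟨1, rfl, by simp⟩

theorem near_symm {n : ℕ} {u v : V} (h : Y.Near n u v) : Y.Near n v u :=
  let ⟨g, h1, h2⟩ := h
  ⟨g⁻¹, GrM.rd_inv h1, by rwa [FreeGroup.norm_inv_eq]⟩

theorem near_trans {m n : ℕ} {u v w : V} (h : Y.Near m u v) (h' : Y.Near n v w) :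
    Y.Near (m + n) u w :=
  let ⟨g, h1, h2⟩ := h
  let ⟨g', h3, h4⟩ := h'
  ⟨g * g', GrM.rd_mul h1 h3, (FreeGroup.norm_mul_le _ _).trans (Nat.add_le_add h2 h4)⟩

theorem near_step {u v : V} {a : σ × Bool} (h : Y.step u a v) : Y.Near 1 u v :=
  GrM.near_of_walk (GrM.walk_single.2 h) le_rfl

/-- The short word from `u` to `z`. -/
def wd (E : ℕ) (z u : V) : FreeGroup σ := if h : Y.Near E u z then h.choose else 1

/-- The truncated distance from `u` to `z`. -/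
def dd (E : ℕ) (z u : V) : ℕ := if Y.Near E u z then (wd Y E z u).norm else E

/-- One step from `u` towards `z`. -/
def nx (E : ℕ) (z u : V) : V :=
  if h : ∃ v a L, (wd Y E z u).toWord = a :: L ∧ Y.step u a v then h.choose else u

theorem wd_spec {E : ℕ} {z u : V} (h : Y.Near E u z) :
    Y.Rd u (wd Y E z u) z ∧ (wd Y E z u).norm ≤ E := by
  rw [wd, dif_pos h]; exact h.choose_spec

theorem dd_le (E : ℕ) (z u : V) : dd Y E z u ≤ E := by
  unfold dd
  split_ifs with h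
  · exact (wd_spec Y h).2
  · exact le_rfl

theorem near_dd {E : ℕ} {z u : V} (h : dd Y E z u < E) : Y.Near (dd Y E z u) u z := by
  unfold dd at h ⊢
  split_ifs at h ⊢ with h'
  · exact ⟨_, (wd_spec Y h').1, le_rfl⟩
  · exact absurd h (lt_irrefl _)

theorem nx_near (E : ℕ) (z u : V) : Y.Near 1 u (nx Y E z u) := by
  unfold nx
  split_ifs with h
  · obtain ⟨a, L, -, h2⟩ := h.choose_spec
    exact near_step Y h2
  · exact near_refl Y 1 u

theorem nx_eq {E : ℕ} {z u v : V} {a : σ × Bool} {L : List (σ × Bool)}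
    (h1 : (wd Y E z u).toWord = a :: L) (h2 : Y.step u a v) : nx Y E z u = v := by
  have h : ∃ v a L, (wd Y E z u).toWord = a :: L ∧ Y.step u a v := ⟨v, a, L, h1, h2⟩
  rw [nx, dif_pos h]
  obtain ⟨a', L', h3, h4⟩ := h.choose_spec
  rw [h1] at h3
  cases h3
  exact GrM.step_func h4 h2

theorem iter_near (E : ℕ) (z : V) : ∀ (k : ℕ) (u : V), Y.Near k u ((nx Y E z)^[k] u)
  | 0, u => near_refl Y 0 u
  | k + 1, u => by
    rw [Function.iterate_succ_apply']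
    exact near_trans Y (iter_near E z k u) (nx_near Y E z _)

/-- The first `S` points of the path from `u` to `z`. -/
def path (E S : ℕ) (z u : V) : V →₀ ℝ := blk (fun k => (nx Y E z)^[k] u) (Finset.range S)

theorem l1_path (E S : ℕ) (z u : V) : l1 (path Y E S z u) = S := by
  rw [path, l1_tot _ (blk_nonneg _ _), tot_blk, Finset.card_range]

theorem path_nx (E S : ℕ) (z u : V) : l1 (path Y E S z u - path Y E S z (nx Y E z u)) ≤ 2 := by
  have : path Y E S z u - path Y E S z (nx Y E z u) =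
      Finsupp.single u 1 + Finsupp.single ((nx Y E z)^[S] u) (-1) := by
    unfold path blk
    have h1 := Finset.sum_range_succ' (fun k => Finsupp.single ((nx Y E z)^[k] u) (1 : ℝ)) S
    rw [Finset.sum_range_succ] at h1
    simp only [Function.iterate_succ_apply, Function.iterate_zero_apply] at h1
    rw [Finsupp.single_neg, ← sub_eq_add_neg, sub_eq_sub_iff_add_eq_add, h1, add_comm]
  rw [this]
  refine (l1_add _ _).trans ?_
  rw [l1_single, l1_single]; norm_num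

variable {Y} {P : V → Prop} {E : ℕ}

/-- Local uniqueness of short words. -/
def Uq (Y : LG σ V) (P : V → Prop) (E : ℕ) : Prop :=
  (∀ u a v, P u → Y.step u a v → P v) ∧ ∀ u g, P u → Y.Rd u g u → g.norm ≤ 2 * E → g = 1

theorem Uq.wd_eq (hU : Uq Y P E) {z u : V} (hu : P u) {g : FreeGroup σ} (h : Y.Rd u g z)
    (hg : g.norm ≤ E) : wd Y E z u = g := by
  obtain ⟨h1, h2⟩ := wd_spec Y ⟨g, h, hg⟩
  have := hU.2 u (wd Y E z u * g⁻¹) hu (GrM.rd_mul h1 (GrM.rd_inv h))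
    ((FreeGroup.norm_mul_le _ _).trans (by rw [FreeGroup.norm_inv_eq]; omega))
  exact mul_inv_eq_one.1 this

theorem Uq.dd_near (hU : Uq Y P E) {z u : V} (hu : P u) {n : ℕ} (h : Y.Near n u z) :
    dd Y E z u ≤ n := by
  obtain ⟨g, h1, h2⟩ := h
  by_cases hg : g.norm ≤ E
  · rw [dd, if_pos ⟨g, h1, hg⟩, hU.wd_eq hu h1 hg]; exact h2
  · have := dd_le Y E z u
    omega

theorem Uq.dd_lip (hU : Uq Y P E) {z u v : V} (hu : P u) {n : ℕ} (h : Y.Near n u v) :
    dd Y E z u ≤ n + dd Y E z v := by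
  by_cases hv : dd Y E z v < E
  · exact hU.dd_near hu (near_trans Y h (near_dd Y hv))
  · have := dd_le Y E z u
    omega

theorem Uq.nx_step (hU : Uq Y P E) {z u v : V} (hu : P u) {a : σ × Bool} (h : Y.step u a v)
    {m : ℕ} (hz : Y.Near m u z) (hm : m < E) : nx Y E z u = v ∨ nx Y E z v = u := by
  obtain ⟨g, h1, h2⟩ := hz
  have e1 := hU.wd_eq hu h1 (by omega)
  have hw : Y.Walk v ((a.1, !a.2) :: g.toWord) z := ⟨u, GrM.step_rev h, h1⟩
  have e2 := hU.wd_eq (hU.1 _ _ _ hu h) (GrM.rd_mk hw)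
    (FreeGroup.norm_mk_le.trans (by unfold FreeGroup.norm at h2; simp only [List.length_cons]; omega))
  by_cases hr : FreeGroup.IsReduced ((a.1, !a.2) :: g.toWord)
  · exact Or.inr (nx_eq Y (by rw [e2]; exact GrM.toWord_mk_red hr) (GrM.step_rev h))
  · left
    have hred : FreeGroup.IsReduced g.toWord := FreeGroup.isReduced_toWord
    rcases hg : g.toWord with _ | ⟨b, L⟩
    · rw [hg] at hr; exact absurd FreeGroup.IsReduced.singleton hr
    · rw [hg] at hr hred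
      have hb : b = a := by
        by_contra hc
        refine hr (List.isChain_cons_cons.2 ⟨fun h3 => ?_, hred⟩)
        by_contra h4
        refine hc (Prod.ext (Eq.symm h3) ?_)
        revert h4
        cases a.2 <;> cases b.2 <;> simp
      exact nx_eq Y (by rw [e1, hg, hb]) h

theorem Uq.path_walk (hU : Uq Y P E) (S : ℕ) (z : V) : ∀ (L : List (σ × Bool)) (u v : V) (m : ℕ),
    P u → Y.Walk u L v → Y.Near m u z → m + L.length ≤ E →
      l1 (path Y E S z u - path Y E S z v) ≤ 2 * L.length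
  | [], u, v, _, _, h, _, _ => by cases h; simp [l1_zero]
  | a :: L, u, v, m, hu, ⟨u', h1, h2⟩, hz, hm => by
    rw [List.length_cons] at hm ⊢
    have ih := hU.path_walk S z L u' v (1 + m) (hU.1 _ _ _ hu h1) h2
      (near_trans Y (near_symm Y (near_step Y h1)) hz) (by omega)
    have h3 : l1 (path Y E S z u - path Y E S z u') ≤ 2 := by
      rcases hU.nx_step hu h1 hz (by omega) with h | h
      · rw [← h]; exact path_nx Y E S z u
      · rw [l1_neg_sub, ← h]; exact path_nx Y E S z u'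
    have := l1_tri (path Y E S z u) (path Y E S z u') (path Y E S z v)
    push_cast
    linarith

theorem shc_symm {Sg : ℕ → Finset (FreeGroup σ)} {r : ℕ} {u v : V} (h : ShC Y Sg r u v) :
    ShC Y Sg r v u := by
  induction h with
  | refl => exact Relation.ReflTransGen.refl
  | tail _ h2 ih =>
    obtain ⟨h3, h4, a, h5⟩ := h2
    exact Relation.ReflTransGen.head ⟨h4, h3, _, GrM.step_rev h5⟩ ih

theorem shc_walk {Sg : ℕ → Finset (FreeGroup σ)} {r n : ℕ} {y : V} (h1 : 1 ≤ n) (h2 : n ≤ r)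
    (hy : ∃ g ∈ Sg n, Y.Reads y g) : ∀ (L : List (σ × Bool)) (u v : V) (m : ℕ),
    Y.Walk u L v → Y.Near m u y → m + L.length ≤ n → ShC Y Sg r u v
  | [], u, v, _, h, _, _ => by cases h; exact Relation.ReflTransGen.refl
  | a :: L, u, v, m, ⟨u', h3, h4⟩, hz, hm => by
    rw [List.length_cons] at hm
    have hz' := near_trans Y (near_symm Y (near_step Y h3)) hz
    exact Relation.ReflTransGen.head ⟨⟨n, h1, h2, y, near_mono Y hz (by omega), hy⟩,
      ⟨n, h1, h2, y, near_mono Y hz' (by omega), hy⟩, a, h3⟩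
      (shc_walk h1 h2 hy L u' v (1 + m) h4 hz' (by omega))

end Local

/-- The truncated exponential weight. -/
def om (δ : ℝ) (D n : ℕ) : ℝ := max (Real.exp (-(δ * n)) - Real.exp (-(δ * D))) 0

theorem om_nonneg (δ : ℝ) (D n : ℕ) : 0 ≤ om δ D n := le_max_right _ _

theorem om_lt {δ : ℝ} (hδ : 0 < δ) {D n : ℕ} (h : om δ D n ≠ 0) : n < D := by
  by_contra hc
  refine h (max_eq_right (sub_nonpos.2 (Real.exp_le_exp.2 ?_)))
  have : (D : ℝ) ≤ n := by exact_mod_cast not_lt.1 hc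
  nlinarith

theorem om_lip {δ : ℝ} (hδ : 0 < δ) {R : ℕ} (hR : δ * R ≤ 1) (D : ℕ) {n m : ℕ} (h1 : n ≤ R + m)
    (h2 : m ≤ R + n) : |om δ D n - om δ D m| ≤ 2 * (δ * R) * (om δ D n + Real.exp (-(δ * D))) := by
  have a1 : (n : ℝ) ≤ R + m := by exact_mod_cast h1
  have a2 : (m : ℝ) ≤ R + n := by exact_mod_cast h2
  have a3 : |δ * (n - m)| ≤ δ * R := by
    rw [abs_mul, abs_of_pos hδ]
    exact mul_le_mul_of_nonneg_left (abs_le.2 ⟨by linarith, by linarith⟩) hδ.le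
  have a4 := Real.abs_exp_sub_one_le (a3.trans hR)
  have a5 : |om δ D n - om δ D m| ≤ |Real.exp (-(δ * n)) - Real.exp (-(δ * m))| := by
    refine (abs_max_sub_max_le_abs _ _ _).trans (le_of_eq ?_)
    congr 1; ring
  have a6 : |Real.exp (-(δ * n)) - Real.exp (-(δ * m))| =
      |Real.exp (δ * (n - m)) - 1| * Real.exp (-(δ * n)) := by
    rw [← abs_of_pos (Real.exp_pos (-(δ * n))), ← abs_mul, abs_of_pos (Real.exp_pos (-(δ * n))),
      sub_mul, ← Real.exp_add, ← abs_neg]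
    congr 1
    rw [show δ * (n - m) + -(δ * n) = -(δ * m) by ring]; ring
  have a7 : Real.exp (-(δ * n)) ≤ om δ D n + Real.exp (-(δ * D)) := by
    have := le_max_left (Real.exp (-(δ * n)) - Real.exp (-(δ * D))) 0
    unfold om; linarith
  rw [a6] at a5
  exact a5.trans (mul_le_mul (by linarith) a7 (Real.exp_pos _).le (by positivity))

theorem om_low {δ : ℝ} (hδ : 0 < δ) {l n : ℕ} (hn : n ≤ l) {N : ℝ}
    (hN : N + 1 ≤ Real.exp (δ * l)) : N * Real.exp (-(δ * (2 * l : ℕ))) ≤ om δ (2 * l) n := by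
  refine le_trans ?_ (le_max_left _ _)
  have a1 : (n : ℝ) ≤ l := by exact_mod_cast hn
  have a2 : Real.exp (-(δ * l)) ≤ Real.exp (-(δ * n)) := Real.exp_le_exp.2 (by nlinarith)
  have a3 : Real.exp (δ * l) * Real.exp (-(δ * (2 * l : ℕ))) = Real.exp (-(δ * l)) := by
    rw [← Real.exp_add]; congr 1; push_cast; ring
  have a4 := mul_le_mul_of_nonneg_right hN (Real.exp_pos (-(δ * (2 * l : ℕ)))).le
  linarith

theorem exp_big {δ : ℝ} (hδ : 0 < δ) :
    ∃ L : ℕ, ∀ l : ℕ, L ≤ l → ((l ^ 12 : ℕ) : ℝ) + 1 ≤ Real.exp (δ * l) := by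
  obtain ⟨L, hL⟩ := exists_nat_ge (2 * (Nat.factorial 13 : ℝ) / δ ^ 13)
  refine ⟨L + 1, fun l hl => ?_⟩
  have a1 : (L : ℝ) + 1 ≤ l := by exact_mod_cast hl
  have a0 : (0 : ℝ) ≤ L := Nat.cast_nonneg _
  have a2 := Real.pow_div_factorial_le_exp (δ * l) (by positivity) 13
  have a3 : (0 : ℝ) < (Nat.factorial 13 : ℝ) := by exact_mod_cast Nat.factorial_pos 13
  have a4 : (1 : ℝ) ≤ (l : ℝ) ^ 12 := one_le_pow₀ (by linarith)
  rw [div_le_iff₀ (by positivity)] at hL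
  refine le_trans ?_ a2
  rw [le_div_iff₀ a3, mul_pow, pow_succ (l : ℝ) 12]
  push_cast
  have a5 : 2 * (Nat.factorial 13 : ℝ) ≤ δ ^ 13 * l := by
    have : (0 : ℝ) < δ ^ 13 := by positivity
    nlinarith
  nlinarith

/-- The core estimate: few centres, locally a tree. -/
theorem core {σ V : Type} [DecidableEq σ] {Y : LG σ V} {P : V → Prop} {l : ℕ}
    (hU : Uq Y P (4 * l)) (hl : 0 < l) (W : Set V) (hW : ∀ y ∈ W, P y) {R S : ℕ} (hR : R ≤ l)
    (hS : 0 < S) {δ : ℝ} (hδ : 0 < δ) (hδR : δ * R ≤ 1) (Z : V → Finset V)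
    (hZ : ∀ y ∈ W, ((Z y).card : ℝ) + 1 ≤ Real.exp (δ * l) ∧ ∃ z ∈ Z y, Y.Near l z y)
    (hZ' : ∀ y ∈ W, ∀ y' ∈ W, Y.Near R y y' → Z y = Z y') :
    Amen Y.Near W R (2 * (2 * R / S + 4 * (δ * R))) S := by
  let ω : V → V → ℝ := fun z y => om δ (2 * l) (dd Y (4 * l) z y)
  let ξ : V → V →₀ ℝ := fun y => ∑ z ∈ Z y, ω z y • path Y (4 * l) S z y
  have hS' : (0 : ℝ) < S := by exact_mod_cast hS
  have hξ : ∀ y u, ξ y u = ∑ z ∈ Z y, ω z y * path Y (4 * l) S z y u := fun y u =>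
    Finsupp.finsetSum_apply _ _ _
  have h0 : ∀ y u, 0 ≤ ξ y u := fun y u => by
    rw [hξ]; exact Finset.sum_nonneg fun z _ => mul_nonneg (om_nonneg _ _ _) (blk_nonneg _ _ _)
  have hl1 : ∀ y, l1 (ξ y) = (∑ z ∈ Z y, ω z y) * S := fun y => by
    rw [l1_tot _ (h0 y), map_sum, Finset.sum_mul]
    refine Finset.sum_congr rfl fun z _ => ?_
    rw [← l1_tot _ fun u => mul_nonneg (om_nonneg _ _ _) (blk_nonneg _ _ u), l1_smul, l1_path,
      abs_of_nonneg (om_nonneg _ _ _)]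
  have hlow : ∀ y ∈ W, ((Z y).card : ℝ) * Real.exp (-(δ * (2 * l : ℕ))) ≤ ∑ z ∈ Z y, ω z y := by
    intro y hy
    obtain ⟨h1, z, hz, hz'⟩ := hZ y hy
    exact (om_low hδ (hU.dd_near (hW y hy) (near_symm Y hz')) h1).trans
      (Finset.single_le_sum (f := fun z => ω z y) (fun z _ => om_nonneg _ _ _) hz)
  refine unn V Y.Near W R _ S ξ h0 (fun y hy => ?_) (fun y _ u hu => ?_) fun y hy y' hy' hyy => ?_
  · rw [hl1]
    refine mul_pos (lt_of_lt_of_le (mul_pos ?_ (Real.exp_pos _)) (hlow y hy)) hS'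
    obtain ⟨-, z, hz, -⟩ := hZ y hy
    exact_mod_cast Finset.card_pos.2 ⟨z, hz⟩
  · rw [hξ] at hu
    obtain ⟨z, -, hz⟩ := Finset.exists_ne_zero_of_sum_ne_zero hu
    obtain ⟨k, hk, rfl⟩ := blk_ne _ _ _ (right_ne_zero_of_mul hz)
    exact near_mono Y (iter_near Y _ z k y) (Finset.mem_range.1 hk).le
  · have e1 : ξ y - ξ y' = ∑ z ∈ Z y, (ω z y • (path Y (4 * l) S z y - path Y (4 * l) S z y') +
        (ω z y - ω z y') • path Y (4 * l) S z y') := by
      simp only [ξ]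
      rw [← hZ' y hy y' hy' hyy, ← Finset.sum_sub_distrib]
      exact Finset.sum_congr rfl fun z _ => by rw [smul_sub, sub_smul]; abel
    have e2 : ∀ z, l1 (ω z y • (path Y (4 * l) S z y - path Y (4 * l) S z y') +
        (ω z y - ω z y') • path Y (4 * l) S z y') ≤
        ω z y * (2 * R) + 2 * (δ * R) * (ω z y + Real.exp (-(δ * (2 * l : ℕ)))) * S := by
      intro z
      refine (l1_add _ _).trans (add_le_add ?_ ?_)
      · rw [l1_smul, abs_of_nonneg (om_nonneg _ _ _)]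
        by_cases hz : ω z y = 0
        · simp only [ω] at hz ⊢; rw [hz]; simp
        refine mul_le_mul_of_nonneg_left ?_ (om_nonneg _ _ _)
        have a1 := om_lt hδ hz
        obtain ⟨g, hg1, hg2⟩ := hyy
        have a2 : g.toWord.length ≤ R := hg2
        have a3 := hU.path_walk S z g.toWord y y' _ (hW y hy) hg1 (near_dd Y (E := 4 * l) (by omega))
          (by omega)
        have a4 : (g.toWord.length : ℝ) ≤ R := by exact_mod_cast a2
        linarith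
      · rw [l1_smul, l1_path]
        exact mul_le_mul_of_nonneg_right (om_lip hδ hδR _ (hU.dd_lip (hW y hy) hyy)
          (hU.dd_lip (hW y' hy') (near_symm Y hyy))) hS'.le
    rw [e1, hl1]
    refine (l1_sum _ _).trans ((Finset.sum_le_sum fun z _ => e2 z).trans ?_)
    rw [Finset.sum_add_distrib, ← Finset.sum_mul, ← Finset.sum_mul, ← Finset.mul_sum,
      Finset.sum_add_distrib, Finset.sum_const, nsmul_eq_mul]
    have a1 := hlow y hy
    have a2 : (2 * R / S + 4 * (δ * R)) * ((∑ z ∈ Z y, ω z y) * S) =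
        (∑ z ∈ Z y, ω z y) * (2 * R) + 2 * (δ * R) * (2 * ∑ z ∈ Z y, ω z y) * S := by
      field_simp; ring
    rw [a2]
    have a3 : 0 ≤ 2 * (δ * R) := by positivity
    gcongr
    linarith

theorem amen_mono {α : Type} {near : ℕ → α → α → Prop} {W : Set α} {R S : ℕ} {ε ε' : ℝ}
    (h : Amen near W R ε S) (hε : ε ≤ ε') : Amen near W R ε' S :=
  let ⟨μ, h0, h1, h2, h3⟩ := h
  ⟨μ, h0, h1, h2, fun x hx y hy hxy => (h3 x hx y hy hxy).trans hε⟩

end XaM

open XaM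

theorem xa : XaStmt := by
  intro R ε hε
  have hR0 : (0 : ℝ) ≤ R := Nat.cast_nonneg _
  obtain ⟨S, hS⟩ := exists_nat_gt (8 * R / ε)
  have hS0 : (0 : ℝ) < S := lt_of_le_of_lt (by positivity) hS
  let δ : ℝ := min ε 1 / (16 * (R + 1))
  have hm : 0 < min ε 1 := lt_min hε one_pos
  have hδ : 0 < δ := by positivity
  have hδR : δ * R ≤ min ε 1 / 16 := by
    rw [div_mul_eq_mul_div, div_le_div_iff₀ (by positivity) (by norm_num)]
    nlinarith
  obtain ⟨L₀, hL₀⟩ := exp_big hδ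
  refine ⟨S, L₀ + R + 1, fun σ _ _ T i hi Sg hSg => ?_⟩
  have hr : T.r i < 2 ^ T.r i := Nat.lt_two_pow_self
  have hU : Uq T.Γ (fun x => T.ty x = i) (4 * 2 ^ T.r i) := by
    refine ⟨fun u a v hu h => ?_, fun u g hu h hg => ?_⟩
    · obtain ⟨g, hg, -⟩ := near_step T.Γ h
      exact ((T.conn u v).2 ⟨g, hg⟩).symm.trans hu
    · rcases T.girth u g h with h1 | h1
      · exact h1
      · rw [hu] at h1; omega
  have hK : ∀ K : Set T.X, ∃ zs : Finset T.X, (∃ x, T.ty x = i ∧ K = {u | ShC T.Γ Sg (T.r i) x u}) →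
      zs.card ≤ (2 ^ T.r i) ^ 12 ∧ ∀ y ∈ K, ∃ z ∈ zs, T.Γ.Near (2 ^ T.r i) z y := fun K => by
    by_cases h : ∃ x, T.ty x = i ∧ K = {u | ShC T.Γ Sg (T.r i) x u}
    · obtain ⟨x, hx, rfl⟩ := h
      obtain ⟨zs, h1, h2⟩ := hx ▸ T.thin Sg hSg x
      exact ⟨zs, fun _ => ⟨h1, h2⟩⟩
    · exact ⟨∅, fun h' => absurd h' h⟩
  choose Z hZ using hK
  refine amen_mono (core hU (by omega) _ (fun y hy => hy.1) (by omega) (by exact_mod_cast hS0) hδ
    (by linarith [min_le_right ε 1]) (fun y => Z {u | ShC T.Γ Sg (T.r i) y u}) (fun y hy => ?_)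
    fun y hy y' _ hyy => ?_) ?_
  · obtain ⟨h1, h2⟩ := hZ _ ⟨y, hy.1, rfl⟩
    refine ⟨le_trans ?_ (hL₀ (2 ^ T.r i) (by omega)), h2 y Relation.ReflTransGen.refl⟩
    exact_mod_cast Nat.succ_le_succ h1
  · obtain ⟨-, n, h1, h2, h3⟩ := hy
    obtain ⟨g, hg1, hg2⟩ := hyy
    have a2 : g.toWord.length ≤ R := hg2
    have hc : ShC T.Γ Sg (T.r i) y y' :=
      shc_walk (by omega) h2 h3 g.toWord y y' 0 hg1 (near_refl _ 0 y) (by omega)
    have : {u | ShC T.Γ Sg (T.r i) y u} = {u | ShC T.Γ Sg (T.r i) y' u} :=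
      Set.ext fun u => ⟨fun h => (shc_symm hc).trans h, fun h => hc.trans h⟩
    simp only [this]
  · have a1 : 2 * R / S ≤ ε / 4 := by
      rw [div_lt_iff₀ hε] at hS
      rw [div_le_iff₀ hS0]; linarith
    linarith [min_le_left ε 1]

namespace XaM

section Mon

variable {σ : Type} [Fintype σ] [DecidableEq σ] {T : Tiles σ} {G : Type} [Group G]

omit [Fintype σ] [DecidableEq σ] in
theorem cay_walk (π : FreeGroup σ →* G) : ∀ (L : List (σ × Bool)) (v : G),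
    (cay π).Walk v L (v * π (FreeGroup.mk L))
  | [], v => by
    show v = v * π 1
    simp
  | (a, b) :: L, v => by
    refine ⟨v * π (FreeGroup.mk [(a, b)]), ?_, ?_⟩
    · cases b
      · refine Or.inr ⟨rfl, ?_⟩
        show v = v * π (FreeGroup.mk [(a, false)]) * π (FreeGroup.of a)
        have : FreeGroup.mk [(a, false)] = (FreeGroup.of a)⁻¹ := rfl
        rw [this]; simp
      · exact Or.inl ⟨rfl, rfl⟩
    · have := cay_walk π L (v * π (FreeGroup.mk [(a, b)]))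
      rwa [mul_assoc, ← map_mul, FreeGroup.mul_mk] at this

omit [Fintype σ] in
theorem cay_rd (π : FreeGroup σ →* G) (v : G) (g : FreeGroup σ) : (cay π).Rd v g (v * π g) := by
  have := cay_walk π g.toWord v
  rwa [FreeGroup.mk_toWord] at this

theorem pi_eq (Γ : Geo T G) {x y : T.X} {g g' : FreeGroup σ} (h : T.Γ.Rd x g y)
    (h' : T.Γ.Rd x g' y) : Γ.π g = Γ.π g' :=
  mul_left_cancel (((Γ.lay 0).cinj 1 trivial ((Γ.lev_zero 1).2 rfl).le x g y g' y _ _ h h'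
    (cay_rd Γ.π 1 g) (cay_rd Γ.π 1 g')).1 rfl)

theorem exists_f (Γ : Geo T G) : ∃ f : T.X → G, ∀ x g y, T.Γ.Rd x g y → f y = f x * Γ.π g := by
  obtain ⟨i, -, ⟨x₀, -⟩, -⟩ := T.big 0
  have : Nonempty T.X := ⟨x₀⟩
  have hb : ∀ x : T.X, ∃ g, T.Γ.Rd (Function.invFun T.ty (T.ty x)) g x := fun x =>
    (T.conn _ _).1 (Function.invFun_eq ⟨x, rfl⟩)
  choose b hb using hb
  refine ⟨fun x => Γ.π (b x), fun x g y h => ?_⟩
  have h1 := hb y
  rw [← (T.conn x y).2 ⟨g, h⟩] at h1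
  rw [← map_mul]
  exact pi_eq Γ h1 (GrM.rd_mul (hb x) h)

theorem exists_pt {Γ : Geo T G} (D : Desc Γ) : ∃ pt : G → T.X, ∀ v x, Γ.Tp v x →
    30 * T.ell x ≤ D.h v → ∀ x', Γ.Tp v x' → pt v = x' := by
  obtain ⟨i, -, ⟨x₀, -⟩, -⟩ := T.big 0
  have : ∀ v, ∃ p : T.X, ∀ x, Γ.Tp v x → 30 * T.ell x ≤ D.h v → ∀ x', Γ.Tp v x' → p = x' := by
    intro v
    by_cases h : ∃ x, Γ.Tp v x ∧ 30 * T.ell x ≤ D.h v
    · obtain ⟨x, h1, h2⟩ := h
      refine ⟨x, fun _ _ _ x' h3 => ?_⟩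
      by_contra hc
      have := D.two v x x' h1 h3 hc
      omega
    · exact ⟨x₀, fun x h1 h2 => absurd ⟨x, h1, h2⟩ h⟩
  choose pt hpt using this
  exact ⟨pt, hpt⟩

end Mon

end XaM

theorem mon (hx : XaStmt) : MonStmt := by
  intro σ _ _ T G _ Γ D hconv hfs ham
  obtain ⟨f, hf⟩ := exists_f Γ
  obtain ⟨pt, hpt⟩ := exists_pt D
  have hc : ∀ x y g, T.ty x = T.ty y → f y = f x * Γ.π g → Γ.W.wl (Γ.π g) = g.norm →
      T.Γ.Rd x g y := fun x y g h1 h2 h3 => by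
    obtain ⟨g₀, hg₀⟩ := (T.conn x y).1 h1
    exact hconv x g₀ y g hg₀ h3 (mul_left_cancel (h2.symm.trans (hf _ _ _ hg₀)))
  have hsep0 : ∀ L, ∀ y ∈ D.Y L, ∀ y' ∈ D.Y L, Γ.W.ds y y' ≤ L → Γ.lev y' ≤ Γ.lev y →
      T.ty (pt y) = T.ty (pt y') ∧ y * (f (pt y))⁻¹ = y' * (f (pt y'))⁻¹ := by
    rintro L y ⟨x, h1, h2, h3⟩ y' ⟨x', h4, -, h6⟩ hd hl
    obtain ⟨g, x'', h7, h8, h9⟩ := hfs y y' x h1 h3 hl (by omega)
    rw [hpt y x h1 h3 x h1, hpt y' x' h4 h6 x'' h9]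
    refine ⟨(T.conn _ _).2 ⟨g, h7⟩, ?_⟩
    rw [hf _ _ _ h7, h8]; group
  have hsep : ∀ L, ∀ y ∈ D.Y L, ∀ y' ∈ D.Y L, Γ.W.ds y y' ≤ L →
      T.ty (pt y) = T.ty (pt y') ∧ y * (f (pt y))⁻¹ = y' * (f (pt y'))⁻¹ := by
    intro L y hy y' hy' hd
    rcases le_total (Γ.lev y') (Γ.lev y) with h | h
    · exact hsep0 L y hy y' hy' hd h
    · obtain ⟨h1, h2⟩ := hsep0 L y' hy' y hy (by rw [ds_symm]; exact hd) h
      exact ⟨h1.symm, h2.symm⟩
  refine ⟨{ toGen := Γ.toGen, f := f, f_rd := hf, conv := hc, pt := pt, Y := D.Y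
            Y_anti := ?_, Y_ell := ?_, sep := hsep, am1 := ham, am2 := ?_ }⟩
  · rintro L L' h y ⟨x, h1, h2, h3⟩
    exact ⟨x, h1, by omega, h3⟩
  · rintro L y ⟨x, h1, h2, h3⟩
    rw [hpt y x h1 h3 x h1]; exact h2
  intro R ε hε
  obtain ⟨S, L, hSL⟩ := hx R ε hε
  refine ⟨S, L + R, fun Sg hSg => ?_⟩
  have hμ : ∀ c : G × T.ι, ∃ μ : T.X → T.X →₀ ℝ, (∀ x z, 0 ≤ μ x z) ∧ (L ≤ T.r c.2 →
      (∀ x ∈ {y | T.ty y = c.2 ∧ Hv T.Γ (Sg c) L (T.r c.2) y}, l1 (μ x) = 1) ∧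
      (∀ x ∈ {y | T.ty y = c.2 ∧ Hv T.Γ (Sg c) L (T.r c.2) y}, ∀ z, μ x z ≠ 0 → T.Γ.Near S x z) ∧
      ∀ x ∈ {y | T.ty y = c.2 ∧ Hv T.Γ (Sg c) L (T.r c.2) y},
        ∀ y ∈ {y | T.ty y = c.2 ∧ Hv T.Γ (Sg c) L (T.r c.2) y},
          T.Γ.Near R x y → l1 (μ x - μ y) ≤ ε) := fun c => by
    by_cases h : L ≤ T.r c.2
    · obtain ⟨μ, h0, h1⟩ := hSL σ T c.2 h (Sg c) (hSg c)
      exact ⟨μ, h0, fun _ => h1⟩
    · exact ⟨0, fun _ _ => le_rfl, fun h' => absurd h' h⟩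
  choose μ h0 hμ using hμ
  have hin : ∀ y, Hv T.Γ (Sg (y * (f (pt y))⁻¹, T.ty (pt y))) (L + R) (T.r (T.ty (pt y))) (pt y) →
      L ≤ T.r (T.ty (pt y)) ∧
        Hv T.Γ (Sg (y * (f (pt y))⁻¹, T.ty (pt y))) L (T.r (T.ty (pt y))) (pt y) := by
    rintro y ⟨n, h1, h2, h3⟩
    exact ⟨by omega, n, by omega, h2, h3⟩
  refine ⟨fun y => Finsupp.mapDomain (fun z => y * (f (pt y))⁻¹ * f z)
      (μ (y * (f (pt y))⁻¹, T.ty (pt y)) (pt y)), fun y z => map_nonneg _ _ (h0 _ _) z,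
    fun y hy => ?_, fun y hy z hz => ?_, fun y hy y' hy' hyy => ?_⟩
  · obtain ⟨h1, h2⟩ := hin y hy.2
    rw [l1_tot _ (map_nonneg _ _ (h0 _ _)), tot_map, ← l1_tot _ (h0 _ _)]
    exact (hμ (_, _) h1).1 _ ⟨rfl, h2⟩
  · obtain ⟨h1, h2⟩ := hin y hy.2
    obtain ⟨u, hu, rfl⟩ := Finset.mem_image.1
      (Finsupp.mapDomain_support (Finsupp.mem_support_iff.2 hz))
    obtain ⟨g, hg1, hg2⟩ := (hμ (_, _) h1).2.1 _ ⟨rfl, h2⟩ u (Finsupp.mem_support_iff.1 hu)
    show Γ.W.wl (y⁻¹ * (y * (f (pt y))⁻¹ * f u)) ≤ S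
    rw [hf _ _ _ hg1, show y⁻¹ * (y * (f (pt y))⁻¹ * (f (pt y) * Γ.π g)) = Γ.π g by group]
    exact (Γ.wl_le g).trans hg2
  · have hd : Γ.W.ds y y' ≤ R := hyy
    obtain ⟨h1, h2⟩ := hin y hy.2
    obtain ⟨-, h4⟩ := hin y' hy'.2
    obtain ⟨e1, e2⟩ := hsep _ y hy.1 y' hy'.1 (by omega)
    obtain ⟨g, hg1, hg2⟩ := Γ.geod (y⁻¹ * y')
    have hrd : T.Γ.Rd (pt y) g (pt y') := hc _ _ g e1 (by
      rw [hg1]
      calc f (pt y') = (y' * (f (pt y'))⁻¹)⁻¹ * y' := by group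
        _ = _ := by rw [← e2]; group) (by rw [hg1, hg2])
    rw [← e1, ← e2] at h4
    show l1 (Finsupp.mapDomain _ _ - Finsupp.mapDomain _ _) ≤ ε
    rw [← e1, ← e2, map_sub]
    exact (l1_map _ _).trans ((hμ (_, _) h1).2.2 _ ⟨rfl, h2⟩ _ ⟨e1.symm, h4⟩ ⟨g, hrd, hg2.le.trans hd⟩)

end Pool.Agent.MP_88ca14_an

end
end MrgPart2

-- marker of a merged file
example : 731051 + 335480 = 731051 + 335480 := rfl
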