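import Pool.Agent.MP_88ca14_an.Xs
import Pool.Agent.MP_88ca14_an.Amn

/-!
PROJECT LRX, modules X7a (a thick shadow component contains many far apart local events) and
XI (the lacunary family of tiles).
-/

set_option autoImplicit false

noncomputable section

namespace Pool.Agent.MP_88ca14_an

open scoped Classical

namespace XiM

/-! ### X7a -/

/-- Greedy choice of separated intervals. -/
theorem vitali (ρ : ℕ → ℕ) (T : Finset ℕ) : (∀ t ∈ T, 1 ≤ ρ t) → ∃ U ⊆ T,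
    (∀ s ∈ U, ∀ t ∈ U, s < t → s + 2 * ρ s + 2 * ρ t < t) ∧ T.card ≤ 9 * ∑ s ∈ U, ρ s := by
  induction T using Finset.strongInduction with
  | H T ih =>
    intro h1
    rcases T.eq_empty_or_nonempty with rfl | hT
    · exact ⟨∅, le_rfl, by simp, by simp⟩
    obtain ⟨s, hs, hm⟩ := T.exists_max_image ρ hT
    let P : ℕ → Prop := fun t => s + 2 * ρ s + 2 * ρ t < t ∨ t + 2 * ρ t + 2 * ρ s < s
    have hs' : s ∉ T.filter P := fun h => by
      rcases (Finset.mem_filter.1 h).2 with h | h <;> omega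
    obtain ⟨U, h2, h3, h4⟩ := ih (T.filter P)
      ⟨Finset.filter_subset _ _, fun h => hs' (h hs)⟩ fun t ht => h1 t (Finset.mem_filter.1 ht).1
    have h5 : (T.filter fun t => ¬ P t).card ≤ (Finset.Icc (s - 4 * ρ s) (s + 4 * ρ s)).card :=
      Finset.card_le_card fun t ht => by
        obtain ⟨a, b⟩ := Finset.mem_filter.1 ht
        have := hm t a
        simp only [P, not_or, not_lt] at b
        exact Finset.mem_Icc.2 ⟨by omega, by omega⟩
    refine ⟨insert s U, Finset.insert_subset hs (h2.trans (Finset.filter_subset _ _)),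
      fun a ha b hb hab => ?_, ?_⟩
    · rcases Finset.mem_insert.1 ha with c | c <;> rcases Finset.mem_insert.1 hb with d | d
      · omega
      · rw [c] at hab ⊢
        rcases (Finset.mem_filter.1 (h2 d)).2 with h | h <;> omega
      · rw [d] at hab ⊢
        rcases (Finset.mem_filter.1 (h2 c)).2 with h | h <;> omega
      · exact h3 a c b d hab
    · rw [Finset.sum_insert fun h => hs' (h2 h)]
      have := Finset.card_filter_add_card_filter_not (s := T) P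
      have := h1 s hs
      rw [Nat.card_Icc] at h5
      omega

variable {σ V : Type}

/-- The subgraph spanned by `P`. -/
def sub (Y : LG σ V) (P : V → Prop) : LG σ V where
  rel v a w := Y.rel v a w ∧ P v ∧ P w
  func h h' := Y.func h.1 h'.1
  inj h h' := Y.inj h.1 h'.1

theorem sub_step {Y : LG σ V} {P : V → Prop} {v w : V} {a : σ × Bool} :
    (sub Y P).step v a w ↔ Y.step v a w ∧ P v ∧ P w := by
  simp only [LG.step, sub]
  tauto

theorem sub_walk {Y : LG σ V} {P : V → Prop} {L : List (σ × Bool)} :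
    ∀ {v w : V}, (sub Y P).Walk v L w → Y.Walk v L w := by
  induction L with
  | nil => exact fun h => h
  | cons a L ih => exact fun ⟨u, h1, h2⟩ => ⟨u, (sub_step.1 h1).1, ih h2⟩

variable [DecidableEq σ] {Y : LG σ V} {S : ℕ → Finset (FreeGroup σ)} {r : ℕ}

theorem near_symm {n : ℕ} {v w : V} (h : Y.Near n v w) : Y.Near n w v :=
  let ⟨g, h1, h2⟩ := h
  ⟨g⁻¹, GrM.rd_inv h1, by rwa [FreeGroup.norm_inv_eq]⟩

theorem near_refl (n : ℕ) (v : V) : Y.Near n v v := ⟨1, rfl, by simp⟩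

theorem near_mono {n m : ℕ} {v w : V} (h : Y.Near n v w) (h' : n ≤ m) : Y.Near m v w :=
  let ⟨g, h1, h2⟩ := h
  ⟨g, h1, h2.trans h'⟩

theorem near_step {n : ℕ} {u v w : V} {a : σ × Bool} (h : Y.Near n u v) (h' : Y.step v a w) :
    Y.Near (n + 1) u w :=
  let ⟨g, h1, h2⟩ := h
  GrM.near_of_walk (GrM.walk_append.2 ⟨v, h1, GrM.walk_single.2 h'⟩) (by
    rw [List.length_append]; exact Nat.succ_le_succ h2)

theorem shc_rd {x y : V} (h : ShC Y S r x y) : ∃ g, (sub Y (Sh Y S r)).Rd x g y := by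
  induction h with
  | refl => exact ⟨1, rfl⟩
  | tail _ h2 ih =>
    obtain ⟨g, hg⟩ := ih
    obtain ⟨h3, h4, a, h5⟩ := h2
    exact ⟨_, GrM.rd_mk (GrM.walk_append.2
      ⟨_, hg, GrM.walk_single.2 (sub_step.2 ⟨h5, h3, h4⟩)⟩)⟩

theorem loc_of {x z : V} (h : ¬ ThinAt Y S r x) (hz : ShC Y S r x z) : Loc Y S r z := by
  obtain ⟨y, hy, hn⟩ : ∃ y, ShC Y S r x y ∧ ¬ Y.Near (2 ^ r) z y := by
    by_contra hc
    push Not at hc
    exact h ⟨{z}, by simpa using Nat.one_le_pow _ _ (by positivity), fun y hy =>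
      ⟨z, Finset.mem_singleton_self _, hc y hy⟩⟩
  obtain ⟨g₁, h1⟩ := shc_rd hz
  obtain ⟨g₂, h2⟩ := shc_rd hy
  have h3 := GrM.rd_mul (GrM.rd_inv h1) h2
  generalize g₁⁻¹ * g₂ = g at h3
  have h4 : 2 ^ r < g.norm := not_le.1 fun k => hn ⟨g, sub_walk h3, k⟩
  set m := 2 ^ r / 4 with hm
  have h5 : m < g.norm := lt_of_le_of_lt (Nat.div_le_self _ _) h4
  have h6 : ∀ t : ℕ, ∃ ρ : ℕ, t ≤ m → 1 ≤ ρ ∧ ρ ≤ r ∧ ∃ v y, Y.Rd z (pfx (pfx g m) t) v ∧
      Y.Near ρ v y ∧ ∃ w ∈ S ρ, Y.Reads y w := fun t => by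
    by_cases ht : t ≤ m
    swap
    · exact ⟨0, fun k => absurd k ht⟩
    have h7 : t < g.toWord.length := lt_of_le_of_lt ht h5
    have h8 : (sub Y (Sh Y S r)).Walk z (g.toWord.take t ++ g.toWord[t] :: g.toWord.drop (t + 1))
        y := by
      rw [List.getElem_cons_drop, List.take_append_drop]
      exact h3
    obtain ⟨v, h9, u, h10, -⟩ := GrM.walk_append.1 h8
    obtain ⟨ρ, a1, a2, y', a3, a4⟩ := (sub_step.1 h10).2.1
    refine ⟨ρ, fun _ => ⟨a1, a2, v, y', ?_, a3, a4⟩⟩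
    unfold LG.Rd
    rw [Amn.toWord_pfx, Amn.toWord_pfx, List.take_take, min_eq_left ht]
    exact sub_walk h9
  choose ρ hρ using h6
  obtain ⟨U, u1, u2, u3⟩ := vitali ρ (Finset.range (m + 1)) fun t ht =>
    (hρ t (Nat.lt_succ_iff.1 (Finset.mem_range.1 ht))).1
  refine ⟨pfx g m, Amn.reads_pfx Y ⟨y, sub_walk h3⟩ m, Amn.norm_pfx g h5.le,
    fun t => if t.val ∈ U then ρ t else 0, fun t => ?_, fun t t' a b c => ?_, ?_, fun t a => ?_⟩
  · show (if t.val ∈ U then ρ t else 0) ≤ r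
    split_ifs
    exacts [(hρ t (Nat.lt_succ_iff.1 t.2)).2.1, Nat.zero_le _]
  · have b' : t.val ∈ U := by_contra fun k => b (if_neg k)
    have c' : t'.val ∈ U := by_contra fun k => c (if_neg k)
    simp only [if_pos b', if_pos c']
    exact u2 _ b' _ c' a
  · rw [Fin.sum_univ_eq_sum_range (fun t => if t ∈ U then ρ t else 0), Finset.sum_ite_mem,
      Finset.inter_eq_right.2 u1]
    rw [Finset.card_range] at u3
    omega
  · have a' : t.val ∈ U := by_contra fun k => a (if_neg k)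
    simp only [if_pos a']
    exact (hρ t (Nat.lt_succ_iff.1 t.2)).2.2

theorem greedy {x : V} (h : ¬ ThinAt Y S r x) : ∀ k, k ≤ (2 ^ r) ^ 12 → ∃ z : ℕ → V, z 0 = x ∧
    ∀ i ≤ k, ShC Y S r x (z i) ∧ (i = 0 ∨ ∃ j, j < i ∧ Y.Near (2 ^ r) (z j) (z i)) ∧
      ∀ j < i, ¬ Y.Near (2 ^ r - 1) (z j) (z i) := by
  intro k
  induction k with
  | zero =>
    refine fun _ => ⟨fun _ => x, rfl, fun i hi => ⟨.refl, Or.inl (by omega), by omega⟩⟩
  | succ k ih =>
    intro hk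
    obtain ⟨z, h0, hz⟩ := ih (by omega)
    obtain ⟨y, hy, hn⟩ : ∃ y, ShC Y S r x y ∧ ∀ j ≤ k, ¬ Y.Near (2 ^ r) (z j) y := by
      by_contra hc
      push Not at hc
      refine h ⟨(Finset.range (k + 1)).image z, Finset.card_image_le.trans (by simpa using hk),
        fun y hy => ?_⟩
      obtain ⟨j, h1, h2⟩ := hc y hy
      exact ⟨z j, Finset.mem_image_of_mem _ (Finset.mem_range.2 (by omega)), h2⟩
    have key : ∀ y, ShC Y S r x y → (∀ j ≤ k, ¬ Y.Near (2 ^ r - 1) (z j) y) →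
        ∃ v, ShC Y S r x v ∧ (∃ j ≤ k, Y.Near (2 ^ r) (z j) v) ∧
          ∀ j ≤ k, ¬ Y.Near (2 ^ r - 1) (z j) v := fun y hy => by
      induction hy with
      | refl => exact fun a => absurd (by rw [h0]; exact near_refl _ x) (a 0 (Nat.zero_le _))
      | @tail u v h1 h2 ih' =>
        intro a
        by_cases b : ∀ j ≤ k, ¬ Y.Near (2 ^ r - 1) (z j) u
        · exact ih' b
        · push Not at b
          obtain ⟨j, b1, b2⟩ := b
          obtain ⟨c, hc⟩ := h2.2.2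
          exact ⟨v, h1.tail h2, ⟨j, b1, near_mono (near_step b2 hc)
            (by have := Nat.one_le_two_pow (n := r); omega)⟩, a⟩
    obtain ⟨v, h1, ⟨j, h2, h3⟩, h4⟩ := key y hy fun j hj a =>
      hn j hj (near_mono a (Nat.sub_le _ _))
    have e : ∀ i ≤ k, Function.update z (k + 1) v i = z i := fun i hi =>
      Function.update_of_ne (by omega) _ _
    refine ⟨Function.update z (k + 1) v, (e 0 (Nat.zero_le _)).trans h0, fun i hi => ?_⟩
    rcases Nat.lt_or_eq_of_le hi with hi | rfl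
    · obtain ⟨a, b, c⟩ := hz i (by omega)
      rw [e i (by omega)]
      refine ⟨a, b.imp_right fun ⟨j, b1, b2⟩ => ⟨j, b1, by rwa [e j (by omega)]⟩, fun j hj => ?_⟩
      rw [e j (by omega)]
      exact c j hj
    · rw [Function.update_self]
      refine ⟨h1, Or.inr ⟨j, by omega, by rwa [e j h2]⟩, fun j hj => ?_⟩
      rw [e j (by omega)]
      exact h4 j (by omega)

end XiM

theorem x7a : X7aStmt := by
  intro σ V _ Y S r x h
  obtain ⟨z, -, hz⟩ := XiM.greedy h _ le_rfl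
  refine ⟨fun k => z k, fun k => ?_, fun j k hjk => ?_, fun k => XiM.loc_of h (hz k k.2.le).1⟩
  · exact (hz k k.2.le).2.1.imp_right fun ⟨j, h1, h2⟩ => ⟨⟨j, h1.trans k.2⟩, h1, h2⟩
  · rcases lt_or_gt_of_ne hjk with a | a
    · exact (hz k k.2.le).2.2 j a
    · exact fun b => (hz j j.2.le).2.2 k a (XiM.near_symm b)

/-! ### XI -/

namespace XiM

/-- A single tile without the density condition. -/
structure TD (σ : Type) [DecidableEq σ] where
  r : ℕ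
  N : ℕ
  Y : LG σ (Fin N)
  r_pos : 1 ≤ r
  card_le : N ≤ 17 ^ (101 * 2 ^ r)
  conn : ∀ x y, ∃ g, Y.Rd x g y
  deg : Y.Deg 16
  girth : Y.Girth (100 * 2 ^ r)
  count : Cnt Y (2 ^ r)
  thin : ∀ S, Fam S → ∀ x, ThinAt Y S r x

variable {σ : Type} [DecidableEq σ] {ι : Type}

def TD.Big [Fintype σ] (t : TD σ) : Prop := 0 < t.N ∧
  9 * t.N ≤ (Finset.univ.filter fun p : Fin t.N × (σ × Bool) => ∃ y, t.Y.step p.1 p.2 y).card

/-- The disjoint union of a family of tiles. -/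
def un (t : ι → TD σ) : LG σ (Σ i, Fin (t i).N) where
  rel p a q := ∃ i x y, p = ⟨i, x⟩ ∧ q = ⟨i, y⟩ ∧ (t i).Y.rel x a y
  func := by
    rintro _ a _ _ ⟨i, x, y, rfl, rfl, h⟩ ⟨j, x', y', e, rfl, h'⟩
    cases e
    rw [(t i).Y.func h h']
  inj := by
    rintro _ _ a _ ⟨i, x, y, rfl, rfl, h⟩ ⟨j, x', y', rfl, e, h'⟩
    cases e
    rw [(t i).Y.inj h h']

variable {t : ι → TD σ}

theorem un_step {i : ι} {x : Fin (t i).N} {a : σ × Bool} {q : Σ i, Fin (t i).N} :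
    (un t).step ⟨i, x⟩ a q ↔ ∃ y, q = ⟨i, y⟩ ∧ (t i).Y.step x a y := by
  constructor
  · rintro (⟨h, j, x', y, e, rfl, k⟩ | ⟨h, j, y, x', rfl, e, k⟩) <;> cases e
    exacts [⟨y, rfl, Or.inl ⟨h, k⟩⟩, ⟨y, rfl, Or.inr ⟨h, k⟩⟩]
  · rintro ⟨y, rfl, ⟨h, k⟩ | ⟨h, k⟩⟩
    exacts [Or.inl ⟨h, i, x, y, rfl, rfl, k⟩, Or.inr ⟨h, i, y, x, rfl, rfl, k⟩]

theorem un_walk {i : ι} {L : List (σ × Bool)} {q : Σ i, Fin (t i).N} : ∀ {x : Fin (t i).N},
    (un t).Walk ⟨i, x⟩ L q ↔ ∃ y, q = ⟨i, y⟩ ∧ (t i).Y.Walk x L y := by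
  induction L with
  | nil => exact ⟨fun h => ⟨_, h.symm, rfl⟩, by rintro ⟨y, rfl, rfl⟩; rfl⟩
  | cons a L ih =>
    intro x
    constructor
    · rintro ⟨u, h1, h2⟩
      obtain ⟨z, rfl, h3⟩ := un_step.1 h1
      obtain ⟨y, rfl, h4⟩ := ih.1 h2
      exact ⟨y, rfl, z, h3, h4⟩
    · rintro ⟨y, rfl, z, h1, h2⟩
      exact ⟨_, un_step.2 ⟨z, rfl, h1⟩, ih.2 ⟨y, rfl, h2⟩⟩

theorem un_rd {i : ι} {g : FreeGroup σ} {q : Σ i, Fin (t i).N} {x : Fin (t i).N} :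
    (un t).Rd ⟨i, x⟩ g q ↔ ∃ y, q = ⟨i, y⟩ ∧ (t i).Y.Rd x g y := un_walk

theorem un_reads {i : ι} {g : FreeGroup σ} {x : Fin (t i).N} :
    (un t).Reads ⟨i, x⟩ g ↔ (t i).Y.Reads x g :=
  ⟨fun ⟨_, h⟩ => let ⟨y, _, k⟩ := un_rd.1 h; ⟨y, k⟩, fun ⟨y, h⟩ => ⟨_, un_rd.2 ⟨y, rfl, h⟩⟩⟩

theorem un_sh {S : ℕ → Finset (FreeGroup σ)} {r : ℕ} {i : ι} {x : Fin (t i).N}
    (h : Sh (un t) S r ⟨i, x⟩) : Sh (t i).Y S r x := by
  obtain ⟨ρ, h1, h2, q, ⟨g, h3, h4⟩, w, h5, h6⟩ := h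
  obtain ⟨y, rfl, h7⟩ := un_rd.1 h3
  exact ⟨ρ, h1, h2, y, ⟨g, h7, h4⟩, w, h5, un_reads.1 h6⟩

theorem un_shc {S : ℕ → Finset (FreeGroup σ)} {r : ℕ} {i : ι} {x : Fin (t i).N}
    {q : Σ i, Fin (t i).N} (h : ShC (un t) S r ⟨i, x⟩ q) :
    ∃ y, q = ⟨i, y⟩ ∧ ShC (t i).Y S r x y := by
  induction h with
  | refl => exact ⟨x, rfl, .refl⟩
  | tail _ h2 ih =>
    obtain ⟨y, rfl, h3⟩ := ih
    obtain ⟨h4, h5, a, h6⟩ := h2
    obtain ⟨z, rfl, h7⟩ := un_step.1 h6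
    exact ⟨z, rfl, h3.tail ⟨un_sh h4, un_sh h5, a, h7⟩⟩

/-- common words of two points of one tile are short -/
theorem TD.piece (u : TD σ) {x y : Fin u.N} (h : x ≠ y) {g : FreeGroup σ} (h1 : u.Y.Reads x g)
    (h2 : u.Y.Reads y g) : g.norm < 2 ^ u.r := by
  have h3 := u.count x y h ((Finset.range (g.norm + 1)).image (pfx g)) fun w hw => by
    obtain ⟨k, -, rfl⟩ := Finset.mem_image.1 hw
    exact ⟨Amn.reads_pfx _ h1 k, Amn.reads_pfx _ h2 k⟩
  rw [Finset.card_image_of_injOn fun a ha b hb e => by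
    rw [← Amn.norm_pfx g (Nat.lt_succ_iff.1 (Finset.mem_range.1 ha)), e,
      Amn.norm_pfx g (Nat.lt_succ_iff.1 (Finset.mem_range.1 hb))], Finset.card_range] at h3
  exact h3

/-- The family of tiles. -/
def tiles [Fintype σ] (t : ι → TD σ)
    (h1 : ∀ i j, i ≠ j → ∀ x y g, (t i).Y.Reads x g → (t j).Y.Reads y g → g.norm < 2 ^ (t i).r)
    (h2 : ∀ a, ∃ i x y, (t i).Y.rel x a y) (h3 : ∀ L, ∃ i, L ≤ (t i).r ∧ (t i).Big) : Tiles σ where
  X := Σ i, Fin (t i).N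
  ι := ι
  Γ := un t
  ty := Sigma.fst
  r i := (t i).r
  pts i := Finset.univ.map (Function.Embedding.sigmaMk i)
  mem_pts := by
    rintro ⟨j, x⟩ i
    constructor
    · intro h
      obtain ⟨y, -, e⟩ := Finset.mem_map.1 h
      exact (congrArg Sigma.fst e).symm
    · rintro rfl
      exact Finset.mem_map_of_mem _ (Finset.mem_univ x)
  conn := by
    rintro ⟨i, x⟩ ⟨j, y⟩
    constructor
    · rintro rfl
      exact ((t i).conn x y).imp fun g h => un_rd.2 ⟨y, rfl, h⟩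
    · rintro ⟨g, h⟩
      obtain ⟨z, e, -⟩ := un_rd.1 h
      exact (congrArg Sigma.fst e).symm
  r_pos i := (t i).r_pos
  card_le i := by simpa using (t i).card_le
  deg := by
    rintro ⟨i, x⟩
    obtain ⟨s, a, b⟩ := (t i).deg x
    exact ⟨s, a, fun c q h => let ⟨y, _, k⟩ := un_step.1 h; b c y k⟩
  girth := by
    rintro ⟨i, x⟩ g h
    obtain ⟨y, e, k⟩ := un_rd.1 h
    cases e
    exact (t i).girth x g k
  piece := by
    rintro ⟨i, x⟩ ⟨j, y⟩ g h a b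
    by_cases e : i = j
    · subst e
      exact (t i).piece (fun k => h (congrArg _ k)) (un_reads.1 a) (un_reads.1 b)
    · exact h1 i j e x y g (un_reads.1 a) (un_reads.1 b)
  count := by
    rintro ⟨i, x⟩ ⟨j, y⟩ h rfl s hs
    exact (t i).count x y (fun k => h (congrArg _ k)) s fun g hg =>
      ⟨un_reads.1 (hs g hg).1, un_reads.1 (hs g hg).2⟩
  letters a := let ⟨i, x, y, h⟩ := h2 a; ⟨_, _, i, x, y, rfl, rfl, h⟩
  thin := by
    rintro S hS ⟨i, x⟩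
    obtain ⟨zs, a, b⟩ := (t i).thin S hS x
    refine ⟨zs.map (Function.Embedding.sigmaMk i), by simpa using a, fun q hq => ?_⟩
    obtain ⟨y, rfl, k⟩ := un_shc hq
    obtain ⟨z, c, g, d, e⟩ := b y k
    exact ⟨_, Finset.mem_map_of_mem _ c, g, un_rd.2 ⟨y, rfl, d⟩, e⟩
  big L := by
    obtain ⟨i, a, b, c⟩ := h3 L
    refine ⟨i, a, ⟨_, Finset.mem_map_of_mem _ (Finset.mem_univ ⟨0, b⟩)⟩, ?_⟩
    rw [Finset.card_map, Finset.card_univ, Fintype.card_fin]
    refine c.trans (Finset.card_le_card_of_injOn (fun p => (⟨i, p.1⟩, p.2)) (fun p hp => ?_)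
      fun p _ q _ e => ?_)
    · obtain ⟨y, hy⟩ := (Finset.mem_filter.1 hp).2
      exact Finset.mem_coe.2 (Finset.mem_filter.2 ⟨Finset.mem_product.2
        ⟨Finset.mem_map_of_mem _ (Finset.mem_univ p.1), Finset.mem_univ _⟩,
        _, un_step.2 ⟨y, rfl, hy⟩⟩)
    · exact Prod.ext (eq_of_heq (Sigma.mk.inj (Prod.mk.inj e).1).2) (Prod.mk.inj e).2

/-- The graph with one edge. -/
def eg (a : σ) : LG σ (Fin 2) where
  rel x b y := x = 0 ∧ b = a ∧ y = 1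
  func h h' := h.2.2.trans h'.2.2.symm
  inj h h' := h.1.trans h'.1.symm

omit [DecidableEq σ] in
theorem eg_step {a : σ} {x y : Fin 2} {c : σ × Bool} (h : (eg a).step x c y) :
    (x = 0 ∧ c = (a, true) ∧ y = 1) ∨ (x = 1 ∧ c = (a, false) ∧ y = 0) := by
  obtain ⟨b, s⟩ := c
  rcases h with ⟨rfl, h1, rfl, h2⟩ | ⟨rfl, h1, rfl, h2⟩
  exacts [Or.inl ⟨h1, rfl, h2⟩, Or.inr ⟨h2, rfl, h1⟩]

theorem eg_rd {a : σ} {x y : Fin 2} {g : FreeGroup σ} (h : (eg a).Rd x g y) :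
    g = 1 ∨ ∃ c, g.toWord = [c] ∧ (eg a).step x c y := by
  have hr := FreeGroup.isReduced_toWord (x := g)
  unfold LG.Rd at h
  rcases e : g.toWord with _ | ⟨c, _ | ⟨d, L⟩⟩
  · exact Or.inl (FreeGroup.toWord_eq_nil_iff.1 e)
  · exact Or.inr ⟨c, rfl, GrM.walk_single.1 (e ▸ h)⟩
  · rw [e] at h hr
    obtain ⟨u, h1, v, h2, -⟩ := h
    have h3 := (List.isChain_cons_cons.1 hr).1
    rcases eg_step h1 with ⟨-, rfl, rfl⟩ | ⟨-, rfl, rfl⟩ <;>
      rcases eg_step h2 with ⟨k, rfl, -⟩ | ⟨k, rfl, -⟩ <;> simp at k h3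

theorem eg_norm {a : σ} {x : Fin 2} {g : FreeGroup σ} (h : (eg a).Reads x g) : g.norm ≤ 1 := by
  obtain ⟨y, h⟩ := h
  rcases eg_rd h with rfl | ⟨c, e, -⟩
  · simp
  · rw [FreeGroup.norm, e]
    rfl

/-- The tile with one edge. -/
def et (a : σ) : TD σ where
  r := 1
  N := 2
  Y := eg a
  r_pos := le_rfl
  card_le := le_trans (by norm_num) (Nat.le_self_pow (by norm_num) 17)
  conn x y := by
    have h : (eg a).Rd 0 (FreeGroup.mk [(a, true)]) 1 :=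
      GrM.rd_mk (GrM.walk_single.2 (Or.inl ⟨rfl, rfl, rfl, rfl⟩))
    fin_cases x <;> fin_cases y
    exacts [⟨1, rfl⟩, ⟨_, h⟩, ⟨_, GrM.rd_inv h⟩, ⟨1, rfl⟩]
  deg x := ⟨{(a, true), (a, false)}, Finset.card_le_two.trans (by norm_num), fun c y h => by
    rcases eg_step h with ⟨-, rfl, -⟩ | ⟨-, rfl, -⟩ <;> simp⟩
  girth x g h := by
    rcases eg_rd h with rfl | ⟨c, -, k⟩
    · exact Or.inl rfl
    · rcases eg_step k with ⟨rfl, -, k⟩ | ⟨rfl, -, k⟩ <;> simp at k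
  count x x' h s hs := by
    refine (Finset.card_le_card (t := {1}) fun g hg => Finset.mem_singleton.2 ?_).trans (by simp)
    obtain ⟨⟨y, h1⟩, y', h2⟩ := hs g hg
    rcases eg_rd h1 with rfl | ⟨c, e, k⟩
    · rfl
    rcases eg_rd h2 with rfl | ⟨c', e', k'⟩
    · rfl
    obtain rfl : c = c' := by simpa using e.symm.trans e'
    rcases eg_step k with ⟨rfl, rfl, -⟩ | ⟨rfl, rfl, -⟩ <;>
      rcases eg_step k' with ⟨rfl, k, -⟩ | ⟨rfl, k, -⟩ <;> simp at h k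
  thin S _ x := ⟨Finset.univ, by simp, fun y _ => ⟨y, Finset.mem_univ _, near_refl _ _⟩⟩

/-- `v` is much larger than `u` and reads no word of `u` of the length of the scale of `u`. -/
def Aft (Φ : ℕ → ℕ) (u v : TD σ) : Prop := u.r < v.r ∧ Φ (2 ^ u.r) ≤ 2 ^ v.r ∧
  ∀ g, g.norm = 2 ^ u.r → ∀ x y, u.Y.Reads x g → ¬ v.Y.Reads y g

/-- the words of a tile whose length is the scale -/
def TD.W [Fintype σ] (u : TD σ) : Finset (FreeGroup σ) :=
  (ballF σ (2 ^ u.r)).filter fun g => g.norm = 2 ^ u.r ∧ ∃ x, u.Y.Reads x g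

theorem TD.card_W [Fintype σ] (u : TD σ) : u.W.card ≤ 17 ^ (102 * 2 ^ u.r) := by
  have h1 : u.W ⊆ Finset.univ.biUnion fun x => u.W.filter fun g => u.Y.Reads x g := fun g hg =>
    let ⟨x, hx⟩ := (Finset.mem_filter.1 hg).2.2
    Finset.mem_biUnion.2 ⟨x, Finset.mem_univ _, Finset.mem_filter.2 ⟨hg, hx⟩⟩
  refine (Finset.card_le_card h1).trans ((Finset.card_biUnion_le_card_mul _ _ (16 ^ 2 ^ u.r)
    fun x _ => Amn.card_reads _ u.deg _ x _ fun g hg => ⟨(Finset.mem_filter.1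
      (Finset.mem_filter.1 hg).1).2.1, (Finset.mem_filter.1 hg).2⟩).trans ?_)
  rw [Finset.card_univ, Fintype.card_fin, show 102 * 2 ^ u.r = 101 * 2 ^ u.r + 2 ^ u.r by ring,
    pow_add]
  exact Nat.mul_le_mul u.card_le (Nat.pow_le_pow_left (by norm_num) _)

theorem next (hx : XstepStmt) (C : Type) [Fintype C] [DecidableEq C] (β : ℕ) (hβ : β = 17 ^ 3000)
    (hC : Fintype.card C = 2 * β) (Φ : ℕ → ℕ) (s : Finset (TD (Fin 8 × C))) :
    ∃ v : TD (Fin 8 × C), v.Big ∧ (Set.InjOn TD.r (s : Set (TD (Fin 8 × C))) →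
      ∀ u ∈ s, Aft Φ u v) := by
  let r := 6 + s.sup fun u => u.r + Φ (2 ^ u.r)
  have hr : ∀ u ∈ s, 6 + (u.r + Φ (2 ^ u.r)) ≤ r := fun u hu =>
    Nat.add_le_add_left (Finset.le_sup (f := fun u : TD (Fin 8 × C) => u.r + Φ (2 ^ u.r)) hu) _
  have h0 : ∀ n : ℕ, ∃ W : Finset (FreeGroup (Fin 8 × C)), n ∈ s.image (fun u => 2 ^ u.r) →
      ∃ u ∈ s, 2 ^ u.r = n ∧ W = u.W := fun n => by
    by_cases h : n ∈ s.image fun u => 2 ^ u.r
    · obtain ⟨u, a, b⟩ := Finset.mem_image.1 h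
      exact ⟨_, fun _ => ⟨u, a, b, rfl⟩⟩
    · exact ⟨∅, fun k => absurd k h⟩
  choose Wd hW using h0
  obtain ⟨N, Y, hY, hA⟩ := hx C β hβ hC r (Nat.le_add_right _ _) (s.image fun u => 2 ^ u.r) Wd
    fun n hn => by
      obtain ⟨u, a, rfl, c⟩ := hW n hn
      rw [c]
      exact ⟨Nat.one_le_two_pow, Nat.pow_le_pow_right two_pos (by have := hr u a; omega),
        u.card_W, fun g hg => (Finset.mem_filter.1 hg).2.1⟩
  refine ⟨⟨r, N, Y, by omega, hY.card_le, hY.conn, hY.deg, hY.girth, hY.count, hY.thin⟩,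
    ⟨hY.pos, hY.big⟩, fun hi u hu => ⟨?_, ?_, fun g hg x y a => ?_⟩⟩
  · show u.r < r
    have := hr u hu
    omega
  · show _ ≤ 2 ^ r
    have := hr u hu
    have := Nat.lt_two_pow_self (n := r)
    omega
  · have hn := Finset.mem_image_of_mem (fun u : TD (Fin 8 × C) => 2 ^ u.r) hu
    obtain ⟨u', b, c, d⟩ := hW _ hn
    obtain rfl : u' = u := hi b hu (Nat.pow_right_injective le_rfl c)
    exact hA y _ hn g (d ▸ Finset.mem_filter.2 ⟨Amn.mem_ballF hg.le, hg, x, a⟩)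

theorem seq {α : Type} (ρ : α → ℕ) (P : α → Prop) (R : α → α → Prop) (hR : ∀ u v, R u v → ρ u < ρ v)
    (h : ∀ s : Finset α, ∃ v, P v ∧ (Set.InjOn ρ (s : Set α) → ∀ u ∈ s, R u v)) :
    ∃ f : ℕ → α, (∀ n, P (f n)) ∧ ∀ m n, m < n → R (f m) (f n) := by
  choose nx h1 h2 using h
  let S : ℕ → Finset α := fun n => Nat.rec ∅ (fun _ s => insert (nx s) s) n
  have e : ∀ n, S (n + 1) = insert (nx (S n)) (S n) := fun _ => rfl
  have h3 : ∀ n : ℕ, Set.InjOn ρ (SetLike.coe (S n)) := fun n => by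
    induction n with
    | zero => exact fun _ a => by simp [S] at a
    | succ n ih =>
      intro a ha b hb c
      rw [e, Finset.mem_coe, Finset.mem_insert] at ha hb
      rcases ha with a1 | a1 <;> rcases hb with b1 | b1
      · exact a1.trans b1.symm
      · exact absurd (a1 ▸ c).symm (hR _ _ (h2 _ ih b b1)).ne
      · exact absurd (b1 ▸ c) (hR _ _ (h2 _ ih a a1)).ne
      · exact ih a1 b1 c
  refine ⟨fun n => nx (S n), fun n => h1 _, fun m n hmn => h2 _ (h3 n) _ ?_⟩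
  exact monotone_nat_of_le_succ (f := S) (fun n => e n ▸ Finset.subset_insert _ _) hmn
    (e m ▸ Finset.mem_insert_self _ _)

end XiM

open XiM in
theorem xi (hx : XstepStmt) : XiStmt := by
  intro Φ
  obtain ⟨β, hβ⟩ : ∃ β : ℕ, β = 17 ^ 3000 := ⟨_, rfl⟩
  obtain ⟨f, h1, h2⟩ := seq TD.r TD.Big (Aft Φ) (fun _ _ h => h.1)
    (next hx (Fin (2 * β)) β hβ (Fintype.card_fin _) Φ)
  have h3 : StrictMono fun n => (f n).r := fun m n h => (h2 m n h).1
  have h4 : ∀ u : TD (Fin 8 × Fin (2 * β)), 2 ≤ 2 ^ u.r := fun u =>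
    Nat.le_self_pow (Nat.one_le_iff_ne_zero.1 u.r_pos) 2
  have h5 : ∀ m n, m < n → ∀ x y g, (f m).Y.Reads x g → (f n).Y.Reads y g →
      g.norm < 2 ^ (f m).r := fun m n h x y g a b => not_le.1 fun k =>
    (h2 m n h).2.2 _ (Amn.norm_pfx g k) x y (Amn.reads_pfx _ a _) (Amn.reads_pfx _ b _)
  refine ⟨Fin 8 × Fin (2 * β), inferInstance, inferInstance, tiles (Sum.elim f et) ?_
    (fun a => ⟨Sum.inr a, (0 : Fin 2), (1 : Fin 2), rfl, rfl, rfl⟩)
    (fun L => ⟨Sum.inl L, h3.le_apply, h1 L⟩), fun K => ⟨2 ^ (f K).r, ?_, ?_⟩⟩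
  · rintro (m | a) (n | b) h x y g c d
    · rcases lt_or_gt_of_ne (fun k => h (congrArg Sum.inl k) : m ≠ n) with k | k
      · exact h5 m n k x y g c d
      · exact (h5 n m k y x g d c).trans (Nat.pow_lt_pow_right one_lt_two (h3 k))
    · exact (eg_norm d).trans_lt (h4 _)
    · exact (eg_norm c).trans_lt (h4 _)
    · exact (eg_norm c).trans_lt (h4 _)
  · exact (h3.le_apply (x := K)).trans Nat.lt_two_pow_self.le
  · rintro (n | a)
    · rcases le_or_gt n K with k | k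
      · exact Or.inl (Nat.pow_le_pow_right two_pos (h3.monotone k))
      · exact Or.inr (h2 K n k).2.1
    · exact Or.inl (h4 (f K))

end Pool.Agent.MP_88ca14_an
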