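import Mathlib.Analysis.CStarAlgebra.GelfandNaimarkSegal
import Pool.Agent.MP_88ca14_an.Nex
import Pool.Agent.MP_88ca14_an.Fam
import Pool.Agent.MP_88ca14_an.SpecG
import Pool.Agent.MP_88ca14_an.Graph
import Pool.Agent.MP_88ca14_an.Red
import Pool.Agent.MP_88ca14_an.Sp
import Pool.Agent.MP_88ca14_an.Chan
import Pool.Agent.MP_88ca14_an.Xa
import Pool.Agent.MP_88ca14_an.Xi
import Pool.Agent.MP_88ca14_an.Xs

-- ======== part 0: formerly Pool.Agent.MP_88ca14_an.Compr
section MrgPart0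

/-!
PROJECT LRX, modules COMPR, DIAGZ, NRQ, CROSS, HS: finite matrix computations with the
functionals `R.Q`.
-/

set_option autoImplicit false
set_option maxSynthPendingDepth 3

noncomputable section

namespace Pool.Agent.MP_88ca14_an

open scoped Classical ComplexConjugate Matrix

namespace ComprM

open Petz

section Forms

variable {K K' m m' : Type} [Fintype K] [Fintype K'] [Fintype m] [Fintype m']

theorem fm_zero_left (b : K → K' → ℂ) (w : K' → ℂ) : fm b 0 w = 0 := by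
  simp [fm]

theorem fm_zero_right (b : K → K' → ℂ) (v : K → ℂ) : fm b v 0 = 0 := by
  simp [fm]

theorem nsq_zero : nsq (0 : K → ℂ) = 0 := by simp [nsq]

theorem fm_compr (J : Matrix K K' ℂ) (b : K → K → ℂ) (v w : K' → ℂ) :
    fm (Jᴴ * Matrix.of b * J) v w = fm b (J *ᵥ v) (J *ᵥ w) := by
  have h := fm_eq (Matrix.of b) (J *ᵥ v) (J *ᵥ w)
  have e : fm (Matrix.of b) (J *ᵥ v) (J *ᵥ w) = fm b (J *ᵥ v) (J *ᵥ w) := rfl
  rw [← e, h, fm_eq, Matrix.star_mulVec, ← Matrix.mulVec_mulVec, ← Matrix.mulVec_mulVec,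
    Matrix.dotProduct_mulVec (star v) Jᴴ]

theorem fm_prod (b : K → K' → ℂ) (t : m → m' → ℂ) (v : K × m → ℂ) (w : K' × m' → ℂ) :
    fm (fun (p : K × m) (q : K' × m') => b p.1 q.1 * t p.2 q.2) v w =
      ∑ s, ∑ s', t s s' * fm b (fun p => v (p, s)) (fun q => w (q, s')) := by
  simp only [fm, Fintype.sum_prod_type, Finset.mul_sum]
  rw [Finset.sum_comm]
  refine Finset.sum_congr rfl fun s _ => ?_
  have : ∀ p : K, ∑ q : K', ∑ s' : m', conj (v (p, s)) * (b p q * t s s') * w (q, s') =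
      ∑ s' : m', ∑ q : K', t s s' * (conj (v (p, s)) * b p q * w (q, s')) := by
    intro p
    rw [Finset.sum_comm]
    exact Finset.sum_congr rfl fun _ _ => Finset.sum_congr rfl fun _ _ => by ring
  simp only [this]
  rw [Finset.sum_comm]

theorem nsq_prod (v : K × m → ℂ) : nsq v = ∑ s, nsq (fun p => v (p, s)) := by
  simp only [nsq, Fintype.sum_prod_type]
  rw [Finset.sum_comm]

/-- A row of a bounded matrix is bounded. -/
theorem row_le {b : K → K' → ℂ} {c : ℝ} (h : Bd b c) (p : K) : ∑ q, ‖b p q‖ ^ 2 ≤ c ^ 2 := by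
  have h1 := bd_nsq (bd_ct (z := Matrix.of b) h) (Pi.single p 1)
  have e1 : nsq (Pi.single p (1 : ℂ) : K → ℂ) = 1 := by
    unfold nsq
    rw [Finset.sum_eq_single p]
    · simp
    · intro j _ hj; simp [hj]
    · simp
  rw [e1, mul_one, Matrix.mulVec_single_one] at h1
  simpa [nsq] using h1

theorem col_le {b : K → K' → ℂ} {c : ℝ} (h : Bd b c) (q : K') : ∑ p, ‖b p q‖ ^ 2 ≤ c ^ 2 := by
  have := row_le (bd_ct (z := Matrix.of b) h) q
  simpa using this

end Forms

section Vecs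

variable {G K : Type} [Fintype K]

theorem ms_eq (ζ : Vec G K) {s : Finset G} (hs : ζ.support ⊆ s) : ms ζ = ∑ x ∈ s, nsq (ζ x) := by
  unfold ms
  refine Finset.sum_subset hs fun x _ hx => ?_
  rw [Finsupp.notMem_support_iff.mp hx, nsq_zero]

theorem ms_nonneg (ζ : Vec G K) : 0 ≤ ms ζ := Finset.sum_nonneg fun _ _ => nsq_nonneg _

theorem cms_nonneg (ζ : Vec G K) (p : K) : 0 ≤ cms ζ p :=
  Finset.sum_nonneg fun _ _ => by positivity

theorem sum_cms (ζ : Vec G K) : ∑ p, cms ζ p = ms ζ := by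
  unfold cms ms nsq
  rw [Finset.sum_comm]

/-- Pythagoras for a vector with diagonal Gram matrix. -/
theorem pyth {α : Vec G K} (h : DG α) (w : K → ℂ) :
    ∑ x ∈ α.support, ‖∑ p, w p * α x p‖ ^ 2 = ∑ p, ‖w p‖ ^ 2 * cms α p := by
  have e : ((∑ x ∈ α.support, ‖∑ p, w p * α x p‖ ^ 2 : ℝ) : ℂ) =
      ((∑ p, ‖w p‖ ^ 2 * cms α p : ℝ) : ℂ) := by
    have e1 : ∀ x, (((‖∑ p, w p * α x p‖ ^ 2 : ℝ)) : ℂ) =
        ∑ p, ∑ q, conj (w p) * w q * (conj (α x p) * α x q) := by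
      intro x
      rw [Complex.ofReal_pow, ← Complex.conj_mul', map_sum, Finset.sum_mul_sum]
      refine Finset.sum_congr rfl fun p _ => Finset.sum_congr rfl fun q _ => ?_
      rw [map_mul]; ring
    rw [Complex.ofReal_sum, Complex.ofReal_sum]
    simp only [e1]
    rw [Finset.sum_comm]
    refine Finset.sum_congr rfl fun p _ => ?_
    rw [Finset.sum_comm, Finset.sum_eq_single p]
    · rw [← Finset.mul_sum]
      simp only [cms, Complex.conj_mul', Complex.ofReal_mul, Complex.ofReal_sum,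
        Complex.ofReal_pow]
    · intro q _ hq
      rw [← Finset.mul_sum, h p q (Ne.symm hq), mul_zero]
    · simp
  exact_mod_cast e

theorem pyth_le {α : Vec G K} (h : DG α) (w : K → ℂ) (lam : ℝ)
    (hl : ∀ p, w p ≠ 0 → cms α p ≤ lam) :
    ∑ x ∈ α.support, ‖∑ p, w p * α x p‖ ^ 2 ≤ lam * ∑ p, ‖w p‖ ^ 2 := by
  rw [pyth h, Finset.mul_sum]
  refine Finset.sum_le_sum fun p _ => ?_
  by_cases hp : w p = 0
  · simp [hp]
  · rw [mul_comm lam]
    exact mul_le_mul_of_nonneg_left (hl p hp) (by positivity)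

theorem cut_apply (P : Finset K) (α : Vec G K) (x : G) (p : K) :
    cut P α x p = if p ∈ P then α x p else 0 := rfl

theorem cut_supp (P : Finset K) (α : Vec G K) : (cut P α).support ⊆ α.support :=
  Finsupp.support_mapRange

variable [Group G] {A : Type} [CStarAlgebra A] [PartialOrder A] [StarOrderedRing A]

theorem Q2_eq (R : Reg G A) (b : K → K → ℂ) (ζ ζ' : Vec G K) {s s' : Finset G}
    (hs : ζ.support ⊆ s) (hs' : ζ'.support ⊆ s') :
    R.Q2 b ζ ζ' = ∑ x ∈ s, ∑ y ∈ s', fm b (ζ x) (ζ' y) • R.co x y := by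
  unfold Reg.Q2
  rw [Finset.sum_subset hs]
  · refine Finset.sum_congr rfl fun x _ => Finset.sum_subset hs' fun y _ hy => ?_
    rw [Finsupp.notMem_support_iff.mp hy, fm_zero_right, zero_smul]
  · intro x _ hx
    refine Finset.sum_eq_zero fun y _ => ?_
    rw [Finsupp.notMem_support_iff.mp hx, fm_zero_left, zero_smul]

omit [Group G] in
theorem mn_one (a : A) : mn (Matrix.of fun _ _ : Fin 1 => a) ≤ ‖a‖ := by
  unfold mn
  rw [CStarMatrix.norm_def]
  refine ContinuousLinearMap.opNorm_le_bound _ (norm_nonneg a) fun v => ?_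
  refine (WithCStarModule.pi_norm_le_sum_norm _).trans ?_
  rw [CStarMatrix.toCLM_apply_eq_sum]
  simp only [Finset.univ_unique, Finset.sum_singleton, WithCStarModule.equiv_symm_pi_apply]
  have h := WithCStarModule.norm_apply_le_norm v default
  calc _ = ‖v default * a‖ := rfl
    _ ≤ ‖v default‖ * ‖a‖ := norm_mul_le _ _
    _ ≤ ‖v‖ * ‖a‖ := mul_le_mul_of_nonneg_right h (norm_nonneg a)
    _ = _ := mul_comm _ _

/-- Matrix coefficients of `a` are bounded by the norm of `a`. -/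
theorem co_le (R : Reg G A) (a : A) (s : Finset G) (v w : G → ℂ) :
    ‖∑ x ∈ s, ∑ y ∈ s, conj (v x) * R.co x y a * w y‖ ≤
      ‖a‖ * √(∑ x ∈ s, ‖v x‖ ^ 2) * √(∑ y ∈ s, ‖w y‖ ^ 2) := by
  have h := R.mat_le 1 (Matrix.of fun _ _ : Fin 1 => a) s (fun p => v p.2) (fun p => w p.2)
  simp only [fm, nsq, Fintype.sum_prod_type, Finset.univ_unique, Finset.sum_singleton,
    Matrix.of_apply] at h
  rw [Finset.sum_coe_sort s (fun x => ‖v x‖ ^ 2), Finset.sum_coe_sort s (fun x => ‖w x‖ ^ 2),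
    Finset.sum_coe_sort s (fun x => ∑ y : s, conj (v x) * R.co x y a * w y)] at h
  have e : ∀ x, ∑ y : s, conj (v x) * R.co x y a * w y =
      ∑ y ∈ s, conj (v x) * R.co x y a * w y := fun x =>
    Finset.sum_coe_sort s (fun y => conj (v x) * R.co x y a * w y)
  simp only [e] at h
  refine h.trans ?_
  have := mn_one a
  gcongr

end Vecs

end ComprM

open ComprM Petz

theorem compr : ComprStmt := by
  intro G _ A _ _ _ R K K' _ _ J hJ
  refine ⟨fun d e b hb m _ θ hθ v => ?_, fun b c hc hb v w => ?_, fun b ξ α h => ?_⟩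
  · have h := hb m θ hθ (fun p => (J *ᵥ fun q => v (q, p.2)) p.1)
    refine le_of_eq_of_le (congrArg _ (Finset.sum_congr rfl fun j _ => ?_)) (h.trans ?_)
    · rw [fm_prod (b j) (fun s s' => e j (θ s s')),
        fm_prod (Jᴴ * Matrix.of (b j) * J) (fun s s' => e j (θ s s'))]
      simp only [fm_compr]
    · rw [nsq_prod v, nsq_prod]
      exact Finset.sum_le_sum fun s _ => hJ fun q => v (q, s)
  · rw [fm_compr]
    refine (hb _ _).trans ?_
    have h1 := hJ v
    have h2 := hJ w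
    gcongr
  · have hs : ξ.support ⊆ α.support := by
      intro x hx
      rw [Finsupp.mem_support_iff] at hx ⊢
      intro h0
      apply hx
      rw [h x, h0, Matrix.mulVec_zero]
    unfold Reg.Q
    rw [Q2_eq R b ξ ξ hs hs, Q2_eq R _ α α subset_rfl subset_rfl]
    simp only [fm_compr, h]

theorem diagz : DiagzStmt := by
  intro G k ξ
  let H : Matrix (Fin k) (Fin k) ℂ := Matrix.of fun a b => ∑ x ∈ ξ.support, ξ x a * conj (ξ x b)
  have hH : H.IsHermitian := by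
    ext a b
    simp only [H, Matrix.conjTranspose_apply, Matrix.of_apply, Complex.star_def, map_sum, map_mul,
      Complex.conj_conj]
    exact Finset.sum_congr rfl fun x _ => mul_comm _ _
  let U : Matrix (Fin k) (Fin k) ℂ := hH.eigenvectorUnitary
  have hU1 : Uᴴ * U = 1 := hH.eigenvectorUnitary.2.1
  have hU2 : U * Uᴴ = 1 := hH.eigenvectorUnitary.2.2
  have hD : Uᴴ * H * U = Matrix.diagonal (RCLike.ofReal ∘ hH.eigenvalues) := by
    rw [← hH.conjStarAlgAut_star_eigenvectorUnitary, Unitary.conjStarAlgAut_star_apply]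
    rfl
  refine ⟨U, ξ.mapRange (fun v => Uᴴ *ᵥ v) (Matrix.mulVec_zero _), fun v => ?_, fun x => ?_,
    fun p q hpq => ?_⟩
  · have := dot_mul U v
    rw [hU1, Matrix.one_mulVec, dot_self] at this
    exact_mod_cast this.symm
  · rw [Finsupp.mapRange_apply, Matrix.mulVec_mulVec, hU2, Matrix.one_mulVec]
  · rw [Finset.sum_subset (Finsupp.support_mapRange (f := fun v => Uᴴ *ᵥ v) (g := ξ))]
    · have h1 := congrFun (congrFun hD q) p
      rw [Matrix.diagonal_apply_ne _ (Ne.symm hpq)] at h1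
      rw [← h1]
      simp only [Finsupp.mapRange_apply, Matrix.mul_apply, Matrix.mulVec, dotProduct, H,
        Matrix.of_apply, Matrix.conjTranspose_apply, Complex.star_def, map_sum, map_mul,
        Complex.conj_conj, Finset.sum_mul, Finset.mul_sum]
      simp only [Finset.sum_comm (s := ξ.support)]
      rw [Finset.sum_comm]
      exact Finset.sum_congr rfl fun a _ => Finset.sum_congr rfl fun b _ =>
        Finset.sum_congr rfl fun x _ => by ring
    · intro x _ hx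
      rw [Finsupp.notMem_support_iff.mp hx]
      simp

theorem nrq : NrqStmt := by
  intro G _ A _ _ _ R d e K _ b ζ hb
  have h := hb ζ.support (fun x y => R.co x y) (fun k a => R.mat_le k a ζ.support)
    (fun p => ζ p.2 p.1)
  rw [nsq_prod] at h
  rw [Finset.sum_coe_sort ζ.support (fun x => nsq fun p => ζ x p)] at h
  refine le_of_eq_of_le (congrArg _ (Finset.sum_congr rfl fun j _ => ?_)) h
  rw [fm_prod (b j) (fun x y : ζ.support => e j (R.co x y))]
  unfold Reg.Q Reg.Q2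
  rw [map_sum (e j), ← Finset.sum_coe_sort]
  refine Finset.sum_congr rfl fun x _ => ?_
  rw [map_sum (e j), ← Finset.sum_coe_sort]
  refine Finset.sum_congr rfl fun y _ => ?_
  rw [map_smul, smul_eq_mul, mul_comm]

theorem hs : HsStmt := by
  intro G K _ b c lam α hc hl hb hd hlam
  rw [Finset.sum_comm, ms, Finset.mul_sum]
  refine Finset.sum_le_sum fun y _ => ?_
  have h1 := pyth_le hd (fun p => conj ((Matrix.of b *ᵥ α y) p)) lam fun p _ => hlam p
  have h2 := bd_nsq (z := Matrix.of b) hb (α y)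
  have e : ∀ x, ‖fm b (α x) (α y)‖ = ‖∑ p, conj ((Matrix.of b *ᵥ α y) p) * α x p‖ := by
    intro x
    rw [← Complex.norm_conj (∑ p, _), map_sum]
    congr 1
    simp only [fm, Matrix.mulVec, dotProduct, Matrix.of_apply, map_mul, Complex.conj_conj,
      Finset.sum_mul]
    exact Finset.sum_congr rfl fun p _ => Finset.sum_congr rfl fun q _ => by ring
  simp only [e]
  refine h1.trans ?_
  simp only [Complex.norm_conj]
  calc lam * ∑ p, ‖(Matrix.of b *ᵥ α y) p‖ ^ 2 ≤ lam * (c ^ 2 * nsq (α y)) :=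
        mul_le_mul_of_nonneg_left h2 hl
    _ = _ := by ring

theorem sum_sqrt_cms {G K : Type} [Fintype K] (α : Vec G K) (P : Finset K) :
    ∑ p ∈ P, √(cms α p) ≤ √(P.card * ms α) := by
  refine Real.le_sqrt_of_sq_le ((sq_sum_le_card_mul_sum_sq).trans ?_)
  refine mul_le_mul_of_nonneg_left ?_ (Nat.cast_nonneg _)
  rw [← sum_cms]
  calc ∑ p ∈ P, √(cms α p) ^ 2 = ∑ p ∈ P, cms α p :=
        Finset.sum_congr rfl fun p _ => Real.sq_sqrt (cms_nonneg α p)
    _ ≤ _ := Finset.sum_le_sum_of_subset_of_nonneg (Finset.subset_univ _)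
        fun p _ _ => cms_nonneg α p

theorem comb_le {G K : Type} [Fintype K] {α : Vec G K} (hd : DG α) (P' : Finset K) (c lam : ℝ)
    (hc : 0 ≤ c) (hl : ∀ p ∈ P', cms α p ≤ lam) (w : K → ℂ) (hw : ∑ q, ‖w q‖ ^ 2 ≤ c ^ 2) :
    √(∑ y ∈ α.support, ‖∑ q, (if q ∈ P' then w q else 0) * α y q‖ ^ 2) ≤ c * √lam := by
  have h1 := pyth_le hd (fun q => if q ∈ P' then w q else 0) (√lam ^ 2) fun q hq => by
    have : q ∈ P' := by by_contra h; simp [h] at hq
    exact (hl q this).trans (by rw [Real.sq_sqrt']; exact le_max_left _ _)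
  have h2 : ∑ q, ‖(if q ∈ P' then w q else 0)‖ ^ 2 ≤ c ^ 2 := by
    refine le_trans (Finset.sum_le_sum fun q _ => ?_) hw
    split_ifs <;> simp
  refine Real.sqrt_le_iff.mpr ⟨by positivity, h1.trans ?_⟩
  rw [mul_pow, mul_comm]
  exact mul_le_mul_of_nonneg_right h2 (by positivity)

theorem cross : CrossStmt := by
  intro G _ A _ _ _ R K _ b c lam α P P' hc hb hd hl
  have hS := sum_sqrt_cms α P
  have fin : ∀ (a : A) (T : K → ℂ), (∀ p, ‖T p‖ ≤ ‖a‖ * √(cms α p) * (c * √lam)) →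
      ‖∑ p ∈ P, T p‖ ≤ c * √(P.card * ms α) * √lam * ‖a‖ := by
    intro a T hT
    refine (norm_sum_le _ _).trans ((Finset.sum_le_sum fun p _ => hT p).trans ?_)
    rw [← Finset.sum_mul, ← Finset.mul_sum]
    calc ‖a‖ * (∑ p ∈ P, √(cms α p)) * (c * √lam) ≤ ‖a‖ * √(P.card * ms α) * (c * √lam) := by
          gcongr
      _ = _ := by ring
  constructor
  · rw [Q2_eq R b _ _ (cut_supp P α) (cut_supp P' α)]
    refine ContinuousLinearMap.opNorm_le_bound _ (by positivity) fun a => ?_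
    have e : (∑ x ∈ α.support, ∑ y ∈ α.support, fm b (cut P α x) (cut P' α y) • R.co x y) a =
        ∑ p ∈ P, ∑ x ∈ α.support, ∑ y ∈ α.support, conj (α x p) * R.co x y a *
          ∑ q, (if q ∈ P' then b p q else 0) * α y q := by
      simp only [_root_.sum_apply, _root_.smul_apply, smul_eq_mul]
      rw [Finset.sum_comm (s := P)]
      refine Finset.sum_congr rfl fun x _ => ?_
      rw [Finset.sum_comm (s := P)]
      refine Finset.sum_congr rfl fun y _ => ?_
      rw [fm, Finset.sum_mul, ← Finset.sum_subset (Finset.subset_univ P)]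
      · refine Finset.sum_congr rfl fun p hp => ?_
        rw [Finset.sum_mul, Finset.mul_sum]
        refine Finset.sum_congr rfl fun q _ => ?_
        simp only [cut_apply, hp, if_true]
        split_ifs <;> ring
      · intro p _ hp
        simp [cut_apply, hp]
    rw [e]
    refine fin a _ fun p => (co_le R a α.support _ _).trans ?_
    exact mul_le_mul_of_nonneg_left (comb_le hd P' c lam hc hl _ (row_le hb p)) (by positivity)
  · rw [Q2_eq R b _ _ (cut_supp P' α) (cut_supp P α)]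
    refine ContinuousLinearMap.opNorm_le_bound _ (by positivity) fun a => ?_
    have e : (∑ x ∈ α.support, ∑ y ∈ α.support, fm b (cut P' α x) (cut P α y) • R.co x y) a =
        ∑ q ∈ P, ∑ x ∈ α.support, ∑ y ∈ α.support,
          conj (∑ p, (if p ∈ P' then conj (b p q) else 0) * α x p) * R.co x y a * α y q := by
      simp only [_root_.sum_apply, _root_.smul_apply, smul_eq_mul]
      rw [Finset.sum_comm (s := P)]
      refine Finset.sum_congr rfl fun x _ => ?_
      rw [Finset.sum_comm (s := P)]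
      refine Finset.sum_congr rfl fun y _ => ?_
      rw [fm, Finset.sum_comm, Finset.sum_mul, ← Finset.sum_subset (Finset.subset_univ P)]
      · refine Finset.sum_congr rfl fun q hq => ?_
        rw [map_sum, Finset.sum_mul, Finset.sum_mul, Finset.sum_mul]
        refine Finset.sum_congr rfl fun p _ => ?_
        simp only [cut_apply, hq, if_true]
        split_ifs
        · rw [map_mul, Complex.conj_conj]; ring
        · simp
      · intro q _ hq
        simp [cut_apply, hq]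
    rw [e]
    refine fin a _ fun q => (co_le R a α.support _ _).trans ?_
    rw [mul_right_comm]
    refine mul_le_mul_of_nonneg_left (comb_le hd P' c lam hc hl _ ?_) (by positivity)
    simpa using col_le hb q

end Pool.Agent.MP_88ca14_an

end
end MrgPart0

-- ======== part 1: formerly Pool.Agent.MP_88ca14_an.Ft
section MrgPart1

/-!
PROJECT LRX: fellow travelling of descent paths, amenability away from the deep points.
-/

set_option autoImplicit false

noncomputable section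

namespace Pool.Agent.MP_88ca14_an

open scoped Classical

namespace FtM

variable {σ : Type} [Fintype σ] [DecidableEq σ] {T : Tiles σ} {G : Type} [Group G] {Γ : Geo T G}
  {D : Desc Γ}

/-- One contraction step when the large cells are excluded. -/
theorem step (hC : ConP D) (L : ℕ) {a b : G} (hne : a ≠ b) (hY : b ∉ D.Y L)
    (hd : ∀ x, L < T.ell x → Γ.W.ds a b < 10 * T.ell x) :
    (∃ s r, s ≤ 2 * Γ.W.ds a b ∧ r ≤ 2 * Γ.W.ds a b ∧
      Γ.W.ds (D.ν^[s] a) (D.ν^[r] b) < Γ.W.ds a b) ∨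
    ∃ s r, s ≤ 17 ^ (101 * L) ∧ 1 ≤ r ∧ r ≤ 17 ^ (101 * L) ∧
      Γ.W.ds (D.ν^[s] a) (D.ν^[r] b) ≤ 2 * L := by
  rcases hC a b hne with h | ⟨x, g, y, h1, h2, -, h4, h5, h6⟩
  · exact Or.inl h
  · have e := T.ell_rd h2
    have hL : T.ell x ≤ L := by
      by_contra hc
      have hc' : L < T.ell x := not_le.1 hc
      rcases h6 with h6 | h6
      · exact absurd (hd x hc') (not_lt.2 h6)
      · exact hY ⟨y, h4, e ▸ hc', e ▸ h6.2⟩
    have hp : 17 ^ (101 * T.ell x) ≤ 17 ^ (101 * L) :=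
      Nat.pow_le_pow_right (by norm_num) (by omega)
    refine Or.inr ⟨D.h a, D.h b, (D.h_le h1).2.trans hp, (D.h_le h4).1, ?_, by omega⟩
    exact (D.h_le h4).2.trans (e ▸ hp)

theorem avoid {L : ℕ} {b : G} {t r : ℕ} (h : ∀ t', t' ≤ t → D.ν^[t'] b ∉ D.Y L) {t' : ℕ}
    (ht : t' + r ≤ t) : D.ν^[t'] (D.ν^[r] b) ∉ D.Y L := by
  rw [← Function.iterate_add_apply]; exact h _ ht

theorem phase1 (hC : ConP D) (L M : ℕ) (hg : ∀ x, T.ell x ≤ L ∨ M < T.ell x) (d : ℕ) :
    ∀ a b : G, Γ.W.ds a b ≤ d → d ≤ M → (∀ t', t' ≤ 2 * M * d → D.ν^[t'] b ∉ D.Y L) →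
      ∃ s r, s ≤ 2 * M * d + 17 ^ (101 * L) ∧ r ≤ 2 * M * d + 17 ^ (101 * L) ∧
        Γ.W.ds (D.ν^[s] a) (D.ν^[r] b) ≤ 2 * L := by
  induction d with
  | zero => exact fun a b h _ _ => ⟨0, 0, Nat.zero_le _, Nat.zero_le _, h.trans (Nat.zero_le _)⟩
  | succ d ih =>
    intro a b h hM hY
    by_cases hne : a = b
    · exact ⟨0, 0, Nat.zero_le _, Nat.zero_le _, by simp [hne]⟩
    have e : 2 * M * (d + 1) = 2 * M * d + 2 * M := by ring
    rcases step hC L hne (hY 0 (Nat.zero_le _)) (fun x hx => by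
      rcases hg x with k | k <;> omega) with ⟨s, r, h1, h2, h3⟩ | ⟨s, r, h1, -, h2, h3⟩
    · obtain ⟨s', r', k1, k2, k3⟩ := ih (D.ν^[s] a) (D.ν^[r] b) (by omega) (by omega)
        fun t' ht => avoid hY (by omega)
      rw [← Function.iterate_add_apply, ← Function.iterate_add_apply] at k3
      exact ⟨s' + s, r' + r, by omega, by omega, k3⟩
    · exact ⟨s, r, by omega, by omega, h3⟩

theorem phase2 (hC : ConP D) (L n : ℕ) :
    ∀ (a b : G) (t : ℕ), Γ.W.ds a b ≤ 2 * L → t * (2 * L + 1) + Γ.W.ds a b ≤ n →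
      (∀ t', t' ≤ t → D.ν^[t'] b ∉ D.Y L) →
      ∃ s, s ≤ (17 ^ (101 * L) + 4 * L + 1) * n ∧
        Γ.W.ds (D.ν^[s] a) (D.ν^[t] b) ≤ 6 * L + 17 ^ (101 * L) := by
  generalize hH : 17 ^ (101 * L) = H
  induction n with
  | zero =>
    intro a b t h1 h2 _
    have ht : t = 0 := by
      rcases Nat.eq_zero_or_pos t with h | h
      · exact h
      · have : 0 < t * (2 * L + 1) := Nat.mul_pos h (Nat.succ_pos (2 * L))
        omega
    subst ht
    exact ⟨0, Nat.zero_le _, by simp only [Function.iterate_zero, id]; omega⟩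
  | succ n ih =>
    intro a b t h1 h2 hY
    have e : (H + 4 * L + 1) * (n + 1) = (H + 4 * L + 1) * n + (H + 4 * L + 1) := by ring
    by_cases hne : a = b
    · refine ⟨t, ?_, by simp [hne]⟩
      have k1 : t ≤ t * (2 * L + 1) := Nat.le_mul_of_pos_right _ (Nat.succ_pos _)
      have k2 : n + 1 ≤ (H + 4 * L + 1) * (n + 1) := Nat.le_mul_of_pos_left _ (Nat.succ_pos _)
      omega
    obtain ⟨s, r, k1, k2, k3, k4⟩ : ∃ s r, s ≤ H + 4 * L ∧ r ≤ H + 4 * L ∧
        Γ.W.ds (D.ν^[s] a) (D.ν^[r] b) ≤ 2 * L ∧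
        Γ.W.ds (D.ν^[s] a) (D.ν^[r] b) < Γ.W.ds a b + r * (2 * L + 1) := by
      rcases step hC L hne (hY 0 (Nat.zero_le _)) (fun x hx => by omega) with
        ⟨s, r, k1, k2, k3⟩ | ⟨s, r, k1, k0, k2, k3⟩
      · exact ⟨s, r, by omega, by omega, by omega, by omega⟩
      · have : 2 * L + 1 ≤ r * (2 * L + 1) := Nat.le_mul_of_pos_left _ k0
        exact ⟨s, r, by omega, by omega, k3, by omega⟩
    rcases le_or_gt r t with hr | hr
    · obtain ⟨u, rfl⟩ : ∃ u, t = u + r := ⟨t - r, by omega⟩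
      have e2 : (u + r) * (2 * L + 1) = u * (2 * L + 1) + r * (2 * L + 1) := by ring
      obtain ⟨s', j1, j2⟩ := ih (D.ν^[s] a) (D.ν^[r] b) u k3 (by omega)
        fun t' ht => avoid hY (by omega)
      rw [← Function.iterate_add_apply, ← Function.iterate_add_apply] at j2
      exact ⟨s' + s, by omega, j2⟩
    · refine ⟨0, Nat.zero_le _, ?_⟩
      have j1 := Γ.W.ds_tri a b (D.ν^[t] b)
      have j2 := D.ds_iter b t
      simp only [Function.iterate_zero, id]
      omega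

end FtM

open FtM in
theorem ft : FtStmt := by
  refine ⟨fun L => 6 * L + 17 ^ (101 * L), fun L => (17 ^ (101 * L) + 4 * L + 1) * (2 * L + 1),
    fun σ _ _ T G _ Γ D hC L M hg a b t hab ht hY => ?_⟩
  have e : 2 * M * M = 2 * M ^ 2 := by ring
  have e0 := Nat.zero_le (17 ^ (101 * L))
  obtain ⟨s, r, h1, h2, h3⟩ := phase1 hC L M hg M a b hab le_rfl fun t' h => hY t' (by omega)
  obtain ⟨u, rfl⟩ : ∃ u, t = u + r := ⟨t - r, by omega⟩
  obtain ⟨s', h4, h5⟩ := phase2 hC L ((2 * L + 1) * (u + r + 1)) (D.ν^[s] a) (D.ν^[r] b) u h3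
    (by
      have e2 : (2 * L + 1) * (u + r + 1) = u * (2 * L + 1) + (2 * L + 1) * r + (2 * L + 1) := by
        ring
      omega)
    fun t' ht' => avoid hY (by omega)
  rw [← Function.iterate_add_apply, ← Function.iterate_add_apply] at h5
  refine ⟨s' + s, ?_, h5⟩
  rw [← mul_assoc] at h4
  simp only
  omega

namespace FtM

variable {σ : Type} [Fintype σ] [DecidableEq σ] {T : Tiles σ} {G : Type} [Group G] {Γ : Geo T G}
  {D : Desc Γ}

theorem iter_one (D : Desc Γ) (t : ℕ) : D.ν^[t] 1 = 1 := Function.iterate_fixed D.nu_one t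

theorem pot_iter (D : Desc Γ) (v : G) (j : ℕ) (h : D.ν^[j + 1] v ≠ 1) :
    Γ.lev (D.ν^[j + 1] v) < Γ.lev v ∨
      (Γ.lev (D.ν^[j + 1] v) = Γ.lev v ∧ D.h (D.ν^[j + 1] v) < D.h v) := by
  induction j with
  | zero => exact D.pot v fun e => h (by rw [e]; exact iter_one D _)
  | succ j ih =>
    have h1 : D.ν^[j + 1] v ≠ 1 := fun e => h (by
      rw [Function.iterate_succ_apply', e]; exact D.nu_one)
    have h2 := D.pot _ h1
    have h3 := ih h1
    rw [Function.iterate_succ_apply' D.ν (j + 1)]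
    omega

theorem iter_inj (D : Desc Γ) (v : G) {t t' : ℕ} (hlt : t < t') (h : D.ν^[t'] v ≠ 1) :
    D.ν^[t] v ≠ D.ν^[t'] v := by
  obtain ⟨j, rfl⟩ : ∃ j, t' = j + 1 + t := ⟨t' - t - 1, by omega⟩
  rw [Function.iterate_add_apply] at h ⊢
  intro e
  have := pot_iter D _ j h
  rw [← e] at this
  omega

/-- `z` is the base point of the large cell in which `e` is deep. -/
def Rep (D : Desc Γ) (β : T.ι → T.X) (q : ℕ) (e z : G) : Prop :=
  ∃ x g, Γ.Tp e x ∧ q < T.ell x ∧ 30 * T.ell x ≤ D.h e ∧ T.Γ.Rd x g (β (T.ty x)) ∧ z = e * Γ.π g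

theorem exists_rep {β : T.ι → T.X} (hβ : ∀ x, T.ty (β (T.ty x)) = T.ty x) {q : ℕ} {e : G}
    (h : e ∈ D.Y q) : ∃ z, Rep D β q e z := by
  obtain ⟨x, h1, h2, h3⟩ := h
  obtain ⟨g, hg⟩ := (T.conn x _).1 (hβ x).symm
  exact ⟨_, x, g, h1, h2, h3, hg, rfl⟩

theorem Rep.ds {β : T.ι → T.X} {q L : ℕ} {e z : G} (h : Rep D β q e z) (hL : e ∉ D.Y L) :
    Γ.W.ds e z ≤ 17 ^ (101 * L) := by
  obtain ⟨x, g, h1, -, h3, h4, rfl⟩ := h
  obtain ⟨g', h5, h6⟩ := T.diam h4
  have hx : T.ell x ≤ L := not_lt.1 fun k => hL ⟨x, h1, k, h3⟩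
  rw [(Γ.cinj h4 h5).1 rfl]
  exact (Γ.ds_pi e g').trans (h6.trans (Nat.pow_le_pow_right (by norm_num) (by omega)))

theorem Rep.uniq_aux (hF : FsP D) {β : T.ι → T.X} {q P : ℕ} (hP : ∀ x, q < T.ell x → P ≤ T.ell x)
    {e e' z z' : G} (h : Rep D β q e z) (h' : Rep D β q e' z') (hl : Γ.lev e' ≤ Γ.lev e)
    (hd : Γ.W.ds e e' < 10 * P) : z = z' := by
  obtain ⟨x, g, h1, h2, h3, h4, rfl⟩ := h
  obtain ⟨x', g', k1, -, k3, k4, rfl⟩ := h'
  have := hP x h2
  obtain ⟨g₁, x₁, j1, rfl, j3⟩ := hF e e' x h1 h3 hl (by omega)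
  have e1 : x' = x₁ := by
    by_contra hne
    have := D.two _ _ _ k1 j3 hne
    omega
  subst e1
  rw [← T.ty_rd j1] at k4
  rw [mul_assoc, ← map_mul, (Γ.cinj h4 (j1.trans k4)).1 rfl]

theorem Rep.uniq (hF : FsP D) {β : T.ι → T.X} {q P : ℕ} (hP : ∀ x, q < T.ell x → P ≤ T.ell x)
    {e e' z z' : G} (h : Rep D β q e z) (h' : Rep D β q e' z') (hd : Γ.W.ds e e' < 10 * P) :
    z = z' := by
  rcases le_total (Γ.lev e') (Γ.lev e) with hl | hl
  · exact h.uniq_aux hF hP h' hl hd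
  · exact (h'.uniq_aux hF hP h hl (Γ.W.ds_comm e e' ▸ hd)).symm

/-- The token of the descent path from `y` at time `t`. -/
def Tok (D : Desc Γ) (β : T.ι → T.X) (q : ℕ) (y : G) (t : ℕ) (o : G × ℕ) : Prop :=
  (∃ t', t' ≤ t ∧ Rep D β q (D.ν^[t'] y) o.1 ∧ o.2 = t + 1) ∨
    (D.ν^[t] y = 1 ∧ o = (1, t + 1)) ∨
    ((∀ t', t' ≤ t → D.ν^[t'] y ∉ D.Y q) ∧ D.ν^[t] y ≠ 1 ∧ o = (D.ν^[t] y, 0))

theorem exists_tok {β : T.ι → T.X} (hβ : ∀ x, T.ty (β (T.ty x)) = T.ty x) (q : ℕ) (y : G)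
    (t : ℕ) : ∃ o, Tok D β q y t o := by
  by_cases h : ∃ t', t' ≤ t ∧ D.ν^[t'] y ∈ D.Y q
  · obtain ⟨t', h1, h2⟩ := h
    obtain ⟨z, hz⟩ := exists_rep hβ h2
    exact ⟨(z, t + 1), Or.inl ⟨t', h1, hz, rfl⟩⟩
  · by_cases h1 : D.ν^[t] y = 1
    · exact ⟨_, Or.inr (Or.inl ⟨h1, rfl⟩)⟩
    · exact ⟨_, Or.inr (Or.inr ⟨fun t' ht hc => h ⟨t', ht, hc⟩, h1, rfl⟩)⟩

theorem Tok.ne {β : T.ι → T.X} {q : ℕ} {y : G} {t t' : ℕ} {o o' : G × ℕ} (hlt : t < t')
    (h : Tok D β q y t o) (h' : Tok D β q y t' o') : o ≠ o' := by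
  rintro rfl
  have a : o.2 = t + 1 ∨ o = (D.ν^[t] y, 0) := by
    rcases h with ⟨_, _, _, h⟩ | ⟨_, h⟩ | ⟨_, _, h⟩
    exacts [Or.inl h, Or.inl (by rw [h]), Or.inr h]
  have b : o.2 = t' + 1 ∨ (D.ν^[t'] y ≠ 1 ∧ o = (D.ν^[t'] y, 0)) := by
    rcases h' with ⟨_, _, _, h⟩ | ⟨_, h⟩ | ⟨_, h⟩
    exacts [Or.inl h, Or.inl (by rw [h]), Or.inr h]
  rcases a with a | a <;> rcases b with b | ⟨b1, b⟩
  · omega
  · rw [b] at a; simp at a
  · rw [a] at b; simp at b
  · exact iter_inj D y hlt b1 (congrArg Prod.fst (a.symm.trans b))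

theorem ds_path (D : Desc Γ) (x b : G) {k t n : ℕ} (hb : b ∈ Γ.W.ball k) (ht : t ≤ n) :
    Γ.W.ds x (D.ν^[t] (x * b)) ≤ k + n := by
  have h1 := Γ.W.ds_tri x (x * b) (D.ν^[t] (x * b))
  have h2 := D.ds_iter (x * b) t
  have h3 := (Γ.W.mem_ball k b).1 hb
  rw [WG.ds_mul_right] at h1
  omega

/-- The core of the argument, with all the parameters free. -/
theorem core (hN : NestStmt) (hF : FsP D) (q δ K R M M₂ n P L : ℕ) (hM : 0 < M) (hn : 0 < n)
    (hM₂ : M + 2 * R ≤ M₂) (hP : ∀ x, q < T.ell x → P ≤ T.ell x) (hP' : M₂ + 2 * n < P)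
    (hft : ∀ a b t, Γ.W.ds a b ≤ M₂ → n ≤ t → (∀ t', t' ≤ t → D.ν^[t'] b ∉ D.Y q) →
      ∃ s, s ≤ t + K * (t + 1) ∧ Γ.W.ds (D.ν^[s] a) (D.ν^[t] b) ≤ δ) :
    Amen Γ.W.near (Γ.W.Nb (M₂ + 2 * n) (D.Y L))ᶜ R
      (4 * R * ((2 * (K + 1) * (Γ.W.ball δ).card + 2 : ℕ) : ℝ) / M)
      (M₂ + 2 * n + 17 ^ (101 * L)) := by
  have := T.nonempty_X
  have hβ : ∀ x, T.ty (Function.invFun T.ty (T.ty x)) = T.ty x := fun x =>
    Function.invFun_eq ⟨x, rfl⟩
  generalize Function.invFun T.ty = β at hβ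
  choose tok htok using exists_tok (D := D) hβ q
  refine hN G Γ.W (G × ℕ)
    (fun x k => (Γ.W.ball k ×ˢ Finset.Ico n (2 * n)).image fun p => tok (x * p.1) p.2)
    Prod.fst _ R M n _ _ hn hM (fun x _ y _ hxy k o ho => ?_) fun x hx k hk => ⟨?_, ?_, ?_⟩
  · obtain ⟨⟨b, t⟩, hp, rfl⟩ := Finset.mem_image.1 ho
    obtain ⟨hb, ht⟩ := Finset.mem_product.1 hp
    refine Finset.mem_image.2 ⟨(y⁻¹ * x * b, t), Finset.mem_product.2 ⟨?_, ht⟩, by
      simp only [mul_assoc, mul_inv_cancel_left]⟩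
    have h1 := Γ.W.wl_mul (y⁻¹ * x) b
    have h2 := (Γ.W.mem_ball k b).1 hb
    rw [Γ.W.ds_comm] at hxy
    unfold WG.ds at hxy
    exact (Γ.W.mem_ball _ _).2 (by simp only; omega)
  · have h1 : ((Finset.Ico n (2 * n)).image (tok x)).card = n := by
      rw [Finset.card_image_of_injOn, Nat.card_Ico]
      · omega
      · intro t _ t' _ e
        rcases lt_trichotomy t t' with h | h | h
        · exact absurd e ((htok x t).ne h (htok x t'))
        · exact h
        · exact absurd e.symm ((htok x t').ne h (htok x t))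
    rw [← h1]
    refine Finset.card_le_card fun o ho => ?_
    obtain ⟨t, ht, rfl⟩ := Finset.mem_image.1 ho
    rw [h1]
    exact Finset.mem_image.2 ⟨(1, t), Finset.mem_product.2 ⟨Γ.W.one_mem_ball k, ht⟩, by simp⟩
  · obtain ⟨z, hz⟩ : ∃ z : G, ∀ b ∈ Γ.W.ball k, ∀ t' ≤ 2 * n, ∀ z',
        Rep D β q (D.ν^[t'] (x * b)) z' → z' = z := by
      by_cases h : ∃ b ∈ Γ.W.ball k, ∃ t' ≤ 2 * n, ∃ z', Rep D β q (D.ν^[t'] (x * b)) z'
      · obtain ⟨b₀, h1, t₀, h2, z, h3⟩ := h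
        refine ⟨z, fun b hb t' ht z' hz => hz.uniq hF hP h3 ?_⟩
        have j1 := ds_path D x b hb ht
        have j2 := ds_path D x b₀ h1 h2
        have j3 := Γ.W.ds_tri (D.ν^[t'] (x * b)) x (D.ν^[t₀] (x * b₀))
        rw [Γ.W.ds_comm] at j1
        omega
      · exact ⟨1, fun b hb t' ht z' hz => absurd ⟨b, hb, t', ht, z', hz⟩ h⟩
    have hsub : ((Γ.W.ball k ×ˢ Finset.Ico n (2 * n)).image fun p => tok (x * p.1) p.2) ⊆
        ((Finset.range (2 * (K + 1) * n) ×ˢ Γ.W.ball δ).image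
          fun p => (D.ν^[p.1] x * p.2, 0)) ∪
        (((Finset.Ico n (2 * n)).image fun t => (z, t + 1)) ∪
          (Finset.Ico n (2 * n)).image fun t => (1, t + 1)) := by
      intro o ho
      obtain ⟨⟨b, t⟩, hp, rfl⟩ := Finset.mem_image.1 ho
      obtain ⟨hb, ht⟩ := Finset.mem_product.1 hp
      have ht' := Finset.mem_Ico.1 ht
      simp only at hb ht ht' ⊢
      rcases htok (x * b) t with ⟨t', h1, h2, h3⟩ | ⟨_, h2⟩ | ⟨h1, _, h3⟩
      · refine Finset.mem_union_right _ (Finset.mem_union_left _ (Finset.mem_image.2 ⟨t, ht, ?_⟩))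
        exact Prod.ext (hz b hb t' (by omega) _ h2).symm h3.symm
      · exact Finset.mem_union_right _
          (Finset.mem_union_right _ (Finset.mem_image.2 ⟨t, ht, h2.symm⟩))
      · obtain ⟨s, k1, k2⟩ := hft x (x * b) t
          (by rw [WG.ds_mul_right]; have := (Γ.W.mem_ball k b).1 hb; omega) ht'.1 h1
        refine Finset.mem_union_left _ (Finset.mem_image.2
          ⟨(s, (D.ν^[s] x)⁻¹ * D.ν^[t] (x * b)), Finset.mem_product.2
            ⟨Finset.mem_range.2 ?_, (Γ.W.mem_ball _ _).2 k2⟩, by rw [h3]; simp⟩)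
        have k3 : K * (t + 1) ≤ K * (2 * n) := Nat.mul_le_mul_left _ ht'.2
        have e : 2 * (K + 1) * n = K * (2 * n) + 2 * n := by ring
        simp only
        omega
    refine (Finset.card_le_card hsub).trans ((Finset.card_union_le _ _).trans ?_)
    have c1 := (Finset.card_image_le (s := Finset.range (2 * (K + 1) * n) ×ˢ Γ.W.ball δ)
      (f := fun p => ((D.ν^[p.1] x * p.2, 0) : G × ℕ)))
    have c2 := Finset.card_union_le ((Finset.Ico n (2 * n)).image fun t => ((z, t + 1) : G × ℕ))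
      ((Finset.Ico n (2 * n)).image fun t => ((1, t + 1) : G × ℕ))
    have c3 := Finset.card_image_le (s := Finset.Ico n (2 * n))
      (f := fun t => ((z, t + 1) : G × ℕ))
    have c4 := Finset.card_image_le (s := Finset.Ico n (2 * n))
      (f := fun t => ((1, t + 1) : G × ℕ))
    rw [Finset.card_product, Finset.card_range] at c1
    rw [Nat.card_Ico] at c3 c4
    have e : (2 * (K + 1) * (Γ.W.ball δ).card + 2) * n =
        2 * (K + 1) * n * (Γ.W.ball δ).card + 2 * n := by ring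
    omega
  · intro o ho
    obtain ⟨⟨b, t⟩, hp, rfl⟩ := Finset.mem_image.1 ho
    obtain ⟨hb, ht⟩ := Finset.mem_product.1 hp
    have ht' := Finset.mem_Ico.1 ht
    simp only at hb ht ht' ⊢
    have j1 := ds_path D x b hb ht'.2.le
    have j0 := Nat.zero_le (17 ^ (101 * L))
    rcases htok (x * b) t with ⟨t', h1, h2, _⟩ | ⟨h1, h2⟩ | ⟨_, _, h3⟩
    · have j2 := ds_path D x b hb (h1.trans ht'.2.le)
      have j3 := h2.ds (L := L) fun hc => hx ⟨_, hc, by omega⟩
      have j4 := Γ.W.ds_tri x (D.ν^[t'] (x * b)) (tok (x * b) t).1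
      omega
    · rw [h2]
      rw [h1] at j1
      simp only
      omega
    · rw [h3]
      simp only
      omega

end FtM

open FtM in
theorem am1 (hFt : FtStmt) (hN : NestStmt) : Am1Stmt := by
  obtain ⟨δ, K, hft⟩ := hFt
  obtain ⟨C, hC⟩ : ∃ C : ℕ → ℕ, ∀ q, C q = 2 * (K q + 1) * (2 * q + 1) ^ δ q + 2 :=
    ⟨_, fun _ => rfl⟩
  obtain ⟨M, hM⟩ : ∃ M : ℕ → ℕ, ∀ q, M q = 4 * q * C q * q + 1 := ⟨_, fun _ => rfl⟩
  obtain ⟨n, hn⟩ : ∃ n : ℕ → ℕ, ∀ q, n q = 2 * (M q + 2 * q) ^ 2 + 17 ^ (101 * q) :=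
    ⟨_, fun _ => rfl⟩
  refine ⟨fun q => M q + 2 * q + 2 * n q + 1, fun σ _ _ T G _ Γ D hL hc hF R ε hε => ?_⟩
  obtain ⟨q, hq, hg⟩ := hL (R + Fintype.card σ + ⌈ε⁻¹⌉₊)
  have hP : ∀ x, q < T.ell x → M q + 2 * q + 2 * n q + 1 ≤ T.ell x := fun x hx => by
    rcases hg (T.ty x) with h | h
    · exact absurd h (not_le.2 hx)
    · exact h
  have hn0 : 0 < n q := by rw [hn]; positivity
  have hM0 : 0 < M q := by rw [hM]; omega
  refine ⟨M q + 2 * q + 2 * n q, fun L => ⟨_, (core hN hF q (δ q) (K q) R (M q) (M q + 2 * q)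
    (n q) _ L hM0 hn0 (by omega) hP (Nat.lt_succ_self _) fun a b t h1 h2 h3 =>
      hft σ T G Γ D hc q (M q + 2 * q) (fun x => ?_) a b t h1 (hn q ▸ h2) h3).mono
        subset_rfl ?_⟩⟩
  · rcases le_or_gt (T.ell x) q with h | h
    · exact Or.inl h
    · have := hP x h
      exact Or.inr (by omega)
  · have h1 : 2 * (K q + 1) * (Γ.W.ball (δ q)).card + 2 ≤ C q := by
      rw [hC]
      refine Nat.add_le_add_right (Nat.mul_le_mul_left _ ((Γ.card_ball _).trans ?_)) _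
      exact Nat.pow_le_pow_left (by omega) _
    have h2 : (R : ℝ) ≤ q := by exact_mod_cast (by omega : R ≤ q)
    have h3 : ε⁻¹ ≤ q := (Nat.le_ceil _).trans (by exact_mod_cast (by omega : ⌈ε⁻¹⌉₊ ≤ q))
    have h4 : 1 ≤ ε * q := by
      have := mul_le_mul_of_nonneg_left h3 hε.le
      rwa [mul_inv_cancel₀ hε.ne'] at this
    have h5 : ((2 * (K q + 1) * (Γ.W.ball (δ q)).card + 2 : ℕ) : ℝ) ≤ C q := by exact_mod_cast h1
    have h6 : (0 : ℝ) < M q := by exact_mod_cast hM0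
    have h7 : (M q : ℝ) = 4 * q * C q * q + 1 := by rw [hM]; push_cast; ring
    rw [div_le_iff₀ h6, h7]
    have h8 : (0 : ℝ) ≤ 4 * q * C q := by positivity
    calc 4 * (R : ℝ) * ((2 * (K q + 1) * (Γ.W.ball (δ q)).card + 2 : ℕ) : ℝ) ≤ 4 * q * C q := by
          gcongr
      _ ≤ 4 * q * C q * (ε * q) := le_mul_of_one_le_right h8 h4
      _ ≤ ε * (4 * q * C q * q + 1) := by nlinarith

end Pool.Agent.MP_88ca14_an

end
end MrgPart1

-- ======== part 2: formerly Pool.Agent.MP_88ca14_an.Ros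
section MrgPart2

/-!
PROJECT LRX: the counting lemma for colourings, covers by cylinders, and the spectral bound for
forests.
-/

set_option autoImplicit false

noncomputable section

namespace Pool.Agent.MP_88ca14_an

open Finset
open scoped Classical

namespace Ros

section Count

variable {E C : Type} [Fintype E] [Fintype C]

/-- Colourings that are constant outside `U` and avoid the cylinders supported in `S`. -/
def Gd (c0 : C) (K : Finset (Finset E × (E → C))) (U S : Finset E) : Finset (E → C) :=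
  univ.filter fun ω => (∀ e, e ∉ U → ω e = c0) ∧ ∀ κ ∈ K, κ.1 ⊆ S → ¬ InCyl ω κ

variable {c0 : C} {K : Finset (Finset E × (E → C))}

theorem mem_Gd {U S : Finset E} {ω : E → C} :
    ω ∈ Gd c0 K U S ↔ (∀ e, e ∉ U → ω e = c0) ∧ ∀ κ ∈ K, κ.1 ⊆ S → ¬ InCyl ω κ := by
  simp [Gd]

/-- A colouring in a cylinder is determined by its values outside the support. -/
theorem card_cyl (U S : Finset E) (κ : Finset E × (E → C)) (h : U \ κ.1 ⊆ S) :
    ((Gd c0 K U S).filter fun ω => InCyl ω κ).card ≤ (Gd c0 K (U \ κ.1) (U \ κ.1)).card := by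
  refine card_le_card_of_injOn (fun ω e => if e ∈ κ.1 then c0 else ω e) ?_ ?_
  · intro ω hω
    rw [mem_coe, mem_filter, mem_Gd] at hω
    rw [mem_coe, mem_Gd]
    refine ⟨fun e he => ?_, fun κ' hκ' hs hc => hω.1.2 κ' hκ' (hs.trans h) fun e he => ?_⟩
    · by_cases h1 : e ∈ κ.1
      · simp [h1]
      · simp only [h1, if_false]
        exact hω.1.1 e fun h2 => he (mem_sdiff.2 ⟨h2, h1⟩)
    · have h1 := (mem_sdiff.1 (hs he)).2
      have h2 := hc e he
      simpa [h1] using h2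
  · intro ω hω ω' hω' hh
    rw [mem_coe, mem_filter] at hω hω'
    funext e
    by_cases h1 : e ∈ κ.1
    · rw [hω.2 e h1, hω'.2 e h1]
    · have := congrFun hh e
      simpa [h1] using this

/-- All extensions to one more point. -/
theorem card_ext (S : Finset E) {e : E} (he : e ∉ S) :
    Fintype.card C * (Gd c0 K S S).card ≤ (Gd c0 K (insert e S) S).card := by
  rw [← card_univ, ← card_product]
  refine card_le_card_of_injOn (fun p => Function.update p.2 e p.1) ?_ ?_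
  · rintro ⟨c, ω⟩ hp
    rw [mem_coe, mem_product, mem_Gd] at hp
    rw [mem_coe, mem_Gd]
    refine ⟨fun e' he' => ?_, fun κ hκ hs hc => hp.2.2 κ hκ hs fun e' he' => ?_⟩
    · rw [mem_insert, not_or] at he'
      simp only [Function.update_of_ne he'.1]
      exact hp.2.1 e' he'.2
    · have h1 : e' ≠ e := fun h => he (h ▸ hs he')
      have h2 := hc e' he'
      simpa only [Function.update_of_ne h1] using h2
  · rintro ⟨c, ω⟩ hp ⟨c', ω'⟩ hp' hh
    rw [mem_coe, mem_product, mem_Gd] at hp hp'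
    have h1 : c = c' := by simpa using congrFun hh e
    refine Prod.ext h1 (funext fun e' => ?_)
    by_cases h2 : e' = e
    · subst h2
      exact (hp.2.1 _ he).trans (hp'.2.1 _ he).symm
    · simpa only [Function.update_of_ne h2] using congrFun hh e'

/-- Iterating the growth estimate. -/
theorem iter {β : ℝ} (hβ : 0 < β) (N : Finset E → ℝ) (n : ℕ)
    (h : ∀ T : Finset E, T.card < n → ∀ e, e ∉ T → β * N T ≤ N (insert e T))
    (S : Finset E) (hS : S.card ≤ n) (A : Finset E) (hA : A ⊆ S) :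
    N (S \ A) ≤ β⁻¹ ^ A.card * N S := by
  induction A using Finset.induction_on with
  | empty => simp
  | insert a A ha ih =>
    have h1 : a ∈ S := hA (mem_insert_self _ _)
    have h2 : insert a (S \ insert a A) = S \ A := by
      ext x
      simp only [mem_insert, mem_sdiff, not_or]
      constructor
      · rintro (rfl | h)
        exacts [⟨h1, ha⟩, ⟨h.1, h.2.2⟩]
      · intro h
        by_cases hx : x = a
        exacts [Or.inl hx, Or.inr ⟨h.1, hx, h.2⟩]
    have h3 : (S \ insert a A).card < n := by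
      refine lt_of_lt_of_le (card_lt_card ⟨sdiff_subset, fun hh => ?_⟩) hS
      simpa using hh h1
    have h4 := h _ h3 a (by simp)
    rw [h2] at h4
    have h5 := ih ((subset_insert _ _).trans hA)
    rw [card_insert_of_notMem ha, pow_succ', mul_assoc, ← div_eq_inv_mul, le_div_iff₀ hβ]
    linarith

theorem grow {β : ℝ} (hβ : 0 < β)
    (hK : ∀ e, ∑ κ ∈ K.filter (fun κ => e ∈ κ.1), β⁻¹ ^ (κ.1.card - 1) ≤ Fintype.card C - β)
    (n : ℕ) : ∀ S : Finset E, S.card < n → ∀ e, e ∉ S →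
      β * ((Gd c0 K S S).card : ℝ) ≤ (Gd c0 K (insert e S) (insert e S)).card := by
  induction n with
  | zero => intro S h; omega
  | succ n ih =>
    intro S hS e he
    set K' := K.filter fun κ => e ∈ κ.1 ∧ κ.1 ⊆ insert e S with hK'
    have h1 : Gd c0 K (insert e S) S ⊆ Gd c0 K (insert e S) (insert e S) ∪
        K'.biUnion fun κ => (Gd c0 K (insert e S) S).filter fun ω => InCyl ω κ := by
      intro ω hω
      rw [mem_union]
      by_cases h : ∀ κ ∈ K, κ.1 ⊆ insert e S → ¬ InCyl ω κ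
      · exact Or.inl (mem_Gd.2 ⟨(mem_Gd.1 hω).1, h⟩)
      · push Not at h
        obtain ⟨κ, hκ, hs, hc⟩ := h
        refine Or.inr (mem_biUnion.2 ⟨κ, mem_filter.2 ⟨hκ, ?_, hs⟩, mem_filter.2 ⟨hω, hc⟩⟩)
        by_contra h2
        exact (mem_Gd.1 hω).2 κ hκ ((subset_insert_iff_of_notMem h2).1 hs) hc
    have h2 : ∀ κ ∈ K', (((Gd c0 K (insert e S) S).filter fun ω => InCyl ω κ).card : ℝ) ≤
        β⁻¹ ^ (κ.1.card - 1) * (Gd c0 K S S).card := by
      intro κ hκ
      obtain ⟨-, h3, h4⟩ := mem_filter.1 hκ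
      have h5 : insert e S \ κ.1 = S \ κ.1.erase e := by
        ext x
        simp only [mem_insert, mem_sdiff, mem_erase, not_and]
        constructor
        · rintro ⟨rfl | h, h'⟩
          exacts [(h' h3).elim, ⟨h, fun _ => h'⟩]
        · rintro ⟨h, h'⟩
          exact ⟨Or.inr h, h' fun hx => he (hx ▸ h)⟩
      have h6 := card_cyl (c0 := c0) (K := K) (insert e S) S κ (h5 ▸ sdiff_subset)
      rw [h5] at h6
      have h7 := iter hβ (fun T => ((Gd c0 K T T).card : ℝ)) n ih S (by omega) (κ.1.erase e)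
        (subset_insert_iff.1 h4)
      rw [card_erase_of_mem h3] at h7
      exact (Nat.cast_le.2 h6).trans h7
    have h3 : ((Gd c0 K (insert e S) S).card : ℝ) ≤ (Gd c0 K (insert e S) (insert e S)).card +
        ∑ κ ∈ K', (((Gd c0 K (insert e S) S).filter fun ω => InCyl ω κ).card : ℝ) := by
      exact_mod_cast (card_le_card h1).trans
        ((card_union_le _ _).trans (Nat.add_le_add_left card_biUnion_le _))
    have h4 : ∑ κ ∈ K', β⁻¹ ^ (κ.1.card - 1) ≤ Fintype.card C - β := by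
      refine (sum_le_sum_of_subset_of_nonneg (fun κ hκ => ?_) fun _ _ _ => by positivity).trans
        (hK e)
      rw [mem_filter] at hκ ⊢
      exact ⟨hκ.1, hκ.2.1⟩
    have h5 := sum_le_sum h2
    rw [← sum_mul] at h5
    have h6 : (Fintype.card C : ℝ) * (Gd c0 K S S).card ≤ (Gd c0 K (insert e S) S).card := by
      exact_mod_cast card_ext S he
    have h7 := mul_le_mul_of_nonneg_right h4 (Nat.cast_nonneg (α := ℝ) (Gd c0 K S S).card)
    linarith

end Count

section Cover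

variable {E C : Type} {β : ℝ}

theorem cov_union (hβ : 0 < β) {Ev Ev' : Set (E → C)} {Rg : Set E} {θ θ' : ℝ}
    (h : Cov β Ev Rg θ) (h' : Cov β Ev' Rg θ') : Cov β (Ev ∪ Ev') Rg (θ + θ') := by
  obtain ⟨K, h1, h2, h3⟩ := h
  obtain ⟨K', h1', h2', h3'⟩ := h'
  refine ⟨K ∪ K', fun κ hκ => ?_, fun ω hω => ?_, ?_⟩
  · rcases mem_union.1 hκ with h | h
    exacts [h1 κ h, h1' κ h]
  · rcases hω with h | h
    · obtain ⟨κ, h4, h5⟩ := h2 ω h
      exact ⟨κ, mem_union_left _ h4, h5⟩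
    · obtain ⟨κ, h4, h5⟩ := h2' ω h
      exact ⟨κ, mem_union_right _ h4, h5⟩
  · have h4 := sum_union_inter (s₁ := K) (s₂ := K') (f := fun κ => β⁻¹ ^ κ.1.card)
    have h5 : 0 ≤ ∑ κ ∈ K ∩ K', β⁻¹ ^ κ.1.card := sum_nonneg fun _ _ => by positivity
    linarith

theorem cov_inter (hβ : 0 < β) {Ev Ev' : Set (E → C)} {Rg Rg' : Set E} {θ θ' : ℝ}
    (h : Cov β Ev Rg θ) (h' : Cov β Ev' Rg' θ') (hd : Disjoint Rg Rg') :
    Cov β (Ev ∩ Ev') (Rg ∪ Rg') (θ * θ') := by
  obtain ⟨K, h1, h2, h3⟩ := h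
  obtain ⟨K', h1', h2', h3'⟩ := h'
  let f : (Finset E × (E → C)) × (Finset E × (E → C)) → Finset E × (E → C) :=
    fun p => (p.1.1 ∪ p.2.1, fun e => if e ∈ p.1.1 then p.1.2 e else p.2.2 e)
  refine ⟨(K ×ˢ K').image f, fun κ hκ => ?_, fun ω hω => ?_, ?_⟩
  · obtain ⟨p, hp, rfl⟩ := mem_image.1 hκ
    rw [mem_product] at hp
    simp only [f, coe_union]
    exact Set.union_subset_union (h1 _ hp.1) (h1' _ hp.2)
  · obtain ⟨κ, h4, h5⟩ := h2 ω hω.1
    obtain ⟨κ', h4', h5'⟩ := h2' ω hω.2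
    refine ⟨f (κ, κ'), mem_image_of_mem f (mem_product.2 ⟨h4, h4'⟩), fun e he => ?_⟩
    by_cases h6 : e ∈ κ.1
    · simp only [f, h6, if_true]; exact h5 e h6
    · simp only [f, h6, if_false]
      exact h5' e ((mem_union.1 he).resolve_left h6)
  · have h4 : ∑ κ ∈ (K ×ˢ K').image f, β⁻¹ ^ κ.1.card ≤ ∑ p ∈ K ×ˢ K', β⁻¹ ^ (f p).1.card :=
      sum_image_le_of_nonneg fun _ _ => by positivity
    have h5 : ∑ p ∈ K ×ˢ K', β⁻¹ ^ (f p).1.card =
        (∑ κ ∈ K, β⁻¹ ^ κ.1.card) * ∑ κ ∈ K', β⁻¹ ^ κ.1.card := by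
      rw [sum_mul_sum, sum_product]
      refine sum_congr rfl fun κ hκ => sum_congr rfl fun κ' hκ' => ?_
      have : Disjoint κ.1 κ'.1 := disjoint_coe.1 (hd.mono (h1 κ hκ) (h1' κ' hκ'))
      simp only [f]
      rw [card_union_of_disjoint this, pow_add]
    have h6 : 0 ≤ ∑ κ ∈ K, β⁻¹ ^ κ.1.card := sum_nonneg fun _ _ => by positivity
    have h7 : 0 ≤ ∑ κ ∈ K', β⁻¹ ^ κ.1.card := sum_nonneg fun _ _ => by positivity
    exact h4.trans (h5.trans_le (mul_le_mul h3 h3' h7 (h6.trans h3)))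

end Cover

section Forest

variable {σ V : Type} [Fintype σ] {Y : LG σ V}

/-- Reversal of darts. -/
theorem sum_rev (x y : V) (c : ℝ) :
    ∑ a : σ × Bool, (if Y.step x a y then c else 0) =
      ∑ a : σ × Bool, (if Y.step y a x then c else 0) := by
  refine Fintype.sum_bijective (fun a : σ × Bool => (a.1, !a.2))
    (Function.Involutive.bijective fun a => by simp) _ _ fun a => ?_
  simp only [LG.step_inv]

theorem sum_swap (P Q : Finset V) (F : V → V → ℝ) :
    ∑ x ∈ P, ∑ a : σ × Bool, ∑ y ∈ Q, (if Y.step x a y then F x y else 0) =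
      ∑ y ∈ Q, ∑ a : σ × Bool, ∑ x ∈ P, (if Y.step y a x then F x y else 0) := by
  simp only [sum_comm (s := (univ : Finset (σ × Bool)))]
  rw [sum_comm]
  exact sum_congr rfl fun y _ => sum_congr rfl fun x _ => sum_rev x y _

/-- If all letters from `x` into `P` lie in `s`, there are at most `card s` darts. -/
theorem sum_le_card (P : Finset V) (x : V) (s : Finset (σ × Bool))
    (hs : ∀ a, ∀ y ∈ P, Y.step x a y → a ∈ s) {c : ℝ} (hc : 0 ≤ c) :
    ∑ a : σ × Bool, ∑ y ∈ P, (if Y.step x a y then c else 0) ≤ s.card * c := by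
  have h1 : ∀ a : σ × Bool, ∑ y ∈ P, (if Y.step x a y then c else 0) ≤
      if a ∈ s then c else 0 := by
    intro a
    rw [← sum_filter, sum_const, nsmul_eq_mul]
    split_ifs with h
    · have : (P.filter fun y => Y.step x a y).card ≤ 1 := card_le_one.2 fun y hy y' hy' =>
        LG.step_func (mem_filter.1 hy).2 (mem_filter.1 hy').2
      exact mul_le_of_le_one_left hc (by exact_mod_cast this)
    · rw [filter_eq_empty_iff.2 fun y hy h' => h (hs a y hy h')]
      simp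
  refine (sum_le_sum fun a _ => h1 a).trans (le_of_eq ?_)
  rw [← sum_filter, sum_const, nsmul_eq_mul,
    show univ.filter (fun a => a ∈ s) = s from by ext a; simp]

theorem deg_sum (hD : Y.Deg 16) (P : Finset V) (φ : V → ℝ) :
    ∑ x ∈ P, ∑ a : σ × Bool, ∑ y ∈ P, (if Y.step x a y then φ x ^ 2 else 0) ≤
      16 * ∑ x ∈ P, φ x ^ 2 := by
  rw [mul_sum]
  refine sum_le_sum fun x _ => ?_
  obtain ⟨s, h1, h2⟩ := hD x
  refine (sum_le_card P x s (fun a y _ h => h2 a y h) (sq_nonneg _)).trans ?_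
  exact mul_le_mul_of_nonneg_right (by exact_mod_cast h1) (sq_nonneg _)

variable [DecidableEq σ]

omit [Fintype σ] in
/-- A finite forest has a leaf. -/
theorem exists_leaf (P : Finset V) (n : ℕ) (hn : P.card ≤ n) (hP : P.Nonempty)
    (hg : ∀ x ∈ P, ∀ g, Y.Rd x g x → g = 1 ∨ 2 * n + 1 < g.norm) :
    ∃ v ∈ P, (∀ a, ¬ Y.step v a v) ∧
      ∃ s : Finset (σ × Bool), s.card ≤ 1 ∧ ∀ a, ∀ y ∈ P, Y.step v a y → a ∈ s := by
  obtain ⟨x, hx⟩ := hP
  let Q : ℕ → Prop := fun k => ∃ g v, Y.Rd x g v ∧ g.norm = k ∧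
    ∀ m z, Pre m g → Y.Rd x m z → z ∈ P
  have h0 : Q 0 := ⟨1, x, LG.Rd.refl Y x, by simp, fun m z hm hz => by
    rw [eq_one_of_pre_one hm, LG.rd_one] at hz; exact hz ▸ hx⟩
  have hn' : ¬ Q n := by
    rintro ⟨g, v, h1, h2, h3⟩
    obtain ⟨g', h4, h5, -, -⟩ := LG.exists_short P h1 h3
    have := LG.eq_of_girth (n := 2 * n + 2) (hg x hx) h1 h4 (by omega)
    rw [this] at h2; omega
  have hex : ∃ k, ¬ Q k := ⟨n, hn'⟩
  obtain ⟨k, hk⟩ : ∃ k, Nat.find hex = k + 1 :=
    Nat.exists_eq_succ_of_ne_zero fun h => Nat.find_spec hex (h ▸ h0)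
  have h1 : ¬ Q (k + 1) := hk ▸ Nat.find_spec hex
  obtain ⟨g, v, h2, h3, h4⟩ : Q k := not_not.1 (Nat.find_min hex (by omega))
  have hv : v ∈ P := h4 g v (Pre.refl g) h2
  have key : ∀ a, ∀ y ∈ P, Y.step v a y → (g * lt a).norm + 1 = g.norm ∧ Pre (g * lt a) g := by
    intro a y hy hs
    refine (mul_lt_cases g a).resolve_left fun h5 => h1 ⟨g * lt a, y, h2.trans (LG.rd_lt.2 hs),
      by omega, fun m z hm hz => ?_⟩
    rcases hm.of_mul_lt h5 with h6 | h6
    · exact h4 m z h6 hz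
    · rw [h6] at hz
      exact hz.func (h2.trans (LG.rd_lt.2 hs)) ▸ hy
  refine ⟨v, hv, fun a ha => ?_, ?_⟩
  · rcases hg v hv _ (LG.rd_lt.2 ha) with h | h
    · have := norm_lt a
      rw [h] at this; simp at this
    · rw [norm_lt] at h; omega
  · by_cases h : ∃ a, ∃ y ∈ P, Y.step v a y
    · obtain ⟨a, y, hy, hs⟩ := h
      refine ⟨{a}, by simp, fun a' y' hy' hs' => mem_singleton.2 ?_⟩
      have h5 := key a y hy hs
      have h6 := key a' y' hy' hs'
      exact lt_injective (mul_left_cancel (h6.2.eq_of_norm h5.2 (by omega)))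
    · exact ⟨∅, by simp, fun a y hy hs => (h ⟨a, y, hy, hs⟩).elim⟩

theorem forest_aux (φ : V → ℝ) (n : ℕ) (k : ℕ) : ∀ P : Finset V, P.card = k → P.card ≤ n →
    (∀ x ∈ P, ∀ g, Y.Rd x g x → g = 1 ∨ 2 * n + 1 < g.norm) →
    ∑ x ∈ P, ∑ a : σ × Bool, ∑ y ∈ P,
      (if Y.step x a y then φ x * φ y - φ x ^ 2 / 4 else 0) ≤ 4 * ∑ x ∈ P, φ x ^ 2 := by
  induction k with
  | zero =>
    intro P h _ _
    rw [card_eq_zero.1 h]; simp
  | succ k ih =>
    intro P h hn hg
    obtain ⟨v, hv, h1, s, h2, h3⟩ := exists_leaf P n hn (card_pos.1 (by omega)) hg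
    have h4 := ih (P.erase v) (by rw [card_erase_of_mem hv]; omega)
      ((card_erase_le).trans hn) fun x hx => hg x (mem_of_mem_erase hx)
    have h5 := sum_le_card (P.erase v) v s (fun a y hy => h3 a y (mem_of_mem_erase hy))
      (c := 4 * φ v ^ 2) (by positivity)
    have h6 : (s.card : ℝ) * (4 * φ v ^ 2) ≤ 4 * φ v ^ 2 :=
      mul_le_of_le_one_left (by positivity) (by exact_mod_cast h2)
    have h7 := sum_swap (Y := Y) (P.erase v) {v} fun x y => φ x * φ y - φ x ^ 2 / 4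
    simp only [sum_singleton] at h7
    have h8 : ∑ a : σ × Bool, ∑ y ∈ P.erase v,
          (if Y.step v a y then φ v * φ y - φ v ^ 2 / 4 else 0) +
        ∑ a : σ × Bool, ∑ y ∈ P.erase v,
          (if Y.step v a y then φ y * φ v - φ y ^ 2 / 4 else 0) ≤
        ∑ a : σ × Bool, ∑ y ∈ P.erase v, (if Y.step v a y then 4 * φ v ^ 2 else 0) := by
      rw [← sum_add_distrib]
      refine sum_le_sum fun a _ => ?_
      rw [← sum_add_distrib]
      refine sum_le_sum fun y _ => ?_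
      split_ifs
      · nlinarith [sq_nonneg (4 * φ v - φ y), sq_nonneg (φ v)]
      · simp
    rw [← add_sum_erase P _ hv, ← add_sum_erase P _ hv]
    simp only [← add_sum_erase P _ hv, h1, if_false, zero_add, sum_add_distrib]
    linarith

end Forest

end Ros

theorem ros : RosStmt := by
  intro E C _ _ β h1 h2 K hne hK Ev θ hθ hc
  have hβ : 0 < β := by linarith
  have hC : 0 < Fintype.card C := by
    have : (0 : ℝ) < Fintype.card C := by linarith
    exact_mod_cast this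
  obtain ⟨c0⟩ := Fintype.card_pos_iff.1 hC
  have hg := Ros.grow (c0 := c0) hβ hK (Fintype.card E)
  have hit := Ros.iter hβ (fun T => ((Ros.Gd c0 K T T).card : ℝ)) _ hg univ le_rfl
  have hpos : (0 : ℝ) < (Ros.Gd c0 K univ univ).card := by
    have h3 := hit univ Subset.rfl
    have h4 : (0 : ℝ) < (Ros.Gd c0 K (univ \ univ) (univ \ univ)).card := by
      refine Nat.cast_pos.2 (card_pos.2 ⟨fun _ => c0, Ros.mem_Gd.2 ⟨fun _ _ => rfl, ?_⟩⟩)
      intro κ hκ hs
      obtain ⟨e, he⟩ := hne κ hκ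
      simpa using hs he
    exact (mul_pos_iff_of_pos_left (by positivity)).1 (h4.trans_le h3)
  obtain ⟨K', -, h3, h4⟩ := hc
  by_contra hcon
  push Not at hcon
  have h5 : Ros.Gd c0 K univ univ ⊆
      K'.biUnion fun κ => (Ros.Gd c0 K univ univ).filter fun ω => InCyl ω κ := by
    intro ω hω
    obtain ⟨κ, h6, h7⟩ := h3 ω (hcon ω fun κ hκ => (Ros.mem_Gd.1 hω).2 κ hκ (subset_univ _))
    exact mem_biUnion.2 ⟨κ, h6, mem_filter.2 ⟨hω, h7⟩⟩
  have h6 : ((Ros.Gd c0 K univ univ).card : ℝ) ≤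
      ∑ κ ∈ K', (((Ros.Gd c0 K univ univ).filter fun ω => InCyl ω κ).card : ℝ) := by
    exact_mod_cast (card_le_card h5).trans card_biUnion_le
  have h7 : ∀ κ ∈ K', (((Ros.Gd c0 K univ univ).filter fun ω => InCyl ω κ).card : ℝ) ≤
      β⁻¹ ^ κ.1.card * (Ros.Gd c0 K univ univ).card := fun κ _ =>
    (Nat.cast_le.2 (Ros.card_cyl univ univ κ (subset_univ _))).trans (hit κ.1 (subset_univ _))
  have h8 := sum_le_sum h7
  rw [← sum_mul] at h8
  nlinarith

theorem covU : CovUStmt := by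
  intro E C ι β hβ s Ev Rg θ h
  induction s using Finset.induction_on with
  | empty => exact ⟨∅, by simp, by simp, by simp⟩
  | insert i s hi ih =>
    rw [sum_insert hi, set_biUnion_insert]
    exact Ros.cov_union hβ (h i (mem_insert_self _ _)) (ih fun j hj => h j (mem_insert_of_mem hj))

theorem covI : CovIStmt := by
  intro E C ι _ β hβ s Ev Rg θ h hd
  induction s using Finset.induction_on with
  | empty =>
    exact ⟨{(∅, fun _ => Classical.arbitrary C)}, by simp, fun ω _ => ⟨_, mem_singleton_self _,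
      fun e he => by simp at he⟩, by simp⟩
  | insert i s hi ih =>
    rw [prod_insert hi, set_biUnion_insert, set_biInter_insert]
    refine Ros.cov_inter hβ (h i (mem_insert_self _ _))
      (ih (fun j hj => h j (mem_insert_of_mem hj)) fun j hj l hl =>
        hd j (mem_insert_of_mem hj) l (mem_insert_of_mem hl)) ?_
    simp only [Set.disjoint_iUnion_right]
    exact fun j hj => hd i (mem_insert_self _ _) j (mem_insert_of_mem hj) fun e => hi (e ▸ hj)

theorem forest : ForestStmt := by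
  intro σ V _ _ Y hD P φ _
  have h1 := Ros.deg_sum hD P φ
  refine ⟨?_, fun hg => ?_⟩
  · have h2 := Ros.sum_swap (Y := Y) P P fun _ y => φ y ^ 2
    have h3 : 2 * ∑ x ∈ P, ∑ a : σ × Bool, ∑ y ∈ P, (if Y.step x a y then φ x * φ y else 0) ≤
        ∑ x ∈ P, ∑ a : σ × Bool, ∑ y ∈ P, (if Y.step x a y then φ x ^ 2 else 0) +
        ∑ x ∈ P, ∑ a : σ × Bool, ∑ y ∈ P, (if Y.step x a y then φ y ^ 2 else 0) := by
      simp only [mul_sum, ← sum_add_distrib]
      refine sum_le_sum fun x _ => sum_le_sum fun a _ => sum_le_sum fun y _ => ?_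
      split_ifs
      · nlinarith [sq_nonneg (φ x - φ y)]
      · simp
    linarith
  · have h2 := Ros.forest_aux (Y := Y) φ P.card P.card P rfl le_rfl hg
    have h3 : ∑ x ∈ P, ∑ a : σ × Bool, ∑ y ∈ P, (if Y.step x a y then φ x * φ y else 0) =
        ∑ x ∈ P, ∑ a : σ × Bool, ∑ y ∈ P,
          (if Y.step x a y then φ x * φ y - φ x ^ 2 / 4 else 0) +
        (1 / 4) * ∑ x ∈ P, ∑ a : σ × Bool, ∑ y ∈ P, (if Y.step x a y then φ x ^ 2 else 0) := by
      simp only [mul_sum, ← sum_add_distrib]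
      refine sum_congr rfl fun x _ => sum_congr rfl fun a _ => sum_congr rfl fun y _ => ?_
      split_ifs <;> ring
    linarith

end Pool.Agent.MP_88ca14_an

end
end MrgPart2

-- ======== part 3: formerly Pool.Agent.MP_88ca14_an.Two
section MrgPart3

/-!
PROJECT LRX: the two-cell cover of a word on one level, freshness of the next layer.
-/

set_option autoImplicit false

noncomputable section

namespace Pool.Agent.MP_88ca14_an

variable {σ : Type} [Fintype σ] [DecidableEq σ] {T : Tiles σ}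

namespace TwoM

variable {V : Type} {Y : LG σ V} {Vs : Set V} {lev : V → ℕ} {j : ℕ}

/-- A short segment of top vertices in one cell is covered by second cells at its ends. -/
theorem elim (h : Lay T Y Vs lev j) {z z' : V} {x y x' y' : T.X} {s : FreeGroup σ}
    (hs : Y.Rd z s z') (hl : ∀ m u, Pre m s → Y.Rd z m u → lev u = j + 1)
    (hx : Top T Y lev z x) (hxy : T.Γ.Rd x s y) (hx' : Top T Y lev z x') (hne : x' ≠ x)
    (hy' : Top T Y lev z' y') (hne' : y' ≠ y) (hn : s.norm ≤ 90 * T.ell x) :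
    ∃ c, Pre c s ∧ T.Γ.Reads x' c ∧ T.Γ.Reads y' (s⁻¹ * c) := by
  have hz : lev z = j + 1 := hl 1 z (Pre.one s) (LG.Rd.refl Y z)
  have hz' : lev z' = j + 1 := hl s z' (Pre.refl s) hs
  have hy : Top T Y lev z' y := hx.move hxy hs (by omega)
  obtain ⟨p, w, ⟨a, p1⟩, p2, p3, p4, p5, -⟩ := h.common' hz hx hx' hne.symm
  obtain ⟨p', w', ⟨b, q1⟩, q2, q3, q4, q5, -⟩ := h.common' hz' hy hy' hne'.symm
  obtain ⟨q, r1, r2, r3, r4⟩ := h.gate2 hz p1 (hxy.trans q1) p3 (hs.trans q3) p4 q4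
  have he : T.ell y = T.ell x := T.ell_rd hxy
  have heq : p * q = s * p' := by
    refine T.eq_of_short (p1.trans r1) (hxy.trans q1) ?_
    have := FreeGroup.norm_mul_le p q
    have := FreeGroup.norm_mul_le s p'
    omega
  obtain ⟨c, c1, c2, c3⟩ := median_one s p
  refine ⟨c, c1, p2.pre c2, ?_⟩
  rcases c3.thin (s * p') with c4 | c4
  · have := btw_iff_pre.1 c4
    rw [inv_mul_cancel_left] at this
    exact q2.pre this
  · exfalso
    have c5 := btw_iff_pre.1 c4.symm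
    rw [← heq, inv_mul_cancel_left] at c5
    obtain ⟨u, u1, -⟩ := hs.split c1
    have := r4 _ u c5 (p3.div u1)
    have := hl c u c1 u1
    omega

omit [Fintype σ] in
theorem reads_trans {X : Type} {Γ : LG σ X} {x y : X} {g g' : FreeGroup σ} (h : Γ.Rd x g y)
    (h' : Γ.Reads y g') : Γ.Reads x (g * g') := by
  obtain ⟨z, hz⟩ := h'
  exact ⟨z, h.trans hz⟩

theorem short_pre {u : V} {g g' : FreeGroup σ} (h : Short T Y lev u g) (hp : Pre g' g) :
    Short T Y lev u g' :=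
  fun m m' z z' x y h1 h2 => h m m' z z' x y h1 (h2.trans hp)

theorem two' (h : Lay T Y Vs lev j) {u : V} {x₁ : T.X} (h1 : Top T Y lev u x₁)
    (g : FreeGroup σ) : ∀ w x₃, Y.Rd u g w → (∀ m z, Pre m g → Y.Rd u m z → lev z = j + 1) →
      Top T Y lev w x₃ → Short T Y lev u g →
      ∃ m, Pre m g ∧ T.Γ.Reads x₁ m ∧ T.Γ.Reads x₃ (g⁻¹ * m) := by
  induction g using pre_induction with
  | h1 =>
    intro w x₃ _ _ _ _
    exact ⟨1, Pre.refl 1, LG.Reads.one _ _, by simpa using LG.Reads.one T.Γ x₃⟩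
  | hs g a hn ih =>
    intro w x₃ hw hl h3 hS
    have hp := pre_mul_lt_self hn
    obtain ⟨w', w1, w2⟩ := hw.split hp
    rw [inv_mul_cancel_left] at w2
    have lw : lev w = j + 1 := hl _ w (Pre.refl _) hw
    have lw' : lev w' = j + 1 := hl _ w' hp w1
    have lu : lev u = j + 1 := hl 1 u (Pre.one _) (LG.Rd.refl Y u)
    have w3 := w2.inv
    rw [lt_inv] at w3
    obtain ⟨x, hx, y, hxy⟩ := h.edge w _ w' (LG.rd_lt.1 w3) lw lw'.le
    have hy : Top T Y lev w' y := hx.move hxy w3 (by omega)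
    obtain ⟨m, m1, ⟨x', m2⟩, m3⟩ := ih w' y w1 (fun m z hm => hl m z (hm.trans hp)) hy
      (short_pre hS hp)
    rw [← lt_inv] at hxy
    have m4 : T.Γ.Reads x ((g * lt a)⁻¹ * m) := by
      have := reads_trans hxy m3
      rwa [← mul_assoc, ← mul_inv_rev] at this
    have mp : Pre m (g * lt a) := m1.trans hp
    by_cases e3 : x₃ = x
    · exact ⟨m, mp, ⟨x', m2⟩, e3 ▸ m4⟩
    obtain ⟨x0, m5⟩ := m4
    have m6 : T.Γ.Rd x0 (m⁻¹ * (g * lt a)) x := by simpa using m5.inv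
    obtain ⟨z, z1, z2⟩ := hw.split mp
    have lz : lev z = j + 1 := hl m z mp z1
    by_cases e1 : x' = x0
    · subst e1
      refine ⟨g * lt a, Pre.refl _, ⟨x, by simpa using m2.trans m6⟩, ?_⟩
      simpa using LG.Reads.one T.Γ x₃
    have t0 : Top T Y lev z x0 := hx.move m5 (by simpa using z2.inv) (by omega)
    have t1 : Top T Y lev z x' := h1.move m2 z1 (by omega)
    obtain ⟨c, c1, c2, c3⟩ := elim h z2
      (fun n v hn' hv => hl (m * n) v (mp.mul hn').1 (z1.trans hv)) t0 m6 t1 e1 h3 e3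
      (hS m _ z w x0 x mp (Pre.refl _) z1 hw t0 m6 ⟨x', e1, t1⟩ ⟨x₃, e3, h3⟩)
    refine ⟨m * c, (mp.mul c1).1, reads_trans m2 c2, ?_⟩
    rwa [mul_inv_rev, inv_inv, mul_assoc] at c3

end TwoM

theorem two : TwoStmt := by
  intro σ _ _ T V Y Vs lev j h u g w x₁ x₃ h1 h2 h3 h4 h5
  exact TwoM.two' h h3 g w x₃ h1 h2 h4 h5

theorem stepB : StepBStmt := by
  intro σ _ _ T V Y Vs lev j h hle v hv lv x hx g w ⟨y, hxy⟩ hw
  have hl : ∀ m z, Pre m g → Y.Rd v m z → lev z = j + 1 := by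
    intro m z hm hz
    have h1 := hle z (hz.mem h.mem hv)
    by_contra hc
    exact hx ⟨m, z, LG.Reads.pre ⟨y, hxy⟩ hm, hz, by omega⟩
  have hnt : ∀ m z x', Pre m g → Y.Rd v m z → T.Γ.Rd x m x' → ¬ Top T Y lev z x' := by
    intro m z x' hm hz hx' ht
    exact hx (ht.move hx'.inv hz.inv (by rw [hl m z hm hz, lv]))
  have hS : Short T Y lev v g := by
    intro m m' z z' a b h1 h2 h3 _ h5 h6 _ _
    obtain ⟨x', h7, h8⟩ := hxy.split (h1.trans h2)
    have hne : a ≠ x' := by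
      rintro rfl
      exact hnt m z a (h1.trans h2) h3 h7 h5
    have := (T.piece' hne ⟨b, h6⟩ (LG.Reads.pre ⟨y, h8⟩ (h1.cancel h2))).1
    omega
  have lw := hl g w (Pre.refl g) hw
  have hy := hnt g w y (Pre.refl g) hw hxy
  have key : ∀ x₁ x₃, Top T Y lev v x₁ → Top T Y lev w x₃ → ∃ m, Pre m g ∧ T.Γ.Reads x₁ m ∧
      T.Γ.Reads x₃ (g⁻¹ * m) ∧ m.norm < T.ell x₁ ∧ m.norm < T.ell x ∧
      (g⁻¹ * m).norm < T.ell x₃ ∧ (g⁻¹ * m).norm < T.ell x := by
    intro x₁ x₃ t1 t3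
    obtain ⟨m, m1, m2, m3⟩ := TwoM.two' h t1 g w x₃ hw hl t3 hS
    have n1 : x₁ ≠ x := by rintro rfl; exact hx t1
    have n3 : x₃ ≠ y := by rintro rfl; exact hy t3
    have p1 := T.piece' n1 m2 (LG.Reads.pre ⟨y, hxy⟩ m1)
    have p3 := T.piece' n3 m3 (LG.Reads.pre ⟨x, hxy.inv⟩ m1.inv)
    rw [T.ell_rd hxy] at p3
    exact ⟨m, m1, m2, m3, p1.1, p1.2, p3.1, p3.2⟩
  obtain ⟨x₁, t1⟩ := h.top v hv lv
  constructor
  · obtain ⟨x₃, t3⟩ := h.top w (hw.mem h.mem hv) lw
    obtain ⟨m, m1, -, -, -, m4, -, m5⟩ := key x₁ x₃ t1 t3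
    unfold Pre at m1
    rw [norm_inv_mul_comm g m] at m5
    omega
  · rintro rfl
    obtain ⟨m, m1, ⟨a, m2⟩, ⟨b, m3⟩, m4, -, m5, -⟩ := key x₁ x₁ t1 t1
    obtain ⟨z, z1, -⟩ := hw.split m1
    have e : a = b := (h.top_inj lv t1 m2 m3 z1 (hw.div z1)).2 rfl
    subst e
    have := T.eq_of_short m2 m3 (by omega)
    have h2 : g⁻¹ = 1 := by simpa using this.symm
    exact inv_eq_one.1 h2

end Pool.Agent.MP_88ca14_an

end
end MrgPart3

-- ======== part 4: formerly Pool.Agent.MP_88ca14_an.Spat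
section MrgPart4

/-!
PROJECT LRX: the spatial norm (supremum over representations) agrees with Turumaru's formula.
-/

set_option autoImplicit false
set_option maxSynthPendingDepth 3

noncomputable section

namespace Pool.Agent.MP_88ca14_an

open Filter Topology
open scoped InnerProductSpace ComplexConjugate ENNReal TensorProduct ComplexOrder

namespace Spat

theorem jordan {D : Type} [NonUnitalCStarAlgebra D] (M : D) (hsa : star M = M) :
    ∃ c d w : D, M = star d * d - w ∧ star w * w = star c * (c * w) ∧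
      star w * (M * w) = -(star (c * w) * (c * w)) := by
  let _ := CStarAlgebra.spectralOrder D
  have := CStarAlgebra.spectralOrderedRing D
  have hsa' : IsSelfAdjoint M := hsa
  obtain ⟨c, hc⟩ := CStarAlgebra.nonneg_iff_eq_star_mul_self.1 (CFC.negPart_nonneg M)
  obtain ⟨d, hd⟩ := CStarAlgebra.nonneg_iff_eq_star_mul_self.1 (CFC.posPart_nonneg M)
  have hw : star M⁻ = M⁻ := (CFC.negPart_nonneg M).star_eq
  refine ⟨c, d, M⁻, by rw [← hd, CFC.posPart_sub_negPart M hsa'],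
    by rw [hw, ← mul_assoc, ← hc], ?_⟩
  have h1 : M * M⁻ = -(M⁻ * M⁻) := by
    nth_rewrite 1 [← CFC.posPart_sub_negPart M hsa']
    rw [sub_mul, CFC.posPart_mul_negPart, zero_sub]
  rw [h1, star_mul, mul_neg, mul_assoc, ← mul_assoc (star c), ← hc]

section Pos

variable {H : Type} [NormedAddCommGroup H] [InnerProductSpace ℂ H] [CompleteSpace H]
  {B : Type} [CStarAlgebra B]

theorem inner_star_mul (π : B →⋆ₐ[ℂ] (H →L[ℂ] H)) (b : B) (v w : H) :
    ⟪π b v, w⟫_ℂ = ⟪v, π (star b) w⟫_ℂ := by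
  rw [map_star, ContinuousLinearMap.star_eq_adjoint, ContinuousLinearMap.adjoint_inner_right]

/-- A self-adjoint matrix that is positive on the vectors `(π (b i) h)` is positive. -/
theorem mat_pos (π : B →⋆ₐ[ℂ] (H →L[ℂ] H)) {k : ℕ} (m : Fin k → Fin k → B)
    (hm : ∀ i j, star (m j i) = m i j)
    (h : ∀ (b : Fin k → B) (v : H), 0 ≤ (∑ i, ∑ j, ⟪π (b i) v, π (m i j) (π (b j) v)⟫_ℂ).re)
    (v : Fin k → H) : 0 ≤ (∑ i, ∑ j, ⟪v i, π (m i j) (v j)⟫_ℂ).re := by
  let _ := CStarAlgebra.spectralOrder B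
  have := CStarAlgebra.spectralOrderedRing B
  set M : CStarMatrix (Fin k) (Fin k) B := CStarMatrix.ofMatrix (Matrix.of m) with hM
  have hsa : star M = M := by
    refine CStarMatrix.ext fun i j => ?_
    rw [CStarMatrix.star_apply]
    exact hm i j
  let P := Mat.hom π k
  have adj : ∀ (a : CStarMatrix (Fin k) (Fin k) B) (x y : Mat.PP H k),
      ⟪P a x, y⟫_ℂ = ⟪x, P (star a) y⟫_ℂ := fun a x y => by
    rw [map_star, ContinuousLinearMap.star_eq_adjoint, ContinuousLinearMap.adjoint_inner_right]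
  have sq : ∀ (a : CStarMatrix (Fin k) (Fin k) B) (x : Mat.PP H k),
      (⟪x, P (star a * a) x⟫_ℂ).re = ‖P a x‖ ^ 2 := fun a x => by
    rw [map_mul, mul_apply_eq_comp, ← adj, inner_self_eq_norm_sq_to_K]
    norm_cast
  obtain ⟨c, d, w, hd, hc, e1⟩ : ∃ c d w : CStarMatrix (Fin k) (Fin k) B,
      M = star d * d - w ∧ star w * w = star c * (c * w) ∧
      star w * (M * w) = -(star (c * w) * (c * w)) := jordan M hsa
  have z1 : ∀ (l : Fin k) (x : H), P (c * w) (PiLp.single 2 l x) = 0 := by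
    intro l x
    have h1 := h (fun i => w i l) x
    have h2 : ∀ i, P w (PiLp.single 2 l x) i = π (w i l) x := fun i => by
      change Mat.op π w (PiLp.single 2 l x) i = _
      rw [Mat.op_apply, Finset.sum_eq_single l]
      · simp
      all_goals simp +contextual
    have h3 := Mat.inner_op π M (P w (PiLp.single 2 l x)) (P w (PiLp.single 2 l x))
    simp only [h2] at h3
    have h4 : (∑ i, ∑ j, ⟪π (w i l) x, π (m i j) (π (w j l) x)⟫_ℂ) =
        ⟪P w (PiLp.single 2 l x), P M (P w (PiLp.single 2 l x))⟫_ℂ := h3.symm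
    rw [h4, adj, ← mul_apply_eq_comp, ← mul_apply_eq_comp, mul_assoc,
      ← map_mul, ← map_mul, e1, map_neg, neg_apply, inner_neg_right,
      Complex.neg_re, sq] at h1
    have : ‖P (c * w) (PiLp.single 2 l x)‖ = 0 := by
      have := sq_nonneg ‖P (c * w) (PiLp.single 2 l x)‖
      exact pow_eq_zero_iff (two_ne_zero) |>.1 (by linarith)
    exact norm_eq_zero.1 this
  have z2 : P (c * w) = 0 := by
    ext x : 1
    have hx : x = ∑ l, PiLp.single 2 l (x l) := by
      ext i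
      simp [Pi.single_apply]
    rw [hx, map_sum, map_sum]
    exact Finset.sum_congr rfl fun l _ => z1 l _
  have z3 : P w = 0 := by
    ext x : 1
    have h1 := sq w x
    rw [hc, map_mul, z2, mul_zero] at h1
    simp only [zero_apply, inner_zero_right, Complex.zero_re] at h1
    exact norm_eq_zero.1 (pow_eq_zero_iff two_ne_zero |>.1 h1.symm)
  have h5 := Mat.inner_op π M (WithLp.toLp 2 v) (WithLp.toLp 2 v)
  have h6 : (∑ i, ∑ j, ⟪v i, π (m i j) (v j)⟫_ℂ) =
      ⟪(WithLp.toLp 2 v : Mat.PP H k), P M (WithLp.toLp 2 v)⟫_ℂ := h5.symm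
  rw [h6, hd, map_sub, z3, sub_zero, sq]
  positivity

end Pos

section Tens

variable {H K : Type} [NormedAddCommGroup H] [InnerProductSpace ℂ H] [CompleteSpace H]
  [NormedAddCommGroup K] [InnerProductSpace ℂ K] [CompleteSpace K]
  {A B : Type} [CStarAlgebra A] [CStarAlgebra B]
  (π : B →⋆ₐ[ℂ] (H →L[ℂ] H)) (σ : A →⋆ₐ[ℂ] (K →L[ℂ] K))

/-- The tensor product of two representations. -/
def rep : B ⊗[ℂ] A →ₗ[ℂ] (H ⊗[ℂ] K →L[ℂ] H ⊗[ℂ] K) :=
  TensorProduct.lift (LinearMap.mk₂ ℂ (fun b a => TensorProduct.mapL (π b) (σ a))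
    (fun _ _ _ => by rw [map_add, TensorProduct.mapL_add_left])
    (fun _ _ _ => by rw [map_smul, TensorProduct.mapL_smul_left])
    (fun _ _ _ => by rw [map_add, TensorProduct.mapL_add_right])
    (fun _ _ _ => by rw [map_smul, TensorProduct.mapL_smul_right]))

theorem rep_tmul (b : B) (a : A) : rep π σ (b ⊗ₜ[ℂ] a) = TensorProduct.mapL (π b) (σ a) := rfl

theorem rep_tt (b : B) (a : A) (h : H) (k : K) :
    rep π σ (b ⊗ₜ[ℂ] a) (h ⊗ₜ[ℂ] k) = π b h ⊗ₜ[ℂ] σ a k := rfl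

theorem rep_mul (x y : B ⊗[ℂ] A) : rep π σ (x * y) = rep π σ x * rep π σ y := by
  induction x with
  | zero => simp
  | add x x' h h' => rw [add_mul, map_add, map_add, h, h', add_mul]
  | tmul b a =>
    induction y with
    | zero => simp
    | add y y' h h' => rw [mul_add, map_add, map_add, h, h', mul_add]
    | tmul b' a' =>
      rw [Algebra.TensorProduct.tmul_mul_tmul, rep_tmul, rep_tmul, rep_tmul, map_mul, map_mul,
        TensorProduct.mapL_mul]

theorem rep_one : rep π σ 1 = 1 := by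
  rw [Algebra.TensorProduct.one_def, rep_tmul, map_one, map_one]
  exact TensorProduct.mapL_id_id

theorem rep_adj (x : B ⊗[ℂ] A) (ξ η : H ⊗[ℂ] K) :
    ⟪rep π σ x ξ, η⟫_ℂ = ⟪ξ, rep π σ (star x) η⟫_ℂ := by
  induction x with
  | zero => simp
  | add x x' h h' =>
    rw [star_add, map_add, map_add, add_apply, add_apply, inner_add_left, inner_add_right, h, h']
  | tmul b a =>
    rw [TensorProduct.star_tmul]
    induction ξ with
    | zero => simp
    | add ξ ξ' h h' => rw [map_add, inner_add_left, inner_add_left, h, h']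
    | tmul h k =>
      induction η with
      | zero => simp
      | add η η' h h' => rw [map_add, inner_add_right, inner_add_right, h, h']
      | tmul h' k' =>
        rw [rep_tt, rep_tt, TensorProduct.inner_tmul, TensorProduct.inner_tmul, inner_star_mul,
          inner_star_mul]

theorem norm_rep_sq (x : B ⊗[ℂ] A) (ξ : H ⊗[ℂ] K) :
    (⟪ξ, rep π σ (star x * x) ξ⟫_ℂ).re = ‖rep π σ x ξ‖ ^ 2 := by
  rw [rep_mul, mul_apply_eq_comp, ← rep_adj, inner_self_eq_norm_sq_to_K]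
  norm_cast

/-- A matrix coefficient of a representation. -/
def co (h h' : H) : B →ₗ[ℂ] ℂ where
  toFun b := ⟪h, π b h'⟫_ℂ
  map_add' a b := by rw [map_add, add_apply, inner_add_right]
  map_smul' c a := by rw [map_smul, smul_apply, inner_smul_right]; rfl

theorem co_apply (h h' : H) (b : B) : co π h h' b = ⟪h, π b h'⟫_ℂ := rfl

theorem co_star (h h' : H) (b : B) : star (co π h' h b) = co π h h' (star b) := by
  rw [co_apply, co_apply, ← inner_star_mul]
  exact inner_conj_symm _ _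

theorem prodFun_co (h : H) (k : K) (x : B ⊗[ℂ] A) :
    prodFun (co π h h) (co σ k k) x = ⟪h ⊗ₜ[ℂ] k, rep π σ x (h ⊗ₜ[ℂ] k)⟫_ℂ := by
  induction x with
  | zero => simp
  | add x x' h h' => rw [map_add, map_add, add_apply, inner_add_right, h, h']
  | tmul b a => rw [Ub.prodFun_tmul, rep_tt, TensorProduct.inner_tmul, co_apply, co_apply]

theorem isState_co (h : H) (hh : ‖h‖ = 1) : IsState (co π h h) := by
  refine ⟨?_, fun b => ?_⟩
  · rw [co_apply, map_one]
    change ⟪h, h⟫_ℂ = 1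
    rw [inner_self_eq_norm_sq_to_K, hh]; simp
  · rw [co_apply, map_mul, mul_apply_eq_comp, ← inner_star_mul, inner_self_eq_norm_sq_to_K]
    norm_cast
    exact ⟨sq_nonneg ‖π b h‖, rfl⟩

/-- Slice on the right factor. -/
def slR (ψ : A →ₗ[ℂ] ℂ) : B ⊗[ℂ] A →ₗ[ℂ] B :=
  (TensorProduct.rid ℂ B).toLinearMap ∘ₗ LinearMap.lTensor B ψ

/-- Slice on the left factor. -/
def slL (φ : B →ₗ[ℂ] ℂ) : B ⊗[ℂ] A →ₗ[ℂ] A :=
  (TensorProduct.lid ℂ A).toLinearMap ∘ₗ LinearMap.rTensor A φ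

theorem slR_tmul (ψ : A →ₗ[ℂ] ℂ) (b : B) (a : A) : slR ψ (b ⊗ₜ[ℂ] a) = ψ a • b := by simp [slR]

theorem slL_tmul (φ : B →ₗ[ℂ] ℂ) (b : B) (a : A) : slL φ (b ⊗ₜ[ℂ] a) = φ b • a := by simp [slL]

theorem slR_star (k k' : K) (x : B ⊗[ℂ] A) :
    star (slR (co σ k' k) x) = slR (co σ k k') (star x) := by
  induction x with
  | zero => simp
  | add x x' h h' => rw [map_add, star_add, star_add, map_add, h, h']
  | tmul b a => rw [TensorProduct.star_tmul, slR_tmul, slR_tmul, star_smul, co_star]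

theorem slL_star (h h' : H) (x : B ⊗[ℂ] A) :
    star (slL (co π h' h) x) = slL (co π h h') (star x) := by
  induction x with
  | zero => simp
  | add x x' h h' => rw [map_add, star_add, star_add, map_add, h, h']
  | tmul b a => rw [TensorProduct.star_tmul, slL_tmul, slL_tmul, star_smul, co_star]

theorem inner_slR (h h' : H) (k k' : K) (x : B ⊗[ℂ] A) :
    ⟪h, π (slR (co σ k k') x) h'⟫_ℂ = ⟪h ⊗ₜ[ℂ] k, rep π σ x (h' ⊗ₜ[ℂ] k')⟫_ℂ := by
  induction x with
  | zero => simp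
  | add x x' e e' =>
    rw [map_add, map_add, map_add, add_apply, add_apply, inner_add_right, inner_add_right, e, e']
  | tmul b a =>
    rw [slR_tmul, rep_tt, TensorProduct.inner_tmul, map_smul, smul_apply, inner_smul_right,
      co_apply, mul_comm]

theorem inner_slL (h h' : H) (k k' : K) (x : B ⊗[ℂ] A) :
    ⟪k, σ (slL (co π h h') x) k'⟫_ℂ = ⟪h ⊗ₜ[ℂ] k, rep π σ x (h' ⊗ₜ[ℂ] k')⟫_ℂ := by
  induction x with
  | zero => simp
  | add x x' e e' =>
    rw [map_add, map_add, map_add, add_apply, add_apply, inner_add_right, inner_add_right, e, e']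
  | tmul b a =>
    rw [slL_tmul, rep_tt, TensorProduct.inner_tmul, map_smul, smul_apply, inner_smul_right,
      co_apply]

theorem inner_sum_sum {n : ℕ} (z : B ⊗[ℂ] A) (h : Fin n → H) (k : Fin n → K) :
    ⟪∑ i, h i ⊗ₜ[ℂ] k i, rep π σ z (∑ i, h i ⊗ₜ[ℂ] k i)⟫_ℂ =
      ∑ i, ∑ j, ⟪h i ⊗ₜ[ℂ] k i, rep π σ z (h j ⊗ₜ[ℂ] k j)⟫_ℂ := by
  rw [sum_inner]
  refine Finset.sum_congr rfl fun i _ => ?_
  rw [map_sum, inner_sum]

/-- Positivity on the cyclic subspaces of product vectors gives positivity. -/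
theorem rep_pos (z : B ⊗[ℂ] A) (hz : star z = z)
    (h : ∀ (y : B ⊗[ℂ] A) (v : H) (w : K),
      0 ≤ (⟪rep π σ y (v ⊗ₜ[ℂ] w), rep π σ z (rep π σ y (v ⊗ₜ[ℂ] w))⟫_ℂ).re)
    (ξ : H ⊗[ℂ] K) : 0 ≤ (⟪ξ, rep π σ z ξ⟫_ℂ).re := by
  obtain ⟨n, v, w, rfl⟩ := TensorProduct.exists_sum_tmul_eq ξ
  rw [inner_sum_sum]
  have := mat_pos σ (fun i j => slL (co π (v i) (v j)) z) (fun i j => by rw [slL_star, hz])
    (fun a k => ?_) w
  · simpa only [inner_slL] using this
  · have := mat_pos π (fun i j => slR (co σ (σ (a i) k) (σ (a j) k)) z)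
      (fun i j => by rw [slR_star, hz]) (fun b u => ?_) v
    · simpa only [inner_slL, inner_slR] using this
    · have h1 := h (∑ i, b i ⊗ₜ[ℂ] a i) u k
      have h2 : rep π σ (∑ i, b i ⊗ₜ[ℂ] a i) (u ⊗ₜ[ℂ] k) = ∑ i, π (b i) u ⊗ₜ[ℂ] σ (a i) k := by
        rw [map_sum, sum_apply]; rfl
      rw [h2, inner_sum_sum] at h1
      simpa only [inner_slR] using h1

theorem le_of_minNorm {x : B ⊗[ℂ] A} {c : ℝ} (hc : 0 ≤ c) (hx : minNorm x ≤ ENNReal.ofReal c)
    {φ : B →ₗ[ℂ] ℂ} (hφ : IsState φ) {ψ : A →ₗ[ℂ] ℂ} (hψ : IsState ψ) (y : B ⊗[ℂ] A)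
    (hy : (prodFun φ ψ (star y * y)).re ≤ 1) :
    √(prodFun φ ψ (star (x * y) * (x * y))).re ≤ c := by
  rw [← ENNReal.ofReal_le_ofReal_iff hc]
  refine le_trans ?_ hx
  unfold minNorm
  exact le_iSup_of_le φ (le_iSup_of_le hφ (le_iSup_of_le ψ (le_iSup_of_le hψ
    (le_iSup_of_le y (le_iSup_of_le hy le_rfl)))))

theorem unit_le {x : B ⊗[ℂ] A} {c : ℝ} (hc : 0 ≤ c) (hx : minNorm x ≤ ENNReal.ofReal c)
    (y : B ⊗[ℂ] A) (v : H) (w : K) (hv : ‖v‖ = 1) (hw : ‖w‖ = 1) :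
    ‖rep π σ x (rep π σ y (v ⊗ₜ[ℂ] w))‖ ≤ c * ‖rep π σ y (v ⊗ₜ[ℂ] w)‖ := by
  have key : ∀ y : B ⊗[ℂ] A, ‖rep π σ y (v ⊗ₜ[ℂ] w)‖ ≤ 1 →
      ‖rep π σ x (rep π σ y (v ⊗ₜ[ℂ] w))‖ ≤ c := fun y hy => by
    have := le_of_minNorm hc hx (isState_co π v hv) (isState_co σ w hw) y (by
      rw [prodFun_co, norm_rep_sq]
      exact pow_le_one₀ (norm_nonneg _) hy)
    rwa [prodFun_co, norm_rep_sq, Real.sqrt_sq (norm_nonneg _), rep_mul, mul_apply_eq_comp] at this
  rcases (norm_nonneg (rep π σ y (v ⊗ₜ[ℂ] w))).eq_or_lt with h0 | h0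
  · rw [norm_eq_zero.1 h0.symm]; simp
  · set t := ‖rep π σ y (v ⊗ₜ[ℂ] w)‖ with ht
    have h1 := key (((t⁻¹ : ℝ) : ℂ) • y) (by
      rw [map_smul, smul_apply, norm_smul, ← ht, Complex.norm_real, Real.norm_of_nonneg
        (inv_nonneg.2 h0.le), inv_mul_cancel₀ h0.ne'])
    rw [map_smul, smul_apply, map_smul, norm_smul, Complex.norm_real,
      Real.norm_of_nonneg (inv_nonneg.2 h0.le), inv_mul_le_iff₀ h0, mul_comm] at h1
    exact h1

theorem norm_rep_le {x : B ⊗[ℂ] A} {c : ℝ} (hc : 0 ≤ c) (hx : minNorm x ≤ ENNReal.ofReal c) :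
    ‖rep π σ x‖ ≤ c := by
  have form : ∀ ξ : H ⊗[ℂ] K, (⟪ξ, rep π σ (((c ^ 2 : ℝ) : ℂ) • 1 - star x * x) ξ⟫_ℂ).re =
      (c * ‖ξ‖) ^ 2 - ‖rep π σ x ξ‖ ^ 2 := fun ξ => by
    rw [map_sub, sub_apply, inner_sub_right, Complex.sub_re, norm_rep_sq, map_smul, rep_one,
      smul_apply, inner_smul_right]
    change (_ * ⟪ξ, ξ⟫_ℂ).re - _ = _
    rw [Complex.re_ofReal_mul, mul_pow, ← inner_self_eq_norm_sq (𝕜 := ℂ) ξ]
    rfl
  have all : ∀ (y : B ⊗[ℂ] A) (v : H) (w : K),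
      ‖rep π σ x (rep π σ y (v ⊗ₜ[ℂ] w))‖ ≤ c * ‖rep π σ y (v ⊗ₜ[ℂ] w)‖ := fun y v w => by
    by_cases hv : v = 0
    · simp [hv]
    by_cases hw : w = 0
    · simp [hw]
    have hv' : (‖v‖ : ℂ) ≠ 0 := by simpa using hv
    have hw' : (‖w‖ : ℂ) ≠ 0 := by simpa using hw
    have h1 := unit_le π σ hc hx (((‖v‖ : ℂ) * ‖w‖) • y) ((‖v‖ : ℂ)⁻¹ • v) ((‖w‖ : ℂ)⁻¹ • w)
      (by rw [norm_smul, norm_inv, Complex.norm_real, norm_norm, inv_mul_cancel₀ (by simpa using hv)])
      (by rw [norm_smul, norm_inv, Complex.norm_real, norm_norm, inv_mul_cancel₀ (by simpa using hw)])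
    have h2 : rep π σ (((‖v‖ : ℂ) * ‖w‖) • y) (((‖v‖ : ℂ)⁻¹ • v) ⊗ₜ[ℂ] ((‖w‖ : ℂ)⁻¹ • w)) =
        rep π σ y (v ⊗ₜ[ℂ] w) := by
      rw [map_smul, smul_apply, TensorProduct.smul_tmul_smul, map_smul, smul_smul]
      have : (‖v‖ : ℂ) * ‖w‖ * ((‖v‖ : ℂ)⁻¹ * (‖w‖ : ℂ)⁻¹) = 1 := by field_simp
      rw [this, one_smul]
    rwa [h2] at h1
  refine ContinuousLinearMap.opNorm_le_bound _ hc fun ξ => ?_
  have := rep_pos π σ (((c ^ 2 : ℝ) : ℂ) • 1 - star x * x) (by
    rw [star_sub, star_smul, star_one, star_mul, star_star, Complex.star_def, Complex.conj_ofReal])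
    (fun y v w => by
      rw [form, sub_nonneg]
      exact pow_le_pow_left₀ (norm_nonneg _) (all y v w) 2) ξ
  rw [form, sub_nonneg] at this
  exact le_of_sq_le_sq this (by positivity)

end Tens

/-- The GNS construction. -/
theorem gns {B : Type} [CStarAlgebra B] {φ : B →ₗ[ℂ] ℂ} (hφ : IsState φ) :
    ∃ (H : Type) (_ : NormedAddCommGroup H) (_ : InnerProductSpace ℂ H) (_ : CompleteSpace H)
      (π : B →⋆ₐ[ℂ] (H →L[ℂ] H)) (h : H), co π h h = φ := by
  let _ := CStarAlgebra.spectralOrder B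
  have := CStarAlgebra.spectralOrderedRing B
  let f : B →ₚ[ℂ] ℂ := PositiveLinearMap.mk₀ φ fun b hb => by
    obtain ⟨c, rfl⟩ := CStarAlgebra.nonneg_iff_eq_star_mul_self.1 hb
    exact Complex.nonneg_iff.2 ⟨(hφ.2 c).1, (hφ.2 c).2.symm⟩
  refine ⟨f.GNS, inferInstance, inferInstance, inferInstance, f.gnsStarAlgHom,
    (f.toPreGNS 1 : f.PreGNS), ?_⟩
  ext b
  rw [co_apply]
  change ⟪_, f.gnsNonUnitalStarAlgHom b (f.toPreGNS 1 : f.PreGNS)⟫_ℂ = _
  rw [PositiveLinearMap.gnsNonUnitalStarAlgHom_apply_coe, UniformSpace.Completion.inner_coe,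
    PositiveLinearMap.preGNS_inner_def]
  simp
  rfl

end Spat

section Bridge

variable {A B : Type} [CStarAlgebra A] [CStarAlgebra B]

theorem minLE_of {x : B ⊗[ℂ] A} {c : ℝ} (hc : 0 ≤ c) (hx : minNorm x ≤ ENNReal.ofReal c) :
    Sp.MinLE x c := by
  intro H K _ _ _ _ _ _
  refine ⟨fun π σ T hT => ?_⟩
  have : T = Spat.rep π σ := TensorProduct.ext' fun b a => hT b a
  rw [this]
  exact Spat.norm_rep_le π σ hc hx

theorem of_minLE {x : B ⊗[ℂ] A} {c : ℝ} (hx : Sp.MinLE x c) : minNorm x ≤ ENNReal.ofReal c := by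
  unfold minNorm
  refine iSup_le fun φ => iSup_le fun hφ => iSup_le fun ψ => iSup_le fun hψ => iSup_le fun y =>
    iSup_le fun hy => ENNReal.ofReal_le_ofReal ?_
  obtain ⟨H, i1, i2, i3, π, h, rfl⟩ := Spat.gns hφ
  obtain ⟨K, j1, j2, j3, σ, k, rfl⟩ := Spat.gns hψ
  have h1 := (hx H K).le π σ (Spat.rep π σ) fun _ _ => rfl
  rw [Spat.prodFun_co, Spat.norm_rep_sq] at hy
  rw [Spat.prodFun_co, Spat.norm_rep_sq, Real.sqrt_sq (norm_nonneg _), Spat.rep_mul,
    mul_apply_eq_comp]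
  have h2 : ‖Spat.rep π σ y (h ⊗ₜ[ℂ] k)‖ ≤ 1 := by
    rwa [sq_le_one_iff₀ (norm_nonneg _)] at hy
  calc _ ≤ ‖Spat.rep π σ x‖ * ‖Spat.rep π σ y (h ⊗ₜ[ℂ] k)‖ := ContinuousLinearMap.le_opNorm _ _
    _ ≤ c * 1 := mul_le_mul h1 h2 (norm_nonneg _) ((norm_nonneg _).trans h1)
    _ = c := mul_one c

theorem sp_exact (h : Sp.IsExact A) : IsExact A := by
  intro B C _ _ q hq x h1 h2 ε hε
  obtain ⟨δ, hδ, hδε⟩ : ∃ δ : ℝ, 0 < δ ∧ ENNReal.ofReal δ < ε := by
    obtain ⟨r, h0, hr⟩ := ENNReal.lt_iff_exists_real_btwn.1 hε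
    exact ⟨r, ENNReal.ofReal_pos.1 hr.1, hr.2⟩
  obtain ⟨y, hy, N, hN⟩ := (h B C).mid q hq x (fun η hη => by
    obtain ⟨N, hN⟩ := h1 (ENNReal.ofReal η) (ENNReal.ofReal_pos.2 hη)
    exact ⟨N, fun m hm n hn => minLE_of hη.le (hN m hm n hn).le⟩) (fun η hη => by
    obtain ⟨N, hN⟩ := eventually_atTop.1
      (h2.eventually (eventually_le_nhds (ENNReal.ofReal_pos.2 hη)))
    exact ⟨N, fun n hn => minLE_of hη.le (hN n hn)⟩) δ hδ
  exact ⟨y, hy, N, fun n hn => (of_minLE (hN n hn)).trans_lt hδε⟩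

theorem sp_lr [PartialOrder A] [StarOrderedRing A] (h : LocallyReflexive A) :
    Sp.LocallyReflexive A := by
  refine ⟨fun E hE => ?_⟩
  obtain ⟨ι, i1, i2, i3, u, h1, h2⟩ := h E hE
  exact ⟨ι, i1, i2, i3, u, fun i => ⟨fun k x => h1 i k x⟩, h2⟩

end Bridge

end Pool.Agent.MP_88ca14_an

end
end MrgPart4

-- ======== part 5: formerly Pool.Agent.MP_88ca14_an.Final
section MrgPart5

/-!
Assembly: a locally reflexive C⋆-algebra that is not exact.
-/

set_option autoImplicit false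

namespace Pool.Agent.MP_88ca14_an

theorem grp : GrpStmt :=
  grp_of (xi (xstep ros covU covI x7a)) (geo stepB) desc (gc two) con (am1 ft nest) (mon xa)

theorem omAll : OmStmt :=
  om sat split approx (am petz chan)
    (om2 sat split approx (am petz chan) hv nbh
      (w3 (w3a l2) comb (fam compr diagz cross nrq hs tail comb)))

theorem main : ∃ (A : Type) (_ : CStarAlgebra A) (_ : PartialOrder A) (_ : StarOrderedRing A),
    LocallyReflexive A ∧ ¬ IsExact A :=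
  main_of grp (red mat) hb1 hb2 omAll (nex quot (nex1 ub forest) forest)

theorem sp_main : ∃ (A : Type) (_ : CStarAlgebra A) (_ : PartialOrder A) (_ : StarOrderedRing A),
    Sp.LocallyReflexive A ∧ ¬ Sp.IsExact A := by
  obtain ⟨A, i1, i2, i3, h1, h2⟩ := main
  exact ⟨A, i1, i2, i3, sp_lr h1, fun h => h2 (sp_exact h)⟩

end Pool.Agent.MP_88ca14_an

end MrgPart5

-- marker of a merged file
example : 731051 + 345136 = 731051 + 345136 := rfl
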