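import Pool.Agent.MP_88ca14_an.SpecA
import Pool.Agent.MP_88ca14_an.Graph

/-!
PROJECT LRX: sesquilinear forms of matrices, limits along the ultrafilter.
-/

set_option autoImplicit false
set_option maxSynthPendingDepth 3

noncomputable section

namespace Pool.Agent.MP_88ca14_an

open Filter Topology
open scoped Classical ComplexConjugate Matrix

section Forms

variable {m n : Type} [Fintype m] [Fintype n]

theorem nsq_nonneg (v : m → ℂ) : 0 ≤ nsq v := Finset.sum_nonneg fun _ _ => by positivity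

@[simp] theorem nsq_zero : nsq (0 : m → ℂ) = 0 := by simp [nsq]

theorem nsq_eq_zero {v : m → ℂ} : nsq v = 0 ↔ v = 0 := by
  refine ⟨fun h => funext fun i => ?_, fun h => h ▸ nsq_zero⟩
  have := (Finset.sum_eq_zero_iff_of_nonneg fun _ _ => by positivity).1 h i (Finset.mem_univ _)
  simpa using this

theorem nsq_smul (c : ℂ) (v : m → ℂ) : nsq (c • v) = ‖c‖ ^ 2 * nsq v := by
  simp [nsq, Finset.mul_sum, mul_pow]

theorem nsq_eq_norm (v : m → ℂ) : nsq v = ‖(WithLp.toLp 2 v : EuclideanSpace ℂ m)‖ ^ 2 := by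
  rw [EuclideanSpace.norm_sq_eq]; rfl

theorem sqrt_nsq (v : m → ℂ) : √(nsq v) = ‖(WithLp.toLp 2 v : EuclideanSpace ℂ m)‖ := by
  rw [nsq_eq_norm, Real.sqrt_sq (norm_nonneg _)]

theorem nsq_eq_re (v : m → ℂ) : (nsq v : ℂ) = ∑ i, conj (v i) * v i := by
  simp [nsq, Complex.conj_mul']

theorem nsq_single (i : m) (c : ℂ) : nsq (Pi.single i c : m → ℂ) = ‖c‖ ^ 2 := by
  unfold nsq
  rw [Finset.sum_eq_single i] <;> simp +contextual

theorem nsq_prod (v : m × n → ℂ) : nsq v = ∑ i, nsq fun j => v (i, j) := by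
  simp [nsq, Fintype.sum_prod_type]

theorem sqrt_nsq_add_le (v w : m → ℂ) : √(nsq (v + w)) ≤ √(nsq v) + √(nsq w) := by
  rw [sqrt_nsq, sqrt_nsq, sqrt_nsq, WithLp.toLp_add]; exact norm_add_le _ _

/-- Cauchy-Schwarz for nonnegative reals. -/
theorem sum_sqrt_mul_le {ι : Type} (s : Finset ι) {f g : ι → ℝ} (hf : ∀ i, 0 ≤ f i)
    (hg : ∀ i, 0 ≤ g i) : ∑ i ∈ s, √(f i) * √(g i) ≤ √(∑ i ∈ s, f i) * √(∑ i ∈ s, g i) :=
  Real.sum_sqrt_mul_sqrt_le s hf hg

theorem norm_dot_le (v w : m → ℂ) : ‖∑ i, conj (v i) * w i‖ ≤ √(nsq v) * √(nsq w) := by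
  refine (norm_sum_le _ _).trans ?_
  have := sum_sqrt_mul_le Finset.univ (f := fun i => ‖v i‖ ^ 2) (g := fun i => ‖w i‖ ^ 2)
    (fun _ => by positivity) fun _ => by positivity
  simpa [nsq] using this

theorem fm_eq_dot (M : m → n → ℂ) (v : m → ℂ) (w : n → ℂ) :
    fm M v w = ∑ i, conj (v i) * (Matrix.of M *ᵥ w) i := by
  simp [fm, Matrix.mulVec, dotProduct, Finset.mul_sum, mul_assoc]

theorem conj_fm (M : m → n → ℂ) (v : m → ℂ) (w : n → ℂ) :
    conj (fm M v w) = fm (fun j i => conj (M i j)) w v := by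
  simp only [fm, map_sum, map_mul, Complex.conj_conj]
  rw [Finset.sum_comm]
  exact Finset.sum_congr rfl fun _ _ => Finset.sum_congr rfl fun _ _ => by ring

theorem fm_add_left (M : m → n → ℂ) (v v' : m → ℂ) (w : n → ℂ) :
    fm M (v + v') w = fm M v w + fm M v' w := by
  simp [fm, add_mul, Finset.sum_add_distrib]

theorem fm_add_right (M : m → n → ℂ) (v : m → ℂ) (w w' : n → ℂ) :
    fm M v (w + w') = fm M v w + fm M v w' := by
  simp [fm, mul_add, Finset.sum_add_distrib]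

theorem fm_smul_left (M : m → n → ℂ) (c : ℂ) (v : m → ℂ) (w : n → ℂ) :
    fm M (c • v) w = conj c * fm M v w := by
  simp [fm, Finset.mul_sum, mul_assoc]

theorem fm_smul_right (M : m → n → ℂ) (c : ℂ) (v : m → ℂ) (w : n → ℂ) :
    fm M v (c • w) = c * fm M v w := by
  simp only [fm, Finset.mul_sum, Pi.smul_apply, smul_eq_mul]
  exact Finset.sum_congr rfl fun _ _ => Finset.sum_congr rfl fun _ _ => by ring

@[simp] theorem fm_zero_left (M : m → n → ℂ) (w : n → ℂ) : fm M 0 w = 0 := by simp [fm]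

@[simp] theorem fm_zero_right (M : m → n → ℂ) (v : m → ℂ) : fm M v 0 = 0 := by simp [fm]

theorem fm_sum_left {ι : Type} (s : Finset ι) (M : m → n → ℂ) (v : ι → m → ℂ) (w : n → ℂ) :
    fm M (∑ a ∈ s, v a) w = ∑ a ∈ s, fm M (v a) w := by
  induction s using Finset.induction_on with
  | empty => simp
  | insert a s ha ih => rw [Finset.sum_insert ha, Finset.sum_insert ha, fm_add_left, ih]

theorem fm_sum_right {ι : Type} (s : Finset ι) (M : m → n → ℂ) (v : m → ℂ) (w : ι → n → ℂ) :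
    fm M v (∑ a ∈ s, w a) = ∑ a ∈ s, fm M v (w a) := by
  induction s using Finset.induction_on with
  | empty => simp
  | insert a s ha ih => rw [Finset.sum_insert ha, Finset.sum_insert ha, fm_add_right, ih]

theorem fm_add_mat (M N : m → n → ℂ) (v : m → ℂ) (w : n → ℂ) :
    fm (fun i j => M i j + N i j) v w = fm M v w + fm N v w := by
  simp [fm, mul_add, add_mul, Finset.sum_add_distrib]

theorem fm_sub_mat (M N : m → n → ℂ) (v : m → ℂ) (w : n → ℂ) :
    fm (fun i j => M i j - N i j) v w = fm M v w - fm N v w := by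
  simp [fm, mul_sub, sub_mul, Finset.sum_sub_distrib]

theorem fm_smul_mat (c : ℂ) (M : m → n → ℂ) (v : m → ℂ) (w : n → ℂ) :
    fm (fun i j => c * M i j) v w = c * fm M v w := by
  simp only [fm, Finset.mul_sum]
  exact Finset.sum_congr rfl fun _ _ => Finset.sum_congr rfl fun _ _ => by ring

theorem fm_sum_mat {ι : Type} (s : Finset ι) (M : ι → m → n → ℂ) (v : m → ℂ) (w : n → ℂ) :
    fm (fun i j => ∑ a ∈ s, M a i j) v w = ∑ a ∈ s, fm (M a) v w := by
  simp only [fm, Finset.mul_sum, Finset.sum_mul]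
  rw [Finset.sum_comm (s := s)]
  exact Finset.sum_congr rfl fun _ _ => Finset.sum_comm

theorem fm_single (M : m → n → ℂ) (i : m) (j : n) :
    fm M (Pi.single i 1) (Pi.single j 1) = M i j := by
  simp [fm, Pi.single_apply, apply_ite conj]

theorem fm_one (v w : m → ℂ) :
    fm (fun i j => if i = j then (1 : ℂ) else 0) v w = ∑ i, conj (v i) * w i := by
  simp [fm]

theorem tendsto_fm {ι : Type} {l : Filter ι} {M : ι → m → n → ℂ} {N : m → n → ℂ}
    (h : ∀ i j, Tendsto (fun a => M a i j) l (𝓝 (N i j))) (v : m → ℂ) (w : n → ℂ) :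
    Tendsto (fun a => fm (M a) v w) l (𝓝 (fm N v w)) :=
  tendsto_finsetSum _ fun i _ => tendsto_finsetSum _ fun j _ =>
    ((h i j).const_mul _).mul_const _

theorem bd_iff_mulVec {M : m → n → ℂ} {c : ℝ} (hc : 0 ≤ c) :
    Bd M c ↔ ∀ w, nsq (Matrix.of M *ᵥ w) ≤ c ^ 2 * nsq w := by
  constructor
  · intro h w
    have h1 := h (Matrix.of M *ᵥ w) w
    rw [fm_eq_dot, ← nsq_eq_re, Complex.norm_real, Real.norm_of_nonneg (nsq_nonneg _)] at h1
    set a := nsq (Matrix.of M *ᵥ w)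
    have ha : 0 ≤ a := nsq_nonneg _
    have h2 : √a * √a ≤ √a * (c * √(nsq w)) := by rw [Real.mul_self_sqrt ha]; linarith
    rcases (Real.sqrt_nonneg a).eq_or_lt with h0 | h0
    · have : a = 0 := by rw [← Real.mul_self_sqrt ha, ← h0, mul_zero]
      rw [this]; exact mul_nonneg (by positivity) (nsq_nonneg _)
    · have h3 := le_of_mul_le_mul_left h2 h0
      calc a = √a ^ 2 := (Real.sq_sqrt ha).symm
        _ ≤ (c * √(nsq w)) ^ 2 := by gcongr
        _ = c ^ 2 * nsq w := by rw [mul_pow, Real.sq_sqrt (nsq_nonneg _)]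
  · intro h v w
    rw [fm_eq_dot]
    refine (norm_dot_le _ _).trans ?_
    have : √(nsq (Matrix.of M *ᵥ w)) ≤ c * √(nsq w) := by
      rw [← Real.sqrt_sq hc, ← Real.sqrt_mul (sq_nonneg c)]; exact Real.sqrt_le_sqrt (h w)
    calc _ ≤ √(nsq v) * (c * √(nsq w)) := by gcongr
      _ = _ := by ring

theorem Bd.mono {M : m → n → ℂ} {c c' : ℝ} (h : Bd M c) (hc : c ≤ c') : Bd M c' :=
  fun v w => (h v w).trans (by gcongr)

theorem Bd.add {M N : m → n → ℂ} {c c' : ℝ} (h : Bd M c) (h' : Bd N c') :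
    Bd (fun i j => M i j + N i j) (c + c') := fun v w => by
  rw [fm_add_mat]
  refine (norm_add_le _ _).trans ?_
  have := h v w; have := h' v w; linarith

theorem Bd.smul {M : m → n → ℂ} {c : ℝ} (h : Bd M c) (a : ℂ) :
    Bd (fun i j => a * M i j) (‖a‖ * c) := fun v w => by
  rw [fm_smul_mat, norm_mul, mul_assoc, mul_assoc]
  exact mul_le_mul_of_nonneg_left (by rw [← mul_assoc]; exact h v w) (norm_nonneg _)

theorem Bd.conjT {M : m → n → ℂ} {c : ℝ} (h : Bd M c) : Bd (fun j i => conj (M i j)) c :=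
  fun w v => by
    rw [← conj_fm, Complex.norm_conj, mul_right_comm]; exact h v w

theorem Bd.entry {M : m → n → ℂ} {c : ℝ} (h : Bd M c) (i : m) (j : n) : ‖M i j‖ ≤ c := by
  have := h (Pi.single i 1) (Pi.single j 1)
  simpa [fm_single, nsq_single] using this

theorem bd_one : Bd (fun i j : m => if i = j then (1 : ℂ) else 0) 1 := fun v w => by
  rw [fm_one, one_mul]; exact norm_dot_le v w

theorem Bd.of_tendsto {ι : Type} {l : Filter ι} [l.NeBot] {M : ι → m → n → ℂ} {N : m → n → ℂ}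
    {c : ℝ} (h : ∀ i j, Tendsto (fun a => M a i j) l (𝓝 (N i j))) (hb : ∀ᶠ a in l, Bd (M a) c) :
    Bd N c := fun v w =>
  le_of_tendsto (tendsto_fm h v w).norm (hb.mono fun _ ha => ha v w)

/-- The Schur test. -/
theorem bd_schur {M : m → n → ℂ} {c : ℝ} (hc : 0 ≤ c) (h1 : ∀ i, ∑ j, ‖M i j‖ ≤ c)
    (h2 : ∀ j, ∑ i, ‖M i j‖ ≤ c) : Bd M c := fun v w => by
  have e1 : ‖fm M v w‖ ≤ ∑ p : m × n, √(‖M p.1 p.2‖ * ‖v p.1‖ ^ 2) *
      √(‖M p.1 p.2‖ * ‖w p.2‖ ^ 2) := by
    rw [Fintype.sum_prod_type]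
    refine (norm_sum_le _ _).trans (Finset.sum_le_sum fun i _ =>
      (norm_sum_le _ _).trans (Finset.sum_le_sum fun j _ => le_of_eq ?_))
    rw [Real.sqrt_mul (norm_nonneg _), Real.sqrt_mul (norm_nonneg _), Real.sqrt_sq (norm_nonneg _),
      Real.sqrt_sq (norm_nonneg _), norm_mul, norm_mul, Complex.norm_conj, mul_mul_mul_comm,
      Real.mul_self_sqrt (norm_nonneg _)]
    ring
  refine e1.trans ((sum_sqrt_mul_le _ (fun _ => by positivity) fun _ => by positivity).trans ?_)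
  have e2 : ∑ p : m × n, ‖M p.1 p.2‖ * ‖v p.1‖ ^ 2 ≤ c * nsq v := by
    rw [Fintype.sum_prod_type, nsq, Finset.mul_sum]
    exact Finset.sum_le_sum fun i _ => by
      simp only [← Finset.sum_mul]; exact mul_le_mul_of_nonneg_right (h1 i) (by positivity)
  have e3 : ∑ p : m × n, ‖M p.1 p.2‖ * ‖w p.2‖ ^ 2 ≤ c * nsq w := by
    rw [Fintype.sum_prod_type_right, nsq, Finset.mul_sum]
    exact Finset.sum_le_sum fun j _ => by
      simp only [← Finset.sum_mul]; exact mul_le_mul_of_nonneg_right (h2 j) (by positivity)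
  calc _ ≤ √(c * nsq v) * √(c * nsq w) := by gcongr
    _ = _ := by
      rw [Real.sqrt_mul hc, Real.sqrt_mul hc, mul_mul_mul_comm, Real.mul_self_sqrt hc, mul_assoc]

theorem bd_of_entries {M : m → m → ℂ} {δ : ℝ} (hδ : 0 ≤ δ) (h : ∀ i j, ‖M i j‖ ≤ δ) :
    Bd M (Fintype.card m * δ) :=
  bd_schur (by positivity)
    (fun i => (Finset.sum_le_sum fun j _ => h i j).trans (by simp))
    fun j => (Finset.sum_le_sum fun i _ => h i j).trans (by simp)

/-- Kronecker products. -/
theorem Bd.kron {k l : Type} [Fintype k] [Fintype l] {b : m → n → ℂ} {a : k → l → ℂ} {c c' : ℝ}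
    (hc : 0 ≤ c) (hc' : 0 ≤ c') (h : Bd b c) (h' : Bd a c') :
    Bd (fun (p : m × k) (q : n × l) => b p.1 q.1 * a p.2 q.2) (c * c') := by
  rw [bd_iff_mulVec (mul_nonneg hc hc')]
  rw [bd_iff_mulVec hc] at h
  rw [bd_iff_mulVec hc'] at h'
  intro w
  let z : n → k → ℂ := fun q => Matrix.of a *ᵥ fun y => w (q, y)
  have e : ∀ x p, (Matrix.of (fun (p : m × k) (q : n × l) => b p.1 q.1 * a p.2 q.2) *ᵥ w) (p, x) =
      (Matrix.of b *ᵥ fun q => z q x) p := fun x p => by
    simp [z, Matrix.mulVec, dotProduct, Fintype.sum_prod_type, Finset.mul_sum, mul_assoc]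
  calc nsq _ = ∑ x, nsq (Matrix.of b *ᵥ fun q => z q x) := by
        rw [nsq, Fintype.sum_prod_type_right]
        exact Finset.sum_congr rfl fun x _ => Finset.sum_congr rfl fun p _ => by rw [e]
    _ ≤ ∑ x, c ^ 2 * nsq fun q => z q x := Finset.sum_le_sum fun x _ => h _
    _ = c ^ 2 * ∑ q, nsq (z q) := by
        rw [← Finset.mul_sum]; congr 1; exact Finset.sum_comm
    _ ≤ c ^ 2 * ∑ q, c' ^ 2 * nsq fun y => w (q, y) := by
        gcongr with q; exact h' _
    _ = _ := by rw [← Finset.mul_sum, ← nsq_prod]; ring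

/-- The norm is at most twice the numerical radius. -/
theorem bd_of_numrad {M : m → m → ℂ} {c : ℝ} (h : ∀ v, ‖fm M v v‖ ≤ c * nsq v) :
    Bd M (2 * c) := by
  have par : ∀ (v w : m → ℂ) (a : ℂ), ‖a‖ = 1 →
      nsq (v + a • w) + nsq (v + (-a) • w) = 2 * (nsq v + nsq w) := fun v w a ha => by
    simp only [nsq_eq_norm, WithLp.toLp_add, WithLp.toLp_smul, neg_smul, WithLp.toLp_sub,
      ← sub_eq_add_neg]
    have := parallelogram_law_with_norm ℂ (WithLp.toLp 2 v : EuclideanSpace ℂ m)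
      (a • WithLp.toLp 2 w)
    rw [norm_smul, ha, one_mul] at this
    simp only [sq] at this ⊢; linarith
  have key : ∀ v w : m → ℂ, ‖fm M v w‖ ≤ c * (nsq v + nsq w) := fun v w => by
    have e : 4 * fm M v w = (fm M (v + (1 : ℂ) • w) (v + (1 : ℂ) • w) -
        fm M (v + (-1 : ℂ) • w) (v + (-1 : ℂ) • w)) - Complex.I *
        (fm M (v + Complex.I • w) (v + Complex.I • w) -
          fm M (v + (-Complex.I) • w) (v + (-Complex.I) • w)) := by
      simp only [fm_add_left, fm_add_right, fm_smul_left, fm_smul_right, map_neg, map_one,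
        Complex.conj_I]
      ring_nf
      simp only [Complex.I_sq]; ring
    have e2 := congrArg norm e
    rw [norm_mul, Complex.norm_ofNat] at e2
    have b1 := h (v + (1 : ℂ) • w)
    have b2 := h (v + (-1 : ℂ) • w)
    have b3 := h (v + Complex.I • w)
    have b4 := h (v + (-Complex.I) • w)
    have p1 := par v w 1 (by simp)
    have p2 := par v w Complex.I (by simp)
    have t := norm_sub_le (fm M (v + (1 : ℂ) • w) (v + (1 : ℂ) • w) -
        fm M (v + (-1 : ℂ) • w) (v + (-1 : ℂ) • w)) (Complex.I *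
        (fm M (v + Complex.I • w) (v + Complex.I • w) -
          fm M (v + (-Complex.I) • w) (v + (-Complex.I) • w)))
    rw [norm_mul, Complex.norm_I, one_mul] at t
    have t1 := norm_sub_le (fm M (v + (1 : ℂ) • w) (v + (1 : ℂ) • w))
      (fm M (v + (-1 : ℂ) • w) (v + (-1 : ℂ) • w))
    have t2 := norm_sub_le (fm M (v + Complex.I • w) (v + Complex.I • w))
      (fm M (v + (-Complex.I) • w) (v + (-Complex.I) • w))
    have q1 : c * nsq (v + (1 : ℂ) • w) + c * nsq (v + (-1 : ℂ) • w) =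
        c * (2 * (nsq v + nsq w)) := by rw [← mul_add, p1]
    have q2 : c * nsq (v + Complex.I • w) + c * nsq (v + (-Complex.I) • w) =
        c * (2 * (nsq v + nsq w)) := by rw [← mul_add, p2]
    linarith
  intro v w
  rcases (nsq_nonneg v).eq_or_lt with hv | hv
  · rw [nsq_eq_zero.1 hv.symm]; simp
  rcases (nsq_nonneg w).eq_or_lt with hw | hw
  · rw [nsq_eq_zero.1 hw.symm]; simp
  have a1 : 0 < √(nsq v) := Real.sqrt_pos.2 hv
  have a2 : 0 < √(nsq w) := Real.sqrt_pos.2 hw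
  have := key (((√(nsq v))⁻¹ : ℝ) • v : m → ℂ) (((√(nsq w))⁻¹ : ℝ) • w : m → ℂ)
  rw [← Complex.coe_smul, ← Complex.coe_smul, fm_smul_left, fm_smul_right, nsq_smul, nsq_smul,
    norm_mul, norm_mul, Complex.norm_conj, Complex.norm_real, Complex.norm_real,
    Real.norm_of_nonneg (by positivity), Real.norm_of_nonneg (by positivity), inv_pow, inv_pow,
    Real.sq_sqrt hv.le, Real.sq_sqrt hw.le, inv_mul_cancel₀ hv.ne', inv_mul_cancel₀ hw.ne',
    inv_mul_le_iff₀ a1, inv_mul_le_iff₀ a2] at this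
  linarith

open scoped Matrix.Norms.L2Operator in
theorem bd_iff_norm {M : Matrix m n ℂ} {c : ℝ} (hc : 0 ≤ c) : Bd M c ↔ ‖M‖ ≤ c := by
  rw [bd_iff_mulVec hc, Matrix.l2_opNorm_def, ContinuousLinearMap.opNorm_le_iff hc]
  constructor
  · intro h x
    have := h x.ofLp
    rw [nsq_eq_norm, nsq_eq_norm, ← mul_pow] at this
    exact le_of_sq_le_sq this (by positivity)
  · intro h w
    have := h (WithLp.toLp 2 w)
    rw [nsq_eq_norm, nsq_eq_norm, ← mul_pow]
    exact pow_le_pow_left₀ (norm_nonneg _) this 2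

end Forms

/-! ### Limits -/

instance : UU.NeBot := inferInstance

theorem UU_le_atTop : UU ≤ atTop := Nat.hyperfilter_le_atTop

theorem exists_lim_proper {E : Type} [NormedAddCommGroup E] [ProperSpace E] (f : ℕ → E) (B : ℝ)
    (h : ∀ᶠ i in UU, ‖f i‖ ≤ B) : ∃ z, ‖z‖ ≤ B ∧ Tendsto f UU (𝓝 z) := by
  obtain ⟨z, hz, hz'⟩ := (isCompact_closedBall (0 : E) B).ultrafilter_le_nhds
    ((Filter.hyperfilter ℕ).map f) (by
      rw [Ultrafilter.coe_map, Filter.le_principal_iff, Filter.mem_map]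
      exact h.mono fun i hi => by simpa using hi)
  exact ⟨z, by simpa using hz, hz'⟩

/-- A sequence with finitely many values is constant on a large set. -/
theorem exists_const {α : Type} [Finite α] (f : ℕ → α) : ∃ a, ∀ᶠ i in UU, f i = a := by
  obtain ⟨a, ha⟩ := Ultrafilter.eq_pure_of_finite ((Filter.hyperfilter ℕ).map f)
  refine ⟨a, ?_⟩
  have : {a} ∈ (Filter.hyperfilter ℕ).map f := by rw [ha]; simp
  exact this

/-- Weak-star limits of bounded sequences of functionals. -/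
theorem exists_lim_dual {A : Type} [NormedAddCommGroup A] [NormedSpace ℂ A]
    (Φ : ℕ → StrongDual ℂ A) (B : ℝ) (h : ∀ᶠ i in UU, ‖Φ i‖ ≤ B) :
    ∃ F : StrongDual ℂ A, ‖F‖ ≤ B ∧ ∀ a, Tendsto (fun i => Φ i a) UU (𝓝 (F a)) := by
  have hB : 0 ≤ B := by
    obtain ⟨i, hi⟩ := h.exists
    exact (norm_nonneg _).trans hi
  have hex : ∀ a, ∃ z, ‖z‖ ≤ B * ‖a‖ ∧ Tendsto (fun i => Φ i a) UU (𝓝 z) := fun a =>
    exists_lim_proper _ _ (h.mono fun i hi => (Φ i).le_of_opNorm_le hi a)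
  choose f hf1 hf2 using hex
  let L : A →ₗ[ℂ] ℂ :=
    { toFun := f
      map_add' := fun a b => tendsto_nhds_unique (hf2 (a + b))
        (by simpa using (hf2 a).add (hf2 b))
      map_smul' := fun c a => tendsto_nhds_unique (hf2 (c • a))
        (by simpa using (hf2 a).const_mul c) }
  exact ⟨L.mkContinuous B hf1, L.mkContinuous_norm_le hB hf1, hf2⟩

end Pool.Agent.MP_88ca14_an
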