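import Pool.Agent.MP_88ca14_an.Forms

/-!
PROJECT LRX: basic facts on `Reg`, finitely supported vectors and the functionals `Q2`.
-/

set_option autoImplicit false
set_option maxSynthPendingDepth 3
set_option linter.unusedSectionVars false

noncomputable section

namespace Pool.Agent.MP_88ca14_an

open Filter Topology
open scoped Classical ComplexConjugate Matrix

section Alg

variable {A : Type} [CStarAlgebra A] [PartialOrder A] [StarOrderedRing A]

theorem mn_nonneg {k : ℕ} (a : Matrix (Fin k) (Fin k) A) : 0 ≤ mn a := norm_nonneg _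

theorem mn_one_one (a : A) : mn (Matrix.of fun _ _ : Fin 1 => a) = ‖a‖ := by
  let φ : A →⋆ₙₐ[ℂ] CStarMatrix (Fin 1) (Fin 1) A :=
    { toFun := fun a => CStarMatrix.ofMatrix (Matrix.of fun _ _ => a)
      map_smul' := fun _ _ => rfl
      map_zero' := rfl
      map_add' := fun _ _ => rfl
      map_mul' := fun _ _ => by ext; simp [CStarMatrix.mul_apply]
      map_star' := fun _ => rfl }
  have hφ : Function.Injective φ := fun a b h => congrFun (congrFun h 0) 0
  have := NonUnitalStarAlgHom.norm_map φ hφ a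
  exact this

theorem fm_equiv {m n m' n' : Type} [Fintype m] [Fintype n] [Fintype m'] [Fintype n']
    (e : m' ≃ m) (e' : n' ≃ n) (M : m → n → ℂ) (v : m → ℂ) (w : n → ℂ) :
    fm (fun i j => M (e i) (e' j)) (fun i => v (e i)) (fun j => w (e' j)) = fm M v w := by
  unfold fm
  rw [← e.sum_comp]
  exact Finset.sum_congr rfl fun i _ =>
    e'.sum_comp fun j => conj (v (e i)) * M (e i) j * w j

theorem nsq_equiv {m m' : Type} [Fintype m] [Fintype m'] (e : m' ≃ m) (v : m → ℂ) :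
    nsq (fun i => v (e i)) = nsq v := e.sum_comp fun i => ‖v i‖ ^ 2

theorem Bd.equiv {m n m' n' : Type} [Fintype m] [Fintype n] [Fintype m'] [Fintype n']
    {M : m → n → ℂ} {c : ℝ} (h : Bd M c) (e : m' ≃ m) (e' : n' ≃ n) :
    Bd (fun i j => M (e i) (e' j)) c := fun v w => by
  have := h (fun i => v (e.symm i)) fun j => w (e'.symm j)
  rw [← fm_equiv e e', nsq_equiv, nsq_equiv] at this
  simpa using this

theorem CCF.bd {m : Type} [Fintype m] {θ : m → m → StrongDual ℂ A} (h : CCF θ) (a : A) :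
    Bd (fun x y => θ x y a) ‖a‖ := by
  have := (h 1 (Matrix.of fun _ _ => a)).equiv (Equiv.uniqueProd m (Fin 1)).symm
    (Equiv.uniqueProd m (Fin 1)).symm
  rw [mn_one_one] at this
  exact this

theorem CCF.norm_le {m : Type} [Fintype m] {θ : m → m → StrongDual ℂ A} (h : CCF θ) (x y : m) :
    ‖θ x y‖ ≤ 1 :=
  ContinuousLinearMap.opNorm_le_bound _ zero_le_one fun a => by
    rw [one_mul]; exact (h.bd a).entry x y

theorem CCF.of_tendsto {m ι : Type} [Fintype m] {l : Filter ι} [l.NeBot]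
    {θ : ι → m → m → StrongDual ℂ A} {θ' : m → m → StrongDual ℂ A}
    (h : ∀ x y a, Tendsto (fun i => θ i x y a) l (𝓝 (θ' x y a))) (hb : ∀ᶠ i in l, CCF (θ i)) :
    CCF θ' := fun k a =>
  Bd.of_tendsto (M := fun i (p q : Fin k × m) => θ i p.2 q.2 (a p.1 q.1))
    (fun _ _ => h _ _ _) (hb.mono fun _ hi => hi k a)

section GoodL

variable {d : ℕ} {e : Fin d → Bid A} {Φ Φ' : ℕ → Fin d → StrongDual ℂ A} {m m' : ℕ → ℝ}
  {err err' : ℝ}

theorem GoodL.mono (h : GoodL e Φ m err) (hl : err ≤ err') : GoodL e Φ m err' :=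
  fun F μ h1 h2 => (h F μ h1 h2).trans (by linarith)

theorem GoodL.of_forall (h : ∀ η, 0 < η → GoodL e Φ m (err + η)) : GoodL e Φ m err :=
  fun F μ h1 h2 => le_of_forall_pos_le_add fun η hη => by
    have := h η hη F μ h1 h2; linarith

theorem GoodL.congr (h : GoodL e Φ m err) (h1 : ∀ᶠ i in UU, Φ i = Φ' i)
    (h2 : ∀ᶠ i in UU, m i = m' i) : GoodL e Φ' m' err := fun F μ h3 h4 =>
  h F μ (fun j a => (h3 j a).congr' (h1.mono fun i hi => by simp only [hi]))
    (h4.congr' (h2.mono fun _ hi => hi.symm))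

end GoodL

end Alg

/-! ### Vectors -/

section Vec

variable {G K : Type} [Fintype K]

theorem ms_nonneg (ζ : Vec G K) : 0 ≤ ms ζ := Finset.sum_nonneg fun _ _ => nsq_nonneg _

theorem ms_eq_sum {ζ : Vec G K} {s : Finset G} (h : ζ.support ⊆ s) :
    ms ζ = ∑ x ∈ s, nsq (ζ x) :=
  Finset.sum_subset h fun x _ hx => by simp [Finsupp.notMem_support_iff.1 hx]

theorem sum_nsq_le_ms (ζ : Vec G K) (s : Finset G) : ∑ x ∈ s, nsq (ζ x) ≤ ms ζ := by
  rw [ms_eq_sum (Finset.subset_union_right (s₁ := s))]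
  exact Finset.sum_le_sum_of_subset_of_nonneg Finset.subset_union_left fun _ _ _ => nsq_nonneg _

theorem ms_le_of_le {K' : Type} [Fintype K'] {ζ : Vec G K} {ζ' : Vec G K'}
    (h : ∀ x, nsq (ζ x) ≤ nsq (ζ' x)) : ms ζ ≤ ms ζ' :=
  (Finset.sum_le_sum fun x _ => h x).trans (sum_nsq_le_ms ζ' _)

@[simp] theorem ms_zero : ms (0 : Vec G K) = 0 := by simp [ms]

omit [Fintype K] in
theorem res_apply (S : Set G) (ζ : Vec G K) (x : G) : res S ζ x = if x ∈ S then ζ x else 0 :=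
  Finsupp.filter_apply _ _ _

omit [Fintype K] in
theorem support_res (S : Set G) (ζ : Vec G K) :
    (res S ζ).support = ζ.support.filter (· ∈ S) := Finsupp.support_filter _ _

omit [Fintype K] in
theorem mem_support_res {S : Set G} {ζ : Vec G K} {x : G} :
    x ∈ (res S ζ).support ↔ x ∈ ζ.support ∧ x ∈ S := by
  rw [support_res, Finset.mem_filter]

omit [Fintype K] in
theorem res_res (S S' : Set G) (ζ : Vec G K) : res S (res S' ζ) = res (S' ∩ S) ζ := by
  ext x : 1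
  simp only [res_apply, Set.mem_inter_iff]
  by_cases h : x ∈ S <;> by_cases h' : x ∈ S' <;> simp [h, h']

omit [Fintype K] in
theorem res_add_compl (S : Set G) (ζ : Vec G K) : res S ζ + res Sᶜ ζ = ζ := by
  ext x : 1
  simp only [Finsupp.add_apply, res_apply, Set.mem_compl_iff]
  by_cases h : x ∈ S <;> simp [h]

theorem ms_res (S : Set G) (ζ : Vec G K) :
    ms (res S ζ) = ∑ x ∈ ζ.support, if x ∈ S then nsq (ζ x) else 0 := by
  rw [ms_eq_sum (s := ζ.support) (by rw [support_res]; exact Finset.filter_subset _ _)]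
  exact Finset.sum_congr rfl fun x _ => by rw [res_apply]; split_ifs <;> simp

theorem ms_res_add_compl (S : Set G) (ζ : Vec G K) : ms (res S ζ) + ms (res Sᶜ ζ) = ms ζ := by
  rw [ms_res, ms_res, ← Finset.sum_add_distrib, ms]
  exact Finset.sum_congr rfl fun x _ => by by_cases h : x ∈ S <;> simp [h]

theorem ms_res_mono {S S' : Set G} (h : S ⊆ S') (ζ : Vec G K) : ms (res S ζ) ≤ ms (res S' ζ) := by
  rw [ms_res, ms_res]
  refine Finset.sum_le_sum fun x _ => ?_
  by_cases h1 : x ∈ S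
  · simp [h1, h h1]
  · simp only [h1, if_false]; split_ifs; exacts [nsq_nonneg _, le_rfl]

theorem ms_res_le (S : Set G) (ζ : Vec G K) : ms (res S ζ) ≤ ms ζ := by
  have := ms_res_add_compl S ζ
  have := ms_nonneg (res Sᶜ ζ)
  linarith

/-- Additivity of the mass for a subset. -/
theorem ms_res_diff {S S' : Set G} (h : S ⊆ S') (ζ : Vec G K) :
    ms (res (S' ∩ Sᶜ) ζ) = ms (res S' ζ) - ms (res S ζ) := by
  have := ms_res_add_compl S (res S' ζ)
  rw [res_res, res_res, Set.inter_eq_self_of_subset_right h] at this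
  linarith

theorem Small.mono {k : ℕ → ℕ} {ζ : ∀ i, Vec G (Fin (k i))} {S S' : ℕ → Set G} {η η' : ℝ}
    (h : Small ζ S η) (hS : ∀ i, S' i ⊆ S i) (hη : η ≤ η') : Small ζ S' η' :=
  Filter.Eventually.mono h fun i hi => ((ms_res_mono (hS i) _).trans hi).trans hη

theorem small_res {k : ℕ → ℕ} {ζ : ∀ i, Vec G (Fin (k i))} {S U : ℕ → Set G} {η : ℝ} :
    Small (fun i => res (U i) (ζ i)) S η ↔ Small ζ (fun i => U i ∩ S i) η := by
  simp only [Small, res_res]

omit [Fintype K] in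
theorem cut_apply (P : Finset K) (ζ : Vec G K) (x : G) (p : K) :
    cut P ζ x p = if p ∈ P then ζ x p else 0 := rfl

omit [Fintype K] in
theorem support_cut (P : Finset K) (ζ : Vec G K) : (cut P ζ).support ⊆ ζ.support :=
  Finsupp.support_mapRange

omit [Fintype K] in
theorem cms_nonneg (ζ : Vec G K) (p : K) : 0 ≤ cms ζ p :=
  Finset.sum_nonneg fun _ _ => by positivity

omit [Fintype K] in
theorem cms_eq_sum {ζ : Vec G K} {s : Finset G} (h : ζ.support ⊆ s) (p : K) :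
    cms ζ p = ∑ x ∈ s, ‖ζ x p‖ ^ 2 :=
  Finset.sum_subset h fun x _ hx => by simp [Finsupp.notMem_support_iff.1 hx]

theorem ms_eq_sum_cms (ζ : Vec G K) : ms ζ = ∑ p, cms ζ p := Finset.sum_comm

omit [Fintype K] in
theorem cms_cut (P : Finset K) (ζ : Vec G K) (p : K) :
    cms (cut P ζ) p = if p ∈ P then cms ζ p else 0 := by
  rw [cms_eq_sum (support_cut P ζ)]
  simp only [cut_apply]
  split_ifs <;> simp [cms]

theorem ms_cut (P : Finset K) (ζ : Vec G K) : ms (cut P ζ) = ∑ p ∈ P, cms ζ p := by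
  rw [ms_eq_sum_cms]; simp [cms_cut]

theorem nsq_cut_le (P : Finset K) (ζ : Vec G K) (x : G) : nsq (cut P ζ x) ≤ nsq (ζ x) :=
  Finset.sum_le_sum fun p _ => by rw [cut_apply]; split_ifs <;> simp

omit [Fintype K] in
theorem dg_iff {ζ : Vec G K} {s : Finset G} (h : ζ.support ⊆ s) :
    DG ζ ↔ ∀ p q, p ≠ q → ∑ x ∈ s, conj (ζ x p) * ζ x q = 0 := by
  have : ∀ p q, ∑ x ∈ ζ.support, conj (ζ x p) * ζ x q = ∑ x ∈ s, conj (ζ x p) * ζ x q :=
    fun p q => Finset.sum_subset h fun x _ hx => by simp [Finsupp.notMem_support_iff.1 hx]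
  simp only [DG, this]

omit [Fintype K] in
theorem DG.cut {ζ : Vec G K} (h : DG ζ) (P : Finset K) : DG (cut P ζ) := by
  rw [dg_iff (support_cut P ζ)]
  intro p q hpq
  simp only [cut_apply]
  by_cases hp : p ∈ P <;> by_cases hq : q ∈ P <;> simp [hp, hq, h p q hpq]

end Vec

/-! ### The regular representation -/

namespace Reg

variable {G : Type} [Group G] {A : Type} [CStarAlgebra A] [PartialOrder A] [StarOrderedRing A]
  (R : Reg G A)

theorem ccf_co (s : Finset G) : CCF fun x y : s => R.co x y := fun k a => R.mat_le k a s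

theorem bd_co (s : Finset G) (a : A) : Bd (fun x y : s => R.co x y a) ‖a‖ := (R.ccf_co s).bd a

theorem norm_co_le (x y : G) : ‖R.co x y‖ ≤ 1 :=
  (R.ccf_co {x, y}).norm_le ⟨x, by simp⟩ ⟨y, by simp⟩

theorem norm_le_of_bd (a : A) {c : ℝ} (hc : 0 ≤ c)
    (h : ∀ s : Finset G, Bd (fun x y : s => R.co x y a) c) : ‖a‖ ≤ c := by
  rw [← mn_one_one]
  exact R.le_mat 1 _ c hc fun s =>
    (h s).equiv (Equiv.uniqueProd s (Fin 1)) (Equiv.uniqueProd s (Fin 1))

theorem norm_u_le (g : G) : ‖R.u g‖ ≤ 1 := by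
  have h : star (R.u g) * R.u g = 1 := by rw [R.u_star, ← map_mul, inv_mul_cancel, map_one]
  have h2 := CStarRing.norm_star_mul_self (x := R.u g)
  rw [h] at h2
  have h3 : ‖(1 : A)‖ ≤ 1 := by
    rcases subsingleton_or_nontrivial A with h | h
    · rw [Subsingleton.elim (1 : A) 0, norm_zero]; exact zero_le_one
    · exact norm_one.le
  nlinarith [norm_nonneg (R.u g)]

/-- A closed condition that holds on the span of the `u g` holds everywhere. -/
theorem induction {P : A → Prop} (hc : IsClosed {a | P a})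
    (h : ∀ a ∈ Submodule.span ℂ (Set.range R.u), P a) (a : A) : P a :=
  R.dense.induction (P := P) h hc a

theorem ext_u {F F' : StrongDual ℂ A} (h : ∀ g, F (R.u g) = F' (R.u g)) : F = F' :=
  ContinuousLinearMap.ext_on R.dense (by rintro _ ⟨g, rfl⟩; exact h g)

theorem norm_le_of_span {F : StrongDual ℂ A} {c : ℝ} (hc : 0 ≤ c)
    (h : ∀ a ∈ Submodule.span ℂ (Set.range R.u), ‖F a‖ ≤ c * ‖a‖) : ‖F‖ ≤ c :=
  ContinuousLinearMap.opNorm_le_bound _ hc
    (R.induction (isClosed_le (by fun_prop) (by fun_prop)) h)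

theorem mem_span_iff {a : A} : a ∈ Submodule.span ℂ (Set.range R.u) ↔
    ∃ c : G →₀ ℂ, a = ∑ g ∈ c.support, c g • R.u g := by
  rw [Finsupp.mem_span_range_iff_exists_finsupp]
  exact ⟨fun ⟨c, hc⟩ => ⟨c, hc.symm⟩, fun ⟨c, hc⟩ => ⟨c, hc.symm⟩⟩

theorem co_shift (x y g h : G) (a : A) :
    R.co x y (R.u g * a * R.u h) = R.co (x * g) (y * h⁻¹) a := by
  have : (R.co x y).comp (ContinuousLinearMap.mulLeftRight ℂ A (R.u g) (R.u h)) =
      R.co (x * g) (y * h⁻¹) := R.ext_u fun k => by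
    simp only [ContinuousLinearMap.comp_apply, ContinuousLinearMap.mulLeftRight_apply,
      ← map_mul, R.co_u, mul_inv_eq_iff_eq_mul, mul_assoc]
  exact DFunLike.congr_fun this a

theorem co_one (x y : G) : R.co x y 1 = if y = x then 1 else 0 := by
  rw [← map_one R.u, R.co_u, mul_one]

variable {K : Type} [Fintype K]

theorem Q2_eq_sum (b : K → K → ℂ) {ζ ζ' : Vec G K} {s s' : Finset G} (h : ζ.support ⊆ s)
    (h' : ζ'.support ⊆ s') :
    R.Q2 b ζ ζ' = ∑ x ∈ s, ∑ y ∈ s', fm b (ζ x) (ζ' y) • R.co x y := by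
  unfold Q2
  rw [Finset.sum_subset h fun x _ hx => by simp [Finsupp.notMem_support_iff.1 hx]]
  exact Finset.sum_congr rfl fun x _ => Finset.sum_subset h' fun y _ hy => by
    simp [Finsupp.notMem_support_iff.1 hy]

theorem Q2_apply (b : K → K → ℂ) {ζ ζ' : Vec G K} {s : Finset G} (h : ζ.support ⊆ s)
    (h' : ζ'.support ⊆ s) (a : A) : R.Q2 b ζ ζ' a =
      fm (fun (p q : K × s) => b p.1 q.1 * R.co p.2 q.2 a) (fun p => ζ p.2 p.1)
        fun q => ζ' q.2 q.1 := by
  rw [R.Q2_eq_sum b h h', ← Finset.sum_coe_sort s]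
  simp only [_root_.sum_apply, _root_.smul_apply, smul_eq_mul, fm,
    Fintype.sum_prod_type_right]
  refine Finset.sum_congr rfl fun x _ => ?_
  rw [← Finset.sum_coe_sort s, Finset.sum_comm]
  refine Finset.sum_congr rfl fun y _ => ?_
  simp only [Finset.sum_mul]
  exact Finset.sum_congr rfl fun _ _ => Finset.sum_congr rfl fun _ _ => by ring

theorem nsq_vec {ζ : Vec G K} {s : Finset G} (h : ζ.support ⊆ s) :
    nsq (fun p : K × s => ζ p.2 p.1) = ms ζ := by
  rw [ms_eq_sum h, ← Finset.sum_coe_sort s, nsq, Fintype.sum_prod_type_right]; rfl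

theorem Q2_u (b : K → K → ℂ) (ζ ζ' : Vec G K) (g : G) :
    R.Q2 b ζ ζ' (R.u g) = ∑ x ∈ ζ.support, fm b (ζ x) (ζ' (x * g)) := by
  unfold Q2
  simp only [_root_.sum_apply, _root_.smul_apply, smul_eq_mul, R.co_u]
  refine Finset.sum_congr rfl fun x _ => ?_
  rw [Finset.sum_eq_single (x * g)]
  · simp
  · intro y _ hy; simp [hy]
  · intro hy; simp [Finsupp.notMem_support_iff.1 hy]

theorem norm_Q2_le {b : K → K → ℂ} {c : ℝ} (hc : 0 ≤ c) (hb : Bd b c) (ζ ζ' : Vec G K) :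
    ‖R.Q2 b ζ ζ'‖ ≤ c * √(ms ζ) * √(ms ζ') := by
  refine ContinuousLinearMap.opNorm_le_bound _ (by positivity) fun a => ?_
  have h1 : ζ.support ⊆ ζ.support ∪ ζ'.support := Finset.subset_union_left
  have h2 : ζ'.support ⊆ ζ.support ∪ ζ'.support := Finset.subset_union_right
  rw [R.Q2_apply b h1 h2]
  refine (hb.kron hc (norm_nonneg a) (R.bd_co _ a) _ _).trans (le_of_eq ?_)
  rw [nsq_vec h1, nsq_vec h2]; ring

theorem norm_Q_le {b : K → K → ℂ} {c : ℝ} (hc : 0 ≤ c) (hb : Bd b c) (ζ : Vec G K) :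
    ‖R.Q b ζ‖ ≤ c * ms ζ := by
  have := R.norm_Q2_le hc hb ζ ζ
  rwa [mul_assoc, Real.mul_self_sqrt (ms_nonneg ζ)] at this

theorem Q2_add_left (b : K → K → ℂ) (ζ₁ ζ₂ ζ' : Vec G K) :
    R.Q2 b (ζ₁ + ζ₂) ζ' = R.Q2 b ζ₁ ζ' + R.Q2 b ζ₂ ζ' := by
  rw [R.Q2_eq_sum b Finsupp.support_add le_rfl,
    R.Q2_eq_sum b (Finset.subset_union_left (s₂ := ζ₂.support)) le_rfl,
    R.Q2_eq_sum b (Finset.subset_union_right (s₁ := ζ₁.support)) le_rfl]
  simp [fm_add_left, add_smul, Finset.sum_add_distrib]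

theorem Q2_add_right (b : K → K → ℂ) (ζ ζ₁ ζ₂ : Vec G K) :
    R.Q2 b ζ (ζ₁ + ζ₂) = R.Q2 b ζ ζ₁ + R.Q2 b ζ ζ₂ := by
  rw [R.Q2_eq_sum b le_rfl Finsupp.support_add,
    R.Q2_eq_sum b le_rfl (Finset.subset_union_left (s₂ := ζ₂.support)),
    R.Q2_eq_sum b le_rfl (Finset.subset_union_right (s₁ := ζ₁.support))]
  simp [fm_add_right, add_smul, Finset.sum_add_distrib]

theorem Q_add (b : K → K → ℂ) (ζ ζ' : Vec G K) :
    R.Q b (ζ + ζ') = R.Q b ζ + R.Q b ζ' + (R.Q2 b ζ ζ' + R.Q2 b ζ' ζ) := by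
  simp only [Q, Q2_add_left, Q2_add_right]; abel

theorem Q2_sub_mat (b b' : K → K → ℂ) (ζ ζ' : Vec G K) :
    R.Q2 (fun p q => b p q - b' p q) ζ ζ' = R.Q2 b ζ ζ' - R.Q2 b' ζ ζ' := by
  simp [Q2, fm_sub_mat, sub_smul, Finset.sum_sub_distrib]

end Reg

end Pool.Agent.MP_88ca14_an
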